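import Pool.Agent.MP_d0b2d2_an.Gen.Defs

open MeasureTheory Set Filter Topology Metric

namespace Pool.Agent.MP_d0b2d2_an.Gen.TS

variable {X : Type} [TopologicalSpace X] [T2Space X] [MeasurableSpace X] {μ : Measure X}
  {S : TS X μ} {x : X} {v : ℂ}

omit [T2Space X] in
theorem api1_loc (hx : x ∉ S.Sg) : ∃ r > 0, (∀ y : ℂ, ‖y‖ < r → S.Ok x y) ∧
    (∀ y y' : ℂ, ‖y‖ < r → ‖y'‖ < r →
      S.Ok (S.mv x y) (y' - y) ∧ S.mv (S.mv x y) (y' - y) = S.mv x y') ∧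
    InjOn (S.mv x) (ball 0 r) ∧ ContinuousOn (S.mv x) (ball 0 r) ∧
    ∀ V ⊆ ball (0 : ℂ) r, IsOpen V → IsOpen (S.mv x '' V) := by
  obtain ⟨U, hU, h1, h2, h3, h4, h5, -⟩ := S.loc x hx
  obtain ⟨r, hr, h⟩ := Metric.mem_nhds_iff.1 hU
  have m : ∀ y : ℂ, ‖y‖ < r → y ∈ U := fun y hy => h (mem_ball_zero_iff.2 hy)
  exact ⟨r, hr, fun y hy => h1 y (m y hy), fun y y' hy hy' => h2 y (m y hy) y' (m y' hy'),
    h3.mono h, h4.mono h, fun V hV => h5 V (hV.trans h)⟩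

omit [T2Space X] in
theorem api1_cat {t : ℝ} (h0 : 0 ≤ t) (h1 : t ≤ 1) (h : S.Ok x (t • v))
    (h' : S.Ok (S.mv x (t • v)) ((1 - t) • v)) :
    S.Ok x v ∧ S.mv x v = S.mv (S.mv x (t • v)) ((1 - t) • v) := by
  have a := (S.split x v t (1 - t) h0 (sub_nonneg.2 h1)).2 ⟨h, h'⟩
  have b := S.add x v t (1 - t) h0 (sub_nonneg.2 h1) a
  rw [add_sub_cancel, one_smul] at a b
  exact ⟨a, b⟩

theorem api1_ind {P : ℝ → Prop} (h0 : P 0) (h : ∀ t₀ ∈ Icc (0 : ℝ) 1, ∃ ε > 0, ∀ s t, 0 ≤ s →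
    s ≤ t → t ≤ 1 → |s - t₀| < ε → |t - t₀| < ε → P s → P t) : P 1 := by
  let A : Set ℝ := {t | t ∈ Icc (0 : ℝ) 1 ∧ P t}
  have ne : A.Nonempty := ⟨0, ⟨le_rfl, zero_le_one⟩, h0⟩
  have bd : BddAbove A := ⟨1, fun t ht => ht.1.2⟩
  have T0 : 0 ≤ sSup A := le_csSup bd ⟨⟨le_rfl, zero_le_one⟩, h0⟩
  have T1 : sSup A ≤ 1 := csSup_le ne fun t ht => ht.1.2
  obtain ⟨ε, hε, H⟩ := h _ ⟨T0, T1⟩
  obtain ⟨s, hs, hs'⟩ := exists_lt_of_lt_csSup ne (show sSup A - ε < sSup A by linarith)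
  have sT := le_csSup bd hs
  have a : |s - sSup A| < ε := abs_lt.2 ⟨by linarith, by linarith⟩
  by_cases c : 1 ≤ sSup A + ε / 2
  · exact H s 1 hs.1.1 hs.1.2 le_rfl a (abs_lt.2 ⟨by linarith, by linarith⟩) hs.2
  · have := le_csSup bd (show sSup A + ε / 2 ∈ A from ⟨⟨by linarith, by linarith⟩,
      H s _ hs.1.1 (by linarith) (by linarith) a (abs_lt.2 ⟨by linarith, by linarith⟩) hs.2⟩)
    linarith

theorem api1_small (v : ℂ) {ρ : ℝ} (hρ : 0 < ρ) :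
    ∃ ε > 0, ∀ a : ℝ, |a| < ε → ‖a • v‖ < ρ := by
  refine ⟨ρ / (‖v‖ + 1), by positivity, fun a ha => ?_⟩
  rw [lt_div_iff₀ (by positivity)] at ha
  rw [norm_smul, Real.norm_eq_abs]
  nlinarith [abs_nonneg a]

omit [T2Space X] in
theorem ok_zero : S.Ok x 0 ↔ x ∉ S.Sg := 
  ⟨fun h => (S.reg _ _ h).1, fun h => by
    obtain ⟨r, hr, h1, -⟩ := api1_loc h
    exact h1 0 (by simpa using hr)⟩

omit [T2Space X] in
theorem ok_smul (h : S.Ok x v) {t : ℝ} (h0 : 0 ≤ t) (h1 : t ≤ 1) : S.Ok x (t • v) := 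
  ((S.split x v t (1 - t) h0 (sub_nonneg.2 h1)).1 (by rwa [add_sub_cancel, one_smul])).1

omit [T2Space X] in
theorem api1_line (h : S.Ok x v) {s t : ℝ} (s0 : 0 ≤ s) (s1 : s ≤ 1) (t0 : 0 ≤ t) (t1 : t ≤ 1) :
    S.mv (S.mv x (s • v)) ((t - s) • v) = S.mv x (t • v) := by
  rcases le_total s t with c | c
  · have := S.add x v s (t - s) s0 (sub_nonneg.2 c)
    rw [add_sub_cancel] at this
    exact (this (ok_smul h t0 t1)).symm
  · have a := S.split x v t (s - t) t0 (sub_nonneg.2 c)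
    have b := S.add x v t (s - t) t0 (sub_nonneg.2 c)
    rw [add_sub_cancel] at a b
    have e := (S.symm _ _ (a.1 (ok_smul h s0 s1)).2).2
    rwa [← b (ok_smul h s0 s1), ← neg_smul, neg_sub] at e

omit [T2Space X] in
theorem localTrans (h : S.Ok x v) : ∃ r > 0, ∀ d d' : ℂ, ‖d‖ < r → ‖d'‖ < r → S.Ok x d ∧
    S.Ok (S.mv x d) (v + d') ∧ S.Ok (S.mv x v) (d + d') ∧
    S.mv (S.mv x d) (v + d') = S.mv (S.mv x v) (d + d') := by
  have key := api1_ind (P := fun t : ℝ => ∃ r > 0, ∀ d d' : ℂ, ‖d‖ < r → ‖d'‖ < r → S.Ok x d ∧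
    S.Ok (S.mv x d) (t • v + d') ∧ S.Ok (S.mv x (t • v)) (d + d') ∧
    S.mv (S.mv x d) (t • v + d') = S.mv (S.mv x (t • v)) (d + d')) ?_ ?_
  · simpa only [one_smul] using key
  · obtain ⟨r, hr, h1, h2, -⟩ := api1_loc (S.reg _ _ h).1
    refine ⟨r / 2, half_pos hr, fun d d' hd hd' => ?_⟩
    have n : ‖d + d'‖ < r := by linarith [norm_add_le d d']
    have := h2 d (d + d') (by linarith) n
    rw [add_sub_cancel_left] at this
    simp only [zero_smul, zero_add, S.mv_zero]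
    exact ⟨h1 d (by linarith), this.1, h1 _ n, this.2⟩
  · intro t₀ ht₀
    obtain ⟨ρ, hρ, -, h2, -⟩ := api1_loc (S.reg _ _ (ok_smul h ht₀.1 ht₀.2)).2
    obtain ⟨ε, hε, hs⟩ := api1_small v (show 0 < ρ / 2 by positivity)
    refine ⟨ε, hε, fun s t s0 st t1 a b ⟨r, hr, H⟩ => ?_⟩
    rcases (s0.trans st).eq_or_lt with c | c
    · obtain rfl : s = t := le_antisymm st (c ▸ s0)
      exact ⟨r, hr, H⟩
    refine ⟨min r (ρ / 4), by positivity, fun d d' hd hd' => ?_⟩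
    rw [lt_min_iff] at hd hd'
    have l0 : 0 ≤ s / t := div_nonneg s0 c.le
    have l1 : s / t ≤ 1 := (div_le_one c).2 st
    have n : ‖(s / t) • d'‖ ≤ ‖d'‖ := by
      rw [norm_smul, Real.norm_of_nonneg l0]
      exact mul_le_of_le_one_left (norm_nonneg _) l1
    obtain ⟨a1, a2, -, a4⟩ := H d ((s / t) • d') hd.1 (n.trans_lt hd'.1)
    have e1 : s • v + (s / t) • d' = (s / t) • (t • v + d') := by
      rw [smul_add, smul_smul, div_mul_cancel₀ _ c.ne']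
    have na := hs _ a
    have nb := hs _ b
    have n1 : ‖(s - t₀) • v + (d + (s / t) • d')‖ < ρ := by
      linarith [norm_add_le ((s - t₀) • v) (d + (s / t) • d'), norm_add_le d ((s / t) • d')]
    have n2 : ‖(t - t₀) • v + (d + d')‖ < ρ := by
      linarith [norm_add_le ((t - t₀) • v) (d + d'), norm_add_le d d']
    have b1 := (h2 _ _ (by linarith) n1 : _ ∧ S.mv (S.mv _ ((s - t₀) • v)) _ = _).2
    have b2 := h2 ((t - t₀) • v) _ (by linarith) n2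
    have b3 := h2 _ _ n1 n2
    rw [add_sub_cancel_left] at b1 b2
    rw [api1_line h ht₀.1 ht₀.2 s0 (st.trans t1)] at b1
    rw [api1_line h ht₀.1 ht₀.2 c.le t1] at b2
    have e2 : (t - t₀) • v + (d + d') - ((s - t₀) • v + (d + (s / t) • d')) =
        (1 - s / t) • (t • v + d') := by
      rw [sub_smul 1, ← e1]
      module
    rw [e2, ← b1, ← a4, e1] at b3
    rw [e1] at a2
    obtain ⟨c1, c2⟩ := api1_cat l0 l1 a2 b3.1
    exact ⟨a1, c1, b2.1, c2.trans (b3.2.trans b2.2.symm)⟩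

omit [T2Space X] in
theorem nhds_image (hx : x ∉ S.Sg) {r : ℝ} (hr : 0 < r) :
    S.mv x '' {d | ‖d‖ < r ∧ S.Ok x d} ∈ 𝓝 x := by
  obtain ⟨ρ, hρ, h1, -, -, -, h5⟩ := api1_loc hx
  refine mem_of_superset ((h5 (ball 0 (min r ρ)) (ball_subset_ball (min_le_right _ _))
    isOpen_ball).mem_nhds ⟨0, mem_ball_self (by positivity), S.mv_zero x⟩)
    (image_mono fun d hd => ?_)
  rw [mem_ball_zero_iff, lt_min_iff] at hd
  exact ⟨hd.1, h1 d hd.2⟩

omit [T2Space X] in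
theorem api1_nhds (h : S.Ok x v) {W : Set X} (hW : W ∈ 𝓝 (S.mv x v)) :
    ∀ᶠ p : X × ℂ in 𝓝 (x, v), S.Ok p.1 p.2 ∧ S.mv p.1 p.2 ∈ W := by
  obtain ⟨r, hr, H⟩ := localTrans h
  obtain ⟨ρ, hρ, -, -, -, h4, -⟩ := api1_loc (S.reg _ _ h).2
  have c := h4.continuousAt (ball_mem_nhds 0 hρ)
  obtain ⟨η, hη, hc⟩ := Metric.mem_nhds_iff.1 (c.preimage_mem_nhds (by rwa [S.mv_zero]))
  have p : 0 < min r (η / 2) := by positivity
  filter_upwards [prod_mem_nhds (nhds_image (S.reg _ _ h).1 p) (ball_mem_nhds v p)]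
  rintro ⟨_, w⟩ ⟨⟨d, ⟨hd, -⟩, rfl⟩, hw⟩
  rw [mem_ball_iff_norm, lt_min_iff] at hw
  rw [lt_min_iff] at hd
  obtain ⟨-, a, -, b⟩ := H d (w - v) hd.1 hw.1
  rw [add_sub_cancel] at a b
  refine ⟨a, b ▸ hc (mem_ball_zero_iff.2 ?_)⟩
  linarith [norm_add_le d (w - v), hd.2, hw.2]

omit [T2Space X] in
theorem isOpen_ok (S : TS X μ) : IsOpen {p : X × ℂ | S.Ok p.1 p.2} := 
  isOpen_iff_mem_nhds.2 fun _ h => (api1_nhds h univ_mem).mono fun _ h => h.1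

omit [T2Space X] in
theorem continuousOn_mv (S : TS X μ) :
    ContinuousOn (fun p : X × ℂ => S.mv p.1 p.2) {p | S.Ok p.1 p.2} := 
  fun _ h => ContinuousAt.continuousWithinAt fun _ hW => (api1_nhds h hW).mono fun _ h => h.2

omit [T2Space X] in
theorem isOpen_ok_right (x : X) : IsOpen {y | S.Ok x y} := 
  S.isOpen_ok.preimage (f := fun y : ℂ => (x, y)) (by fun_prop)

omit [T2Space X] in
theorem continuousAt_mv_right (h : S.Ok x v) : ContinuousAt (S.mv x) v := 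
  ContinuousAt.comp (f := fun y : ℂ => (x, y)) (g := fun p : X × ℂ => S.mv p.1 p.2)
    (S.continuousOn_mv.continuousAt (S.isOpen_ok.mem_nhds h)) (by fun_prop)

omit [T2Space X] in
theorem ok_symm (h : S.Ok x v) : S.Ok (S.mv x v) (-v) ∧ S.mv (S.mv x v) (-v) = x := S.symm x v h

omit [T2Space X] in
theorem develop {D : Set ℂ} (hD : Convex ℝ D) (h0 : 0 ∈ D) {ψ : ℂ → X} (hψ : ψ 0 = x)
    (hloc : ∀ y ∈ D, ∃ r > 0, ∀ y' ∈ D, ‖y' - y‖ < r →
      S.Ok (ψ y) (y' - y) ∧ S.mv (ψ y) (y' - y) = ψ y') :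
    ∀ y ∈ D, S.Ok x y ∧ S.mv x y = ψ y := by
  intro y hy
  have reg : ∀ z ∈ D, ψ z ∉ S.Sg := fun z hz => by
    obtain ⟨r, hr, H⟩ := hloc z hz
    exact (S.reg _ _ (H z hz (by simpa using hr)).1).1
  have key := api1_ind (P := fun t : ℝ => S.Ok x (t • y) ∧ S.mv x (t • y) = ψ (t • y)) ?_ ?_
  · simpa only [one_smul] using key
  · simp only [zero_smul, S.mv_zero]
    exact ⟨ok_zero.2 (hψ ▸ reg 0 h0), hψ.symm⟩
  · intro t₀ ht₀
    have m : ∀ t : ℝ, 0 ≤ t → t ≤ 1 → t • y ∈ D := fun t a b =>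
      hD.smul_mem_of_zero_mem h0 hy ⟨a, b⟩
    obtain ⟨r, hr, H⟩ := hloc _ (m t₀ ht₀.1 ht₀.2)
    obtain ⟨ρ, hρ, -, h2, -⟩ := api1_loc (reg _ (m t₀ ht₀.1 ht₀.2))
    obtain ⟨ε, hε, hs⟩ := api1_small y (show 0 < min r ρ by positivity)
    refine ⟨ε, hε, fun s t s0 st t1 a b ⟨c1, c2⟩ => ?_⟩
    have na := lt_min_iff.1 (hs _ a)
    have nb := lt_min_iff.1 (hs _ b)
    have e := h2 _ _ na.2 nb.2
    rw [sub_smul] at na nb
    rw [sub_smul s, sub_smul t, (H _ (m s s0 (st.trans t1)) na.1).2,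
      (H _ (m t (s0.trans st) t1) nb.1).2, sub_sub_sub_cancel_right, ← sub_smul, ← c2] at e
    have f1 := (S.split x y s (t - s) s0 (sub_nonneg.2 st)).2 ⟨c1, e.1⟩
    have f2 := S.add x y s (t - s) s0 (sub_nonneg.2 st) f1
    rw [add_sub_cancel] at f1 f2
    exact ⟨f1, f2.trans e.2⟩

omit [T2Space X] in
theorem convex_ok {D : Set ℂ} (hD : Convex ℝ D) (h0 : 0 ∈ D) (h : ∀ y ∈ D, S.Ok x y) :
    ∀ y ∈ D, ∀ y' ∈ D, S.Ok (S.mv x y) (y' - y) ∧ S.mv (S.mv x y) (y' - y) = S.mv x y' := by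
  intro y hy y' hy'
  have := develop (S := S) (x := S.mv x y) (D := (fun w => y + w) ⁻¹' D)
    (ψ := fun w => S.mv x (y + w)) (hD.translate_preimage_right y) (by simpa using hy) (by simp)
    (fun w hw => by
      obtain ⟨r, hr, H⟩ := localTrans (h _ hw)
      refine ⟨r, hr, fun w' _ hn => ?_⟩
      obtain ⟨-, -, a, b⟩ := H 0 (w' - w) (by simpa using hr) hn
      rw [zero_add] at a b
      rw [S.mv_zero, add_assoc, add_sub_cancel] at b
      exact ⟨a, b.symm⟩) (y' - y) (by simpa using hy')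
  simpa only [add_sub_cancel] using this

omit [T2Space X] in
/-- moves along a line -/
theorem line_ok {s t : ℝ} (hs : S.Ok x (s • v)) (ht : S.Ok x (t • v)) :
    S.Ok (S.mv x (s • v)) ((t - s) • v) ∧ S.mv (S.mv x (s • v)) ((t - s) • v) = S.mv x (t • v) :=
  by
  have hc : Convex ℝ {u : ℝ | S.Ok x (u • v)} := by
    refine convex_iff_ordConnected.2 ⟨fun a ha b hb u hu => ?_⟩
    rcases lt_trichotomy u 0 with c | rfl | c
    · have a0 : a < 0 := hu.1.trans_lt c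
      have := ok_smul ha (div_nonneg_of_nonpos c.le a0.le) ((div_le_one_of_neg a0).2 hu.1)
      rwa [smul_smul, div_mul_cancel₀ _ a0.ne] at this
    · simpa using ok_smul ha le_rfl zero_le_one
    · have b0 : 0 < b := c.trans_le hu.2
      have := ok_smul hb (div_nonneg c.le b0.le) ((div_le_one b0).2 hu.2)
      rwa [smul_smul, div_mul_cancel₀ _ b0.ne'] at this
  rw [sub_smul]
  refine convex_ok (hc.linear_image (LinearMap.toSpanSingleton ℝ ℂ v))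
    ⟨0, by simpa using ok_smul hs le_rfl zero_le_one, by simp⟩ ?_ _ ⟨s, hs, rfl⟩ _ ⟨t, ht, rfl⟩
  rintro _ ⟨u, hu, rfl⟩
  exact hu

theorem ok_of_cluster (h : ∀ t : ℝ, 0 ≤ t → t < 1 → S.Ok x (t • v)) {q : X} (hq : q ∉ S.Sg)
    (hc : MapClusterPt q (𝓝[<] (1 : ℝ)) fun t : ℝ => S.mv x (t • v)) :
    S.Ok x v ∧ S.mv x v = q := by
  obtain ⟨ρ, hρ, -, h2, h3, -⟩ := api1_loc hq
  have key : ∀ r > 0, r ≤ ρ → S.Ok x v ∧ ∃ e : ℂ, ‖e‖ < r ∧ S.mv x v = S.mv q e := by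
    intro r hr rρ
    obtain ⟨ε, hε, hs⟩ := api1_small v (half_pos hr)
    obtain ⟨t, ⟨d, ⟨hd, -⟩, e⟩, ht⟩ := ((mapClusterPt_iff_frequently.1 hc _
      (nhds_image hq (half_pos hr))).and_eventually
      (Ioo_mem_nhdsLT (show max 0 (1 - ε) < 1 from max_lt one_pos (by linarith)))).exists
    have t0 := (max_lt_iff.1 ht.1).1
    have t1 := (max_lt_iff.1 ht.1).2
    have n := hs (1 - t) (abs_lt.2 ⟨by linarith [ht.2], by linarith⟩)
    have n' : ‖d + (1 - t) • v‖ < r := by linarith [norm_add_le d ((1 - t) • v)]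
    have a := h2 d _ (by linarith) (n'.trans_le rρ)
    rw [add_sub_cancel_left, e] at a
    obtain ⟨c1, c2⟩ := api1_cat t0.le ht.2.le (h t t0.le ht.2) a.1
    exact ⟨c1, _, n', c2.trans a.2⟩
  obtain ⟨a, e, he, b⟩ := key ρ hρ le_rfl
  refine ⟨a, ?_⟩
  by_cases c : e = 0
  · rw [b, c, S.mv_zero]
  · obtain ⟨-, e', he', b'⟩ := key ‖e‖ (norm_pos_iff.2 c) he.le
    rw [h3 (mem_ball_zero_iff.2 he) (mem_ball_zero_iff.2 (he'.trans he)) (b.symm.trans b')] at he'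
    exact absurd he' (lt_irrefl _)

omit [T2Space X] in
theorem exists_hit (hx : x ∉ S.Sg) (h : ¬ S.Ok x v) : ∃ t : ℝ, 0 < t ∧ t ≤ 1 ∧ S.Hit x (t • v) :=
  by
  have hc : IsClosed {t : ℝ | 0 ≤ t ∧ ¬ S.Ok x (t • v)} := isClosed_Ici.inter
    ((isOpen_ok_right x).preimage (f := fun t : ℝ => t • v) (by fun_prop)).isClosed_compl
  have m1 : (1 : ℝ) ∈ {t : ℝ | 0 ≤ t ∧ ¬ S.Ok x (t • v)} := ⟨zero_le_one, by rwa [one_smul]⟩
  have bd : BddBelow {t : ℝ | 0 ≤ t ∧ ¬ S.Ok x (t • v)} := ⟨0, fun t ht => ht.1⟩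
  obtain ⟨a, b⟩ := hc.csInf_mem ⟨1, m1⟩ bd
  have p := lt_of_le_of_ne a fun e => b (by rw [← e, zero_smul]; exact ok_zero.2 hx)
  refine ⟨_, p, csInf_le bd m1, b, fun s s0 s1 => ?_⟩
  rw [smul_smul]
  by_contra c
  nlinarith [csInf_le bd ⟨mul_nonneg s0 a, c⟩]

omit [T2Space X] in
theorem Hit.reg (h : S.Hit x v) : x ∉ S.Sg ∧ v ≠ 0 := by
  have a := h.2 0 le_rfl one_pos
  rw [zero_smul] at a
  exact ⟨ok_zero.1 a, fun e => h.1 (e ▸ a)⟩

omit [T2Space X] in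
theorem Hit.tail (h : S.Hit x v) {t : ℝ} (h0 : 0 ≤ t) (h1 : t < 1) :
    S.Hit (S.mv x (t • v)) ((1 - t) • v) := by
  refine ⟨fun a => h.1 (api1_cat h0 h1.le (h.2 t h0 h1) a).1, fun u u0 u1 => ?_⟩
  have p : 0 ≤ u * (1 - t) := mul_nonneg u0 (by linarith)
  rw [smul_smul]
  exact ((S.split x v t _ h0 p).1 (h.2 _ (by linarith) (by nlinarith))).2

omit [T2Space X] in
theorem Hit.cons {s t : ℝ} (hs : 0 ≤ s) (ht : 0 < t) (h : S.Ok x (s • v))
    (h' : S.Hit (S.mv x (s • v)) (t • v)) : S.Hit x ((s + t) • v) := by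
  refine ⟨fun a => h'.1 ((S.split x v s t hs ht.le).1 a).2, fun u u0 u1 => ?_⟩
  rw [smul_smul]
  have p : 0 ≤ u * (s + t) := by positivity
  rcases le_or_gt s (u * (s + t)) with c | c
  · have a := h'.2 ((u * (s + t) - s) / t) (div_nonneg (by linarith) ht.le)
      ((div_lt_one ht).2 (by nlinarith))
    rw [smul_smul, div_mul_cancel₀ _ ht.ne'] at a
    simpa only [add_sub_cancel] using (S.split x v s _ hs (by linarith)).2 ⟨h, a⟩
  · have s0 := p.trans_lt c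
    have a := ok_smul h (div_nonneg p hs) ((div_le_one s0).2 c.le)
    rwa [smul_smul, div_mul_cancel₀ _ s0.ne'] at a

omit [T2Space X] in
theorem Hit.eq_of_smul {s t : ℝ} (hs : 0 < s) (ht : 0 < t) (h : S.Hit x (s • v))
    (h' : S.Hit x (t • v)) : s = t := by
  rcases lt_trichotomy s t with c | c | c
  · have a := h'.2 (s / t) (by positivity) ((div_lt_one ht).2 c)
    rw [smul_smul, div_mul_cancel₀ _ ht.ne'] at a
    exact absurd a h.1
  · exact c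
  · have a := h.2 (t / s) (by positivity) ((div_lt_one hs).2 c)
    rw [smul_smul, div_mul_cancel₀ _ hs.ne'] at a
    exact absurd a h'.1

omit [T2Space X] in
theorem transfer {y e : ℂ} (h : ∀ p ∈ convexHull ℝ {0, y, e}, p ≠ e → S.Ok x p) (hy : y ≠ e)
    (he : e ≠ 0) : (S.Ok x e ↔ S.Ok (S.mv x y) (e - y)) ∧ (S.Hit x e ↔ S.Hit (S.mv x y) (e - y)) :=
  by
  have _ := he
  have cv := convex_convexHull ℝ ({0, y, e} : Set ℂ)
  have m0 : (0 : ℂ) ∈ convexHull ℝ ({0, y, e} : Set ℂ) := subset_convexHull ℝ _ (by simp)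
  have my : y ∈ convexHull ℝ ({0, y, e} : Set ℂ) := subset_convexHull ℝ _ (by simp)
  have me : e ∈ convexHull ℝ ({0, y, e} : Set ℂ) := subset_convexHull ℝ _ (by simp)
  let D : Set ℂ := convexHull ℝ {0, y, e} ∩
    {p | ∃ a b : ℝ, 0 ≤ a ∧ a + b ≤ 1 ∧ b < 1 ∧ p = a • y + b • e}
  have cD : Convex ℝ D := cv.inter (by
    rintro _ ⟨a, b, a0, ab, b1, rfl⟩ _ ⟨a', b', a0', ab', b1', rfl⟩ s t s0 t0 st
    refine ⟨s * a + t * a', s * b + t * b', by positivity, by nlinarith, ?_, by module⟩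
    rcases s0.eq_or_lt with rfl | c
    · rw [zero_add] at st
      rw [st]
      linarith
    · nlinarith)
  have oD : ∀ p ∈ D, S.Ok x p := by
    rintro p ⟨hp, a, b, a0, ab, b1, e1⟩
    by_cases c : p = e
    · have b2 : 0 < 1 - b := by linarith
      have e2 : p = (a / (1 - b)) • y := by
        rw [c] at e1 ⊢
        rw [div_eq_inv_mul, mul_smul, eq_inv_smul_iff₀ b2.ne', sub_smul, one_smul,
          sub_eq_iff_eq_add, ← e1]
      rw [e2]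
      exact ok_smul (h y my hy) (div_nonneg a0 b2.le) ((div_le_one b2).2 (by linarith))
    · exact h p hp c
  have D0 : (0 : ℂ) ∈ D := ⟨m0, 0, 0, le_rfl, by simp, one_pos, by simp⟩
  have Dy : y ∈ D := ⟨my, 1, 0, zero_le_one, by simp, one_pos, by simp⟩
  have De : ∀ t : ℝ, 0 ≤ t → t < 1 → t • e ∈ D := fun t t0 t1 =>
    ⟨cv.smul_mem_of_zero_mem m0 me ⟨t0, t1.le⟩, 0, t, le_rfl, by linarith, t1, by simp⟩
  have iff : S.Ok x e ↔ S.Ok (S.mv x y) (e - y) := by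
    refine ⟨fun a => (convex_ok cv m0 (fun p hp => ?_) y my e me).1, fun a => ?_⟩
    · by_cases c : p = e
      exacts [c ▸ a, h p hp c]
    · obtain ⟨r, hr, H⟩ := localTrans a
      obtain ⟨ε, hε, hs⟩ := api1_small e hr
      obtain ⟨t, t0, t1⟩ := exists_between (show max 0 (1 - ε) < 1 from max_lt one_pos (by linarith))
      rw [max_lt_iff] at t0
      obtain ⟨-, -, b, c⟩ := H 0 ((t - 1) • e) (by simpa using hr)
        (hs _ (abs_lt.2 ⟨by linarith [t0.2], by linarith⟩))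
      rw [zero_add] at b c
      rw [S.mv_zero, show e - y + (t - 1) • e = t • e - y by module,
        (convex_ok cD D0 oD y Dy _ (De t t0.1.le t1)).2] at c
      have d := (S.symm _ _ b).1
      rw [← c, ← neg_smul, neg_sub] at d
      exact (api1_cat t0.1.le t1.le (oD _ (De t t0.1.le t1)) d).1
  refine ⟨iff, fun a => ⟨fun b => a.1 (iff.2 b), fun t t0 t1 => ?_⟩,
    fun a => ⟨fun b => a.1 (iff.1 b), fun t t0 t1 => oD _ (De t t0 t1)⟩⟩
  have := (convex_ok cD D0 oD y Dy ((1 - t) • y + t • e) ⟨cv my me (by linarith) t0 (by ring),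
    1 - t, t, by linarith, by linarith, t1, rfl⟩).1
  rwa [show (1 - t) • y + t • e - y = t • (e - y) by module] at this

/-- the identity principle -/
theorem ident {D : Set ℂ} (hD : Convex ℝ D) (h0 : 0 ∈ D) (h : ∀ y ∈ D, S.Ok x y) {y₀ w : ℂ}
    (h1 : y₀ ∈ D) (h2 : y₀ + w ∈ D) (h3 : S.mv x y₀ = S.mv x (y₀ + w)) :
    ∀ z ∈ D, z + w ∈ D → S.mv x z = S.mv x (z + w) := by
  intro z hz hz'
  rw [← (convex_ok hD h0 h _ h1 _ hz).2, ← (convex_ok hD h0 h _ h2 _ hz').2, h3,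
    add_sub_add_right_eq_sub]

omit [T2Space X] in
theorem unif_ok {K : Set X} (hK : IsCompact K) (h : ∀ q ∈ K, q ∉ S.Sg) :
    ∃ ε > 0, ∀ q ∈ K, ∀ w : ℂ, ‖w‖ < ε → S.Ok q w := by
  obtain ⟨u, w, -, hw, hu, h0, H⟩ := generalized_tube_lemma hK (isCompact_singleton (x := (0 : ℂ)))
    S.isOpen_ok (by rintro ⟨q, _⟩ ⟨hq, rfl⟩; exact ok_zero.2 (h q hq))
  obtain ⟨ε, hε, hb⟩ := Metric.isOpen_iff.1 hw 0 (h0 rfl)
  exact ⟨ε, hε, fun q hq y hy => H (mk_mem_prod (hu hq) (hb (mem_ball_zero_iff.2 hy)))⟩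

omit [T2Space X] in
theorem isOpen_image {V : Set ℂ} (hV : IsOpen V) (h : ∀ y ∈ V, S.Ok x y) : IsOpen (S.mv x '' V) :=
  by
  refine isOpen_iff_mem_nhds.2 ?_
  rintro _ ⟨y, hy, rfl⟩
  obtain ⟨r, hr, H⟩ := localTrans (h y hy)
  obtain ⟨ε, hε, hb⟩ := Metric.isOpen_iff.1 hV y hy
  refine mem_of_superset (nhds_image (S.reg _ _ (h y hy)).2 (lt_min hr hε)) ?_
  rintro _ ⟨d, ⟨hd, -⟩, rfl⟩
  rw [lt_min_iff] at hd
  obtain ⟨-, -, -, a⟩ := H 0 d (by simpa using hr) hd.1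
  rw [S.mv_zero, zero_add] at a
  exact ⟨y + d, hb (by simpa using hd.2), a⟩

omit [T2Space X] in
theorem loc_inj (h : S.Ok x v) : ∃ r > 0, (∀ y ∈ ball v r, S.Ok x y) ∧ InjOn (S.mv x) (ball v r) :=
  by
  obtain ⟨r, hr, H⟩ := localTrans h
  obtain ⟨ρ, hρ, -, -, h3, -⟩ := api1_loc (S.reg _ _ h).2
  have key : ∀ y ∈ ball v (min r ρ), S.Ok x y ∧ S.mv x y = S.mv (S.mv x v) (y - v) ∧
      y - v ∈ ball 0 ρ := fun y hy => by
    rw [mem_ball_iff_norm, lt_min_iff] at hy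
    obtain ⟨-, a, -, b⟩ := H 0 (y - v) (by simpa using hr) hy.1
    rw [S.mv_zero, add_sub_cancel] at a b
    rw [zero_add] at b
    exact ⟨a, b, mem_ball_zero_iff.2 hy.2⟩
  exact ⟨_, lt_min hr hρ, fun y hy => (key y hy).1, fun y hy y' hy' e => sub_left_injective
    (h3 (key y hy).2.2 (key y' hy').2.2 ((key y hy).2.1.symm.trans (e.trans (key y' hy').2.1)))⟩

omit [T2Space X] in
theorem measurable_mv [BorelSpace X] [SecondCountableTopology X] (S : TS X μ) :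
    Measurable fun p : X × ℂ => S.mv p.1 p.2 := by
  classical
  have := S.continuousOn_mv.measurable_piecewise (g := fun p : X × ℂ => S.mv p.1 p.2)
    (continuous_fst.continuousOn.congr fun p hp => S.junk _ _ hp) S.isOpen_ok.measurableSet
  rwa [piecewise_same] at this

omit [T2Space X] in
theorem map_isSC (g : ℂ ≃L[ℝ] ℂ) (hg : Sl (g : ℂ →L[ℝ] ℂ)) (x : X) (h : ℂ) :
    (S.map g hg).IsSC x h ↔ S.IsSC x (g.symm h) := by
  simp only [IsSC, Hit, map, map_smul, map_neg]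

omit [T2Space X] in
theorem map_seg (g : ℂ ≃L[ℝ] ℂ) (hg : Sl (g : ℂ →L[ℝ] ℂ)) (x : X) (h : ℂ) :
    (S.map g hg).seg x h = S.seg x (g.symm h) := by
  simp only [seg, map, map_smul]

omit [T2Space X] in
theorem map_thick (g : ℂ ≃L[ℝ] ℂ) (hg : Sl (g : ℂ →L[ℝ] ℂ)) (δ : ℝ) :
    (S.map g hg).Thick δ ↔ ∀ x h, S.IsSC x h → δ ≤ 2 * ‖g h‖ := by
  refine forall_congr' fun x => ?_
  rw [g.surjective.forall]
  simp only [map_isSC, g.symm_apply_apply]

omit [T2Space X] in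
theorem map_isCyl (g : ℂ ≃L[ℝ] ℂ) (hg : Sl (g : ℂ →L[ℝ] ℂ)) (x : X) (v : ℂ) (c : ℝ) :
    (S.map g hg).IsCyl x v c ↔ S.IsCyl x (g.symm v) c := by
  have w : ∀ y, wedge (g y) v = wedge y (g.symm v) := fun y => by
    simpa using hg y (g.symm v)
  have e : ∀ (y y' : ℂ) (n : ℤ), g y' - g y = (n : ℝ) • v ↔ y' - y = (n : ℝ) • g.symm v :=
    fun y y' n => by rw [← map_sub, ← map_smul, g.eq_symm_apply]
  unfold IsCyl
  rw [g.surjective.forall, g.surjective.forall₂]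
  simp only [map, w, e, g.symm_apply_apply, ne_eq, map_eq_zero_iff _ g.symm.injective]

end Pool.Agent.MP_d0b2d2_an.Gen.TS
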