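import Pool.Agent.MP_d0b2d2_an.Gen.Api1

open MeasureTheory Set Filter Topology Metric

namespace Pool.Agent.MP_d0b2d2_an.Gen.TS

/-- induction along the unit interval -/
theorem api2_realInd {P : ℝ → Prop} (h0 : P 0)
    (hcl : ∀ t, 0 < t → t ≤ 1 → (∀ u, 0 ≤ u → u < t → P u) → P t)
    (hop : ∀ t, 0 ≤ t → t < 1 → P t → ∃ δ > 0, ∀ u, t < u → u < t + δ → P u) : P 1 := by
  let A : Set ℝ := {t | 0 ≤ t ∧ t ≤ 1 ∧ ∀ u, 0 ≤ u → u ≤ t → P u}
  have a0 : (0 : ℝ) ∈ A := ⟨le_rfl, zero_le_one, fun u h h' => by rwa [le_antisymm h' h]⟩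
  have ab : BddAbove A := ⟨1, fun t ht => ht.2.1⟩
  have s0 : 0 ≤ sSup A := le_csSup ab a0
  have s1 : sSup A ≤ 1 := csSup_le ⟨0, a0⟩ fun t ht => ht.2.1
  have s2 : ∀ u, 0 ≤ u → u < sSup A → P u := fun u hu hu' => by
    obtain ⟨t, ht, ht'⟩ := exists_lt_of_lt_csSup ⟨0, a0⟩ hu'
    exact ht.2.2 u hu ht'.le
  have s3 : P (sSup A) := by
    rcases s0.eq_or_lt with h | h
    · rw [← h]; exact h0
    · exact hcl _ h s1 s2
  rcases s1.eq_or_lt with h | h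
  · rwa [h] at s3
  · obtain ⟨δ, hδ, hδ'⟩ := hop _ s0 h s3
    have m1 : 0 < min δ (1 - sSup A) := lt_min hδ (by linarith)
    have m2 := min_le_left δ (1 - sSup A)
    have m3 := min_le_right δ (1 - sSup A)
    have : sSup A + min δ (1 - sSup A) / 2 ∈ A := by
      refine ⟨by linarith, by linarith, fun u hu hu' => ?_⟩
      rcases lt_trichotomy u (sSup A) with h1 | h1 | h1
      · exact s2 u hu h1
      · rwa [h1]
      · exact hδ' u h1 (by linarith)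
    linarith [le_csSup ab this]

/-- a common positive constant for finitely many monotone conditions -/
theorem api2_unif {ι : Type} (s : Finset ι) {P : ι → ℝ → Prop} (h : ∀ i ∈ s, ∃ r > 0, P i r)
    (mono : ∀ i r r', r' ≤ r → P i r → P i r') : ∃ r > 0, ∀ i ∈ s, P i r := by
  classical
  induction s using Finset.induction_on with
  | empty => exact ⟨1, one_pos, by simp⟩
  | insert a s _ ih =>
    obtain ⟨r, hr, hr'⟩ := ih fun i hi => h i (Finset.mem_insert_of_mem hi)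
    obtain ⟨r₁, hr₁, hr₁'⟩ := h a (Finset.mem_insert_self a s)
    refine ⟨min r r₁, lt_min hr hr₁, fun i hi => ?_⟩
    rcases Finset.mem_insert.1 hi with rfl | hi
    · exact mono _ _ _ (min_le_right _ _) hr₁'
    · exact mono _ _ _ (min_le_left _ _) (hr' i hi)

theorem api2_ev01 : ∀ᶠ t : ℝ in 𝓝[<] 1, 0 < t ∧ t < 1 := by
  filter_upwards [Ioo_mem_nhdsLT (zero_lt_one' ℝ)] with t ht using ht

theorem api2_ev_small (c : ℝ) {r : ℝ} (hr : 0 < r) : ∀ᶠ t : ℝ in 𝓝[<] 1, (1 - t) * c < r := by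
  have : Tendsto (fun t : ℝ => (1 - t) * c) (𝓝 1) (𝓝 ((1 - 1) * c)) :=
    (by fun_prop : Continuous fun t : ℝ => (1 - t) * c).tendsto 1
  exact (this.mono_left nhdsWithin_le_nhds).eventually_lt_const (by simpa using hr)

theorem api2_mem_tri {y w : ℂ} {a b : ℝ} (ha : 0 ≤ a) (hb : 0 ≤ b) (hab : a + b ≤ 1) :
    a • y + b • w ∈ convexHull ℝ ({0, y, w} : Set ℂ) := by
  have := (convex_convexHull ℝ ({0, y, w} : Set ℂ)).sum_mem (t := Finset.univ)
    (w := ![1 - a - b, a, b]) (z := ![0, y, w])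
    (fun i _ => by fin_cases i <;> simp <;> linarith) (by simp [Fin.sum_univ_three]; ring)
    (fun i _ => subset_convexHull ℝ _ (by fin_cases i <;> simp))
  simpa [Fin.sum_univ_three] using this

variable {X : Type} [TopologicalSpace X] [T2Space X] [CompactSpace X] [MeasurableSpace X]
  {μ : Measure X} {S : TS X μ} {x σ : X} {w : ℂ}

omit [T2Space X] [CompactSpace X] in
/-- short moves inside a cone chart -/
theorem api2_dich {U : Set X} {z : X → ℂ} {ε : ℝ} {q : X} (hz : z q ≠ 0)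
    (tr : ∀ y : ℂ, (∀ t : ℝ, 0 ≤ t → t ≤ 1 → z q + t • y ≠ 0 ∧ ‖z q + t • y‖ < ε) →
      S.Ok q y ∧ S.mv q y ∈ U ∧ z (S.mv q y) = z q + y) {y : ℂ} (hy : ‖z q‖ + ‖y‖ < ε) :
    (S.Ok q y ∧ S.mv q y ∈ U ∧ z (S.mv q y) = z q + y) ∨
      ∃ s : ℝ, 0 < s ∧ s ≤ 1 ∧ -z q = s • y := by
  by_cases h : ∃ s : ℝ, 0 ≤ s ∧ s ≤ 1 ∧ z q + s • y = 0
  · obtain ⟨s, s0, s1, hs⟩ := h
    refine Or.inr ⟨s, s0.lt_of_ne ?_, s1, neg_eq_of_add_eq_zero_right hs⟩
    rintro rfl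
    exact hz (by simpa using hs)
  · refine Or.inl (tr y fun t t0 t1 => ⟨fun h' => h ⟨t, t0, t1, h'⟩, ?_⟩)
    refine (norm_add_le _ _).trans_lt (lt_of_le_of_lt ?_ hy)
    rw [norm_smul, Real.norm_of_nonneg t0]
    nlinarith [norm_nonneg y]

omit [T2Space X] [CompactSpace X] in
/-- a short hit from a point of a cone chart goes to the cone point -/
theorem api2_hit_eq {U : Set X} {z : X → ℂ} {ε : ℝ} {q : X} (hz : z q ≠ 0)
    (tr : ∀ y : ℂ, (∀ t : ℝ, 0 ≤ t → t ≤ 1 → z q + t • y ≠ 0 ∧ ‖z q + t • y‖ < ε) →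
      S.Ok q y ∧ S.mv q y ∈ U ∧ z (S.mv q y) = z q + y) (hq : S.Hit q (-z q)) {y : ℂ}
    (hy : ‖z q‖ + ‖y‖ < ε) (h : S.Hit q y) : -z q = y := by
  rcases api2_dich hz tr hy with h1 | ⟨s, s0, -, hs⟩
  · exact absurd h1.1 h.1
  · have : s = 1 := Hit.eq_of_smul s0 one_pos (hs ▸ hq) (by rwa [one_smul])
    rw [hs, this, one_smul]

omit [CompactSpace X] in
theorem api2_mem (h : S.HitAt x w σ) : σ ∈ S.Sg := by
  by_contra hσ
  exact h.1.1 (ok_of_cluster h.1.2 hσ h.2.mapClusterPt).1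

/-- the standard neighbourhood of a singular point -/
theorem cone_core (hσ : σ ∈ S.Sg) : ∃ U : Set X, IsOpen U ∧ σ ∈ U ∧ ∃ (z : X → ℂ) (ε : ℝ), 0 < ε ∧
    ContinuousOn z U ∧ z σ = 0 ∧ (∀ q ∈ U, ‖z q‖ < ε) ∧ (∀ q ∈ U, q ≠ σ → q ∉ S.Sg ∧ z q ≠ 0) ∧
    (∀ q ∈ U, q ≠ σ → ∀ y : ℂ, (∀ t : ℝ, 0 ≤ t → t ≤ 1 → z q + t • y ≠ 0 ∧ ‖z q + t • y‖ < ε) →
      S.Ok q y ∧ S.mv q y ∈ U ∧ z (S.mv q y) = z q + y) ∧
    (∀ q ∈ U, q ≠ σ → S.HitAt q (-z q) σ) ∧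
    (∀ q y, S.HitAt q y σ → ‖y‖ < ε → q ∈ U ∧ z q = -y) ∧
    (∀ y, (U ∩ z ⁻¹' {y}).encard ≤ S.k) ∧
    ∀ V ∈ 𝓝 σ, ∃ r > 0, ∀ q ∈ U, ‖z q‖ < r → q ∈ V := by
  obtain ⟨U', h1, h2, z, h3, h4, h5, h6, -⟩ := S.cone σ hσ
  obtain ⟨K, hK, hσK, hKU⟩ := exists_compact_subset h1 h2
  have shr : ∀ V ∈ 𝓝 σ, ∃ r > 0, ∀ q ∈ K, ‖z q‖ < r → q ∈ interior V := by
    intro V hV
    obtain ⟨r, hr, hr'⟩ := (hK.diff (isOpen_interior (s := V))).exists_forall_le'
      (f := fun q => ‖z q‖) (h3.norm.mono fun q hq => hKU hq.1) (a := 0) fun q hq =>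
      norm_pos_iff.2 (h5 q (hKU hq.1) fun e => hq.2 (e ▸ mem_interior_iff_mem_nhds.2 hV)).2.1
    refine ⟨r, hr, fun q hq hq' => ?_⟩
    by_contra hn
    exact (hr' q ⟨hq, hn⟩).not_gt hq'
  obtain ⟨ε, hε, hε'⟩ := shr K (mem_interior_iff_mem_nhds.1 hσK)
  set U : Set X := interior K ∩ z ⁻¹' ball 0 ε with hU
  have UK : U ⊆ K := fun q hq => interior_subset hq.1
  have Uo : IsOpen U := (h3.mono (interior_subset.trans hKU)).isOpen_inter_preimage
    isOpen_interior isOpen_ball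
  have Un : ∀ q ∈ U, ‖z q‖ < ε := fun q hq => by simpa using hq.2
  have Um : ∀ q ∈ K, ‖z q‖ < ε → q ∈ U := fun q hq hq' => ⟨hε' q hq hq', by simpa using hq'⟩
  have σU : σ ∈ U := Um σ (interior_subset hσK) (by simpa [h4] using hε)
  have Ur : ∀ q ∈ U, q ≠ σ → q ∉ S.Sg ∧ z q ≠ 0 := fun q hq hq' =>
    ⟨(h5 q (hKU (UK hq)) hq').1, (h5 q (hKU (UK hq)) hq').2.1⟩
  have zc : ∀ q ∈ K, ContinuousAt z q := fun q hq => h3.continuousAt (h1.mem_nhds (hKU hq))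
  have loc : ∀ q ∈ U, q ≠ σ → ∃ r > 0, ∀ y : ℂ, ‖y‖ < r →
      S.Ok q y ∧ S.mv q y ∈ U ∧ z (S.mv q y) = z q + y := by
    intro q hq hq'
    have o0 : S.Ok q 0 := ok_zero.2 (Ur q hq hq').1
    have e1 : ∀ᶠ y in 𝓝 (0 : ℂ), S.Ok q y := (isOpen_ok_right q).mem_nhds o0
    have e2 : ∀ᶠ y in 𝓝 (0 : ℂ), S.mv q y ∈ U :=
      continuousAt_mv_right o0 (Uo.mem_nhds (by rwa [S.mv_zero]))
    obtain ⟨r, hr, hr'⟩ := Metric.eventually_nhds_iff.1
      (e1.and (e2.and (h5 q (hKU (UK hq)) hq').2.2))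
    exact ⟨r, hr, fun y hy => hr' (by simpa using hy)⟩
  have track : ∀ q ∈ U, q ≠ σ → ∀ y : ℂ,
      (∀ t : ℝ, 0 ≤ t → t ≤ 1 → z q + t • y ≠ 0 ∧ ‖z q + t • y‖ < ε) →
      S.Ok q y ∧ S.mv q y ∈ U ∧ z (S.mv q y) = z q + y := by
    intro q hq hq' y hy
    have := api2_realInd (P := fun t : ℝ => S.Ok q (t • y) ∧ S.mv q (t • y) ∈ U ∧
      z (S.mv q (t • y)) = z q + t • y)
      (by simpa [S.mv_zero] using ⟨ok_zero.2 (Ur q hq hq').1, hq⟩) (fun t t0 t1 ih => ?_)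
      (fun t t0 t1 ih => ?_)
    · simpa using this
    · have ih' : ∀ s : ℝ, 0 ≤ s → s < 1 → S.Ok q (s • t • y) ∧ S.mv q (s • t • y) ∈ U ∧
          z (S.mv q (s • t • y)) = z q + s • t • y := fun s s0 s1 => by
        rw [smul_smul]
        exact ih _ (by positivity) (by nlinarith)
      obtain ⟨p, hp, hp'⟩ := hK.exists_mapClusterPt (f := 𝓝[<] (1 : ℝ))
        (u := fun s : ℝ => S.mv q (s • t • y)) (by
          rw [le_principal_iff, mem_map]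
          filter_upwards [api2_ev01] with s hs using UK (ih' s hs.1.le hs.2).2.1)
      have e1 : Tendsto (z ∘ fun s : ℝ => S.mv q (s • t • y)) (𝓝[<] 1) (𝓝 (z q + t • y)) := by
        have : Tendsto (fun s : ℝ => z q + s • t • y) (𝓝 1) (𝓝 (z q + (1 : ℝ) • t • y)) :=
          (by fun_prop : Continuous fun s : ℝ => z q + s • t • y).tendsto 1
        rw [one_smul] at this
        refine (this.mono_left nhdsWithin_le_nhds).congr' ?_
        filter_upwards [api2_ev01] with s hs using (ih' s hs.1.le hs.2).2.2.symm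
      have e2 : z p = z q + t • y :=
        eq_of_nhds_neBot ((hp'.continuousAt_comp (zc p hp)).clusterPt.mono e1)
      have e3 : p ∈ U := Um p hp (e2 ▸ (hy t t0.le t1).2)
      have e4 : p ≠ σ := fun e => (hy t t0.le t1).1 (by rw [← e2, e, h4])
      obtain ⟨e5, e6⟩ := ok_of_cluster (fun s s0 s1 => (ih' s s0 s1).1) (Ur p e3 e4).1 hp'
      exact ⟨e5, e6 ▸ e3, e6 ▸ e2⟩
    · have e4 : S.mv q (t • y) ≠ σ := fun e => (S.reg _ _ ih.1).2 (e ▸ hσ)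
      obtain ⟨r, hr, hr'⟩ := loc _ ih.2.1 e4
      refine ⟨r / (‖y‖ + 1), by positivity, fun u u0 u1 => ?_⟩
      have n1 : ‖(u - t) • y‖ < r := by
        rw [norm_smul, Real.norm_of_nonneg (by linarith)]
        have : (u - t) * (‖y‖ + 1) < r := (lt_div_iff₀ (by positivity)).1 (by linarith)
        nlinarith
      obtain ⟨a1, a2, a3⟩ := hr' _ n1
      have b1 := (S.split q y t (u - t) t0 (by linarith)).2 ⟨ih.1, a1⟩
      have b2 := S.add q y t (u - t) t0 (by linarith) b1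
      rw [add_sub_cancel] at b1 b2
      refine ⟨b1, b2 ▸ a2, ?_⟩
      rw [b2, a3, ih.2.2, sub_smul]
      abel
  have shr' : ∀ V ∈ 𝓝 σ, ∃ r > 0, ∀ q ∈ U, ‖z q‖ < r → q ∈ V := fun V hV => by
    obtain ⟨r, hr, hr'⟩ := shr V hV
    exact ⟨r, hr, fun q hq hq' => interior_subset (hr' q (UK hq) hq')⟩
  have hit : ∀ q ∈ U, q ≠ σ → S.HitAt q (-z q) σ := by
    intro q hq hq'
    have a1 : ∀ t : ℝ, 0 ≤ t → t < 1 → S.Ok q (t • -z q) ∧ S.mv q (t • -z q) ∈ U ∧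
        z (S.mv q (t • -z q)) = z q + t • -z q := fun t t0 t1 => track q hq hq' _ fun s s0 s1 => by
      have e : z q + s • t • -z q = (1 - s * t) • z q := by
        rw [smul_smul, smul_neg, sub_smul, one_smul, sub_eq_add_neg]
      have l1 : 0 < 1 - s * t := by nlinarith
      rw [e]
      refine ⟨smul_ne_zero l1.ne' (Ur q hq hq').2, lt_of_le_of_lt ?_ (Un q hq)⟩
      rw [norm_smul, Real.norm_of_nonneg l1.le]
      nlinarith [norm_nonneg (z q), mul_nonneg (mul_nonneg s0 t0) (norm_nonneg (z q))]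
    have a2 : Tendsto (fun t : ℝ => S.mv q (t • -z q)) (𝓝[<] 1) (𝓝 σ) := fun V hV => by
      obtain ⟨r, hr, hr'⟩ := shr' V hV
      rw [mem_map]
      filter_upwards [api2_ev01, api2_ev_small ‖z q‖ hr] with t ht ht'
      refine hr' _ (a1 t ht.1.le ht.2).2.1 ?_
      rw [(a1 t ht.1.le ht.2).2.2, show z q + t • -z q = (1 - t) • z q by
        rw [smul_neg, sub_smul, one_smul, sub_eq_add_neg], norm_smul,
        Real.norm_of_nonneg (by linarith [ht.2])]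
      exact ht'
    refine ⟨⟨fun h => ?_, fun t t0 t1 => (a1 t t0 t1).1⟩, a2⟩
    have a3 : Tendsto (fun t : ℝ => S.mv q (t • -z q)) (𝓝[<] 1) (𝓝 (S.mv q (-z q))) := by
      have : Tendsto (fun t : ℝ => t • -z q) (𝓝 1) (𝓝 ((1 : ℝ) • -z q)) :=
        (by fun_prop : Continuous fun t : ℝ => t • -z q).tendsto 1
      rw [one_smul] at this
      exact (continuousAt_mv_right h).tendsto.comp (this.mono_left nhdsWithin_le_nhds)
    exact (S.reg _ _ h).2 (tendsto_nhds_unique a2 a3 ▸ hσ)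
  refine ⟨U, Uo, σU, z, ε, hε, h3.mono (UK.trans hKU), h4, Un, Ur, track, hit, fun q y h hy => ?_,
    fun y => (Set.encard_le_encard (inter_subset_inter_left _ (UK.trans hKU))).trans (h6 y), shr'⟩
  have e1 : ∀ᶠ p in 𝓝 σ, ‖z p‖ < ε / 2 :=
    (zc σ (UK σU)).norm.eventually_lt_const (by simpa [h4] using hε)
  obtain ⟨t, ⟨t0, t1⟩, t2, t3, t4⟩ := (api2_ev01.and ((api2_ev_small ‖y‖ (half_pos hε)).and
    ((h.2.eventually (Uo.mem_nhds σU)).and (h.2.eventually e1)))).exists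
  have o1 : S.Ok q (t • y) := h.1.2 t t0.le t1
  have p1 : S.mv q (t • y) ≠ σ := fun e => (S.reg _ _ o1).2 (e ▸ hσ)
  have p2 : -z (S.mv q (t • y)) = (1 - t) • y :=
    api2_hit_eq (Ur _ t3 p1).2 (track _ t3 p1) (hit _ t3 p1).1 (by
      rw [norm_smul, Real.norm_of_nonneg (by linarith)]; linarith) (h.1.tail t0.le t1)
  have p3 : z (S.mv q (t • y)) = -((1 - t) • y) := by rw [← p2, neg_neg]
  obtain ⟨-, b2, b3⟩ := track _ t3 p1 (-(t • y)) fun s s0 s1 => by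
    have e : z (S.mv q (t • y)) + s • -(t • y) = -((1 - t + s * t) • y) := by
      rw [p3, smul_neg, smul_smul, add_smul, neg_add]
    have l1 : 0 < 1 - t + s * t := by nlinarith
    rw [e, norm_neg, norm_smul, Real.norm_of_nonneg l1.le]
    refine ⟨neg_ne_zero.2 (smul_ne_zero l1.ne' h.1.reg.2), lt_of_le_of_lt ?_ hy⟩
    have : 1 - t + s * t ≤ 1 := by nlinarith
    nlinarith [norm_nonneg y]
  rw [(ok_symm o1).2] at b2 b3
  refine ⟨b2, ?_⟩
  rw [b3, p3, ← neg_add, ← add_smul, sub_add_cancel, one_smul]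

omit [T2Space X] [CompactSpace X] in
theorem HitAt.tail (h : S.HitAt x w σ) {t : ℝ} (h0 : 0 ≤ t) (h1 : t < 1) :
    S.HitAt (S.mv x (t • w)) ((1 - t) • w) σ := by
  refine ⟨h.1.tail h0 h1, ?_⟩
  have a1 : Tendsto (fun s : ℝ => t + s * (1 - t)) (𝓝[<] 1) (𝓝[<] 1) := by
    refine tendsto_nhdsWithin_iff.2 ⟨?_, ?_⟩
    · have : Tendsto (fun s : ℝ => t + s * (1 - t)) (𝓝 1) (𝓝 (t + 1 * (1 - t))) :=
        (by fun_prop : Continuous fun s : ℝ => t + s * (1 - t)).tendsto 1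
      rw [one_mul, add_sub_cancel] at this
      exact this.mono_left nhdsWithin_le_nhds
    · filter_upwards [api2_ev01] with s hs
      rw [mem_Iio]
      nlinarith [hs.2]
  refine (h.2.comp a1).congr' ?_
  filter_upwards [api2_ev01] with s hs
  have l1 : 0 ≤ s * (1 - t) := mul_nonneg hs.1.le (by linarith)
  rw [smul_smul]
  exact S.add x w t _ h0 l1 (h.1.2 _ (by linarith) (by nlinarith [hs.2]))

omit [T2Space X] [CompactSpace X] in
theorem HitAt.cons {s t : ℝ} (hs : 0 ≤ s) (ht : 0 < t) (h : S.Ok x (s • w))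
    (h' : S.HitAt (S.mv x (s • w)) (t • w) σ) : S.HitAt x ((s + t) • w) σ := by
  have hh := Hit.cons hs ht h h'.1
  refine ⟨hh, ?_⟩
  have a0 : Tendsto (fun u : ℝ => (u * (s + t) - s) / t) (𝓝[<] 1) (𝓝 1) := by
    have : Tendsto (fun u : ℝ => (u * (s + t) - s) / t) (𝓝 1) (𝓝 ((1 * (s + t) - s) / t)) :=
      (by fun_prop : Continuous fun u : ℝ => (u * (s + t) - s) / t).tendsto 1
    rw [one_mul, add_sub_cancel_left, div_self ht.ne'] at this
    exact this.mono_left nhdsWithin_le_nhds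
  have a1 : Tendsto (fun u : ℝ => (u * (s + t) - s) / t) (𝓝[<] 1) (𝓝[<] 1) := by
    refine tendsto_nhdsWithin_iff.2 ⟨a0, ?_⟩
    filter_upwards [api2_ev01] with u hu
    rw [mem_Iio, div_lt_one ht]
    nlinarith [hu.2]
  refine (h'.2.comp a1).congr' ?_
  filter_upwards [api2_ev01, a0.eventually_const_lt zero_lt_one] with u hu hu'
  have l1 : 0 ≤ u * (s + t) - s := by
    have := (lt_div_iff₀ ht).1 hu'
    linarith
  have o1 := hh.2 u hu.1.le hu.2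
  rw [smul_smul] at o1 ⊢
  have := S.add x w s _ hs l1 (by rwa [add_sub_cancel])
  rw [add_sub_cancel] at this
  rw [this, Function.comp_apply, smul_smul, div_mul_cancel₀ _ ht.ne']

theorem Hit.hitAt (h : S.Hit x w) : ∃ σ ∈ S.Sg, S.HitAt x w σ := by
  obtain ⟨σ, -, hσ⟩ := isCompact_univ.exists_mapClusterPt (f := 𝓝[<] (1 : ℝ))
    (u := fun s : ℝ => S.mv x (s • w)) (by simp)
  have hS : σ ∈ S.Sg := by
    by_contra hn
    exact h.1 (ok_of_cluster h.2 hn hσ).1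
  obtain ⟨U, Uo, σU, z, ε, hε, zc, z0, -, Ur, track, hit, -⟩ := cone_core hS
  have e1 : ∀ᶠ p in 𝓝 σ, ‖z p‖ < ε / 2 :=
    (zc.continuousAt (Uo.mem_nhds σU)).norm.eventually_lt_const (by simpa [z0] using hε)
  obtain ⟨t, ⟨t3, t4⟩, ⟨t0, t1⟩, t2⟩ := ((hσ.frequently (e1.and (Uo.mem_nhds σU))).and_eventually
    (api2_ev01.and (api2_ev_small ‖w‖ (half_pos hε)))).exists
  have o1 : S.Ok x (t • w) := h.2 t t0.le t1
  have p1 : S.mv x (t • w) ≠ σ := fun e => (S.reg _ _ o1).2 (e ▸ hS)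
  have p2 : -z (S.mv x (t • w)) = (1 - t) • w :=
    api2_hit_eq (Ur _ t4 p1).2 (track _ t4 p1) (hit _ t4 p1).1 (by
      rw [norm_smul, Real.norm_of_nonneg (by linarith)]; linarith) (h.tail t0.le t1)
  have := HitAt.cons t0.le (sub_pos.2 t1) o1 (p2 ▸ hit _ t4 p1)
  rw [add_sub_cancel, one_smul] at this
  exact ⟨σ, hS, this⟩

theorem HitAt.mem (h : S.HitAt x w σ) : σ ∈ S.Sg := api2_mem h

omit [CompactSpace X] in
theorem HitAt.unique {σ' : X} (h : S.HitAt x w σ) (h' : S.HitAt x w σ') : σ = σ' :=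
  tendsto_nhds_unique h.2 h'.2

theorem sing_near {V : Set X} (hV : V ∈ 𝓝 σ) :
    ∃ r > 0, ∀ q y, S.HitAt q y σ → ‖y‖ < r → q ∈ V := by
  by_cases hσ : σ ∈ S.Sg
  · obtain ⟨U, -, -, z, ε, hε, -, -, -, -, -, -, conv, -, shr⟩ := cone_core hσ
    obtain ⟨r, hr, hr'⟩ := shr V hV
    refine ⟨min r ε, lt_min hr hε, fun q y h hy => ?_⟩
    obtain ⟨a1, a2⟩ := conv q y h (hy.trans_le (min_le_right _ _))
    exact hr' q a1 (by rw [a2, norm_neg]; exact hy.trans_le (min_le_left _ _))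
  · exact ⟨1, one_pos, fun q y h _ => absurd h.mem hσ⟩

theorem short_unique (S : TS X μ) : ∃ ε > 0, ∀ q y y', S.Hit q y → S.Hit q y' → ‖y‖ < ε →
    ‖y'‖ < ε → y = y' := by
  obtain ⟨V, hV, hV'⟩ := S.Sg.finite_toSet.t2_separation
  obtain ⟨ε, hε, hε'⟩ := api2_unif S.Sg (P := fun σ r => ∀ q y, S.HitAt q y σ → ‖y‖ < r →
    q ∈ V σ ∧ ∀ y', S.HitAt q y' σ → ‖y'‖ < r → y = y') (fun σ hσ => by
      obtain ⟨r, hr, hr'⟩ := sing_near (S := S) ((hV σ).2.mem_nhds (hV σ).1)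
      obtain ⟨U, -, -, z, ε, hε, -, -, -, -, -, -, conv, -⟩ := cone_core hσ
      refine ⟨min r ε, lt_min hr hε, fun q y h hy =>
        ⟨hr' q y h (hy.trans_le (min_le_left _ _)), fun y' h' hy' => ?_⟩⟩
      exact neg_injective ((conv q y h (hy.trans_le (min_le_right _ _))).2.symm.trans
        (conv q y' h' (hy'.trans_le (min_le_right _ _))).2))
    fun σ r r' hr h q y a1 a2 =>
      ⟨(h q y a1 (a2.trans_le hr)).1, fun y' a3 a4 =>
        (h q y a1 (a2.trans_le hr)).2 y' a3 (a4.trans_le hr)⟩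
  refine ⟨ε, hε, fun q y y' h h' hy hy' => ?_⟩
  obtain ⟨σ, hσ, a1⟩ := h.hitAt
  obtain ⟨σ', hσ', a2⟩ := h'.hitAt
  obtain rfl : σ = σ' := by
    by_contra hn
    exact Set.disjoint_left.1 (hV' hσ hσ' hn) (hε' σ hσ q y a1 hy).1 (hε' σ' hσ' q y' a2 hy').1
  exact (hε' σ hσ q y a1 hy).2 y' a2 hy'

theorem HitAt.nhds (h : S.HitAt x w σ) : ∃ r > 0, ∀ d : ℂ, ‖d‖ < r →
    S.Ok x d ∧ S.HitAt (S.mv x d) (w - d) σ := by
  obtain ⟨U, -, -, z, ε, hε, -, -, -, -, track, hit, conv, -⟩ := cone_core h.mem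
  obtain ⟨t, ⟨t0, t1⟩, t2⟩ := (api2_ev01.and (api2_ev_small ‖w‖ (half_pos hε))).exists
  have w0 : 0 < ‖w‖ := norm_pos_iff.2 h.1.reg.2
  have η0 : 0 < 1 - t := by linarith
  have o1 : S.Ok x (t • w) := h.1.2 t t0.le t1
  obtain ⟨q1, q2⟩ := conv _ _ (h.tail t0.le t1) (by
    rw [norm_smul, Real.norm_of_nonneg η0.le]; linarith)
  have q3 : S.mv x (t • w) ≠ σ := fun e => (S.reg _ _ o1).2 (e ▸ h.mem)
  obtain ⟨r, hr, hr'⟩ := localTrans o1
  refine ⟨min r ‖w‖, lt_min hr w0, fun d hd => ?_⟩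
  have d1 := hd.trans_le (min_le_left _ _)
  have d2 := hd.trans_le (min_le_right _ _)
  obtain ⟨a1, a2, -, a4⟩ := hr' d (-(t • d)) d1 (by
    rw [norm_neg, norm_smul, Real.norm_of_nonneg t0.le]; nlinarith [norm_nonneg d])
  rw [← sub_eq_add_neg, ← smul_sub] at a2 a4
  rw [show d + -(t • d) = (1 - t) • d by rw [sub_smul, one_smul, sub_eq_add_neg]] at a4
  obtain ⟨-, b2, b3⟩ := track _ q1 q3 ((1 - t) • d) fun s s0 s1 => by
    have e : z (S.mv x (t • w)) + s • (1 - t) • d = -((1 - t) • (w - s • d)) := by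
      rw [q2, smul_comm s, smul_sub, neg_sub', sub_neg_eq_add]
    have n1 : ‖s • d‖ < ‖w‖ := by
      rw [norm_smul, Real.norm_of_nonneg s0]; nlinarith [norm_nonneg d]
    rw [e, norm_neg, norm_smul, Real.norm_of_nonneg η0.le]
    refine ⟨neg_ne_zero.2 (smul_ne_zero η0.ne' (sub_ne_zero.2 fun e => n1.ne (by rw [← e]))), ?_⟩
    nlinarith [norm_sub_le w (s • d)]
  rw [← a4] at b2 b3
  have c1 := hit _ b2 fun e => (S.reg _ _ a2).2 (e ▸ h.mem)
  rw [b3, q2, show -(-((1 - t) • w) + (1 - t) • d) = (1 - t) • (w - d) by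
    rw [smul_sub]; abel] at c1
  have := HitAt.cons t0.le η0 a2 c1
  rw [add_sub_cancel, one_smul] at this
  exact ⟨a1, this⟩

theorem HitAt.transfer {y : ℂ} (h : S.HitAt x w σ)
    (h' : ∀ p ∈ convexHull ℝ {0, y, w}, p ≠ w → S.Ok x p) (hy : y ≠ w) :
    S.HitAt (S.mv x y) (w - y) σ := by
  obtain ⟨U, -, -, z, ε, hε, -, -, -, -, track, hit, conv, -⟩ := cone_core h.mem
  obtain ⟨t, ⟨t0, t1⟩, t2⟩ := (api2_ev01.and (api2_ev_small (‖w‖ + ‖y‖) hε)).exists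
  have η0 : 0 < 1 - t := by linarith
  have oy : S.Ok x y := h' y (subset_convexHull ℝ _ (by simp)) hy
  have ne : ∀ s : ℝ, 0 ≤ s → s ≤ 1 → w ≠ s • y := fun s s0 s1 e =>
    h.1.1 (e ▸ ok_smul oy s0 s1)
  let D : Set ℂ := {p | ∃ a b : ℝ, 0 ≤ a ∧ 0 ≤ b ∧ a + b ≤ 1 ∧ b ≤ t ∧ p = a • y + b • w}
  have Dc : Convex ℝ D := by
    rintro _ ⟨a, b, a1, a2, a3, a4, rfl⟩ _ ⟨a', b', b1, b2, b3, b4, rfl⟩ u v u0 v0 uv
    refine ⟨u * a + v * a', u * b + v * b', by positivity, by positivity, by nlinarith,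
      by nlinarith, ?_⟩
    simp only [smul_add, add_smul, mul_smul]
    abel
  have Do : ∀ p ∈ D, S.Ok x p := by
    rintro _ ⟨a, b, a1, a2, a3, a4, rfl⟩
    refine h' _ (api2_mem_tri a1 a2 a3) fun e => ?_
    have b1 : 0 < 1 - b := by linarith
    refine ne (a / (1 - b)) (by positivity) ((div_le_one b1).2 (by linarith)) ?_
    rw [div_eq_inv_mul, mul_smul, eq_inv_smul_iff₀ b1.ne', sub_smul, one_smul,
      sub_eq_iff_eq_add, e]
  have m0 : (0 : ℂ) ∈ D := ⟨0, 0, le_rfl, le_rfl, by norm_num, t0.le, by simp⟩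
  have m1 : y ∈ D := ⟨1, 0, zero_le_one, le_rfl, by norm_num, t0.le, by simp⟩
  have m2 : t • w ∈ D := ⟨0, t, le_rfl, t0.le, by linarith, le_rfl, by simp⟩
  have m3 : (1 - t) • y + t • w ∈ D := ⟨1 - t, t, η0.le, t0.le, by linarith, le_rfl, rfl⟩
  obtain ⟨a1, a2⟩ := convex_ok Dc m0 Do _ m1 _ m3
  obtain ⟨-, a4⟩ := convex_ok Dc m0 Do _ m2 _ m3
  rw [show (1 - t) • y + t • w - y = t • (w - y) by
    rw [sub_smul, one_smul, smul_sub]; abel] at a1 a2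
  rw [add_sub_cancel_right] at a4
  obtain ⟨q1, q2⟩ := conv _ _ (h.tail t0.le t1) (by
    rw [norm_smul, Real.norm_of_nonneg η0.le]; nlinarith [norm_nonneg y])
  have q3 : S.mv x (t • w) ≠ σ := fun e => (S.reg _ _ (Do _ m2)).2 (e ▸ h.mem)
  obtain ⟨-, b2, b3⟩ := track _ q1 q3 ((1 - t) • y) fun s s0 s1 => by
    have e : z (S.mv x (t • w)) + s • (1 - t) • y = -((1 - t) • (w - s • y)) := by
      rw [q2, smul_comm s, smul_sub, neg_sub', sub_neg_eq_add]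
    have n1 : ‖s • y‖ ≤ ‖y‖ := by
      rw [norm_smul, Real.norm_of_nonneg s0]; nlinarith [norm_nonneg y]
    rw [e, norm_neg, norm_smul, Real.norm_of_nonneg η0.le]
    refine ⟨neg_ne_zero.2 (smul_ne_zero η0.ne' (sub_ne_zero.2 (ne s s0 s1))), ?_⟩
    nlinarith [norm_sub_le w (s • y)]
  rw [a4, ← a2] at b2 b3
  have c1 := hit _ b2 fun e => (S.reg _ _ a1).2 (e ▸ h.mem)
  rw [b3, q2, show -(-((1 - t) • w) + (1 - t) • y) = (1 - t) • (w - y) by
    rw [smul_sub]; abel] at c1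
  have := HitAt.cons t0.le η0 a1 c1
  rwa [add_sub_cancel, one_smul] at this

theorem near_sing (hσ : σ ∈ S.Sg) {r : ℝ} (hr : 0 < r) :
    ∀ᶠ q in 𝓝 σ, q = σ ∨ ∃ y, ‖y‖ < r ∧ S.HitAt q y σ := by
  obtain ⟨U, Uo, σU, z, ε, -, zc, z0, -, -, -, hit, -⟩ := cone_core hσ
  have e1 : ∀ᶠ p in 𝓝 σ, ‖z p‖ < r :=
    (zc.continuousAt (Uo.mem_nhds σU)).norm.eventually_lt_const (by simpa [z0] using hr)
  filter_upwards [e1, Uo.mem_nhds σU] with q h1 h2
  by_cases h : q = σ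
  · exact Or.inl h
  · exact Or.inr ⟨-z q, by rwa [norm_neg], hit q h2 h⟩

theorem equicont (S : TS X μ) {Y : Type} [PseudoMetricSpace Y] (f : C(X, Y)) {η : ℝ} (hη : 0 < η) :
    ∃ r > 0, ∀ q (y : ℂ), ‖y‖ < r → dist (f (S.mv q y)) (f q) ≤ η := by
  have key := isCompact_univ.eventually_forall_of_forall_eventually (x₀ := (0 : ℂ))
    (P := fun y q => dist (f (S.mv q y)) (f q) ≤ η) fun p _ => ?_
  · obtain ⟨r, hr, hr'⟩ := Metric.eventually_nhds_iff.1 key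
    exact ⟨r, hr, fun q y hy => hr' (by simpa using hy) q trivial⟩
  by_cases hp : p ∈ S.Sg
  · obtain ⟨U, Uo, σU, z, ε, hε, zc, z0, -, Ur, track, hit, -, -, shr⟩ := cone_core hp
    obtain ⟨r, hr, hr'⟩ := shr {q | dist (f q) (f p) < η / 2}
      (f.continuous.continuousAt.eventually (ball_mem_nhds _ (half_pos hη)))
    have m0 : 0 < min r ε / 2 := half_pos (lt_min hr hε)
    have m1 := min_le_left r ε
    have m2 := min_le_right r ε
    have e1 : ∀ᶠ q in 𝓝 p, ‖z q‖ < min r ε / 2 :=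
      (zc.continuousAt (Uo.mem_nhds σU)).norm.eventually_lt_const (by simpa [z0] using m0)
    rw [nhds_prod_eq]
    filter_upwards [prod_mem_prod (ball_mem_nhds (0 : ℂ) m0) (e1.and (Uo.mem_nhds σU))]
    rintro ⟨y, q⟩ ⟨hy, hq, hq'⟩
    rw [mem_ball_zero_iff] at hy
    by_cases ho : S.Ok q y
    · have q1 : q ≠ p := fun e => (S.reg _ _ ho).1 (e ▸ hp)
      rcases api2_dich (Ur q hq' q1).2 (track q hq' q1) (y := y) (by linarith) with
        ⟨-, a2, a3⟩ | ⟨s, s0, s1, hs⟩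
      · have b1 : dist (f (S.mv q y)) (f p) < η / 2 :=
          hr' _ a2 (by rw [a3]; linarith [norm_add_le (z q) y])
        have b2 : dist (f q) (f p) < η / 2 := hr' _ hq' (by linarith)
        linarith [dist_triangle_right (f (S.mv q y)) (f q) (f p)]
      · exact absurd (hs ▸ ok_smul ho s0.le s1) (hit q hq' q1).1.1
    · simp [S.junk q y ho, hη.le]
  · have o0 : S.Ok p 0 := ok_zero.2 hp
    have c1 : ContinuousAt (fun a : X × ℂ => S.mv a.1 a.2) (p, 0) :=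
      (continuousOn_mv S).continuousAt ((isOpen_ok S).mem_nhds o0)
    have c2 : ContinuousAt (fun a : ℂ × X => S.mv a.2 a.1) (0, p) :=
      ContinuousAt.comp (g := fun a : X × ℂ => S.mv a.1 a.2) (f := Prod.swap) c1
        continuous_swap.continuousAt
    have c3 : ContinuousAt (fun a : ℂ × X => dist (f (S.mv a.2 a.1)) (f a.2)) (0, p) :=
      (f.continuous.continuousAt.comp c2).dist
        (f.continuous.continuousAt.comp continuous_snd.continuousAt)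
    exact c3.eventually_le_const (by simpa [S.mv_zero] using hη)

theorem exists_thick (S : TS X μ) : ∃ δ > 0, S.Thick δ := by
  obtain ⟨ε, hε, h⟩ := short_unique S
  refine ⟨2 * ε, by positivity, fun x v hv => ?_⟩
  by_contra hn
  have h1 : ‖v‖ < ε := by linarith [not_le.1 hn]
  have h2 := h x v (-v) hv.1 hv.2 h1 (by rwa [norm_neg])
  exact hv.1.reg.2 (by linear_combination (1 / 2 : ℂ) * h2)

theorem not_all_ok (S : TS X μ) (x : X) : ¬ ∀ y, S.Ok x y := by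
  intro h
  have cv := fun y y' => convex_ok convex_univ (mem_univ 0) (fun y _ => h y) y trivial y' trivial
  have sub : (S.Sg : Set X)ᶜ ⊆ S.mv x '' univ := by
    refine S.conn.subset_of_closure_inter_subset (isOpen_image isOpen_univ fun y _ => h y)
      ⟨x, (S.reg _ _ (h 0)).1, 0, trivial, S.mv_zero x⟩ ?_
    rintro q ⟨q1, q2⟩
    obtain ⟨_, ⟨d, ⟨-, hd⟩, rfl⟩, y, -, hy⟩ :=
      mem_closure_iff_nhds.1 q1 _ (nhds_image (S := S) q2 one_pos)
    refine ⟨y - d, trivial, ?_⟩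
    rw [← (cv y (y - d)).2, hy, sub_sub_cancel_left, (ok_symm hd).2]
  obtain ⟨σ, hσ⟩ := S.ne
  obtain ⟨U, Uo, σU, z, ε, -, -, -, -, -, -, hit, -⟩ := cone_core hσ
  obtain ⟨q, q1, q2⟩ := S.dense.inter_open_nonempty U Uo ⟨σ, σU⟩
  obtain ⟨y, -, rfl⟩ := sub q2
  refine (hit _ q1 fun e => q2 (e ▸ hσ)).1.1 ?_
  have := (cv y (y - z (S.mv x y))).1
  rwa [sub_sub_cancel_left] at this

theorem fibre (S : TS X μ) : ∃ ε > 0, ∀ y : ℂ, ‖y‖ < ε →
    {q | S.Hit q y}.encard ≤ (S.k * S.Sg.card : ℕ) := by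
  obtain ⟨ε, hε, hε'⟩ := api2_unif S.Sg (P := fun σ r => ∀ y : ℂ, ‖y‖ < r →
    {q | S.HitAt q y σ}.encard ≤ S.k) (fun σ hσ => by
      obtain ⟨U, -, -, z, ε, hε, -, -, -, -, -, -, conv, card, -⟩ := cone_core hσ
      exact ⟨ε, hε, fun y hy => (Set.encard_le_encard fun q hq => conv q y hq hy).trans
        (card (-y))⟩) fun σ r r' hr h y hy => h y (hy.trans_le hr)
  refine ⟨ε, hε, fun y hy => ?_⟩
  have sub : {q | S.Hit q y} ⊆ ⋃ σ ∈ S.Sg, {q | S.HitAt q y σ} := fun q hq => by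
    obtain ⟨σ, hσ, h⟩ := Hit.hitAt hq
    exact mem_iUnion₂.2 ⟨σ, hσ, h⟩
  refine (Set.encard_le_encard sub).trans ((S.Sg.set_encard_biUnion_le _).trans
    ((Finset.sum_le_card_nsmul _ _ _ fun σ hσ => hε' σ hσ y hy).trans (le_of_eq ?_)))
  simp [mul_comm]

theorem not_mem_XR {ρ : ℝ} (hx : x ∉ S.Sg) (h : x ∉ S.XR ρ) :
    ∃ y, ∃ σ ∈ S.Sg, ‖y‖ < ρ ∧ S.HitAt x y σ := by
  simp only [XR, mem_setOf_eq, not_forall] at h
  obtain ⟨v, v1, v2⟩ := h
  obtain ⟨t, t0, t1, ht⟩ := exists_hit hx v2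
  obtain ⟨σ, hσ, h⟩ := ht.hitAt
  refine ⟨t • v, σ, hσ, lt_of_le_of_lt ?_ v1, h⟩
  rw [norm_smul, Real.norm_of_nonneg t0.le]
  nlinarith [norm_nonneg v]

theorem isCompact_XR (S : TS X μ) {ρ : ℝ} (hρ : 0 < ρ) : IsCompact (S.XR ρ) := by
  refine IsClosed.isCompact (isOpen_compl_iff.1 (isOpen_iff_mem_nhds.2 fun x hx => ?_))
  by_cases hS : x ∈ S.Sg
  · filter_upwards [near_sing hS hρ]
    rintro q (rfl | ⟨y, y1, y2⟩)
    · exact hx
    · exact fun h => y2.1.1 (h y y1)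
  · obtain ⟨y, σ, -, y1, y2⟩ := not_mem_XR hS hx
    obtain ⟨r, hr, hr'⟩ := y2.nhds
    filter_upwards [nhds_image hS (lt_min hr (sub_pos.2 y1))]
    rintro _ ⟨d, ⟨d1, -⟩, rfl⟩ h
    have d2 := d1.trans_le (min_le_right _ _)
    exact (hr' d (d1.trans_le (min_le_left _ _))).2.1.1
      (h _ (by linarith [norm_sub_le y d]))

theorem countable_hit (S : TS X μ) (x : X) : {y | S.Hit x y}.Countable := by
  obtain ⟨ε, hε, hu⟩ := short_unique S
  obtain ⟨Q, Qc, Qd⟩ := TopologicalSpace.exists_countable_dense ℂ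
  have sub : {y | S.Hit x y} ⊆ ⋃ y ∈ Q, {w | S.Hit (S.mv x y) (w - y) ∧ ‖w - y‖ < ε} := by
    intro w hw
    obtain ⟨σ, -, h⟩ := Hit.hitAt hw
    obtain ⟨t, ⟨t0, t1⟩, t2⟩ := (api2_ev01.and (api2_ev_small ‖w‖ (half_pos hε))).exists
    obtain ⟨r, hr, hr'⟩ := (h.tail t0.le t1).nhds
    obtain ⟨r₁, hr₁, hr₁'⟩ := localTrans (h.1.2 t t0.le t1)
    obtain ⟨y, y1, y2⟩ := Qd.exists_mem_open (isOpen_ball (x := t • w)
      (ε := min (min r r₁) (ε / 2))) (nonempty_ball.2 (lt_min (lt_min hr hr₁) (half_pos hε)))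
    rw [mem_ball, dist_eq_norm, lt_min_iff, lt_min_iff] at y2
    obtain ⟨-, -, -, a4⟩ := hr₁' 0 (y - t • w) (by simpa using hr₁) y2.1.2
    rw [S.mv_zero, add_sub_cancel, zero_add] at a4
    have e : w - y = (1 - t) • w - (y - t • w) := by rw [sub_smul, one_smul]; abel
    refine mem_iUnion₂.2 ⟨y, y1, ?_, ?_⟩
    · rw [a4, e]
      exact (hr' _ y2.1.1).2.1
    · rw [e]
      refine (norm_sub_le _ _).trans_lt ?_
      rw [norm_smul, Real.norm_of_nonneg (by linarith)]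
      linarith [y2.2]
  refine (Qc.biUnion fun y _ => Set.Subsingleton.countable fun w hw w' hw' => ?_).mono sub
  exact sub_left_injective (hu _ _ _ hw.1 hw'.1 hw.2 hw'.2)

theorem countable_sc [SecondCountableTopology X] (S : TS X μ) :
    {h | ∃ x, S.IsSC x h}.Countable := by
  obtain ⟨Q, Qc, Qd⟩ := TopologicalSpace.exists_countable_dense X
  have sub : {h | ∃ x, S.IsSC x h} ⊆ ⋃ q ∈ Q, (fun a : ℂ × ℂ => (a.1 - a.2) / 2) ''
      ({y | S.Hit q y} ×ˢ {y | S.Hit q y}) := by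
    rintro h ⟨x, h1, h2⟩
    obtain ⟨σ, -, a1⟩ := h1.hitAt
    obtain ⟨σ', -, a2⟩ := h2.hitAt
    obtain ⟨r, hr, hr'⟩ := a1.nhds
    obtain ⟨r₁, hr₁, hr₁'⟩ := a2.nhds
    obtain ⟨_, q1, d, ⟨d1, -⟩, rfl⟩ := Qd.inter_nhds_nonempty (nhds_image h1.reg.1 (lt_min hr hr₁))
    refine mem_iUnion₂.2 ⟨_, q1, (h - d, -h - d), ⟨(hr' d (d1.trans_le (min_le_left _ _))).2.1,
      (hr₁' d (d1.trans_le (min_le_right _ _))).2.1⟩, ?_⟩
    ring
  exact (Qc.biUnion fun q _ => ((countable_hit S q).prod (countable_hit S q)).image _).mono sub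

end Pool.Agent.MP_d0b2d2_an.Gen.TS
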