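import Pool.Agent.MP_d0b2d2_an.Gen.Api2

open MeasureTheory Set Filter Topology Metric
open scoped ENNReal

namespace Pool.Agent.MP_d0b2d2_an.Gen.TS

variable {X : Type} [TopologicalSpace X] [T2Space X] [CompactSpace X] [MeasurableSpace X]
  [BorelSpace X] [SecondCountableTopology X] {μ : Measure X} {S : TS X μ} {x : X} {D : Set ℂ}

/-- countable measurable decomposition into pieces with a local hereditary property -/
theorem api3_decomp {Y : Type} [TopologicalSpace Y] [SecondCountableTopology Y] [MeasurableSpace Y]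
    [OpensMeasurableSpace Y] {D : Set Y} (hD : MeasurableSet D) (P : Set Y → Prop)
    (mono : ∀ A B, B ⊆ A → P A → P B) (h0 : P ∅)
    (h : ∀ y ∈ D, ∃ U, IsOpen U ∧ y ∈ U ∧ P U) :
    ∃ A : ℕ → Set Y, (∀ n, MeasurableSet (A n)) ∧ Pairwise (Function.onFun Disjoint A) ∧
      ⋃ n, A n = D ∧ ∀ n, P (A n) := by
  choose! U h1 h2 h3 using h
  obtain ⟨t, ht1, ht2, ht3⟩ := TopologicalSpace.countable_cover_nhdsWithin (f := U) (s := D)
    fun y hy => mem_nhdsWithin_of_mem_nhds ((h1 y hy).mem_nhds (h2 y hy))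
  obtain ⟨V, hV⟩ := ((ht2.image U).insert ∅).exists_eq_range (insert_nonempty _ _)
  have hV' : ∀ n, IsOpen (V n) ∧ P (V n) := fun n => by
    have : V n ∈ insert ∅ (U '' t) := hV ▸ mem_range_self n
    rcases this with e | ⟨y, hy, e⟩
    · rw [e]; exact ⟨isOpen_empty, h0⟩
    · rw [← e]; exact ⟨h1 y (ht1 hy), h3 y (ht1 hy)⟩
  refine ⟨fun n => D ∩ disjointed V n,
    fun n => hD.inter (MeasurableSet.disjointed (fun n => (hV' n).1.measurableSet) n),
    fun i j hij => (disjoint_disjointed V hij).mono inter_subset_right inter_subset_right, ?_,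
    fun n => mono _ _ (inter_subset_right.trans (disjointed_subset V n)) (hV' n).2⟩
  rw [← inter_iUnion, iUnion_disjointed, inter_eq_left]
  intro y hy
  obtain ⟨y', h', h''⟩ := mem_iUnion₂.1 (ht3 hy)
  have : U y' ∈ range V := hV ▸ mem_insert_of_mem _ (mem_image_of_mem U h')
  obtain ⟨n, hn⟩ := this
  exact mem_iUnion.2 ⟨n, hn ▸ h''⟩

omit [CompactSpace X] [SecondCountableTopology X] in
theorem api3_local {y : ℂ} (h : S.Ok x y) : ∃ r > 0, ∀ A ⊆ ball y r, MeasurableSet A →
    MeasurableSet (S.mv x '' A) ∧ μ (S.mv x '' A) = volume A := by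
  obtain ⟨r1, hr1, h1⟩ := localTrans h
  obtain ⟨r2, hr2, h2, h3⟩ := loc_inj h
  obtain ⟨U, hU, -, -, -, -, -, h4⟩ := S.loc _ (S.reg _ _ h).2
  obtain ⟨r3, hr3, h5⟩ := Metric.mem_nhds_iff.1 hU
  refine ⟨min r1 (min r2 r3), by positivity, fun A hA hA' => ⟨?_, ?_⟩⟩
  · have hA2 : A ⊆ ball y r2 :=
      hA.trans (ball_subset_ball ((min_le_right _ _).trans (min_le_left _ _)))
    exact hA'.image_of_continuousOn_injOn
      (fun a ha => (continuousAt_mv_right (h2 a (hA2 ha))).continuousWithinAt) (h3.mono hA2)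
  · have e : S.mv x '' A = S.mv (S.mv x y) '' ((fun d => y + d) ⁻¹' A) := by
      have key : ∀ d, y + d ∈ A → S.mv x (y + d) = S.mv (S.mv x y) d := fun d hd => by
        have hd' : ‖d‖ < r1 := by
          have := hA hd
          rw [mem_ball, dist_eq_norm, add_sub_cancel_left] at this
          exact this.trans_le (min_le_left _ _)
        have := (h1 0 d (by simpa using hr1) hd').2.2.2
        rwa [S.mv_zero, zero_add] at this
      ext q
      constructor
      · rintro ⟨a, ha, rfl⟩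
        have ha' : y + (a - y) ∈ A := by simpa using ha
        exact ⟨a - y, ha', by rw [← key _ ha']; simp⟩
      · rintro ⟨d, hd, rfl⟩
        exact ⟨y + d, hd, key d hd⟩
    rw [e, h4 _ (fun d hd => h5 ?_) (measurable_const_add y hA'), measure_preimage_add]
    have := hA hd
    rw [mem_ball, dist_eq_norm, add_sub_cancel_left] at this
    rw [mem_ball_zero_iff]
    exact this.trans_le ((min_le_right _ _).trans (min_le_right _ _))

omit [CompactSpace X] [SecondCountableTopology X] in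
theorem api3_pieces (hD : MeasurableSet D) (h : ∀ y ∈ D, S.Ok x y) :
    ∃ A : ℕ → Set ℂ, (∀ n, MeasurableSet (A n)) ∧ Pairwise (Function.onFun Disjoint A) ∧
      ⋃ n, A n = D ∧ ∀ n, MeasurableSet (S.mv x '' A n) ∧ μ (S.mv x '' A n) = volume (A n) := by
  obtain ⟨A, h1, h2, h3, h4⟩ := api3_decomp hD (fun U => ∀ A ⊆ U, MeasurableSet A →
    MeasurableSet (S.mv x '' A) ∧ μ (S.mv x '' A) = volume A)
    (fun A B hB H C hC => H C (hC.trans hB))
    (fun A hA _ => by simp [subset_empty_iff.1 hA]) fun y hy => by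
      obtain ⟨r, hr, H⟩ := api3_local (h y hy)
      exact ⟨ball y r, isOpen_ball, mem_ball_self hr, H⟩
  exact ⟨A, h1, h2, h3, fun n => h4 n _ Subset.rfl (h1 n)⟩

omit [CompactSpace X] in
theorem measurableSet_image (hD : MeasurableSet D) (h : ∀ y ∈ D, S.Ok x y) :
    MeasurableSet (S.mv x '' D) := by
  obtain ⟨A, -, -, h3, h4⟩ := api3_pieces hD h
  rw [← h3, image_iUnion]
  exact MeasurableSet.iUnion fun n => (h4 n).1

omit [CompactSpace X] in
theorem measure_image_le (hD : MeasurableSet D) (h : ∀ y ∈ D, S.Ok x y) :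
    μ (S.mv x '' D) ≤ volume D := by
  obtain ⟨A, h1, h2, h3, h4⟩ := api3_pieces hD h
  rw [← h3, image_iUnion, measure_iUnion h2 h1]
  exact (measure_iUnion_le _).trans (le_of_eq (tsum_congr fun n => (h4 n).2))

omit [CompactSpace X] in
theorem measure_image (hD : MeasurableSet D) (h : ∀ y ∈ D, S.Ok x y) (hi : InjOn (S.mv x) D) :
    μ (S.mv x '' D) = volume D := by
  obtain ⟨A, h1, h2, h3, h4⟩ := api3_pieces hD h
  have hs : ∀ n, A n ⊆ D := fun n => h3 ▸ subset_iUnion A n
  rw [← h3, image_iUnion, measure_iUnion h2 h1, measure_iUnion _ fun n => (h4 n).1]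
  · exact tsum_congr fun n => (h4 n).2
  · exact fun i j hij => disjoint_image_image fun a ha b hb e =>
      Set.disjoint_left.1 (h2 hij) ha (hi (hs i ha) (hs j hb) e ▸ hb)

omit [T2Space X] [CompactSpace X] in
theorem api3_meas_right (S : TS X μ) (x : X) : Measurable (S.mv x) :=
  S.measurable_mv.comp measurable_prodMk_left

omit [T2Space X] [CompactSpace X] in
theorem api3_meas_left (S : TS X μ) (v : ℂ) : Measurable fun q => S.mv q v :=
  S.measurable_mv.comp measurable_prodMk_right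

omit [CompactSpace X] in
theorem measurePreserving_image (hD : MeasurableSet D) (h : ∀ y ∈ D, S.Ok x y)
    (hi : InjOn (S.mv x) D) :
    MeasurePreserving (S.mv x) (volume.restrict D) (μ.restrict (S.mv x '' D)) := by
  refine ⟨api3_meas_right S x, Measure.ext fun B hB => ?_⟩
  have hm := api3_meas_right S x hB
  rw [Measure.map_apply (api3_meas_right S x) hB, Measure.restrict_apply hm,
    Measure.restrict_apply hB, ← image_preimage_inter,
    measure_image (hm.inter hD) (fun y hy => h y hy.2) (hi.mono inter_subset_right)]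

omit [CompactSpace X] in
theorem ae_local {P : X → Prop}
    (h : ∀ x ∉ S.Sg, ∃ r > 0, ∀ᵐ y : ℂ, ‖y‖ < r → S.Ok x y → P (S.mv x y)) : ∀ᵐ q ∂μ, P q := by
  have H : μ ({q | ¬ P q} \ S.Sg) = 0 := by
    refine measure_null_of_locally_null _ fun x hx => ?_
    obtain ⟨r, hr, h1⟩ := h x hx.2
    refine ⟨{q | ¬ P q} ∩ S.mv x '' {d | ‖d‖ < r ∧ S.Ok x d},
      inter_mem (mem_of_superset self_mem_nhdsWithin sdiff_subset)
        (mem_nhdsWithin_of_mem_nhds (nhds_image hx.2 hr)), ?_⟩
    obtain ⟨N, n1, n2, n3⟩ := exists_measurable_superset_of_null (ae_iff.1 h1)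
    refine le_antisymm (le_trans (measure_mono ?_) ((measure_image_le
      (n2.inter (isOpen_ok_right (S := S) x).measurableSet) fun y hy => hy.2).trans
        ((measure_mono inter_subset_left).trans n3.le))) zero_le
    rintro q ⟨hq, d, hd, rfl⟩
    exact ⟨d, ⟨n1 fun H => hq (H hd.1 hd.2), hd.2⟩, rfl⟩
  rw [ae_iff]
  exact measure_mono_null (subset_sdiff_union _ (S.Sg : Set X)) (measure_union_null H S.null)

omit [CompactSpace X] in
theorem ae_pull {P : X → Prop} (h : ∀ᵐ q ∂μ, P q) (x : X) :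
    ∀ᵐ y : ℂ, S.Ok x y → P (S.mv x y) := by
  obtain ⟨N, n1, n2, n3⟩ := exists_measurable_superset_of_null (ae_iff.1 h)
  obtain ⟨A, h1, -, h3, h4⟩ := api3_pieces (S := S) (x := x)
    ((api3_meas_right S x n2).inter (isOpen_ok_right (S := S) x).measurableSet) fun y hy => hy.2
  have hz : volume (⋃ n, A n) = 0 := measure_iUnion_null fun n => by
    rw [← (h4 n).2]
    refine measure_mono_null ?_ n3
    rintro _ ⟨a, ha, rfl⟩
    have : a ∈ ⋃ n, A n := mem_iUnion.2 ⟨n, ha⟩
    rw [h3] at this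
    exact this.1
  rw [ae_iff]
  refine measure_mono_null (fun y hy => ?_) hz
  rw [h3]
  obtain ⟨y1, y2⟩ := Classical.not_imp.1 hy
  exact ⟨n1 y2, y1⟩

theorem api3_half (S : TS X μ) {v : ℂ} (hv : v ≠ 0) :
    ∀ᵐ q ∂μ, ∀ t : ℝ, 0 ≤ t → S.Ok q (t • v) := by
  obtain ⟨ε, hε, hf⟩ := S.fibre
  have hv' : 0 < ‖v‖ := norm_pos_iff.2 hv
  have hl : volume (Submodule.span ℝ {v} : Set ℂ) = 0 := by
    refine Measure.addHaar_submodule _ _ fun e => ?_
    have := finrank_span_singleton (K := ℝ) hv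
    rw [e, finrank_top, Complex.finrank_real_complex] at this
    exact absurd this (by norm_num)
  have hm : MeasurableSet (Submodule.span ℝ {v} : Set ℂ) :=
    (Submodule.closed_of_finiteDimensional _).measurableSet
  have H : μ (⋃ ρ : ℚ, ⋃ p ∈ {p | ‖(ρ : ℝ) • v‖ < ε ∧ S.Hit p ((ρ : ℝ) • v)},
      S.mv p '' ((Submodule.span ℝ {v} : Set ℂ) ∩ {y | S.Ok p y})) = 0 := by
    refine measure_iUnion_null fun ρ => (measure_biUnion_null_iff ?_).2 fun p _ => ?_
    · by_cases hρ : ‖(ρ : ℝ) • v‖ < ε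
      · exact (finite_of_encard_le_coe (hf _ hρ)).countable.mono fun p hp => hp.2
      · exact countable_empty.mono fun p hp => hρ hp.1
    · exact le_antisymm ((measure_image_le (hm.inter (isOpen_ok_right (S := S) p).measurableSet)
        fun y hy => hy.2).trans ((measure_mono inter_subset_left).trans hl.le)) zero_le
  rw [ae_iff]
  refine measure_mono_null (fun q hq => ?_) (measure_union_null H S.null)
  by_cases hs : q ∈ S.Sg
  · exact Or.inr hs
  left
  obtain ⟨t, ht⟩ := not_forall.1 hq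
  obtain ⟨t0, ht⟩ := Classical.not_imp.1 ht
  obtain ⟨s, s0, -, hh⟩ := exists_hit hs ht
  rw [smul_smul] at hh
  have c0 : 0 < s * t := by
    refine mul_pos s0 (lt_of_le_of_ne t0 fun e => hh.reg.2 ?_)
    rw [← e, mul_zero, zero_smul]
  generalize s * t = c at hh c0
  obtain ⟨ρ, ρ0, ρ1⟩ := exists_rat_btwn (lt_min c0 (div_pos hε hv'))
  have ρ2 : (ρ : ℝ) / c < 1 := (div_lt_one c0).2 (ρ1.trans_le (min_le_left _ _))
  have ρ3 : 0 < (ρ : ℝ) / c := div_pos ρ0 c0
  have h1 := hh.tail (t := 1 - ρ / c) (by linarith) (by linarith)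
  have h2 := ok_symm (hh.2 (1 - ρ / c) (by linarith) (by linarith))
  rw [sub_sub_cancel, smul_smul (ρ / c : ℝ), div_mul_cancel₀ _ c0.ne'] at h1
  refine mem_iUnion.2 ⟨ρ, mem_iUnion₂.2 ⟨_, ⟨?_, h1⟩, _, ⟨?_, h2.1⟩, h2.2⟩⟩
  · rw [norm_smul, Real.norm_eq_abs, abs_of_pos ρ0]
    exact (lt_div_iff₀ hv').1 (ρ1.trans_le (min_le_right _ _))
  · exact Submodule.neg_mem _ (Submodule.smul_mem _ _ (Submodule.smul_mem _ _
      (Submodule.mem_span_singleton_self v)))

theorem ae_ok_line (S : TS X μ) (v : ℂ) : ∀ᵐ q ∂μ, ∀ t : ℝ, S.Ok q (t • v) := by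
  by_cases hv : v = 0
  · have : ∀ᵐ q ∂μ, q ∉ (S.Sg : Set X) := measure_eq_zero_iff_ae_notMem.1 S.null
    filter_upwards [this] with q hq t
    rw [hv, smul_zero]
    exact ok_zero.2 hq
  · filter_upwards [api3_half S hv, api3_half S (neg_ne_zero.2 hv)] with q h1 h2 t
    rcases le_total 0 t with h | h
    · exact h1 t h
    · simpa using h2 (-t) (by linarith)

theorem ae_ok (S : TS X μ) (v : ℂ) : ∀ᵐ q ∂μ, S.Ok q v :=
  (ae_ok_line S v).mono fun q h => by simpa using h 1

omit [T2Space X] [CompactSpace X] [BorelSpace X] [SecondCountableTopology X] in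
theorem api3_open_left (S : TS X μ) (v : ℂ) : IsOpen {q | S.Ok q v} :=
  S.isOpen_ok.preimage (Continuous.prodMk_left v)

omit [CompactSpace X] in
theorem api3_disc (hx : x ∉ S.Sg) : ∃ r > 0, (∀ y ∈ ball (0 : ℂ) r, S.Ok x y) ∧
    ∀ r' ≤ r, ∀ B ⊆ S.mv x '' ball 0 r', MeasurableSet B → ∃ D ⊆ ball (0 : ℂ) r',
      MeasurableSet D ∧ B = S.mv x '' D ∧ μ B = volume D := by
  obtain ⟨r, hr, h1, h2⟩ := loc_inj (ok_zero.2 hx)
  refine ⟨r, hr, h1, fun r' hr' B hB hB' => ?_⟩
  have hm := (api3_meas_right S x hB').inter (measurableSet_ball (x := (0 : ℂ)) (ε := r'))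
  have e : B = S.mv x '' (S.mv x ⁻¹' B ∩ ball 0 r') := by
    rw [image_preimage_inter, inter_eq_left.2 hB]
  refine ⟨_, inter_subset_right, hm, e, ?_⟩
  rw [← measure_image hm (fun y hy => h1 y (ball_subset_ball hr' hy.2))
    (h2.mono (inter_subset_right.trans (ball_subset_ball hr'))), ← e]

omit [CompactSpace X] in
theorem api3_shift_le (S : TS X μ) (v : ℂ) {A : Set X} (hA : MeasurableSet A)
    (h : ∀ q ∈ A, S.Ok q v) : μ ((fun q => S.mv q v) '' A) ≤ μ A := by
  obtain ⟨B, h1, h2, h3, h4⟩ := api3_decomp hA (fun U => ∀ B ⊆ U, MeasurableSet B →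
    μ ((fun q => S.mv q v) '' B) ≤ μ B) (fun A B hB H C hC => H C (hC.trans hB))
    (fun A hA _ => by simp [subset_empty_iff.1 hA]) fun q hq => by
      obtain ⟨r1, hr1, a1⟩ := localTrans (h q hq)
      obtain ⟨r2, hr2, a2, a3⟩ := api3_disc (S.reg _ _ (h q hq)).1
      refine ⟨S.mv q '' ball 0 (min r1 r2), isOpen_image isOpen_ball fun y hy =>
        a2 y (ball_subset_ball (min_le_right _ _) hy),
        ⟨0, mem_ball_self (by positivity), S.mv_zero q⟩, fun B hB hB' => ?_⟩
      obtain ⟨D, d1, d2, d3, d4⟩ := a3 _ (min_le_right _ _) B hB hB'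
      have key : ∀ d ∈ D, S.Ok (S.mv q v) d ∧ S.mv (S.mv q d) v = S.mv (S.mv q v) d :=
        fun d hd => by
          have := (a1 d 0 ((mem_ball_zero_iff.1 (d1 hd)).trans_le (min_le_left _ _))
            (by simpa using hr1)).2.2
          simpa using this
      rw [d4, d3, image_image, image_congr fun d hd => (key d hd).2]
      exact measure_image_le d2 fun d hd => (key d hd).1
  rw [← h3, image_iUnion, measure_iUnion h2 h1]
  exact (measure_iUnion_le _).trans (ENNReal.tsum_le_tsum fun n => h4 n _ Subset.rfl (h1 n))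

theorem measurePreserving_mv (S : TS X μ) (v : ℂ) : MeasurePreserving (fun q => S.mv q v) μ μ := by
  refine ⟨api3_meas_left S v, Measure.ext fun B hB => ?_⟩
  have hm := api3_meas_left S v hB
  rw [Measure.map_apply (api3_meas_left S v) hB]
  have e : ∀ (w : ℂ) (C : Set X), μ C = μ (C ∩ {q | S.Ok q w}) := fun w C =>
    (measure_inter_conull (ae_iff.1 (ae_ok S w))).symm
  refine le_antisymm ?_ ?_
  · rw [e v, e (-v) B]
    refine le_trans (measure_mono ?_) (api3_shift_le S (-v)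
      (hB.inter (api3_open_left S (-v)).measurableSet) fun q hq => hq.2)
    rintro q ⟨h1, h2⟩
    exact ⟨S.mv q v, ⟨h1, (ok_symm h2).1⟩, (ok_symm h2).2⟩
  · rw [e v (_ ⁻¹' _), e (-v) B]
    refine le_trans (measure_mono ?_) (api3_shift_le S v
      (hm.inter (api3_open_left S v).measurableSet) fun q hq => hq.2)
    rintro q ⟨h1, h2⟩
    have := ok_symm h2
    rw [neg_neg] at this
    exact ⟨S.mv q (-v), ⟨by rwa [mem_preimage, this.2], this.1⟩, this.2⟩

theorem api3_cone {σ : X} (hσ : σ ∈ S.Sg) : ∃ ε > 0, ∀ h < ε,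
    μ {q | ∃ y, ‖y‖ < h ∧ S.HitAt q y σ} ≤ S.k * volume (ball (0 : ℂ) h) := by
  obtain ⟨U, u1, u2, z, ε, hε, z1, -, z3, z4, z5, -, z7, z8, -⟩ := cone_core hσ
  refine ⟨ε, hε, fun h hh => ?_⟩
  have hW : IsOpen ((U ∩ z ⁻¹' ball 0 h) \ {σ}) :=
    (z1.isOpen_inter_preimage u1 isOpen_ball).sdiff isClosed_singleton
  obtain ⟨A, h1, h2, h3, h4⟩ := api3_decomp hW.measurableSet (fun V => ∀ B ⊆ V, MeasurableSet B →
    MeasurableSet (z '' B) ∧ μ B = volume (z '' B)) (fun A B hB H C hC => H C (hC.trans hB))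
    (fun A hA _ => by simp [subset_empty_iff.1 hA]) fun q hq => by
      obtain ⟨q1, q2⟩ := z4 q hq.1.1 hq.2
      obtain ⟨r, hr, a2, a3⟩ := api3_disc q1
      have q3 := z3 q hq.1.1
      have q4 : 0 < ‖z q‖ := norm_pos_iff.2 q2
      have r0 : 0 < min r (min ‖z q‖ (ε - ‖z q‖)) := lt_min hr (lt_min q4 (by linarith))
      refine ⟨S.mv q '' ball 0 (min r (min ‖z q‖ (ε - ‖z q‖))), isOpen_image isOpen_ball
        fun y hy => a2 y (ball_subset_ball (min_le_left _ _) hy),
        ⟨0, mem_ball_self r0, S.mv_zero q⟩, fun B hB hB' => ?_⟩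
      obtain ⟨D, d1, d2, d3, d4⟩ := a3 _ (min_le_left _ _) B hB hB'
      have key : ∀ d ∈ D, z (S.mv q d) = z q + d := fun d hd => by
        have b := mem_ball_zero_iff.1 (d1 hd)
        rw [lt_min_iff, lt_min_iff] at b
        refine (z5 q hq.1.1 hq.2 d fun t t0 t1 => ?_).2.2
        have b' : ‖t • d‖ ≤ ‖d‖ := by
          rw [norm_smul, Real.norm_eq_abs, abs_of_nonneg t0]
          exact mul_le_of_le_one_left (norm_nonneg _) t1
        refine ⟨fun e => ?_, by linarith [norm_add_le (z q) (t • d)]⟩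
        rw [eq_neg_of_add_eq_zero_left e, norm_neg] at b
        linarith
      rw [d4, d3, image_image, image_congr key, image_add_left]
      exact ⟨measurable_const_add _ d2, (measure_preimage_add _ _ _).symm⟩
  have hs : ∀ n, A n ⊆ (U ∩ z ⁻¹' ball 0 h) \ {σ} := fun n => h3 ▸ subset_iUnion A n
  calc _ ≤ μ (⋃ n, A n) := by
        refine measure_mono ?_
        rintro q ⟨y, y1, y2⟩
        obtain ⟨b1, b2⟩ := z7 q y y2 (y1.trans hh)
        rw [h3]
        refine ⟨⟨b1, by rwa [mem_preimage, mem_ball_zero_iff, b2, norm_neg]⟩, fun e => ?_⟩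
        exact y2.1.reg.1 (mem_singleton_iff.1 e ▸ hσ)
    _ = ∑' n, ∫⁻ w, (z '' A n).indicator 1 w := by
        rw [measure_iUnion h2 h1]
        exact tsum_congr fun n => by
          rw [lintegral_indicator_one (h4 n _ Subset.rfl (h1 n)).1, (h4 n _ Subset.rfl (h1 n)).2]
    _ = ∫⁻ w, ∑' n, (z '' A n).indicator 1 w := (lintegral_tsum fun n =>
        (measurable_one.indicator (h4 n _ Subset.rfl (h1 n)).1).aemeasurable).symm
    _ ≤ ∫⁻ w, (ball (0 : ℂ) h).indicator (fun _ => (S.k : ℝ≥0∞)) w := by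
        refine lintegral_mono fun w => ?_
        have e : ∑' n, (z '' A n).indicator (1 : ℂ → ℝ≥0∞) w = {n | w ∈ z '' A n}.encard := by
          rw [← ENNReal.tsum_set_one, tsum_subtype {n | w ∈ z '' A n} fun _ => (1 : ℝ≥0∞)]
          exact tsum_congr fun n => by
            by_cases hn : w ∈ z '' A n
            · rw [indicator_of_mem hn, indicator_of_mem (show n ∈ {n | w ∈ z '' A n} from hn)]
              rfl
            · rw [indicator_of_notMem hn,
                indicator_of_notMem (show n ∉ {n | w ∈ z '' A n} from hn)]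
        beta_reduce
        rw [e]
        by_cases hw : w ∈ ball (0 : ℂ) h
        · rw [indicator_of_mem hw]
          have : ∀ n, ∃ q, w ∈ z '' A n → q ∈ A n ∧ z q = w := fun n => by
            by_cases hn : w ∈ z '' A n
            · obtain ⟨q, hq⟩ := hn
              exact ⟨q, fun _ => hq⟩
            · exact ⟨σ, fun h => absurd h hn⟩
          choose g hg using this
          have b : {n | w ∈ z '' A n}.encard ≤ (U ∩ z ⁻¹' {w}).encard :=
            encard_le_encard_of_injOn (f := g)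
              (fun n hn => ⟨(hs n (hg n hn).1).1.1, (hg n hn).2⟩) fun n hn m hm e => by
                by_contra hne
                exact Set.disjoint_left.1 (h2 hne) (hg n hn).1 (e ▸ (hg m hm).1)
          exact_mod_cast b.trans (z8 w)
        · have : {n | w ∈ z '' A n} = ∅ := eq_empty_of_forall_notMem fun n ⟨q, q1, q2⟩ =>
            hw (q2 ▸ (hs n q1).1.2)
          rw [this]
          simp
    _ = _ := by rw [lintegral_indicator_const measurableSet_ball]

theorem measure_not_XR_small (S : TS X μ) : ∃ ε > 0, ∃ C : ℝ, ∀ h : ℝ, 0 < h → h < ε →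
    μ (S.XR h)ᶜ ≤ ENNReal.ofReal (C * h ^ 2) := by
  have H : ∀ᶠ ε in 𝓝[>] (0 : ℝ), ∀ σ ∈ S.Sg, ∀ h < ε,
      μ {q | ∃ y, ‖y‖ < h ∧ S.HitAt q y σ} ≤ S.k * volume (ball (0 : ℂ) h) := by
    refine (eventually_all_finset _).2 fun σ hσ => ?_
    obtain ⟨ε, hε, H⟩ := api3_cone hσ
    filter_upwards [Ioo_mem_nhdsGT hε] with ε' h' h hh using H h (hh.trans h'.2)
  obtain ⟨ε, h1, h2⟩ := (H.and self_mem_nhdsWithin).exists
  refine ⟨ε, h2, S.Sg.card * (S.k * Real.pi), fun h h0 hh => ?_⟩
  calc _ ≤ μ ((S.Sg : Set X) ∪ ⋃ σ ∈ S.Sg, {q | ∃ y, ‖y‖ < h ∧ S.HitAt q y σ}) := by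
        refine measure_mono fun q hq => ?_
        by_cases hs : q ∈ S.Sg
        · exact Or.inl hs
        · obtain ⟨y, σ, a1, a2, a3⟩ := not_mem_XR hs hq
          exact Or.inr (mem_iUnion₂.2 ⟨σ, a1, y, a2, a3⟩)
    _ ≤ 0 + ∑ σ ∈ S.Sg, S.k * volume (ball (0 : ℂ) h) :=
        (measure_union_le _ _).trans (add_le_add S.null.le ((measure_biUnion_finset_le _ _).trans
          (Finset.sum_le_sum fun σ hσ => h1 σ hσ h hh)))
    _ = _ := by
        rw [zero_add, Finset.sum_const, nsmul_eq_mul, Complex.volume_ball, mul_assoc, mul_assoc,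
          ENNReal.ofReal_mul (Nat.cast_nonneg _), ENNReal.ofReal_mul (Nat.cast_nonneg _),
          ENNReal.ofReal_mul Real.pi_pos.le, ENNReal.ofReal_natCast, ENNReal.ofReal_natCast,
          ENNReal.ofReal_pow h0.le, ← NNReal.coe_real_pi, ENNReal.ofReal_coe_nnreal,
          mul_comm (ENNReal.ofReal h ^ 2)]

theorem isFiniteMeasure (S : TS X μ) : IsFiniteMeasure μ := by
  obtain ⟨ε, hε, C, H⟩ := measure_not_XR_small S
  have h1 : μ (S.XR (ε / 2)) < ∞ := by
    refine (S.isCompact_XR (half_pos hε)).measure_lt_top_of_nhdsWithin fun q hq => ?_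
    have hq' : q ∉ S.Sg := ok_zero.1 (hq 0 (by simpa using hε))
    refine ⟨_, mem_nhdsWithin_of_mem_nhds (nhds_image hq' one_pos), ?_⟩
    have e : {d : ℂ | ‖d‖ < 1 ∧ S.Ok q d} = ball 0 1 ∩ {d | S.Ok q d} := by
      ext d; simp
    rw [e]
    exact ((measure_image_le (measurableSet_ball.inter (isOpen_ok_right (S := S) q).measurableSet)
      fun y hy => hy.2).trans (measure_mono inter_subset_left)).trans_lt measure_ball_lt_top
  refine ⟨?_⟩
  rw [← union_compl_self (S.XR (ε / 2))]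
  exact (measure_union_le _ _).trans_lt (ENNReal.add_lt_top.2
    ⟨h1, (H _ (half_pos hε) (half_lt_self hε)).trans_lt ENNReal.ofReal_lt_top⟩)

omit [CompactSpace X] in
theorem measure_pos (S : TS X μ) : μ univ ≠ 0 := by
  obtain ⟨σ, -⟩ := S.ne
  obtain ⟨x, hx⟩ := S.dense.nonempty_iff.2 ⟨σ⟩
  obtain ⟨r, hr, h⟩ := api3_local (ok_zero.2 hx : S.Ok x 0)
  intro e
  have := (h _ Subset.rfl measurableSet_ball).2
  rw [measure_mono_null (subset_univ _) e] at this
  exact (measure_ball_pos volume (0 : ℂ) hr).ne this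

end Pool.Agent.MP_d0b2d2_an.Gen.TS
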