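import Pool.Agent.MP_d0b2d2_an.Gen.Pub

open MeasureTheory Set Filter Topology Metric

namespace Pool.Agent.MP_d0b2d2_an.Gen.TransSurf

variable {X : Type} [TopologicalSpace X] (S : TransSurf X)

theorem area_zero_mem (x : X) : (0 : ℂ) ∈ (S.chart x).target :=
  S.center x ▸ (S.chart x).map_source (S.mem_source x)

theorem area_symm_zero (x : X) : (S.chart x).symm 0 = x := by
  have := (S.chart x).left_inv (S.mem_source x)
  rwa [S.center x] at this

theorem area_tendsto_symm (x : X) : Tendsto (S.chart x).symm (𝓝 0) (𝓝 x) := by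
  have := (S.chart x).tendsto_symm (S.mem_source x)
  rwa [S.center x] at this

theorem area_chart_ne {x y : X} (hy : y ∈ (S.chart x).source) (hne : y ≠ x) :
    S.chart x y ≠ 0 := fun h =>
  hne ((S.chart x).injOn hy (S.mem_source x) (h.trans (S.center x).symm))

theorem area_pow_inj {n : ℕ} (hn : 1 ≤ n) {a : ℂ} (ha : a ≠ 0) :
    ∃ W ∈ 𝓝 a, InjOn (fun z : ℂ => z ^ n) W := by
  have hd : HasStrictDerivAt (fun z : ℂ => z ^ n) ((n : ℂ) * a ^ (n - 1)) a :=
    hasStrictDerivAt_pow n a
  have hne : (n : ℂ) * a ^ (n - 1) ≠ 0 :=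
    mul_ne_zero (Nat.cast_ne_zero.2 (by omega)) (pow_ne_zero _ ha)
  refine ⟨_, hd.eventually_left_inverse hne, fun z hz z' hz' h => ?_⟩
  have h1 : _ = z := hz
  have h2 : _ = z' := hz'
  rw [← h1, ← h2]
  exact congrArg _ h

/-- a cone point lies only in its own chart -/
theorem ord_eq_one {x y : X} (hy : y ∈ (S.chart x).source) (hne : y ≠ x) : S.ord y = 1 := by
  by_contra hm
  have hm1 := S.ord_pos y
  have hm2 : 1 < S.ord y := by omega
  have hω := Complex.isPrimitiveRoot_exp (S.ord y) (by omega)
  generalize Complex.exp (2 * Real.pi * Complex.I / (S.ord y : ℂ)) = ω at hω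
  obtain ⟨W, hW, hinj⟩ := area_pow_inj (S.ord_pos x) (S.area_chart_ne hy hne)
  have h1 : ∀ᶠ q in 𝓝 y, q ∈ (S.chart x).source ∧ S.chart x q ∈ W ∧
      S.chart x q ^ S.ord x - S.chart y q ^ S.ord y =
        S.chart x y ^ S.ord x - S.chart y y ^ S.ord y :=
    ((S.chart x).open_source.eventually_mem hy).and
      ((((S.chart x).continuousAt hy).eventually hW).and
        (S.compat x y y ⟨hy, S.mem_source y⟩))
  have h2 := ((S.area_tendsto_symm y).eventually h1).and
    ((S.chart y).open_target.eventually_mem (S.area_zero_mem y))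
  have h3 : Tendsto (fun z : ℂ => ω * z) (𝓝 0) (𝓝 0) :=
    (continuous_const.mul continuous_id).tendsto' 0 0 (by simp)
  have h4 := (h2.and (h3.eventually h2)).filter_mono (nhdsWithin_le_nhds (s := {(0 : ℂ)}ᶜ))
  obtain ⟨z, ⟨⟨⟨a1, a2, a3⟩, a4⟩, ⟨b1, b2, b3⟩, b4⟩, hz⟩ := (h4.and self_mem_nhdsWithin).exists
  rw [(S.chart y).right_inv a4] at a3
  rw [(S.chart y).right_inv b4, mul_pow, hω.pow_eq_one, one_mul] at b3
  have e1 : S.chart x ((S.chart y).symm z) = S.chart x ((S.chart y).symm (ω * z)) :=
    hinj a2 b2 (by simpa using sub_left_injective (a3.trans b3.symm))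
  have e2 := (S.chart y).symm.injOn a4 b4 ((S.chart x).injOn a1 b1 e1)
  have hz' : z ≠ 0 := hz
  exact hω.ne_one hm2 (mul_right_cancel₀ hz' (e2.symm.trans (one_mul z).symm))

theorem finite_sing [CompactSpace X] : {x | 2 ≤ S.ord x}.Finite := by
  obtain ⟨t, -, ht⟩ := isCompact_univ.elim_nhds_subcover (fun x => (S.chart x).source)
    fun x _ => (S.chart x).open_source.mem_nhds (S.mem_source x)
  refine t.finite_toSet.subset fun y hy => ?_
  obtain ⟨x, hx, hyx⟩ := mem_iUnion₂.1 (ht (mem_univ y))
  by_cases h : y = x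
  · exact h ▸ hx
  · have := S.ord_eq_one hyx h
    have hy' : 2 ≤ S.ord y := hy
    omega

theorem area_punctured_ball (r : ℝ) : IsPreconnected (ball (0 : ℂ) r \ {0}) := by
  have h : ball (0 : ℂ) r \ {0} = (fun p : ℝ × ℝ => (p.1 : ℂ) *
      Complex.exp (p.2 * Complex.I)) '' (Ioo 0 r ×ˢ univ) := by
    ext z
    constructor
    · rintro ⟨h1, h2⟩
      exact ⟨(‖z‖, Complex.arg z), ⟨⟨norm_pos_iff.2 h2, by simpa using h1⟩, mem_univ _⟩,
        Complex.norm_mul_exp_arg_mul_I z⟩
    · rintro ⟨⟨ρ, θ⟩, ⟨⟨h1, h2⟩, -⟩, rfl⟩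
      have h1' : (0 : ℝ) < ρ := h1
      have h2' : ρ < r := h2
      refine ⟨?_, ?_⟩
      · simpa [Complex.norm_exp_ofReal_mul_I, abs_of_pos h1'] using h2'
      · simpa using h1'.ne'
  rw [h]
  exact (isPreconnected_Ioo.prod isPreconnected_univ).image _ (by fun_prop)

include S in
theorem punctured_preconnected (x : X) {V : Set X} (hV : V ∈ 𝓝 x) :
    ∃ V' ∈ 𝓝 x, V' ⊆ V ∧ IsPreconnected (V' \ {x}) := by
  have h1 : (S.chart x).target ∩ (S.chart x).symm ⁻¹' V ∈ 𝓝 (0 : ℂ) :=
    inter_mem ((S.chart x).open_target.mem_nhds (S.area_zero_mem x)) (S.area_tendsto_symm x hV)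
  obtain ⟨r, hr, hb⟩ := Metric.mem_nhds_iff.1 h1
  refine ⟨(S.chart x).symm '' ball 0 r, ?_, ?_, ?_⟩
  · have := (S.chart x).symm.image_mem_nhds (S.area_zero_mem x) (ball_mem_nhds 0 hr)
    rwa [S.area_symm_zero] at this
  · rintro _ ⟨z, hz, rfl⟩
    exact (hb hz).2
  · have : (S.chart x).symm '' ball 0 r \ {x} = (S.chart x).symm '' (ball 0 r \ {0}) := by
      ext q
      constructor
      · rintro ⟨⟨z, hz, rfl⟩, hq⟩
        refine ⟨z, ⟨hz, ?_⟩, rfl⟩
        rintro (rfl : z = 0)
        exact hq (S.area_symm_zero x)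
      · rintro ⟨z, ⟨hz, hz0⟩, rfl⟩
        refine ⟨⟨z, hz, rfl⟩, fun h => hz0 ?_⟩
        exact (S.chart x).symm.injOn (hb hz).1 (S.area_zero_mem x)
          ((show _ = x from h).trans (S.area_symm_zero x).symm)
    rw [this]
    exact (area_punctured_ball r).image _
      ((S.chart x).continuousOn_symm.mono fun z hz => (hb hz.1).1)

include S in
theorem area_neBot (x : X) : NeBot (𝓝[≠] x) := by
  have h : Tendsto (S.chart x).symm (𝓝[≠] 0) (𝓝[≠] x) := by
    refine tendsto_nhdsWithin_iff.2 ⟨(S.area_tendsto_symm x).mono_left nhdsWithin_le_nhds, ?_⟩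
    have := (S.chart x).symm.eventually_ne_nhdsWithin (S.area_zero_mem x)
    rwa [S.area_symm_zero] at this
  exact h.neBot

include S in
theorem dense_compl [T1Space X] {F : Set X} (hF : F.Finite) : Dense Fᶜ := by
  have := S.area_neBot
  rw [compl_eq_univ_sdiff]
  exact dense_univ.sdiff_finite hF

include S in
theorem area_preconnected_diff [T1Space X] {W : Set X} (ho : IsOpen W) (hW : IsPreconnected W)
    (x : X) : IsPreconnected (W \ {x}) := by
  by_cases hx : x ∈ W
  swap
  · rwa [sdiff_singleton_eq_self hx]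
  obtain ⟨V, hV, hVW, hVc⟩ := S.punctured_preconnected x (ho.mem_nhds hx)
  have key : ∀ u v : Set X, IsOpen u → IsOpen v → W \ {x} ⊆ u ∪ v →
      (W \ {x}) ∩ (u ∩ v) = ∅ → V \ {x} ⊆ u → W \ {x} ⊆ u := by
    intro u v hu hv hc hd hVu
    have := isPreconnected_iff_subset_of_disjoint.1 hW (u ∪ interior V) (v \ {x})
      (hu.union isOpen_interior) (hv.sdiff isClosed_singleton) (fun q hq => by
        by_cases h : q = x
        · exact Or.inl (Or.inr (h ▸ mem_interior_iff_mem_nhds.2 hV))
        · rcases hc ⟨hq, h⟩ with h' | h'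
          · exact Or.inl (Or.inl h')
          · exact Or.inr ⟨h', h⟩) (by
        refine eq_empty_of_forall_notMem fun q ⟨h1, h2, h3, h4⟩ => ?_
        have : q ∈ (W \ {x}) ∩ (u ∩ v) :=
          ⟨⟨h1, h4⟩, h2.elim id fun h => hVu ⟨interior_subset h, h4⟩, h3⟩
        rw [hd] at this
        exact this)
    rcases this with h | h
    · exact fun q hq => (h hq.1).elim id fun h' => hVu ⟨interior_subset h', hq.2⟩
    · exact absurd rfl (h hx).2
  refine isPreconnected_iff_subset_of_disjoint.2 fun u v hu hv hc hd => ?_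
  have hsub : V \ {x} ⊆ W \ {x} := sdiff_subset_sdiff_left hVW
  rcases isPreconnected_iff_subset_of_disjoint.1 hVc u v hu hv (hsub.trans hc)
    (eq_empty_of_subset_empty (hd ▸ inter_subset_inter_left _ hsub)) with h | h
  · exact Or.inl (key u v hu hv hc hd h)
  · exact Or.inr (key v u hv hu (by rwa [union_comm]) (by rwa [inter_comm v u]) h)

include S in
theorem preconnected_compl [T1Space X] [PreconnectedSpace X] {F : Set X} (hF : F.Finite) :
    IsPreconnected Fᶜ := by
  induction F, hF using Set.Finite.induction_on with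
  | empty => simpa using isPreconnected_univ
  | @insert a s _ hs ih =>
    have : (insert a s)ᶜ = sᶜ \ {a} := by
      ext q
      simp [and_comm]
    rw [this]
    exact S.area_preconnected_diff hs.isClosed.isOpen_compl ih a

section Measure

variable [MeasurableSpace X] [BorelSpace X] [SecondCountableTopology X]

/-- Lebesgue measure read in the chart at `x` -/
noncomputable def areaAt (x : X) : Measure X :=
  Measure.map (S.chart x).symm (volume.restrict (S.chart x).target)

omit [SecondCountableTopology X] in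
theorem areaAt_apply (x : X) {A : Set X} (hA : MeasurableSet A) (h : A ⊆ (S.chart x).source) :
    S.areaAt x A = volume (S.chart x '' A) := by
  have hm := (S.chart x).open_target.measurableSet
  rw [areaAt, Measure.map_apply_of_aemeasurable ((S.chart x).continuousOn_symm.aemeasurable hm) hA,
    Measure.restrict_apply' hm, (S.chart x).image_eq_target_inter_inv_preimage h, inter_comm]

/-- two regular charts differ locally by translations, so they give the same area -/
theorem area_volume_chart {x y : X}
    (hx : S.ord x = 1) (hy : S.ord y = 1) {A : Set X} (hA : MeasurableSet A)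
    (h1 : A ⊆ (S.chart x).source) (h2 : A ⊆ (S.chart y).source) :
    volume (S.chart x '' A) = volume (S.chart y '' A) := by
  rw [← S.areaAt_apply x hA h1, ← S.areaAt_apply y hA h2]
  have hN : ∀ q ∈ A, ∃ N, IsOpen N ∧ q ∈ N ∧ N ⊆ (S.chart x).source ∧ N ⊆ (S.chart y).source ∧
      ∀ q' ∈ N, S.chart x q' = S.chart y q' + (S.chart x q - S.chart y q) := by
    intro q hq
    have h := ((S.chart x).open_source.eventually_mem (h1 hq)).and
      (((S.chart y).open_source.eventually_mem (h2 hq)).and (S.compat x y q ⟨h1 hq, h2 hq⟩))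
    obtain ⟨N, hN, ho, hqN⟩ := eventually_nhds_iff.1 h
    refine ⟨N, ho, hqN, fun q' h' => (hN q' h').1, fun q' h' => (hN q' h').2.1, fun q' h' => ?_⟩
    have := (hN q' h').2.2
    rw [hx, hy] at this
    simp only [pow_one] at this
    rw [← this]
    ring
  choose! N hNo hNq hN1 hN2 hN3 using hN
  obtain ⟨T, hTA, hTc, hT⟩ := TopologicalSpace.isOpen_biUnion_countable A N hNo
  have hAT : A ⊆ ⋃ q ∈ T, N q := hT ▸ fun q hq => mem_biUnion hq (hNq q hq)
  have key : (S.areaAt x).restrict (⋃ q ∈ T, N q) = (S.areaAt y).restrict (⋃ q ∈ T, N q) := by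
    refine (Measure.restrict_biUnion_congr hTc).2 fun q hq => ?_
    have hq' := hTA hq
    refine (Measure.restrict_congr_meas (hNo q hq').measurableSet).2 fun t ht htm => ?_
    rw [S.areaAt_apply x htm (ht.trans (hN1 q hq')), S.areaAt_apply y htm (ht.trans (hN2 q hq'))]
    have : S.chart x '' t = (fun z => z + (S.chart x q - S.chart y q)) '' (S.chart y '' t) := by
      rw [image_image]
      exact image_congr fun q' h' => hN3 q hq' q' (ht h')
    rw [this, image_add_right, measure_preimage_add_right]
  have := congrArg (fun m : Measure X => m A) key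
  simpa only [Measure.restrict_apply hA, inter_eq_left.2 hAT] using this

theorem area_exists : ∃ lam : Measure X, S.IsArea lam := by
  obtain ⟨T, hTR, hTc, hT⟩ := TopologicalSpace.isOpen_biUnion_countable {x | S.ord x = 1}
    (fun x => (S.chart x).source) fun x _ => (S.chart x).open_source
  have hcov : ∀ x, S.ord x = 1 → (S.chart x).source ⊆ ⋃ q ∈ T, (S.chart q).source := by
    intro x hx
    rw [hT]
    exact subset_biUnion_of_mem (u := fun x => (S.chart x).source) (show x ∈ {x | S.ord x = 1} from hx)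
  rcases T.eq_empty_or_nonempty with rfl | hne
  · refine ⟨0, rfl, fun x hx => ?_⟩
    simpa using hcov x hx (S.mem_source x)
  obtain ⟨f, rfl⟩ := hTc.exists_eq_range hne
  have hf : ∀ n, S.ord (f n) = 1 := fun n => hTR (mem_range_self n)
  let B : ℕ → Set X := disjointed fun n => (S.chart (f n)).source
  have hBm : ∀ n, MeasurableSet (B n) :=
    MeasurableSet.disjointed fun n => (S.chart (f n)).open_source.measurableSet
  have hBs : ∀ n, B n ⊆ (S.chart (f n)).source := disjointed_subset _
  refine ⟨Measure.sum fun n => (S.areaAt (f n)).restrict (B n), ?_, fun x hx A hA hAx => ?_⟩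
  · rw [Measure.sum_apply_of_countable]
    refine ENNReal.tsum_eq_zero.2 fun n => ?_
    rw [Measure.restrict_apply' (hBm n)]
    have : {x | 2 ≤ S.ord x} ∩ B n = ∅ := by
      refine eq_empty_of_forall_notMem fun q ⟨h1, h2⟩ => ?_
      have h1' : 2 ≤ S.ord q := h1
      by_cases h : q = f n
      · have := hf n
        rw [← h] at this
        omega
      · have := S.ord_eq_one (hBs n h2) h
        omega
    rw [this, measure_empty]
  · rw [Measure.sum_apply _ hA, ← S.areaAt_apply x hA hAx]
    have hU : A = ⋃ n, A ∩ B n := by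
      rw [← inter_iUnion, iUnion_disjointed]
      refine (inter_eq_left.2 ?_).symm
      simpa only [biUnion_range] using hAx.trans (hcov x hx)
    conv_rhs => rw [hU]
    rw [measure_iUnion (fun i j hij => (disjoint_disjointed _ hij).mono inter_subset_right
      inter_subset_right) fun n => hA.inter (hBm n)]
    refine tsum_congr fun n => ?_
    have hm := hA.inter (hBm n)
    have s1 : A ∩ B n ⊆ (S.chart (f n)).source := inter_subset_right.trans (hBs n)
    have s2 : A ∩ B n ⊆ (S.chart x).source := inter_subset_left.trans hAx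
    rw [Measure.restrict_apply hA, S.areaAt_apply _ hm s1, S.areaAt_apply _ hm s2,
      S.area_volume_chart (hf n) hx hm s1 s2]

end Measure

/-- two regular charts differ locally by translations, so they give the same area -/
theorem volume_chart [MeasurableSpace X] [BorelSpace X] [SecondCountableTopology X] {x y : X}
    (hx : S.ord x = 1) (hy : S.ord y = 1) {A : Set X} (hA : MeasurableSet A)
    (h1 : A ⊆ (S.chart x).source) (h2 : A ⊆ (S.chart y).source) :
    volume (S.chart x '' A) = volume (S.chart y '' A) :=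
  S.area_volume_chart hx hy hA h1 h2

theorem exists_area [MeasurableSpace X] [BorelSpace X] [SecondCountableTopology X] :
    ∃ lam : Measure X, S.IsArea lam := S.area_exists

end Pool.Agent.MP_d0b2d2_an.Gen.TransSurf
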