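import Mathlib

open MeasureTheory Set Filter Topology Metric

namespace Pool.Agent.MP_d0b2d2_an.Gen

/-- the area form on the plane -/
def wedge (y y' : ℂ) : ℝ := y.re * y'.im - y.im * y'.re

/-- area-preserving real-linear maps of the plane -/
def Sl (g : ℂ →L[ℝ] ℂ) : Prop := ∀ y y', wedge (g y) (g y') = wedge y y'

/-- the unit vector of slope parameter `σ` -/
noncomputable def ed (σ : ℝ) : ℂ := ((σ : ℂ) + Complex.I) / (√(1 + σ ^ 2) : ℝ)

/-- the Euclidean inner product on the plane -/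
def dot (y y' : ℂ) : ℝ := y.re * y'.re + y.im * y'.im

/-- the renormalising map `(p, q) ↦ (2 ^ k (p - σ q), q / 2 ^ k)` -/
noncomputable def zm (σ : ℝ) (k : ℕ) : ℂ ≃L[ℝ] ℂ :=
  LinearEquiv.toContinuousLinearEquiv
    { toFun := fun y => ⟨2 ^ k * (y.re - σ * y.im), y.im / 2 ^ k⟩
      invFun := fun y => ⟨y.re / 2 ^ k + σ * (2 ^ k * y.im), 2 ^ k * y.im⟩
      map_add' := fun y y' => by apply Complex.ext <;> simp <;> ring
      map_smul' := fun r y => by apply Complex.ext <;> simp <;> ring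
      left_inv := fun y => by apply Complex.ext <;> simp <;> (field_simp; try ring)
      right_inv := fun y => by apply Complex.ext <;> simp <;> field_simp }

@[simp] lemma zm_re (σ : ℝ) (k : ℕ) (y : ℂ) : (zm σ k y).re = 2 ^ k * (y.re - σ * y.im) := rfl
@[simp] lemma zm_im (σ : ℝ) (k : ℕ) (y : ℂ) : (zm σ k y).im = y.im / 2 ^ k := rfl
@[simp] lemma zm_symm_re (σ : ℝ) (k : ℕ) (y : ℂ) :
    ((zm σ k).symm y).re = y.re / 2 ^ k + σ * (2 ^ k * y.im) := rfl
@[simp] lemma zm_symm_im (σ : ℝ) (k : ℕ) (y : ℂ) : ((zm σ k).symm y).im = 2 ^ k * y.im := rfl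

lemma sl_zm (σ : ℝ) (k : ℕ) : Sl (zm σ k : ℂ →L[ℝ] ℂ) := fun y y' => by
  simp only [wedge, ContinuousLinearEquiv.coe_coe, zm_re, zm_im]
  field_simp
  ring

lemma Sl.det {g : ℂ →L[ℝ] ℂ} (h : Sl g) : LinearMap.det (g : ℂ →ₗ[ℝ] ℂ) = 1 := by
  have := h 1 Complex.I
  rw [← LinearMap.det_toMatrix Complex.basisOneI, Matrix.det_fin_two]
  simp only [LinearMap.toMatrix_apply, Complex.coe_basisOneI, Complex.coe_basisOneI_repr,
    ContinuousLinearMap.coe_coe]
  simp [wedge] at this ⊢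
  linarith

lemma Sl.symm {g : ℂ ≃L[ℝ] ℂ} (h : Sl (g : ℂ →L[ℝ] ℂ)) : Sl (g.symm : ℂ →L[ℝ] ℂ) :=
  fun y y' => by
  have := h (g.symm y) (g.symm y')
  simpa using this.symm

lemma Sl.comp {g g' : ℂ →L[ℝ] ℂ} (h : Sl g) (h' : Sl g') : Sl (g.comp g') :=
  fun y y' => (h _ _).trans (h' _ _)

lemma Sl.volume_image {g : ℂ →L[ℝ] ℂ} (h : Sl g) (A : Set ℂ) : volume (g '' A) = volume A := by
  rw [Measure.addHaar_image_continuousLinearMap, h.det]
  simp

section Plane

variable (y y' y'' : ℂ) (r : ℝ)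

lemma wedge_add_left : wedge (y + y') y'' = wedge y y'' + wedge y' y'' := by simp [wedge]; ring
lemma wedge_add_right : wedge y (y' + y'') = wedge y y' + wedge y y'' := by simp [wedge]; ring
lemma wedge_sub_left : wedge (y - y') y'' = wedge y y'' - wedge y' y'' := by simp [wedge]; ring
lemma wedge_sub_right : wedge y (y' - y'') = wedge y y' - wedge y y'' := by simp [wedge]; ring
lemma wedge_smul_left : wedge (r • y) y' = r * wedge y y' := by simp [wedge]; ring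
lemma wedge_smul_right : wedge y (r • y') = r * wedge y y' := by simp [wedge]; ring
lemma wedge_neg_left : wedge (-y) y' = -wedge y y' := by simp [wedge]; ring
lemma wedge_neg_right : wedge y (-y') = -wedge y y' := by simp [wedge]; ring
lemma wedge_self : wedge y y = 0 := by simp [wedge]; ring
lemma wedge_comm : wedge y y' = -wedge y' y := by simp [wedge]; ring
lemma wedge_zero_left : wedge 0 y = 0 := by simp [wedge]
lemma wedge_zero_right : wedge y 0 = 0 := by simp [wedge]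
lemma dot_comm : dot y y' = dot y' y := by simp [dot]; ring
lemma dot_add_left : dot (y + y') y'' = dot y y'' + dot y' y'' := by simp [dot]; ring
lemma dot_add_right : dot y (y' + y'') = dot y y' + dot y y'' := by simp [dot]; ring
lemma dot_sub_left : dot (y - y') y'' = dot y y'' - dot y' y'' := by simp [dot]; ring
lemma dot_sub_right : dot y (y' - y'') = dot y y' - dot y y'' := by simp [dot]; ring
lemma dot_smul_left : dot (r • y) y' = r * dot y y' := by simp [dot]; ring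
lemma dot_smul_right : dot y (r • y') = r * dot y y' := by simp [dot]; ring
lemma dot_self : dot y y = ‖y‖ ^ 2 := by rw [Complex.sq_norm, Complex.normSq_apply, dot]
lemma dot_sq_add_wedge_sq : dot y y' ^ 2 + wedge y y' ^ 2 = ‖y‖ ^ 2 * ‖y'‖ ^ 2 := by
  rw [← dot_self, ← dot_self]; simp only [dot, wedge]; ring
lemma abs_wedge_le : |wedge y y'| ≤ ‖y‖ * ‖y'‖ :=
  abs_le_of_sq_le_sq' (by nlinarith [dot_sq_add_wedge_sq y y', sq_nonneg (dot y y')])
    (by positivity) |> abs_le.2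
lemma abs_dot_le : |dot y y'| ≤ ‖y‖ * ‖y'‖ :=
  abs_le_of_sq_le_sq' (by nlinarith [dot_sq_add_wedge_sq y y', sq_nonneg (wedge y y')])
    (by positivity) |> abs_le.2
lemma continuous_wedge : Continuous fun p : ℂ × ℂ => wedge p.1 p.2 := by unfold wedge; fun_prop
lemma continuous_dot : Continuous fun p : ℂ × ℂ => dot p.1 p.2 := by unfold dot; fun_prop

/-- coordinates with respect to a non-zero vector and its rotation -/
lemma norm_sq_smul_eq : (‖y'‖ ^ 2) • y = dot y y' • y' - wedge y y' • (Complex.I * y') := by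
  rw [← dot_self]
  apply Complex.ext <;> simp [dot, wedge] <;> ring

lemma exists_smul_of_wedge {y y' : ℂ} (h : wedge y y' = 0) (h' : y' ≠ 0) : ∃ a : ℝ, y = a • y' := by
  have h1 := norm_sq_smul_eq y y'
  have h2 : ‖y'‖ ^ 2 ≠ 0 := by simpa using h'
  rw [h, zero_smul, sub_zero] at h1
  exact ⟨(‖y'‖ ^ 2)⁻¹ * dot y y', by rw [mul_smul, ← h1, smul_smul, inv_mul_cancel₀ h2, one_smul]⟩

/-- coordinates with respect to two independent vectors -/
lemma wedge_smul_eq : wedge y' y'' • y = wedge y y'' • y' + wedge y' y • y'' := by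
  apply Complex.ext <;> simp [wedge] <;> ring

end Plane

/-- proportion of the points `j / 4 ^ k`, `j < 4 ^ k`, with property `P` -/
noncomputable def dens (k : ℕ) (P : ℝ → Prop) : ℝ :=
  open Classical in
  (((Finset.range (4 ^ k)).filter fun j : ℕ => P ((j : ℝ) / 4 ^ k)).card : ℝ) / 4 ^ k

/-- truncation to the grid of level `k` -/
noncomputable def tr (k : ℕ) (σ : ℝ) : ℝ := (⌊4 ^ k * σ⌋ : ℝ) / 4 ^ k

/-- An abstract translation structure: `Ok x v` says that the straight segment from `x` with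
holonomy `v` meets no point of `Sg`, and `mv x v` is its end point. -/
structure TS (X : Type) [TopologicalSpace X] [MeasurableSpace X] (μ : Measure X) where
  Sg : Finset X
  k : ℕ
  Ok : X → ℂ → Prop
  mv : X → ℂ → X
  ne : Sg.Nonempty
  conn : IsPreconnected ((Sg : Set X)ᶜ)
  dense : Dense ((Sg : Set X)ᶜ)
  null : μ (Sg : Set X) = 0
  mv_zero : ∀ x, mv x 0 = x
  junk : ∀ x v, ¬ Ok x v → mv x v = x
  reg : ∀ x v, Ok x v → x ∉ Sg ∧ mv x v ∉ Sg
  split : ∀ x v (s t : ℝ), 0 ≤ s → 0 ≤ t →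
    (Ok x ((s + t) • v) ↔ Ok x (s • v) ∧ Ok (mv x (s • v)) (t • v))
  add : ∀ x v (s t : ℝ), 0 ≤ s → 0 ≤ t → Ok x ((s + t) • v) →
    mv x ((s + t) • v) = mv (mv x (s • v)) (t • v)
  symm : ∀ x v, Ok x v → Ok (mv x v) (-v) ∧ mv (mv x v) (-v) = x
  loc : ∀ x ∉ Sg, ∃ U ∈ 𝓝 (0 : ℂ), (∀ y ∈ U, Ok x y) ∧
    (∀ y ∈ U, ∀ y' ∈ U, Ok (mv x y) (y' - y) ∧ mv (mv x y) (y' - y) = mv x y') ∧
    InjOn (mv x) U ∧ ContinuousOn (mv x) U ∧ (∀ V ⊆ U, IsOpen V → IsOpen (mv x '' V)) ∧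
    ∀ A ⊆ U, MeasurableSet A → μ (mv x '' A) = volume A
  cone : ∀ σ ∈ Sg, ∃ U : Set X, IsOpen U ∧ σ ∈ U ∧ ∃ z : X → ℂ, ContinuousOn z U ∧ z σ = 0 ∧
    (∀ q ∈ U, q ≠ σ → q ∉ Sg ∧ z q ≠ 0 ∧ ∀ᶠ y in 𝓝 (0 : ℂ), z (mv q y) = z q + y) ∧
    (∀ w, (U ∩ z ⁻¹' {w}).encard ≤ k) ∧
    ∀ V ∈ 𝓝 σ, ∃ V' ∈ 𝓝 σ, V' ⊆ V ∧ IsPreconnected (V' \ {σ})

variable {X : Type} [TopologicalSpace X] [MeasurableSpace X] {μ : Measure X}

/-- the image of a translation structure under an area-preserving linear map -/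
noncomputable def TS.map (S : TS X μ) (g : ℂ ≃L[ℝ] ℂ) (hg : Sl (g : ℂ →L[ℝ] ℂ)) : TS X μ where
  Sg := S.Sg
  k := S.k
  Ok x v := S.Ok x (g.symm v)
  mv x v := S.mv x (g.symm v)
  ne := S.ne
  conn := S.conn
  dense := S.dense
  null := S.null
  mv_zero x := by simp [S.mv_zero]
  junk x v := S.junk x _
  reg x v := S.reg x _
  split x v s t hs ht := by simpa only [map_smul] using S.split x (g.symm v) s t hs ht
  add x v s t hs ht := by simpa only [map_smul] using S.add x (g.symm v) s t hs ht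
  symm x v h := by simpa only [map_neg] using S.symm x (g.symm v) h
  loc x hx := by
    obtain ⟨U, hU, h1, h2, h3, h4, h5, h6⟩ := S.loc x hx
    have e : ∀ V : Set ℂ, (fun v => S.mv x (g.symm v)) '' V = S.mv x '' (g.symm '' V) :=
      fun V => (image_image _ _ _).symm
    refine ⟨g.symm ⁻¹' U, g.symm.continuous.continuousAt.preimage_mem_nhds (by simpa using hU),
      fun y hy => h1 _ hy, fun y hy y' hy' => by simpa only [map_sub] using h2 _ hy _ hy',
      fun y hy y' hy' h => g.symm.injective (h3 hy hy' h),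
      h4.comp g.symm.continuous.continuousOn fun y hy => hy, fun V hV hV' => ?_,
      fun A hA hA' => ?_⟩
    · rw [e]
      exact h5 _ (image_subset_iff.2 hV) (g.symm.toHomeomorph.isOpenMap _ hV')
    · rw [e, h6 _ (image_subset_iff.2 hA)
        (g.symm.toHomeomorph.measurableEmbedding.measurableSet_image.2 hA')]
      exact hg.symm.volume_image A
  cone σ hσ := by
    obtain ⟨U, h1, h2, z, h3, h4, h5, h6, h7⟩ := S.cone σ hσ
    refine ⟨U, h1, h2, fun q => g (z q), g.continuous.comp_continuousOn h3, by simp [h4],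
      fun q hq hq' => ⟨(h5 q hq hq').1, by simpa using (h5 q hq hq').2.1, ?_⟩, fun w => ?_, h7⟩
    · have : Tendsto g.symm (𝓝 0) (𝓝 0) := g.symm.continuous.tendsto' 0 0 (map_zero _)
      filter_upwards [this.eventually (h5 q hq hq').2.2] with y hy
      simp [hy]
    · refine le_of_eq_of_le ?_ (h6 (g.symm w))
      congr 2
      ext q
      simp [ContinuousLinearEquiv.eq_symm_apply]

namespace TS

variable (S : TS X μ)

/-- the segment from `x` with holonomy `w` is regular up to its end, which is singular -/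
def Hit (x : X) (w : ℂ) : Prop := ¬ S.Ok x w ∧ ∀ t : ℝ, 0 ≤ t → t < 1 → S.Ok x (t • w)

/-- a hit ending at the singular point `σ` -/
def HitAt (x : X) (w : ℂ) (σ : X) : Prop :=
  S.Hit x w ∧ Tendsto (fun t : ℝ => S.mv x (t • w)) (𝓝[<] 1) (𝓝 σ)

/-- a saddle connection with midpoint `x` and holonomy `2 h` -/
def IsSC (x : X) (h : ℂ) : Prop := S.Hit x h ∧ S.Hit x (-h)

/-- the open segment with midpoint `x` and half-holonomy `h` -/
def seg (x : X) (h : ℂ) : Set X := {q | ∃ s : ℝ, |s| < 1 ∧ q = S.mv x (s • h)}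

/-- all saddle connections have length at least `δ` -/
def Thick (δ : ℝ) : Prop := ∀ x h, S.IsSC x h → δ ≤ 2 * ‖h‖

/-- points at distance at least `ρ` from the singular set -/
def XR (ρ : ℝ) : Set X := {x | ∀ w : ℂ, ‖w‖ < ρ → S.Ok x w}

/-- the annulus around the singular point `σ` -/
def Ann (σ : X) (r₁ r₂ : ℝ) : Set X := {x | ∃ w, S.HitAt x w σ ∧ r₁ ≤ ‖w‖ ∧ ‖w‖ ≤ r₂}

/-- `T` is connected by steps shorter than `s` -/
def StepConn (T : Set X) (s : ℝ) : Prop := ∀ P ⊆ T,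
  (∀ x ∈ P, ∀ d : ℂ, ‖d‖ < s → S.Ok x d → S.mv x d ∈ T → S.mv x d ∈ P) → P.Nonempty → P = T

/-- a finite family of pairwise disjoint saddle connections -/
def Fam (Γ : Finset (X × ℂ)) : Prop := (∀ c ∈ Γ, S.IsSC c.1 c.2) ∧
  ∀ c ∈ Γ, ∀ c' ∈ Γ, c ≠ c' → Disjoint (S.seg c.1 c.2) (S.seg c'.1 c'.2)

/-- the union of the segments of `Γ` -/
def supp (Γ : Finset (X × ℂ)) : Set X := ⋃ c ∈ Γ, S.seg c.1 c.2

/-- the left side of the saddle connection `(x₀, h)` is filled by a triangle with sides in `Γ` -/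
def Filled (Γ : Finset (X × ℂ)) (L : ℝ) (x₀ : X) (h : ℂ) : Prop :=
  ∃ (s : ℝ) (C : ℂ), |s| < 1 ∧ 0 < wedge h C ∧ ‖C‖ ≤ 2 * L ∧ S.Hit (S.mv x₀ (s • h)) C ∧
    (∀ y ∈ convexHull ℝ {(-1 - s) • h, (1 - s) • h, C}, y ≠ (-1 - s) • h → y ≠ (1 - s) • h →
      y ≠ C → S.Ok (S.mv x₀ (s • h)) y) ∧
    ∀ t : ℝ, 0 < t → t < 1 →
      S.mv (S.mv x₀ (s • h)) ((-1 - s) • h + t • (C - (-1 - s) • h)) ∈ S.supp Γ ∧
      S.mv (S.mv x₀ (s • h)) ((1 - s) • h + t • (C - (1 - s) • h)) ∈ S.supp Γ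

/-- a saddle connection of length `≤ L` crossed by no saddle connection of length `≤ √L` -/
def Isol (L : ℝ) : Prop := ∃ x h, S.IsSC x h ∧ 2 * ‖h‖ ≤ L ∧ ∀ x' h', S.IsSC x' h' →
  2 * ‖h'‖ ≤ √L → wedge h h' ≠ 0 → Disjoint (S.seg x h) (S.seg x' h')

/-- an embedded cylinder through `x` with primitive period `v` -/
def IsCyl (x : X) (v : ℂ) (c : ℝ) : Prop := v ≠ 0 ∧ 0 < c ∧
  (∀ y, |wedge y v| < 3 * c → S.Ok x y) ∧ ∀ y y', |wedge y v| < 3 * c → |wedge y' v| < 3 * c →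
    (S.mv x y = S.mv x y' ↔ ∃ n : ℤ, y' - y = (n : ℝ) • v)

/-- the middle part of a cylinder -/
def cyl (x : X) (v : ℂ) (c : ℝ) : Set X := S.mv x '' {y | |wedge y v| < c}

/-- uniform equidistribution of long segments in direction `e` -/
def UE (e : ℂ) : Prop := ∀ (f : C(X, ℝ)) (η : ℝ), 0 < η → ∃ L₀ : ℝ, ∀ L, L₀ ≤ L → ∀ x,
  S.Ok x (L • e) → |(∫ t in (0 : ℝ)..L, f (S.mv x (t • e))) - L * ∫ q, f q ∂μ| ≤ η * L

/-- `γ` is an infinite trajectory with velocity `e` at positive times -/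
def IsRay (e : ℂ) (γ : ℝ → X) : Prop := ∀ t : ℝ, 0 < t → ∀ s : ℝ, 0 ≤ s →
  S.Ok (γ t) (s • e) ∧ S.mv (γ t) (s • e) = γ (t + s)

/-- a real closed cocycle: the increments of a local primitive -/
structure Cocycle (δ : X → ℂ → ℝ) : Prop where
  cont : ContinuousOn (Function.uncurry δ) {p | S.Ok p.1 p.2}
  junk : ∀ x v, ¬ S.Ok x v → δ x v = 0
  small : ∀ η > 0, ∃ r > 0, ∀ x v, ‖v‖ < r → |δ x v| ≤ η
  coc : ∀ x y y', (∀ p ∈ convexHull ℝ {0, y, y'}, S.Ok x p) →
    δ x y' = δ x y + δ (S.mv x y) (y' - y)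

/-- `δ` is the increment function of the circle-valued map `Φ` -/
structure IsInc (Φ : C(X, UnitAddCircle)) (δ : X → ℂ → ℝ) : Prop where
  cont : ContinuousOn (Function.uncurry δ) {p | S.Ok p.1 p.2}
  junk : ∀ x v, ¬ S.Ok x v → δ x v = 0
  zero : ∀ x, δ x 0 = 0
  lift : ∀ x v, S.Ok x v → ((δ x v : ℝ) : UnitAddCircle) = Φ (S.mv x v) - Φ x

end TS

/-- the rotated gradient of the increment function `δ` in the `L²` sense is `u` -/
def HasGrad (μ : Measure X) (δ : X → ℂ → ℝ) (u : X → ℂ) : Prop := ∀ w : ℂ,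
  Tendsto (fun h : ℝ => eLpNorm (fun x => δ x (h • w) / h - wedge w (u x)) 2 μ) (𝓝[≠] 0) (𝓝 0)

/-- closed fields -/
def TS.Zset (S : TS X μ) : Set (Lp ℂ 2 μ) := {u | ∃ δ, S.Cocycle δ ∧ HasGrad μ δ u}

/-- integral fields -/
def TS.Iset (S : TS X μ) : Set (Lp ℂ 2 μ) := {u | ∃ Φ δ, S.IsInc Φ δ ∧ HasGrad μ δ u}

/-- exact fields -/
def TS.Eset (S : TS X μ) : Set (Lp ℂ 2 μ) :=
  {u | ∃ f : C(X, ℝ), HasGrad μ (fun x v => f (S.mv x v) - f x) u}

/-- exact fields as a subspace -/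
noncomputable def TS.E (S : TS X μ) : Submodule ℝ (Lp ℂ 2 μ) := Submodule.span ℝ S.Eset

/-- multiplication by `I` -/
noncomputable def rotJ : ℂ →L[ℝ] ℂ := ContinuousLinearMap.mul ℝ ℂ Complex.I

@[simp] lemma rotJ_apply (y : ℂ) : rotJ y = Complex.I * y := rfl

section Hodge

variable {H : Type} [NormedAddCommGroup H] [InnerProductSpace ℝ H]

/-- an action of the real `2 × 2` matrices on a real inner product space -/
structure Act (H : Type) [NormedAddCommGroup H] [InnerProductSpace ℝ H] where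
  ac : (ℂ →L[ℝ] ℂ) → H →L[ℝ] H
  ac_id : ∀ u, ac (ContinuousLinearMap.id ℝ ℂ) u = u
  ac_comp : ∀ g g' u, ac (g.comp g') u = ac g (ac g' u)
  ac_add : ∀ g g' u, ac (g + g') u = ac g u + ac g' u
  ac_smul : ∀ (r : ℝ) g u, ac (r • g) u = r • ac g u
  ac_adj : ∀ g g' : ℂ →L[ℝ] ℂ, (∀ y y', dot (g y) y' = dot y (g' y')) →
    ∀ u v, inner ℝ (ac g u) v = inner ℝ u (ac g' v)
  ac_le : ∀ (g g' : ℂ →L[ℝ] ℂ) (l : ℝ), 0 ≤ l → (∀ y, ‖g' y‖ ≤ l * ‖g y‖) →
    ∀ u, ‖ac g' u‖ ≤ l * ‖ac g u‖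

/-- the symplectic pairing -/
noncomputable def Act.Om (a : Act H) (u v : H) : ℝ := inner ℝ (a.ac rotJ u) v

/-- orthogonal projection onto the orthogonal complement of `K` -/
noncomputable def perp [CompleteSpace H] (K : Submodule ℝ H) : H →L[ℝ] H :=
  (Submodule.orthogonal K).starProjection

/-- the harmonic representative of `g v` modulo `g E` -/
noncomputable def Act.hA [CompleteSpace H] (a : Act H) (E : Submodule ℝ H) (g : ℂ →L[ℝ] ℂ) :
    H →L[ℝ] H :=
  (perp (E.map (a.ac g : H →ₗ[ℝ] H))).comp (a.ac g)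

end Hodge

omit [TopologicalSpace X] in
lemma compLpL_ae (g : ℂ →L[ℝ] ℂ) (u : Lp ℂ 2 μ) : g.compLpL 2 μ u =ᵐ[μ] fun x => g (u x) :=
  ContinuousLinearMap.coeFn_compLpL g u

lemma inner_eq_dot (y y' : ℂ) : inner ℝ y y' = dot y y' := by
  simp [Complex.inner, dot]
  ring

omit [TopologicalSpace X] in
/-- the pointwise action on square-integrable fields -/
noncomputable def lpAct (μ : Measure X) : Act (Lp ℂ 2 μ) where
  ac g := g.compLpL 2 μ
  ac_id u := Lp.ext (compLpL_ae _ u)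
  ac_comp g g' u := Lp.ext (by
    filter_upwards [compLpL_ae (g.comp g') u, compLpL_ae g (g'.compLpL 2 μ u), compLpL_ae g' u]
      with x h1 h2 h3
    rw [h1, h2, h3]; rfl)
  ac_add g g' u := by rw [ContinuousLinearMap.add_compLpL]; rfl
  ac_smul r g u := by rw [ContinuousLinearMap.smul_compLpL]; rfl
  ac_adj g g' h u v := by
    rw [L2.inner_def, L2.inner_def]
    refine integral_congr_ae ?_
    filter_upwards [compLpL_ae g u, compLpL_ae g' v] with x h1 h2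
    rw [h1, h2, inner_eq_dot, inner_eq_dot, h]
  ac_le g g' l hl h u := by
    have := Lp.norm_le_mul_norm_of_ae_le_mul (f := g'.compLpL 2 μ u) (g := g.compLpL 2 μ u) (c := l)
      (by
        filter_upwards [compLpL_ae g u, compLpL_ae g' u] with x h1 h2
        rw [h1, h2]; exact h _)
    exact this

omit [TopologicalSpace X] in
lemma lpAct_ae (g : ℂ →L[ℝ] ℂ) (u : Lp ℂ 2 μ) : (lpAct μ).ac g u =ᵐ[μ] fun x => g (u x) :=
  compLpL_ae g u

omit [TopologicalSpace X] in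
lemma lpAct_Om (u v : Lp ℂ 2 μ) : (lpAct μ).Om u v = ∫ x, wedge (u x) (v x) ∂μ := by
  rw [Act.Om, L2.inner_def]
  refine integral_congr_ae ?_
  filter_upwards [lpAct_ae rotJ u] with x h1
  rw [h1, inner_eq_dot]
  simp [dot, wedge]
  ring

/-- `y ↦ cosh t y + sinh t ζ conj y` -/
noncomputable def hyp (t : ℝ) (ζ : ℂ) : ℂ →L[ℝ] ℂ :=
  Real.cosh t • ContinuousLinearMap.id ℝ ℂ +
    Real.sinh t • (ContinuousLinearMap.mul ℝ ℂ ζ).comp (Complex.conjCLE : ℂ →L[ℝ] ℂ)

lemma hyp_apply (t : ℝ) (ζ y : ℂ) :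
    hyp t ζ y = Real.cosh t • y + Real.sinh t • (ζ * (starRingEnd ℂ) y) := rfl

end Pool.Agent.MP_d0b2d2_an.Gen
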