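import Pool.Agent.MP_d0b2d2_an.Gen.Area
import Pool.Agent.MP_d0b2d2_an.Gen.Defs

open MeasureTheory Set Filter Topology Metric

namespace Pool.Agent.MP_d0b2d2_an.Gen.TransSurf

section Geo

variable {X : Type} [TopologicalSpace X] (S : TransSurf X) (F : Set X)

/-- `c` is, on the parameter set `I`, a straight path with velocity `v` avoiding `F` -/
def BridgeGeo (I : Set ℝ) (v : ℂ) (c : ℝ → X) : Prop :=
  ∀ t ∈ I, c t ∉ F ∧ ∀ᶠ s in 𝓝[I] t,
    c s ∈ (S.chart (c t)).source ∧ S.chart (c t) (c s) = (s - t) • v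

/-- the segment from `x` with holonomy `v` exists and avoids `F` -/
def BridgeOk (x : X) (v : ℂ) : Prop := ∃ c : ℝ → X, c 0 = x ∧ S.BridgeGeo F (Icc 0 1) v c

/-- the end point of the segment from `x` with holonomy `v` -/
noncomputable def bridgeMv (x : X) (v : ℂ) : X :=
  open Classical in
  if h : S.BridgeOk F x v then h.choose 1 else x

variable {S F} {I J : Set ℝ} {v : ℂ} {c c' : ℝ → X} {x : X}

theorem BridgeGeo.continuousOn (h : S.BridgeGeo F I v c) : ContinuousOn c I := by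
  intro t ht
  have h1 : Tendsto (fun s : ℝ => (s - t) • v) (𝓝[I] t) (𝓝 0) :=
    (Continuous.tendsto' (by fun_prop) t 0 (by simp)).mono_left nhdsWithin_le_nhds
  refine ((S.area_tendsto_symm (c t)).comp h1).congr' ?_
  filter_upwards [(h t ht).2] with s hs
  rw [Function.comp_apply, ← hs.2, (S.chart (c t)).left_inv hs.1]

theorem BridgeGeo.unique [T2Space X] (hI : IsPreconnected I) (h : S.BridgeGeo F I v c)
    (h' : S.BridgeGeo F I v c') {t₀ t : ℝ} (h0 : t₀ ∈ I) (ht : t ∈ I) (e : c t₀ = c' t₀) :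
    c t = c' t := by
  refine (hI.induction₂ (fun s t => c s = c' s ↔ c t = c' t) (fun s hs => ?_)
    (fun _ _ _ _ _ _ h1 h2 => h1.trans h2) (fun _ _ _ _ h1 => h1.symm) h0 ht).1 e
  by_cases hc : c s = c' s
  · filter_upwards [(h s hs).2, (h' s hs).2] with u h1 h2
    rw [← hc] at h2
    exact iff_of_true hc ((S.chart (c s)).injOn h1.1 h2.1 (h1.2.trans h2.2.symm))
  · have := ((h.continuousOn s hs).prodMk (h'.continuousOn s hs)).eventually
      (isClosed_diagonal.isOpen_compl.eventually_mem (show (c s, c' s) ∈ (diagonal X)ᶜ from hc))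
    filter_upwards [this] with u hu
    exact iff_of_false hc hu

theorem BridgeGeo.comp (h : S.BridgeGeo F I v c) (a b : ℝ)
    (hm : MapsTo (fun t => a * t + b) J I) : S.BridgeGeo F J (a • v) fun t => c (a * t + b) := by
  intro t ht
  refine ⟨(h _ (hm ht)).1, ?_⟩
  have h1 : Tendsto (fun t => a * t + b) (𝓝[J] t) (𝓝[I] (a * t + b)) :=
    (Continuous.continuousWithinAt (by fun_prop)).tendsto_nhdsWithin hm
  filter_upwards [h1.eventually (h _ (hm ht)).2] with s hs
  refine ⟨hs.1, hs.2.trans ?_⟩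
  rw [smul_smul]
  congr 1
  ring

theorem BridgeGeo.congr (h : S.BridgeGeo F I v c) (e : EqOn c c' I) : S.BridgeGeo F I v c' := by
  intro t ht
  rw [← e ht]
  refine ⟨(h t ht).1, ?_⟩
  filter_upwards [(h t ht).2, self_mem_nhdsWithin] with s hs hs'
  rwa [← e hs']

theorem BridgeGeo.union (hI : IsClosed I) (hJ : IsClosed J) (h : S.BridgeGeo F I v c)
    (h' : S.BridgeGeo F J v c) : S.BridgeGeo F (I ∪ J) v c := by
  intro t ht
  refine ⟨ht.elim (fun h1 => (h t h1).1) fun h1 => (h' t h1).1, ?_⟩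
  have key : ∀ K : Set ℝ, IsClosed K → S.BridgeGeo F K v c → ∀ᶠ s in 𝓝[K] t,
      c s ∈ (S.chart (c t)).source ∧ S.chart (c t) (c s) = (s - t) • v := by
    intro K hK hG
    by_cases h1 : t ∈ K
    · exact (hG t h1).2
    · filter_upwards [nhdsWithin_le_nhds (hK.isOpen_compl.mem_nhds h1), self_mem_nhdsWithin]
        with s h2 h3
      exact absurd h3 h2
  rw [nhdsWithin_union, eventually_sup]
  exact ⟨key I hI h, key J hJ h'⟩

theorem bridge_mv_eq [T2Space X] (h0 : c 0 = x) (h : S.BridgeGeo F (Icc 0 1) v c) :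
    S.bridgeMv F x v = c 1 := by
  have hok : S.BridgeOk F x v := ⟨c, h0, h⟩
  rw [bridgeMv, dif_pos hok]
  exact hok.choose_spec.2.unique isPreconnected_Icc h (left_mem_Icc.2 zero_le_one)
    (right_mem_Icc.2 zero_le_one) (hok.choose_spec.1.trans h0.symm)

theorem BridgeGeo.ok [T2Space X] {a s : ℝ} (hs : 0 ≤ s) (h : S.BridgeGeo F I v c)
    (hI : Icc a (a + s) ⊆ I) :
    S.BridgeOk F (c a) (s • v) ∧ S.bridgeMv F (c a) (s • v) = c (a + s) := by
  have h1 := h.comp (J := Icc 0 1) s a fun t ht => hI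
    ⟨by nlinarith [ht.1], by nlinarith [ht.2]⟩
  refine ⟨⟨_, by simp, h1⟩, (bridge_mv_eq (by simp) h1).trans ?_⟩
  simp [add_comm]

theorem BridgeOk.exists_geo {s : ℝ} (hs : 0 ≤ s) (h : S.BridgeOk F x (s • v)) :
    ∃ c : ℝ → X, c 0 = x ∧ S.BridgeGeo F (Icc 0 s) v c := by
  obtain ⟨c, h0, h⟩ := h
  rcases hs.eq_or_lt with rfl | hs'
  · refine ⟨c, h0, fun t ht => ?_⟩
    obtain rfl : t = 0 := le_antisymm ht.2 ht.1
    refine ⟨(h 0 (left_mem_Icc.2 zero_le_one)).1, ?_⟩
    filter_upwards [self_mem_nhdsWithin] with u hu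
    obtain rfl : u = 0 := le_antisymm hu.2 hu.1
    exact ⟨S.mem_source _, by simp [S.center]⟩
  · have h1 := h.comp (J := Icc 0 s) s⁻¹ 0 fun t ht =>
      ⟨by simpa using mul_nonneg (inv_nonneg.2 hs) ht.1, by
        simpa using (inv_mul_le_iff₀ hs').2 (by simpa using ht.2)⟩
    rw [smul_smul, inv_mul_cancel₀ hs'.ne', one_smul] at h1
    exact ⟨_, by simpa using h0, h1⟩

theorem bridge_split [T2Space X] {s t : ℝ} (hs : 0 ≤ s) (ht : 0 ≤ t)
    (h : S.BridgeOk F x ((s + t) • v)) :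
    S.BridgeOk F x (s • v) ∧ S.BridgeOk F (S.bridgeMv F x (s • v)) (t • v) ∧
      S.bridgeMv F x ((s + t) • v) = S.bridgeMv F (S.bridgeMv F x (s • v)) (t • v) := by
  obtain ⟨c, rfl, hc⟩ := h.exists_geo (add_nonneg hs ht)
  have h1 := hc.ok (a := 0) hs (Icc_subset_Icc le_rfl (by linarith))
  have h2 := hc.ok (a := s) ht (Icc_subset_Icc hs le_rfl)
  have h3 := hc.ok (a := 0) (add_nonneg hs ht) (Icc_subset_Icc le_rfl (by linarith))
  rw [h1.2, h3.2, zero_add, zero_add, h2.2]
  exact ⟨h1.1, h2.1, rfl⟩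

theorem bridge_concat [T2Space X] {s t : ℝ} (hs : 0 ≤ s) (ht : 0 ≤ t)
    (h : S.BridgeOk F x (s • v)) (h' : S.BridgeOk F (S.bridgeMv F x (s • v)) (t • v)) :
    S.BridgeOk F x ((s + t) • v) := by
  obtain ⟨c, rfl, hc⟩ := h.exists_geo hs
  obtain ⟨c', h0, hc'⟩ := h'.exists_geo ht
  rw [(hc.ok (a := 0) hs (by simp)).2, zero_add] at h0
  have h1 : S.BridgeGeo F (Icc 0 s) v fun u => if u ≤ s then c u else c' (1 * u + -s) :=
    hc.congr fun u hu => (if_pos hu.2).symm
  have h2 : S.BridgeGeo F (Icc s (s + t)) v fun u => if u ≤ s then c u else c' (1 * u + -s) := by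
    have := hc'.comp (J := Icc s (s + t)) 1 (-s) fun u hu =>
      ⟨by linarith [hu.1], by linarith [hu.2]⟩
    rw [one_smul] at this
    refine this.congr fun u hu => ?_
    by_cases h : u ≤ s
    · obtain rfl : u = s := le_antisymm h hu.1
      simpa using h0
    · exact (if_neg h).symm
  have h3 := h1.union isClosed_Icc isClosed_Icc h2
  rw [Icc_union_Icc_eq_Icc hs (by linarith)] at h3
  simpa [hs] using (h3.ok (a := 0) (add_nonneg hs ht) (by simp)).1

theorem bridge_symm [T2Space X] (h : S.BridgeOk F x v) :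
    S.BridgeOk F (S.bridgeMv F x v) (-v) ∧ S.bridgeMv F (S.bridgeMv F x v) (-v) = x := by
  obtain ⟨c, rfl, hc⟩ := h
  have h1 := hc.comp (J := Icc 0 1) (-1) 1 fun t ht => ⟨by linarith [ht.2], by linarith [ht.1]⟩
  rw [neg_smul, one_smul] at h1
  rw [bridge_mv_eq rfl hc]
  exact ⟨⟨_, by simp, h1⟩, (bridge_mv_eq (by simp) h1).trans (by simp)⟩

theorem bridge_loc [T2Space X] (hF : ∀ q ∉ F, S.ord q = 1) (hx : x ∉ F) {U : Set ℂ}
    (hU : Convex ℝ U) (h1 : U ⊆ (S.chart x).target) (h2 : ∀ y ∈ U, (S.chart x).symm y ∉ F)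
    {y y' : ℂ} (hy : y ∈ U) (hy' : y' ∈ U) :
    S.BridgeOk F ((S.chart x).symm y) (y' - y) ∧
      S.bridgeMv F ((S.chart x).symm y) (y' - y) = (S.chart x).symm y' := by
  have hm : ∀ t ∈ Icc (0 : ℝ) 1, y + t • (y' - y) ∈ U := fun t ht =>
    hU.add_smul_sub_mem hy hy' ht
  have hG : S.BridgeGeo F (Icc 0 1) (y' - y) fun t => (S.chart x).symm (y + t • (y' - y)) := by
    intro t ht
    refine ⟨h2 _ (hm t ht), ?_⟩
    have hq := (S.chart x).map_target (h1 (hm t ht))
    have hc : Tendsto (fun t : ℝ => (S.chart x).symm (y + t • (y' - y))) (𝓝[Icc 0 1] t)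
        (𝓝 ((S.chart x).symm (y + t • (y' - y)))) :=
      (((S.chart x).continuousAt_symm (h1 (hm t ht))).tendsto.comp
        (Continuous.tendsto (f := fun t : ℝ => y + t • (y' - y)) (by fun_prop) t)).mono_left
        nhdsWithin_le_nhds
    filter_upwards [hc.eventually (S.compat x _ _ ⟨hq, S.mem_source _⟩),
      hc.eventually ((S.chart _).open_source.eventually_mem (S.mem_source _)),
      self_mem_nhdsWithin] with s e1 e2 e3
    refine ⟨e2, ?_⟩
    rw [hF x hx, hF _ (h2 _ (hm t ht)), S.center, (S.chart x).right_inv (h1 (hm s e3)),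
      (S.chart x).right_inv (h1 (hm t ht))] at e1
    simp only [pow_one, sub_zero] at e1
    rw [sub_smul]
    linear_combination -e1
  exact ⟨⟨_, by simp, hG⟩, (bridge_mv_eq (by simp) hG).trans (by simp)⟩

theorem bridge_ball [T2Space X] (hc : IsClosed F) (hF : ∀ q ∉ F, S.ord q = 1) (hx : x ∉ F) :
    ∃ r > 0, ball 0 r ⊆ (S.chart x).target ∧
      (∀ y ∈ ball (0 : ℂ) r, S.BridgeOk F x y ∧ S.bridgeMv F x y = (S.chart x).symm y) ∧
      ∀ y ∈ ball (0 : ℂ) r, ∀ y' ∈ ball (0 : ℂ) r,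
        S.BridgeOk F ((S.chart x).symm y) (y' - y) ∧
          S.bridgeMv F ((S.chart x).symm y) (y' - y) = (S.chart x).symm y' := by
  have h1 : (S.chart x).target ∩ (S.chart x).symm ⁻¹' Fᶜ ∈ 𝓝 (0 : ℂ) :=
    inter_mem ((S.chart x).open_target.mem_nhds (S.area_zero_mem x))
      (S.area_tendsto_symm x (hc.isOpen_compl.mem_nhds hx))
  obtain ⟨r, hr, hb⟩ := Metric.mem_nhds_iff.1 h1
  have key := fun y hy y' hy' => bridge_loc (y := y) (y' := y') hF hx (convex_ball 0 r)
    (fun z hz => (hb hz).1) (fun z hz => (hb hz).2) hy hy'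
  refine ⟨r, hr, fun z hz => (hb hz).1, fun y hy => ?_, key⟩
  simpa only [S.area_symm_zero, sub_zero] using key 0 (mem_ball_self hr) y hy

theorem bridge_eventually [T2Space X] (hc : IsClosed F) (hF : ∀ q ∉ F, S.ord q = 1)
    (hx : x ∉ F) : ∀ᶠ y in 𝓝 (0 : ℂ), y ∈ (S.chart x).target ∧
      S.bridgeMv F x y = (S.chart x).symm y := by
  obtain ⟨r, hr, h1, h2, -⟩ := bridge_ball hc hF hx
  filter_upwards [ball_mem_nhds 0 hr] with y hy
  exact ⟨h1 hy, (h2 y hy).2⟩

theorem bridge_encard (σ : X) (w : ℂ) :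
    ((S.chart σ).source ∩ (fun q => S.chart σ q ^ S.ord σ) ⁻¹' {w}).encard ≤ S.ord σ := by
  classical
  have h1 : InjOn (S.chart σ) ((S.chart σ).source ∩ (fun q => S.chart σ q ^ S.ord σ) ⁻¹' {w}) :=
    (S.chart σ).injOn.mono inter_subset_left
  rw [← h1.encard_image]
  refine (encard_le_encard (t := ((Polynomial.nthRoots (S.ord σ) w).toFinset : Set ℂ)) ?_).trans ?_
  · rintro _ ⟨q, ⟨-, hq⟩, rfl⟩
    simpa [Polynomial.mem_nthRoots (S.ord_pos σ)] using hq
  · rw [encard_coe_eq_coe_finsetCard]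
    exact Nat.cast_le.2 ((Multiset.toFinset_card_le _).trans (Polynomial.card_nthRoots _ _))

end Geo

variable {X : Type} [TopologicalSpace X] [T2Space X] [CompactSpace X] [ConnectedSpace X]
  [MeasurableSpace X] [BorelSpace X] (S : TransSurf X)

/-- the abstract translation structure of a translation surface with the marked point `p` -/
theorem exists_TS (p : X) {lam : Measure X} (h : S.IsArea lam) : ∃ T : TS X lam,
    (∀ x, x ∈ T.Sg ↔ (2 ≤ S.ord x ∨ x = p)) ∧
    ∀ x ∉ T.Sg, ∀ᶠ y in 𝓝 (0 : ℂ), T.mv x y ∈ (S.chart x).source ∧ S.chart x (T.mv x y) = y := by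
  obtain ⟨Sg, hSg⟩ : ∃ Sg : Finset X, ∀ x, x ∈ Sg ↔ (2 ≤ S.ord x ∨ x = p) :=
    ⟨(S.finite_sing.union (finite_singleton p)).toFinset, fun x => by simp [or_comm]⟩
  have hF : ∀ q ∉ (Sg : Set X), S.ord q = 1 := fun q hq => by
    have h1 := S.ord_pos q
    have h2 : ¬ 2 ≤ S.ord q := fun h => hq ((hSg q).2 (Or.inl h))
    omega
  have hc : IsClosed (Sg : Set X) := Sg.finite_toSet.isClosed
  refine ⟨{
    Sg := Sg
    k := Sg.sup S.ord
    Ok := S.BridgeOk Sg
    mv := S.bridgeMv Sg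
    ne := ⟨p, (hSg p).2 (Or.inr rfl)⟩
    conn := S.preconnected_compl Sg.finite_toSet
    dense := S.dense_compl Sg.finite_toSet
    null := ?_
    mv_zero := fun x => ?_
    junk := fun x v hv => dif_neg hv
    reg := ?_
    symm := fun x v h => bridge_symm h
    split := fun x v s t hs ht => ⟨fun h => ⟨(bridge_split hs ht h).1, (bridge_split hs ht h).2.1⟩,
      fun h => bridge_concat hs ht h.1 h.2⟩
    add := fun x v s t hs ht h => (bridge_split hs ht h).2.2
    loc := fun x hx => ?_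
    cone := fun σ hσ => ?_ }, hSg, fun x hx => ?_⟩
  · by_cases hp : 2 ≤ S.ord p
    · exact measure_mono_null (fun q hq => ((hSg q).1 hq).elim id fun e => e ▸ hp) h.1
    · have h1 : lam {p} = 0 := by
        have := S.ord_pos p
        rw [h.2 p (by omega) {p} (measurableSet_singleton p)
          (singleton_subset_iff.2 (S.mem_source p)), image_singleton, measure_singleton]
      exact measure_mono_null (fun q hq => (hSg q).1 hq) (measure_union_null h.1 h1)
  · by_cases hx : S.BridgeOk Sg x 0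
    · obtain ⟨c, rfl, hc⟩ := hx
      simpa using (hc.ok (a := 0) (s := 0) le_rfl (by simp)).2
    · exact dif_neg hx
  · rintro x v ⟨c, rfl, hc⟩
    rw [bridge_mv_eq rfl hc]
    exact ⟨(hc 0 (left_mem_Icc.2 zero_le_one)).1, (hc 1 (right_mem_Icc.2 zero_le_one)).1⟩
  · obtain ⟨r, hr, h1, h2, h3⟩ := bridge_ball hc hF hx
    have e : EqOn (S.bridgeMv Sg x) (S.chart x).symm (ball 0 r) := fun y hy => (h2 y hy).2
    refine ⟨ball 0 r, ball_mem_nhds 0 hr, fun y hy => (h2 y hy).1, fun y hy y' hy' => ?_,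
      ((S.chart x).symm.injOn.mono h1).congr e.symm,
      ((S.chart x).continuousOn_symm.mono h1).congr e, fun V hV hVo => ?_, fun A hA hAm => ?_⟩
    · rw [e hy, e hy']
      exact h3 y hy y' hy'
    · rw [(e.mono hV).image_eq]
      exact (S.chart x).isOpen_image_symm_of_subset_target hVo (hV.trans h1)
    · have hA' := hA.trans h1
      rw [(e.mono hA).image_eq, h.2 x (hF x hx) _ (hAm.image_of_continuousOn_injOn
        ((S.chart x).continuousOn_symm.mono hA') ((S.chart x).symm.injOn.mono hA'))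
        (image_subset_iff.2 fun y hy => (S.chart x).map_target (hA' hy)), image_image]
      congr 1
      exact (image_congr fun y hy => (S.chart x).right_inv (hA' hy)).trans (image_id A)
  · refine ⟨(S.chart σ).source ∩ ((Sg : Set X) \ {σ})ᶜ, (S.chart σ).open_source.inter
      (Sg.finite_toSet.sdiff.isClosed.isOpen_compl), ⟨S.mem_source σ, fun h => h.2 rfl⟩,
      fun q => S.chart σ q ^ S.ord σ, ((S.chart σ).continuousOn.mono inter_subset_left).pow _,
      ?_, fun q hq hne => ?_, fun w => ?_, fun V hV => S.punctured_preconnected σ hV⟩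
    · have := S.ord_pos σ
      simp only [S.center]
      exact zero_pow (by omega)
    · have hq' : q ∉ (Sg : Set X) := fun h => hq.2 ⟨h, hne⟩
      refine ⟨hq', pow_ne_zero _ (S.area_chart_ne hq.1 hne), ?_⟩
      filter_upwards [bridge_eventually hc hF hq', (S.area_tendsto_symm q).eventually
        (S.compat σ q q ⟨hq.1, S.mem_source q⟩)] with y e1 e2
      rw [hF q hq', S.center, (S.chart q).right_inv e1.1] at e2
      simp only [pow_one, sub_zero] at e2
      rw [e1.2]
      linear_combination e2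
    · refine (encard_le_encard (inter_subset_inter_left _ inter_subset_left)).trans
        ((bridge_encard σ w).trans (Nat.cast_le.2 (Finset.le_sup (f := S.ord) hσ)))
  · filter_upwards [bridge_eventually hc hF hx] with y hy
    rw [hy.2]
    exact ⟨(S.chart x).map_target hy.1, (S.chart x).right_inv hy.1⟩

end Pool.Agent.MP_d0b2d2_an.Gen.TransSurf
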