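import Pool.Agent.MP_d0b2d2_an.Gen.Fan

open MeasureTheory Set Filter Topology Metric

namespace Pool.Agent.MP_d0b2d2_an.Gen.TS

variable {X : Type} [TopologicalSpace X] [T2Space X] [CompactSpace X] [MeasurableSpace X]
  {μ : Measure X} {S : TS X μ} {Γ : Finset (X × ℂ)} {e : ℂ}

/-- near the end `-h` of the edge short moves in direction `e` miss the family -/
def CardL (S : TS X μ) (Γ : Finset (X × ℂ)) (e : ℂ) (x : X) (h : ℂ) : Prop :=
  ∃ a > 0, ∃ δ > 0, ∀ s : ℝ, -1 < s → s < -1 + δ → ∀ t : ℝ, 0 < t → t ≤ a →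
    S.Ok (S.mv x (s • h)) (t • e) → S.mv (S.mv x (s • h)) (t • e) ∉ S.supp Γ

/-- a ray in direction `e` from the edge hits a singular point before it meets the family -/
def CardB (S : TS X μ) (Γ : Finset (X × ℂ)) (e : ℂ) (x : X) (h : ℂ) : Prop :=
  ∃ s t : ℝ, |s| < 1 ∧ 0 < t ∧ S.Hit (S.mv x (s • h)) (t • e) ∧
    ∀ t' : ℝ, 0 < t' → t' < t → S.mv (S.mv x (s • h)) (t' • e) ∉ S.supp Γ

/-- `t` is the first positive time at which the ray from `q` meets the family -/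
def CardF (S : TS X μ) (Γ : Finset (X × ℂ)) (e : ℂ) (q : X) (t : ℝ) : Prop :=
  0 < t ∧ S.Ok q (t • e) ∧ S.mv q (t • e) ∈ S.supp Γ ∧
    ∀ t' : ℝ, 0 < t' → t' < t → S.mv q (t' • e) ∉ S.supp Γ

omit [T2Space X] [CompactSpace X] in
theorem card_mem_supp {q : X} : q ∈ S.supp Γ ↔ ∃ c ∈ Γ, q ∈ S.seg c.1 c.2 := by
  simp only [supp, mem_iUnion, exists_prop]

omit [T2Space X] [CompactSpace X] in
theorem card_eq_of_mem (hΓ : S.Fam Γ) {c c' : X × ℂ} (hc : c ∈ Γ) (hc' : c' ∈ Γ) {q : X}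
    (h : q ∈ S.seg c.1 c.2) (h' : q ∈ S.seg c'.1 c'.2) : c = c' := by
  by_contra hne
  exact Set.disjoint_left.1 (hΓ.2 c hc c' hc' hne) h h'

omit [T2Space X] [CompactSpace X] in
theorem card_ok_le {q : X} {t t' : ℝ} (h : S.Ok q (t • e)) (h0 : 0 ≤ t') (h1 : t' ≤ t) :
    S.Ok q (t' • e) := by
  rcases h0.eq_or_lt with rfl | h0
  · simpa using ok_smul h le_rfl zero_le_one
  · have ht : 0 < t := h0.trans_le h1
    have := ok_smul h (t := t' / t) (by positivity) ((div_le_one ht).2 h1)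
    rwa [smul_smul, div_mul_cancel₀ _ ht.ne'] at this

omit [T2Space X] [CompactSpace X] in
theorem CardF.le {q : X} {t t' : ℝ} (h : CardF S Γ e q t) (h0 : 0 < t')
    (hm : S.mv q (t' • e) ∈ S.supp Γ) : t ≤ t' :=
  le_of_not_gt fun hlt => h.2.2.2 t' h0 hlt hm

theorem card_first (hΓ : S.Fam Γ) (he : ∀ c ∈ Γ, wedge e c.2 ≠ 0) {q : X} {t : ℝ} (h0 : 0 < t)
    (hok : S.Ok q (t • e)) (hm : S.mv q (t • e) ∈ S.supp Γ) : ∃ t', CardF S Γ e q t' := by
  obtain ⟨t', h1, h2, ⟨c, hc, h3, -⟩, h4⟩ := first_meet hΓ.1 h0 hok hm fun c hc _ => he c hc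
  exact ⟨t', h1, card_ok_le hok h1.le h2, card_mem_supp.2 ⟨c, hc, h3⟩, h4⟩

theorem card_local (hΓ : S.Fam Γ) {x : X} {h : ℂ} (H : S.IsSC x h) {s τ : ℝ} (hs : |s| < 1)
    (hτ : S.Ok (S.mv x (s • h)) (τ • e)) : ∀ᶠ p : ℝ × ℝ in 𝓝 (s, τ), |p.1| < 1 ∧
      S.Ok (S.mv x (p.1 • h)) (p.2 • e) ∧
      S.Ok (S.mv (S.mv x (s • h)) (τ • e)) ((p.1 - s) • h + (p.2 - τ) • e) ∧
      S.mv (S.mv x (p.1 • h)) (p.2 • e) =
        S.mv (S.mv (S.mv x (s • h)) (τ • e)) ((p.1 - s) • h + (p.2 - τ) • e) ∧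
      ∀ c ∈ Γ, S.mv (S.mv x (p.1 • h)) (p.2 • e) ∈ S.seg c.1 c.2 →
        S.mv (S.mv x (s • h)) (τ • e) ∈ S.seg c.1 c.2 ∧
          (p.1 - s) * wedge h c.2 + (p.2 - τ) * wedge e c.2 = 0 := by
  obtain ⟨r, hr, h1⟩ := localTrans hτ
  obtain ⟨r', hr', h2⟩ := seg_local hΓ.1 (S.reg _ _ hτ).2
  have e1 : ∀ᶠ p : ℝ × ℝ in 𝓝 (s, τ), |p.1| < 1 :=
    (continuous_fst.abs.continuousAt (x := (s, τ))).eventually_lt continuousAt_const hs
  have e2 : ∀ᶠ p : ℝ × ℝ in 𝓝 (s, τ), ‖(p.1 - s) • h‖ < r :=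
    ContinuousAt.eventually_lt (by fun_prop) continuousAt_const (by simpa using hr)
  have e3 : ∀ᶠ p : ℝ × ℝ in 𝓝 (s, τ), ‖(p.2 - τ) • e‖ < r :=
    ContinuousAt.eventually_lt (by fun_prop) continuousAt_const (by simpa using hr)
  have e4 : ∀ᶠ p : ℝ × ℝ in 𝓝 (s, τ), ‖(p.1 - s) • h + (p.2 - τ) • e‖ < r' :=
    ContinuousAt.eventually_lt (by fun_prop) continuousAt_const (by simpa using hr')
  filter_upwards [e1, e2, e3, e4] with p p1 p2 p3 p4
  obtain ⟨-, a2, a3, a4⟩ := h1 _ _ p2 p3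
  have b : τ • e + (p.2 - τ) • e = p.2 • e := by rw [← add_smul]; congr 1; ring
  rw [(H.move hs p1).2, b] at a2 a4
  refine ⟨p1, a2, a3, a4, fun c hc hm => ?_⟩
  rw [a4] at hm
  obtain ⟨b1, b2⟩ := h2 _ p4 c hc hm
  rw [wedge_add_left, wedge_smul_left, wedge_smul_left] at b2
  exact ⟨b1, b2⟩

theorem card_open (hΓ : S.Fam Γ) (he : ∀ c ∈ Γ, wedge e c.2 ≠ 0) {c : X × ℂ} (hc : c ∈ Γ)
    {s t : ℝ} (hs : |s| < 1) (hF : CardF S Γ e (S.mv c.1 (s • c.2)) t) :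
    ∃ m : ℝ, ∀ᶠ s' in 𝓝 s, CardF S Γ e (S.mv c.1 (s' • c.2)) (t + m * (s' - s)) := by
  have H := hΓ.1 c hc
  obtain ⟨c', hc', hm⟩ := card_mem_supp.1 hF.2.2.1
  have he' := he c' hc'
  set m := -wedge c.2 c'.2 / wedge e c'.2 with hmd
  have hmm : m * wedge e c'.2 = -wedge c.2 c'.2 := div_mul_cancel₀ _ he'
  refine ⟨m, ?_⟩
  have e1 : ∀ᶠ s' in 𝓝 s, 0 < t + m * (s' - s) :=
    ContinuousAt.eventually_lt continuousAt_const (by fun_prop) (by simpa using hF.1)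
  have t1 : Tendsto (fun s' : ℝ => (s', t + m * (s' - s))) (𝓝 s) (𝓝 (s, t)) :=
    Continuous.tendsto' (by fun_prop) _ _ (by simp)
  have e2 := t1.eventually (card_local hΓ H hs hF.2.1)
  have e3 : ∀ᶠ s' in 𝓝 s, ∀ θ ∈ Icc (0 : ℝ) 1, 0 < θ → θ < 1 →
      S.mv (S.mv c.1 (s' • c.2)) ((θ * (t + m * (s' - s))) • e) ∉ S.supp Γ := by
    refine isCompact_Icc.eventually_forall_of_forall_eventually fun θ hθ => ?_
    have t2 : Tendsto (fun p : ℝ × ℝ => (p.1, p.2 * (t + m * (p.1 - s)))) (𝓝 (s, θ))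
        (𝓝 (s, θ * t)) := Continuous.tendsto' (by fun_prop) _ _ (by simp)
    have hok : S.Ok (S.mv c.1 (s • c.2)) ((θ * t) • e) :=
      card_ok_le hF.2.1 (mul_nonneg hθ.1 hF.1.le) (by nlinarith [hθ.2, hF.1])
    have t3 : Tendsto (fun p : ℝ × ℝ => p.1) (𝓝 (s, θ)) (𝓝 s) := continuous_fst.tendsto _
    filter_upwards [t2.eventually (card_local hΓ H hs hok), t3.eventually e1] with p hp hl h0 h1 hmem
    obtain ⟨c'', hc'', hm''⟩ := card_mem_supp.1 hmem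
    obtain ⟨b1, b2⟩ := hp.2.2.2.2 c'' hc'' hm''
    rcases hθ.1.eq_or_lt with rfl | hθ0
    · rw [zero_mul, zero_smul, S.mv_zero] at b1
      obtain rfl := card_eq_of_mem hΓ hc hc'' ⟨s, hs, rfl⟩ b1
      rw [wedge_self, zero_mul, sub_zero, mul_zero, zero_add] at b2
      exact mul_ne_zero (mul_pos h0 hl).ne' (he c hc) b2
    rcases hθ.2.eq_or_lt with rfl | hθ1
    · rw [one_mul] at b1 b2
      obtain rfl := card_eq_of_mem hΓ hc' hc'' hm b1
      have : (1 - p.2) * (t + m * (p.1 - s)) * wedge e c'.2 = 0 := by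
        linear_combination (p.1 - s) * hmm - b2
      exact mul_ne_zero (mul_pos (sub_pos.2 h1) hl).ne' he' this
    · exact hF.2.2.2 _ (mul_pos hθ0 hF.1) (by nlinarith [hF.1]) (card_mem_supp.2 ⟨c'', hc'', b1⟩)
  filter_upwards [e1, e2, e3] with s' h1 h2 h3
  obtain ⟨-, a2, a3, a4, -⟩ := h2
  refine ⟨h1, a2, ?_, fun t' h4 h5 => ?_⟩
  · rw [a4]
    refine card_mem_supp.2 ⟨c', hc', (hΓ.1 c' hc').mv_mem hm a3 ?_⟩
    rw [wedge_add_left, wedge_smul_left, wedge_smul_left]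
    linear_combination (s' - s) * hmm
  · have h6 : 0 < t' / (t + m * (s' - s)) := div_pos h4 h1
    have h7 : t' / (t + m * (s' - s)) < 1 := (div_lt_one h1).2 h5
    have := h3 _ ⟨h6.le, h7.le⟩ h6 h7
    rwa [div_mul_cancel₀ _ h1.ne'] at this

theorem card_closed (hΓ : S.Fam Γ) (he : ∀ c ∈ Γ, wedge e c.2 ≠ 0) {c : X × ℂ} (hc : c ∈ Γ)
    (hB : ¬ CardB S Γ e c.1 c.2) {s α m : ℝ} (hs : |s| < 1)
    (hF : ∃ᶠ s' in 𝓝 s, CardF S Γ e (S.mv c.1 (s' • c.2)) (α + m * s')) :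
    ∃ t, CardF S Γ e (S.mv c.1 (s • c.2)) t := by
  have H := hΓ.1 c hc
  have h0 : 0 ≤ α + m * s := by
    refine le_of_not_gt fun hlt => ?_
    have e1 : ∀ᶠ s' in 𝓝 s, α + m * s' < 0 :=
      ContinuousAt.eventually_lt (by fun_prop) continuousAt_const hlt
    obtain ⟨s', h1, h2⟩ := (hF.and_eventually e1).exists
    exact lt_asymm h1.1 h2
  by_cases hok : S.Ok (S.mv c.1 (s • c.2)) ((α + m * s) • e)
  · have t1 : Tendsto (fun s' : ℝ => (s', α + m * s')) (𝓝 s) (𝓝 (s, α + m * s)) :=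
      Continuous.tendsto' (by fun_prop) _ _ rfl
    obtain ⟨s', h1, h2⟩ := (hF.and_eventually (t1.eventually (card_local hΓ H hs hok))).exists
    obtain ⟨c'', hc'', hm''⟩ := card_mem_supp.1 h1.2.2.1
    obtain ⟨b1, b2⟩ := h2.2.2.2.2 c'' hc'' hm''
    dsimp only at b2
    rcases h0.eq_or_lt with h0 | h0
    · rw [← h0, zero_smul, S.mv_zero] at b1
      obtain rfl := card_eq_of_mem hΓ hc hc'' ⟨s, hs, rfl⟩ b1
      rw [wedge_self, ← h0, sub_zero, mul_zero, zero_add] at b2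
      exact absurd b2 (mul_ne_zero h1.1.ne' (he c hc))
    · exact card_first hΓ he h0 hok (card_mem_supp.2 ⟨c'', hc'', b1⟩)
  · obtain ⟨τ, h1, -, h2⟩ := exists_hit (S.reg _ _ (H.ok hs)).2 hok
    rw [smul_smul] at h2
    have h3 : 0 < τ * (α + m * s) := by
      refine (mul_nonneg h1.le h0).lt_of_ne fun h => h2.reg.2 ?_
      rw [← h, zero_smul]
    by_contra hne
    refine hB ⟨s, _, hs, h3, h2, fun t' h4 h5 hm => hne (card_first hΓ he h4 ?_ hm)⟩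
    have := h2.2 (t' / (τ * (α + m * s))) (by positivity) ((div_lt_one h3).2 h5)
    rwa [smul_smul, div_mul_cancel₀ _ h3.ne'] at this

theorem card_end {α m : ℝ} (h : ∀ a > 0, ∀ δ > 0, δ ≤ 1 → ∃ s, -1 < s ∧ s < -1 + δ ∧ α + m * s ≤ a) :
    α - m ≤ 0 := by
  refine le_of_forall_pos_le_add fun η hη => ?_
  have h1 : 0 < |m| + 1 := by positivity
  obtain ⟨s, h2, h3, h4⟩ := h (η / 2) (by positivity) (min 1 (η / 2 / (|m| + 1))) (by positivity)
    (min_le_left _ _)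
  have h5 : s + 1 ≤ η / 2 / (|m| + 1) := by linarith [min_le_right 1 (η / 2 / (|m| + 1))]
  rw [le_div_iff₀ h1] at h5
  nlinarith [neg_abs_le m]

theorem card_tri (hΓ : S.Fam Γ) (he : ∀ c ∈ Γ, wedge e c.2 ≠ 0) {c : X × ℂ} (hc : c ∈ Γ) :
    CardL S Γ e c.1 c.2 ∨ CardL S Γ e c.1 (-c.2) ∨ CardB S Γ e c.1 c.2 := by
  by_contra hne
  simp only [not_or] at hne
  obtain ⟨hL, hR, hB⟩ := hne
  simp only [CardL, not_exists, not_and, not_forall, not_not, exists_prop] at hL hR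
  obtain ⟨s₀, a1, a2, t₁, a3, -, a4, a5⟩ := hL 1 one_pos 1 one_pos
  have hs₀ : |s₀| < 1 := abs_lt.2 ⟨a1, by linarith⟩
  obtain ⟨t₀, hF⟩ := card_first hΓ he a3 a4 a5
  obtain ⟨m, hm⟩ := card_open hΓ he hc hs₀ hF
  set α := t₀ - m * s₀ with hα
  have hA : Ioo (-1 : ℝ) 1 ⊆ {s | ∀ᶠ s' in 𝓝 s, CardF S Γ e (S.mv c.1 (s' • c.2)) (α + m * s')} := by
    refine isPreconnected_Ioo.subset_of_closure_inter_subset isOpen_setOfPred_eventually_nhds
      ⟨s₀, abs_lt.1 hs₀, hm.mono fun s' h => ?_⟩ ?_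
    · rwa [show α + m * s' = t₀ + m * (s' - s₀) by rw [hα]; ring]
    rintro s ⟨h1, h2⟩
    have hs : |s| < 1 := abs_lt.2 h2
    rw [mem_closure_iff_frequently] at h1
    obtain ⟨t, ht⟩ := card_closed hΓ he hc hB hs (h1.mono fun s' h => h.self_of_nhds)
    obtain ⟨m', hm'⟩ := card_open hΓ he hc hs ht
    obtain ⟨s₁, h3, h4⟩ := (h1.and_eventually hm'.eventually_nhds).exists
    have h5 : ∀ᶠ s' in 𝓝 s₁, α + m * s' = t + m' * (s' - s) := by
      filter_upwards [h3, h4] with s' b1 b2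
      exact le_antisymm (b1.le b2.1 b2.2.2.1) (b2.le b1.1 b1.2.2.1)
    obtain ⟨s₂, h6, h7⟩ := ((h5.filter_mono nhdsWithin_le_nhds).and
      (self_mem_nhdsWithin (a := s₁) (s := {s₁}ᶜ))).exists
    have h8 := h5.self_of_nhds
    have h9 : m = m' := by
      have : (m - m') * (s₂ - s₁) = 0 := by linear_combination h6 - h8
      exact sub_eq_zero.1 ((mul_eq_zero.1 this).resolve_right (sub_ne_zero.2 h7))
    refine hm'.mono fun s' h => ?_
    rwa [show α + m * s' = t + m' * (s' - s) by rw [h9] at h8 ⊢; linear_combination h8]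
  have hall : ∀ s : ℝ, -1 < s → s < 1 → CardF S Γ e (S.mv c.1 (s • c.2)) (α + m * s) :=
    fun s h1 h2 => (hA ⟨h1, h2⟩).self_of_nhds
  have k1 : α - m ≤ 0 := card_end fun a ha δ hδ hδ' => by
    obtain ⟨s, b1, b2, t, b3, b4, -, b5⟩ := hL a ha δ hδ
    exact ⟨s, b1, b2, ((hall s b1 (by linarith)).le b3 b5).trans b4⟩
  have k2 : α - -m ≤ 0 := card_end fun a ha δ hδ hδ' => by
    obtain ⟨s, b1, b2, t, b3, b4, -, b5⟩ := hR a ha δ hδ
    rw [smul_neg, ← neg_smul] at b5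
    have := ((hall (-s) (by linarith) (by linarith)).le b3 b5).trans b4
    exact ⟨s, b1, b2, by linarith⟩
  have k3 := (hall 0 (by norm_num) one_pos).1
  linarith

theorem card_ev (C : ℝ) {D : ℝ} (hD : 0 < D) : ∀ᶠ ξ in 𝓝[>] (0 : ℝ), ξ * C < D :=
  (ContinuousAt.eventually_lt (by fun_prop) continuousAt_const (by simpa using hD)).filter_mono
    nhdsWithin_le_nhds

omit [T2Space X] [CompactSpace X] in
theorem card_of_inj {I : Finset (X × ℂ)} {T : Set X} {N : ℕ} (hT : T.encard ≤ N) (f : X × ℂ → X)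
    (h1 : ∀ c ∈ I, f c ∈ T) (h2 : ∀ c ∈ I, ∀ c' ∈ I, f c = f c' → c = c') : I.card ≤ N := by
  have := (Set.encard_le_encard_of_injOn (s := (I : Set (X × ℂ))) (f := f) h1 h2).trans hT
  rw [Set.encard_coe_eq_coe_finsetCard] at this
  exact_mod_cast this

theorem card_B (hΓ : S.Fam Γ) {I : Finset (X × ℂ)} (hI : I ⊆ Γ)
    (h : ∀ c ∈ I, CardB S Γ e c.1 c.2) : I.card ≤ S.k * S.Sg.card := by
  obtain ⟨ε, hε, hfib⟩ := S.fibre
  choose! s t hs ht hH hN using h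
  have e1 : ∀ᶠ ξ in 𝓝[>] (0 : ℝ), ∀ c ∈ I, ξ * 1 < t c :=
    (eventually_all_finset I).2 fun c hc => card_ev 1 (ht c hc)
  obtain ⟨a, ⟨a1, a2⟩, a0⟩ := ((e1.and (card_ev ‖e‖ hε)).and self_mem_nhdsWithin).exists
  have a0 : 0 < a := a0
  simp only [mul_one] at a1
  have hok : ∀ c ∈ I, S.Ok (S.mv c.1 (s c • c.2)) ((t c - a) • e) ∧
      S.Hit (S.mv (S.mv c.1 (s c • c.2)) ((t c - a) • e)) (a • e) := by
    intro c hc
    have b0 := ht c hc
    have b1 : 0 ≤ (t c - a) / t c := div_nonneg (sub_pos.2 (a1 c hc)).le b0.le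
    have b2 : (t c - a) / t c < 1 := (div_lt_one b0).2 (by linarith)
    have b3 := (hH c hc).2 _ b1 b2
    have b4 := (hH c hc).tail b1 b2
    rw [smul_smul, div_mul_cancel₀ _ b0.ne'] at b3 b4
    rw [smul_smul, show (1 - (t c - a) / t c) * t c = a by field_simp; ring] at b4
    exact ⟨b3, b4⟩
  have key : ∀ c ∈ I, ∀ c' ∈ I, S.mv (S.mv c.1 (s c • c.2)) ((t c - a) • e) =
      S.mv (S.mv c'.1 (s c' • c'.2)) ((t c' - a) • e) → t c ≤ t c' → c = c' := by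
    intro c hc c' hc' heq hle
    obtain ⟨b1, b2⟩ := ok_symm (hok c hc).1
    obtain ⟨b3, b4⟩ := ok_symm (hok c' hc').1
    rw [← heq] at b3 b4
    rw [← neg_smul] at b1 b2 b3 b4
    have b5 := (line_ok b3 b1).2
    rw [b2, b4, show -(t c - a) - -(t c' - a) = t c' - t c by ring] at b5
    have b6 : S.mv c.1 (s c • c.2) ∈ S.seg c.1 c.2 := ⟨s c, hs c hc, rfl⟩
    rcases hle.eq_or_lt with hle | hlt
    · rw [hle, sub_self, zero_smul, S.mv_zero] at b5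
      exact card_eq_of_mem hΓ (hI hc) (hI hc') b6 ⟨s c', hs c' hc', b5.symm⟩
    · refine absurd ?_ (hN c' hc' _ (sub_pos.2 hlt) (by linarith [ht c hc]))
      rw [b5]
      exact card_mem_supp.2 ⟨c, hI hc, b6⟩
  refine card_of_inj (hfib (a • e) (by rwa [norm_smul, Real.norm_of_nonneg a0.le]))
    (fun c => S.mv (S.mv c.1 (s c • c.2)) ((t c - a) • e)) (fun c hc => (hok c hc).2)
    fun c hc c' hc' heq => ?_
  rcases le_total (t c) (t c') with hle | hle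
  · exact key c hc c' hc' heq hle
  · exact (key c' hc' c hc heq.symm hle).symm

theorem card_track (S : TS X μ) : ∃ ε > 0, ∀ q (w y : ℂ), S.Hit q (-w) →
    (∀ t : ℝ, 0 ≤ t → t ≤ 1 → w + t • y ≠ 0 ∧ ‖w + t • y‖ < ε) →
    S.Ok q y ∧ S.Hit (S.mv q y) (-(w + y)) := by
  have h := fun σ (hσ : σ ∈ S.Sg) => cone_core hσ
  choose! U _ _ z ε h3 _ _ _ _ h8 h9 h10 _ _ using h
  have e1 : ∀ᶠ ξ in 𝓝[>] (0 : ℝ), ∀ σ ∈ S.Sg, ξ * 1 < ε σ :=
    (eventually_all_finset _).2 fun σ hσ => card_ev 1 (h3 σ hσ)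
  obtain ⟨a, a1, a0⟩ := (e1.and self_mem_nhdsWithin).exists
  simp only [mul_one] at a1
  refine ⟨a, a0, fun q w y hq hy => ?_⟩
  obtain ⟨σ, hσ, hq'⟩ := hq.hitAt
  have b0 : ‖-w‖ < ε σ := by
    have := (hy 0 le_rfl zero_le_one).2
    rw [zero_smul, add_zero] at this
    rw [norm_neg]
    exact this.trans (a1 σ hσ)
  obtain ⟨b1, b2⟩ := h10 σ hσ q _ hq' b0
  rw [neg_neg] at b2
  obtain ⟨b3, b4, b5⟩ := h8 σ hσ q b1 (fun h => hq.reg.1 (h ▸ hσ)) y fun t t0 t1 => by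
    rw [b2]
    exact ⟨(hy t t0 t1).1, (hy t t0 t1).2.trans (a1 σ hσ)⟩
  have b6 := (h9 σ hσ _ b4 fun h => (S.reg _ _ b3).2 (h ▸ hσ)).1
  rw [b5, b2] at b6
  exact ⟨b3, b6⟩

theorem card_convex (ρ ε : ℝ) (e w : ℂ) :
    Convex ℝ {v : ℂ | ‖v‖ < ε ∧ 0 ≤ ρ * wedge v e ∧ (ρ * wedge v e = 0 → v = w)} := by
  intro v hv v' hv' a b ha hb hab
  have e1 : ρ * wedge (a • v + b • v') e = a * (ρ * wedge v e) + b * (ρ * wedge v' e) := by
    rw [wedge_add_left, wedge_smul_left, wedge_smul_left]; ring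
  have h1 := mul_nonneg ha hv.2.1
  have h2 := mul_nonneg hb hv'.2.1
  refine ⟨by simpa using convex_ball (0 : ℂ) ε (by simpa using hv.1) (by simpa using hv'.1) ha hb hab,
    by rw [e1]; linarith, fun h => ?_⟩
  rw [e1] at h
  have h3 : a • v = a • w := by
    rcases mul_eq_zero.1 (show a * (ρ * wedge v e) = 0 by linarith) with h | h
    · rw [h, zero_smul, zero_smul]
    · rw [hv.2.2 h]
  have h4 : b • v' = b • w := by
    rcases mul_eq_zero.1 (show b * (ρ * wedge v' e) = 0 by linarith) with h | h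
    · rw [h, zero_smul, zero_smul]
    · rw [hv'.2.2 h]
  rw [h3, h4, ← add_smul, hab, one_smul]

theorem card_L (hΓ : S.Fam Γ) (he : e ≠ 0) (ρ : ℝ) {I : Finset (X × ℂ)} (hI : I ⊆ Γ)
    (h : ∀ c ∈ I, ∃ o, (o = c.2 ∨ o = -c.2) ∧ 0 < ρ * wedge o e ∧ CardL S Γ e c.1 o) :
    I.card ≤ S.k * S.Sg.card := by
  obtain ⟨ε₁, hε₁, hfib⟩ := S.fibre
  obtain ⟨ε₂, hε₂, htr⟩ := S.card_track
  have hε : 0 < min ε₁ ε₂ := lt_min hε₁ hε₂
  choose! o ho hρ a ha δ hδ hL using h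
  have hne : 0 < ‖e‖ := norm_pos_iff.2 he
  have hsc : ∀ c ∈ I, S.IsSC c.1 (o c) ∧ S.seg c.1 (o c) = S.seg c.1 c.2 := by
    intro c hc
    rcases ho c hc with h | h <;> rw [h]
    exacts [⟨hΓ.1 c (hI hc), rfl⟩, ⟨(hΓ.1 c (hI hc)).neg, S.seg_neg _ _⟩]
  let β : X × ℂ → ℝ := fun c => (ρ * wedge (o c) e)⁻¹
  have hβ : ∀ c ∈ I, 0 < β c := fun c hc => inv_pos.2 (hρ c hc)
  have e1 : ∀ᶠ ξ in 𝓝[>] (0 : ℝ), ∀ c ∈ I, ξ * β c < min 1 (δ c) ∧ ξ * ‖β c • o c‖ < min ε₁ ε₂ ∧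
      ∀ c' ∈ I, ξ * ‖β c' • o c' - β c • o c‖ < a c * ‖e‖ :=
    (eventually_all_finset I).2 fun c hc => (card_ev _ (lt_min one_pos (hδ c hc))).and
      ((card_ev _ hε).and ((eventually_all_finset I).2 fun c' _ =>
        card_ev _ (mul_pos (ha c hc) hne)))
  obtain ⟨ξ, ⟨a1, a2⟩, a0⟩ := ((e1.and (card_ev ‖e‖ hε)).and self_mem_nhdsWithin).exists
  have a0 : 0 < ξ := a0
  have hnorm : ∀ v : ℂ, ‖ξ • v‖ = ξ * ‖v‖ := fun v => by rw [norm_smul, Real.norm_of_nonneg a0.le]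
  set K := {v : ℂ | ‖v‖ < min ε₁ ε₂ ∧ 0 ≤ ρ * wedge v e ∧ (ρ * wedge v e = 0 → v = ξ • e)} with hK
  have hKc : Convex ℝ K := card_convex _ _ _ _
  have hKe : ξ • e ∈ K := ⟨by rwa [hnorm], by rw [wedge_smul_left, wedge_self]; simp, fun _ => rfl⟩
  have hw : ∀ c ∈ I, ρ * wedge (ξ • β c • o c) e = ξ := by
    intro c hc
    have := (hρ c hc).ne'
    rw [wedge_smul_left, wedge_smul_left]
    rw [show ρ * (ξ * (β c * wedge (o c) e)) =
      ξ * ((ρ * wedge (o c) e)⁻¹ * (ρ * wedge (o c) e)) by simp only [β]; ring,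
      inv_mul_cancel₀ this, mul_one]
  have hKu : ∀ c ∈ I, ξ • β c • o c ∈ K := fun c hc =>
    ⟨by rw [hnorm]; exact (a1 c hc).2.1, by rw [hw c hc]; exact a0.le,
      fun h => absurd ((hw c hc).symm.trans h) a0.ne'⟩
  have hmove : ∀ q (w w' : ℂ), w ∈ K → w' ∈ K → S.Hit q (-w) →
      S.Ok q (w' - w) ∧ S.Hit (S.mv q (w' - w)) (-w') := by
    intro q w w' h1 h2 h3
    have := htr q w (w' - w) h3 fun t t0 t1 => by
      have h4 := hKc.add_smul_sub_mem h1 h2 ⟨t0, t1⟩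
      refine ⟨fun h => ?_, h4.1.trans_le (min_le_right _ _)⟩
      have h5 := h4.2.2 (by rw [h, wedge_zero_left, mul_zero])
      rw [h] at h5
      exact smul_ne_zero a0.ne' he h5.symm
    rwa [add_sub_cancel] at this
  have hs : ∀ c ∈ I, |(-1 + ξ * β c)| < 1 := fun c hc =>
    abs_lt.2 ⟨by linarith [mul_pos a0 (hβ c hc)],
      by linarith [(a1 c hc).1.trans_le (min_le_left _ _)]⟩
  let q : X × ℂ → X := fun c => S.mv c.1 ((-1 + ξ * β c) • o c)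
  have hq : ∀ c ∈ I, q c ∈ S.seg c.1 c.2 := fun c hc => by
    rw [← (hsc c hc).2]
    exact ⟨_, hs c hc, rfl⟩
  have hp : ∀ c ∈ I, S.Ok (q c) (ξ • e - ξ • β c • o c) ∧
      S.Hit (S.mv (q c) (ξ • e - ξ • β c • o c)) (-(ξ • e)) := by
    intro c hc
    refine hmove _ _ _ (hKu c hc) hKe ?_
    have := ((hsc c hc).1.hit_end (hs c hc)).2
    rwa [show -1 - (-1 + ξ * β c) = -(ξ * β c) by ring, neg_smul, mul_smul] at this
  have key : ∀ c ∈ I, ∀ c' ∈ I, S.mv (q c) (ξ • e - ξ • β c • o c) =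
      S.mv (q c') (ξ • e - ξ • β c' • o c') → ∀ t : ℝ, 0 ≤ t →
      ξ • β c' • o c' - ξ • β c • o c = t • e → c = c' := by
    intro c hc c' hc' heq t t0 ht
    have b1 := (ok_symm (hp c hc).1).2
    have b2 := (ok_symm (hp c' hc').1).2
    rw [← heq] at b2
    rw [neg_sub] at b1 b2
    have b3 := convex_ok (S := S) (x := S.mv (q c) (ξ • e - ξ • β c • o c))
      (hKc.translate_preimage_right (ξ • e)) (by simpa using hKe)
      (fun y hy => by simpa using (hmove _ _ _ hKe hy (hp c hc).2).1)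
      (ξ • β c • o c - ξ • e) (by simpa using hKu c hc)
      (ξ • β c' • o c' - ξ • e) (by simpa using hKu c' hc')
    rw [b1, b2, sub_sub_sub_cancel_right, ht] at b3
    rcases t0.eq_or_lt with rfl | t0
    · rw [zero_smul, S.mv_zero] at b3
      exact card_eq_of_mem hΓ (hI hc) (hI hc') (hq c hc) (b3.2 ▸ hq c' hc')
    · have b4 : t ≤ a c := by
        have := (a1 c hc).2.2 c' hc'
        rw [← hnorm, smul_sub, ht, norm_smul, Real.norm_of_nonneg t0.le] at this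
        exact (lt_of_mul_lt_mul_right this hne.le).le
      refine absurd ?_ (hL c hc _ (abs_lt.1 (hs c hc)).1
        (by linarith [(a1 c hc).1.trans_le (min_le_right _ _)]) t t0 b4 b3.1)
      change S.mv (q c) (t • e) ∈ _
      rw [b3.2]
      exact card_mem_supp.2 ⟨c', hI hc', hq c' hc'⟩
  refine card_of_inj (hfib (-(ξ • e)) (by rw [norm_neg]; exact hKe.1.trans_le (min_le_left _ _)))
    (fun c => S.mv (q c) (ξ • e - ξ • β c • o c)) (fun c hc => (hp c hc).2)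
    fun c hc c' hc' heq => ?_
  have hρ0 : ρ ≠ 0 := fun h => by simpa [h] using hρ c hc
  obtain ⟨t, ht⟩ := exists_smul_of_wedge (y := ξ • β c' • o c' - ξ • β c • o c) (y' := e) (by
    refine mul_left_cancel₀ hρ0 ?_
    rw [wedge_sub_left, mul_sub, hw c hc, hw c' hc', sub_self, mul_zero]) he
  rcases le_total 0 t with t0 | t0
  · exact key c hc c' hc' heq t t0 ht
  · exact (key c' hc' c hc heq.symm (-t) (neg_nonneg.2 t0) (by rw [neg_smul, ← ht, neg_sub])).symm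

/-- the number of pairwise disjoint saddle connections is bounded -/
theorem card_le {Γ : Finset (X × ℂ)} (hΓ : S.Fam Γ) : Γ.card ≤ 3 * (S.k * S.Sg.card) := by
  classical
  obtain ⟨σ, hσ⟩ := Infinite.exists_notMem_finset (Γ.image fun c => c.2.re / c.2.im)
  set e : ℂ := ⟨σ, 1⟩ with hed
  have he0 : e ≠ 0 := fun h => by simpa [hed] using congrArg Complex.im h
  have he : ∀ c ∈ Γ, wedge e c.2 ≠ 0 := by
    intro c hc h
    simp only [wedge, hed, one_mul] at h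
    by_cases hi : c.2.im = 0
    · refine (hΓ.1 c hc).1.reg.2 (Complex.ext ?_ hi)
      rw [hi] at h
      simpa using h
    · refine hσ (Finset.mem_image.2 ⟨c, hc, ?_⟩)
      rw [div_eq_iff hi]
      linarith
  let P : ℝ → X × ℂ → Prop := fun ρ c =>
    ∃ o, (o = c.2 ∨ o = -c.2) ∧ 0 < ρ * wedge o e ∧ CardL S Γ e c.1 o
  have h1 : ∀ ρ, (Γ.filter (P ρ)).card ≤ S.k * S.Sg.card := fun ρ =>
    card_L hΓ he0 ρ (Finset.filter_subset _ _) fun c hc => (Finset.mem_filter.1 hc).2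
  have h2 : (Γ.filter fun c => CardB S Γ e c.1 c.2).card ≤ S.k * S.Sg.card :=
    card_B hΓ (Finset.filter_subset _ _) fun c hc => (Finset.mem_filter.1 hc).2
  have h3 : ∀ c ∈ Γ, ∀ o, (o = c.2 ∨ o = -c.2) → CardL S Γ e c.1 o → P 1 c ∨ P (-1) c := by
    intro c hc o ho hL
    have : wedge o e ≠ 0 := by
      have := he c hc
      rw [wedge_comm] at this
      rcases ho with rfl | rfl
      · exact neg_ne_zero.1 this
      · rwa [wedge_neg_left]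
    rcases this.lt_or_gt with h | h
    · exact Or.inr ⟨o, ho, by linarith, hL⟩
    · exact Or.inl ⟨o, ho, by linarith, hL⟩
  have h4 : Γ ⊆ (Γ.filter (P 1) ∪ Γ.filter (P (-1))) ∪ Γ.filter fun c => CardB S Γ e c.1 c.2 := by
    intro c hc
    simp only [Finset.mem_union, Finset.mem_filter, hc, true_and]
    rcases card_tri hΓ he hc with h | h | h
    exacts [Or.inl (h3 c hc _ (Or.inl rfl) h), Or.inl (h3 c hc _ (Or.inr rfl) h), Or.inr h]
  have h5 := (Finset.card_le_card h4).trans ((Finset.card_union_le _ _).trans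
    (Nat.add_le_add_right (Finset.card_union_le _ _) _))
  have := h1 1
  have := h1 (-1)
  omega

end Pool.Agent.MP_d0b2d2_an.Gen.TS
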