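import Pool.Agent.MP_d0b2d2_an.Gen.Sector

open MeasureTheory Set Filter Topology Metric
open scoped ENNReal Pointwise

namespace Pool.Agent.MP_d0b2d2_an.Gen

/-- the angle (in turns) of slope parameter `σ` in the sector ending at `c` -/
noncomputable def circlePhi (c σ : ℝ) : ℝ := c - Real.arctan σ / (2 * Real.pi)

lemma circle_phi_cont (c : ℝ) : Continuous (circlePhi c) := by
  unfold circlePhi
  exact continuous_const.sub (Real.continuous_arctan.div_const _)

lemma circle_phi_inv (c σ : ℝ) : Real.tan (2 * Real.pi * (c - circlePhi c σ)) = σ := by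
  have := Real.pi_pos
  rw [show 2 * Real.pi * (c - circlePhi c σ) = Real.arctan σ by unfold circlePhi; field_simp; ring,
    Real.tan_arctan]

lemma circle_phi_mem (c : ℝ) {σ : ℝ} (h : σ ∈ Ioo (0 : ℝ) 1) :
    circlePhi c σ ∈ Ioo (c - 1 / 8) c := by
  have hp := Real.pi_pos
  have h1 : 0 < Real.arctan σ := by simpa using Real.arctan_strictMono h.1
  have h2 : Real.arctan σ < Real.pi / 4 := by simpa using Real.arctan_strictMono h.2
  have h3 : Real.arctan σ / (2 * Real.pi) < 1 / 8 := by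
    rw [div_lt_iff₀ (by positivity)]; linarith
  have h4 : 0 < Real.arctan σ / (2 * Real.pi) := by positivity
  unfold circlePhi
  constructor <;> linarith

lemma circle_phi_image (c : ℝ) : circlePhi c '' Ioo (0 : ℝ) 1 = Ioo (c - 1 / 8) c := by
  have hp := Real.pi_pos
  refine Subset.antisymm (by rintro _ ⟨σ, h, rfl⟩; exact circle_phi_mem c h) fun θ hθ => ?_
  have h1 : 0 < 2 * Real.pi * (c - θ) := mul_pos (by positivity) (by linarith [hθ.2])
  have h2 : 2 * Real.pi * (c - θ) < Real.pi / 4 := by nlinarith [hθ.1]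
  have h3 : Real.arctan (Real.tan (2 * Real.pi * (c - θ))) = 2 * Real.pi * (c - θ) :=
    Real.arctan_tan (by linarith) (by linarith)
  refine ⟨Real.tan (2 * Real.pi * (c - θ)), ⟨?_, ?_⟩, ?_⟩
  · rw [← Real.arctan_lt_arctan_iff, h3, Real.arctan_zero]; exact h1
  · rw [← Real.arctan_lt_arctan_iff, h3, Real.arctan_one]; exact h2
  · unfold circlePhi
    rw [h3]; field_simp; ring

lemma circle_phi_ae (c : ℝ) {P : ℝ → Prop} (h : ∀ᵐ θ ∂(volume.restrict (Ioo (c - 1 / 8) c)), P θ) :
    ∀ᵐ σ ∂(volume.restrict (Ioo (0 : ℝ) 1)), P (circlePhi c σ) := by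
  have hp := Real.pi_pos
  rw [ae_restrict_iff' measurableSet_Ioo, ae_iff] at h ⊢
  have hd : DifferentiableOn ℝ (fun θ : ℝ => Real.tan (2 * Real.pi * (c - θ)))
      {θ | ¬(θ ∈ Ioo (c - 1 / 8) c → P θ)} := fun θ hθ => by
    have hθ' : θ ∈ Ioo (c - 1 / 8) c := (Classical.not_imp.1 hθ).1
    have h1 : 0 < 2 * Real.pi * (c - θ) := mul_pos (by positivity) (by linarith [hθ'.2])
    have h2 : 2 * Real.pi * (c - θ) < Real.pi / 4 := by nlinarith [hθ'.1]
    have h3 : Real.cos (2 * Real.pi * (c - θ)) ≠ 0 :=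
      (Real.cos_pos_of_mem_Ioo ⟨by linarith, by linarith⟩).ne'
    exact ((Real.differentiableAt_tan.2 h3).comp θ
      (f := fun θ : ℝ => 2 * Real.pi * (c - θ)) (by fun_prop)).differentiableWithinAt
  refine measure_mono_null (fun σ hσ => ?_)
    (addHaar_image_eq_zero_of_differentiableOn_of_addHaar_eq_zero volume hd h)
  obtain ⟨h1, h2⟩ := Classical.not_imp.1 hσ
  exact ⟨circlePhi c σ, fun h3 => h2 (h3 (circle_phi_mem c h1)), circle_phi_inv c σ⟩

lemma circle_phi_integral (c : ℝ) (F : ℝ → ℝ) : ∫ θ in (c - 1 / 8)..c, F θ =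
    ∫ σ in (0 : ℝ)..1, (1 / (1 + σ ^ 2) / (2 * Real.pi)) * F (circlePhi c σ) := by
  have hp := Real.pi_pos
  rw [intervalIntegral.integral_of_le (by linarith), intervalIntegral.integral_of_le zero_le_one,
    integral_Ioc_eq_integral_Ioo, integral_Ioc_eq_integral_Ioo, ← circle_phi_image,
    integral_image_eq_integral_abs_deriv_smul measurableSet_Ioo (f := circlePhi c)
      (f' := fun σ => -(1 / (1 + σ ^ 2) / (2 * Real.pi)))
      (fun σ _ => (((Real.hasDerivAt_arctan σ).div_const _).const_sub c).hasDerivWithinAt)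
      (fun σ _ σ' _ h => by rw [← circle_phi_inv c σ, h, circle_phi_inv])]
  refine integral_congr_ae (ae_of_all _ fun σ => ?_)
  simp only [abs_neg, smul_eq_mul]
  rw [abs_of_pos (by positivity)]

/-- the rotation taking the sector ending at `c` to the standard sector -/
noncomputable def circleRot (c : ℝ) : ℂ ≃L[ℝ] ℂ :=
  (rotation (Circle.exp (Real.pi / 2 - 2 * Real.pi * c))).toContinuousLinearEquiv

lemma circle_rot_apply (c : ℝ) (y : ℂ) :
    circleRot c y = Complex.exp (((Real.pi / 2 - 2 * Real.pi * c : ℝ) : ℂ) * Complex.I) * y := rfl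

lemma circle_rot_sl (c : ℝ) : Sl (circleRot c : ℂ →L[ℝ] ℂ) := fun y y' => by
  simp only [ContinuousLinearEquiv.coe_coe, circle_rot_apply, wedge, Complex.mul_re,
    Complex.mul_im, Complex.exp_ofReal_mul_I_re, Complex.exp_ofReal_mul_I_im]
  linear_combination (y.re * y'.im - y.im * y'.re) *
    Real.sin_sq_add_cos_sq (Real.pi / 2 - 2 * Real.pi * c)

lemma circle_rot_ed (c σ : ℝ) : circleRot c
    (Complex.exp (((2 * Real.pi * circlePhi c σ : ℝ) : ℂ) * Complex.I)) = ed σ := by
  have hp := Real.pi_pos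
  rw [circle_rot_apply, ← Complex.exp_add, ← add_mul, ← Complex.ofReal_add,
    show Real.pi / 2 - 2 * Real.pi * c + 2 * Real.pi * circlePhi c σ =
      Real.pi / 2 - Real.arctan σ by unfold circlePhi; field_simp; ring]
  apply Complex.ext
  · rw [Complex.exp_ofReal_mul_I_re, Real.cos_pi_div_two_sub, Real.sin_arctan, ed,
      Complex.div_ofReal_re]
    simp
  · rw [Complex.exp_ofReal_mul_I_im, Real.sin_pi_div_two_sub, Real.cos_arctan, ed,
      Complex.div_ofReal_im]
    simp

/-- bounded measurable functions tending to zero in mean square -/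
def CircleMS (f : ℝ → ℝ) : Prop := Measurable f ∧ (∃ M, ∀ t, |f t| ≤ M) ∧
  Tendsto (avN fun t => f t ^ 2) atTop (𝓝 0)

lemma circle_sq_bdd {f : ℝ → ℝ} {M : ℝ} (h : ∀ t, |f t| ≤ M) (t : ℝ) : |f t ^ 2| ≤ M ^ 2 := by
  rw [abs_pow]
  exact pow_le_pow_left₀ (abs_nonneg _) (h t) 2

lemma circle_avN_nonneg {f : ℝ → ℝ} (h : ∀ t, 0 ≤ f t) (n : ℕ) : 0 ≤ avN f n :=
  div_nonneg (intervalIntegral.integral_nonneg (Nat.cast_nonneg n) fun t _ => h t)
    (Nat.cast_nonneg n)

lemma CircleMS.add {f g : ℝ → ℝ} (hf : CircleMS f) (hg : CircleMS g) :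
    CircleMS fun t => f t + g t := by
  obtain ⟨f1, ⟨M, f2⟩, f3⟩ := hf
  obtain ⟨g1, ⟨M', g2⟩, g3⟩ := hg
  have hb : ∀ t, |f t + g t| ≤ M + M' := fun t => (abs_add_le _ _).trans (add_le_add (f2 t) (g2 t))
  refine ⟨f1.add g1, ⟨_, hb⟩, squeeze_zero (circle_avN_nonneg fun t => sq_nonneg _)
    (g := fun n => 2 * avN (fun t => f t ^ 2) n + 2 * avN (fun t => g t ^ 2) n) (fun n => ?_)
    (by simpa using (f3.const_mul 2).add (g3.const_mul 2))⟩
  have i1 := ii_bdd (f1.pow_const 2) (circle_sq_bdd f2) 0 n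
  have i2 := ii_bdd (g1.pow_const 2) (circle_sq_bdd g2) 0 n
  refine (avN_mono (f := fun t => (f t + g t) ^ 2) (g := fun t => 2 * f t ^ 2 + 2 * g t ^ 2) n
    (ii_bdd ((f1.add g1).pow_const 2) (circle_sq_bdd hb) 0 n)
    ((i1.const_mul 2).add (i2.const_mul 2))
    fun t _ => by nlinarith [sq_nonneg (f t - g t)]).trans (le_of_eq ?_)
  unfold avN
  rw [intervalIntegral.integral_add (i1.const_mul 2) (i2.const_mul 2),
    intervalIntegral.integral_const_mul, intervalIntegral.integral_const_mul]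
  ring

lemma circleMS_sum {f : ℕ → ℝ → ℝ} (n : ℕ) (h : ∀ j < n, CircleMS (f j)) :
    CircleMS fun t => ∑ j ∈ Finset.range n, f j t := by
  induction n with
  | zero =>
    refine ⟨measurable_const, ⟨0, fun t => by simp⟩, ?_⟩
    refine tendsto_const_nhds.congr fun n => ?_
    simp [avN]
  | succ n ih =>
    simp only [Finset.sum_range_succ]
    exact (ih fun j hj => h j (by omega)).add (h n (by omega))

lemma circle_rescale {D : ℝ → ℝ} (hD : Measurable D) (h0 : ∀ t, 0 ≤ D t) {M : ℝ}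
    (hM : ∀ t, |D t| ≤ M) {a : ℝ} (ha : 0 < a)
    (h : Tendsto (avN fun t => D (a * t)) atTop (𝓝 0)) : Tendsto (avN D) atTop (𝓝 0) := by
  have h1 : Tendsto (fun n : ℕ => ⌈(n : ℝ) / a⌉₊) atTop atTop :=
    tendsto_nat_ceil_atTop.comp (tendsto_natCast_atTop_atTop.atTop_div_const ha)
  refine squeeze_zero' (Eventually.of_forall (circle_avN_nonneg h0))
    (g := fun n : ℕ => (1 + a) * avN (fun t => D (a * t)) ⌈(n : ℝ) / a⌉₊) ?_
    (by simpa using (h.comp h1).const_mul (1 + a))
  filter_upwards [eventually_ge_atTop 1] with n hn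
  have n1 : (1 : ℝ) ≤ n := by exact_mod_cast hn
  set m := ⌈(n : ℝ) / a⌉₊ with hm
  have m1 : (n : ℝ) ≤ a * m := by
    have := Nat.le_ceil ((n : ℝ) / a)
    rwa [div_le_iff₀' ha] at this
  have m2 : a * m ≤ n + a := by
    have := (Nat.ceil_lt_add_one (show 0 ≤ (n : ℝ) / a by positivity)).le
    calc a * m ≤ a * (n / a + 1) := mul_le_mul_of_nonneg_left this ha.le
      _ = n + a := by field_simp
  have m0 : (0 : ℝ) < m := by
    by_contra h2
    nlinarith [not_lt.1 h2]
  have e1 : ∫ t in (0 : ℝ)..n, D t ≤ a * ∫ t in (0 : ℝ)..m, D (a * t) := by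
    rw [← smul_eq_mul, intervalIntegral.smul_integral_comp_mul_left, mul_zero]
    exact intervalIntegral.integral_mono_interval le_rfl (by linarith) m1 (ae_of_all _ h0)
      (ii_bdd hD hM _ _)
  have e2 := circle_avN_nonneg (f := fun t => D (a * t)) (fun t => h0 _) m
  have e3 : ∫ t in (0 : ℝ)..m, D (a * t) = m * avN (fun t => D (a * t)) m := by
    unfold avN; field_simp
  rw [avN, div_le_iff₀ (by linarith)]
  rw [e3] at e1
  nlinarith [mul_le_mul_of_nonneg_right m2 e2, mul_nonneg ha.le e2,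
    mul_le_mul_of_nonneg_left n1 (mul_nonneg ha.le e2)]

namespace TS

variable {X : Type} [TopologicalSpace X] [T2Space X] [CompactSpace X] [MeasurableSpace X]
  [BorelSpace X] [SecondCountableTopology X]

omit [T2Space X] [SecondCountableTopology X] in
lemma circle_meas {γ : ℝ → ℝ → X} (hγ : Measurable (Function.uncurry γ)) (h : C(X, ℝ))
    (m a b : ℝ) : (Measurable fun t => ∫ θ in a..b, (h (γ θ t) - m)) ∧
      ∀ t, |∫ θ in a..b, (h (γ θ t) - m)| ≤ (‖h‖ + |m|) * |b - a| :=
  ⟨measurable_ii (f := fun p : ℝ × ℝ => h (γ p.2 p.1) - m)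
    ((h.continuous.measurable.comp (hγ.comp measurable_swap)).sub_const m) a b,
   fun t => intervalIntegral.norm_integral_le_of_norm_le_const (f := fun θ => h (γ θ t) - m)
    fun _ _ => (abs_sub _ _).trans (add_le_add_left (h.norm_coe_le_norm _) _)⟩

lemma circle_sector {μ : Measure X} [IsProbabilityMeasure μ] (S : TS X μ) {γ : ℝ → ℝ → X}
    (hγ : Measurable (Function.uncurry γ)) (c : ℝ)
    (hr : ∀ᵐ θ ∂(volume.restrict (Ioo (c - 1 / 8) c)),
      S.IsRay (Complex.exp (((2 * Real.pi * θ : ℝ) : ℂ) * Complex.I)) (γ θ)) (h : C(X, ℝ)) :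
    CircleMS fun t => ∫ θ in (c - 1 / 8)..c, (h (γ θ t) - ∫ q, h q ∂μ) := by
  refine ⟨(circle_meas hγ h _ _ _).1, ⟨_, (circle_meas hγ h _ _ _).2⟩, ?_⟩
  simp only [circle_phi_integral]
  refine (S.map (circleRot c) (circle_rot_sl c)).sector (γ := fun σ => γ (circlePhi c σ))
    (hγ.comp (((circle_phi_cont c).measurable.comp measurable_fst).prodMk measurable_snd)) ?_ h
    (ρ := fun σ => 1 / (1 + σ ^ 2) / (2 * Real.pi))
    ((continuous_const.div (by fun_prop) fun σ => by positivity).div_const _)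
  filter_upwards [circle_phi_ae c hr] with σ hσ t ht s hs
  have := hσ t ht s hs
  simpa only [map, ← circle_rot_ed c σ, map_smul, ContinuousLinearEquiv.symm_apply_apply]
    using this

/-- circle averages tend to the mean in mean square -/
theorem circle {μ : Measure X} [IsProbabilityMeasure μ] (S : TS X μ) {γ : ℝ → ℝ → X}
    (hγ : Measurable (Function.uncurry γ)) (hr : ∀ᵐ θ ∂(volume.restrict (Ioo (0 : ℝ) 1)),
      S.IsRay (Complex.exp (((2 * Real.pi * θ : ℝ) : ℂ) * Complex.I)) (γ θ)) (h : C(X, ℝ)) :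
    Tendsto (avN fun t => (∫ θ in (0 : ℝ)..1, (h (γ θ t) - ∫ q, h q ∂μ)) ^ 2) atTop (𝓝 0) := by
  have h1 := circleMS_sum (f := fun (j : ℕ) t => ∫ θ in ((j : ℝ) / 8)..(((j + 1 : ℕ) : ℝ) / 8),
      (h (γ θ t) - ∫ q, h q ∂μ)) 8 fun j hj => by
    have hj' : ((j + 1 : ℕ) : ℝ) ≤ 8 := by exact_mod_cast hj
    have e : (j : ℝ) / 8 = ((j + 1 : ℕ) : ℝ) / 8 - 1 / 8 := by push_cast; ring
    rw [e]
    refine S.circle_sector hγ _ (ae_restrict_of_ae_restrict_of_subset (Ioo_subset_Ioo ?_ ?_) hr) h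
    · rw [← e]; positivity
    · linarith
  refine h1.2.2.congr fun n => ?_
  congr 1
  ext t
  beta_reduce
  rw [intervalIntegral.sum_integral_adjacent_intervals (a := fun j : ℕ => (j : ℝ) / 8)
    (f := fun θ => h (γ θ t) - ∫ q, h q ∂μ) fun k _ => ii_bdd ((h.continuous.measurable.comp
      (hγ.comp (measurable_id.prodMk measurable_const))).sub_const _)
      (M := ‖h‖ + |∫ q, h q ∂μ|)
      (fun θ => (abs_sub _ _).trans (add_le_add_left (h.norm_coe_le_norm _) _)) _ _]
  norm_num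

/-- the translation structure with the unit of length multiplied by `a` -/
noncomputable def circleScale {μ : Measure X} (S : TS X μ) {a : ℝ} (ha : 0 < a) {c : ℝ≥0∞}
    (hc : c * ENNReal.ofReal (a ^ 2) = 1) : TS X (c • μ) where
  Sg := S.Sg
  k := S.k
  Ok x v := S.Ok x (a • v)
  mv x v := S.mv x (a • v)
  ne := S.ne
  conn := S.conn
  dense := S.dense
  null := by simp [S.null]
  mv_zero x := by simp [S.mv_zero]
  junk x v := S.junk x _
  reg x v := S.reg x _
  split x v s t hs ht := by simpa only [smul_comm a] using S.split x (a • v) s t hs ht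
  add x v s t hs ht := by simpa only [smul_comm a] using S.add x (a • v) s t hs ht
  symm x v h := by simpa only [smul_neg] using S.symm x (a • v) h
  loc x hx := by
    obtain ⟨U, hU, h1, h2, h3, h4, h5, h6⟩ := S.loc x hx
    have e : ∀ V : Set ℂ, (fun v => S.mv x (a • v)) '' V = S.mv x '' (a • V) :=
      fun V => (image_image _ _ _).symm
    have hc' : Continuous fun v : ℂ => a • v := by fun_prop
    refine ⟨(fun v => a • v) ⁻¹' U, hc'.continuousAt.preimage_mem_nhds (by simpa using hU),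
      fun y hy => h1 _ hy, fun y hy y' hy' => by simpa only [smul_sub] using h2 _ hy _ hy',
      fun y hy y' hy' h => smul_right_injective ℂ ha.ne' (h3 hy hy' h),
      h4.comp hc'.continuousOn fun y hy => hy, fun V hV hV' => ?_, fun A hA hA' => ?_⟩
    · rw [e]
      exact h5 _ (image_subset_iff.2 hV) (hV'.smul₀ ha.ne')
    · rw [e, Measure.smul_apply, h6 (a • A) (image_subset_iff.2 hA) (hA'.const_smul₀ a),
        Measure.addHaar_smul_of_nonneg _ ha.le, Complex.finrank_real_complex, smul_eq_mul,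
        ← mul_assoc, hc, one_mul]
  cone σ hσ := by
    obtain ⟨U, h1, h2, z, h3, h4, h5, h6, h7⟩ := S.cone σ hσ
    refine ⟨U, h1, h2, fun q => a⁻¹ • z q, h3.const_smul a⁻¹, by simp [h4],
      fun q hq hq' => ⟨(h5 q hq hq').1, smul_ne_zero (inv_ne_zero ha.ne') (h5 q hq hq').2.1, ?_⟩,
      fun w => ?_, h7⟩
    · have : Tendsto (fun v : ℂ => a • v) (𝓝 0) (𝓝 0) :=
        (continuous_const_smul a).tendsto' 0 0 (smul_zero _)
      filter_upwards [this.eventually (h5 q hq hq').2.2] with y hy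
      rw [hy, smul_add, inv_smul_smul₀ ha.ne']
    · refine le_of_eq_of_le ?_ (h6 (a • w))
      congr 2
      ext q
      simp only [mem_preimage, mem_singleton_iff]
      exact inv_smul_eq_iff₀ ha.ne'

lemma circle_any {μ : Measure X} (S : TS X μ) {γ : ℝ → ℝ → X}
    (hγ : Measurable (Function.uncurry γ)) (hr : ∀ᵐ θ ∂(volume.restrict (Ioo (0 : ℝ) 1)),
      S.IsRay (Complex.exp (((2 * Real.pi * θ : ℝ) : ℂ) * Complex.I)) (γ θ)) (h : C(X, ℝ)) :
    CircleMS fun t => ∫ θ in (0 : ℝ)..1, (h (γ θ t) - (∫ q, h q ∂μ) / μ.real univ) := by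
  have := S.isFiniteMeasure
  have h0 := S.measure_pos
  have hA : 0 < μ.real univ := ENNReal.toReal_pos h0 (measure_ne_top _ _)
  have ha : 0 < √(μ.real univ) := Real.sqrt_pos.2 hA
  have hc : (μ univ)⁻¹ * ENNReal.ofReal (√(μ.real univ) ^ 2) = 1 := by
    rw [Real.sq_sqrt hA.le, ofReal_measureReal, ENNReal.inv_mul_cancel h0 (measure_ne_top _ _)]
  have : IsProbabilityMeasure ((μ univ)⁻¹ • μ) :=
    ⟨by rw [Measure.smul_apply, smul_eq_mul, ENNReal.inv_mul_cancel h0 (measure_ne_top _ _)]⟩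
  obtain ⟨m1, m2⟩ := circle_meas hγ h ((∫ q, h q ∂μ) / μ.real univ) 0 1
  refine ⟨m1, ⟨_, m2⟩, circle_rescale (m1.pow_const 2) (fun t => sq_nonneg _)
    (circle_sq_bdd m2) ha ?_⟩
  have := (S.circleScale ha hc).circle (γ := fun θ t => γ θ (√(μ.real univ) * t))
    (hγ.comp (measurable_fst.prodMk (measurable_snd.const_mul _))) (by
      filter_upwards [hr] with θ hθ t ht s hs
      have := hθ _ (mul_pos ha ht) _ (mul_nonneg ha.le hs)
      simpa only [circleScale, smul_smul, mul_add] using this) h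
  rwa [integral_smul_measure, ENNReal.toReal_inv, smul_eq_mul, ← div_eq_inv_mul] at this

/-- weak illumination for abstract translation structures of any area -/
theorem weakly_illuminated {μ : Measure X} (S : TS X μ) {γ : ℝ → ℝ → X}
    (hγ : Measurable (Function.uncurry γ)) (hr : ∀ᵐ θ ∂(volume.restrict (Ioo (0 : ℝ) 1)),
      S.IsRay (Complex.exp (((2 * Real.pi * θ : ℝ) : ℂ) * Complex.I)) (γ θ)) :
    ∃ G : Set ℝ, MeasurableSet G ∧
      Tendsto (fun N : ℝ => (volume (G ∩ Icc (-N) N)).toReal / (2 * N)) atTop (𝓝 1) ∧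
      ∀ h : C(X, ℝ), Tendsto (fun t : ℝ => ∫ θ in (0 : ℝ)..1, h (γ θ t)) (atTop ⊓ 𝓟 G)
        (𝓝 ((∫ q, h q ∂μ) / μ.real univ)) := by
  have := S.isFiniteMeasure
  have hA : 0 < μ.real univ := ENNReal.toReal_pos S.measure_pos (measure_ne_top _ _)
  let m : C(X, ℝ) → ℝ := fun h => (∫ x, h x ∂μ) / μ.real univ
  let B : C(X, ℝ) → ℝ → ℝ := fun h t => ∫ θ in (0 : ℝ)..1, h (γ θ t)
  have il : ∀ h : C(X, ℝ), Integrable h μ := fun h =>
    integrable_bdd h.continuous.measurable h.norm_coe_le_norm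
  have iB : ∀ (h : C(X, ℝ)) (t : ℝ), IntervalIntegrable (fun θ => h (γ θ t)) volume 0 1 :=
    fun h t => ii_bdd (h.continuous.measurable.comp
      (hγ.comp (measurable_id.prodMk measurable_const))) (fun θ => h.norm_coe_le_norm _) _ _
  have hm : ∀ h : C(X, ℝ), |m h| ≤ ‖h‖ := fun h => by
    simp only [m]
    rw [abs_div, abs_of_pos hA, div_le_iff₀ hA]
    exact norm_integral_le_of_norm_le_const (ae_of_all _ h.norm_coe_le_norm)
  have hB : ∀ (h : C(X, ℝ)) t, |B h t| ≤ ‖h‖ := fun h t => by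
    simpa using intervalIntegral.norm_integral_le_of_norm_le_const (a := 0) (b := 1)
      (f := fun θ => h (γ θ t)) fun θ _ => h.norm_coe_le_norm _
  have ms : ∀ h : C(X, ℝ), CircleMS fun t => B h t - m h := fun h => by
    have := S.circle_any hγ hr h
    convert this using 2 with t
    rw [intervalIntegral.integral_sub (iB h t) intervalIntegrable_const,
      intervalIntegral.integral_const, sub_zero, one_smul]
  let s := TopologicalSpace.denseSeq C(X, ℝ)
  obtain ⟨G, g1, g2, g3⟩ := kvn_seq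
    (D := fun i t => (B (s i) t - m (s i)) ^ 2 / (2 * ‖s i‖ + 1) ^ 2)
    (fun i => ((ms _).1.pow_const 2).div_const _) (fun i t => by positivity)
    (fun i t => by
      rw [div_le_one (by positivity), sq_le_sq, abs_of_pos (a := 2 * ‖s i‖ + 1) (by positivity)]
      linarith [abs_sub (B (s i) t) (m (s i)), hm (s i), hB (s i) t])
    (fun i => by
      have := (ms (s i)).2.2.div_const ((2 * ‖s i‖ + 1) ^ 2)
      rw [zero_div] at this
      refine this.congr fun n => ?_
      unfold avN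
      rw [intervalIntegral.integral_div, div_right_comm])
  refine ⟨G, g1, g2, fun h => Metric.tendsto_nhds.2 fun ε hε => ?_⟩
  obtain ⟨i, hi⟩ := (TopologicalSpace.denseRange_denseSeq C(X, ℝ)).exists_dist_lt h
    (show 0 < ε / 3 by linarith)
  rw [dist_eq_norm] at hi
  have h1 : Tendsto (fun t => |B (s i) t - m (s i)|) (atTop ⊓ 𝓟 G) (𝓝 0) := by
    have := ((g3 i).mul_const ((2 * ‖s i‖ + 1) ^ 2)).sqrt
    rw [zero_mul, Real.sqrt_zero] at this
    refine this.congr fun t => ?_
    rw [div_mul_cancel₀ _ (by positivity), Real.sqrt_sq_eq_abs]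
  filter_upwards [h1.eventually_lt_const (show 0 < ε / 3 by linarith)] with t ht
  have e1 : B (h - s i) t = B h t - B (s i) t :=
    intervalIntegral.integral_sub (iB h _) (iB (s i) _)
  have e2 : m (h - s i) = m h - m (s i) := by
    simp only [m]
    rw [← sub_div, ← integral_sub (il h) (il (s i))]
    rfl
  have e3 := abs_le.1 (hB (h - s i) t)
  have e4 := abs_le.1 (hm (h - s i))
  rw [abs_lt] at ht
  show |B h t - m h| < ε
  rw [abs_lt]
  constructor <;> linarith [e3.1, e3.2, e4.1, e4.2, ht.1, ht.2]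

end TS

end Pool.Agent.MP_d0b2d2_an.Gen
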