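import Pool.Agent.MP_d0b2d2_an.Gen.Fan

open MeasureTheory Set Filter Topology Metric

namespace Pool.Agent.MP_d0b2d2_an.Gen.TS

variable {X : Type} [TopologicalSpace X] [T2Space X] [CompactSpace X] [MeasurableSpace X]
  {μ : Measure X} {S : TS X μ}

section Aux

variable {Γ : Finset (X × ℂ)} {x : X} {v p q : ℂ}

lemma claim1_hull {a b c y : ℂ} (hy : y ∈ convexHull ℝ {a, b, c}) :
    ∃ α β γ : ℝ, 0 ≤ α ∧ 0 ≤ β ∧ 0 ≤ γ ∧ α + β + γ = 1 ∧ y = α • a + β • b + γ • c := by
  refine convexHull_min (t := {y | ∃ α β γ : ℝ, 0 ≤ α ∧ 0 ≤ β ∧ 0 ≤ γ ∧ α + β + γ = 1 ∧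
    y = α • a + β • b + γ • c}) ?_ ?_ hy
  · rintro _ (rfl | rfl | rfl)
    · exact ⟨1, 0, 0, by norm_num, le_rfl, le_rfl, by norm_num, by simp⟩
    · exact ⟨0, 1, 0, le_rfl, by norm_num, le_rfl, by norm_num, by simp⟩
    · exact ⟨0, 0, 1, le_rfl, le_rfl, by norm_num, by norm_num, by simp⟩
  · rintro _ ⟨α, β, γ, h1, h2, h3, h4, rfl⟩ _ ⟨α', β', γ', h1', h2', h3', h4', rfl⟩ s t hs ht hst
    refine ⟨s * α + t * α', s * β + t * β', s * γ + t * γ', by positivity, by positivity,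
      by positivity, by linear_combination s * h4 + t * h4' + hst, by module⟩

lemma claim1_coords (hpq : wedge p q ≠ 0) (y : ℂ) : ∃ α β : ℝ, y = α • p + β • q := by
  refine ⟨(wedge p q)⁻¹ * wedge y q, (wedge p q)⁻¹ * wedge p y, ?_⟩
  rw [mul_smul, mul_smul, ← smul_add, ← wedge_smul_eq, smul_smul, inv_mul_cancel₀ hpq, one_smul]

omit [T2Space X] [CompactSpace X] in
lemma claim1_move {y y' : ℂ}
    (h : ∀ α β : ℝ, 0 ≤ α → 0 ≤ β → α + β ≤ 1 → S.Ok x (α • y + β • y')) :
    S.Ok (S.mv x y) (y' - y) ∧ S.mv (S.mv x y) (y' - y) = S.mv x y' := by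
  refine convex_ok (convex_convexHull ℝ {0, y, y'}) (subset_convexHull _ _ (by simp))
    (fun z hz => ?_) y (subset_convexHull _ _ (by simp)) y' (subset_convexHull _ _ (by simp))
  obtain ⟨γ, α, β, h1, h2, h3, h4, rfl⟩ := claim1_hull hz
  rw [smul_zero, zero_add]
  exact h α β h2 h3 (by linarith)

omit [T2Space X] [CompactSpace X] in
lemma claim1_same (hΓ : S.Fam Γ) {c c' : X × ℂ} (hc : c ∈ Γ) (hc' : c' ∈ Γ) {z : X}
    (hz : z ∈ S.seg c.1 c.2) (hz' : z ∈ S.seg c'.1 c'.2) : c = c' := by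
  by_contra h
  exact Set.disjoint_left.1 (hΓ.2 c hc c' hc' h) hz hz'

omit [T2Space X] [CompactSpace X] in
lemma claim1_supp {z : X} : z ∈ S.supp Γ ↔ ∃ c ∈ Γ, z ∈ S.seg c.1 c.2 := by
  simp [supp]

variable (S) in
/-- a triangle containing the origin, regular off the side opposite to `v` -/
structure Claim1Tri (x : X) (v p q : ℂ) : Prop where
  ne : wedge p q ≠ 0
  zero : ∃ α β : ℝ, 0 ≤ α ∧ 0 ≤ β ∧ α + β ≤ 1 ∧ v + α • p + β • q = 0
  ok : ∀ α β : ℝ, 0 ≤ α → 0 ≤ β → α + β < 1 → S.Ok x (v + α • p + β • q)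

omit [T2Space X] [CompactSpace X] in
lemma Claim1Tri.move (T : Claim1Tri S x v p q) {α β α' β' : ℝ} (h1 : 0 ≤ α) (h2 : 0 ≤ β)
    (h3 : α + β ≤ 1) (hok : S.Ok x (v + α • p + β • q)) (h1' : 0 ≤ α') (h2' : 0 ≤ β')
    (h3' : α' + β' < 1) :
    S.Ok (S.mv x (v + α • p + β • q)) ((α' - α) • p + (β' - β) • q) ∧
      S.mv (S.mv x (v + α • p + β • q)) ((α' - α) • p + (β' - β) • q) =
        S.mv x (v + α' • p + β' • q) := by
  have e : (α' - α) • p + (β' - β) • q = (v + α' • p + β' • q) - (v + α • p + β • q) := by module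
  rw [e]
  refine claim1_move fun s t hs ht hst => ?_
  rcases ht.eq_or_lt with rfl | ht'
  · rw [zero_smul, add_zero]
    exact ok_smul hok hs (by linarith)
  · obtain ⟨α₀, β₀, k1, k2, k3, k4⟩ := T.zero
    have hr : 0 ≤ 1 - s - t := by linarith
    have e2 : s • (v + α • p + β • q) + t • (v + α' • p + β' • q) =
        v + (s * α + t * α' + (1 - s - t) * α₀) • p + (s * β + t * β' + (1 - s - t) * β₀) • q := by
      linear_combination (norm := module) (-(1 - s - t)) • k4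
    rw [e2]
    refine T.ok _ _ (by positivity) (by positivity) ?_
    nlinarith [mul_le_mul_of_nonneg_left h3 hs, mul_lt_mul_of_pos_left h3' ht',
      mul_le_mul_of_nonneg_left k3 hr]

omit [T2Space X] [CompactSpace X] in
/-- no edge enters the open triangle if the two near sides are only met by parallel edges -/
lemma Claim1Tri.free (T : Claim1Tri S x v p q) (hΓ : S.Fam Γ)
    (H1 : ∀ α : ℝ, 0 ≤ α → α < 1 → ∀ c ∈ Γ, S.mv x (v + α • p) ∈ S.seg c.1 c.2 → wedge p c.2 = 0)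
    (H2 : ∀ β : ℝ, 0 < β → β < 1 → S.mv x (v + β • q) ∉ S.supp Γ)
    {α β : ℝ} (h1 : 0 < α) (h2 : 0 < β) (h3 : α + β < 1) :
    S.mv x (v + α • p + β • q) ∉ S.supp Γ := by
  intro hm
  obtain ⟨c, hc, hm⟩ := claim1_supp.1 hm
  have H := hΓ.1 c hc
  have key : ∀ a b : ℝ, a + b ≤ 0 → (c.2 = a • p + b • q ∨ c.2 = -(a • p + b • q)) → False := by
    intro a b hab hd
    have hd0 : wedge (a • p + b • q) c.2 = 0 := by
      rcases hd with e | e <;> rw [e]
      · exact wedge_self _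
      · rw [wedge_neg_right, wedge_self, neg_zero]
    have hmv : ∀ r : ℝ, 0 ≤ r → 0 ≤ α + r * a → 0 ≤ β + r * b →
        S.mv x (v + (α + r * a) • p + (β + r * b) • q) ∈ S.seg c.1 c.2 := by
      intro r hr k1 k2
      have := T.move h1.le h2.le h3.le (T.ok α β h1.le h2.le h3) k1 k2
        (by nlinarith [mul_nonneg hr (neg_nonneg.2 hab)])
      rw [← this.2]
      refine H.mv_mem hm this.1 ?_
      rw [show (α + r * a - α) • p + (β + r * b - β) • q = r • (a • p + b • q) by module,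
        wedge_smul_left, hd0, mul_zero]
    by_cases h : b < 0 ∧ 0 ≤ α + β / (-b) * a
    · have hr : 0 ≤ β / (-b) := div_nonneg h2.le (by linarith [h.1])
      have e : β + β / (-b) * b = 0 := by field_simp [h.1.ne]; ring
      have k := hmv _ hr h.2 e.ge
      rw [e, zero_smul, add_zero] at k
      have k2 := H1 _ h.2 (by nlinarith [mul_nonneg hr (neg_nonneg.2 hab)]) c hc k
      have k3 : b * wedge p q = 0 := by
        rcases hd with e | e <;> rw [e] at k2
        · simpa only [wedge_add_right, wedge_smul_right, wedge_self, mul_zero, zero_add] using k2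
        · simpa only [wedge_neg_right, wedge_add_right, wedge_smul_right, wedge_self, mul_zero,
            zero_add, neg_eq_zero] using k2
      exact mul_ne_zero h.1.ne T.ne k3
    · have ha : a < 0 := by
        by_contra ha
        rcases lt_trichotomy b 0 with hb | hb | hb
        · exact h ⟨hb, add_nonneg h1.le (mul_nonneg (div_nonneg h2.le (by linarith))
            (not_lt.1 ha))⟩
        · have : a = 0 := by linarith [not_lt.1 ha]
          refine H.1.reg.2 ?_
          rcases hd with e | e <;> simp [e, this, hb]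
        · linarith [not_lt.1 ha]
      have hr : 0 ≤ α / (-a) := div_nonneg h1.le (by linarith)
      have e : α + α / (-a) * a = 0 := by field_simp [ha.ne]; ring
      have k0 : 0 < β + α / (-a) * b := by
        rcases lt_or_ge b 0 with hb | hb
        · have k := not_le.1 fun k => h ⟨hb, k⟩
          have k1 : α * (-b) + β * a < 0 := by
            have := mul_neg_of_neg_of_pos k (neg_pos.2 hb)
            rwa [show (α + β / (-b) * a) * (-b) = α * (-b) + β * a by
              field_simp [hb.ne]; ring] at this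
          have k2 : (β + α / (-a) * b) * (-a) = -(α * (-b) + β * a) := by
            have := div_mul_cancel₀ α (neg_pos.2 ha).ne'
            linear_combination b * this
          exact (mul_pos_iff_of_pos_right (neg_pos.2 ha)).1 (by rw [k2]; linarith)
        · exact add_pos_of_pos_of_nonneg h2 (mul_nonneg hr hb)
      have k := hmv _ hr e.ge k0.le
      rw [e, zero_smul, add_zero] at k
      exact H2 _ k0 (by nlinarith [mul_nonneg hr (neg_nonneg.2 hab)])
        (claim1_supp.2 ⟨c, hc, k⟩)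
  obtain ⟨a, b, e⟩ := claim1_coords T.ne c.2
  rcases le_total (a + b) 0 with h | h
  · exact key a b h (Or.inl e)
  · exact key (-a) (-b) (by linarith) (Or.inr (by rw [e]; module))

omit [T2Space X] [CompactSpace X] in
/-- an edge through the far side of a free triangle is parallel to it -/
lemma Claim1Tri.far (T : Claim1Tri S x v p q) (hΓ : S.Fam Γ)
    (hf : ∀ α β : ℝ, 0 < α → 0 < β → α + β < 1 → S.mv x (v + α • p + β • q) ∉ S.supp Γ)
    {t : ℝ} (h0 : 0 < t) (h1 : t < 1) (hok : S.Ok x (v + (1 - t) • p + t • q)) {c : X × ℂ}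
    (hc : c ∈ Γ) (hm : S.mv x (v + (1 - t) • p + t • q) ∈ S.seg c.1 c.2) :
    wedge (q - p) c.2 = 0 := by
  have key : ∀ a b : ℝ, a + b < 0 → wedge (a • p + b • q) c.2 = 0 → False := by
    intro a b hab hd
    have t1 : Tendsto (fun r : ℝ => 1 - t + r * a) (𝓝[>] 0) (𝓝 (1 - t)) :=
      (Continuous.tendsto' (by fun_prop) _ _ (by simp)).mono_left nhdsWithin_le_nhds
    have t2 : Tendsto (fun r : ℝ => t + r * b) (𝓝[>] 0) (𝓝 t) :=
      (Continuous.tendsto' (by fun_prop) _ _ (by simp)).mono_left nhdsWithin_le_nhds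
    obtain ⟨r, ⟨k1, k2⟩, k3⟩ := (((t1.eventually_const_lt (sub_pos.2 h1)).and
      (t2.eventually_const_lt h0)).and self_mem_nhdsWithin).exists
    have k4 : 1 - t + r * a + (t + r * b) < 1 := by nlinarith [mul_pos k3 (neg_pos.2 hab)]
    have := T.move (sub_pos.2 h1).le h0.le (by linarith) hok k1.le k2.le k4
    refine hf _ _ k1 k2 k4 (claim1_supp.2 ⟨c, hc, ?_⟩)
    rw [← this.2]
    refine (hΓ.1 c hc).mv_mem hm this.1 ?_
    rw [show (1 - t + r * a - (1 - t)) • p + (t + r * b - t) • q = r • (a • p + b • q) by module,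
      wedge_smul_left, hd, mul_zero]
  obtain ⟨a, b, e⟩ := claim1_coords T.ne c.2
  rcases lt_trichotomy (a + b) 0 with h | h | h
  · exact (key a b h (by rw [← e, wedge_self])).elim
  · rw [e, show a = -b by linarith, show -b • p + b • q = b • (q - p) by module, wedge_smul_right,
      wedge_self, mul_zero]
  · refine (key (-a) (-b) (by linarith) ?_).elim
    rw [show -a • p + -b • q = -(a • p + b • q) by module, ← e, wedge_neg_left, wedge_self,
      neg_zero]

/-- one side of the fan with apex `C` -/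
lemma claim1_side (hΓ : S.Fam Γ) {L R η : ℝ} (hL : ∀ c ∈ Γ, 2 * ‖c.2‖ ≤ L) {x₀ : X} {h : ℂ}
    (H : S.IsSC x₀ h) (hx : x ∈ S.seg x₀ h)
    (hb : ∀ c ∈ Γ, ∀ z ∈ S.seg x₀ h, z ∈ S.seg c.1 c.2 → wedge h c.2 = 0)
    (hη : ∀ c ∈ Γ, wedge h c.2 ≠ 0 → η ≤ 2 * |wedge h c.2|) {K : Set ℂ} (hK : Convex ℝ K)
    (hK0 : 0 ∈ K) (hR : ∀ y ∈ K, ∀ y' ∈ K, ‖y - y'‖ ≤ R) {σ : ℝ} (hu : S.Hit x (σ • h))
    (huK : σ • h ∈ K) {C : ℂ} (hC : S.Hit x C) (hpos : 0 < wedge h C)
    (hfree : ∀ t : ℝ, 0 < t → t < 1 → S.mv x (t • C) ∉ S.supp Γ) (hCK : C ∈ K) :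
    (∃ x' h', S.IsSC x' h' ∧ Disjoint (S.seg x' h') (S.supp Γ) ∧ 2 * ‖h'‖ ≤ R) ∨
    (∃ C', S.Hit x C' ∧ 0 < wedge h C' ∧
      (∀ t : ℝ, 0 < t → t < 1 → S.mv x (t • C') ∉ S.supp Γ) ∧ C' ∈ K ∧
      wedge h C' ≤ wedge h C - η) ∨
    ((∀ α β : ℝ, 0 ≤ α → 0 ≤ β → α + β ≤ 1 → α < 1 → β < 1 → S.Ok x (α • σ • h + β • C)) ∧
      (∀ t : ℝ, 0 < t → t < 1 → S.mv x (σ • h + t • (C - σ • h)) ∈ S.supp Γ) ∧
      ‖C - σ • h‖ ≤ L) := by
  have hσ : σ ≠ 0 := fun e => hu.reg.2 (by rw [e, zero_smul])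
  have hne : wedge (σ • h) C ≠ 0 := by
    rw [wedge_smul_left]; exact mul_ne_zero hσ hpos.ne'
  obtain ⟨s, τ, s0, s1, τ0, τ1, F1, F2, F3, F4⟩ := fan hC hu hne
  obtain ⟨a, ha⟩ : ∃ a, a = s • σ • h := ⟨_, rfl⟩
  rw [← ha] at F2 F3 F4
  have hah : wedge h a = 0 := by rw [ha, wedge_smul_right, wedge_smul_right, wedge_self]; ring
  have F1' : ∀ α β : ℝ, 0 ≤ α → 0 ≤ β → α + β < 1 → S.Ok x (α • a + β • C) := by
    intro α β h1 h2 h3
    have hβ : 0 < 1 - β := by linarith
    have := F1 (α / (1 - β) * s) β (by positivity)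
      (mul_lt_of_lt_one_left s0 ((div_lt_one hβ).2 (by linarith))) h2 (by linarith)
    convert this using 1
    rw [ha]
    match_scalars <;> field_simp
    ring
  have T : Claim1Tri S x 0 a C :=
    ⟨by rw [ha, wedge_smul_left]; exact mul_ne_zero s0.ne' hne,
      ⟨0, 0, le_rfl, le_rfl, by norm_num, by simp⟩,
      fun α β h1 h2 h3 => by rw [zero_add]; exact F1' α β h1 h2 h3⟩
  have hf : ∀ α β : ℝ, 0 < α → 0 < β → α + β < 1 → S.mv x (0 + α • a + β • C) ∉ S.supp Γ := by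
    refine fun α β => T.free hΓ (fun α h1 h2 c hc hm => ?_) fun β h1 h2 => ?_
    · rw [zero_add] at hm
      have k := F1' α 0 h1 le_rfl (by linarith)
      rw [zero_smul, add_zero] at k
      have := hb c hc _ (H.mv_mem hx k (by
        rw [wedge_smul_left, wedge_comm, hah]; ring)) hm
      rw [ha, wedge_smul_left, wedge_smul_left, this]; ring
    · rw [zero_add]; exact hfree β h1 h2
  have hτ : 0 < 1 - τ := by linarith
  have hseg : ∀ r : ℝ, |r| < 1 →
      S.mv (S.mv x (a + ((1 + τ) / 2) • (C - a))) (r • ((1 - τ) / 2) • (C - a)) =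
        S.mv x (a + ((1 + τ) / 2 + r * ((1 - τ) / 2)) • (C - a)) := by
    intro r hr
    obtain ⟨r1, r2⟩ := abs_lt.1 hr
    have k := (claim1_move (S := S) (x := x) (y := a + ((1 + τ) / 2) • (C - a))
      (y' := a + ((1 + τ) / 2 + r * ((1 - τ) / 2)) • (C - a)) fun α β h1 h2 h3 => ?_).2
    · rw [← k]
      congr 1
      module
    · have m1 : τ < (1 + τ) / 2 := by linarith
      have m2 : (1 + τ) / 2 < 1 := by linarith
      have m3 : τ < (1 + τ) / 2 + r * ((1 - τ) / 2) := by nlinarith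
      have m4 : (1 + τ) / 2 + r * ((1 - τ) / 2) < 1 := by nlinarith
      generalize (1 + τ) / 2 + r * ((1 - τ) / 2) = t' at m3 m4
      generalize (1 + τ) / 2 = t at m1 m2
      rcases h3.eq_or_lt with h3 | h3
      · have k := convex_Ioo τ 1 ⟨m1, m2⟩ ⟨m3, m4⟩ h1 h2 h3
        convert F2 (α * t + β * t') k.1 k.2 using 1
        linear_combination (norm := module) h3 • a
      · have := F1' (α * (1 - t) + β * (1 - t')) (α * t + β * t')
          (add_nonneg (mul_nonneg h1 (by linarith)) (mul_nonneg h2 (by linarith)))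
          (add_nonneg (mul_nonneg h1 (by linarith)) (mul_nonneg h2 (by linarith))) (by linarith)
        convert this using 1
        module
  have haK : a ∈ K := by
    rw [ha]; exact hK.smul_mem_of_zero_mem hK0 huK ⟨s0.le, s1⟩
  have hPK : a + τ • (C - a) ∈ K := hK.add_smul_sub_mem haK hCK ⟨τ0, τ1.le⟩
  have hg : C - (a + τ • (C - a)) = (2 : ℝ) • ((1 - τ) / 2) • (C - a) := by module
  by_cases hd : Disjoint (S.seg (S.mv x (a + ((1 + τ) / 2) • (C - a))) (((1 - τ) / 2) • (C - a)))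
      (S.supp Γ)
  · refine Or.inl ⟨_, _, F4, hd, ?_⟩
    have := hR _ hCK _ hPK
    rwa [hg, norm_smul, Real.norm_two] at this
  obtain ⟨z, hz, hz'⟩ := Set.not_disjoint_iff.1 hd
  obtain ⟨c, hc, hz'⟩ := claim1_supp.1 hz'
  have hpar : wedge (C - a) c.2 = 0 := by
    obtain ⟨r, hr, rfl⟩ := hz
    rw [hseg r hr] at hz'
    obtain ⟨r1, r2⟩ := abs_lt.1 hr
    have m3 : τ < (1 + τ) / 2 + r * ((1 - τ) / 2) := by nlinarith
    have m4 : (1 + τ) / 2 + r * ((1 - τ) / 2) < 1 := by nlinarith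
    generalize (1 + τ) / 2 + r * ((1 - τ) / 2) = t at m3 m4 hz'
    have e : a + t • (C - a) = 0 + (1 - t) • a + t • C := by module
    have k := F2 t m3 m4
    rw [e] at k hz'
    exact T.far hΓ hf (by linarith) m4 k hc hz'
  obtain ⟨e1, e2⟩ := F4.eq_of_parallel (hΓ.1 c hc) (Set.not_disjoint_iff.2 ⟨z, hz, hz'⟩)
    (by rw [wedge_smul_left, hpar, mul_zero])
  have hw : |wedge h c.2| = (1 - τ) / 2 * wedge h C := by
    have : wedge h (((1 - τ) / 2) • (C - a)) = (1 - τ) / 2 * wedge h C := by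
      rw [wedge_smul_right, wedge_sub_right, hah, sub_zero]
    rcases e2 with e | e <;> rw [e]
    · rw [this, abs_of_pos (by positivity)]
    · rw [wedge_neg_right, abs_neg, this, abs_of_pos (by positivity)]
  have hwP : wedge h (a + τ • (C - a)) = τ * wedge h C := by
    rw [wedge_add_right, wedge_smul_right, wedge_sub_right, hah]; ring
  rcases τ0.eq_or_lt with rfl | τ0'
  · refine Or.inr (Or.inr ?_)
    rw [zero_smul, add_zero, ha] at F3
    obtain rfl : s = 1 := F3.eq_of_smul s0 one_pos (by rwa [one_smul])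
    rw [one_smul] at ha
    rw [← ha]
    refine ⟨fun α β h1 h2 h3 h4 h5 => ?_, fun t h1 h2 => claim1_supp.2 ⟨c, hc, ?_⟩, ?_⟩
    · rcases h3.eq_or_lt with h3 | h3
      · convert F2 β (by linarith) h5 using 1
        linear_combination (norm := module) h3 • a
      · exact F1' α β h1 h2 h3
    · have k : S.mv x (a + t • (C - a)) ∈
          S.seg (S.mv x (a + ((1 + 0) / 2 : ℝ) • (C - a))) (((1 - 0) / 2 : ℝ) • (C - a)) := by
        refine ⟨2 * t - 1, abs_lt.2 ⟨by linarith, by linarith⟩, ?_⟩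
        rw [hseg _ (abs_lt.2 ⟨by linarith, by linarith⟩)]
        congr 3
        ring
      rcases e2 with e | e <;> rw [e1, e]
      · exact k
      · rwa [seg_neg]
    · have k := hL c hc
      have : ‖c.2‖ = ‖((1 - 0) / 2 : ℝ) • (C - a)‖ := by
        rcases e2 with e | e <;> rw [e]
        rw [norm_neg]
      rw [this, norm_smul, Real.norm_eq_abs, abs_of_pos (by norm_num)] at k
      linarith
  · refine Or.inr (Or.inl ⟨_, F3, by rw [hwP]; positivity, fun t h1 h2 => ?_, hPK, ?_⟩)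
    · have := hf (t * (1 - τ)) (t * τ) (by positivity) (by positivity) (by linarith)
      rwa [show t • (a + τ • (C - a)) = 0 + (t * (1 - τ)) • a + (t * τ) • C by module]
    · have := hη c hc (abs_pos.1 (by rw [hw]; positivity))
      rw [hwP]
      linarith

/-- a hit whose open segment does not meet the family -/
lemma claim1_start (hΓ : S.Fam Γ) {L : ℝ} (hL : ∀ c ∈ Γ, 2 * ‖c.2‖ ≤ L) (hL0 : 0 ≤ L) {h : ℂ}
    (hb : ∀ c ∈ Γ, x ∈ S.seg c.1 c.2 → c.2 = h ∨ c.2 = -h) {w : ℂ} (hw : S.Hit x w)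
    (hpos : 0 < wedge h w) : ∃ C, S.Hit x C ∧ 0 < wedge h C ∧
      (∀ t : ℝ, 0 < t → t < 1 → S.mv x (t • C) ∉ S.supp Γ) ∧ ‖C‖ ≤ ‖w‖ + L := by
  have hb' : ∀ y, 0 < wedge h y → ∀ c ∈ Γ, x ∈ S.seg c.1 c.2 → wedge y c.2 ≠ 0 := by
    intro y hy c hc hx
    rcases hb c hc hx with e | e <;> rw [e]
    · rw [wedge_comm]; linarith
    · rw [wedge_neg_right, wedge_comm]; linarith
  by_cases hfree : ∀ t : ℝ, 0 < t → t < 1 → S.mv x (t • w) ∉ S.supp Γ
  · exact ⟨w, hw, hpos, hfree, by linarith⟩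
  push Not at hfree
  obtain ⟨t₀, k0, k1, k2⟩ := hfree
  obtain ⟨t, t0, t1, ⟨c₁, hc₁, hm, hne⟩, hfree⟩ :=
    first_meet hΓ.1 k0 (hw.2 t₀ k0.le k1) k2 (hb' w hpos)
  obtain ⟨g, hg, hg0⟩ : ∃ g, (g = c₁.2 ∨ g = -c₁.2) ∧ 0 ≤ wedge h g := by
    rcases le_total 0 (wedge h c₁.2) with k | k
    · exact ⟨_, Or.inl rfl, k⟩
    · exact ⟨_, Or.inr rfl, by rw [wedge_neg_right]; linarith⟩
  have G : S.IsSC c₁.1 g := by
    rcases hg with e | e <;> rw [e]
    · exact hΓ.1 c₁ hc₁
    · exact (hΓ.1 c₁ hc₁).neg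
  have hsg : S.seg c₁.1 g = S.seg c₁.1 c₁.2 := by
    rcases hg with e | e <;> rw [e]
    rw [seg_neg]
  have hgn : ‖g‖ = ‖c₁.2‖ := by
    rcases hg with e | e <;> rw [e]
    rw [norm_neg]
  have hgc : wedge g c₁.2 = 0 := by
    rcases hg with e | e <;> rw [e]
    · exact wedge_self _
    · rw [wedge_neg_left, wedge_self, neg_zero]
  have hwg : wedge w g ≠ 0 := by
    rcases hg with e | e <;> rw [e]
    · exact hne
    · rw [wedge_neg_right]; exact neg_ne_zero.2 hne
  obtain ⟨r, hr, hre⟩ : S.mv x (t • w) ∈ S.seg c₁.1 g := by rwa [hsg]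
  obtain ⟨r1, r2⟩ := abs_lt.1 hr
  have hit := (G.hit_end hr).1
  rw [← hre] at hit
  obtain ⟨a, ha⟩ : ∃ a, a = t • w := ⟨_, rfl⟩
  obtain ⟨u, hu⟩ : ∃ u, u = (1 - r) • g := ⟨_, rfl⟩
  rw [← ha] at hm hit
  rw [← hu] at hit
  have hoka : S.Ok x a := ha ▸ hw.2 t t0.le (by linarith)
  have hN : IsCompact (Icc (0 : ℝ) 1 ∩ {s | ¬ S.Ok x (a + s • u)}) :=
    isCompact_Icc.inter_right (((isOpen_ok_right (S := S) x).preimage
      (show Continuous fun s : ℝ => a + s • u by fun_prop)).isClosed_compl)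
  have hN' : (Icc (0 : ℝ) 1 ∩ {s | ¬ S.Ok x (a + s • u)}).Nonempty := by
    by_contra hn
    have k : ∀ s : ℝ, 0 ≤ s → s ≤ 1 → S.Ok x (a + s • u) := fun s h1 h2 => by
      by_contra h3
      exact hn ⟨s, ⟨h1, h2⟩, h3⟩
    refine hit.1 ?_
    have := (claim1_move (S := S) (x := x) (y := a) (y' := a + u) fun α β h1 h2 h3 => ?_).1
    · rwa [add_sub_cancel_left] at this
    · rcases (add_nonneg h1 h2).eq_or_lt with e | e
      · rw [show α = 0 by linarith, show β = 0 by linarith]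
        simpa using ok_smul hoka le_rfl zero_le_one
      · convert ok_smul (k (β / (α + β)) (by positivity)
          ((div_le_one e).2 (by linarith))) e.le h3 using 1
        match_scalars <;> field_simp
  obtain ⟨s, ⟨⟨s0, s1⟩, hs⟩, hmin⟩ := hN.exists_isLeast hN'
  have s0' : 0 < s := by
    refine s0.lt_of_ne fun e => hs ?_
    rwa [← e, zero_smul, add_zero]
  have hlt : ∀ s' : ℝ, 0 ≤ s' → s' < s → S.Ok x (a + s' • u) := fun s' h1 h2 => by
    by_contra h3
    exact absurd (hmin ⟨⟨h1, by linarith⟩, h3⟩) (not_le.2 h2)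
  obtain ⟨ρ, ρ0, ρ1, hρ⟩ := exists_hit hw.reg.1 hs
  have hhb : 0 < wedge h (a + s • u) := by
    rw [ha, hu, wedge_add_right, wedge_smul_right, wedge_smul_right, wedge_smul_right]
    exact add_pos_of_pos_of_nonneg (mul_pos t0 hpos)
      (mul_nonneg s0 (mul_nonneg (by linarith) hg0))
  have T : Claim1Tri S x a (s • u) (-a) := by
    refine ⟨?_, ⟨0, 1, le_rfl, zero_le_one, by norm_num, by simp⟩, fun α β h1 h2 h3 => ?_⟩
    · rw [ha, hu, wedge_neg_right, wedge_smul_left, wedge_smul_left, wedge_smul_right, wedge_comm]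
      exact neg_ne_zero.2 (mul_ne_zero s0'.ne' (mul_ne_zero (by linarith)
        (mul_ne_zero t0.ne' (neg_ne_zero.2 hwg))))
    · have hβ : 0 < 1 - β := by linarith
      convert ok_smul (hlt (α / (1 - β) * s) (by positivity)
        (mul_lt_of_lt_one_left s0' ((div_lt_one hβ).2 (by linarith)))) hβ.le (by linarith) using 1
      match_scalars <;> field_simp
      ring
  have huc : wedge u c₁.2 = 0 := by rw [hu, wedge_smul_left, hgc, mul_zero]
  have hf : ∀ α β : ℝ, 0 < α → 0 < β → α + β < 1 →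
      S.mv x (a + α • s • u + β • -a) ∉ S.supp Γ := by
    refine fun α β => T.free hΓ (fun α h1 h2 c hc hm' => ?_) fun β h1 h2 => ?_
    · have k := T.move le_rfl le_rfl (by norm_num) (by simpa using hoka) h1 le_rfl (by linarith)
      simp only [zero_smul, add_zero, sub_zero] at k
      have k2 := (hΓ.1 c₁ hc₁).mv_mem hm k.1 (by
        rw [wedge_smul_left, wedge_smul_left, huc]; ring)
      rw [k.2] at k2
      rw [claim1_same hΓ hc hc₁ hm' k2, wedge_smul_left, huc, mul_zero]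
    · rw [show a + β • -a = ((1 - β) * t) • w by rw [ha]; module]
      exact hfree ((1 - β) * t) (mul_pos (by linarith) t0)
        (mul_lt_of_lt_one_left t0 (by linarith))
  refine ⟨_, hρ, by rw [wedge_smul_right]; positivity, fun l l0 l1 hm' => ?_, ?_⟩
  · obtain ⟨c, hc, hm'⟩ := claim1_supp.1 hm'
    have hok := hρ.2 l l0.le l1
    have m0 : 0 < l * ρ := by positivity
    have m1 : l * ρ < 1 := by nlinarith
    have e : l • ρ • (a + s • u) = a + (1 - (1 - l * ρ)) • s • u + (1 - l * ρ) • -a := by module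
    have k := T.far hΓ hf (t := 1 - l * ρ) (by linarith) (by linarith) (e ▸ hok) hc (e ▸ hm')
    rw [show -a - s • u = -(a + s • u) by module, wedge_neg_left, neg_eq_zero] at k
    have k2 := (hΓ.1 c hc).mv_mem hm' (ok_symm hok).1 (by
      rw [wedge_neg_left, wedge_smul_left, wedge_smul_left, k]; ring)
    rw [(ok_symm hok).2] at k2
    exact hb' _ hhb c hc k2 k
  · have n1 : ‖a‖ ≤ ‖w‖ := by
      rw [ha, norm_smul, Real.norm_eq_abs, abs_of_pos t0]
      exact mul_le_of_le_one_left (norm_nonneg _) (by linarith)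
    have n2 : ‖u‖ ≤ L := by
      rw [hu, norm_smul, Real.norm_eq_abs, abs_of_pos (by linarith), hgn]
      nlinarith [hL c₁ hc₁, norm_nonneg c₁.2]
    have n3 : ‖s • u‖ ≤ ‖u‖ := by
      rw [norm_smul, Real.norm_eq_abs, abs_of_pos s0']
      exact mul_le_of_le_one_left (norm_nonneg _) s1
    rw [norm_smul, Real.norm_eq_abs, abs_of_pos ρ0]
    exact (mul_le_of_le_one_left (norm_nonneg _) ρ1).trans
      ((norm_add_le _ _).trans (by linarith))

end Aux

/-- the new-edge lemma -/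
theorem claim1 {Γ : Finset (X × ℂ)} (hΓ : S.Fam Γ) {L : ℝ} (hL : ∀ c ∈ Γ, 2 * ‖c.2‖ ≤ L) {x₀ : X}
    {h : ℂ} (hc : (x₀, h) ∈ Γ ∨ (x₀, -h) ∈ Γ) {s : ℝ} (hs : |s| < 1) {w : ℂ}
    (hw : S.Hit (S.mv x₀ (s • h)) w) (hpos : 0 < wedge h w) :
    S.Filled Γ L x₀ h ∨ ∃ x' h', S.IsSC x' h' ∧ Disjoint (S.seg x' h') (S.supp Γ) ∧
      2 * ‖h'‖ ≤ ‖w‖ + 2 * L := by
  have H : S.IsSC x₀ h := by
    rcases hc with hc | hc
    · exact hΓ.1 _ hc
    · simpa using (hΓ.1 _ hc).neg
  have hb0 : ∀ c ∈ Γ, ∀ z ∈ S.seg x₀ h, z ∈ S.seg c.1 c.2 → c.2 = h ∨ c.2 = -h := by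
    intro c hc' z hz hz'
    rcases hc with hc | hc
    · exact Or.inl (congrArg Prod.snd (claim1_same hΓ hc' hc hz' hz))
    · exact Or.inr (congrArg Prod.snd (claim1_same hΓ hc' hc hz' (by rwa [seg_neg])))
  have hb : ∀ c ∈ Γ, ∀ z ∈ S.seg x₀ h, z ∈ S.seg c.1 c.2 → wedge h c.2 = 0 := by
    intro c hc' z hz hz'
    rcases hb0 c hc' z hz hz' with e | e <;> rw [e]
    · exact wedge_self _
    · rw [wedge_neg_right, wedge_self, neg_zero]
  have hh : 2 * ‖h‖ ≤ L := by
    rcases hc with hc | hc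
    · exact hL _ hc
    · simpa using hL _ hc
  have hL0 : 0 ≤ L := le_trans (by positivity) hh
  have hx : S.mv x₀ (s • h) ∈ S.seg x₀ h := ⟨s, hs, rfl⟩
  obtain ⟨hB, hA⟩ := H.hit_end hs
  obtain ⟨s1, s2⟩ := abs_lt.1 hs
  obtain ⟨η, η0, hη⟩ : ∃ η > 0, ∀ c ∈ Γ, wedge h c.2 ≠ 0 → η ≤ 2 * |wedge h c.2| := by
    have : ∀ᶠ η in 𝓝[>] (0 : ℝ), ∀ c ∈ Γ, wedge h c.2 ≠ 0 → η ≤ 2 * |wedge h c.2| := by
      refine (eventually_all_finset Γ).2 fun c _ => ?_
      by_cases k : wedge h c.2 = 0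
      · exact Eventually.of_forall fun η k' => absurd k k'
      · filter_upwards [Ioc_mem_nhdsGT (show 0 < 2 * |wedge h c.2| by positivity)] with η hη _
        exact hη.2
    obtain ⟨η, k1, k2⟩ := (this.and self_mem_nhdsWithin).exists
    exact ⟨η, k2, k1⟩
  obtain ⟨p, p1, p2, p3, p4⟩ := claim1_start hΓ hL hL0 (fun c hc' => hb0 c hc' _ hx) hw hpos
  have nA : ‖(-1 - s) • h‖ ≤ L := by
    rw [norm_smul, Real.norm_eq_abs, abs_of_neg (by linarith)]
    nlinarith [norm_nonneg h]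
  have nB : ‖(1 - s) • h‖ ≤ L := by
    rw [norm_smul, Real.norm_eq_abs, abs_of_pos (by linarith)]
    nlinarith [norm_nonneg h]
  obtain ⟨K, hK, hAK, hBK, hpK, hR⟩ : ∃ K : Set ℂ, Convex ℝ K ∧ (-1 - s) • h ∈ K ∧
      (1 - s) • h ∈ K ∧ p ∈ K ∧ ∀ y ∈ K, ∀ y' ∈ K, ‖y - y'‖ ≤ ‖w‖ + 2 * L := by
    refine ⟨convexHull ℝ {(-1 - s) • h, (1 - s) • h, p}, convex_convexHull _ _,
      subset_convexHull _ _ (by simp), subset_convexHull _ _ (by simp),
      subset_convexHull _ _ (by simp), fun y hy y' hy' => ?_⟩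
    obtain ⟨z, hz, z', hz', k⟩ := convexHull_exists_dist_ge2 hy hy'
    rw [dist_eq_norm, dist_eq_norm] at k
    refine k.trans ?_
    have := norm_nonneg w
    rcases hz with rfl | rfl | rfl <;> rcases hz' with rfl | rfl | rfl <;>
      first
      | (rw [sub_self, norm_zero]; positivity)
      | exact (norm_sub_le _ _).trans (by linarith)
  have hK0 : (0 : ℂ) ∈ K := by
    convert hK hAK hBK (show 0 ≤ (1 - s) / 2 by linarith) (show 0 ≤ (1 + s) / 2 by linarith)
      (by ring) using 1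
    module
  have main : ∀ n : ℕ, ∀ C, S.Hit (S.mv x₀ (s • h)) C → 0 < wedge h C →
      (∀ t : ℝ, 0 < t → t < 1 → S.mv (S.mv x₀ (s • h)) (t • C) ∉ S.supp Γ) → C ∈ K →
      wedge h C ≤ n * η → S.Filled Γ L x₀ h ∨ ∃ x' h', S.IsSC x' h' ∧
        Disjoint (S.seg x' h') (S.supp Γ) ∧ 2 * ‖h'‖ ≤ ‖w‖ + 2 * L := by
    intro n
    induction n with
    | zero => intro C _ c2 _ _ c5; simp at c5; linarith
    | succ n ih =>
      intro C c1 c2 c3 c4 c5
      push_cast at c5
      rcases claim1_side hΓ hL H hx hb hη hK hK0 hR hA hAK c1 c2 c3 c4 with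
        k | ⟨C', d1, d2, d3, d4, d5⟩ | ⟨a1, a2, a3⟩
      · exact Or.inr k
      · exact ih C' d1 d2 d3 d4 (by linarith)
      rcases claim1_side hΓ hL H hx hb hη hK hK0 hR hB hBK c1 c2 c3 c4 with
        k | ⟨C', d1, d2, d3, d4, d5⟩ | ⟨b1, b2, -⟩
      · exact Or.inr k
      · exact ih C' d1 d2 d3 d4 (by linarith)
      refine Or.inl ⟨s, C, hs, c2, ?_, c1, fun y hy y1 y2 y3 => ?_,
        fun t t0 t1 => ⟨a2 t t0 t1, b2 t t0 t1⟩⟩
      · have := norm_add_le (C - (-1 - s) • h) ((-1 - s) • h)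
        rw [sub_add_cancel] at this
        linarith
      · obtain ⟨α, β, γ, h1, h2, h3, h4, rfl⟩ := claim1_hull hy
        have hγ : γ < 1 := by
          refine (show γ ≤ 1 by linarith).lt_of_ne fun e => y3 ?_
          rw [show α = 0 by linarith, show β = 0 by linarith, e]; simp
        have p1 : 0 < 1 + s := by linarith
        have p2 : 0 < 1 - s := by linarith
        rcases le_total (β * (1 - s)) (α * (1 + s)) with k | k
        · have k1 : 0 ≤ β * (1 - s) / (1 + s) := by positivity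
          have k2 : β * (1 - s) / (1 + s) ≤ α := (div_le_iff₀ p1).2 k
          have k3 : α < 1 := by
            refine (show α ≤ 1 by linarith).lt_of_ne fun e => y1 ?_
            rw [show γ = 0 by linarith, show β = 0 by linarith, e]; simp
          convert a1 (α - β * (1 - s) / (1 + s)) γ (by linarith) h3 (by linarith) (by linarith)
            hγ using 1
          match_scalars <;> field_simp
          ring
        · have k1 : 0 ≤ α * (1 + s) / (1 - s) := by positivity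
          have k2 : α * (1 + s) / (1 - s) ≤ β := (div_le_iff₀ p2).2 k
          have k3 : β < 1 := by
            refine (show β ≤ 1 by linarith).lt_of_ne fun e => y2 ?_
            rw [show γ = 0 by linarith, show α = 0 by linarith, e]; simp
          convert b1 (β - α * (1 + s) / (1 - s)) γ (by linarith) h3 (by linarith) (by linarith)
            hγ using 1
          match_scalars <;> field_simp
          ring
  obtain ⟨n, hn⟩ := exists_nat_ge (wedge h p / η)
  exact main n p p1 p2 p3 hpK ((div_le_iff₀ η0).1 hn)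

omit [T2Space X] [CompactSpace X] in
open Classical in
theorem Fam.insert {Γ : Finset (X × ℂ)} (hΓ : S.Fam Γ) {x' : X} {h' : ℂ} (H : S.IsSC x' h')
    (hd : Disjoint (S.seg x' h') (S.supp Γ)) :
    S.Fam (insert (x', h') Γ) ∧ (insert (x', h') Γ).card = Γ.card + 1 := by
  have hd' : ∀ c ∈ Γ, Disjoint (S.seg x' h') (S.seg c.1 c.2) := fun c hc =>
    hd.mono_right fun z hz => claim1_supp.2 ⟨c, hc, hz⟩
  refine ⟨⟨fun c hc => ?_, fun c hc c' hc' hne => ?_⟩, Finset.card_insert_of_notMem fun hm =>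
    Set.disjoint_left.1 (hd' _ hm) (S.self_mem_seg x' h') (S.self_mem_seg x' h')⟩
  · rcases Finset.mem_insert.1 hc with rfl | hc
    · exact H
    · exact hΓ.1 c hc
  · rcases Finset.mem_insert.1 hc with rfl | hc <;> rcases Finset.mem_insert.1 hc' with rfl | hc'
    · exact absurd rfl hne
    · exact hd' c' hc'
    · exact (hd' c hc).symm
    · exact hΓ.2 c hc c' hc' hne

end Pool.Agent.MP_d0b2d2_an.Gen.TS
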