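import Pool.Agent.MP_d0b2d2_an.Gen.Fan
import Pool.Agent.MP_d0b2d2_an.Gen.Api3

open MeasureTheory Set Filter Topology Metric

namespace Pool.Agent.MP_d0b2d2_an.Gen

/-- signed area of the triangle `A B y`, doubled -/
def claim2Lam (A B y : ℂ) : ℝ := wedge (B - A) (y - A)

/-- the closed triangle -/
def claim2Tri (A B C : ℂ) : Set ℂ :=
  {y | 0 ≤ claim2Lam A B y ∧ 0 ≤ claim2Lam B C y ∧ 0 ≤ claim2Lam C A y}

/-- the triangle without its vertices -/
def claim2TriO (A B C : ℂ) : Set ℂ :=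
  {y | y ∈ claim2Tri A B C ∧ claim2Lam A B y < claim2Lam A B C ∧
    claim2Lam B C y < claim2Lam A B C ∧ claim2Lam C A y < claim2Lam A B C}

section Plane

variable {A B C y : ℂ}

lemma claim2_cyc (A B C : ℂ) : claim2Lam B C A = claim2Lam A B C := by
  simp [claim2Lam, wedge]; ring

lemma claim2_sum (A B C y : ℂ) :
    claim2Lam A B y + claim2Lam B C y + claim2Lam C A y = claim2Lam A B C := by
  simp [claim2Lam, wedge]; ring

lemma claim2_bary (A B C y : ℂ) : claim2Lam A B C • y =
    claim2Lam B C y • A + claim2Lam C A y • B + claim2Lam A B y • C := by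
  apply Complex.ext <;> simp [claim2Lam, wedge] <;> ring

lemma claim2_left (A B : ℂ) : claim2Lam A B A = 0 := by simp [claim2Lam, wedge]

lemma claim2_right (A B : ℂ) : claim2Lam A B B = 0 := by simp [claim2Lam, wedge]; ring

lemma claim2_add (A B y d : ℂ) : claim2Lam A B (y + d) = claim2Lam A B y + wedge (B - A) d := by
  simp [claim2Lam, wedge]; ring

lemma claim2_cont (A B : ℂ) : Continuous (claim2Lam A B) := by
  unfold claim2Lam wedge; fun_prop

lemma claim2_comb (A B y y' : ℂ) {a b : ℝ} (h : a + b = 1) :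
    claim2Lam A B (a • y + b • y') = a * claim2Lam A B y + b * claim2Lam A B y' := by
  obtain rfl : b = 1 - a := by linarith
  simp [claim2Lam, wedge]; ring

lemma claim2_convex_ge (A B : ℂ) : Convex ℝ {y | 0 ≤ claim2Lam A B y} :=
  fun y hy y' hy' a b ha hb h => by
    rw [mem_ofPred_eq, claim2_comb A B y y' h]
    exact add_nonneg (mul_nonneg ha hy) (mul_nonneg hb hy')

lemma claim2_convex_lt (A B : ℂ) (r : ℝ) : Convex ℝ {y | claim2Lam A B y < r} :=
  fun y hy y' hy' a b ha hb h => by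
    rw [mem_ofPred_eq, claim2_comb A B y y' h]
    exact (convex_Iio r) hy hy' ha hb h

lemma claim2_tri_cyc (A B C : ℂ) : claim2Tri B C A = claim2Tri A B C := by
  ext y; simp only [claim2Tri, mem_ofPred_eq]; tauto

lemma claim2_triO_cyc (A B C : ℂ) : claim2TriO B C A = claim2TriO A B C := by
  ext y; simp only [claim2TriO, mem_ofPred_eq, claim2_tri_cyc A B C, claim2_cyc A B C]; tauto

lemma claim2_convex_tri (A B C : ℂ) : Convex ℝ (claim2Tri A B C) :=
  (claim2_convex_ge A B).inter ((claim2_convex_ge B C).inter (claim2_convex_ge C A))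

lemma claim2_convex_triO (A B C : ℂ) : Convex ℝ (claim2TriO A B C) :=
  (claim2_convex_tri A B C).inter ((claim2_convex_lt A B _).inter
    ((claim2_convex_lt B C _).inter (claim2_convex_lt C A _)))

lemma claim2_closed_tri (A B C : ℂ) : IsClosed (claim2Tri A B C) :=
  (isClosed_le continuous_const (claim2_cont A B)).inter
    ((isClosed_le continuous_const (claim2_cont B C)).inter
      (isClosed_le continuous_const (claim2_cont C A)))

lemma claim2_meas_triO (A B C : ℂ) : MeasurableSet (claim2TriO A B C) :=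
  (claim2_closed_tri A B C).measurableSet.inter
    ((isOpen_lt (claim2_cont A B) continuous_const).inter
      ((isOpen_lt (claim2_cont B C) continuous_const).inter
        (isOpen_lt (claim2_cont C A) continuous_const))).measurableSet

lemma claim2_eq (hD : 0 < claim2Lam A B C) (y : ℂ) :
    y = (claim2Lam B C y / claim2Lam A B C) • A + (claim2Lam C A y / claim2Lam A B C) • B +
      (claim2Lam A B y / claim2Lam A B C) • C := by
  have := congrArg (fun z => (claim2Lam A B C)⁻¹ • z) (claim2_bary A B C y)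
  simp only [smul_add, smul_smul, inv_mul_cancel₀ hD.ne', one_smul] at this
  simpa only [div_eq_inv_mul] using this

lemma claim2_sub (hD : 0 < claim2Lam A B C) {D : Set ℂ} (hc : Convex ℝ D) (ha : A ∈ D)
    (hb : B ∈ D) (hC : C ∈ D) : claim2Tri A B C ⊆ D := fun y hy => by
  have := hc.sum_mem (t := (Finset.univ : Finset (Fin 3)))
    (w := ![claim2Lam B C y / claim2Lam A B C, claim2Lam C A y / claim2Lam A B C,
      claim2Lam A B y / claim2Lam A B C]) (z := ![A, B, C])
    (fun i _ => by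
      fin_cases i
      exacts [div_nonneg hy.2.1 hD.le, div_nonneg hy.2.2 hD.le, div_nonneg hy.1 hD.le])
    (by
      simp only [Fin.sum_univ_three, Matrix.cons_val_zero, Matrix.cons_val_one, Matrix.cons_val]
      rw [← add_div, ← add_div, div_eq_one_iff_eq hD.ne']
      linarith [claim2_sum A B C y])
    (fun i _ => by fin_cases i; exacts [ha, hb, hC])
  simp only [Fin.sum_univ_three, Matrix.cons_val_zero, Matrix.cons_val_one, Matrix.cons_val] at this
  rwa [← claim2_eq hD y] at this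

lemma claim2_ne (hy : y ∈ claim2TriO A B C) : y ≠ A ∧ y ≠ B ∧ y ≠ C := by
  refine ⟨?_, ?_, ?_⟩ <;> rintro rfl
  · exact hy.2.2.1.ne (claim2_cyc _ _ _)
  · exact hy.2.2.2.ne ((claim2_cyc _ _ _).symm)
  · exact hy.2.1.ne rfl

/-- the triangle spanned by two points of the vertex-free triangle and a vertex -/
lemma claim2_hull (hD : 0 < claim2Lam A B C) {y' : ℂ} (hy : y ∈ claim2TriO A B C)
    (hy' : y' ∈ claim2TriO A B C) :
    ∀ p ∈ convexHull ℝ ({y, y', C} : Set ℂ), p ≠ C → p ∈ claim2TriO A B C := by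
  intro p hp hne
  have hc : Convex ℝ {p | p ∈ claim2Tri A B C ∧ claim2Lam B C p < claim2Lam A B C ∧
      claim2Lam C A p < claim2Lam A B C} :=
    (claim2_convex_tri A B C).inter ((claim2_convex_lt B C _).inter (claim2_convex_lt C A _))
  have := convexHull_min (s := ({y, y', C} : Set ℂ)) (by
    rintro q (rfl | rfl | rfl)
    · exact ⟨hy.1, hy.2.2⟩
    · exact ⟨hy'.1, hy'.2.2⟩
    · exact ⟨⟨hD.le, (claim2_right _ _).ge, (claim2_left _ _).ge⟩,
        by rw [claim2_right]; exact hD, by rw [claim2_left]; exact hD⟩) hc hp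
  obtain ⟨⟨h1, h2, h3⟩, h4, h5⟩ := this
  refine ⟨⟨h1, h2, h3⟩, lt_of_not_ge fun h => hne ?_, h4, h5⟩
  have hs := claim2_sum A B C p
  have e1 : claim2Lam B C p = 0 := by linarith
  have e2 : claim2Lam C A p = 0 := by linarith
  have e3 : claim2Lam A B p = claim2Lam A B C := by linarith
  have := claim2_eq hD p
  rw [e1, e2, e3, div_self hD.ne'] at this
  simpa using this

/-- points on the side `A B` -/
lemma claim2_side (hD : 0 < claim2Lam A B C) (hy : y ∈ claim2TriO A B C)
    (h0 : claim2Lam A B y = 0) : ∃ t : ℝ, 0 < t ∧ t < 1 ∧ y = A + t • (B - A) := by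
  obtain ⟨⟨h1, h2, h3⟩, h4, h5, h6⟩ := hy
  have hs := claim2_sum A B C y
  refine ⟨claim2Lam C A y / claim2Lam A B C, div_pos (by linarith) hD, (div_lt_one hD).2 h6, ?_⟩
  have := claim2_eq hD y
  rw [h0, show claim2Lam B C y = claim2Lam A B C - claim2Lam C A y by linarith, sub_div,
    div_self hD.ne'] at this
  refine this.trans ?_
  rw [zero_div]
  module

end Plane

namespace TS

variable {X : Type} [TopologicalSpace X] [T2Space X] [CompactSpace X] [MeasurableSpace X]
  [BorelSpace X] [SecondCountableTopology X] {μ : Measure X} [IsProbabilityMeasure μ] {S : TS X μ}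

omit [T2Space X] [CompactSpace X] [BorelSpace X] [SecondCountableTopology X]
  [IsProbabilityMeasure μ] in
lemma claim2_vertex {x : X} {A B C : ℂ} (hD : 0 < claim2Lam A B C) (h0 : 0 ∈ claim2TriO A B C)
    (hok : ∀ y ∈ claim2TriO A B C, S.Ok x y) (hC : S.Hit x C) {y : ℂ}
    (hy : y ∈ claim2TriO A B C) : ¬ S.Ok (S.mv x y) (C - y) :=
  ((transfer (fun p hp hne => hok p (claim2_hull hD h0 hy p hp hne)) (claim2_ne hy).2.2
    hC.reg.2).2.1 hC).1

omit [BorelSpace X] [SecondCountableTopology X] [IsProbabilityMeasure μ] in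
lemma claim2_closed {x : X} {A B C : ℂ} (hD : 0 < claim2Lam A B C) (h0 : 0 ∈ claim2TriO A B C)
    (hok : ∀ y ∈ claim2TriO A B C, S.Ok x y) (hA : S.Hit x A) (hB : S.Hit x B) (hC : S.Hit x C) :
    closure (S.mv x '' claim2TriO A B C) ∩ (S.Sg : Set X)ᶜ ⊆ S.mv x '' claim2TriO A B C := by
  rintro q ⟨hq, hq'⟩
  obtain ⟨K, hK, hK1, hK2⟩ := local_compact_nhds
    (S.Sg.finite_toSet.isClosed.isOpen_compl.mem_nhds hq')
  obtain ⟨ε, hε, hu⟩ := unif_ok (S := S) hK2 fun p hp => hK1 hp
  let T : Set ℂ := claim2Tri A B C ∩ ({y | ε ≤ ‖A - y‖} ∩ ({y | ε ≤ ‖B - y‖} ∩ {y | ε ≤ ‖C - y‖}))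
  have hT : T ⊆ claim2TriO A B C := by
    rintro y ⟨hy, h1, h2, h3⟩
    have key : ∀ {A B C : ℂ}, 0 < claim2Lam A B C → y ∈ claim2Tri A B C → ε ≤ ‖C - y‖ →
        claim2Lam A B y < claim2Lam A B C := by
      intro A B C hD hy h
      refine lt_of_not_ge fun h' => ?_
      have hs := claim2_sum A B C y
      have e1 : claim2Lam B C y = 0 := by linarith [hy.2.1, hy.2.2]
      have e2 : claim2Lam C A y = 0 := by linarith [hy.2.1, hy.2.2]
      have e3 : claim2Lam A B y = claim2Lam A B C := by linarith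
      have := claim2_eq hD y
      rw [e1, e2, e3, div_self hD.ne'] at this
      simp only [zero_div, zero_smul, zero_add, one_smul] at this
      rw [this, sub_self, norm_zero] at h
      linarith
    refine ⟨hy, key hD hy h3, ?_, ?_⟩
    · rw [← claim2_cyc A B C]
      exact key (by rwa [claim2_cyc]) (by rwa [claim2_tri_cyc]) h1
    · rw [← claim2_cyc A B C, ← claim2_cyc B C A]
      exact key (by rwa [claim2_cyc, claim2_cyc]) (by rwa [claim2_tri_cyc, claim2_tri_cyc]) h2
  have hTc : IsCompact T := by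
    refine IsCompact.inter_right (IsCompact.of_isClosed_subset
      ((toFinite {A, B, C}).isCompact_convexHull ℝ) (claim2_closed_tri A B C)
      (claim2_sub hD (convex_convexHull ℝ _) (subset_convexHull ℝ _ (by simp))
        (subset_convexHull ℝ _ (by simp)) (subset_convexHull ℝ _ (by simp)))) ?_
    exact (isClosed_le continuous_const (by fun_prop)).inter
      ((isClosed_le continuous_const (by fun_prop)).inter
        (isClosed_le continuous_const (by fun_prop)))
  have hcl : IsClosed (S.mv x '' T) := (hTc.image_of_continuousOn fun y hy =>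
    (continuousAt_mv_right (hok y (hT hy))).continuousWithinAt).isClosed
  refine image_mono hT ?_
  rw [← hcl.closure_eq]
  refine closure_mono (s := K ∩ S.mv x '' claim2TriO A B C) ?_ ?_
  · rintro _ ⟨hk, y, hy, rfl⟩
    refine ⟨y, ⟨hy.1, ?_, ?_, ?_⟩, rfl⟩
    · refine not_lt.1 fun h => claim2_vertex (A := B) (B := C) (by rwa [claim2_cyc])
        (by rwa [claim2_triO_cyc]) (by rwa [claim2_triO_cyc]) hA (by rwa [claim2_triO_cyc])
        (hu _ hk _ h)
    · refine not_lt.1 fun h => claim2_vertex (A := C) (B := A) (by rwa [claim2_cyc, claim2_cyc])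
        (by rwa [claim2_triO_cyc, claim2_triO_cyc]) (by rwa [claim2_triO_cyc, claim2_triO_cyc]) hB
        (by rwa [claim2_triO_cyc, claim2_triO_cyc]) (hu _ hk _ h)
    · exact not_lt.1 fun h => claim2_vertex hD h0 hok hC hy (hu _ hk _ h)
  · rw [mem_closure_iff_nhds] at hq ⊢
    intro U hU
    obtain ⟨p, ⟨h1, h2⟩, h3⟩ := hq _ (inter_mem hU hK)
    exact ⟨p, h1, h2, h3⟩

omit [IsProbabilityMeasure μ] in
/-- the image of the triangle on a filled side -/
lemma claim2_piece {Γ : Finset (X × ℂ)} {L : ℝ} {x₀ : X} {h : ℂ} (H : S.IsSC x₀ h)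
    (hL : 2 * ‖h‖ ≤ L) (hf : S.Filled Γ L x₀ h) (hseg : S.seg x₀ h ⊆ S.supp Γ) :
    ∃ G : Set X, closure G ∩ (S.Sg : Set X)ᶜ ⊆ G ∧ μ G ≤ ENNReal.ofReal (13 * L ^ 2) ∧
      (∀ q ∈ G, G ∈ 𝓝 q ∨ q ∈ S.supp Γ) ∧
      ∀ q ∈ S.seg x₀ h, ∃ r > 0, ∀ d : ℂ, ‖d‖ < r → 0 ≤ wedge h d → S.mv q d ∈ G := by
  obtain ⟨s, C, hs, hw, hC, hhit, hok, hsd⟩ := hf
  obtain ⟨s1, s2⟩ := abs_lt.1 hs
  set A : ℂ := (-1 - s) • h with hA
  set B : ℂ := (1 - s) • h with hB
  set x := S.mv x₀ (s • h) with hx
  have eAB : ∀ y, claim2Lam A B y = 2 * wedge h y := fun y => by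
    simp [claim2Lam, wedge, hA, hB]; ring
  have hD : 0 < claim2Lam A B C := by rw [eAB]; linarith
  have hbase : ∀ t : ℝ, claim2Lam A B ((t - s) • h) = 0 ∧
      claim2Lam B C ((t - s) • h) = (1 - t) * wedge h C ∧
      claim2Lam C A ((t - s) • h) = (1 + t) * wedge h C := fun t => by
    refine ⟨?_, ?_, ?_⟩ <;> simp [claim2Lam, wedge, hA, hB] <;> ring
  have hmem : ∀ y, 0 ≤ claim2Lam A B y → 0 < claim2Lam B C y → 0 < claim2Lam C A y →
      y ∈ claim2TriO A B C := fun y a b c => by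
    have := claim2_sum A B C y
    exact ⟨⟨a, b.le, c.le⟩, by linarith, by linarith, by linarith⟩
  have h0 : (0 : ℂ) ∈ claim2TriO A B C := by
    obtain ⟨a, b, c⟩ := hbase s
    rw [sub_self, zero_smul] at a b c
    exact hmem _ a.ge (by rw [b]; exact mul_pos (by linarith) hw)
      (by rw [c]; exact mul_pos (by linarith) hw)
  have hsub : claim2Tri A B C ⊆ convexHull ℝ {A, B, C} :=
    claim2_sub hD (convex_convexHull ℝ _) (subset_convexHull ℝ _ (by simp))
      (subset_convexHull ℝ _ (by simp)) (subset_convexHull ℝ _ (by simp))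
  have hok' : ∀ y ∈ claim2TriO A B C, S.Ok x y := fun y hy =>
    hok y (hsub hy.1) (claim2_ne hy).1 (claim2_ne hy).2.1 (claim2_ne hy).2.2
  have hL0 : 0 ≤ L := le_trans (by positivity) hL
  refine ⟨S.mv x '' claim2TriO A B C,
    claim2_closed hD h0 hok' (H.hit_end hs).2 (H.hit_end hs).1 hhit, ?_, ?_, ?_⟩
  · refine (measure_image_le (claim2_meas_triO A B C) hok').trans ?_
    have : claim2TriO A B C ⊆ closedBall 0 (2 * L) := fun y hy => by
      refine claim2_sub hD (convex_closedBall 0 (2 * L)) ?_ ?_ ?_ hy.1 <;>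
        rw [mem_closedBall_zero_iff]
      · rw [hA, norm_smul, Real.norm_eq_abs, abs_of_nonpos (by linarith)]
        nlinarith [norm_nonneg h]
      · rw [hB, norm_smul, Real.norm_eq_abs, abs_of_nonneg (by linarith)]
        nlinarith [norm_nonneg h]
      · exact hC
    refine (measure_mono this).trans ?_
    rw [Complex.volume_closedBall, ← ENNReal.ofReal_pow (by linarith), ← ENNReal.ofReal_coe_nnreal,
      ← ENNReal.ofReal_mul (by positivity)]
    refine ENNReal.ofReal_le_ofReal ?_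
    rw [NNReal.coe_real_pi]
    nlinarith [Real.pi_lt_d2, sq_nonneg L]
  · rintro _ ⟨y, hy, rfl⟩
    rcases hy.1.1.eq_or_lt with a | a
    · obtain ⟨t, t1, t2, rfl⟩ := claim2_side hD hy a.symm
      refine Or.inr (hseg ⟨2 * t - 1, abs_lt.2 ⟨by linarith, by linarith⟩, ?_⟩)
      rw [← (H.move hs (t := 2 * t - 1) (abs_lt.2 ⟨by linarith, by linarith⟩)).2]
      congr 1
      rw [hA, hB, ← sub_smul, smul_smul, ← add_smul]
      congr 1
      ring
    rcases hy.1.2.1.eq_or_lt with b | b
    · obtain ⟨t, t1, t2, rfl⟩ := claim2_side (A := B) (B := C) (C := A) (by rwa [claim2_cyc])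
        (by rwa [claim2_triO_cyc]) b.symm
      exact Or.inr (hsd t t1 t2).2
    rcases hy.1.2.2.eq_or_lt with c | c
    · obtain ⟨t, t1, t2, rfl⟩ := claim2_side (A := C) (B := A) (C := B)
        (by rwa [claim2_cyc, claim2_cyc]) (by rwa [claim2_triO_cyc, claim2_triO_cyc]) c.symm
      have := (hsd (1 - t) (by linarith) (by linarith)).1
      refine Or.inr (by convert this using 2; module)
    have hV : IsOpen {y | 0 < claim2Lam A B y ∧ 0 < claim2Lam B C y ∧ 0 < claim2Lam C A y} :=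
      (isOpen_lt continuous_const (claim2_cont A B)).inter
        ((isOpen_lt continuous_const (claim2_cont B C)).inter
          (isOpen_lt continuous_const (claim2_cont C A)))
    have hV' : {y | 0 < claim2Lam A B y ∧ 0 < claim2Lam B C y ∧ 0 < claim2Lam C A y} ⊆
        claim2TriO A B C := fun y hy => hmem y hy.1.le hy.2.1 hy.2.2
    exact Or.inl (mem_of_superset ((isOpen_image hV fun y hy => hok' y (hV' hy)).mem_nhds
      ⟨y, ⟨a, b, c⟩, rfl⟩) (image_mono hV'))
  · rintro _ ⟨t, ht, rfl⟩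
    obtain ⟨t1, t2⟩ := abs_lt.1 ht
    obtain ⟨a, b, c⟩ := hbase t
    have b' : 0 < claim2Lam B C ((t - s) • h) := by rw [b]; exact mul_pos (by linarith) hw
    have c' : 0 < claim2Lam C A ((t - s) • h) := by rw [c]; exact mul_pos (by linarith) hw
    have hV : IsOpen {y | 0 < claim2Lam B C y ∧ 0 < claim2Lam C A y} :=
      (isOpen_lt continuous_const (claim2_cont B C)).inter
        (isOpen_lt continuous_const (claim2_cont C A))
    obtain ⟨r, hr, hb⟩ := Metric.isOpen_iff.1 hV _ ⟨b', c'⟩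
    refine ⟨r, hr, fun d hd hw' => ?_⟩
    have h1 := hb (show (t - s) • h + d ∈ ball ((t - s) • h) r by simpa using hd)
    have h2 : (t - s) • h + d ∈ claim2TriO A B C := hmem _ (by
      rw [eAB, wedge_add_right, wedge_smul_right, wedge_self]; linarith) h1.1 h1.2
    refine ⟨_, h2, ?_⟩
    rw [← (convex_ok (claim2_convex_triO A B C) h0 hok' _ (hmem _ a.ge b' c') _ h2).2,
      add_sub_cancel_left, (H.move hs ht).2]

/-- if all sides are filled the triangles cover the surface -/
theorem claim2 {Γ : Finset (X × ℂ)} (hΓ : S.Fam Γ) (hne : Γ.Nonempty) {L : ℝ}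
    (hL : ∀ c ∈ Γ, 2 * ‖c.2‖ ≤ L) (hf : ∀ c ∈ Γ, S.Filled Γ L c.1 c.2 ∧ S.Filled Γ L c.1 (-c.2)) :
    1 ≤ 26 * Γ.card * L ^ 2 := by
  have hseg : ∀ c ∈ Γ, S.seg c.1 c.2 ⊆ S.supp Γ := fun c hc =>
    subset_biUnion_of_mem (u := fun c : X × ℂ => S.seg c.1 c.2) (Finset.mem_coe.2 hc)
  choose! G g1 g2 g3 g4 using fun c hc =>
    claim2_piece (hΓ.1 c hc) (hL c hc) (hf c hc).1 (hseg c hc)
  choose! G' g1' g2' g3' g4' using fun c hc =>
    claim2_piece (hΓ.1 c hc).neg (by simpa using hL c hc) (hf c hc).2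
      (by rw [seg_neg]; exact hseg c hc)
  let F : Set X := ⋃ c ∈ Γ, (G c ∪ G' c)
  have hF : ∀ c ∈ Γ, G c ∪ G' c ⊆ F := fun c hc =>
    subset_biUnion_of_mem (u := fun c => G c ∪ G' c) (Finset.mem_coe.2 hc)
  have hreg : ∀ c ∈ Γ, ∀ q ∈ S.seg c.1 c.2, q ∉ S.Sg := by
    rintro c hc _ ⟨t, ht, rfl⟩
    exact (S.reg _ _ ((hΓ.1 c hc).ok ht)).2
  have hsupp : ∀ q ∈ S.supp Γ, F ∈ 𝓝 q := fun q hq => by
    obtain ⟨c, hc, hq⟩ := mem_iUnion₂.1 hq
    obtain ⟨r, hr, h1⟩ := g4 c hc q hq
    obtain ⟨r', hr', h1'⟩ := g4' c hc q (by rwa [seg_neg])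
    refine mem_of_superset (nhds_image (hreg c hc q hq) (lt_min hr hr')) ?_
    rintro _ ⟨d, ⟨hd, -⟩, rfl⟩
    refine hF c hc ?_
    rcases le_total 0 (wedge c.2 d) with h | h
    · exact Or.inl (h1 d (hd.trans_le (min_le_left _ _)) h)
    · exact Or.inr (h1' d (hd.trans_le (min_le_right _ _)) (by rw [wedge_neg_left]; linarith))
  have hopen : IsOpen F := isOpen_iff_mem_nhds.2 fun q hq => by
    obtain ⟨c, hc, hq⟩ := mem_iUnion₂.1 hq
    rcases hq with hq | hq
    · exact (g3 c hc q hq).elim (fun h => mem_of_superset h (subset_union_left.trans (hF c hc)))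
        (hsupp q)
    · exact (g3' c hc q hq).elim (fun h => mem_of_superset h (subset_union_right.trans (hF c hc)))
        (hsupp q)
  have hsub : (S.Sg : Set X)ᶜ ⊆ F := by
    refine S.conn.subset_of_closure_inter_subset hopen ?_ ?_
    · obtain ⟨c, hc⟩ := hne
      exact ⟨c.1, hreg c hc _ (self_mem_seg S _ _),
        mem_of_mem_nhds (hsupp _ (hseg c hc (self_mem_seg S _ _)))⟩
    · rintro q ⟨hq, hq'⟩
      rw [Finset.closure_biUnion] at hq
      obtain ⟨c, hc, hq⟩ := mem_iUnion₂.1 hq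
      rw [closure_union] at hq
      exact hF c hc (hq.imp (fun h => g1 c hc ⟨h, hq'⟩) fun h => g1' c hc ⟨h, hq'⟩)
  have h1 : (1 : ENNReal) ≤ ENNReal.ofReal (26 * Γ.card * L ^ 2) := by
    calc (1 : ENNReal) = μ (S.Sg : Set X)ᶜ := (prob_compl_eq_one_iff
          S.Sg.finite_toSet.isClosed.measurableSet).2 S.null |>.symm
      _ ≤ μ F := measure_mono hsub
      _ ≤ ∑ c ∈ Γ, μ (G c ∪ G' c) := measure_biUnion_finset_le _ _
      _ ≤ ∑ c ∈ Γ, ENNReal.ofReal (26 * L ^ 2) := Finset.sum_le_sum fun c hc => by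
          refine (measure_union_le _ _).trans ((add_le_add (g2 c hc) (g2' c hc)).trans ?_)
          rw [← ENNReal.ofReal_add (by positivity) (by positivity)]
          exact ENNReal.ofReal_le_ofReal (by linarith)
      _ = _ := by
          rw [Finset.sum_const, nsmul_eq_mul, ← ENNReal.ofReal_natCast,
            ← ENNReal.ofReal_mul (by positivity)]
          congr 1
          ring
  exact ENNReal.one_le_ofReal.1 h1

end TS

end Pool.Agent.MP_d0b2d2_an.Gen
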