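import Pool.Agent.MP_d0b2d2_an.Gen.Api3

open MeasureTheory Set Filter Topology Metric
open scoped ENNReal

namespace Pool.Agent.MP_d0b2d2_an.Gen.TS

variable {X : Type} [TopologicalSpace X] [T2Space X] [CompactSpace X] [MeasurableSpace X]
  {μ : Measure X} {S : TS X μ} {δ δ' : X → ℂ → ℝ} {Φ Φ' : C(X, UnitAddCircle)}

theorem coc_lift_eqOn {A : Type} [TopologicalSpace A] {s : Set A} (hs : IsPreconnected s)
    {f g : A → ℝ} (hf : ContinuousOn f s) (hg : ContinuousOn g s)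
    (h : ∀ a ∈ s, ((f a : ℝ) : UnitAddCircle) = (g a : ℝ)) {a : A} (ha : a ∈ s)
    (h0 : f a = g a) : EqOn f g s :=
  (AddCircle.isCoveringMap_coe (1 : ℝ)).eqOn_of_comp_eqOn hs hf hg h ha h0

omit [T2Space X] [CompactSpace X] in
theorem coc_ray (hc : ContinuousOn (Function.uncurry δ) {p | S.Ok p.1 p.2}) {x : X} {v : ℂ}
    (h : S.Ok x v) : ContinuousOn (fun t : ℝ => δ x (t • v)) (Icc 0 1) :=
  hc.comp (f := fun t : ℝ => (x, t • v)) (by fun_prop) fun _ ht => ok_smul h ht.1 ht.2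

omit [T2Space X] [CompactSpace X] in
theorem exists_inc (S : TS X μ) (Φ : C(X, UnitAddCircle)) : ∃ δ, S.IsInc Φ δ := by
  classical
  let A := {p : X × ℂ // S.Ok p.1 p.2}
  have hA : Continuous fun q : unitInterval × A => q.2.1 :=
    continuous_subtype_val.comp continuous_snd
  have hc : Continuous fun q : unitInterval × A => S.mv q.2.1.1 ((q.1 : ℝ) • q.2.1.2) :=
    S.continuousOn_mv.comp_continuous (f := fun q : unitInterval × A =>
      (q.2.1.1, (q.1 : ℝ) • q.2.1.2))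
      (hA.fst.prodMk ((continuous_subtype_val.comp continuous_fst).smul hA.snd))
      fun q => ok_smul q.2.2 q.1.2.1 q.1.2.2
  let H : C(unitInterval × A, UnitAddCircle) :=
    ⟨fun q => Φ (S.mv q.2.1.1 ((q.1 : ℝ) • q.2.1.2)) - Φ q.2.1.1,
      (Φ.continuous.comp hc).sub (Φ.continuous.comp hA.fst)⟩
  have cov := AddCircle.isCoveringMap_coe (1 : ℝ)
  have H0 : ∀ a, H (0, a) = (((0 : C(A, ℝ)) a : ℝ) : UnitAddCircle) := fun a => by
    simp [H, S.mv_zero]
  let L := cov.liftHomotopy H 0 H0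
  have hL : ∀ q, ((L q : ℝ) : UnitAddCircle) = H q := fun q =>
    congr_fun (cov.liftHomotopy_lifts H 0 H0) q
  have hL0 : ∀ a, L (0, a) = 0 := fun a => cov.liftHomotopy_zero H 0 H0 a
  refine ⟨fun x v => if h : S.Ok x v then L (1, ⟨(x, v), h⟩) else 0, ?_, fun x v h => dif_neg h,
    fun x => ?_, fun x v h => ?_⟩
  · rw [continuousOn_iff_continuous_domRestrict]
    have : Continuous fun a : A => L (1, a) := L.continuous.comp (.prodMk_right _)
    refine this.congr fun a => ?_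
    have ha : S.Ok a.1.1 a.1.2 := a.2
    simp only [Set.domRestrict, Function.uncurry, dif_pos ha]
    rfl
  · by_cases h : S.Ok x 0
    · simp only [dif_pos h]
      have := coc_lift_eqOn (s := (univ : Set unitInterval)) isPreconnected_univ
        (f := fun t => L (t, ⟨(x, 0), h⟩)) (g := fun _ => 0)
        (L.continuous.comp (.prodMk_left _)).continuousOn continuousOn_const
        (fun t _ => by rw [hL]; simp [H, S.mv_zero]) (mem_univ 0) (hL0 _)
      exact this (mem_univ 1)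
    · exact dif_neg h
  · simp only [dif_pos h]
    rw [hL]
    simp [H]

omit [T2Space X] [CompactSpace X] in
theorem IsInc.unique (h : S.IsInc Φ δ) (h' : S.IsInc Φ δ') : δ = δ' := by
  funext x v
  by_cases hv : S.Ok x v
  · have := coc_lift_eqOn isPreconnected_Icc (coc_ray h.cont hv) (coc_ray h'.cont hv)
      (fun t ht => by
        rw [h.lift _ _ (ok_smul hv ht.1 ht.2), h'.lift _ _ (ok_smul hv ht.1 ht.2)])
      (left_mem_Icc.2 zero_le_one) (by simp [h.zero, h'.zero])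
    simpa using this (right_mem_Icc.2 zero_le_one)
  · rw [h.junk _ _ hv, h'.junk _ _ hv]

theorem coc_mem_left (y y' : ℂ) : (0 : ℂ) ∈ convexHull ℝ {0, y, y'} :=
  subset_convexHull _ _ (by simp)

theorem coc_mem_mid (y y' : ℂ) : y ∈ convexHull ℝ {0, y, y'} :=
  subset_convexHull _ _ (by simp)

theorem coc_mem_right (y y' : ℂ) : y' ∈ convexHull ℝ {0, y, y'} :=
  subset_convexHull _ _ (by simp)

theorem IsInc.cocycle (h : S.IsInc Φ δ) : S.Cocycle δ := by
  refine ⟨h.cont, h.junk, fun η hη => ?_, fun x y y' hok => ?_⟩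
  · obtain ⟨r, hr, hr'⟩ := S.equicont Φ (lt_min hη (by norm_num : (0 : ℝ) < 1 / 4))
    refine ⟨r, hr, fun x v hv => ?_⟩
    by_cases hx : S.Ok x v
    swap
    · rw [h.junk _ _ hx, abs_zero]
      exact hη.le
    have hn : ∀ t ∈ Icc (0 : ℝ) 1, ‖((δ x (t • v) : ℝ) : UnitAddCircle)‖ ≤ min η (1 / 4) := by
      intro t ht
      rw [h.lift _ _ (ok_smul hx ht.1 ht.2), ← dist_eq_norm]
      refine hr' _ _ (lt_of_le_of_lt ?_ hv)
      rw [norm_smul, Real.norm_of_nonneg ht.1]
      exact mul_le_of_le_one_left (norm_nonneg _) ht.2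
    have h2 : |δ x v| ≤ 1 / 2 := by
      by_contra hcon
      have hiv := intermediate_value_Icc zero_le_one (coc_ray h.cont hx).abs
      obtain ⟨t, ht, ht'⟩ := hiv (show (1 / 2 : ℝ) ∈ _ from
        ⟨by simp [h.zero], by simpa using (not_le.1 hcon).le⟩)
      have h3 := hn t ht
      simp only at ht'
      rw [(AddCircle.norm_coe_eq_abs_iff (1 : ℝ) one_ne_zero).2 (by rw [ht']; norm_num), ht'] at h3
      linarith [min_le_right η (1 / 4)]
    have h3 := hn 1 (right_mem_Icc.2 zero_le_one)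
    rw [one_smul, (AddCircle.norm_coe_eq_abs_iff (1 : ℝ) one_ne_zero).2 (by simpa using h2)] at h3
    exact h3.trans (min_le_left _ _)
  · have hT := convex_convexHull ℝ ({0, y, y'} : Set ℂ)
    have hc := convex_ok hT (coc_mem_left y y') hok y (coc_mem_mid y y')
    refine coc_lift_eqOn hT.isPreconnected (f := fun p => δ x p)
      (g := fun p => δ x y + δ (S.mv x y) (p - y))
      (h.cont.comp (f := fun p : ℂ => (x, p)) (by fun_prop) hok)
      (continuousOn_const.add (h.cont.comp (f := fun p : ℂ => (S.mv x y, p - y)) (by fun_prop)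
        fun p hp => (hc p hp).1)) (fun p hp => ?_) (coc_mem_mid y y') (by simp [h.zero])
      (coc_mem_right y y')
    rw [AddCircle.coe_add, h.lift _ _ (hok p hp), h.lift _ _ (hok y (coc_mem_mid y y')),
      h.lift _ _ (hc p hp).1, (hc p hp).2]
    abel

omit [T2Space X] [CompactSpace X] in
theorem IsInc.add (h : S.IsInc Φ δ) (h' : S.IsInc Φ' δ') : S.IsInc (Φ + Φ') (δ + δ') := by
  refine ⟨h.cont.add h'.cont, fun x v hv => by simp [h.junk x v hv, h'.junk x v hv],
    fun x => by simp [h.zero, h'.zero], fun x v hv => ?_⟩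
  simp only [Pi.add_apply, AddCircle.coe_add, h.lift x v hv, h'.lift x v hv,
    ContinuousMap.add_apply]
  abel

omit [T2Space X] [CompactSpace X] in
theorem IsInc.neg (h : S.IsInc Φ δ) : S.IsInc (-Φ) (-δ) := by
  refine ⟨h.cont.neg, fun x v hv => by simp [h.junk x v hv],
    fun x => by simp [h.zero], fun x v hv => ?_⟩
  simp only [Pi.neg_apply, AddCircle.coe_neg, h.lift x v hv, ContinuousMap.neg_apply]
  abel

omit [T2Space X] [CompactSpace X] in
theorem coc_cont_real (S : TS X μ) (f : C(X, ℝ)) :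
    ContinuousOn (Function.uncurry fun x v => f (S.mv x v) - f x) {p | S.Ok p.1 p.2} :=
  (f.continuous.comp_continuousOn S.continuousOn_mv).sub
    (f.continuous.comp continuous_fst).continuousOn

omit [T2Space X] [CompactSpace X] in
theorem isInc_real (f : C(X, ℝ)) (h : ∀ x, ((f x : ℝ) : UnitAddCircle) = Φ x) :
    S.IsInc Φ fun x v => f (S.mv x v) - f x :=
  ⟨S.coc_cont_real f, fun x v hv => by simp [S.junk x v hv], fun x => by simp [S.mv_zero],
    fun x v _ => by rw [AddCircle.coe_sub, h, h]⟩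

theorem cocycle_real (S : TS X μ) (f : C(X, ℝ)) :
    S.Cocycle fun x v => f (S.mv x v) - f x := by
  refine ⟨S.coc_cont_real f, fun x v hv => by simp [S.junk x v hv], fun η hη => ?_,
    fun x y y' hok => ?_⟩
  · obtain ⟨r, hr, hr'⟩ := S.equicont f hη
    exact ⟨r, hr, fun x v hv => by simpa only [Real.dist_eq] using hr' x v hv⟩
  · rw [(convex_ok (convex_convexHull ℝ _) (coc_mem_left y y') hok y (coc_mem_mid y y') y'
      (coc_mem_right y y')).2]
    ring

omit [T2Space X] [CompactSpace X] in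
open Classical in
theorem cocycle_const (S : TS X μ) (c : ℂ) :
    S.Cocycle fun x v => if S.Ok x v then wedge v c else 0 := by
  refine ⟨?_, fun x v hv => if_neg hv, fun η hη => ⟨η / (‖c‖ + 1), by positivity, fun x v hv => ?_⟩,
    fun x y y' hok => ?_⟩
  · refine ContinuousOn.congr (f := fun p : X × ℂ => wedge p.2 c) ?_ fun p hp => if_pos hp
    exact (continuous_wedge.comp (f := fun p : X × ℂ => (p.2, c)) (by fun_prop)).continuousOn
  · split_ifs
    · rw [lt_div_iff₀ (by positivity)] at hv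
      nlinarith [abs_wedge_le v c, norm_nonneg v]
    · simpa using hη.le
  · rw [if_pos (hok y' (coc_mem_right y y')), if_pos (hok y (coc_mem_mid y y')),
      if_pos (convex_ok (convex_convexHull ℝ _) (coc_mem_left y y') hok y (coc_mem_mid y y') y'
      (coc_mem_right y y')).1, wedge_sub_left]
    ring

omit [T2Space X] [CompactSpace X] in
theorem Cocycle.add (h : S.Cocycle δ) (h' : S.Cocycle δ') : S.Cocycle (δ + δ') := by
  refine ⟨h.cont.add h'.cont, fun x v hv => by simp [h.junk x v hv, h'.junk x v hv],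
    fun η hη => ?_, fun x y y' hok => ?_⟩
  · obtain ⟨r, hr, h1⟩ := h.small (η / 2) (half_pos hη)
    obtain ⟨r', hr', h2⟩ := h'.small (η / 2) (half_pos hη)
    refine ⟨min r r', lt_min hr hr', fun x v hv => ?_⟩
    have h3 := h1 x v (hv.trans_le (min_le_left _ _))
    have h4 := h2 x v (hv.trans_le (min_le_right _ _))
    exact (abs_add_le _ _).trans (by linarith)
  · simp only [Pi.add_apply]
    rw [h.coc x y y' hok, h'.coc x y y' hok]
    ring

omit [T2Space X] [CompactSpace X] in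
theorem Cocycle.smul (h : S.Cocycle δ) (r : ℝ) : S.Cocycle (r • δ) := by
  refine ⟨h.cont.const_smul r, fun x v hv => by simp [h.junk x v hv],
    fun η hη => ?_, fun x y y' hok => ?_⟩
  · obtain ⟨s, hs, h1⟩ := h.small (η / (|r| + 1)) (by positivity)
    refine ⟨s, hs, fun x v hv => ?_⟩
    have h2 := h1 x v hv
    rw [le_div_iff₀ (by positivity)] at h2
    simp only [Pi.smul_apply, smul_eq_mul, abs_mul]
    nlinarith [abs_nonneg (δ x v)]
  · simp only [Pi.smul_apply, smul_eq_mul]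
    rw [h.coc x y y' hok]
    ring

omit [T2Space X] [CompactSpace X] in
theorem Cocycle.zero (h : S.Cocycle δ) (x : X) : δ x 0 = 0 := by
  by_cases hx : S.Ok x 0
  · have := h.coc x 0 0 (by simpa using hx)
    rw [S.mv_zero, sub_zero] at this
    linarith
  · exact h.junk _ _ hx

omit [T2Space X] [CompactSpace X] in
/-- the cocycle identity inside a regular convex set -/
theorem Cocycle.convex (h : S.Cocycle δ) {x : X} {D : Set ℂ} (hD : Convex ℝ D) (h0 : 0 ∈ D)
    (hok : ∀ y ∈ D, S.Ok x y) {y y' : ℂ} (hy : y ∈ D) (hy' : y' ∈ D) :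
    δ (S.mv x y) (y' - y) = δ x y' - δ x y := by
  have hsub : convexHull ℝ {0, y, y'} ⊆ D := convexHull_min (by
    rintro p (rfl | rfl | rfl) <;> assumption) hD
  rw [h.coc x y y' fun p hp => hok p (hsub hp)]
  ring

omit [T2Space X] [CompactSpace X] in
theorem Cocycle.lip_of_local (h : S.Cocycle δ) {l : ℝ} (hl : 0 ≤ l)
    (h' : ∀ x ∉ S.Sg, ∃ r > 0, ∀ d : ℂ, ‖d‖ < r → |δ x d| ≤ l * ‖d‖) (x : X) (v : ℂ) :
    |δ x v| ≤ l * ‖v‖ := by
  by_cases hx : S.Ok x v
  swap
  · rw [h.junk _ _ hx, abs_zero]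
    positivity
  let D : Set ℂ := (fun t : ℝ => t • v) '' Icc 0 1
  have hD : Convex ℝ D := (convex_Icc (0 : ℝ) 1).is_linear_image (IsLinearMap.isLinearMap_smul' v)
  have hok : ∀ y ∈ D, S.Ok x y := by
    rintro _ ⟨t, ht, rfl⟩
    exact ok_smul hx ht.1 ht.2
  have h0 : (0 : ℂ) ∈ D := ⟨0, left_mem_Icc.2 zero_le_one, zero_smul _ _⟩
  have key : (1 : ℝ) ∈ {t : ℝ | |δ x (t • v)| ≤ l * (t * ‖v‖)} := by
    refine IsClosed.mem_of_ge_of_forall_exists_gt (a := 0) ?_ (by simp [h.zero]) zero_le_one ?_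
    · rw [inter_comm]
      exact isClosed_Icc.isClosed_le (coc_ray h.cont hx).abs (by fun_prop)
    · rintro t ⟨ht, ht0, ht1⟩
      obtain ⟨r, hr, hr'⟩ := h' _ (S.reg _ _ (ok_smul hx ht0 ht1.le)).2
      set ε := min (1 - t) (r / (‖v‖ + 1)) with hε
      have e0 : 0 < ε := lt_min (by linarith) (by positivity)
      have e1 : ε ≤ 1 - t := min_le_left _ _
      have e2 : ε * (‖v‖ + 1) ≤ r := (le_div_iff₀ (by positivity)).1 (min_le_right _ _)
      refine ⟨t + ε, ?_, by linarith, by linarith⟩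
      have h1 := h.convex hD h0 hok (y := t • v) (y' := (t + ε) • v) ⟨t, ⟨ht0, ht1.le⟩, rfl⟩
        ⟨t + ε, ⟨by linarith, by linarith⟩, rfl⟩
      have h2 : (t + ε) • v - t • v = ε • v := by rw [add_smul]; abel
      have h3 : ‖ε • v‖ = ε * ‖v‖ := by rw [norm_smul, Real.norm_of_nonneg e0.le]
      have h4 := hr' (ε • v) (by rw [h3]; nlinarith)
      rw [h2] at h1
      rw [h1, h3] at h4
      simp only [mem_ofPred_eq] at ht ⊢
      have h5 := abs_sub_abs_le_abs_sub (δ x ((t + ε) • v)) (δ x (t • v))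
      nlinarith
  simpa using key

variable [BorelSpace X] [SecondCountableTopology X] [IsProbabilityMeasure μ]

omit [T2Space X] [CompactSpace X] [IsProbabilityMeasure μ] in
theorem Cocycle.measurable (h : S.Cocycle δ) : Measurable (Function.uncurry δ) := by
  classical
  have := h.cont.measurable_piecewise (g := fun _ => (0 : ℝ)) continuousOn_const
    S.isOpen_ok.measurableSet
  convert this using 1
  funext p
  by_cases hp : p ∈ {p : X × ℂ | S.Ok p.1 p.2}
  · exact (piecewise_eq_of_mem _ _ _ hp).symm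
  · rw [piecewise_eq_of_notMem _ _ _ hp]
    exact h.junk _ _ hp

omit [T2Space X] [CompactSpace X] [IsProbabilityMeasure μ] in
theorem Cocycle.coc_aesm (h : S.Cocycle δ) (u : Lp ℂ 2 μ) (w : ℂ) (t : ℝ) :
    AEStronglyMeasurable (fun x => δ x (t • w) / t - wedge w (u x)) μ :=
  ((h.measurable.comp (f := fun x => (x, t • w)) (by fun_prop)).div_const
    t).aestronglyMeasurable.sub
    ((continuous_wedge.comp (f := fun y : ℂ => (w, y)) (by fun_prop)).comp_aestronglyMeasurable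
      (Lp.aestronglyMeasurable u))

omit [T2Space X] [CompactSpace X] [IsProbabilityMeasure μ] in
theorem hasGrad_add (h : S.Cocycle δ) (h' : S.Cocycle δ') {u u' : Lp ℂ 2 μ} (g : HasGrad μ δ u)
    (g' : HasGrad μ δ' u') : HasGrad μ (δ + δ') ⇑(u + u') := by
  intro w
  have h1 := (g w).add (g' w)
  rw [add_zero] at h1
  refine tendsto_of_tendsto_of_tendsto_of_le_of_le tendsto_const_nhds h1 (fun _ => zero_le)
    fun t => ?_
  refine le_of_eq_of_le (eLpNorm_congr_ae ?_)
    (eLpNorm_add_le (h.coc_aesm u w t) (h'.coc_aesm u' w t) one_le_two)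
  filter_upwards [Lp.coeFn_add u u'] with x hx
  simp only [hx, Pi.add_apply, wedge_add_right]
  ring

omit [T2Space X] [CompactSpace X] [BorelSpace X] [SecondCountableTopology X]
  [IsProbabilityMeasure μ] in
theorem hasGrad_smul {u : Lp ℂ 2 μ} (g : HasGrad μ δ u) (r : ℝ) :
    HasGrad μ (r • δ) ⇑(r • u) := by
  intro w
  have h1 := ENNReal.Tendsto.const_mul (a := ‖r‖ₑ) (g w) (Or.inr enorm_ne_top)
  rw [mul_zero] at h1
  refine h1.congr fun t => ?_
  rw [← eLpNorm_const_smul]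
  refine eLpNorm_congr_ae ?_
  filter_upwards [Lp.coeFn_smul r u] with x hx
  simp only [hx, Pi.smul_apply, smul_eq_mul, wedge_smul_right]
  ring

open Classical in
theorem hasGrad_const (S : TS X μ) (c : ℂ) :
    HasGrad μ (fun x v => if S.Ok x v then wedge v c else 0) ⇑(Lp.const 2 μ c) := by
  intro w
  refine tendsto_const_nhds.congr' ?_
  filter_upwards [self_mem_nhdsWithin] with t ht
  refine (eLpNorm_zero (ε := ℝ)).symm.trans (eLpNorm_congr_ae ?_)
  filter_upwards [S.ae_ok (t • w), Lp.coeFn_const 2 μ c] with x h1 h2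
  have ht' : t ≠ 0 := ht
  simp only [h2, if_pos h1, wedge_smul_left, Function.const_apply, Pi.zero_apply]
  field_simp
  ring

omit [T2Space X] [CompactSpace X] [BorelSpace X] [SecondCountableTopology X]
  [IsProbabilityMeasure μ] in
theorem coc_zero_mem_Eset (S : TS X μ) : (0 : Lp ℂ 2 μ) ∈ S.Eset := by
  refine ⟨0, fun w => tendsto_const_nhds.congr fun t => ?_⟩
  refine (eLpNorm_zero (ε := ℝ)).symm.trans (eLpNorm_congr_ae ?_)
  filter_upwards [Lp.coeFn_zero ℂ 2 μ] with x h1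
  rw [h1]
  simp [wedge_zero_right]

theorem mem_E {u : Lp ℂ 2 μ} : u ∈ S.E ↔ u ∈ S.Eset := by
  refine ⟨fun h => ?_, fun h => Submodule.subset_span h⟩
  induction h using Submodule.span_induction with
  | mem u hu => exact hu
  | zero => exact S.coc_zero_mem_Eset
  | add u u' _ _ hu hu' =>
    obtain ⟨f, hf⟩ := hu
    obtain ⟨f', hf'⟩ := hu'
    refine ⟨f + f', ?_⟩
    convert hasGrad_add (S.cocycle_real f) (S.cocycle_real f') hf hf' using 1
    funext x v
    simp only [ContinuousMap.add_apply, Pi.add_apply]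
    ring
  | smul r u _ hu =>
    obtain ⟨f, hf⟩ := hu
    refine ⟨r • f, ?_⟩
    convert hasGrad_smul hf r using 1
    funext x v
    simp only [ContinuousMap.smul_apply, Pi.smul_apply, smul_eq_mul]
    ring

omit [T2Space X] [CompactSpace X] [BorelSpace X] [SecondCountableTopology X]
  [IsProbabilityMeasure μ] in
theorem Eset_subset_Iset (S : TS X μ) : S.Eset ⊆ S.Iset := by
  rintro u ⟨f, hf⟩
  exact ⟨⟨fun x => ((f x : ℝ) : UnitAddCircle), by fun_prop⟩, _, isInc_real f fun _ => rfl, hf⟩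

omit [BorelSpace X] [SecondCountableTopology X] [IsProbabilityMeasure μ] in
theorem Iset_subset_Zset (S : TS X μ) : S.Iset ⊆ S.Zset := by
  rintro u ⟨Φ, δ, h, hg⟩
  exact ⟨δ, h.cocycle, hg⟩

theorem Iset_add {u u' : Lp ℂ 2 μ} (h : u ∈ S.Iset) (h' : u' ∈ S.Iset) : u + u' ∈ S.Iset := by
  obtain ⟨Φ, δ, h, hg⟩ := h
  obtain ⟨Φ', δ', h', hg'⟩ := h'
  exact ⟨_, _, h.add h', hasGrad_add h.cocycle h'.cocycle hg hg'⟩

theorem Iset_neg {u : Lp ℂ 2 μ} (h : u ∈ S.Iset) : -u ∈ S.Iset := by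
  obtain ⟨Φ, δ, h, hg⟩ := h
  refine ⟨_, _, h.neg, ?_⟩
  have := hasGrad_smul hg (-1)
  rwa [neg_one_smul, neg_one_smul] at this

theorem Iset_sum {ι : Type} [Fintype ι] {u : ι → Lp ℂ 2 μ} (h : ∀ i, u i ∈ S.Iset) (n : ι → ℤ) :
    ∑ i, (n i : ℝ) • u i ∈ S.Iset := by
  let G : AddSubgroup (Lp ℂ 2 μ) :=
    { carrier := S.Iset
      add_mem' := Iset_add
      zero_mem' := S.Eset_subset_Iset S.coc_zero_mem_Eset
      neg_mem' := Iset_neg }
  refine G.sum_mem fun i _ => ?_
  rw [Int.cast_smul_eq_zsmul]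
  exact G.zsmul_mem (h i) _

theorem Zset_add {u u' : Lp ℂ 2 μ} (h : u ∈ S.Zset) (h' : u' ∈ S.Zset) : u + u' ∈ S.Zset := by
  obtain ⟨δ, h, hg⟩ := h
  obtain ⟨δ', h', hg'⟩ := h'
  exact ⟨_, h.add h', hasGrad_add h h' hg hg'⟩

theorem Zset_smul {u : Lp ℂ 2 μ} (h : u ∈ S.Zset) (r : ℝ) : r • u ∈ S.Zset := by
  obtain ⟨δ, h, hg⟩ := h
  exact ⟨_, h.smul r, hasGrad_smul hg r⟩

theorem Zset_sum {ι : Type} [Fintype ι] {u : ι → Lp ℂ 2 μ} (h : ∀ i, u i ∈ S.Zset) (r : ι → ℝ) :
    ∑ i, r i • u i ∈ S.Zset :=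
  Finset.sum_induction _ (· ∈ S.Zset) (fun _ _ => Zset_add)
    (S.Iset_subset_Zset (S.Eset_subset_Iset S.coc_zero_mem_Eset)) fun i _ => Zset_smul (h i) _

theorem const_mem_Zset (S : TS X μ) (c : ℂ) : Lp.const 2 μ c ∈ S.Zset :=
  ⟨_, S.cocycle_const c, S.hasGrad_const c⟩

omit [TopologicalSpace X] [T2Space X] [CompactSpace X] [BorelSpace X] [SecondCountableTopology X]
  [IsProbabilityMeasure μ] in
theorem coc_hasGrad_map (g : ℂ ≃L[ℝ] ℂ) (hg : Sl (g : ℂ →L[ℝ] ℂ)) {u : Lp ℂ 2 μ}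
    (h : HasGrad μ δ u) : HasGrad μ (fun x v => δ x (g.symm v)) ((lpAct μ).ac g u) := by
  intro w
  refine (h (g.symm w)).congr fun t => eLpNorm_congr_ae ?_
  filter_upwards [lpAct_ae (g : ℂ →L[ℝ] ℂ) u] with x hx
  have := hg (g.symm w) (u x)
  simp only [ContinuousLinearEquiv.coe_coe, ContinuousLinearEquiv.apply_symm_apply] at this hx
  rw [hx, this, map_smul]

omit [T2Space X] [CompactSpace X] [BorelSpace X] [SecondCountableTopology X]
  [IsProbabilityMeasure μ] in
theorem coc_cont_map (g : ℂ ≃L[ℝ] ℂ) (hg : Sl (g : ℂ →L[ℝ] ℂ))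
    (h : ContinuousOn (Function.uncurry δ) {p | S.Ok p.1 p.2}) :
    ContinuousOn (Function.uncurry fun x v => δ x (g.symm v)) {p | (S.map g hg).Ok p.1 p.2} :=
  h.comp (f := fun p : X × ℂ => (p.1, g.symm p.2)) (by fun_prop) fun _ hp => hp

omit [T2Space X] [CompactSpace X] [BorelSpace X] [SecondCountableTopology X]
  [IsProbabilityMeasure μ] in
theorem map_Zset (g : ℂ ≃L[ℝ] ℂ) (hg : Sl (g : ℂ →L[ℝ] ℂ)) {u : Lp ℂ 2 μ} (h : u ∈ S.Zset) :
    (lpAct μ).ac g u ∈ (S.map g hg).Zset := by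
  obtain ⟨δ, h, hu⟩ := h
  refine ⟨_, ⟨coc_cont_map g hg h.cont, fun x v hv => h.junk x _ hv, fun η hη => ?_,
    fun x y y' hok => ?_⟩, coc_hasGrad_map g hg hu⟩
  · obtain ⟨r, hr, hr'⟩ := h.small η hη
    refine ⟨r / (‖(g.symm : ℂ →L[ℝ] ℂ)‖ + 1), by positivity, fun x v hv => hr' x _ ?_⟩
    rw [lt_div_iff₀ (by positivity)] at hv
    have := (g.symm : ℂ →L[ℝ] ℂ).le_opNorm v
    simp only [ContinuousLinearEquiv.coe_coe] at this
    nlinarith [norm_nonneg v]
  · have := h.coc x (g.symm y) (g.symm y') fun p hp => by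
      have h1 : g p ∈ convexHull ℝ {0, y, y'} := by
        have h2 := (g : ℂ →ₗ[ℝ] ℂ).image_convexHull {0, g.symm y, g.symm y'}
        have h3 : g p ∈ (g : ℂ →ₗ[ℝ] ℂ) '' convexHull ℝ {0, g.symm y, g.symm y'} := ⟨p, hp, rfl⟩
        rw [h2] at h3
        simpa [image_insert_eq] using h3
      have h4 : S.Ok x (g.symm (g p)) := hok _ h1
      simpa using h4
    rw [this, map_sub]
    rfl

omit [T2Space X] [CompactSpace X] [BorelSpace X] [SecondCountableTopology X]
  [IsProbabilityMeasure μ] in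
theorem map_Iset (g : ℂ ≃L[ℝ] ℂ) (hg : Sl (g : ℂ →L[ℝ] ℂ)) {u : Lp ℂ 2 μ} (h : u ∈ S.Iset) :
    (lpAct μ).ac g u ∈ (S.map g hg).Iset := by
  obtain ⟨Φ, δ, h, hu⟩ := h
  exact ⟨Φ, _, ⟨coc_cont_map g hg h.cont, fun x v hv => h.junk x _ hv,
    fun x => by simp [h.zero], fun x v hv => h.lift x _ hv⟩, coc_hasGrad_map g hg hu⟩

omit [T2Space X] [CompactSpace X] [BorelSpace X] [SecondCountableTopology X]
  [IsProbabilityMeasure μ] in
theorem map_E (S : TS X μ) (g : ℂ ≃L[ℝ] ℂ) (hg : Sl (g : ℂ →L[ℝ] ℂ)) :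
    (S.map g hg).E = S.E.map ((lpAct μ).ac g : Lp ℂ 2 μ →ₗ[ℝ] Lp ℂ 2 μ) := by
  rw [E, E, Submodule.map_span]
  congr 1
  ext u
  constructor
  · rintro ⟨f, hf⟩
    refine ⟨(lpAct μ).ac g.symm u, ⟨f, ?_⟩, ?_⟩
    · convert coc_hasGrad_map g.symm hg.symm hf using 1
      funext x v
      simp [TS.map]
    · have := (lpAct μ).ac_comp (g : ℂ →L[ℝ] ℂ) (g.symm : ℂ →L[ℝ] ℂ) u
      rw [ContinuousLinearEquiv.coe_comp_coe_symm, (lpAct μ).ac_id] at this
      exact this.symm
  · rintro ⟨u', ⟨f, hf⟩, hu⟩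
    rw [← hu]
    exact ⟨f, coc_hasGrad_map (δ := fun x v => f (S.mv x v) - f x) g hg hf⟩

end Pool.Agent.MP_d0b2d2_an.Gen.TS
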