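import Pool.Agent.MP_d0b2d2_an.Gen.Defs

open MeasureTheory Set Filter Topology

namespace Pool.Agent.MP_d0b2d2_an.Gen

open Classical in
theorem dens_eq_sum (k : ℕ) (P : ℝ → Prop) : dens k P =
    (∑ j ∈ Finset.range (4 ^ k), if P ((j : ℝ) / 4 ^ k) then (1 : ℝ) else 0) / 4 ^ k := by
  rw [dens, Finset.card_filter]
  push_cast
  rfl

theorem dens_nonneg (k : ℕ) (P : ℝ → Prop) : 0 ≤ dens k P := by
  unfold dens; positivity

theorem dens_le_one (k : ℕ) (P : ℝ → Prop) : dens k P ≤ 1 := by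
  classical
  rw [dens, div_le_one (by positivity)]
  have := Finset.card_filter_le (Finset.range (4 ^ k)) fun j : ℕ => P ((j : ℝ) / 4 ^ k)
  rw [Finset.card_range] at this
  exact_mod_cast this

theorem dens_mono {k : ℕ} {P Q : ℝ → Prop}
    (h : ∀ j : ℕ, j < 4 ^ k → P (j / 4 ^ k) → Q (j / 4 ^ k)) : dens k P ≤ dens k Q := by
  classical
  unfold dens
  gcongr ?_ / _
  refine Nat.cast_le.2 (Finset.card_le_card fun j hj => ?_)
  rw [Finset.mem_filter] at hj ⊢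
  exact ⟨hj.1, h j (Finset.mem_range.1 hj.1) hj.2⟩

theorem dens_or (k : ℕ) (P Q : ℝ → Prop) :
    dens k (fun σ => P σ ∨ Q σ) ≤ dens k P + dens k Q := by
  classical
  simp only [dens_eq_sum]
  rw [← add_div, ← Finset.sum_add_distrib]
  gcongr with j
  by_cases h : P ((j : ℝ) / 4 ^ k) <;> by_cases h' : Q ((j : ℝ) / 4 ^ k) <;> simp [h, h']

theorem dens_false {k : ℕ} {P : ℝ → Prop} (h : ∀ j : ℕ, j < 4 ^ k → ¬ P (j / 4 ^ k)) :
    dens k P = 0 := by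
  rw [dens_eq_sum, Finset.sum_eq_zero fun j hj => if_neg (h j (Finset.mem_range.1 hj)), zero_div]

theorem dens_exists {ι : Type} (k : ℕ) (s : Finset ι) (P : ι → ℝ → Prop) :
    dens k (fun σ => ∃ i ∈ s, P i σ) ≤ ∑ i ∈ s, dens k (P i) := by
  classical
  induction s using Finset.induction_on with
  | empty => simp [dens_false]
  | insert a s ha ih =>
    rw [Finset.sum_insert ha]
    refine le_trans (dens_mono fun j _ h => ?_)
      ((dens_or k (P a) fun σ => ∃ i ∈ s, P i σ).trans (add_le_add le_rfl ih))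
    simpa using h

theorem tr_le (k : ℕ) (σ : ℝ) : tr k σ ≤ σ := by
  rw [tr, div_le_iff₀ (by positivity), mul_comm σ]
  exact Int.floor_le _

theorem lt_tr_add (k : ℕ) (σ : ℝ) : σ < tr k σ + 1 / 4 ^ k := by
  rw [tr, ← add_div, lt_div_iff₀ (by positivity), mul_comm σ]
  exact Int.lt_floor_add_one _

theorem dens_tr_eq {k j : ℕ} {σ : ℝ} :
    tr k σ = (j : ℝ) / 4 ^ k ↔ σ ∈ Ico ((j : ℝ) / 4 ^ k) (((j : ℝ) + 1) / 4 ^ k) := by
  have h : (0 : ℝ) < 4 ^ k := by positivity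
  rw [tr, div_left_inj' h.ne', mem_Ico, div_le_iff₀ h, lt_div_iff₀ h, mul_comm σ,
    ← Int.cast_natCast j, Int.cast_inj, Int.floor_eq_iff]

theorem tr_grid (k : ℕ) (j : ℕ) : tr k ((j : ℝ) / 4 ^ k) = (j : ℝ) / 4 ^ k :=
  dens_tr_eq.2 ⟨le_rfl, by gcongr; exact lt_add_one _⟩

theorem tr_tr {k N : ℕ} (h : k ≤ N) (σ : ℝ) : tr k (tr N σ) = tr k σ := by
  obtain ⟨m, rfl⟩ := Nat.exists_eq_add_of_le h
  have e₁ : (4 : ℝ) ^ k * tr (k + m) σ = (⌊4 ^ (k + m) * σ⌋ : ℝ) / ((4 ^ m : ℕ) : ℝ) := by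
    rw [tr, pow_add]; push_cast; field_simp
  have e₂ : (4 : ℝ) ^ k * σ = 4 ^ (k + m) * σ / ((4 ^ m : ℕ) : ℝ) := by
    rw [pow_add]; push_cast; field_simp
  rw [tr, e₁, tr, e₂, Int.floor_div_natCast, Int.floor_div_natCast, Int.floor_intCast]

theorem abs_tr_sub_tr {k N : ℕ} (h : k ≤ N) (σ : ℝ) :
    0 ≤ tr N σ - tr k σ ∧ tr N σ - tr k σ ≤ 1 / 4 ^ k := by
  have h₁ := tr_le k (tr N σ)
  have h₂ := lt_tr_add k (tr N σ)
  rw [tr_tr h] at h₁ h₂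
  constructor <;> linarith

theorem tr_mem {σ : ℝ} (h0 : 0 ≤ σ) (h1 : σ < 1) (k : ℕ) :
    ∃ j : ℕ, j < 4 ^ k ∧ tr k σ = (j : ℝ) / 4 ^ k := by
  have h : (0 : ℝ) < 4 ^ k := by positivity
  refine ⟨⌊4 ^ k * σ⌋₊, ?_, ?_⟩
  · rw [Nat.floor_lt (by positivity)]
    push_cast
    exact mul_lt_of_lt_one_right h h1
  · rw [tr, natCast_floor_eq_intCast_floor (by positivity)]

theorem dens_sum_mul (a b : ℕ) (f : ℕ → ℝ) : ∑ n ∈ Finset.range (a * b), f n =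
    ∑ j ∈ Finset.range a, ∑ i ∈ Finset.range b, f (j * b + i) := by
  induction a with
  | zero => simp
  | succ a ih => rw [Nat.succ_mul, Finset.sum_range_add, ih, Finset.sum_range_succ]

theorem dens_split (k m : ℕ) (Q : ℝ → ℝ → Prop) : dens (k + m) (fun σ => Q (tr k σ) σ) =
    (∑ j ∈ Finset.range (4 ^ k), dens m fun τ => Q (j / 4 ^ k) (j / 4 ^ k + τ / 4 ^ k)) /
      4 ^ k := by
  classical
  simp only [dens_eq_sum]
  rw [pow_add 4 k m, dens_sum_mul, ← Finset.sum_div, div_div, pow_add (4 : ℝ), mul_comm (4 ^ m : ℝ)]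
  congr 1
  refine Finset.sum_congr rfl fun j _ => Finset.sum_congr rfl fun i hi => ?_
  have e : ((j * 4 ^ m + i : ℕ) : ℝ) / (4 ^ k * 4 ^ m) = j / 4 ^ k + i / 4 ^ m / 4 ^ k := by
    push_cast; field_simp
  have hi' : (i : ℝ) / 4 ^ m < 1 := by
    rw [div_lt_one (by positivity)]; exact_mod_cast Finset.mem_range.1 hi
  have e' : tr k (j / 4 ^ k + i / 4 ^ m / 4 ^ k) = j / 4 ^ k :=
    dens_tr_eq.2 ⟨le_add_of_nonneg_right (by positivity), by rw [← add_div]; gcongr⟩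
  rw [e, e']

theorem dens_tr {k N : ℕ} (h : k ≤ N) (P : ℝ → Prop) :
    dens N (fun σ => P (tr k σ)) = dens k P := by
  classical
  obtain ⟨m, rfl⟩ := Nat.exists_eq_add_of_le h
  rw [dens_split k m fun a _ => P a, dens_eq_sum k]
  congr 1
  refine Finset.sum_congr rfl fun j _ => ?_
  rw [dens_eq_sum, Finset.sum_const, Finset.card_range, nsmul_eq_mul]
  push_cast
  field_simp

theorem dens_split' {k m N : ℕ} (h : k + m ≤ N) (Q : ℝ → ℝ → Prop) :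
    dens N (fun σ => Q (tr k σ) (tr (k + m) σ)) =
    (∑ j ∈ Finset.range (4 ^ k), dens m fun τ => Q (j / 4 ^ k) (j / 4 ^ k + τ / 4 ^ k)) /
      4 ^ k := by
  rw [← dens_split, ← dens_tr h fun σ => Q (tr k σ) σ]
  simp only [tr_tr (Nat.le_add_right k m)]

/-- conditioning on the window of level `k` -/
theorem dens_cond {k m N : ℕ} (h : k + m ≤ N) (Q : ℝ → ℝ → Prop) {p : ℝ}
    (hQ : ∀ j : ℕ, j < 4 ^ k →
      dens m (fun τ => Q (j / 4 ^ k) (j / 4 ^ k + τ / 4 ^ k)) ≤ p) :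
    dens N (fun σ => Q (tr k σ) (tr (k + m) σ)) ≤ p := by
  rw [dens_split' h, div_le_iff₀ (by positivity)]
  refine (Finset.sum_le_sum fun j hj => hQ j (Finset.mem_range.1 hj)).trans (le_of_eq ?_)
  rw [Finset.sum_const, Finset.card_range, nsmul_eq_mul]
  push_cast
  ring

/-- conditioning with an exceptional set of windows -/
theorem dens_cond' {k m N : ℕ} (h : k + m ≤ N) (T : ℝ → Prop) (Q : ℝ → ℝ → Prop) {p : ℝ}
    (hp : 0 ≤ p) (hQ : ∀ j : ℕ, j < 4 ^ k → T (j / 4 ^ k) →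
      dens m (fun τ => Q (j / 4 ^ k) (j / 4 ^ k + τ / 4 ^ k)) ≤ p) :
    dens N (fun σ => Q (tr k σ) (tr (k + m) σ)) ≤ dens k (fun σ => ¬ T σ) + p := by
  classical
  have e : p = (∑ _j ∈ Finset.range (4 ^ k), p) / 4 ^ k := by
    rw [Finset.sum_const, Finset.card_range, nsmul_eq_mul]
    push_cast
    field_simp
  rw [dens_split' h, dens_eq_sum k, e, ← add_div, ← Finset.sum_add_distrib]
  gcongr with j hj
  by_cases hT : T ((j : ℝ) / 4 ^ k)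
  · simpa [hT] using hQ j (Finset.mem_range.1 hj) hT
  · rw [if_pos hT]
    exact (dens_le_one _ _).trans (le_add_of_nonneg_right hp)

theorem dens_markov {m : ℕ} {f : ℝ → ℝ} (hf : ∀ τ, 0 ≤ f τ) {A t : ℝ} (ht : 0 < t)
    (h : ∑ j ∈ Finset.range (4 ^ m), f (j / 4 ^ m) ≤ 4 ^ m * A) :
    dens m (fun τ => t ≤ f τ) ≤ A / t := by
  rw [dens_eq_sum, div_le_div_iff₀ (by positivity) ht, Finset.sum_mul, mul_comm A]
  refine le_trans (Finset.sum_le_sum fun j _ => ?_) h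
  split_ifs with e
  · rwa [one_mul]
  · rw [zero_mul]; exact hf _

theorem dens_interval (m : ℕ) (a : ℝ) {l : ℝ} (hl : 0 ≤ l) :
    dens m (fun τ => a ≤ τ ∧ τ ≤ a + l) ≤ l + 1 / 4 ^ m := by
  classical
  have h4 : (0 : ℝ) < 4 ^ m := by positivity
  rw [dens, div_le_iff₀ h4, add_mul, one_div_mul_cancel h4.ne']
  suffices H : ∀ F : Finset ℕ, (∀ j ∈ F, a ≤ (j : ℝ) / 4 ^ m ∧ (j : ℝ) / 4 ^ m ≤ a + l) →
      (F.card : ℝ) ≤ l * 4 ^ m + 1 from
    H _ fun j hj => by simp only [Finset.mem_filter] at hj; exact hj.2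
  intro F hF
  rcases F.eq_empty_or_nonempty with e | e
  · rw [e]; simp; positivity
  have hs : F ⊆ Finset.Icc (F.min' e) (F.min' e + ⌊l * 4 ^ m⌋₊) := fun j hj => by
    have h₀ := F.min'_le j hj
    have h₁ := (hF j hj).2
    have h₂ := (hF _ (F.min'_mem e)).1
    rw [div_le_iff₀ h4] at h₁
    rw [le_div_iff₀ h4] at h₂
    refine Finset.mem_Icc.2 ⟨h₀, ?_⟩
    rw [← Nat.sub_le_iff_le_add']
    refine Nat.le_floor ?_
    rw [Nat.cast_sub h₀]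
    linarith
  have h₁ := Finset.card_le_card hs
  rw [Nat.card_Icc] at h₁
  have h₂ : (F.card : ℝ) ≤ ((⌊l * 4 ^ m⌋₊ + 1 : ℕ) : ℝ) := Nat.cast_le.2 (by omega)
  push_cast at h₂
  have := Nat.floor_le (a := l * 4 ^ m) (by positivity)
  linarith

/-- the least and the largest grid point with a property -/
theorem dens_ends (m : ℕ) (P : ℝ → Prop) : dens m P = 0 ∨ ∃ a b : ℝ, 0 ≤ a ∧ b < 1 ∧ P a ∧ P b ∧
    ∀ j : ℕ, j < 4 ^ m → P (j / 4 ^ m) → a ≤ j / 4 ^ m ∧ (j : ℝ) / 4 ^ m ≤ b := by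
  classical
  set F := (Finset.range (4 ^ m)).filter fun j : ℕ => P ((j : ℝ) / 4 ^ m)
  have hm : ∀ j : ℕ, j < 4 ^ m → P (j / 4 ^ m) → j ∈ F := fun j h h' =>
    Finset.mem_filter.2 ⟨Finset.mem_range.2 h, h'⟩
  rcases F.eq_empty_or_nonempty with e | e
  · exact Or.inl (dens_false fun j h h' => by simpa [e] using hm j h h')
  refine Or.inr ⟨F.min' e / 4 ^ m, F.max' e / 4 ^ m, by positivity, ?_,
    (Finset.mem_filter.1 (F.min'_mem e)).2, (Finset.mem_filter.1 (F.max'_mem e)).2,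
    fun j h h' => ⟨?_, ?_⟩⟩
  · rw [div_lt_one (by positivity)]
    exact_mod_cast Finset.mem_range.1 (Finset.mem_filter.1 (F.max'_mem e)).1
  · gcongr; exact F.min'_le j (hm j h h')
  · gcongr; exact F.le_max' j (hm j h h')

theorem dens_lin (m : ℕ) {cc : ℂ} {l η : ℝ} (hl : 0 < l) (hη : 0 < η) (h : l ≤ ‖cc‖) :
    dens m (fun τ => |dot cc ((τ : ℂ) + Complex.I)| ≤ l * η) ≤ 8 * η + 1 / 4 ^ m := by
  have h4 : (0 : ℝ) < 1 / 4 ^ m := by positivity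
  by_cases h8 : 1 / 8 ≤ η
  · exact (dens_le_one _ _).trans (by linarith)
  push Not at h8
  have e : ∀ τ : ℝ, dot cc ((τ : ℂ) + Complex.I) = cc.re * τ + cc.im := fun τ => by simp [dot]
  simp only [e]
  rcases dens_ends m (fun τ => |cc.re * τ + cc.im| ≤ l * η) with h0 | ⟨a, b, ha, hb, Pa, Pb, H⟩
  · rw [h0]; positivity
  refine le_trans (dens_mono fun j hj hP => ⟨(H j hj hP).1, (H j hj hP).2.trans ?_⟩)
    (dens_interval m a (by positivity))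
  by_contra hab
  push Not at hab
  have hn : l ^ 2 ≤ cc.re ^ 2 + cc.im ^ 2 := by
    have := Complex.sq_norm cc
    rw [Complex.normSq_apply] at this
    nlinarith
  have h₁ : |cc.re| * (b - a) ≤ 2 * (l * η) := by
    have : cc.re * (b - a) = (cc.re * b + cc.im) - (cc.re * a + cc.im) := by ring
    rw [← abs_of_nonneg (a := b - a) (by linarith), ← abs_mul, this]
    exact (abs_sub _ _).trans (by linarith)
  have h₂ : |cc.re| ≤ l / 4 := by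
    by_contra h'
    push Not at h'
    nlinarith [mul_pos (sub_pos.2 h') hη, abs_nonneg cc.re]
  have h₃ : |cc.im| ≤ l / 4 + l * η := by
    have : cc.im = (cc.re * a + cc.im) - cc.re * a := by ring
    rw [this]
    refine (abs_sub _ _).trans ?_
    rw [abs_mul, abs_of_nonneg ha]
    nlinarith [abs_nonneg cc.re]
  have h₄ : |cc.im| ≤ l / 2 := by nlinarith
  nlinarith [sq_abs cc.re, sq_abs cc.im, abs_nonneg cc.re, abs_nonneg cc.im]

theorem dens_tangent {t y : ℝ} (ht : t ∈ Icc (0 : ℝ) 1) (hy : y ∈ Icc (0 : ℝ) 1) :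
    (1 + t * y) / √(1 + y ^ 2) + (t - y) ^ 2 / 6 ≤ √(1 + t ^ 2) := by
  obtain ⟨t0, t1⟩ := ht
  obtain ⟨y0, y1⟩ := hy
  have ha := Real.sq_sqrt (x := 1 + t ^ 2) (by positivity)
  have hb := Real.sq_sqrt (x := 1 + y ^ 2) (by positivity)
  have ha0 : 0 < √(1 + t ^ 2) := by positivity
  have hb0 : 0 < √(1 + y ^ 2) := by positivity
  set a := √(1 + t ^ 2)
  set b := √(1 + y ^ 2)
  have hty : 0 ≤ t * y := by positivity
  have hty1 : t * y ≤ 1 := by nlinarith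
  have hp : (a * b) ^ 2 = (1 + t * y) ^ 2 + (t - y) ^ 2 := by rw [mul_pow, ha, hb]; ring
  have hD : 1 + t * y ≤ a * b :=
    abs_le_of_sq_le_sq' (by nlinarith [sq_nonneg (t - y)]) (by positivity) |>.2
  have h2 : a * b ≤ 2 := abs_le_of_sq_le_sq' (by rw [mul_pow, ha, hb]; nlinarith) (by norm_num) |>.2
  have h3 : b ≤ 3 / 2 := abs_le_of_sq_le_sq' (by rw [hb]; nlinarith) (by norm_num) |>.2
  have h6 : b * (a * b + (1 + t * y)) ≤ 6 := by nlinarith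
  rw [div_add' _ _ _ hb0.ne', div_le_iff₀ hb0]
  have : (t - y) ^ 2 = (a * b - (1 + t * y)) * (a * b + (1 + t * y)) := by linarith
  rw [this]
  nlinarith [mul_le_mul_of_nonneg_left h6 (sub_nonneg.2 hD)]

theorem dens_three {c₁ c₂ ν ε x y z : ℝ} (hν : 0 < ν) (h0 : 0 ≤ x) (hxy : x ≤ y) (hyz : y ≤ z)
    (h1 : z ≤ 1) (hx : |c₁ * x + c₂ + ν * √(1 + x ^ 2)| ≤ ε)
    (hy : |c₁ * y + c₂ + ν * √(1 + y ^ 2)| ≤ ε) (hz : |c₁ * z + c₂ + ν * √(1 + z ^ 2)| ≤ ε) :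
    ν * ((y - x) * (z - y)) ≤ 12 * ε := by
  have hε : 0 ≤ ε := (abs_nonneg _).trans hx
  rcases (hxy.trans hyz).eq_or_lt with e | e
  · obtain rfl : y = x := le_antisymm (e ▸ hyz) hxy
    simpa using hε
  have hy' : y ∈ Icc (0 : ℝ) 1 := ⟨by linarith, by linarith⟩
  have t₁ := dens_tangent (t := x) ⟨h0, by linarith⟩ hy'
  have t₂ := dens_tangent (t := z) ⟨by linarith, h1⟩ hy'
  have hb := Real.sq_sqrt (x := 1 + y ^ 2) (by positivity)
  have hb0 : 0 < √(1 + y ^ 2) := by positivity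
  set b := √(1 + y ^ 2)
  have e₀ : (z - y) * ((1 + x * y) / b) + (y - x) * ((1 + z * y) / b) = (z - x) * b := by
    field_simp
    rw [hb]; ring
  have k : (y - x) * (z - y) * (z - x) / 6 ≤
      (z - y) * √(1 + x ^ 2) + (y - x) * √(1 + z ^ 2) - (z - x) * b := by
    nlinarith [mul_le_mul_of_nonneg_left t₁ (sub_nonneg.2 hyz),
      mul_le_mul_of_nonneg_left t₂ (sub_nonneg.2 hxy)]
  have k' := mul_le_mul_of_nonneg_left k hν.le
  have a₁ := mul_le_mul_of_nonneg_left (abs_le.1 hx).2 (sub_nonneg.2 hyz)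
  have a₂ := mul_le_mul_of_nonneg_left (abs_le.1 hz).2 (sub_nonneg.2 hxy)
  have a₃ := mul_le_mul_of_nonneg_left (abs_le.1 hy).1 (sub_nonneg.2 e.le)
  refine le_of_mul_le_mul_right (a := z - x) ?_ (sub_pos.2 e)
  linarith

theorem dens_curv (k m : ℕ) (cc : ℂ) {σ₀ ν η : ℝ} (hν : 0 < ν) (hη : 0 < η) (h0 : 0 ≤ σ₀)
    (h1 : σ₀ + 1 / 4 ^ k ≤ 1) :
    dens m (fun τ => |dot cc (((σ₀ + τ / 4 ^ k : ℝ) : ℂ) + Complex.I) +
      ν * √(1 + (σ₀ + τ / 4 ^ k) ^ 2)| ≤ ν * η ^ 2 / 16 ^ k) ≤ 7 * η + 2 / 4 ^ m := by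
  have e : ∀ τ : ℝ, dot cc ((τ : ℂ) + Complex.I) = cc.re * τ + cc.im := fun τ => by simp [dot]
  simp only [e]
  have h4 : (0 : ℝ) < 4 ^ k := by positivity
  rcases dens_ends m (fun τ => |cc.re * (σ₀ + τ / 4 ^ k) + cc.im +
    ν * √(1 + (σ₀ + τ / 4 ^ k) ^ 2)| ≤ ν * η ^ 2 / 16 ^ k) with h0 | ⟨a, b, ha, hb, Pa, Pb, H⟩
  · rw [h0]; positivity
  have hl : 0 ≤ 7 / 2 * η := by positivity
  refine le_trans (dens_mono fun j hj hP => ?_) ((dens_or m (fun τ => a ≤ τ ∧ τ ≤ a + 7 / 2 * η)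
    fun τ => b - 7 / 2 * η ≤ τ ∧ τ ≤ b - 7 / 2 * η + 7 / 2 * η).trans
    ((add_le_add (dens_interval m _ hl) (dens_interval m _ hl)).trans (le_of_eq (by ring))))
  obtain ⟨h₁, h₂⟩ := H j hj hP
  set τ := (j : ℝ) / 4 ^ m
  have h₃ := dens_three hν (by positivity) (by gcongr) (by gcongr)
    (le_trans (by gcongr) h1) Pa hP Pb
  have e₁ : ν * ((σ₀ + τ / 4 ^ k - (σ₀ + a / 4 ^ k)) * (σ₀ + b / 4 ^ k - (σ₀ + τ / 4 ^ k))) =
      ν / 16 ^ k * ((τ - a) * (b - τ)) := by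
    rw [show (16 : ℝ) ^ k = 4 ^ k * 4 ^ k by rw [← mul_pow]; norm_num]
    field_simp
    ring
  have e₂ : 12 * (ν * η ^ 2 / 16 ^ k) = ν / 16 ^ k * (12 * η ^ 2) := by ring
  rw [e₁, e₂] at h₃
  have h₄ := le_of_mul_le_mul_left h₃ (by positivity)
  by_contra hc
  push Not at hc
  have c₁ := hc.1 h₁
  have c₂ : τ < b - 7 / 2 * η := by
    by_contra h'
    push Not at h'
    linarith [hc.2 h']
  nlinarith [mul_pos (sub_pos.2 c₁) (sub_pos.2 c₂), mul_pos (sub_pos.2 c₁) hη,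
    mul_pos (sub_pos.2 c₂) hη, mul_pos hη hη]

theorem volume_tr (k : ℕ) (P : ℝ → Prop) :
    MeasurableSet {σ | σ ∈ Ico (0 : ℝ) 1 ∧ P (tr k σ)} ∧
      volume.real {σ | σ ∈ Ico (0 : ℝ) 1 ∧ P (tr k σ)} = dens k P := by
  classical
  have h4 : (0 : ℝ) < 4 ^ k := by positivity
  have e : {σ | σ ∈ Ico (0 : ℝ) 1 ∧ P (tr k σ)} =
      ⋃ j ∈ (Finset.range (4 ^ k)).filter fun j : ℕ => P ((j : ℝ) / 4 ^ k),
        Ico ((j : ℝ) / 4 ^ k) (((j : ℝ) + 1) / 4 ^ k) := by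
    ext σ
    simp only [mem_ofPred_eq, mem_iUnion, Finset.mem_filter, Finset.mem_range, exists_prop]
    constructor
    · rintro ⟨⟨h0, h1⟩, hP⟩
      obtain ⟨j, hj, e⟩ := tr_mem h0 h1 k
      exact ⟨j, ⟨hj, e ▸ hP⟩, dens_tr_eq.1 e⟩
    · rintro ⟨j, ⟨hj, hP⟩, h⟩
      refine ⟨⟨le_trans (by positivity) h.1, h.2.trans_le ?_⟩, dens_tr_eq.2 h ▸ hP⟩
      rw [div_le_one h4]
      exact_mod_cast hj
  rw [e]
  refine ⟨Finset.measurableSet_biUnion _ fun _ _ => measurableSet_Ico, ?_⟩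
  rw [measureReal_biUnion_finset ?_ (fun _ _ => measurableSet_Ico) fun _ _ => by simp]
  · have : ∀ j : ℕ, volume.real (Ico ((j : ℝ) / 4 ^ k) (((j : ℝ) + 1) / 4 ^ k)) = 1 / 4 ^ k :=
      fun j => by
        rw [Real.volume_real_Ico_of_le (by gcongr; exact (lt_add_one _).le)]; ring
    simp only [this]
    rw [Finset.sum_const, nsmul_eq_mul, mul_one_div, dens]
  · intro i _ j _ hij
    refine disjoint_left.2 fun σ h h' => hij ?_
    have := (dens_tr_eq.2 h).symm.trans (dens_tr_eq.2 h')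
    rw [div_left_inj' h4.ne'] at this
    exact_mod_cast this

/-- almost every slope has property `P` at infinitely many levels -/
theorem ae_frequently {P : ℕ → ℕ → ℝ → Prop} {p : ℕ → ℝ} (hp : Tendsto p atTop (𝓝 0))
    (h : ∀ n k, dens k (fun σ => ¬ P n k σ) ≤ p n) :
    ∀ᵐ σ ∂(volume.restrict (Ioo (0 : ℝ) 1)), ∃ n, ∀ K, ∃ k ≥ K, P n k (tr k σ) := by
  rw [ae_restrict_iff' measurableSet_Ioo, ae_iff]
  refine le_antisymm ?_ bot_le
  have ht := ENNReal.tendsto_ofReal hp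
  rw [ENNReal.ofReal_zero] at ht
  refine ge_of_tendsto' ht fun n => ?_
  let E : ℕ → Set ℝ := fun K => {σ | σ ∈ Ico (0 : ℝ) 1 ∧ ∀ k ≥ K, ¬ P n k (tr k σ)}
  have hm : Monotone E := fun K K' hK σ hσ => ⟨hσ.1, fun k hk => hσ.2 k (hK.trans hk)⟩
  refine le_trans (measure_mono (t := ⋃ K, E K) fun σ hσ => ?_) ?_
  · simp only [mem_ofPred_eq] at hσ
    push Not at hσ
    obtain ⟨K, hK⟩ := hσ.2 n
    exact mem_iUnion.2 ⟨K, Ioo_subset_Ico_self hσ.1, hK⟩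
  rw [hm.measure_iUnion]
  refine iSup_le fun K => le_trans
    (measure_mono (t := {σ | σ ∈ Ico (0 : ℝ) 1 ∧ ¬ P n K (tr K σ)})
      fun σ hσ => ⟨hσ.1, hσ.2 K le_rfl⟩) ?_
  rw [← ofReal_measureReal (ne_top_of_le_ne_top (b := volume (Ico (0 : ℝ) 1)) (by simp)
    (measure_mono fun _ hσ => hσ.1)), (volume_tr K fun σ => ¬ P n K σ).2]
  exact ENNReal.ofReal_le_ofReal (h n K)

theorem dens_ed_re (σ : ℝ) : (ed σ).re = σ / √(1 + σ ^ 2) := by
  rw [ed, Complex.div_ofReal_re]; simp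

theorem dens_ed_im (σ : ℝ) : (ed σ).im = 1 / √(1 + σ ^ 2) := by
  rw [ed, Complex.div_ofReal_im]; simp

theorem dens_dot_ed_ed (σ σ' : ℝ) :
    dot (ed σ) (ed σ') = (1 + σ * σ') / (√(1 + σ ^ 2) * √(1 + σ' ^ 2)) := by
  have ha0 : 0 < √(1 + σ ^ 2) := by positivity
  have hb0 : 0 < √(1 + σ' ^ 2) := by positivity
  rw [dot, dens_ed_re, dens_ed_re, dens_ed_im, dens_ed_im]
  field_simp
  ring

theorem norm_ed (σ : ℝ) : ‖ed σ‖ = 1 := by
  have h := dot_self (ed σ)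
  rw [dens_dot_ed_ed, Real.mul_self_sqrt (by positivity), ← sq, div_self (by positivity)] at h
  exact (pow_eq_one_iff_of_nonneg (norm_nonneg _) two_ne_zero).1 h.symm

theorem dot_ed (σ : ℝ) : dot ((σ : ℂ) + Complex.I) (ed σ) = √(1 + σ ^ 2) := by
  have ha0 : 0 < √(1 + σ ^ 2) := by positivity
  have ha := Real.sq_sqrt (x := 1 + σ ^ 2) (by positivity)
  rw [dot, dens_ed_re, dens_ed_im]
  simp only [Complex.add_re, Complex.ofReal_re, Complex.I_re, Complex.add_im, Complex.ofReal_im,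
    Complex.I_im]
  field_simp
  rw [ha]; ring

theorem dens_ed_sub_sq (σ σ' : ℝ) : ‖ed σ - ed σ'‖ ^ 2 = 2 - 2 * dot (ed σ) (ed σ') := by
  rw [← dot_self, dot_sub_left, dot_sub_right, dot_sub_right, dot_self, dot_self, norm_ed, norm_ed,
    dot_comm (ed σ')]
  ring

theorem norm_ed_sub (σ σ' : ℝ) : ‖ed σ - ed σ'‖ ≤ |σ - σ'| := by
  refine (abs_le_of_sq_le_sq' ?_ (abs_nonneg _)).2
  rw [dens_ed_sub_sq, dens_dot_ed_ed, sq_abs]
  have ha := Real.sq_sqrt (x := 1 + σ ^ 2) (by positivity)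
  have hb := Real.sq_sqrt (x := 1 + σ' ^ 2) (by positivity)
  have h0 : 0 < √(1 + σ ^ 2) * √(1 + σ' ^ 2) := by positivity
  have hp : (√(1 + σ ^ 2) * √(1 + σ' ^ 2)) ^ 2 = (1 + σ ^ 2) * (1 + σ' ^ 2) := by
    rw [mul_pow, ha, hb]
  set s := √(1 + σ ^ 2) * √(1 + σ' ^ 2)
  have h₁ : 1 + σ * σ' ≤ s := (abs_le_of_sq_le_sq' (by nlinarith [sq_nonneg (σ - σ')]) h0.le).2
  have h₂ : 1 - σ * σ' ≤ s := (abs_le_of_sq_le_sq' (by nlinarith [sq_nonneg (σ + σ')]) h0.le).2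
  have h₃ : 2 ≤ s * (s + (1 + σ * σ')) := by nlinarith
  have e : (σ - σ') ^ 2 = (s - (1 + σ * σ')) * (s + (1 + σ * σ')) := by linarith
  have e' : 2 - 2 * ((1 + σ * σ') / s) = 2 * (s - (1 + σ * σ')) / s := by field_simp
  rw [e, e', div_le_iff₀ h0]
  nlinarith [mul_le_mul_of_nonneg_left h₃ (sub_nonneg.2 h₁)]

theorem zm_ed (σ : ℝ) (k : ℕ) :
    zm σ k (ed σ) = ((1 / 2 ^ k / √(1 + σ ^ 2) : ℝ) : ℂ) * Complex.I := by
  apply Complex.ext
  · rw [zm_re, dens_ed_re, dens_ed_im, Complex.re_ofReal_mul]; simp [div_eq_mul_inv]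
  · rw [zm_im, dens_ed_im, Complex.im_ofReal_mul, Complex.I_im]; ring

theorem dens_four (k : ℕ) : (4 : ℝ) ^ k = 2 ^ k * 2 ^ k := by rw [← mul_pow]; norm_num

theorem zm_add (σ τ : ℝ) (k B : ℕ) (y : ℂ) :
    zm (σ + τ / 4 ^ k) (k + B) y = zm τ B (zm σ k y) := by
  apply Complex.ext
  · simp only [zm_re, zm_im, dens_four, pow_add]; field_simp; ring
  · simp only [zm_im, pow_add, div_div]

theorem dens_norm_sq (y : ℂ) : ‖y‖ ^ 2 = y.re ^ 2 + y.im ^ 2 := by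
  rw [← dot_self, dot]; ring

theorem norm_zm_shear {σ σ' : ℝ} {k : ℕ} (h : |σ' - σ| ≤ 1 / 4 ^ k) (y : ℂ) :
    ‖zm σ' k y‖ ≤ 2 * ‖zm σ k y‖ := by
  have h4 : (0 : ℝ) < 4 ^ k := by positivity
  have e : σ' = σ + (σ' - σ) * 4 ^ k / 4 ^ k := by field_simp; ring
  have ht : |(σ' - σ) * 4 ^ k| ≤ 1 := by
    rwa [abs_mul, abs_of_pos h4, ← le_div_iff₀ h4]
  have := zm_add σ ((σ' - σ) * 4 ^ k) k 0 y
  rw [← e, add_zero] at this
  rw [this]
  generalize (σ' - σ) * 4 ^ k = τ at ht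
  generalize zm σ k y = z
  refine (abs_le_of_sq_le_sq' ?_ (by positivity)).2
  have ht' : τ ^ 2 ≤ 1 := by rwa [sq_le_one_iff_abs_le_one]
  rw [mul_pow, dens_norm_sq, dens_norm_sq, zm_re, zm_im]
  nlinarith [sq_nonneg (z.re + τ * z.im), sq_nonneg z.re, sq_nonneg z.im,
    mul_le_mul_of_nonneg_right ht' (sq_nonneg z.im)]

theorem norm_zm_add_le (σ : ℝ) (k B : ℕ) (y : ℂ) :
    ‖zm σ (k + B) y‖ ≤ 2 ^ B * ‖zm σ k y‖ ∧ ‖zm σ k y‖ ≤ 2 ^ B * ‖zm σ (k + B) y‖ := by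
  have := zm_add σ 0 k B y
  rw [zero_div, add_zero] at this
  rw [this]
  generalize zm σ k y = z
  have h1 : (1 : ℝ) ≤ 2 ^ B := one_le_pow₀ one_le_two
  set c : ℝ := 2 ^ B with hc
  have e : z.im = c * (z.im / c) := by field_simp
  have h2 : 1 ≤ c ^ 2 := one_le_pow₀ h1
  have h4 : 1 ≤ c ^ 2 * c ^ 2 := one_le_mul_of_one_le_of_one_le h2 h2
  constructor <;> refine (abs_le_of_sq_le_sq' ?_ (by positivity)).2 <;>
    rw [mul_pow, dens_norm_sq, dens_norm_sq, zm_re, zm_im, ← hc] <;> set q := z.im / c <;> rw [e]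
  · nlinarith [mul_le_mul_of_nonneg_right h4 (sq_nonneg q)]
  · nlinarith [mul_le_mul_of_nonneg_right h4 (sq_nonneg z.re)]

/-- flatness of the direction inside a window -/
theorem dot_ed_flat {σ σ' : ℝ} {k : ℕ} (h0 : |σ| ≤ 1) (h : |σ' - σ| ≤ 1 / 4 ^ k) (y : ℂ) :
    |dot y (ed σ') - dot y (ed σ)| ≤ 2 / 8 ^ k * ‖zm σ k y‖ := by
  have h2 : (0 : ℝ) < 2 ^ k := by positivity
  have ha0 : 0 < √(1 + σ ^ 2) := by positivity
  have hs : √(1 + σ ^ 2) ≤ 2 := by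
    rw [Real.sqrt_le_left (by norm_num)]
    nlinarith [sq_abs σ, abs_nonneg σ]
  set z := zm σ k y with hz
  have hn := (norm_ed_sub σ' σ).trans h
  have e₁ : dot (ed σ) (ed σ' - ed σ) = -(‖ed σ' - ed σ‖ ^ 2 / 2) := by
    rw [dens_ed_sub_sq, dot_sub_right, dot_self, norm_ed, dot_comm]; ring
  have e₂ : dot y (ed σ') - dot y (ed σ) = z.re / 2 ^ k * (ed σ' - ed σ).re +
      2 ^ k * z.im * √(1 + σ ^ 2) * dot (ed σ) (ed σ' - ed σ) := by
    rw [← dot_sub_right]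
    set w := ed σ' - ed σ
    rw [dot, dot, dens_ed_re, dens_ed_im, hz, zm_re, zm_im]
    field_simp
    ring
  rw [e₂, e₁]
  refine (abs_add_le _ _).trans ?_
  rw [abs_mul, abs_mul, abs_mul, abs_mul, abs_div, abs_neg, abs_of_pos h2, abs_of_pos ha0,
    abs_of_nonneg (a := ‖ed σ' - ed σ‖ ^ 2 / 2) (by positivity)]
  calc _ ≤ ‖z‖ / 2 ^ k * (1 / 4 ^ k) + 2 ^ k * ‖z‖ * 2 * ((1 / 4 ^ k) ^ 2 / 2) := by
        gcongr
        exacts [Complex.abs_re_le_norm z, (Complex.abs_re_le_norm _).trans hn,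
          Complex.abs_im_le_norm z]
    _ = _ := by
        rw [show (8 : ℝ) ^ k = 2 ^ k * 4 ^ k by rw [← mul_pow]; norm_num, dens_four]
        field_simp
        ring

end Pool.Agent.MP_d0b2d2_an.Gen
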