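import Pool.Agent.MP_d0b2d2_an.Gen.RDefs
import Pool.Agent.MP_d0b2d2_an.Gen.Dens

open Set Filter Topology

namespace Pool.Agent.MP_d0b2d2_an.Gen

open Classical in
/-- the indicator of a proposition -/
noncomputable def Count.ind (P : Prop) : ℝ := if P then 1 else 0

theorem Count.ind_nonneg (P : Prop) : 0 ≤ Count.ind P := by
  unfold Count.ind; split_ifs <;> norm_num

theorem Count.ind_le (P : Prop) : Count.ind P ≤ 1 := by
  unfold Count.ind; split_ifs <;> norm_num

theorem Count.ind_pos {P : Prop} (h : P) : Count.ind P = 1 := by simp [Count.ind, h]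

theorem Count.ind_neg {P : Prop} (h : ¬ P) : Count.ind P = 0 := by simp [Count.ind, h]

open Classical in
theorem Count.sum_ind (s : Finset ℕ) (P : ℕ → Prop) :
    ∑ k ∈ s, Count.ind (P k) = ((s.filter P).card : ℝ) := by
  unfold Count.ind
  rw [Finset.card_filter]
  push_cast
  rfl

/-- the average over the grid -/
noncomputable def Count.avg (N : ℕ) (F : ℝ → ℝ) : ℝ :=
  (∑ j ∈ Finset.range (4 ^ N), F ((j : ℝ) / 4 ^ N)) / 4 ^ N

theorem Count.dens_eq (N : ℕ) (P : ℝ → Prop) :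
    dens N P = Count.avg N (fun σ => Count.ind (P σ)) := dens_eq_sum N P

theorem Count.avg_mono {N : ℕ} {F F' : ℝ → ℝ}
    (h : ∀ j : ℕ, j < 4 ^ N → F (j / 4 ^ N) ≤ F' (j / 4 ^ N)) : Count.avg N F ≤ Count.avg N F' :=
  div_le_div_of_nonneg_right (Finset.sum_le_sum fun j hj => h j (Finset.mem_range.1 hj))
    (by positivity)

theorem Count.avg_sum (N : ℕ) (s : Finset ℕ) (F : ℕ → ℝ → ℝ) :
    Count.avg N (fun σ => ∑ k ∈ s, F k σ) = ∑ k ∈ s, Count.avg N (F k) := by
  unfold Count.avg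
  rw [Finset.sum_comm, Finset.sum_div]

theorem Count.avg_add (N : ℕ) (F F' : ℝ → ℝ) :
    Count.avg N (fun σ => F σ + F' σ) = Count.avg N F + Count.avg N F' := by
  unfold Count.avg
  rw [Finset.sum_add_distrib, add_div]

theorem Count.avg_mul (N : ℕ) (c : ℝ) (F : ℝ → ℝ) :
    Count.avg N (fun σ => c * F σ) = c * Count.avg N F := by
  unfold Count.avg
  rw [← Finset.mul_sum, mul_div_assoc]

theorem Count.avg_const (N : ℕ) (c : ℝ) : Count.avg N (fun _ => c) = c := by
  unfold Count.avg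
  simp

theorem Count.path {K K' B : ℕ} (hB : 1 ≤ B) (U : ℕ → ℝ) (Ev Bad Bad₀ : ℕ → Prop)
    {G e Λ R : ℝ} (hG : 0 < G) (he : 0 ≤ e) (hΛ : 0 ≤ Λ) (hR : 0 ≤ R) (h0 : ∀ k, 0 ≤ U k)
    (h1 : ∀ k, K ≤ k → k < K' → U (k + B) ≤ U k + Λ)
    (h2 : ∀ k, K ≤ k → k < K' → ¬ Bad k → U (k + B) ≤ U k + e)
    (h3 : ∀ k, K ≤ k → k < K' → ¬ Bad k → Ev k → U (k + B) ≤ U k + e - G)
    (h4 : ∀ k, K ≤ k → k < K' → ¬ Bad₀ k → U k ≤ R) :
    ∑ k ∈ Finset.Ico K K', Count.ind (Ev k) ≤
      ∑ k ∈ Finset.Ico K K', (Count.ind (Bad₀ (K + (k - K) % B)) +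
        ((1 + Λ / G) * Count.ind (Bad k) + e / G)) + B * R / G := by
  classical
  set f : ℕ → ℝ := fun k => (1 - Count.ind (Bad₀ (K + (k - K) % B))) * U k with hf
  have f0 : ∀ k, 0 ≤ f k := fun k => mul_nonneg (by linarith [Count.ind_le (Bad₀ (K + (k - K) % B))]) (h0 k)
  have tel : ∑ k ∈ Finset.Ico K K', (f k - f (k + B)) ≤ B * R := by
    rw [Finset.sum_sub_distrib, Finset.sum_Ico_add' f K K' B,
      ← Finset.sum_filter_add_sum_filter_not (Finset.Ico K K') (fun k => k < K + B)]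
    have a1 : ∑ k ∈ (Finset.Ico K K').filter (fun k => ¬ k < K + B), f k ≤
        ∑ k ∈ Finset.Ico (K + B) (K' + B), f k := by
      refine Finset.sum_le_sum_of_subset_of_nonneg ?_ fun k _ _ => f0 k
      intro k hk
      simp only [Finset.mem_filter, Finset.mem_Ico] at hk ⊢
      omega
    have a2 : ∑ k ∈ (Finset.Ico K K').filter (fun k => k < K + B), f k ≤ B * R := by
      calc _ ≤ ∑ k ∈ (Finset.Ico K K').filter (fun k => k < K + B), R := by
            refine Finset.sum_le_sum fun k hk => ?_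
            simp only [Finset.mem_filter, Finset.mem_Ico] at hk
            have e1 : K + (k - K) % B = k := by rw [Nat.mod_eq_of_lt (by omega)]; omega
            simp only [hf, e1]
            by_cases hb : Bad₀ k
            · simp [Count.ind_pos hb, hR]
            · simpa [Count.ind_neg hb] using h4 k hk.1.1 hk.1.2 hb
        _ ≤ ∑ k ∈ Finset.Ico K (K + B), R := by
            refine Finset.sum_le_sum_of_subset_of_nonneg ?_ fun k _ _ => hR
            intro k hk
            simp only [Finset.mem_filter, Finset.mem_Ico] at hk ⊢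
            omega
        _ = B * R := by simp
    linarith
  have step : ∀ k ∈ Finset.Ico K K', Count.ind (Ev k) ≤ (Count.ind (Bad₀ (K + (k - K) % B)) +
      ((1 + Λ / G) * Count.ind (Bad k) + e / G)) + (f k - f (k + B)) / G := by
    intro k hk
    rw [Finset.mem_Ico] at hk
    have e1 : (k + B - K) % B = (k - K) % B := by
      rw [show k + B - K = k - K + B by omega, Nat.add_mod_right]
    simp only [hf, e1]
    have p1 : 0 ≤ Λ / G := by positivity
    have p2 : 0 ≤ e / G := by positivity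
    by_cases hb0 : Bad₀ (K + (k - K) % B)
    · rw [Count.ind_pos hb0]
      have := Count.ind_le (Ev k)
      have := mul_nonneg (by linarith : 0 ≤ 1 + Λ / G) (Count.ind_nonneg (Bad k))
      simp only [sub_self, zero_mul, zero_div]
      linarith
    · rw [Count.ind_neg hb0]
      simp only [sub_zero, one_mul, zero_add]
      by_cases hb : Bad k
      · rw [Count.ind_pos hb]
        have a1 := Count.ind_le (Ev k)
        have a2 : -Λ / G ≤ (U k - U (k + B)) / G :=
          div_le_div_of_nonneg_right (by linarith [h1 k hk.1 hk.2]) hG.le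
        rw [neg_div] at a2
        linarith
      · rw [Count.ind_neg hb, mul_zero, zero_add, ← add_div, le_div_iff₀ hG]
        by_cases hv : Ev k
        · rw [Count.ind_pos hv]; linarith [h3 k hk.1 hk.2 hb hv]
        · rw [Count.ind_neg hv]; linarith [h2 k hk.1 hk.2 hb]
  refine (Finset.sum_le_sum step).trans ?_
  rw [Finset.sum_add_distrib, ← Finset.sum_div]
  have := div_le_div_of_nonneg_right tel hG.le
  linarith

/-- the counting lemma for a potential with a drift -/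
theorem count_blocks {N K K' B : ℕ} (hB : 1 ≤ B) (hK : K ≤ K') (U : ℝ → ℕ → ℝ)
    (Ev Bad Bad₀ : ℝ → ℕ → Prop) {G e Λ R p p₀ : ℝ} (hG : 0 < G) (he : 0 ≤ e) (hΛ : 0 ≤ Λ)
    (hR : 0 ≤ R) (hp : 0 ≤ p) (hp₀ : 0 ≤ p₀) (h0 : ∀ σ k, 0 ≤ U σ k)
    (h1 : ∀ j : ℕ, j < 4 ^ N → ∀ k, K ≤ k → k < K' →
      U (j / 4 ^ N) (k + B) ≤ U (j / 4 ^ N) k + Λ)
    (h2 : ∀ j : ℕ, j < 4 ^ N → ∀ k, K ≤ k → k < K' → ¬ Bad (j / 4 ^ N) k →
      U (j / 4 ^ N) (k + B) ≤ U (j / 4 ^ N) k + e)
    (h3 : ∀ j : ℕ, j < 4 ^ N → ∀ k, K ≤ k → k < K' → ¬ Bad (j / 4 ^ N) k → Ev (j / 4 ^ N) k →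
      U (j / 4 ^ N) (k + B) ≤ U (j / 4 ^ N) k + e - G)
    (h4 : ∀ j : ℕ, j < 4 ^ N → ∀ k, K ≤ k → k < K' → ¬ Bad₀ (j / 4 ^ N) k → U (j / 4 ^ N) k ≤ R)
    (h5 : ∀ k, K ≤ k → k < K' → dens N (fun σ => Bad σ k) ≤ p)
    (h6 : ∀ k, K ≤ k → k < K' → dens N (fun σ => Bad₀ σ k) ≤ p₀) :
    ∑ k ∈ Finset.Ico K K', dens N (fun σ => Ev σ k) ≤
      ((K' : ℝ) - K + B) * (p * (1 + Λ / G) + e / G + p₀) + B * R / G := by
  simp only [Count.dens_eq] at h5 h6 ⊢
  rw [← Count.avg_sum]
  refine (Count.avg_mono (F' := fun σ => ∑ k ∈ Finset.Ico K K',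
    (Count.ind (Bad₀ σ (K + (k - K) % B)) + ((1 + Λ / G) * Count.ind (Bad σ k) + e / G)) +
      B * R / G) fun j hj => Count.path hB _ _ _ _ hG he hΛ hR (h0 _) (h1 j hj) (h2 j hj)
        (h3 j hj) (h4 j hj)).trans ?_
  rw [Count.avg_add, Count.avg_const, Count.avg_sum]
  have p1 : 0 ≤ Λ / G := by positivity
  have p2 : 0 ≤ e / G := by positivity
  have : ∑ k ∈ Finset.Ico K K', Count.avg N (fun σ => Count.ind (Bad₀ σ (K + (k - K) % B)) +
      ((1 + Λ / G) * Count.ind (Bad σ k) + e / G)) ≤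
      ∑ k ∈ Finset.Ico K K', (p * (1 + Λ / G) + e / G + p₀) := by
    refine Finset.sum_le_sum fun k hk => ?_
    rw [Finset.mem_Ico] at hk
    rw [Count.avg_add, Count.avg_add, Count.avg_mul, Count.avg_const]
    have a1 := h6 (K + (k - K) % B) (by omega) (by have := Nat.mod_le (k - K) B; omega)
    have a2 := mul_le_mul_of_nonneg_left (h5 k hk.1 hk.2) (by linarith : 0 ≤ 1 + Λ / G)
    linarith
  rw [Finset.sum_const, Nat.card_Ico, nsmul_eq_mul, Nat.cast_sub hK] at this
  have q : 0 ≤ (B : ℝ) * (p * (1 + Λ / G) + e / G + p₀) := by positivity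
  linarith

open Classical in
/-- the rising sun lemma -/
theorem rising_sun (T : ℕ → Prop) (K N : ℕ) :
    ((Finset.Ico K N).filter fun k => ∃ B, k + B ≤ N ∧
      2 * ((Finset.Ioc k (k + B)).filter T).card < B).card ≤
      2 * ((Finset.Ioc K N).filter fun k => ¬ T k).card := by
  induction hn : N - K using Nat.strong_induction_on generalizing K with
  | _ n ih =>
    by_cases hK : N ≤ K
    · simp [Finset.Ico_eq_empty_of_le hK]
    by_cases hb : ∃ B, K + B ≤ N ∧ 2 * ((Finset.Ioc K (K + B)).filter T).card < B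
    · obtain ⟨B, b1, b2⟩ := hb
      have a1 := ih (N - (K + B)) (by omega) (K + B) rfl
      have a2 := Finset.card_filter_add_card_filter_not (s := Finset.Ioc K (K + B)) T
      rw [Nat.card_Ioc] at a2
      have a3 : ((Finset.Ioc K (K + B)).filter fun k => ¬ T k).card +
          ((Finset.Ioc (K + B) N).filter fun k => ¬ T k).card =
          ((Finset.Ioc K N).filter fun k => ¬ T k).card := by
        rw [← Finset.card_union_of_disjoint, ← Finset.filter_union,
          Finset.Ioc_union_Ioc_eq_Ioc (by omega) b1]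
        exact Finset.disjoint_filter_filter (Finset.Ioc_disjoint_Ioc_of_le le_rfl)
      have a4 : ((Finset.Ico K N).filter fun k => ∃ B, k + B ≤ N ∧
          2 * ((Finset.Ioc k (k + B)).filter T).card < B) ⊆ Finset.Ico K (K + B) ∪
          ((Finset.Ico (K + B) N).filter fun k => ∃ B, k + B ≤ N ∧
          2 * ((Finset.Ioc k (k + B)).filter T).card < B) := by
        intro k hk
        simp only [Finset.mem_filter, Finset.mem_Ico, Finset.mem_union] at hk ⊢
        by_cases c : k < K + B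
        · exact Or.inl ⟨hk.1.1, c⟩
        · exact Or.inr ⟨⟨by omega, hk.1.2⟩, hk.2⟩
      have a5 := (Finset.card_le_card a4).trans (Finset.card_union_le _ _)
      rw [Nat.card_Ico] at a5
      omega
    · have a1 := ih (N - (K + 1)) (by omega) (K + 1) rfl
      refine le_trans (Finset.card_le_card ?_) (a1.trans (Nat.mul_le_mul_left 2
        (Finset.card_le_card (Finset.filter_subset_filter _
          (Finset.Ioc_subset_Ioc_left (by omega))))))
      intro k hk
      simp only [Finset.mem_filter, Finset.mem_Ico] at hk ⊢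
      refine ⟨⟨?_, hk.1.2⟩, hk.2⟩
      rcases hk.1.1.eq_or_lt with rfl | c
      · exact (hb hk.2).elim
      · omega

/-- the pathwise block lemma -/
theorem block {ι : Type} (Adm : Set ι) (u : ℕ → ι → ℝ) (U : ℕ → ℝ) {Γ E : ℝ} (hΓ : 0 ≤ Γ)
    (hE : 0 ≤ E) (n : ℕ) (h1 : ∀ i, Γ ≤ U i) (h2 : ∀ i, ∀ W ∈ Adm, u i W ≤ U i)
    (h3 : ∀ i x, Γ ≤ x → (∀ W ∈ Adm, u i W ≤ x) → U i ≤ x)
    (h4 : ∀ i < n, ∀ W ∈ Adm, u (i + 1) W ≤ u i W + Γ / 2) :
    U n ≤ U 0 + n * (Γ / 2) ∧
    ((∀ i < n, ∀ W ∈ Adm, U i - Γ ≤ u i W → u (i + 1) W ≤ u i W + E) →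
      U n ≤ U 0 + n * E ∧ (1 ≤ n → (∀ W ∈ Adm, U 0 - Γ ≤ u 0 W → u n W ≤ U 0 - Γ / 2) →
        U n ≤ max Γ (U 0 - Γ / 2 + n * E))) := by
  refine ⟨?_, fun h5 => ?_⟩
  · have : ∀ i ≤ n, U i ≤ U 0 + i * (Γ / 2) := by
      intro i hi
      induction i with
      | zero => simp
      | succ i ih =>
        have a1 := ih (by omega)
        have a2 := h3 (i + 1) (U i + Γ / 2) (by linarith [h1 i])
          (fun W hW => by linarith [h4 i (by omega) W hW, h2 i W hW])
        push_cast; linarith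
    exact this n le_rfl
  have key : ∀ i ≤ n, U i ≤ U 0 + i * E := by
    intro i hi
    induction i with
    | zero => simp
    | succ i ih =>
      have a1 := ih (by omega)
      have a2 := h3 (i + 1) (U i + E) (by linarith [h1 i]) (fun W hW => by
        by_cases c : U i - Γ ≤ u i W
        · linarith [h5 i (by omega) W hW c, h2 i W hW]
        · linarith [h4 i (by omega) W hW, not_le.1 c])
      push_cast; linarith
  refine ⟨key n le_rfl, fun hn h6 => h3 n _ (le_max_left _ _) fun W hW => le_max_of_le_right ?_⟩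
  have nE : 0 ≤ (n : ℝ) * E := by positivity
  by_cases c : U 0 - Γ ≤ u 0 W
  · linarith [h6 W hW c]
  have : ∀ i, i + 1 ≤ n → u (i + 1) W ≤ U 0 - Γ / 2 + (i + 1 : ℕ) * E := by
    intro i hi
    induction i with
    | zero =>
      have := h4 0 (by omega) W hW
      push_cast; linarith [not_le.1 c]
    | succ i ih =>
      have a1 := ih (by omega)
      have a2 := key (i + 1) (by omega)
      push_cast at a1 a2 ⊢
      by_cases c' : U (i + 1) - Γ ≤ u (i + 1) W
      · linarith [h5 (i + 1) (by omega) W hW c']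
      · linarith [h4 (i + 1) (by omega) W hW, not_le.1 c']
  obtain ⟨m, rfl⟩ : ∃ m, n = m + 1 := ⟨n - 1, by omega⟩
  exact this m le_rfl

namespace ResData

variable {ρ : ℕ} {V : Type} [NormedAddCommGroup V] [InnerProductSpace ℝ V] (D : ResData ρ V)

open Classical in
theorem Count_gap {δ κ₀ κ : ℝ} (h0 : 0 < κ₀) (h1 : κ₀ < 1) (hκ : κ ≤ -Real.log κ₀ / 2)
    (hg : ∀ σ k u, D.th σ (k + 1) (δ / 2) → ‖D.A σ k u‖ ≤ 2 * κ₀ * ‖D.A σ (k + 1) u‖)
    (σ : ℝ) (k B : ℕ)
    (h : ¬ 2 * ((Finset.Ioc k (k + B)).filter fun i => D.th (tr i σ) i δ).card < B) :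
    D.GapAt κ (tr (k + B) σ) k B := by
  intro u
  have key : ∀ b ≤ B, ‖D.A (tr (k + B) σ) k u‖ ≤
      2 ^ b * κ₀ ^ ((Finset.Ioc k (k + b)).filter fun i => D.th (tr i σ) i δ).card *
        ‖D.A (tr (k + B) σ) (k + b) u‖ := by
    intro b hb
    induction b with
    | zero => simp
    | succ b ih =>
      refine (ih (by omega)).trans ?_
      rw [← add_assoc, ← Finset.insert_Ioc_right_eq_Ioc_add_one (by omega), Finset.filter_insert]
      split_ifs with c
      · rw [Finset.card_insert_of_notMem (by simp)]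
        have a1 := abs_tr_sub_tr (show k + b + 1 ≤ k + B by omega) σ
        have a2 := hg _ _ u (D.thS _ (tr (k + B) σ) _ _ (by rw [abs_of_nonneg a1.1]; exact a1.2) c)
        calc _ ≤ 2 ^ b * κ₀ ^ ((Finset.Ioc k (k + b)).filter fun i => D.th (tr i σ) i δ).card *
              (2 * κ₀ * ‖D.A (tr (k + B) σ) (k + b + 1) u‖) := by gcongr
          _ = _ := by ring
      · have a2 := D.lipD (tr (k + B) σ) (k + b) u
        calc _ ≤ 2 ^ b * κ₀ ^ ((Finset.Ioc k (k + b)).filter fun i => D.th (tr i σ) i δ).card *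
              (2 * ‖D.A (tr (k + B) σ) (k + b + 1) u‖) := by gcongr
          _ = _ := by ring
  have a1 := key B le_rfl
  generalize ((Finset.Ioc k (k + B)).filter fun i => D.th (tr i σ) i δ).card = t at h a1
  have a2 : Real.exp (κ * B) * κ₀ ^ t ≤ 1 := by
    have l0 : Real.log κ₀ < 0 := Real.log_neg h0 h1
    have tB : (B : ℝ) ≤ 2 * t := by exact_mod_cast not_lt.1 h
    rw [← Real.exp_log (pow_pos h0 t), ← Real.exp_add, Real.exp_le_one_iff, Real.log_pow]
    have := mul_le_mul_of_nonneg_right hκ (Nat.cast_nonneg (α := ℝ) B)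
    nlinarith
  calc _ ≤ Real.exp (κ * B) * (2 ^ B * κ₀ ^ t * ‖D.A (tr (k + B) σ) (k + B) u‖) := by gcongr
    _ = Real.exp (κ * B) * κ₀ ^ t * (2 ^ B * ‖D.A (tr (k + B) σ) (k + B) u‖) := by ring
    _ ≤ 1 * (2 ^ B * ‖D.A (tr (k + B) σ) (k + B) u‖) := by gcongr
    _ = _ := one_mul _

/-- the spectral gap holds at most times -/
theorem good_dens {η : ℝ} (hη : 0 < η) : ∃ κ : ℝ, 0 < κ ∧ κ ≤ 1 / 2 ∧
    (∀ K N, ∑ k ∈ Finset.Ico K N, dens N (fun σ => ¬ D.Good κ N σ k) ≤ η * N) ∧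
    ∀ k B N, k + B ≤ N → dens N (fun σ => ¬ D.GapAt κ (tr (k + B) σ) k B) ≤ η := by
  classical
  obtain ⟨C, a, ha, hC⟩ := D.nondiv
  obtain ⟨δ, hδ, hd⟩ : ∃ δ : ℝ, 0 < δ ∧ C * δ ^ a ≤ η / 2 := by
    have p : 0 < η / 2 / (|C| + 1) := by positivity
    refine ⟨(η / 2 / (|C| + 1)) ^ a⁻¹, Real.rpow_pos_of_pos p _, ?_⟩
    rw [Real.rpow_inv_rpow p.le ha.ne', ← mul_div_assoc, div_le_iff₀ (by positivity)]
    nlinarith [le_abs_self C]
  obtain ⟨κ₀, h0, h1, hg⟩ := D.gap (δ / 2) (by positivity)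
  have l0 : Real.log κ₀ < 0 := Real.log_neg h0 h1
  have thin : ∀ i N, i ≤ N →
      Count.avg N (fun σ => Count.ind (¬ D.th (tr i σ) i δ)) ≤ η / 2 := by
    intro i N hi
    rw [← Count.dens_eq N (fun σ => ¬ D.th (tr i σ) i δ), dens_tr hi (fun σ => ¬ D.th σ i δ)]
    exact (hC i δ hδ).trans hd
  refine ⟨min (1 / 2) (-Real.log κ₀ / 2), lt_min (by norm_num) (by linarith), min_le_left _ _,
    fun K N => ?_, fun k B N hk => ?_⟩
  · simp only [Count.dens_eq]
    rw [← Count.avg_sum]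
    refine (Count.avg_mono (F' := fun σ => 2 * ∑ i ∈ Finset.Ioc K N,
      Count.ind (¬ D.th (tr i σ) i δ)) fun j _ => ?_).trans ?_
    · rw [Count.sum_ind, Count.sum_ind]
      have := rising_sun (fun i => D.th (tr i ((j : ℝ) / 4 ^ N)) i δ) K N
      have this' := (Nat.cast_le (α := ℝ)).2 this
      rw [Nat.cast_mul, Nat.cast_ofNat] at this'
      refine le_trans ?_ (this'.trans (le_of_eq (by congr!)))
      refine Nat.cast_le.2 (Finset.card_le_card ?_)
      intro k hk
      simp only [Finset.mem_filter] at hk ⊢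
      refine ⟨hk.1, ?_⟩
      by_contra hc
      exact hk.2 fun B hB => D.Count_gap h0 h1 (min_le_right _ _) hg _ k B
        (fun c => hc ⟨B, hB, c⟩)
    · rw [Count.avg_mul, Count.avg_sum]
      have := Finset.sum_le_sum (s := Finset.Ioc K N) fun i hi => thin i N (Finset.mem_Ioc.1 hi).2
      rw [Finset.sum_const, Nat.card_Ioc, nsmul_eq_mul] at this
      have a1 : ((N - K : ℕ) : ℝ) ≤ N := by exact_mod_cast Nat.sub_le N K
      nlinarith
  · rcases Nat.eq_zero_or_pos B with rfl | hB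
    · rw [dens_false fun j _ c => c (D.Count_gap h0 h1 (min_le_right _ _) hg _ k 0 (by simp))]
      exact hη.le
    have hB' : (0 : ℝ) < B := by exact_mod_cast hB
    rw [Count.dens_eq]
    refine (Count.avg_mono (F' := fun σ => 2 / B * ∑ i ∈ Finset.Ioc k (k + B),
      Count.ind (¬ D.th (tr i σ) i δ)) fun j _ => ?_).trans ?_
    · rw [Count.sum_ind]
      by_cases c : 2 * ((Finset.Ioc k (k + B)).filter
          fun i => D.th (tr i ((j : ℝ) / 4 ^ N)) i δ).card < B
      · have a2 := Finset.card_filter_add_card_filter_not (s := Finset.Ioc k (k + B))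
          (fun i => D.th (tr i ((j : ℝ) / 4 ^ N)) i δ)
        rw [Nat.card_Ioc] at a2
        refine (Count.ind_le _).trans ?_
        rw [div_mul_eq_mul_div, le_div_iff₀ hB', one_mul]
        exact_mod_cast (by omega : B ≤ 2 * ((Finset.Ioc k (k + B)).filter
          fun i => ¬ D.th (tr i ((j : ℝ) / 4 ^ N)) i δ).card)
      · rw [Count.ind_neg (not_not.2 (D.Count_gap h0 h1 (min_le_right _ _) hg _ k B c))]
        positivity
    · rw [Count.avg_mul, Count.avg_sum]
      have := Finset.sum_le_sum (s := Finset.Ioc k (k + B))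
        fun i hi => thin i N ((Finset.mem_Ioc.1 hi).2.trans hk)
      rw [Finset.sum_const, Nat.card_Ioc, nsmul_eq_mul, Nat.add_sub_cancel_left] at this
      calc _ ≤ 2 / (B : ℝ) * (B * (η / 2)) := by gcongr
        _ = η := by field_simp

end ResData

end Pool.Agent.MP_d0b2d2_an.Gen
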