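import Pool.Agent.MP_d0b2d2_an.Gen.Fan
import Pool.Agent.MP_d0b2d2_an.Gen.Api3

open MeasureTheory Set Filter Topology Metric

namespace Pool.Agent.MP_d0b2d2_an.Gen

theorem cyl_wedge_I (y : ℂ) : wedge y Complex.I = y.re := by simp [wedge]

/-- an area-preserving frame in which `v` is vertical -/
theorem cyl_frame {v : ℂ} (hv : v ≠ 0) : ∃ g : ℂ ≃L[ℝ] ℂ, Sl (g : ℂ →L[ℝ] ℂ) ∧
    g.symm Complex.I = v ∧ ∀ y, (g y).re = wedge y v := by
  have hN : dot v v ≠ 0 := by rw [dot_self]; simpa using hv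
  let L : ℂ →ₗ[ℝ] ℂ :=
    { toFun := fun y => ⟨wedge y v, dot y v / dot v v⟩
      map_add' := fun y y' => by
        apply Complex.ext <;> simp [wedge_add_left, dot_add_left, add_div]
      map_smul' := fun r y => by apply Complex.ext <;> simp [wedge, dot] <;> ring }
  have hL : ∀ y y', wedge (L y) (L y') = wedge y y' := fun y y' => by
    change wedge y v * (dot y' v / dot v v) - dot y v / dot v v * wedge y' v = _
    field_simp
    simp only [wedge, dot]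
    ring
  have hi : Function.Injective L := (injective_iff_map_eq_zero L).2 fun y hy => by
    have h1 := hL y 1
    have h2 := hL y Complex.I
    rw [hy, wedge_zero_left] at h1 h2
    apply Complex.ext <;> simp [wedge] at h1 h2 ⊢ <;> linarith
  refine ⟨(LinearEquiv.ofInjectiveEndo L hi).toContinuousLinearEquiv, hL, ?_, fun y => rfl⟩
  rw [ContinuousLinearEquiv.symm_apply_eq]
  change Complex.I = ⟨wedge v v, dot v v / dot v v⟩
  apply Complex.ext <;> simp [wedge_self, hN]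

theorem cyl_hull {p w u : ℂ} (h : p ∈ convexHull ℝ ({0, w, u} : Set ℂ)) :
    ∃ β γ : ℝ, 0 ≤ β ∧ 0 ≤ γ ∧ β + γ ≤ 1 ∧ p = β • w + γ • u := by
  rw [convexHull_insert (by simp), convexHull_pair] at h
  obtain ⟨_, rfl, _, ⟨β, γ, h1, h2, h3, rfl⟩, a, b, h4, h5, h6, rfl⟩ := mem_convexJoin.1 h
  refine ⟨b * β, b * γ, by positivity, by positivity, ?_, by module⟩
  rw [← mul_add, h3]
  linarith

theorem cyl_convex (v : ℂ) {J : Set ℝ} (hJ : Convex ℝ J) : Convex ℝ {y : ℂ | wedge y v ∈ J} :=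
  hJ.is_linear_preimage ⟨fun y y' => wedge_add_left y y' v, fun r y => wedge_smul_left y v r⟩

theorem cyl_volume (A B : Set ℝ) : volume (A ×ℂ B) = volume A * volume B := by
  rw [← Measure.prod_prod, ← Measure.volume_eq_prod,
    ← Complex.volume_preserving_equiv_real_prod.measure_preimage_equiv]
  rfl

namespace TS

section Aux

variable {X : Type} [TopologicalSpace X] [MeasurableSpace X] {μ : Measure X} {S : TS X μ} {x : X}

theorem cyl_convex_ok {B : Set ℂ} (hB : Convex ℝ B) (h : ∀ y ∈ B, S.Ok x y) :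
    ∀ y ∈ B, ∀ y' ∈ B, S.Ok (S.mv x y) (y' - y) := fun y hy y' hy' =>
  (convex_ok ((convex_singleton 0).convexJoin hB)
    (subset_convexJoin_left ⟨y, hy⟩ rfl) (by
      intro z hz
      obtain ⟨_, rfl, p, hp, a, b, h1, h2, h3, rfl⟩ := mem_convexJoin.1 hz
      rw [smul_zero, zero_add]
      exact ok_smul (h p hp) h2 (by linarith))
    y (subset_convexJoin_right (singleton_nonempty 0) hy)
    y' (subset_convexJoin_right (singleton_nonempty 0) hy')).1

theorem cyl_map_hit (g : ℂ ≃L[ℝ] ℂ) (hg : Sl (g : ℂ →L[ℝ] ℂ)) {w : ℂ}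
    (h : (S.map g hg).Hit x w) : S.Hit x (g.symm w) :=
  ⟨h.1, fun t h0 h1 => by rw [← map_smul]; exact h.2 t h0 h1⟩

variable [T2Space X]

theorem cyl_per {D : Set ℂ} (hD : Convex ℝ D) (h0 : 0 ∈ D) (h : ∀ y ∈ D, S.Ok x y) {y₀ w : ℂ}
    (h1 : y₀ ∈ D) (h2 : y₀ + w ∈ D) (h3 : S.mv x y₀ = S.mv x (y₀ + w)) (n : ℤ) :
    ∀ z ∈ D, z + (n : ℝ) • w ∈ D → S.mv x z = S.mv x (z + (n : ℝ) • w) := by
  have key : ∀ n : ℕ, ∀ z ∈ D, z + (n : ℝ) • w ∈ D → S.mv x z = S.mv x (z + (n : ℝ) • w) := by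
    intro n
    induction n with
    | zero => simp
    | succ n ih =>
      intro z hz hz'
      have hn : (0 : ℝ) < (n + 1 : ℕ) := by positivity
      have hm := hD.add_smul_mem hz hz' (t := n / (n + 1 : ℕ))
        ⟨by positivity, by rw [div_le_one hn]; simp⟩
      rw [smul_smul, div_mul_cancel₀ _ hn.ne'] at hm
      have e : z + ((n + 1 : ℕ) : ℝ) • w = z + (n : ℝ) • w + w := by
        rw [Nat.cast_succ, add_smul, one_smul, add_assoc]
      rw [e] at hz' ⊢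
      rw [ih z hz hm, ident hD h0 h h1 h2 h3 _ hm hz']
  obtain ⟨m, rfl | rfl⟩ := n.eq_nat_or_neg
  · exact_mod_cast key m
  · intro z hz hz'
    have e : z + ((-(m : ℤ) : ℤ) : ℝ) • w + (m : ℝ) • w = z := by simp
    have := key m _ hz' (by rwa [e])
    rw [e] at this
    exact this.symm

/-- a coincidence spreads regularity over the union of the translates -/
theorem cyl_spread {D E : Set ℂ} (hE : Convex ℝ E) (hE' : IsOpen E) (h0 : 0 ∈ E)
    (h : ∀ y ∈ E, S.Ok x y) {y₀ w : ℂ} (h1 : y₀ ∈ E) (h2 : y₀ + w ∈ E)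
    (h3 : S.mv x y₀ = S.mv x (y₀ + w)) (hD : Convex ℝ D) (h0' : 0 ∈ D)
    (hc : ∀ y ∈ D, ∃ n : ℤ, y + (n : ℝ) • w ∈ E) : ∀ y ∈ D, S.Ok x y := by
  choose! n hn using hc
  have cons : ∀ y (k l : ℤ), y + (k : ℝ) • w ∈ E → y + (l : ℝ) • w ∈ E →
      S.mv x (y + (k : ℝ) • w) = S.mv x (y + (l : ℝ) • w) := fun y k l hk hl => by
    have e : y + (k : ℝ) • w + ((l - k : ℤ) : ℝ) • w = y + (l : ℝ) • w := by
      rw [add_assoc, ← add_smul]; simp
    have := cyl_per hE h0 h h1 h2 h3 (l - k) _ hk (by rwa [e])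
    rwa [e] at this
  refine fun y hy => (develop hD h0' (ψ := fun y => S.mv x (y + (n y : ℝ) • w)) ?_ ?_ y hy).1
  · rw [cons 0 (n 0) 0 (hn 0 h0') (by simpa using h0)]
    simp [S.mv_zero]
  · intro y hy
    obtain ⟨r, hr, hb⟩ := Metric.isOpen_iff.1 hE' _ (hn y hy)
    refine ⟨r, hr, fun y' hy' hyy => ?_⟩
    have hm : y' + (n y : ℝ) • w ∈ E := hb (by rwa [mem_ball, dist_add_right, dist_eq_norm])
    have := convex_ok hE h0 h _ (hn y hy) _ hm
    rw [add_sub_add_right_eq_sub] at this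
    exact ⟨this.1, this.2.trans (cons _ _ _ hm (hn y' hy'))⟩

theorem cyl_ext (hc : S.mv x Complex.I = x) {t : ℝ}
    (ht : ∀ y : ℂ, y.re ∈ uIcc 0 t → y.im ∈ Icc (0 : ℝ) 1 → S.Ok x y) :
    ∃ ε > 0, ∀ t', |t' - t| < ε → ∀ y : ℂ, y.re ∈ uIcc 0 t' → S.Ok x y := by
  have hK : IsCompact (uIcc 0 t ×ℂ Icc (0 : ℝ) 1) := isCompact_uIcc.reProdIm isCompact_Icc
  obtain ⟨ε, hε, hs⟩ := hK.exists_thickening_subset_open (isOpen_ok_right x)
    fun y hy => ht y hy.1 hy.2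
  have hK' : Convex ℝ (uIcc 0 t ×ℂ Icc (0 : ℝ) 1) :=
    ((convex_uIcc 0 t).linear_preimage Complex.reLm).inter
      ((convex_Icc 0 1).linear_preimage Complex.imLm)
  have h0 : (0 : ℂ) ∈ thickening ε (uIcc 0 t ×ℂ Icc (0 : ℝ) 1) :=
    self_subset_thickening hε _ ⟨left_mem_uIcc, by simp⟩
  refine ⟨ε, hε, fun t' ht' => cyl_spread (hK'.thickening ε) isOpen_thickening h0 hs
    (w := Complex.I) h0 (self_subset_thickening hε _ ⟨by simp, by simp⟩) (by simp [hc, S.mv_zero])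
    ((convex_uIcc 0 t').linear_preimage Complex.reLm) left_mem_uIcc fun y hy => ⟨-⌊y.im⌋, ?_⟩⟩
  obtain ⟨s, h1, h2⟩ : ∃ s ∈ uIcc 0 t, |y.re - s| < ε := by
    rcases uIcc_subset_uIcc_union_uIcc (b := t) hy with h | h
    · exact ⟨_, h, by simpa using hε⟩
    · exact ⟨t, right_mem_uIcc, (abs_sub_left_of_mem_uIcc h).trans_lt ht'⟩
  refine mem_thickening_iff.2 ⟨⟨s, Int.fract y.im⟩,
    ⟨h1, Int.fract_nonneg _, (Int.fract_lt_one _).le⟩, ?_⟩
  rw [Complex.dist_of_im_eq (by simp [Int.fract, sub_eq_add_neg])]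
  simpa [Real.dist_eq] using h2

end Aux

variable {X : Type} [TopologicalSpace X] [T2Space X] [CompactSpace X] [MeasurableSpace X]
  [BorelSpace X] [SecondCountableTopology X] {μ : Measure X} [IsProbabilityMeasure μ] {S : TS X μ}
  {x : X} {v : ℂ} {c : ℝ}

theorem cyl_stripI (h : S.Ok x Complex.I) (hc : S.mv x Complex.I = x) : ∃ a b : ℝ, a < 0 ∧ 0 < b ∧
    (∀ y : ℂ, y.re ∈ Ioo a b → S.Ok x y ∧ S.mv x (y + Complex.I) = S.mv x y) ∧
    (∀ e, e = a ∨ e = b → ∃ p : ℂ, p.re = e ∧ ∀ n : ℤ, S.Hit x (p + (n : ℝ) • Complex.I)) ∧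
    ∀ y y' : ℂ, y.re ∈ Ioo a b → y'.re ∈ Ioo a b → S.mv x y = S.mv x y' → y.re = y'.re := by
  set J := {t : ℝ | ∀ y : ℂ, y.re ∈ uIcc 0 t → S.Ok x y} with hJ
  have J0 : 0 ∈ J := by
    obtain ⟨ε, hε, H⟩ := cyl_ext hc (t := 0) fun y h1 h2 => by
      have e : y = y.im • Complex.I := by
        apply Complex.ext <;> simp at h1 ⊢
        exact h1
      rw [e]
      exact ok_smul h h2.1 h2.2
    exact H 0 (by simpa using hε)
  have Jo : IsOpen J := Metric.isOpen_iff.2 fun t ht => by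
    obtain ⟨ε, hε, H⟩ := cyl_ext hc fun y h1 _ => ht y h1
    exact ⟨ε, hε, fun t' ht' => H t' ht'⟩
  have Js : ∀ t ∈ J, uIcc 0 t ⊆ J := fun t ht s hs y hy => ht y (uIcc_subset_uIcc_left hs hy)
  have Jc : J.OrdConnected := ordConnected_iff_uIcc_subset.2 fun s hs t ht u hu => by
    rcases uIcc_subset_uIcc_union_uIcc (b := 0) hu with h | h
    · exact Js s hs (uIcc_comm s 0 ▸ h)
    · exact Js t ht h
  have Dc : Convex ℝ {y : ℂ | y.re ∈ J} := Jc.convex.linear_preimage Complex.reLm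
  have D0 : (0 : ℂ) ∈ {y : ℂ | y.re ∈ J} := J0
  have Dk : ∀ y ∈ {y : ℂ | y.re ∈ J}, S.Ok x y := fun y hy => hy y right_mem_uIcc
  have par : ∀ y y' : ℂ, y.re ∈ J → y'.re ∈ J → S.mv x y = S.mv x y' → y.re = y'.re := by
    intro y y' hy hy' e
    wlog hlt : y.re ≤ y'.re generalizing y y'
    · exact (this y' y hy' hy e.symm (le_of_not_ge hlt)).symm
    refine hlt.eq_or_lt.resolve_right fun hlt => S.not_all_ok x fun z => ?_
    refine cyl_spread Dc (Jo.preimage Complex.continuous_re) D0 Dk (w := y' - y) hy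
      (by rwa [add_sub_cancel]) (by rwa [add_sub_cancel]) convex_univ (mem_univ _)
      (fun z _ => ?_) z (mem_univ _)
    obtain ⟨n, hn, -⟩ := existsUnique_add_zsmul_mem_Ico (sub_pos.2 hlt) z.re y.re
    refine ⟨n, Jc.out hy hy' ?_⟩
    simp only [add_sub_cancel, zsmul_eq_mul] at hn
    simpa using Ico_subset_Icc_self hn
  obtain ⟨r, hr, -, hinj⟩ := loc_inj (Dk 0 D0)
  have bd : ∀ t ∈ J, |t| ≤ 1 / r := fun t ht => by
    have hR : MeasurableSet (uIcc 0 t ×ℂ Ico (0 : ℝ) r) :=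
      (measurableSet_uIcc.preimage Complex.measurable_re).inter
        (measurableSet_Ico.preimage Complex.measurable_im)
    have := measure_image hR (fun y hy => ht y hy.1) (x := x) fun y hy y' hy' e => by
      have e1 := par y y' (Js t ht hy.1) (Js t ht hy'.1) e
      have e2 := ident Dc D0 Dk (w := y' - y) (Js t ht hy.1)
        (by rw [add_sub_cancel]; exact Js t ht hy'.1) (by rwa [add_sub_cancel]) 0 D0
        (by simpa [e1] using J0)
      refine (sub_eq_zero.1 (hinj (mem_ball_self hr) ?_ e2 ▸ (zero_add _).symm)).symm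
      rw [zero_add, mem_ball, dist_zero_right, ← dist_eq_norm, Complex.dist_of_re_eq e1.symm,
        Real.dist_eq, abs_lt]
      constructor <;> linarith [hy.2.1, hy.2.2, hy'.2.1, hy'.2.2]
    have h2 := this ▸ prob_le_one (μ := μ) (s := S.mv x '' (uIcc 0 t ×ℂ Ico (0 : ℝ) r))
    rw [cyl_volume, Real.volume_interval, Real.volume_Ico, ← ENNReal.ofReal_mul (abs_nonneg _),
      ENNReal.ofReal_le_one, sub_zero, sub_zero] at h2
    rwa [le_div_iff₀ hr]
  have b1 : BddBelow J := ⟨_, fun t ht => (abs_le.1 (bd t ht)).1⟩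
  have b2 : BddAbove J := ⟨_, fun t ht => (abs_le.1 (bd t ht)).2⟩
  have hI : J = Ioo (sInf J) (sSup J) := by
    refine Subset.antisymm ?_
      (IsConnected.Ioo_csInf_csSup_subset ⟨⟨0, J0⟩, Jc.isPreconnected⟩ b1 b2)
    rw [← interior_Icc]
    exact interior_maximal (subset_Icc_csInf_csSup b1 b2) Jo
  generalize sInf J = a, sSup J = b at hI
  have h0 : 0 ∈ Ioo a b := hI ▸ J0
  have per := cyl_per Dc D0 Dk (w := Complex.I) D0 (by simpa using J0) (by simp [hc, S.mv_zero])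
  refine ⟨a, b, h0.1, h0.2, fun y hy => ?_, fun e he => ?_, fun y y' hy hy' =>
    par y y' (hI ▸ hy) (hI ▸ hy')⟩
  · rw [← hI] at hy
    exact ⟨Dk y hy, by simpa using (per 1 y hy (by simpa using hy)).symm⟩
  have he1 : e ∉ J := by rcases he with rfl | rfl <;> simp [hI]
  have he2 : ∀ t : ℝ, 0 ≤ t → t < 1 → t * e ∈ J := fun t t0 t1 => by
    rw [hI]
    rcases he with rfl | rfl <;> constructor <;> nlinarith [h0.1, h0.2]
  obtain ⟨p, hp, hp'⟩ : ∃ p : ℂ, p.re ∈ uIcc 0 e ∧ ¬ S.Ok x p := by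
    by_contra hh
    push Not at hh
    exact he1 hh
  have hpe : p.re = e := by
    by_contra hne
    refine hp' (Dk p ?_)
    change p.re ∈ J
    rw [hI]
    rcases he with rfl | rfl
    · rw [uIcc_of_ge h0.1.le] at hp
      exact ⟨hp.1.lt_of_ne' hne, hp.2.trans_lt h0.2⟩
    · rw [uIcc_of_le h0.2.le] at hp
      exact ⟨h0.1.trans_le hp.1, hp.2.lt_of_ne hne⟩
  refine ⟨p, hpe, fun n => ⟨fun hok => hp' ?_, fun t t0 t1 => Dk _ (by simpa [hpe] using he2 t t0 t1)⟩⟩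
  refine (ok_of_cluster (fun t t0 t1 => Dk _ (by simpa [hpe] using he2 t t0 t1))
    (S.reg _ _ hok).2 (Tendsto.mapClusterPt ?_)).1
  have h1 : Tendsto (fun t : ℝ => t • p + (n : ℝ) • Complex.I) (𝓝[<] 1)
      (𝓝 (p + (n : ℝ) • Complex.I)) :=
    (Continuous.tendsto' (by fun_prop) 1 _ (by simp)).mono_left nhdsWithin_le_nhds
  refine ((continuousAt_mv_right hok).tendsto.comp h1).congr' ?_
  filter_upwards [Ioo_mem_nhdsLT (zero_lt_one' ℝ)] with t ht
  have := he2 t ht.1.le ht.2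
  exact (per n _ (by simpa [hpe] using this) (by simpa [hpe] using this)).symm

/-- the maximal strip around a closed geodesic -/
theorem strip (hv : v ≠ 0) (h : S.Ok x v) (hc : S.mv x v = x) : ∃ a b : ℝ, a < 0 ∧ 0 < b ∧
    (∀ y, a < wedge y v → wedge y v < b → S.Ok x y ∧ S.mv x (y + v) = S.mv x y) ∧
    (∃ p, wedge p v = b ∧ ∀ n : ℤ, S.Hit x (p + (n : ℝ) • v)) ∧
    (∃ p, wedge p v = a ∧ ∀ n : ℤ, S.Hit x (p + (n : ℝ) • v)) ∧
    ∀ y y', a < wedge y v → wedge y v < b → a < wedge y' v → wedge y' v < b →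
      S.mv x y = S.mv x y' → wedge y v = wedge y' v := by
  obtain ⟨g, hg, rfl, hw⟩ := cyl_frame hv
  obtain ⟨a, b, ha, hb, h1, h2, h3⟩ := cyl_stripI (S := S.map g hg) h hc
  have h4 : ∀ e, e = a ∨ e = b → ∃ p, wedge p (g.symm Complex.I) = e ∧
      ∀ n : ℤ, S.Hit x (p + (n : ℝ) • g.symm Complex.I) := fun e he => by
    obtain ⟨p, h5, h6⟩ := h2 e he
    refine ⟨g.symm p, by rw [← hw, g.apply_symm_apply, h5], fun n => ?_⟩
    simpa only [map_add, map_smul] using cyl_map_hit g hg (h6 n)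
  refine ⟨a, b, ha, hb, fun y y1 y2 => ?_, h4 b (Or.inr rfl), h4 a (Or.inl rfl),
    fun y y' y1 y2 y3 y4 e => ?_⟩
  · simpa [TS.map] using h1 (g y) (hw y ▸ ⟨y1, y2⟩)
  · rw [← hw, ← hw]
    exact h3 _ _ (hw y ▸ ⟨y1, y2⟩) (hw y' ▸ ⟨y3, y4⟩) (by simpa [TS.map] using e)

theorem closed_sc (hv : v ≠ 0) (h : S.Ok x v) (hc : S.mv x v = x) :
    ∃ (x' : X) (t : ℝ), 0 < t ∧ t ≤ 1 / 2 ∧ S.IsSC x' (t • v) := by
  obtain ⟨a, b, ha, hb, h1, ⟨p, hp, h2⟩, -⟩ := strip hv h hc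
  have h3 : S.Hit x (p + v) := by simpa using h2 1
  have h4 : S.Hit x p := by simpa using h2 0
  obtain ⟨q, hq, h5, h6, x', h7⟩ := two_hits h3 h4 (by simpa using hv)
  obtain ⟨β, γ, h8, h9, h10, rfl⟩ := cyl_hull hq
  have e : wedge (β • (p + v) + γ • p) v = (β + γ) * b := by
    rw [wedge_add_left, wedge_smul_left, wedge_smul_left, wedge_add_left, wedge_self, hp]
    ring
  obtain rfl : γ = 1 - β := by
    by_contra hne
    have : β + γ < 1 := h10.lt_of_ne fun h => hne (by linarith)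
    exact h6.1 (h1 _ (by rw [e]; nlinarith) (by rw [e]; nlinarith)).1
  have hβ : β ≠ 1 := fun h => h5 (by simp [h])
  refine ⟨x', (1 - β) / 2, by have := h9.lt_of_ne' (sub_ne_zero.2 hβ.symm); linarith,
    by linarith, ?_⟩
  convert h7 using 1
  module

theorem Thick.le_period {δ : ℝ} (hδ : S.Thick δ) (hv : v ≠ 0) (h : S.Ok x v) (hc : S.mv x v = x) :
    δ ≤ ‖v‖ := by
  obtain ⟨x', t, h0, h1, h2⟩ := closed_sc hv h hc
  have := hδ _ _ h2
  rw [norm_smul, Real.norm_of_nonneg h0.le] at this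
  nlinarith [norm_nonneg v]

theorem Thick.injOn {δ ρ : ℝ} (hδ : S.Thick δ) (hx : x ∈ S.XR ρ) (hρ : 2 * ρ ≤ δ) :
    InjOn (S.mv x) (ball 0 ρ) := by
  intro y hy y' hy' e
  by_contra hne
  obtain ⟨h1, h2⟩ := convex_ok (convex_ball 0 ρ) (mem_ball_self (pos_of_mem_ball hy))
    (fun z hz => hx z (mem_ball_zero_iff.1 hz)) y hy y' hy'
  have := hδ.le_period (sub_ne_zero.2 (Ne.symm hne)) h1 (h2.trans e.symm)
  linarith [norm_sub_le y' y, mem_ball_zero_iff.1 hy, mem_ball_zero_iff.1 hy']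

theorem disc_cyl (hx : x ∈ S.XR 2) : ∃ v : ℂ, v ≠ 0 ∧ ‖v‖ ≤ 6 / 5 ∧ S.Ok x v ∧ S.mv x v = x ∧
    ∀ c : ℝ, 0 < c → 2 * c ≤ ‖v‖ → S.IsCyl x v c := by
  obtain ⟨w, hw, hw1, hw2⟩ : ∃ w : ℂ, w ≠ 0 ∧ ‖w‖ < 6 / 5 ∧ S.mv x w = x := by
    by_contra hh
    have := measure_image (D := ball 0 (3 / 5)) measurableSet_ball (x := x)
      (fun y hy => hx y (by linarith [mem_ball_zero_iff.1 hy])) fun y hy y' hy' e => by
        rw [mem_ball_zero_iff] at hy hy'
        have h1 : ‖y' - y‖ < 6 / 5 := by linarith [norm_sub_le y' y]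
        have h2 := ident (convex_ball 0 2) (mem_ball_self two_pos)
          (fun z hz => hx z (mem_ball_zero_iff.1 hz)) (y₀ := y) (w := y' - y)
          (mem_ball_zero_iff.2 (by linarith)) (by rw [add_sub_cancel, mem_ball_zero_iff]; linarith)
          (by rwa [add_sub_cancel]) 0 (mem_ball_self two_pos)
          (by rw [zero_add, mem_ball_zero_iff]; linarith)
        rw [S.mv_zero, zero_add] at h2
        by_contra hne
        exact hh ⟨_, sub_ne_zero.2 (Ne.symm hne), h1, h2.symm⟩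
    have h2 := this ▸ prob_le_one (μ := μ) (s := S.mv x '' ball 0 (3 / 5))
    rw [Complex.volume_ball, ← ENNReal.ofReal_pow (by norm_num), ← ENNReal.ofReal_coe_nnreal,
      ← ENNReal.ofReal_mul (by positivity), ENNReal.ofReal_le_one, NNReal.coe_real_pi] at h2
    linarith [Real.pi_gt_three]
  obtain ⟨a, b, ha, hb, h1, h2, h3, h4⟩ := strip hw (hx w (by linarith)) hw2
  have hn : 0 < ‖w‖ := norm_pos_iff.2 hw
  have wide : ∀ e : ℝ, (∃ p, wedge p w = e ∧ ∀ n : ℤ, S.Hit x (p + (n : ℝ) • w)) →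
      3 / 2 * ‖w‖ ≤ |e| := by
    rintro e ⟨p, rfl, hp⟩
    obtain ⟨n, h5, -⟩ := existsUnique_add_zsmul_mem_Ico (pow_pos hn 2) (dot p w) (-(‖w‖ ^ 2 / 2))
    have h6 : 2 ≤ ‖p + (n : ℝ) • w‖ := not_lt.1 fun h => (hp n).1 (hx _ h)
    have h7 := dot_sq_add_wedge_sq (p + (n : ℝ) • w) w
    rw [dot_add_left, dot_smul_left, dot_self, wedge_add_left, wedge_smul_left, wedge_self,
      mul_zero, add_zero] at h7
    rw [zsmul_eq_mul] at h5
    have h8 : (dot p w + n * ‖w‖ ^ 2) ^ 2 ≤ (‖w‖ ^ 2 / 2) ^ 2 :=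
      sq_le_sq' h5.1 (by linarith [h5.2])
    have h9 : 2 ^ 2 * ‖w‖ ^ 2 ≤ ‖p + (n : ℝ) • w‖ ^ 2 * ‖w‖ ^ 2 := by gcongr
    have h10 : ‖w‖ ^ 2 * ‖w‖ ^ 2 ≤ (6 / 5) ^ 2 * ‖w‖ ^ 2 := by gcongr
    refine Real.le_sqrt_of_sq_le ?_ |>.trans_eq (Real.sqrt_sq_eq_abs _)
    nlinarith
  have wb : 3 / 2 * ‖w‖ ≤ b := (wide b h2).trans_eq (abs_of_pos hb)
  have wa : 3 / 2 * ‖w‖ ≤ -a := (wide a h3).trans_eq (abs_of_neg ha)
  have Dc := cyl_convex w (convex_Ioo a b)
  have Dl : ∀ y ∈ {y : ℂ | wedge y w ∈ Ioo a b}, ∀ t : ℝ,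
      y + t • w ∈ {y : ℂ | wedge y w ∈ Ioo a b} := fun y hy t => by
    simpa [wedge_add_left, -Complex.real_smul, wedge_smul_left, wedge_self] using hy
  have D0 : (0 : ℂ) ∈ {y : ℂ | wedge y w ∈ Ioo a b} := by simp [wedge_zero_left, ha, hb]
  have Dk : ∀ y ∈ {y : ℂ | wedge y w ∈ Ioo a b}, S.Ok x y := fun y hy => (h1 y hy.1 hy.2).1
  have key : ∀ t : ℝ, ∀ y ∈ {y : ℂ | wedge y w ∈ Ioo a b}, S.mv x y = S.mv x (y + t • w) →
      ∀ z ∈ {y : ℂ | wedge y w ∈ Ioo a b}, S.mv x z = S.mv x (z + t • w) := fun t y hy e z hz =>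
    ident Dc D0 Dk hy (Dl y hy t) e z hz (Dl z hz t)
  let P : AddSubgroup ℝ :=
    { carrier := {t | S.mv x 0 = S.mv x (0 + t • w)}
      zero_mem' := by simp
      add_mem' := fun {s t} hs ht => by
        have := key t 0 D0 ht _ (Dl 0 D0 s)
        rw [add_assoc, ← add_smul] at this
        exact hs.trans this
      neg_mem' := fun {t} ht => by
        have := key t 0 D0 ht _ (Dl 0 D0 (-t))
        rw [add_assoc, ← add_smul, neg_add_cancel, zero_smul, add_zero] at this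
        exact this.symm }
  obtain ⟨r, hr, -, hinj⟩ := loc_inj (Dk 0 D0)
  obtain ⟨t₀, ht₀⟩ := P.cyclic_of_isolated_zero (div_pos hr hn) (disjoint_left.2 fun t ht ht' => by
    have := hinj (mem_ball_self hr) (by
      rw [zero_add, mem_ball_zero_iff, norm_smul, Real.norm_of_nonneg ht'.1.le]
      exact (lt_div_iff₀ hn).1 ht'.2) ht
    rw [zero_add, eq_comm, smul_eq_zero] at this
    exact this.elim ht'.1.ne' hw)
  have hP : ∀ t, t ∈ P ↔ ∃ n : ℤ, (n : ℝ) * t₀ = t := fun t => by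
    simp [ht₀, AddSubgroup.mem_closure_singleton]
  obtain ⟨m, hm⟩ := (hP 1).1 (show S.mv x 0 = _ by simp [hw2, S.mv_zero])
  have t0 : t₀ ≠ 0 := by
    rintro rfl
    simp at hm
  have t1 : |t₀| ≤ 1 := by
    have m0 : m ≠ 0 := by
      rintro rfl
      simp at hm
    have m1 : (1 : ℝ) ≤ |(m : ℝ)| := by exact_mod_cast Int.one_le_abs m0
    have := congrArg abs hm
    rw [abs_mul, abs_one] at this
    nlinarith [abs_nonneg t₀]
  have hv : ‖t₀ • w‖ = |t₀| * ‖w‖ := norm_smul _ _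
  refine ⟨t₀ • w, smul_ne_zero t0 hw, by rw [hv]; nlinarith [abs_nonneg t₀],
    by simpa using Dk _ (Dl 0 D0 t₀), ?_, fun c c0 c1 => ?_⟩
  · have : S.mv x 0 = _ := (hP t₀).2 ⟨1, by simp⟩
    rw [zero_add, S.mv_zero] at this
    exact this.symm
  have hin : ∀ y, |wedge y (t₀ • w)| < 3 * c → y ∈ {y : ℂ | wedge y w ∈ Ioo a b} := fun y hy => by
    rw [wedge_smul_right, abs_mul] at hy
    have : |wedge y w| < 3 / 2 * ‖w‖ :=
      lt_of_mul_lt_mul_left (a := |t₀|) (by nlinarith) (abs_nonneg _)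
    rw [abs_lt] at this
    exact ⟨by linarith, by linarith⟩
  refine ⟨smul_ne_zero t0 hw, c0, fun y hy => Dk y (hin y hy), fun y y' hy hy' => ?_⟩
  have hy1 := hin y hy
  have hy2 := hin y' hy'
  constructor
  · intro e
    obtain ⟨t, ht⟩ := exists_smul_of_wedge (y := y' - y)
      (by rw [wedge_sub_left, h4 y y' hy1.1 hy1.2 hy2.1 hy2.2 e, sub_self]) hw
    obtain ⟨n, hn⟩ := (hP t).1 (key t y hy1 (by rwa [← ht, add_sub_cancel]) 0 D0)
    exact ⟨n, by rw [smul_smul, hn, ht]⟩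
  · rintro ⟨n, hn⟩
    rw [smul_smul, sub_eq_iff_eq_add'] at hn
    rw [hn]
    exact key _ 0 D0 ((hP _).2 ⟨n, rfl⟩) y hy1

theorem exists_sc (S : TS X μ) : ∃ x h, S.IsSC x h ∧ 2 * ‖h‖ ≤ 8 := by
  obtain ⟨σ, -⟩ := S.ne
  obtain ⟨x, hx⟩ := S.dense.nonempty_iff.2 ⟨σ⟩
  by_cases h2 : ∃ w u, S.Hit x w ∧ S.Hit x u ∧ w ≠ u ∧ ‖w‖ < 4 ∧ ‖u‖ < 4
  · obtain ⟨w, u, hw, hu, hne, w4, u4⟩ := h2
    obtain ⟨p, hp, -, -, q, hq⟩ := two_hits hw hu hne
    have : p ∈ ball (0 : ℂ) 4 := convexHull_min (by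
      simp only [insert_subset_iff, singleton_subset_iff, mem_ball_zero_iff, norm_zero]
      exact ⟨by norm_num, w4, u4⟩) (convex_ball 0 4) hp
    refine ⟨q, _, hq, ?_⟩
    rw [norm_smul, Real.norm_of_nonneg (by norm_num)]
    linarith [norm_sub_le w p, mem_ball_zero_iff.1 this]
  obtain ⟨u, hu, hu'⟩ : ∃ u : ℂ, ‖u‖ = 2 ∧ ∀ w ∈ ball u 2, ¬ S.Hit x w := by
    by_cases h1 : ∃ w, S.Hit x w ∧ ‖w‖ < 4
    · obtain ⟨w, hw, w4⟩ := h1
      have w0 : 0 < ‖w‖ := norm_pos_iff.2 hw.reg.2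
      have e : ‖-(2 / ‖w‖) • w‖ = 2 := by
        rw [norm_smul, norm_neg, Real.norm_of_nonneg (by positivity), div_mul_cancel₀ _ w0.ne']
      refine ⟨_, e, fun w' h3 h4 => h2 ⟨w, w', hw, h4, ?_, w4, ?_⟩⟩
      · rintro rfl
        rw [mem_ball_iff_norm, show w - -(2 / ‖w‖) • w = (1 + 2 / ‖w‖) • w by module, norm_smul,
          Real.norm_of_nonneg (by positivity), add_mul, div_mul_cancel₀ _ w0.ne'] at h3
        linarith
      · linarith [norm_le_norm_add_norm_sub' w' (-(2 / ‖w‖) • w), mem_ball_iff_norm.1 h3]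
    · refine ⟨2, by simp, fun w h3 h4 => h1 ⟨w, h4, ?_⟩⟩
      linarith [norm_le_norm_add_norm_sub' w 2, mem_ball_iff_norm.1 h3, Complex.norm_two]
  have hok : ∀ y ∈ ball u 2, S.Ok x y := fun y hy => by
    by_contra hh
    obtain ⟨t, t0, t1, ht⟩ := exists_hit hx hh
    refine hu' _ ?_ ht
    rw [mem_ball_iff_norm] at hy ⊢
    have := norm_sub_le (t • (y - u)) ((1 - t) • u)
    rw [norm_smul, norm_smul, Real.norm_of_nonneg t0.le, Real.norm_of_nonneg (by linarith), hu,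
      show t • (y - u) - (1 - t) • u = t • y - u by module] at this
    nlinarith
  obtain ⟨v, hv, v1, v2, v3, -⟩ := disc_cyl (S := S) (x := S.mv x u) fun w hw => by
    simpa using cyl_convex_ok (convex_ball u 2) hok u (mem_ball_self two_pos) (u + w)
      (by simpa using hw)
  obtain ⟨x', t, t0, t1, ht⟩ := closed_sc hv v2 v3
  refine ⟨x', _, ht, ?_⟩
  rw [norm_smul, Real.norm_of_nonneg t0.le]
  nlinarith [norm_nonneg v]

omit [T2Space X] [CompactSpace X] [BorelSpace X] [SecondCountableTopology X]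
  [IsProbabilityMeasure μ] in
theorem IsCyl.closed (H : S.IsCyl x v c) : S.Ok x v ∧ S.mv x v = x := by
  have h : |wedge v v| < 3 * c := by simpa [wedge_self] using H.2.1
  exact ⟨H.2.2.1 v h, ((H.2.2.2 v 0 h (by simpa [wedge_zero_left] using H.2.1)).2
    ⟨-1, by simp⟩).trans (S.mv_zero x)⟩

omit [T2Space X] [CompactSpace X] [BorelSpace X] [SecondCountableTopology X]
  [IsProbabilityMeasure μ] in
theorem IsCyl.neg (H : S.IsCyl x v c) : S.IsCyl x (-v) c := by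
  refine ⟨neg_ne_zero.2 H.1, H.2.1, ?_, ?_⟩ <;> simp only [wedge_neg_right, abs_neg]
  · exact H.2.2.1
  · intro y y' hy hy'
    rw [H.2.2.2 y y' hy hy']
    constructor <;> rintro ⟨n, hn⟩ <;> exact ⟨-n, by simp [hn]⟩

omit [T2Space X] [CompactSpace X] [BorelSpace X] [SecondCountableTopology X]
  [IsProbabilityMeasure μ] in
theorem IsCyl.isOpen (H : S.IsCyl x v c) : IsOpen (S.cyl x v c) :=
  isOpen_image (isOpen_lt (by unfold wedge; fun_prop) continuous_const) fun y hy =>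
    H.2.2.1 y (by linarith [H.2.1, show |wedge y v| < c from hy])

omit [T2Space X] [CompactSpace X] [BorelSpace X] [SecondCountableTopology X]
  [IsProbabilityMeasure μ] in
theorem IsCyl.cyl_step (H : S.IsCyl x v c) {z y : ℂ} (hz : |wedge z v| < 3 * c)
    (hy : |wedge (z + y) v| < 3 * c) :
    S.Ok (S.mv x z) y ∧ S.mv (S.mv x z) y = S.mv x (z + y) := by
  have := convex_ok (cyl_convex v (convex_Ioo (-(3 * c)) (3 * c)))
    (abs_lt.1 (by simpa [wedge_zero_left] using H.2.1)) (fun p hp => H.2.2.1 p (abs_lt.2 hp))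
    z (abs_lt.1 hz) (z + y) (abs_lt.1 hy)
  rwa [add_sub_cancel_left] at this

omit [T2Space X] [CompactSpace X] [BorelSpace X] [SecondCountableTopology X]
  [IsProbabilityMeasure μ] in
theorem IsCyl.move (H : S.IsCyl x v c) {q : X} (hq : q ∈ S.cyl x v c) {y : ℂ}
    (hy : |wedge y v| < 2 * c) : S.Ok q y ∧ ∀ n : ℤ, S.mv q (y + (n : ℝ) • v) = S.mv q y := by
  obtain ⟨z, hz, rfl⟩ := hq
  have h0 : |wedge z v| < c := hz
  have h1 : |wedge z v| < 3 * c := by linarith [H.2.1]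
  have h2 : |wedge (z + y) v| < 3 * c := by
    rw [wedge_add_left]
    linarith [abs_add_le (wedge z v) (wedge y v)]
  refine ⟨(H.cyl_step h1 h2).1, fun n => ?_⟩
  have h3 : |wedge (z + (y + (n : ℝ) • v)) v| < 3 * c := by
    rwa [← add_assoc, wedge_add_left, wedge_smul_left, wedge_self, mul_zero, add_zero]
  rw [(H.cyl_step h1 h2).2, (H.cyl_step h1 h3).2, eq_comm]
  exact (H.2.2.2 _ _ h2 h3).2 ⟨n, by abel⟩

omit [T2Space X] [CompactSpace X] [BorelSpace X] [SecondCountableTopology X]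
  [IsProbabilityMeasure μ] in
theorem IsCyl.invariant (H : S.IsCyl x v c) {q : X} (t : ℝ) (hq : S.Ok q (t • v)) :
    S.mv q (t • v) ∈ S.cyl x v c ↔ q ∈ S.cyl x v c := by
  have key : ∀ (t : ℝ), ∀ q ∈ S.cyl x v c, S.mv q (t • v) ∈ S.cyl x v c := by
    rintro t _ ⟨z, hz, rfl⟩
    have h0 : |wedge z v| < c := hz
    have e : wedge (z + t • v) v = wedge z v := by
      rw [wedge_add_left, wedge_smul_left, wedge_self, mul_zero, add_zero]
    exact ⟨z + t • v, by rwa [mem_ofPred, e],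
      (H.cyl_step (by linarith [H.2.1]) (by rw [e]; linarith [H.2.1])).2.symm⟩
  refine ⟨fun h => ?_, key t q⟩
  have := key (-t) _ h
  rwa [neg_smul, (ok_symm hq).2] at this

omit [CompactSpace X] [IsProbabilityMeasure μ] in
theorem IsCyl.measure (H : S.IsCyl x v c) : μ.real (S.cyl x v c) = 2 * c := by
  obtain ⟨g, hg, rfl, hw⟩ := cyl_frame H.1
  obtain ⟨-, hc, h1, h2⟩ := (map_isCyl g hg x _ c).2 H
  simp only [cyl_wedge_I] at h1 h2
  have h3 : ∀ y ∈ Ioo (-c) c ×ℂ Ico (0 : ℝ) 1, |y.re| < 3 * c := fun y hy => by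
    linarith [abs_lt.2 hy.1]
  have e : S.cyl x (g.symm Complex.I) c = (S.map g hg).mv x '' (Ioo (-c) c ×ℂ Ico (0 : ℝ) 1) := by
    ext q
    constructor
    · rintro ⟨y, hy, rfl⟩
      have h4 : |(g y).re| < c := hw y ▸ hy
      have h5 : (⟨(g y).re, Int.fract (g y).im⟩ : ℂ) ∈ Ioo (-c) c ×ℂ Ico (0 : ℝ) 1 :=
        ⟨abs_lt.1 h4, Int.fract_nonneg _, Int.fract_lt_one _⟩
      refine ⟨_, h5, ((h2 _ (g y) (h3 _ h5) (by linarith)).2 ⟨⌊(g y).im⌋, ?_⟩).trans
        (by simp [TS.map])⟩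
      apply Complex.ext <;> simp
    · rintro ⟨y, hy, rfl⟩
      exact ⟨g.symm y, by rw [mem_ofPred, ← hw, g.apply_symm_apply]; exact abs_lt.2 hy.1, rfl⟩
  have hR : MeasurableSet (Ioo (-c) c ×ℂ Ico (0 : ℝ) 1) :=
    (measurableSet_Ioo.preimage Complex.measurable_re).inter
      (measurableSet_Ico.preimage Complex.measurable_im)
  rw [Measure.real, e, measure_image hR fun y hy => h1 y (h3 y hy), cyl_volume]
  · simp [hc.le, two_mul]
  · intro y hy y' hy' h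
    obtain ⟨n, hn⟩ := (h2 y y' (h3 y hy) (h3 y' hy')).1 h
    have h4 : y'.im - y.im = n := by simpa using congrArg Complex.im hn
    have h5 : |n| < 1 := by
      have : |(n : ℝ)| < 1 := by
        rw [← h4, abs_lt]
        constructor <;> linarith [hy.2.1, hy.2.2, hy'.2.1, hy'.2.2]
      exact_mod_cast this
    rw [Int.abs_lt_one_iff.1 h5, Int.cast_zero, zero_smul] at hn
    exact (sub_eq_zero.1 hn).symm

end TS

end Pool.Agent.MP_d0b2d2_an.Gen
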