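import Pool.Agent.MP_d0b2d2_an.Gen.Claim1
import Pool.Agent.MP_d0b2d2_an.Gen.Claim2
import Pool.Agent.MP_d0b2d2_an.Gen.Card
import Pool.Agent.MP_d0b2d2_an.Gen.Cyl

open MeasureTheory Set Filter Topology Metric

namespace Pool.Agent.MP_d0b2d2_an.Gen.TS

lemma cylEx_wedge_mul (h a b : ℂ) : wedge (h * a) (h * b) = ‖h‖ ^ 2 * wedge a b := by
  rw [← dot_self]; simp only [wedge, dot, Complex.mul_re, Complex.mul_im]; ring

lemma cylEx_norm_le {a b : ℂ} {l : ℝ} (hl : 0 ≤ l) (h1 : |a.re| ≤ l * |b.re|)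
    (h2 : |a.im| ≤ l * |b.im|) : ‖a‖ ≤ l * ‖b‖ := by
  refine abs_le_of_sq_le_sq' ?_ (by positivity) |>.2
  have e1 := pow_le_pow_left₀ (abs_nonneg _) h1 2
  have e2 := pow_le_pow_left₀ (abs_nonneg _) h2 2
  rw [mul_pow, sq_abs, sq_abs] at e1 e2
  rw [mul_pow, ← dot_self, ← dot_self]
  simp only [dot]
  nlinarith

/-- contraction in the direction of `h` -/
lemma cylEx_squeeze {h : ℂ} (hh : h ≠ 0) {l : ℝ} (hl : 1 ≤ l) : ∃ g : ℂ ≃L[ℝ] ℂ,
    Sl (g : ℂ →L[ℝ] ℂ) ∧ ‖g h‖ = ‖h‖ / l ∧ (∀ y, ‖g y‖ ≤ l * ‖y‖) ∧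
      ∀ y, ‖g.symm y‖ ≤ l * ‖y‖ := by
  have l0 : 0 < l := by linarith
  have hn : 0 < ‖h‖ := norm_pos_iff.2 hh
  let g : ℂ ≃ₗ[ℝ] ℂ :=
    { toFun := fun y => h * ⟨(y / h).re / l, l * (y / h).im⟩
      invFun := fun y => h * ⟨l * (y / h).re, (y / h).im / l⟩
      map_add' := fun y y' => by
        rw [← mul_add, add_div]
        congr 1
        apply Complex.ext <;> simp <;> ring
      map_smul' := fun r y => by
        rw [RingHom.id_apply, ← mul_smul_comm, smul_div_assoc]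
        congr 1
        apply Complex.ext <;> simp only [Complex.smul_re, Complex.smul_im, smul_eq_mul] <;> ring
      left_inv := fun y => by
        simp only [mul_div_cancel_left₀ _ hh]
        rw [mul_div_cancel₀ _ l0.ne', mul_div_cancel_left₀ _ l0.ne', Complex.eta,
          mul_div_cancel₀ _ hh]
      right_inv := fun y => by
        simp only [mul_div_cancel_left₀ _ hh]
        rw [mul_div_cancel₀ _ l0.ne', mul_div_cancel_left₀ _ l0.ne', Complex.eta,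
          mul_div_cancel₀ _ hh] }
  have a1 : ∀ t : ℝ, |t / l| ≤ l * |t| := fun t => by
    rw [abs_div, abs_of_pos l0, div_le_iff₀ l0]
    nlinarith [abs_nonneg t, mul_le_mul_of_nonneg_left (show 1 ≤ l * l by nlinarith) (abs_nonneg t)]
  have a2 : ∀ t : ℝ, |l * t| ≤ l * |t| := fun t => by rw [abs_mul, abs_of_pos l0]
  have a3 : ∀ a y : ℂ, ‖a‖ ≤ l * ‖y / h‖ → ‖h * a‖ ≤ l * ‖y‖ := fun a y H => by
    rw [norm_div] at H
    rw [norm_mul]
    refine (mul_le_mul_of_nonneg_left H hn.le).trans (le_of_eq ?_)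
    field_simp
  refine ⟨g.toContinuousLinearEquiv, fun y y' => ?_, ?_,
    fun y => a3 _ y (cylEx_norm_le l0.le (a1 _) (a2 _)),
    fun y => a3 _ y (cylEx_norm_le l0.le (a2 _) (a1 _))⟩
  · change wedge (h * ⟨(y / h).re / l, l * (y / h).im⟩) (h * ⟨(y' / h).re / l, l * (y' / h).im⟩) = _
    have e := cylEx_wedge_mul h (y / h) (y' / h)
    rw [mul_div_cancel₀ _ hh, mul_div_cancel₀ _ hh] at e
    rw [cylEx_wedge_mul, e]
    congr 1
    simp only [wedge]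
    field_simp
  · change ‖h * ⟨(h / h).re / l, l * (h / h).im⟩‖ = _
    have : (⟨(h / h).re / l, l * (h / h).im⟩ : ℂ) = ((1 / l : ℝ) : ℂ) := by
      rw [div_self hh]; apply Complex.ext <;> simp
    rw [this, norm_mul, Complex.norm_real, Real.norm_eq_abs, abs_of_pos (by positivity)]
    ring

variable {X : Type} [TopologicalSpace X] [T2Space X] [CompactSpace X] [MeasurableSpace X]
  [BorelSpace X] [SecondCountableTopology X] {μ : Measure X} [IsProbabilityMeasure μ]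

omit [T2Space X] [CompactSpace X] [BorelSpace X] [SecondCountableTopology X]
  [IsProbabilityMeasure μ] in
lemma cylEx_fam_map {T : TS X μ} {Γ : Finset (X × ℂ)} (hΓ : T.Fam Γ) (g : ℂ ≃L[ℝ] ℂ)
    (hg : Sl (g : ℂ →L[ℝ] ℂ)) : ∃ Γ' : Finset (X × ℂ), (T.map g hg).Fam Γ' ∧ Γ'.card = Γ.card ∧
      ∀ c ∈ Γ', ∃ c' ∈ Γ, c.2 = g c'.2 := by
  let e : X × ℂ ↪ X × ℂ := ⟨fun c => (c.1, g c.2), fun c c' H => by
    simp only [Prod.mk.injEq] at H
    exact Prod.ext H.1 (g.injective H.2)⟩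
  refine ⟨Γ.map e, ⟨fun c hc => ?_, fun c hc c' hc' hne => ?_⟩, Finset.card_map _, fun c hc => ?_⟩
  · obtain ⟨a, ha, rfl⟩ := Finset.mem_map.1 hc
    rw [map_isSC]
    simpa [e] using hΓ.1 a ha
  · obtain ⟨a, ha, rfl⟩ := Finset.mem_map.1 hc
    obtain ⟨b, hb, rfl⟩ := Finset.mem_map.1 hc'
    rw [map_seg, map_seg]
    simpa [e] using hΓ.2 a ha b hb fun H => hne (by rw [H])
  · obtain ⟨a, ha, rfl⟩ := Finset.mem_map.1 hc
    exact ⟨a, ha, rfl⟩

omit [T2Space X] [CompactSpace X] [BorelSpace X] [SecondCountableTopology X]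
  [IsProbabilityMeasure μ] in
lemma cylEx_half {T : TS X μ} {x : X} {h : ℂ} (hx : x ∉ T.Sg) (hh : h ≠ 0)
    (H : ∀ y : ℂ, ‖y‖ < 4 → 0 < wedge h y → T.Ok x y) : ∃ q, q ∈ T.XR 2 := by
  have hn : 0 < ‖h‖ := norm_pos_iff.2 hh
  let D : Set ℂ := {y | ‖y‖ < 4 ∧ (0 < wedge h y ∨ y = 0)}
  have hD : Convex ℝ D := by
    rintro y ⟨h1, h2⟩ y' ⟨h3, h4⟩ a b ha hb hab
    refine ⟨?_, ?_⟩
    · have := convex_ball (0 : ℂ) 4 (mem_ball_zero_iff.2 h1) (mem_ball_zero_iff.2 h3) ha hb hab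
      exact mem_ball_zero_iff.1 this
    · rw [wedge_add_right, wedge_smul_right, wedge_smul_right]
      rcases h2 with h2 | rfl <;> rcases h4 with h4 | rfl
      · left
        rcases ha.eq_or_lt with rfl | ha'
        · rw [zero_add] at hab; subst hab; simpa using h4
        · nlinarith [mul_pos ha' h2, mul_nonneg hb h4.le]
      · rcases ha.eq_or_lt with rfl | ha'
        · right; simp
        · left; simpa [wedge_zero_right] using mul_pos ha' h2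
      · rcases hb.eq_or_lt with rfl | hb'
        · right; simp
        · left; simpa [wedge_zero_right] using mul_pos hb' h4
      · right; simp
  have hok : ∀ y ∈ D, T.Ok x y := by
    rintro y ⟨h1, h2 | rfl⟩
    exacts [H y h1 h2, ok_zero.2 hx]
  let z : ℂ := (2 / ‖h‖) • (Complex.I * h)
  have z1 : ‖z‖ = 2 := by
    simp only [z, norm_smul, norm_mul, Complex.norm_I, Real.norm_eq_abs]
    rw [abs_of_pos (by positivity)]
    field_simp
  have z2 : wedge h z = 2 * ‖h‖ := by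
    have : wedge h (Complex.I * h) = ‖h‖ ^ 2 := by
      rw [← dot_self]; simp [wedge, dot]
    simp only [z, wedge_smul_right, this]
    field_simp
  have hm : ∀ w : ℂ, ‖w‖ < 2 → z + w ∈ D := fun w hw => by
    refine ⟨by linarith [norm_add_le z w], Or.inl ?_⟩
    rw [wedge_add_right, z2]
    nlinarith [(abs_le.1 (abs_wedge_le h w)).1]
  refine ⟨T.mv x z, fun w hw => ?_⟩
  have := (convex_ok hD ⟨by simp, Or.inr rfl⟩ hok z (by simpa using hm 0 (by simp)) _ (hm w hw)).1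
  simpa using this

lemma cylEx_step {T : TS X μ} {M : ℕ} (hM : 3 * (T.k * T.Sg.card) ≤ M) {Γ : Finset (X × ℂ)}
    (hΓ : T.Fam Γ) (hne : Γ.Nonempty) {ε : ℝ} (h0 : 0 ≤ ε) (hε : ε ≤ 1 / (10 * (M + 1)))
    (hL : ∀ c ∈ Γ, 2 * ‖c.2‖ ≤ ε) : (∃ q, q ∈ T.XR 2) ∨
      ∃ x' h', T.IsSC x' h' ∧ Disjoint (T.seg x' h') (T.supp Γ) ∧ 2 * ‖h'‖ ≤ 5 := by
  have M0 : (0 : ℝ) ≤ M := Nat.cast_nonneg M
  have e1 : ε * (10 * (M + 1)) ≤ 1 := by rwa [le_div_iff₀ (by positivity)] at hε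
  have hc : (Γ.card : ℝ) ≤ M := by exact_mod_cast (card_le hΓ).trans hM
  have : ∃ x₀ h, ((x₀, h) ∈ Γ ∨ (x₀, -h) ∈ Γ) ∧ T.IsSC x₀ h ∧ ¬ T.Filled Γ ε x₀ h := by
    by_contra H
    push Not at H
    have := claim2 hΓ hne hL fun c hc' => ⟨H _ _ (Or.inl hc') (hΓ.1 c hc'),
      H _ _ (Or.inr (by simpa using hc')) (hΓ.1 c hc').neg⟩
    have e2 : ε * M ≤ 1 / 10 := by nlinarith
    have e3 : ε ≤ 1 / 10 := by nlinarith
    have e4 : (Γ.card : ℝ) * ε ≤ 1 / 10 := by nlinarith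
    nlinarith [mul_nonneg (Nat.cast_nonneg (α := ℝ) Γ.card) h0]
  obtain ⟨x₀, h, h1, h2, h3⟩ := this
  by_cases H : ∀ y : ℂ, ‖y‖ < 4 → 0 < wedge h y → T.Ok x₀ y
  · exact Or.inl (cylEx_half h2.1.reg.1 h2.1.reg.2 H)
  push Not at H
  obtain ⟨y, y1, y2, y3⟩ := H
  obtain ⟨t, t0, t1, ht⟩ := exists_hit h2.1.reg.1 y3
  refine Or.inr ?_
  obtain ⟨x', h', a, b, c⟩ := (claim1 hΓ hL h1 (s := 0) (by simp) (w := t • y)
    (by simpa [T.mv_zero] using ht) (by rw [wedge_smul_right]; positivity)).resolve_left h3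
  refine ⟨x', h', a, b, c.trans ?_⟩
  rw [norm_smul, Real.norm_eq_abs, abs_of_pos t0]
  nlinarith [norm_nonneg y]

lemma cylEx_ind (M n : ℕ) : ∃ ε C : ℝ, 0 < ε ∧ ε ≤ 1 ∧ 1 ≤ C ∧ ∀ T : TS X μ,
    3 * (T.k * T.Sg.card) ≤ M → ∀ Γ : Finset (X × ℂ), T.Fam Γ → Γ.Nonempty →
    (∀ c ∈ Γ, 2 * ‖c.2‖ ≤ ε) → M < Γ.card + n → ∃ g : ℂ ≃L[ℝ] ℂ, Sl (g : ℂ →L[ℝ] ℂ) ∧
      (∀ y, ‖g.symm y‖ ≤ C * ‖y‖) ∧ ∃ q, ∀ w : ℂ, ‖w‖ < 2 → T.Ok q (g.symm w) := by
  induction n with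
  | zero =>
    refine ⟨1, 1, one_pos, le_rfl, le_rfl, fun T hM Γ hΓ _ _ h => ?_⟩
    have := card_le hΓ
    omega
  | succ n ih =>
    obtain ⟨ε, C, e0, e1, hC, ih⟩ := ih
    have hl : 1 ≤ 5 / ε := by rw [le_div_iff₀ e0]; linarith
    refine ⟨min (1 / (10 * (M + 1))) (ε ^ 2 / 5), 5 / ε * C, by positivity,
      (min_le_right _ _).trans (by nlinarith), by nlinarith, fun T hM Γ hΓ hne hL hn => ?_⟩
    rcases cylEx_step hM hΓ hne (by positivity) (min_le_left _ _) hL with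
      ⟨q, hq⟩ | ⟨x', h', a, b, c⟩
    · refine ⟨ContinuousLinearEquiv.refl ℝ ℂ, fun _ _ => rfl, fun y => ?_, q, hq⟩
      exact le_mul_of_one_le_left (norm_nonneg y) (by nlinarith)
    classical
    obtain ⟨g, hg, g1, g2, g3⟩ := cylEx_squeeze a.1.reg.2 hl
    obtain ⟨f1, f2⟩ := hΓ.insert a b
    obtain ⟨Γ', i1, i2, i3⟩ := cylEx_fam_map f1 g hg
    obtain ⟨g', hg', k1, q, hq⟩ := ih (T.map g hg) hM Γ' i1
      (Finset.card_pos.1 (by rw [i2]; convert Nat.succ_pos Γ.card)) (fun c hc => by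
        obtain ⟨c', hc', e⟩ := i3 c hc
        rw [e]
        rcases Finset.mem_insert.1 hc' with rfl | hc'
        · rw [g1, ← mul_div_assoc, div_le_iff₀ (by positivity)]
          refine ‹2 * ‖h'‖ ≤ 5›.trans (le_of_eq ?_)
          field_simp
        · have := (hL c' hc').trans (min_le_right _ _)
          have h2 : 5 / ε * (2 * ‖c'.2‖) ≤ 5 / ε * (ε ^ 2 / 5) := by gcongr
          have h3 : 5 / ε * (ε ^ 2 / 5) = ε := by field_simp
          linarith [g2 c'.2])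
      (by rw [i2]; have : (insert (x', h') Γ).card = Γ.card + 1 := by convert f2
          omega)
    refine ⟨g.trans g', fun y y' => (hg' _ _).trans (hg _ _), fun y => ?_, q, hq⟩
    refine (g3 (g'.symm y)).trans ?_
    rw [mul_assoc]
    exact mul_le_mul_of_nonneg_left (k1 y) (by positivity)

/-- every thick surface in the orbit has a short cylinder of definite area -/
theorem cyl_exists (S : TS X μ) : ∃ C₀ c₀ : ℝ, 0 < c₀ ∧ ∀ (g : ℂ ≃L[ℝ] ℂ)
    (hg : Sl (g : ℂ →L[ℝ] ℂ)) (δ : ℝ), 0 < δ → (S.map g hg).Thick δ →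
    ∃ x v, S.IsCyl x v (c₀ * δ) ∧ ‖g v‖ ≤ C₀ := by
  obtain ⟨ε, C, e0, e1, hC, H⟩ :=
    cylEx_ind (X := X) (μ := μ) (3 * (S.k * S.Sg.card)) (3 * (S.k * S.Sg.card))
  have hl : 1 ≤ 8 / ε := by rw [le_div_iff₀ e0]; linarith
  refine ⟨8 / ε * C * (6 / 5), 1 / (2 * (8 / ε * C)), by positivity, fun g hg δ hδ ht => ?_⟩
  obtain ⟨x, h, h1, h2⟩ := exists_sc (S.map g hg)
  obtain ⟨g₁, hg₁, a1, -, a3⟩ := cylEx_squeeze h1.1.reg.2 hl
  obtain ⟨g₂, hg₂, b1, q, hq⟩ := H ((S.map g hg).map g₁ hg₁) le_rfl {(x, g₁ h)}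
    ⟨fun c hc => by
      rw [Finset.mem_singleton.1 hc, map_isSC]
      simpa using h1,
    fun c hc c' hc' hne =>
      absurd ((Finset.mem_singleton.1 hc).trans (Finset.mem_singleton.1 hc').symm) hne⟩
    (Finset.singleton_nonempty _) (fun c hc => by
      rw [Finset.mem_singleton.1 hc, a1, ← mul_div_assoc, div_le_iff₀ (by positivity)]
      refine h2.trans (le_of_eq ?_)
      field_simp) (by simp)
  have hG : Sl ((g₁.trans g₂ : ℂ ≃L[ℝ] ℂ) : ℂ →L[ℝ] ℂ) := fun y y' => (hg₂ _ _).trans (hg₁ _ _)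
  have hb : ∀ y, ‖(g₁.trans g₂).symm y‖ ≤ 8 / ε * C * ‖y‖ := fun y => by
    refine (a3 (g₂.symm y)).trans ?_
    rw [mul_assoc]
    exact mul_le_mul_of_nonneg_left (b1 y) (by positivity)
  obtain ⟨v, v0, v1, v2, v3, v4⟩ := disc_cyl (S := (S.map g hg).map (g₁.trans g₂) hG) (x := q) hq
  have hp := ht.le_period (x := q) (v := (g₁.trans g₂).symm v) (by simpa using v0) v2 v3
  refine ⟨q, g.symm ((g₁.trans g₂).symm v), ?_, ?_⟩
  · rw [← map_isCyl g hg, ← map_isCyl _ hG]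
    refine v4 _ (by positivity) ?_
    have : 2 * (1 / (2 * (8 / ε * C)) * δ) = δ / (8 / ε * C) := by field_simp
    rw [this, div_le_iff₀ (by positivity)]
    linarith [hb v]
  · rw [ContinuousLinearEquiv.apply_symm_apply]
    exact (hb v).trans (mul_le_mul_of_nonneg_left v1 (by positivity))

end Pool.Agent.MP_d0b2d2_an.Gen.TS
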