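import Pool.Agent.MP_d0b2d2_an.Gen.CylEx
import Pool.Agent.MP_d0b2d2_an.Gen.Dens

open MeasureTheory Set Filter Topology Metric

namespace Pool.Agent.MP_d0b2d2_an.Gen.TS

lemma cylFam_dot (v : ℂ) (σ : ℝ) : dot v (ed σ) = (v.re * σ + v.im) / √(1 + σ ^ 2) := by
  simp only [dot, ed, Complex.div_ofReal_re, Complex.div_ofReal_im]
  simp
  ring

lemma cylFam_wedge (v : ℂ) (σ : ℝ) : wedge v (ed σ) = (v.re - v.im * σ) / √(1 + σ ^ 2) := by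
  simp only [wedge, ed, Complex.div_ofReal_re, Complex.div_ofReal_im]
  simp
  ring

lemma cylFam_plane {δ B σ₀ : ℝ} {k : ℕ} {v : ℂ} (hδ : 0 < δ) (h0 : 0 ≤ σ₀) (h1 : σ₀ ≤ 1)
    (hv : 0 ≤ v.im) (hlow : δ ≤ ‖zm σ₀ k v‖) (hup : ‖zm σ₀ k v‖ ≤ B)
    (hP : |2 ^ k * (v.re - (σ₀ + 1 / 2 / 4 ^ k) * v.im)| ≤ δ / 20) : ∃ l : ℝ,
      σ₀ ≤ l ∧ l + 1 / 4 / 4 ^ k ≤ σ₀ + 1 / 4 ^ k ∧ 2 ^ k * (δ / 4) ≤ dot v (ed σ₀) ∧
      ∀ σ p : ℝ, p ≤ 1 / 4 → l ≤ σ → σ ≤ l + p / 4 ^ k →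
        ‖dot v (ed σ₀) • ed σ - v‖ ≤ 3 * B / 2 ^ k ∧ 0 ≤ p ∧
          |wedge (dot v (ed σ₀) • ed σ) v| ≤ 3 * B ^ 2 * p := by
  have hflat := fun σ h => dot_ed_flat (σ := σ₀) (σ' := σ) (k := k) (by rwa [abs_of_nonneg h0]) h v
  have n1 := Complex.norm_le_abs_re_add_abs_im (zm σ₀ k v)
  have n2 := Complex.abs_im_le_norm (zm σ₀ k v)
  have hB : 0 ≤ B := (norm_nonneg _).trans hup
  rw [zm_re, zm_im] at n1
  rw [zm_im] at n2
  have e4 : (4 : ℝ) ^ k = (2 ^ k) ^ 2 := by rw [← pow_mul, mul_comm, pow_mul]; norm_num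
  have e8 : (8 : ℝ) ^ k = (2 ^ k) ^ 3 := by rw [← pow_mul, mul_comm, pow_mul]; norm_num
  have hN : (1 : ℝ) ≤ 2 ^ k := one_le_pow₀ one_le_two
  rw [e8] at hflat
  rw [e4] at hflat hP ⊢
  generalize (2 : ℝ) ^ k = N at *
  have N0 : 0 < N := by linarith
  obtain ⟨Q, hQ⟩ : ∃ Q, v.im = N * Q := ⟨v.im / N, by field_simp⟩
  obtain ⟨P, hPe⟩ : ∃ P, P = N * (v.re - (σ₀ + 1 / 2 / N ^ 2) * v.im) := ⟨_, rfl⟩
  rw [← hPe] at hP
  have q0 : 0 ≤ Q := nonneg_of_mul_nonneg_right (hQ ▸ hv) N0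
  have e1 : v.im / N = Q := by rw [hQ]; field_simp
  have e2 : N * (v.re - σ₀ * v.im) = P + Q / 2 := by rw [hPe, hQ]; field_simp; ring
  rw [e1, abs_of_nonneg q0] at n1 n2
  rw [e2] at n1
  have q1 : δ / 2 ≤ Q := by
    have := abs_add_le P (Q / 2)
    rw [abs_of_nonneg (by positivity : 0 ≤ Q / 2)] at this
    linarith
  have q2 : 0 < Q := by linarith
  have q3 : Q ≤ B := n2.trans hup
  obtain ⟨r, hr⟩ : ∃ r, P = r * Q := ⟨P / Q, by field_simp⟩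
  have r1 : |r| ≤ 1 / 10 := by
    rw [hr, abs_mul, abs_of_pos q2] at hP
    by_contra H
    push Not at H
    nlinarith
  obtain ⟨r2, r3⟩ := abs_le.1 r1
  obtain ⟨u, hu⟩ : ∃ u, u = 1 / N ^ 2 := ⟨_, rfl⟩
  have u0 : 0 < u := by rw [hu]; positivity
  have u1 : u ≤ 1 := by rw [hu, div_le_one (by positivity)]; nlinarith
  have ud : ∀ t : ℝ, t / N ^ 2 = t * u := fun t => by rw [hu]; ring
  obtain ⟨l, hl⟩ : ∃ l, l = σ₀ + (1 / 2 + r) * u := ⟨_, rfl⟩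
  have e3 : v.re = l * v.im := by
    have : v.re = σ₀ * v.im + (P + Q / 2) / N := by rw [← e2]; field_simp; ring
    rw [this, hl, hr, hQ, hu]
    field_simp
    ring
  have l0 : σ₀ ≤ l := by nlinarith
  have l1 : l + 1 / 4 * u ≤ σ₀ + u := by nlinarith
  have s1 : ∀ σ : ℝ, 1 ≤ √(1 + σ ^ 2) := fun σ => Real.le_sqrt_of_sq_le (by nlinarith [sq_nonneg σ])
  refine ⟨l, l0, by rw [ud, ← hu]; exact l1, ?_, fun σ p p1 p2 p3 => ?_⟩
  · have s2 : √(1 + σ₀ ^ 2) ≤ 2 := Real.sqrt_le_iff.2 ⟨zero_le_two, by nlinarith⟩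
    rw [cylFam_dot, le_div_iff₀ (by linarith [s1 σ₀]), e3, hQ]
    have : 0 ≤ l * (N * Q) * σ₀ := by have : 0 ≤ l := h0.trans l0; positivity
    have h3 : N * (δ / 4) * √(1 + σ₀ ^ 2) ≤ N * (δ / 4) * 2 := by gcongr
    nlinarith
  rw [ud] at p3
  have p0 : 0 ≤ p := nonneg_of_mul_nonneg_left (by linarith) u0
  have w1 : |wedge v (ed σ)| ≤ Q * p / N := by
    rw [cylFam_wedge, abs_div, abs_of_pos (by linarith [s1 σ] : 0 < √(1 + σ ^ 2))]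
    refine (div_le_self (abs_nonneg _) (s1 σ)).trans ?_
    have : v.re - v.im * σ = -(v.im * (σ - l)) := by rw [e3]; ring
    rw [this, abs_neg, abs_of_nonneg (mul_nonneg hv (by linarith))]
    refine (mul_le_mul_of_nonneg_left (show σ - l ≤ p * u by linarith) hv).trans (le_of_eq ?_)
    rw [hQ, hu]
    field_simp
  refine ⟨?_, p0, ?_⟩
  · have e := norm_sq_smul_eq v (ed σ)
    rw [norm_ed, one_pow, one_smul] at e
    have e' : dot v (ed σ₀) • ed σ - v = -((dot v (ed σ) - dot v (ed σ₀)) • ed σ) +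
        wedge v (ed σ) • (Complex.I * ed σ) := by
      nth_rewrite 2 [e]
      rw [sub_smul]
      abel
    rw [e']
    refine (norm_add_le _ _).trans ?_
    rw [norm_neg, norm_smul, norm_smul, norm_mul, norm_ed, Complex.norm_I, Real.norm_eq_abs,
      Real.norm_eq_abs, mul_one, mul_one, mul_one]
    have f1 := hflat σ (by rw [← hu, abs_of_nonneg (by linarith)]; nlinarith)
    have f2 : 2 / N ^ 3 * ‖zm σ₀ k v‖ ≤ 2 / N * B := by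
      gcongr
      exact le_self_pow₀ hN (by norm_num)
    have f3 : Q * p / N ≤ B / N := by
      gcongr
      nlinarith
    have : 3 * B / N = 2 / N * B + B / N := by ring
    linarith
  · rw [wedge_smul_left, wedge_comm, abs_mul, abs_neg]
    have f1 : |dot v (ed σ₀)| ≤ 3 * (N * Q) := by
      refine (abs_dot_le _ _).trans ?_
      rw [norm_ed, mul_one]
      refine (Complex.norm_le_abs_re_add_abs_im v).trans ?_
      rw [e3, abs_mul, abs_of_nonneg hv, abs_of_nonneg (h0.trans l0), ← hQ]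
      nlinarith
    refine (mul_le_mul f1 w1 (abs_nonneg _) (by positivity)).trans ?_
    have : 3 * (N * Q) * (Q * p / N) = 3 * Q ^ 2 * p := by field_simp
    rw [this]
    gcongr

variable {X : Type} [TopologicalSpace X] [T2Space X] [CompactSpace X] [MeasurableSpace X]
  [BorelSpace X] [SecondCountableTopology X] {μ : Measure X} [IsProbabilityMeasure μ]

/-- every thick window contains the slope of a short cylinder of definite area -/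
theorem cyl_window (S : TS X μ) {δ : ℝ} (hδ : 0 < δ) : ∃ c > (0 : ℝ), ∃ C > (0 : ℝ),
    ∀ (σ₀ : ℝ) (k : ℕ), 0 ≤ σ₀ → σ₀ ≤ 1 → (S.map (zm σ₀ k) (sl_zm σ₀ k)).Thick δ →
    ∃ x v, ∃ l : ℝ, S.IsCyl x v c ∧ δ ≤ ‖zm σ₀ k v‖ ∧ ‖zm σ₀ k v‖ ≤ C ∧
      σ₀ ≤ l ∧ l + 1 / 4 / 4 ^ k ≤ σ₀ + 1 / 4 ^ k ∧ 2 ^ k / C ≤ dot v (ed σ₀) ∧
      ∀ σ p : ℝ, p ≤ 1 / 4 → l ≤ σ → σ ≤ l + p / 4 ^ k →
        ‖dot v (ed σ₀) • ed σ - v‖ ≤ C / 2 ^ k ∧ |wedge (dot v (ed σ₀) • ed σ) v| ≤ C * p := by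
  obtain ⟨C₁, c₀, c0, H⟩ := cyl_exists S
  obtain ⟨m, hm⟩ := pow_unbounded_of_one_lt (|C₁| / (δ / 20)) (one_lt_two (α := ℝ))
  rw [div_lt_iff₀ (by positivity)] at hm
  obtain ⟨B, hB⟩ : ∃ B : ℝ, B = 2 * (2 ^ m * |C₁|) := ⟨_, rfl⟩
  have B0 : 0 ≤ B := by rw [hB]; positivity
  have d0 : 0 < 4 / δ := by positivity
  refine ⟨c₀ * (δ / (2 * 2 ^ m)), by positivity, 4 / δ + 3 * B + 3 * B ^ 2, by positivity,
    fun σ₀ k h0 h1 ht => ?_⟩
  have a0 : |(1 / 2 / 4 ^ k : ℝ)| ≤ 1 / 4 ^ k := by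
    rw [abs_of_pos (by positivity)]
    gcongr
    norm_num
  have key : ∀ y, ‖zm σ₀ k y‖ ≤ 2 * (2 ^ m * ‖zm (σ₀ + 1 / 2 / 4 ^ k) (k + m) y‖) := fun y =>
    (norm_zm_shear (σ := σ₀ + 1 / 2 / 4 ^ k) (by simpa [abs_neg] using a0) y).trans
      (mul_le_mul_of_nonneg_left (norm_zm_add_le _ k m y).2 zero_le_two)
  obtain ⟨x, v', v1, v2⟩ := H (zm (σ₀ + 1 / 2 / 4 ^ k) (k + m)) (sl_zm _ _) (δ / (2 * 2 ^ m))
    (by positivity) (by
      rw [map_thick] at ht ⊢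
      intro x h hx
      rw [div_le_iff₀ (by positivity)]
      linarith [ht x h hx, key h])
  obtain ⟨v, w1, w2, w3⟩ : ∃ v, S.IsCyl x v (c₀ * (δ / (2 * 2 ^ m))) ∧
      ‖zm (σ₀ + 1 / 2 / 4 ^ k) (k + m) v‖ ≤ |C₁| ∧ 0 ≤ v.im := by
    rcases le_total 0 v'.im with h | h
    · exact ⟨v', v1, v2.trans (le_abs_self _), h⟩
    · exact ⟨-v', v1.neg, by simpa using v2.trans (le_abs_self _), by simpa using h⟩
  have hc : (S.map (zm σ₀ k) (sl_zm σ₀ k)).IsCyl x (zm σ₀ k v) (c₀ * (δ / (2 * 2 ^ m))) := by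
    rw [map_isCyl]
    simpa using w1
  have hlow := ht.le_period hc.1 hc.closed.1 hc.closed.2
  have hup : ‖zm σ₀ k v‖ ≤ B := by
    refine (key v).trans ?_
    rw [hB]
    gcongr
  have hP : |2 ^ k * (v.re - (σ₀ + 1 / 2 / 4 ^ k) * v.im)| ≤ δ / 20 := by
    have := (Complex.abs_re_le_norm _).trans w2
    rw [zm_re, pow_add, mul_comm (2 ^ k : ℝ), mul_assoc, abs_mul,
      abs_of_pos (by positivity : (0 : ℝ) < 2 ^ m)] at this
    exact le_of_mul_le_mul_left (this.trans hm.le) (by positivity)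
  obtain ⟨l, l1, l2, l3, l4⟩ := cylFam_plane hδ h0 h1 w3 hlow hup hP
  refine ⟨x, v, l, w1, hlow, by nlinarith [sq_nonneg B], l1, l2, le_trans ?_ l3,
    fun σ p p1 p2 p3 => ?_⟩
  · have : (2 : ℝ) ^ k * (δ / 4) = 2 ^ k / (4 / δ) := by field_simp
    rw [this]
    gcongr
    nlinarith [sq_nonneg B]
  · obtain ⟨b1, b2, b3⟩ := l4 σ p p1 p2 p3
    refine ⟨b1.trans ?_, b3.trans ?_⟩
    · gcongr
      nlinarith [sq_nonneg B]
    · gcongr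
      linarith

end Pool.Agent.MP_d0b2d2_an.Gen.TS
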