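import Pool.Agent.MP_d0b2d2_an.Gen.DecAux

open Set Filter Topology

namespace Pool.Agent.MP_d0b2d2_an.Gen.ResData

variable {ρ : ℕ} {V : Type} [NormedAddCommGroup V] [InnerProductSpace ℝ V] (D : ResData ρ V)

/-- for a fixed functional the squared covolume is a Gram determinant of a fixed family -/
theorem cov_sq (W : Lat ρ) (b τ ξ : ℝ) : ∃ (w : Fin (rk W) → Fin ρ → ℝ) (c : Fin (rk W) → ℝ),
    ∀ σ k a, cov (D.LL σ k a b τ ξ) W ^ 2 = gramD D.hol D.A w a c σ k := by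
  refine ⟨fun i => tl ρ (cst (Module.finBasis ℤ W i)),
    fun i => b * D.ell τ ξ (cst (Module.finBasis ℤ W i)), fun σ k a => ?_⟩
  unfold cov gramD
  rw [vol_sq]
  congr 1
  ext i j
  rw [Matrix.gram_apply, inner_LL]
  rfl

theorem Deep.surj {σ : ℝ} {k : ℕ} {b ξ t : ℝ} {W : Lat ρ} (h : D.Deep σ k b ξ W t) : D.Surj W :=
  fun y => (h y).imp fun _ hx => ⟨hx.1, hx.2.1⟩

theorem Deep.mono {σ : ℝ} {k : ℕ} {b b' ξ t t' : ℝ} {W W' : Lat ρ} (h : D.Deep σ k b ξ W t)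
    (hb : |b'| ≤ |b|) (ht : t ≤ t') (hW : W ≤ W') : D.Deep σ k b' ξ W' t' := by
  intro y
  obtain ⟨x, hx, e, hR⟩ := h y
  refine ⟨x, spanR_mono hW hx, e, le_trans ?_
    (hR.trans (mul_le_mul_of_nonneg_right ht (norm_nonneg _)))⟩
  refine Real.sqrt_le_sqrt ?_
  have h1 : b' ^ 2 ≤ b ^ 2 := sq_le_sq.2 hb
  nlinarith [mul_le_mul_of_nonneg_right h1 (sq_nonneg (D.ell σ ξ x))]

theorem Surj.deep {W : Lat ρ} (h : D.Surj W) (σ : ℝ) (k : ℕ) (b ξ : ℝ) :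
    ∃ t > 0, D.Deep σ k b ξ W t := by
  obtain ⟨x₁, m₁, e₁⟩ := h ((zm σ k).symm 1)
  obtain ⟨x₂, m₂, e₂⟩ := h ((zm σ k).symm Complex.I)
  have n₁ := D.Dec_RR_nonneg σ k b σ ξ x₁
  have n₂ := D.Dec_RR_nonneg σ k b σ ξ x₂
  refine ⟨D.RR σ k b σ ξ x₁ + D.RR σ k b σ ξ x₂ + 1, by linarith, fun y => ?_⟩
  refine ⟨(zm σ k y).re • x₁ + (zm σ k y).im • x₂, Submodule.add_mem _
    (Submodule.smul_mem _ _ m₁) (Submodule.smul_mem _ _ m₂), ?_, ?_⟩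
  · rw [Dec_ho_add, Dec_ho_smul, Dec_ho_smul, e₁, e₂, ← map_smul, ← map_smul, ← map_add,
      ContinuousLinearEquiv.symm_apply_eq]
    generalize zm σ k y = u
    apply Complex.ext <;> simp
  · refine (D.Dec_RR_add σ k b σ ξ _ _).trans ?_
    rw [Dec_RR_smul, Dec_RR_smul]
    nlinarith [mul_le_mul_of_nonneg_right (Complex.abs_re_le_norm (zm σ k y)) n₁,
      mul_le_mul_of_nonneg_right (Complex.abs_im_le_norm (zm σ k y)) n₂, norm_nonneg (zm σ k y)]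

theorem Dec_wedge_zm (σ : ℝ) (k : ℕ) (y y' : ℂ) : wedge (zm σ k y) (zm σ k y') = wedge y y' :=
  sl_zm σ k y y'

theorem Dec_wedge_I (u : ℂ) : wedge u (Complex.I * u) = ‖u‖ ^ 2 := by
  rw [← dot_self]
  simp [wedge, dot]

theorem Dec_dot_I (u : ℂ) : dot u (Complex.I * u) = 0 := by
  simp [dot]
  ring

/-- a deep sublattice has a pair of short vectors with unit holonomy area -/
theorem Deep.pair {σ : ℝ} {k : ℕ} {b ξ t : ℝ} {W : Lat ρ} (h : D.Deep σ k b ξ W t) (ht : 0 ≤ t)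
    {y : ℂ} (hy : y ≠ 0) (a : ℝ) : ∃ x ∈ spanR W, wedge y (D.ho x) = 1 ∧
      ‖D.LL σ k a b σ ξ x‖ * ‖zm σ k y‖ ≤ |a| + t := by
  have hN : 0 < ‖zm σ k y‖ := by simpa using hy
  obtain ⟨x, hx, e, hR⟩ := h ((zm σ k).symm ((‖zm σ k y‖ ^ 2)⁻¹ • (Complex.I * zm σ k y)))
  have e1 : zm σ k (D.ho x) = (‖zm σ k y‖ ^ 2)⁻¹ • (Complex.I * zm σ k y) := by
    rw [e, ContinuousLinearEquiv.apply_symm_apply]
  have e2 : ‖zm σ k (D.ho x)‖ * ‖zm σ k y‖ = 1 := by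
    rw [e1, norm_smul, norm_mul, Complex.norm_I, Real.norm_eq_abs, abs_of_pos (by positivity)]
    field_simp
  rw [← e] at hR
  refine ⟨x, hx, ?_, ?_⟩
  · rw [← Dec_wedge_zm σ k, e1, wedge_smul_right, Dec_wedge_I]
    field_simp
  · refine Dec_le_of_sq (by positivity) ?_
    have h1 : D.RR σ k b σ ξ x * ‖zm σ k y‖ ≤ t := by
      calc _ ≤ t * ‖zm σ k (D.ho x)‖ * ‖zm σ k y‖ := mul_le_mul_of_nonneg_right hR hN.le
        _ = t := by rw [mul_assoc, e2, mul_one]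
    have h2 : (D.RR σ k b σ ξ x * ‖zm σ k y‖) ^ 2 ≤ t ^ 2 :=
      pow_le_pow_left₀ (mul_nonneg (D.Dec_RR_nonneg ..) hN.le) h1 2
    have h3 : (‖D.LL σ k a b σ ξ x‖ * ‖zm σ k y‖) ^ 2 =
        (D.RR σ k b σ ξ x * ‖zm σ k y‖) ^ 2 + a ^ 2 * (‖zm σ k (D.ho x)‖ * ‖zm σ k y‖) ^ 2 := by
      rw [mul_pow, Dec_norm_sq]
      ring
    rw [h3, e2]
    nlinarith [sq_abs a, mul_nonneg (abs_nonneg a) ht]

theorem Deep.pair' {σ : ℝ} {k : ℕ} {b ξ t : ℝ} {W : Lat ρ} (h : D.Deep σ k b ξ W t) (ht : 0 ≤ t)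
    (a : ℝ) : ∃ x₁ ∈ spanR W, ∃ x₂ ∈ spanR W, wedge (D.ho x₁) (D.ho x₂) = 1 ∧
      ‖D.LL σ k a b σ ξ x₁‖ * ‖D.LL σ k a b σ ξ x₂‖ ≤ a ^ 2 + t ^ 2 := by
  have key : ∀ u : ℂ, ‖u‖ = 1 → ∃ x ∈ spanR W, zm σ k (D.ho x) = u ∧
      ‖D.LL σ k a b σ ξ x‖ ^ 2 ≤ a ^ 2 + t ^ 2 := fun u hu => by
    obtain ⟨x, hx, e, hR⟩ := h ((zm σ k).symm u)
    rw [ContinuousLinearEquiv.apply_symm_apply, hu, mul_one] at hR
    have e1 : zm σ k (D.ho x) = u := by rw [e, ContinuousLinearEquiv.apply_symm_apply]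
    refine ⟨x, hx, e1, ?_⟩
    rw [Dec_norm_sq, e1, hu]
    nlinarith [pow_le_pow_left₀ (D.Dec_RR_nonneg σ k b σ ξ x) hR 2]
  obtain ⟨x₁, m₁, e₁, h₁⟩ := key 1 norm_one
  obtain ⟨x₂, m₂, e₂, h₂⟩ := key Complex.I Complex.norm_I
  refine ⟨x₁, m₁, x₂, m₂, ?_, ?_⟩
  · rw [← Dec_wedge_zm σ k, e₁, e₂]
    simp [wedge]
  · nlinarith [sq_nonneg (‖D.LL σ k a b σ ξ x₁‖ - ‖D.LL σ k a b σ ξ x₂‖)]

/-- orthogonal representative modulo the kernel of the holonomy -/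
theorem Dec_lift_ho (σ : ℝ) (k : ℕ) (b τ ξ : ℝ) {W : Lat ρ} {x : Fin (ρ + 1) → ℝ}
    (hx : x ∈ spanR W) : ∃ x' ∈ spanR W, D.ho x' = D.ho x ∧ ∀ a, ∀ y ∈ spanR W, D.ho y = 0 →
      inner ℝ (D.LL σ k a b τ ξ y) (D.LL σ k a b τ ξ x') = 0 := by
  obtain ⟨x', h1, h2⟩ := Dec_lift (D.LL σ k 0 b τ ξ) (spanR W ⊓ LinearMap.ker D.Dec_ho) x
  refine ⟨x', by simpa using Submodule.sub_mem _ hx h1.1, ?_, fun a y hy hy' => ?_⟩
  · have h3 : D.ho (x - x') = 0 := h1.2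
    rw [Dec_ho_sub, sub_eq_zero] at h3
    exact h3.symm
  · rw [Dec_inner, h2 y ⟨hy, hy'⟩, hy']
    simp [dot]

theorem dec_phi {σ : ℝ} {k : ℕ} {b ξ m : ℝ} {W : Lat ρ} (hW : D.Surj W) (hm : 0 < m)
    (h : ¬ D.Deep σ k b ξ W m) : ∃ cc : ℂ, m ≤ ‖cc‖ ∧
      ∀ x ∈ spanR W, |dot cc (zm σ k (D.ho x))| ≤ D.RR σ k b σ ξ x := by
  simp only [Deep, not_forall, not_exists, not_and, not_le] at h
  obtain ⟨y, hy⟩ := h
  obtain ⟨x₀, hx₀, e₀⟩ := hW y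
  obtain ⟨x', hx', e', ho'⟩ := D.Dec_lift_ho σ k b σ ξ hx₀
  have h1 := hy x' hx' (e'.trans e₀)
  rw [Dec_RR_eq] at h1
  obtain ⟨n, hn⟩ : ∃ n, n = D.LL σ k 0 b σ ξ x' := ⟨_, rfl⟩
  rw [← hn] at h1
  have h2 : 0 < ‖n‖ := lt_of_le_of_lt (by positivity) h1
  obtain ⟨cc, hcc⟩ := D.Dec_factor hW (zm σ k)
    (‖n‖⁻¹ • ((innerₛₗ ℝ n) ∘ₗ D.LL σ k 0 b σ ξ)) fun x hx hx0 => by
      simp only [LinearMap.smul_apply, LinearMap.comp_apply, innerₛₗ_apply_apply]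
      rw [real_inner_comm, hn, ho' 0 x hx hx0, smul_zero]
  simp only [LinearMap.smul_apply, LinearMap.comp_apply, innerₛₗ_apply_apply, smul_eq_mul] at hcc
  refine ⟨cc, ?_, fun x hx => ?_⟩
  · have h3 := hcc x' hx'
    rw [← hn, real_inner_self_eq_norm_sq, e', e₀] at h3
    have h4 : ‖n‖ ≤ ‖cc‖ * ‖zm σ k y‖ := by
      calc ‖n‖ = ‖n‖⁻¹ * ‖n‖ ^ 2 := by field_simp
        _ ≤ _ := h3.le.trans ((le_abs_self _).trans (abs_dot_le _ _))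
    by_contra hc
    have := mul_le_mul_of_nonneg_right (not_le.1 hc).le (norm_nonneg (zm σ k y))
    linarith
  · rw [← hcc x hx, Dec_RR_eq, abs_mul, abs_of_pos (inv_pos.2 h2), inv_mul_le_iff₀ h2]
    exact abs_real_inner_le_norm _ _

/-- the covolume in terms of any pair of unit holonomy area -/
theorem Dec_surj {W : Lat ρ} (hW : D.Surj W) : ∃ m ≤ ρ + 1, ∃ v : Fin m → Fin (ρ + 1) → ℝ,
    ∃ κ > (0 : ℝ), Submodule.span ℝ (range v) = spanR W ⊓ LinearMap.ker D.Dec_ho ∧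
    ∀ x : Fin 2 → Fin (ρ + 1) → ℝ, (∀ i, x i ∈ spanR W) → wedge (D.ho (x 0)) (D.ho (x 1)) = 1 →
      LinearIndependent ℝ (Sum.elim v x) ∧ Submodule.span ℝ (range (Sum.elim v x)) = spanR W ∧
      ∀ (V' : Type) [NormedAddCommGroup V'] [InnerProductSpace ℝ V']
        (L : (Fin (ρ + 1) → ℝ) →ₗ[ℝ] V'), cov L W = κ * vol fun i => L (Sum.elim v x i) := by
  obtain ⟨m, hm, v, hv, hb⟩ := Dec_basis (spanR W) D.Dec_ho
  have key : ∀ x : Fin 2 → Fin (ρ + 1) → ℝ, (∀ i, x i ∈ spanR W) →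
      wedge (D.ho (x 0)) (D.ho (x 1)) = 1 → LinearIndependent ℝ (Sum.elim v x) ∧
      Submodule.span ℝ (range (Sum.elim v x)) = spanR W := fun x hx hw => by
    refine hb (Fin 2) x hx (Fintype.linearIndependent_iff.2 fun g hg => ?_) fun y _ => ?_
    · simp only [Fin.sum_univ_two, Dec_ho_apply] at hg
      have h0 := congrArg (fun u => wedge u (D.ho (x 1))) hg
      have h1 := congrArg (fun u => wedge (D.ho (x 0)) u) hg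
      simp only [wedge_add_left, wedge_add_right, wedge_smul_left, wedge_smul_right, wedge_self,
        hw, wedge_zero_left, wedge_zero_right, mul_one, mul_zero, add_zero, zero_add] at h0 h1
      exact Fin.forall_fin_two.2 ⟨h0, h1⟩
    · refine ⟨![wedge (D.ho y) (D.ho (x 1)), wedge (D.ho (x 0)) (D.ho y)], ?_⟩
      have h0 := wedge_smul_eq (D.ho y) (D.ho (x 0)) (D.ho (x 1))
      rw [hw, one_smul] at h0
      simpa [Fin.sum_univ_two, Dec_ho_apply] using h0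
  obtain ⟨c₀, m₀, e₀⟩ := hW 1
  obtain ⟨c₁, m₁, e₁⟩ := hW Complex.I
  have hc := key ![c₀, c₁] (Fin.forall_fin_two.2 ⟨m₀, m₁⟩) (by simp [e₀, e₁, wedge])
  obtain ⟨κ, hκ, hκ'⟩ := cov_eq_vol W _ hc.1 hc.2
  refine ⟨m, hm, v, κ, hκ, hv, fun x hx hw => ⟨(key x hx hw).1, (key x hx hw).2, ?_⟩⟩
  intro V' _ _ L
  rw [hκ', Dec_vol_change L v ![c₀, c₁] x
    (Matrix.of fun i => ![(D.ho (x i)).re, (D.ho (x i)).im])]
  · have : (Matrix.of fun i => ![(D.ho (x i)).re, (D.ho (x i)).im]).det = 1 := by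
      rw [Matrix.det_fin_two, ← hw]
      simp [wedge]
    rw [this, abs_one, one_mul]
  · intro i
    rw [hv]
    simp only [Fin.sum_univ_two, Matrix.of_apply, Matrix.cons_val_zero, Matrix.cons_val_one]
    refine ⟨Submodule.sub_mem _ (hx i) (Submodule.add_mem _ (Submodule.smul_mem _ _ m₀)
      (Submodule.smul_mem _ _ m₁)), ?_⟩
    change D.ho _ = 0
    rw [Dec_ho_sub, Dec_ho_add, Dec_ho_smul, Dec_ho_smul, e₀, e₁]
    apply Complex.ext <;> simp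

theorem Dec_ker {W : Lat ρ} {m : ℕ} {v : Fin m → Fin (ρ + 1) → ℝ}
    (hv : Submodule.span ℝ (range v) = spanR W ⊓ LinearMap.ker D.Dec_ho) (i : Fin m) :
    D.ho (v i) = 0 :=
  (hv.le (Submodule.subset_span ⟨i, rfl⟩)).2

/-- the squared covolume as a polynomial in `a` -/
theorem Dec_sq {W : Lat ρ} (hW : D.Surj W) {m : ℕ} {v : Fin m → Fin (ρ + 1) → ℝ} {κ : ℝ}
    (hv : Submodule.span ℝ (range v) = spanR W ⊓ LinearMap.ker D.Dec_ho) (σ : ℝ) (k : ℕ)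
    (b τ ξ : ℝ)
    (hκ : ∀ x : Fin 2 → Fin (ρ + 1) → ℝ, (∀ i, x i ∈ spanR W) →
      wedge (D.ho (x 0)) (D.ho (x 1)) = 1 → ∀ a, cov (D.LL σ k a b τ ξ) W =
        κ * vol fun i => D.LL σ k a b τ ξ (Sum.elim v x i))
    {y : ℂ} (hy : ‖zm σ k y‖ = 1) : ∃ x ∈ spanR W, D.ho x = y ∧ ∃ P₀ ≥ (0 : ℝ),
      ∃ P₁ ≥ D.RR σ k b τ ξ x ^ 2, ∀ a, cov (D.LL σ k a b τ ξ) W ^ 2 =
        D.om (fun i => tl ρ (v i)) (fun i => b * -v i 0) κ σ k ^ 2 *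
          (P₀ + a ^ 2 * P₁ + a ^ 4) := by
  obtain ⟨c₀, m₀, e₀⟩ := hW y
  obtain ⟨c₁, m₁, e₁⟩ := hW ((zm σ k).symm (Complex.I * zm σ k y))
  obtain ⟨x₀, hx₀, f₀, o₀⟩ := D.Dec_lift_ho σ k b τ ξ m₀
  obtain ⟨x₁, hx₁, f₁, o₁⟩ := D.Dec_lift_ho σ k b τ ξ m₁
  rw [e₀] at f₀
  have g₁ : zm σ k (D.ho x₁) = Complex.I * zm σ k y := by
    rw [f₁, e₁, ContinuousLinearEquiv.apply_symm_apply]
  refine ⟨x₀, hx₀, f₀, vol (fun j => D.LL σ k 0 b τ ξ (![x₀, x₁] j)) ^ 2, sq_nonneg _,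
    D.RR σ k b τ ξ x₀ ^ 2 + D.RR σ k b τ ξ x₁ ^ 2, le_add_of_nonneg_right (sq_nonneg _),
    fun a => ?_⟩
  rw [hκ ![x₀, x₁] (Fin.forall_fin_two.2 ⟨hx₀, hx₁⟩) (by
      simp only [Matrix.cons_val_zero, Matrix.cons_val_one]
      rw [← Dec_wedge_zm σ k, f₀, g₁, Dec_wedge_I, hy, one_pow]),
    Dec_vol_lift _ v ![x₀, x₁] ![x₀, x₁] (fun j => by simp) (by
      rw [hv]
      exact Fin.forall_fin_two.2 ⟨fun y hy => o₀ a y hy.1 hy.2, fun y hy => o₁ a y hy.1 hy.2⟩),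
    ← mul_assoc, D.Dec_vol_ker σ k a b τ ξ (D.Dec_ker hv), mul_pow, vol_two, vol_two]
  simp only [Matrix.cons_val_zero, Matrix.cons_val_one]
  rw [Dec_norm_sq, Dec_norm_sq, Dec_norm_sq, Dec_norm_sq, D.Dec_inner σ k a, f₀, g₁, Dec_dot_I,
    norm_mul, Complex.norm_I, hy]
  ring

/-- the extra basis vector -/
theorem Dec_tl_eps : tl ρ (cst (eps ρ)) = 0 := by
  funext i
  simp [tl, cst, eps, LinearMap.funLeft_apply]

theorem Dec_ho_eps : D.ho (cst (eps ρ)) = 0 := by rw [ho, Dec_tl_eps, map_zero]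

theorem Dec_eps_zero : cst (eps ρ) 0 = 1 := by simp [cst, eps]

/-- the last unit vector of the target space -/
noncomputable def Dec_e (V : Type) [NormedAddCommGroup V] : WithLp 2 (V × WithLp 2 (ℂ × ℝ)) :=
  WithLp.toLp 2 (0, WithLp.toLp 2 (0, 1))

theorem Dec_LL_eps (σ : ℝ) (k : ℕ) (a b τ ξ : ℝ) :
    D.LL σ k a b τ ξ (cst (eps ρ)) = (-b) • Dec_e V := by
  simp [LL, ell, Dec_ho_eps, Dec_tl_eps, Dec_eps_zero, dot, Dec_e, ← WithLp.toLp_smul,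
    ← WithLp.toLp_neg]

theorem Dec_LL_split (σ : ℝ) (k : ℕ) (a b τ ξ : ℝ) (x : Fin (ρ + 1) → ℝ) :
    D.LL σ k a b τ ξ x = D.LL σ k a b 0 0 x + (b * ξ * dot (D.ho x) (ed τ)) • Dec_e V := by
  simp only [LL, ell, Dec_e, LinearMap.coe_mk, AddHom.coe_mk, ← WithLp.toLp_smul,
    ← WithLp.toLp_add, Prod.smul_mk, Prod.mk_add_mk, smul_zero, add_zero, smul_eq_mul]
  congr 4
  ring

theorem Dec_LL_split' (σ : ℝ) (k : ℕ) (a b τ ξ : ℝ) (x : Fin (ρ + 1) → ℝ) :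
    D.LL σ k a b τ ξ x = D.LL σ k a 0 τ ξ x + (b * D.ell τ ξ x) • Dec_e V := by
  simp only [LL, Dec_e, LinearMap.coe_mk, AddHom.coe_mk, ← WithLp.toLp_smul,
    ← WithLp.toLp_add, Prod.smul_mk, Prod.mk_add_mk, smul_zero, add_zero, smul_eq_mul]
  congr 4
  ring

theorem dec2 {W : Lat ρ} (hW : D.Surj W) (b : ℝ) : ∃ m ≤ ρ + 1,
    ∃ (w : Fin m → Fin ρ → ℝ) (c : Fin m → ℝ) (κ : ℝ), 0 < κ ∧
    (∀ σ k a τ ξ y t, 0 ≤ a → 0 ≤ t → (∀ x ∈ spanR W, D.ho x = y → t ≤ D.RR σ k b τ ξ x) →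
      a * t * D.om w c κ σ k ≤ ‖zm σ k y‖ * cov (D.LL σ k a b τ ξ) W) ∧
    (∀ σ k a τ ξ, a ^ 2 * D.om w c κ σ k ≤ cov (D.LL σ k a b τ ξ) W) ∧
    (∀ σ k a τ ξ, ∀ x₁ ∈ spanR W, ∀ x₂ ∈ spanR W, wedge (D.ho x₁) (D.ho x₂) = 1 →
      cov (D.LL σ k a b τ ξ) W ≤
        D.om w c κ σ k * (‖D.LL σ k a b τ ξ x₁‖ * ‖D.LL σ k a b τ ξ x₂‖)) ∧
    (Sat W → eps ρ ∉ W → ∀ σ k, ∃ ν ≥ (0 : ℝ), ∃ cc : ℂ,
      (∀ τ ξ, ∀ x ∈ spanR W,
        |dot cc (D.ho x) + ν * (b * ξ * dot (D.ho x) (ed τ))| ≤ D.RR σ k b τ ξ x) ∧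
      ∀ a τ ξ, ∀ x₁ ∈ spanR W, ∀ x₂ ∈ spanR W, wedge (D.ho x₁) (D.ho x₂) = 1 →
        cov (D.LL σ k a b τ ξ) (sat (W ⊔ Submodule.span ℤ {eps ρ})) ≤
          |b| * ν * D.om w c κ σ k * (‖D.LL σ k a b τ ξ x₁‖ * ‖D.LL σ k a b τ ξ x₂‖)) := by
  obtain ⟨m, hm, v, κ, hκ, hv, hx⟩ := D.Dec_surj hW
  have hsq := fun σ k τ ξ y hy => D.Dec_sq hW hv σ k b τ ξ (y := y)
    (fun x h1 h2 a => (hx x h1 h2).2.2 _ _) hy
  have had : ∀ σ k a τ ξ (x₁ x₂ : Fin (ρ + 1) → ℝ),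
      vol (fun j => D.LL σ k a b τ ξ (![x₁, x₂] j)) ≤
        ‖D.LL σ k a b τ ξ x₁‖ * ‖D.LL σ k a b τ ξ x₂‖ := fun σ k a τ ξ x₁ x₂ => by
    simpa using vol_le_prod fun j => D.LL σ k a b τ ξ (![x₁, x₂] j)
  refine ⟨m, hm, fun i => tl ρ (v i), fun i => b * -v i 0, κ, hκ, ?_, ?_, ?_, ?_⟩
  · intro σ k a τ ξ y t ha ht h
    rcases eq_or_ne y 0 with rfl | hy
    · have h1 := h 0 (Submodule.zero_mem _) D.Dec_ho_zero
      rw [Dec_RR_zero] at h1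
      simp [le_antisymm h1 ht]
    have hN : 0 < ‖zm σ k y‖ := by simpa using hy
    obtain ⟨x, mx, ex, P₀, h₀, P₁, h₁, hP⟩ := hsq σ k τ ξ (‖zm σ k y‖⁻¹ • y) (by
      rw [map_smul, norm_smul, norm_inv, norm_norm, inv_mul_cancel₀ hN.ne'])
    have h2 := h (‖zm σ k y‖ • x) (Submodule.smul_mem _ _ mx) (by
      rw [Dec_ho_smul, ex, smul_smul, mul_inv_cancel₀ hN.ne', one_smul])
    rw [Dec_RR_smul, abs_of_pos hN] at h2
    refine Dec_le_of_sq (mul_nonneg hN.le (cov_nonneg _ _)) ?_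
    rw [mul_pow ‖zm σ k y‖, hP a]
    have h3 : t ^ 2 ≤ ‖zm σ k y‖ ^ 2 * P₁ :=
      (pow_le_pow_left₀ ht h2 2).trans (by rw [mul_pow]; gcongr)
    have h4 := mul_le_mul_of_nonneg_left h3 (sq_nonneg a)
    have h5 : a ^ 2 * t ^ 2 ≤ ‖zm σ k y‖ ^ 2 * (P₀ + a ^ 2 * P₁ + a ^ 4) := by
      have : 0 ≤ ‖zm σ k y‖ ^ 2 * (P₀ + a ^ 4) := by positivity
      nlinarith
    nlinarith [mul_le_mul_of_nonneg_left h5
      (sq_nonneg (D.om (fun i => tl ρ (v i)) (fun i => b * -v i 0) κ σ k))]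
  · intro σ k a τ ξ
    obtain ⟨x, -, -, P₀, h₀, P₁, h₁, hP⟩ := hsq σ k τ ξ ((zm σ k).symm 1) (by simp)
    refine Dec_le_of_sq (cov_nonneg _ _) ?_
    have h2 : 0 ≤ P₁ := (sq_nonneg _).trans h₁
    have h5 : 0 ≤ P₀ + a ^ 2 * P₁ := by positivity
    rw [hP a]
    nlinarith [mul_nonneg h5
      (sq_nonneg (D.om (fun i => tl ρ (v i)) (fun i => b * -v i 0) κ σ k))]
  · intro σ k a τ ξ x₁ m₁ x₂ m₂ hw
    rw [(hx ![x₁, x₂] (Fin.forall_fin_two.2 ⟨m₁, m₂⟩) hw).2.2, Dec_elim,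
      ← D.Dec_vol_ker σ k a b τ ξ (D.Dec_ker hv), mul_assoc]
    exact mul_le_mul_of_nonneg_left ((vol_sum_le _ _).trans
      (mul_le_mul_of_nonneg_left (had σ k a τ ξ x₁ x₂) (vol_nonneg _))) hκ.le
  · intro hS he σ k
    have := FiniteDimensional.span_of_finite ℝ (finite_range fun i => D.LL σ k 0 b 0 0 (v i))
    obtain ⟨Q, q1, q2, -⟩ :=
      exists_orth (Submodule.span ℝ (range fun i => D.LL σ k 0 b 0 0 (v i)))
    obtain ⟨n, hn⟩ : ∃ n, n = Q (Dec_e V) := ⟨_, rfl⟩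
    have n1 : Dec_e V - n ∈ _ := hn ▸ q1 (Dec_e V)
    have n2 : ∀ y ∈ Submodule.span ℝ (range fun i => D.LL σ k 0 b 0 0 (v i)),
        inner ℝ y n = 0 := hn ▸ q2 (Dec_e V)
    have n3 : inner ℝ n (Dec_e V) = ‖n‖ ^ 2 := by
      have := n2 _ n1
      rw [inner_sub_left, real_inner_self_eq_norm_sq] at this
      rw [real_inner_comm]
      linarith
    obtain ⟨cc, hcc⟩ := D.Dec_factor hW (ContinuousLinearEquiv.refl ℝ ℂ)
      (‖n‖⁻¹ • ((innerₛₗ ℝ n) ∘ₗ D.LL σ k 0 b 0 0)) fun x hx hx0 => by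
        simp only [LinearMap.smul_apply, LinearMap.comp_apply, innerₛₗ_apply_apply]
        rw [real_inner_comm, n2 _ (Dec_mem_span _ v (hv.ge ⟨hx, hx0⟩)), smul_zero]
    simp only [LinearMap.smul_apply, LinearMap.comp_apply, innerₛₗ_apply_apply, smul_eq_mul,
      ContinuousLinearEquiv.refl_apply] at hcc
    refine ⟨‖n‖, norm_nonneg _, cc, fun τ ξ x hx => ?_, fun a τ ξ x₁ m₁ x₂ m₂ hw => ?_⟩
    · have e : dot cc (D.ho x) + ‖n‖ * (b * ξ * dot (D.ho x) (ed τ)) =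
          ‖n‖⁻¹ * inner ℝ n (D.LL σ k 0 b τ ξ x) := by
        rw [D.Dec_LL_split σ k 0 b τ ξ x, inner_add_right, real_inner_smul_right, n3, ← hcc x hx]
        rcases eq_or_ne ‖n‖ 0 with h0 | h0
        · simp [h0]
        · field_simp
      rw [e, Dec_RR_eq, abs_mul, abs_of_nonneg (inv_nonneg.2 (norm_nonneg n))]
      rcases (norm_nonneg n).eq_or_lt with h0 | h0
      · simp [← h0]
      · rw [inv_mul_le_iff₀ h0]
        exact abs_real_inner_le_norm _ _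
    · obtain ⟨b1, b2, b3⟩ := hx ![x₁, x₂] (Fin.forall_fin_two.2 ⟨m₁, m₂⟩) hw
      refine (cov_add_le_vol hS he _ b1 b2 b3 _).trans ?_
      have e1 : (fun i => D.LL σ k a b τ ξ (v i)) = fun i => D.LL σ k 0 b 0 0 (v i) :=
        funext fun i => D.Dec_LL_ker σ k a b τ ξ (D.Dec_ker hv i)
      have e2 : vol (Sum.elim (fun i => D.LL σ k a b τ ξ (v i))
          fun _ : Unit => D.LL σ k a b τ ξ (cst (eps ρ))) =
          vol (fun i => D.LL σ k a b τ ξ (v i)) * (|b| * ‖n‖) := by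
        rw [vol_sum _ _ (fun _ => (-b) • n), vol_unique (ι := Unit), norm_smul, norm_neg,
          Real.norm_eq_abs]
        · intro _
          rw [Dec_LL_eps, ← smul_sub, e1]
          exact Submodule.smul_mem _ _ n1
        · intro i _
          rw [real_inner_smul_right, D.Dec_LL_ker σ k a b τ ξ (D.Dec_ker hv i),
            n2 _ (Submodule.subset_span ⟨i, rfl⟩), mul_zero]
      rw [Dec_elim, Dec_vol_swap, ← D.Dec_vol_ker σ k a b τ ξ (D.Dec_ker hv)]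
      refine (mul_le_mul_of_nonneg_left ((vol_sum_le _ _).trans
        (mul_le_mul_of_nonneg_left (had σ k a τ ξ x₁ x₂) (vol_nonneg _))) hκ.le).trans_eq ?_
      rw [e2]
      ring

/-- the case of a holonomy image of dimension one -/
theorem Dec_line {W : Lat ρ} (hW : ¬ D.Surj W) (b : ℝ) {v : Fin (ρ + 1) → ℝ} (hv : v ∈ spanR W)
    (hv' : D.ho v ≠ 0) : ∃ m ≤ ρ + 1,
    ∃ (w : Fin m → Fin ρ → ℝ) (c : Fin m → ℝ) (κ : ℝ), 0 < κ ∧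
    (∀ σ k τ ξ, ∃ P ≥ (0 : ℝ), ∀ a, cov (D.LL σ k a b τ ξ) W ^ 2 =
      D.om w c κ σ k ^ 2 * (P + a ^ 2 * ‖zm σ k (D.ho v)‖ ^ 2)) ∧
    ∀ σ k a τ ξ, cov (D.LL σ k a b τ ξ) W ≤ D.om w c κ σ k * ‖D.LL σ k a b τ ξ v‖ := by
  obtain ⟨m, hm, u, hu, hb⟩ := Dec_basis (spanR W) D.Dec_ho
  obtain ⟨b1, b2⟩ := hb Unit (fun _ => v) (fun _ => hv) (linearIndependent_unique_iff.2 hv')
    fun x hx => by
      have h1 : wedge (D.ho x) (D.ho v) = 0 := by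
        by_contra h
        refine hW fun y => ⟨(wedge (D.ho x) (D.ho v))⁻¹ •
          (wedge y (D.ho v) • x + wedge (D.ho x) y • v), Submodule.smul_mem _ _
          (Submodule.add_mem _ (Submodule.smul_mem _ _ hx) (Submodule.smul_mem _ _ hv)), ?_⟩
        rw [Dec_ho_smul, Dec_ho_add, Dec_ho_smul, Dec_ho_smul, ← wedge_smul_eq, smul_smul,
          inv_mul_cancel₀ h, one_smul]
      obtain ⟨r, hr⟩ := exists_smul_of_wedge h1 hv'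
      exact ⟨fun _ => r, by simpa [Dec_ho_apply] using hr⟩
  obtain ⟨κ, hκ, hκ'⟩ := cov_eq_vol W _ b1 b2
  refine ⟨m, hm, fun i => tl ρ (u i), fun i => b * -u i 0, κ, hκ, fun σ k τ ξ => ?_,
    fun σ k a τ ξ => ?_⟩
  · obtain ⟨x, hx, f, o⟩ := D.Dec_lift_ho σ k b τ ξ hv
    refine ⟨D.RR σ k b τ ξ x ^ 2, sq_nonneg _, fun a => ?_⟩
    rw [hκ', Dec_vol_lift _ u (fun _ : Unit => v) (fun _ => x) (fun _ => by
        rw [hu]
        refine ⟨Submodule.sub_mem _ hv hx, ?_⟩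
        change D.ho _ = 0
        rw [Dec_ho_sub, f, sub_self]) (fun _ y hy => by
        rw [hu] at hy
        exact o a y hy.1 hy.2),
      ← mul_assoc, D.Dec_vol_ker σ k a b τ ξ (D.Dec_ker hu), mul_pow, vol_unique, Dec_norm_sq, f]
  · rw [hκ', Dec_elim, ← D.Dec_vol_ker σ k a b τ ξ (D.Dec_ker hu), mul_assoc]
    refine mul_le_mul_of_nonneg_left ((vol_sum_le _ _).trans_eq ?_) hκ.le
    rw [vol_unique (ι := Unit)]

theorem dec1 {W : Lat ρ} (hW : ¬ D.Surj W) (b : ℝ) {v : Fin (ρ + 1) → ℝ} (hv : v ∈ spanR W)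
    (hv' : D.ho v ≠ 0) : ∃ m ≤ ρ + 1,
    ∃ (w : Fin m → Fin ρ → ℝ) (c : Fin m → ℝ) (κ : ℝ), 0 < κ ∧
    (∀ σ k a τ ξ, 0 ≤ a →
      a * ‖zm σ k (D.ho v)‖ * D.om w c κ σ k ≤ cov (D.LL σ k a b τ ξ) W) ∧
    ∀ σ k a τ ξ, cov (D.LL σ k a b τ ξ) W ≤ D.om w c κ σ k * ‖D.LL σ k a b τ ξ v‖ := by
  obtain ⟨m, hm, w, c, κ, hκ, h1, h2⟩ := D.Dec_line hW b hv hv'
  refine ⟨m, hm, w, c, κ, hκ, fun σ k a τ ξ _ => ?_, h2⟩
  obtain ⟨P, hP, h3⟩ := h1 σ k τ ξ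
  refine Dec_le_of_sq (cov_nonneg _ _) ?_
  rw [h3 a]
  nlinarith [mul_nonneg hP (sq_nonneg (D.om w c κ σ k))]

/-- the squared covolume is an even polynomial of degree at most four in `a` -/
theorem Dec_poly (σ : ℝ) (k : ℕ) (b ξ : ℝ) (W : Lat ρ) : ∃ P₀ ≥ (0 : ℝ), ∃ P₁ ≥ (0 : ℝ),
    ∃ P₂ ≥ (0 : ℝ), (∀ a, D.cv σ k a b ξ W ^ 2 = P₀ + a ^ 2 * P₁ + a ^ 4 * P₂) ∧
      (¬ D.Deep σ k b ξ W 1 → P₂ ≤ P₁) := by
  by_cases hW : D.Surj W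
  · obtain ⟨m, -, v, κ, -, hv, hx⟩ := D.Dec_surj hW
    obtain ⟨y, hy, hy'⟩ : ∃ y, ‖zm σ k y‖ = 1 ∧ (¬ D.Deep σ k b ξ W 1 →
        ∀ x ∈ spanR W, D.ho x = y → 1 ≤ D.RR σ k b σ ξ x) := by
      by_cases h : D.Deep σ k b ξ W 1
      · exact ⟨(zm σ k).symm 1, by simp, fun h' => (h' h).elim⟩
      simp only [Deep, not_forall, not_exists, not_and, not_le, one_mul] at h
      obtain ⟨y, hy⟩ := h
      have hN : 0 < ‖zm σ k y‖ := by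
        rcases eq_or_ne y 0 with rfl | h0
        · have := hy 0 (Submodule.zero_mem _) D.Dec_ho_zero
          simp [Dec_RR_zero] at this
        · simpa using h0
      refine ⟨‖zm σ k y‖⁻¹ • y, by
        rw [map_smul, norm_smul, norm_inv, norm_norm, inv_mul_cancel₀ hN.ne'],
        fun _ x mx ex => ?_⟩
      have h2 := hy (‖zm σ k y‖ • x) (Submodule.smul_mem _ _ mx) (by
        rw [Dec_ho_smul, ex, smul_smul, mul_inv_cancel₀ hN.ne', one_smul])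
      rw [Dec_RR_smul, abs_of_pos hN] at h2
      exact ((lt_mul_iff_one_lt_right hN).1 h2).le
    obtain ⟨x, mx, ex, P₀, h₀, P₁, h₁, hP⟩ := D.Dec_sq hW hv σ k b σ ξ (y := y)
      (fun x h1 h2 a => (hx x h1 h2).2.2 _ _) hy
    have h2 : 0 ≤ P₁ := (sq_nonneg _).trans h₁
    obtain ⟨o, ho⟩ : ∃ o, o = D.om (fun i => tl ρ (v i)) (fun i => b * -v i 0) κ σ k := ⟨_, rfl⟩
    rw [← ho] at hP
    refine ⟨o ^ 2 * P₀, by positivity, o ^ 2 * P₁, by positivity, o ^ 2, by positivity,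
      fun a => by rw [cv, hP]; ring, fun h => le_mul_of_one_le_right (sq_nonneg _) ?_⟩
    exact (one_le_pow₀ (hy' h x mx ex)).trans h₁
  by_cases h0 : ∃ v ∈ spanR W, D.ho v ≠ 0
  · obtain ⟨v, hv, hv'⟩ := h0
    obtain ⟨m, -, w, c, κ, -, h1, -⟩ := D.Dec_line hW b hv hv'
    obtain ⟨P, hP, h3⟩ := h1 σ k σ ξ
    exact ⟨D.om w c κ σ k ^ 2 * P, by positivity, D.om w c κ σ k ^ 2 * ‖zm σ k (D.ho v)‖ ^ 2,
      by positivity, 0, le_rfl, fun a => by rw [cv, h3]; ring, fun _ => by positivity⟩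
  · push Not at h0
    refine ⟨cov (D.LL σ k 0 b 0 0) W ^ 2, sq_nonneg _, 0, le_rfl, 0, le_rfl, fun a => ?_,
      fun _ => le_rfl⟩
    have : D.cv σ k a b ξ W = cov (D.LL σ k 0 b 0 0) W := by
      unfold cv cov
      congr 1
      funext i
      exact D.Dec_LL_ker σ k a b σ ξ (h0 _ (cst_mem_spanR (Module.finBasis ℤ W i).2))
    rw [this]
    ring

theorem dec3 {σ : ℝ} {k : ℕ} {a b ξ : ℝ} {W : Lat ρ} (h : ¬ D.Deep σ k b ξ W 1) (ha : 0 < a)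
    (ha' : a ≤ 1) : a * D.cv σ k 1 b ξ W ≤ 2 * D.cv σ k a b ξ W := by
  obtain ⟨P₀, h₀, P₁, h₁, P₂, h₂, hP, h3⟩ := D.Dec_poly σ k b ξ W
  refine Dec_le_of_sq (mul_nonneg zero_le_two (cov_nonneg _ _)) ?_
  rw [mul_pow, mul_pow, hP, hP]
  have a2 : a ^ 2 ≤ 1 := pow_le_one₀ ha.le ha'
  nlinarith [mul_le_mul_of_nonneg_right a2 h₀, mul_le_mul_of_nonneg_left (h3 h) (sq_nonneg a),
    mul_nonneg (sq_nonneg a) h₁, mul_nonneg (pow_nonneg ha.le 4) h₂]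

theorem dec_a2 (σ : ℝ) (k : ℕ) {a : ℝ} (b ξ : ℝ) (W : Lat ρ) (ha : 0 ≤ a) (ha' : a ≤ 1) :
    a ^ 2 * D.cv σ k 1 b ξ W ≤ D.cv σ k a b ξ W := by
  obtain ⟨P₀, h₀, P₁, h₁, P₂, h₂, hP, -⟩ := D.Dec_poly σ k b ξ W
  refine Dec_le_of_sq (cov_nonneg _ _) ?_
  rw [mul_pow, hP, hP]
  have a4 : a ^ 4 ≤ 1 := pow_le_one₀ ha ha'
  have a2 : a ^ 4 ≤ a ^ 2 := pow_le_pow_of_le_one ha ha' (by norm_num)
  nlinarith [mul_le_mul_of_nonneg_right a4 h₀, mul_le_mul_of_nonneg_right a2 h₁]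

theorem dec_g0 {σ : ℝ} {k : ℕ} {a b ξ t : ℝ} {W : Lat ρ} (h : D.Deep σ k b ξ W t) (ha : 0 ≤ a)
    (ha' : a ≤ t) : D.cv σ k a b ξ W ≤ 2 * t ^ 2 * D.cv σ k 1 b ξ W := by
  obtain ⟨m, -, w, c, κ, hκ, -, h2, h3, -⟩ := D.dec2 (Deep.surj D h) b
  obtain ⟨x₁, m₁, x₂, m₂, hw, hx⟩ := Deep.pair' D h (ha.trans ha') a
  have h4 := h2 σ k 1 σ ξ
  have h5 := D.Dec_om_nonneg σ k w c hκ
  have h6 : a ^ 2 ≤ t ^ 2 := pow_le_pow_left₀ ha ha' 2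
  rw [one_pow, one_mul] at h4
  calc _ ≤ _ := h3 σ k a σ ξ x₁ m₁ x₂ m₂ hw
    _ ≤ D.om w c κ σ k * (2 * t ^ 2) := mul_le_mul_of_nonneg_left (by linarith) h5
    _ ≤ _ := by
      rw [mul_comm]
      exact mul_le_mul_of_nonneg_left h4 (by positivity)

theorem dec_eps (σ : ℝ) (k : ℕ) (a ξ : ℝ) {b : ℝ} {W : Lat ρ} (hW : eps ρ ∈ W) (hb : 0 ≤ b) :
    b * D.cv σ k a 1 ξ W = D.cv σ k a b ξ W := by
  obtain ⟨m, -, u, -, hu⟩ := Dec_basis (spanR W) (LinearMap.proj (R := ℝ) 0)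
  obtain ⟨b1, b2⟩ := hu Unit (fun _ => cst (eps ρ)) (fun _ => cst_mem_spanR hW)
    (linearIndependent_unique_iff.2 (by simp [Dec_eps_zero]))
    fun x _ => ⟨fun _ => x 0, by simp [Dec_eps_zero]⟩
  obtain ⟨κ, -, hκ⟩ := cov_eq_vol W _ b1 b2
  have key : ∀ b : ℝ, D.cv σ k a b ξ W =
      κ * (|b| * ‖Dec_e V‖ * vol fun i => D.LL σ k a 0 σ ξ (u i)) := fun b => by
    rw [cv, hκ, Dec_elim, Dec_vol_comm, vol_sum _ _ (fun i => D.LL σ k a 0 σ ξ (u i)),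
      vol_unique, Dec_LL_eps, norm_smul, norm_neg, Real.norm_eq_abs]
    · intro j
      have : D.LL σ k a b σ ξ (u j) - D.LL σ k a 0 σ ξ (u j) =
          (-D.ell σ ξ (u j)) • D.LL σ k a b σ ξ (cst (eps ρ)) := by
        rw [D.Dec_LL_split' σ k a b σ ξ (u j), Dec_LL_eps, smul_smul, add_sub_cancel_left]
        congr 1
        ring
      rw [this]
      exact Submodule.smul_mem _ _ (Submodule.subset_span ⟨(), rfl⟩)
    · intro _ j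
      rw [Dec_LL_eps, real_inner_smul_left]
      simp [LL, Dec_e]
  rw [key, key, abs_one, abs_of_nonneg hb]
  ring

theorem dec_b (σ : ℝ) (k : ℕ) (a ξ : ℝ) {b : ℝ} (W : Lat ρ) (hb : 1 ≤ b) :
    D.cv σ k a 1 ξ W ≤ D.cv σ k a b ξ W := by
  have h := cov_le_of_norm_le (D.LL σ k a 1 σ ξ) (D.LL σ k a b σ ξ) W zero_le_one fun x _ => by
    rw [one_mul]
    refine Dec_le_of_sq (norm_nonneg _) ?_
    rw [norm_LL_sq, norm_LL_sq]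
    nlinarith [mul_le_mul_of_nonneg_right (one_le_pow₀ (n := 2) hb) (sq_nonneg (D.ell σ ξ x))]
  rwa [one_pow, one_mul] at h

end Pool.Agent.MP_d0b2d2_an.Gen.ResData
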