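import Pool.Agent.MP_d0b2d2_an.Gen.Lat

open Set Filter Topology

namespace Pool.Agent.MP_d0b2d2_an.Gen

/-- a basis of the kernel of `f` on `U`, completed by any lifts of a basis of the image -/
theorem Dec_basis {d : ℕ} {G : Type} [AddCommGroup G] [Module ℝ G]
    (U : Submodule ℝ (Fin d → ℝ)) (f : (Fin d → ℝ) →ₗ[ℝ] G) :
    ∃ m ≤ d, ∃ v : Fin m → Fin d → ℝ, Submodule.span ℝ (range v) = U ⊓ LinearMap.ker f ∧
      ∀ (ι : Type) [Fintype ι] (c : ι → Fin d → ℝ), (∀ j, c j ∈ U) →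
        LinearIndependent ℝ (fun j => f (c j)) →
        (∀ x ∈ U, ∃ a : ι → ℝ, f x = ∑ j, a j • f (c j)) →
        LinearIndependent ℝ (Sum.elim v c) ∧ Submodule.span ℝ (range (Sum.elim v c)) = U := by
  obtain ⟨K, hK⟩ : ∃ K, K = U ⊓ LinearMap.ker f := ⟨_, rfl⟩
  have hs : Submodule.span ℝ (range fun i => ((Module.finBasis ℝ K i : K) : Fin d → ℝ)) = K := by
    have h1 := congrArg (Submodule.map K.subtype) (Module.finBasis ℝ K).span_eq
    rw [Submodule.map_span, Submodule.map_subtype_top, ← range_comp] at h1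
    exact h1
  have hl : LinearIndependent ℝ fun i => ((Module.finBasis ℝ K i : K) : Fin d → ℝ) :=
    (Module.finBasis ℝ K).linearIndependent.map' K.subtype K.ker_subtype
  refine ⟨Module.finrank ℝ K, by simpa using K.finrank_le, _, hs.trans hK, ?_⟩
  intro ι _ c hc hli hsp
  constructor
  · refine LinearIndependent.sum_type hl (LinearIndependent.of_comp f hli) ?_
    rw [hs, Submodule.disjoint_def]
    intro x hx hx'
    obtain ⟨a, rfl⟩ := (Submodule.mem_span_range_iff_exists_fun ℝ).1 hx'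
    rw [hK] at hx
    have h2 : ∑ j, a j • f (c j) = 0 := by
      have := hx.2
      simpa [map_sum] using this
    have h3 := Fintype.linearIndependent_iff.1 hli a h2
    simp [h3]
  · rw [Sum.elim_range, Submodule.span_union, hs]
    apply le_antisymm
    · refine sup_le (hK ▸ inf_le_left) (Submodule.span_le.2 ?_)
      rintro _ ⟨j, rfl⟩
      exact hc j
    · intro x hx
      obtain ⟨a, ha⟩ := hsp x hx
      have h1 : ∑ j, a j • c j ∈ U := U.sum_mem fun j _ => U.smul_mem _ (hc j)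
      have h2 : x - ∑ j, a j • c j ∈ K := by
        rw [hK]
        refine ⟨U.sub_mem hx h1, ?_⟩
        simp [map_sum, ha]
      have h3 : ∑ j, a j • c j ∈ Submodule.span ℝ (range c) :=
        (Submodule.mem_span_range_iff_exists_fun ℝ).2 ⟨a, rfl⟩
      simpa using Submodule.add_mem_sup h2 h3

variable {d : ℕ} {T : Type} [NormedAddCommGroup T] [InnerProductSpace ℝ T]

/-- orthogonal representative modulo a subspace -/
theorem Dec_lift (L : (Fin d → ℝ) →ₗ[ℝ] T) (U : Submodule ℝ (Fin d → ℝ)) (x : Fin d → ℝ) :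
    ∃ x', x - x' ∈ U ∧ ∀ y ∈ U, inner ℝ (L y) (L x') = 0 := by
  obtain ⟨Q, h1, h2, -⟩ := exists_orth (U.map L)
  obtain ⟨y, hy, e⟩ := h1 (L x)
  refine ⟨x - y, by simpa using hy, fun y' hy' => ?_⟩
  rw [map_sub, e, sub_sub_cancel]
  exact h2 _ _ ⟨y', hy', rfl⟩

theorem Dec_elim {ι ι' : Type} (L : (Fin d → ℝ) →ₗ[ℝ] T) (v : ι → Fin d → ℝ) (c : ι' → Fin d → ℝ) :
    (fun i => L (Sum.elim v c i)) = Sum.elim (fun i => L (v i)) fun j => L (c j) := by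
  funext i
  cases i <;> rfl

theorem Dec_mem_span {ι : Type} (L : (Fin d → ℝ) →ₗ[ℝ] T) (v : ι → Fin d → ℝ) {x : Fin d → ℝ}
    (hx : x ∈ Submodule.span ℝ (range v)) : L x ∈ Submodule.span ℝ (range fun i => L (v i)) := by
  have h := Submodule.mem_map_of_mem (f := L) hx
  rw [Submodule.map_span, ← range_comp] at h
  exact h

variable {ι ι' : Type} [Fintype ι] [DecidableEq ι] [Fintype ι'] [DecidableEq ι']

theorem Dec_vol_lift (L : (Fin d → ℝ) →ₗ[ℝ] T) (v : ι → Fin d → ℝ) (c c' : ι' → Fin d → ℝ)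
    (h1 : ∀ j, c j - c' j ∈ Submodule.span ℝ (range v))
    (h2 : ∀ j, ∀ y ∈ Submodule.span ℝ (range v), inner ℝ (L y) (L (c' j)) = 0) :
    vol (fun i => L (Sum.elim v c i)) = vol (fun i => L (v i)) * vol fun j => L (c' j) := by
  rw [Dec_elim]
  refine vol_sum _ _ _ (fun j => ?_) fun i j => h2 j _ (Submodule.subset_span ⟨i, rfl⟩)
  rw [← map_sub]
  exact Dec_mem_span L v (h1 j)

theorem Dec_vol_change (L : (Fin d → ℝ) →ₗ[ℝ] T) (v : ι → Fin d → ℝ) (c x : ι' → Fin d → ℝ)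
    (M : Matrix ι' ι' ℝ) (h : ∀ i, x i - ∑ j, M i j • c j ∈ Submodule.span ℝ (range v)) :
    vol (fun i => L (Sum.elim v x i)) = |M.det| * vol fun i => L (Sum.elim v c i) := by
  choose c' h1 h2 using fun j => Dec_lift L (Submodule.span ℝ (range v)) (c j)
  rw [Dec_vol_lift L v c c' h1 h2, Dec_vol_lift L v x (fun i => ∑ j, M i j • c' j)]
  · simp only [map_sum, map_smul]
    rw [vol_matrix M fun j => L (c' j)]
    ring
  · intro i
    have h3 : ∑ j, M i j • (c j - c' j) ∈ Submodule.span ℝ (range v) :=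
      Submodule.sum_mem _ fun j _ => Submodule.smul_mem _ _ (h1 j)
    have h4 := Submodule.add_mem _ (h i) h3
    simpa [smul_sub, Finset.sum_sub_distrib] using h4
  · intro i y hy
    simp [map_sum, inner_sum, inner_smul_right, h2 _ y hy]

theorem Dec_vol_swap {ι'' : Type} [Fintype ι''] [DecidableEq ι''] (p : ι → T) (q : ι' → T)
    (r : ι'' → T) : vol (Sum.elim (Sum.elim p q) r) = vol (Sum.elim (Sum.elim p r) q) := by
  rw [← vol_equiv ((Equiv.sumAssoc _ _ _).trans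
    ((Equiv.sumCongr (Equiv.refl _) (Equiv.sumComm _ _)).trans (Equiv.sumAssoc _ _ _).symm))
    (Sum.elim (Sum.elim p r) q)]
  congr 1
  funext i
  rcases i with (i | i) | i <;> rfl

theorem Dec_vol_comm (p : ι → T) (q : ι' → T) : vol (Sum.elim p q) = vol (Sum.elim q p) := by
  rw [← vol_equiv (Equiv.sumComm _ _) (Sum.elim q p)]
  congr 1
  funext i
  rcases i with i | i <;> rfl

theorem Dec_le_of_sq {x y : ℝ} (hy : 0 ≤ y) (h : x ^ 2 ≤ y ^ 2) : x ≤ y :=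
  (abs_le_of_sq_le_sq' h hy).2

namespace ResData

variable {ρ : ℕ} {V : Type} [NormedAddCommGroup V] [InnerProductSpace ℝ V] (D : ResData ρ V)

/-- the holonomy as a linear map -/
noncomputable def Dec_ho : (Fin (ρ + 1) → ℝ) →ₗ[ℝ] ℂ := D.hol ∘ₗ tl ρ

theorem Dec_ho_apply (x : Fin (ρ + 1) → ℝ) : D.Dec_ho x = D.ho x := rfl

theorem Dec_ho_add (x y : Fin (ρ + 1) → ℝ) : D.ho (x + y) = D.ho x + D.ho y :=
  D.Dec_ho.map_add x y

theorem Dec_ho_sub (x y : Fin (ρ + 1) → ℝ) : D.ho (x - y) = D.ho x - D.ho y :=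
  D.Dec_ho.map_sub x y

theorem Dec_ho_smul (r : ℝ) (x : Fin (ρ + 1) → ℝ) : D.ho (r • x) = r • D.ho x :=
  D.Dec_ho.map_smul r x

theorem Dec_ho_zero : D.ho 0 = 0 := D.Dec_ho.map_zero

variable (σ : ℝ) (k : ℕ) (a b τ ξ : ℝ)

theorem Dec_RR_sq (x : Fin (ρ + 1) → ℝ) :
    D.RR σ k b τ ξ x ^ 2 = ‖D.A σ k (tl ρ x)‖ ^ 2 + (b * D.ell τ ξ x) ^ 2 :=
  Real.sq_sqrt (by positivity)

theorem Dec_RR_nonneg (x : Fin (ρ + 1) → ℝ) : 0 ≤ D.RR σ k b τ ξ x := Real.sqrt_nonneg _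

theorem Dec_norm_sq (x : Fin (ρ + 1) → ℝ) :
    ‖D.LL σ k a b τ ξ x‖ ^ 2 = D.RR σ k b τ ξ x ^ 2 + a ^ 2 * ‖zm σ k (D.ho x)‖ ^ 2 := by
  rw [norm_LL_sq, Dec_RR_sq]
  ring

theorem Dec_RR_eq (x : Fin (ρ + 1) → ℝ) : D.RR σ k b τ ξ x = ‖D.LL σ k 0 b τ ξ x‖ := by
  rw [← sq_eq_sq₀ (D.Dec_RR_nonneg σ k b τ ξ x) (norm_nonneg _), Dec_norm_sq]
  ring

theorem Dec_RR_zero : D.RR σ k b τ ξ 0 = 0 := by simp [Dec_RR_eq]

theorem Dec_RR_smul (r : ℝ) (x : Fin (ρ + 1) → ℝ) :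
    D.RR σ k b τ ξ (r • x) = |r| * D.RR σ k b τ ξ x := by
  simp [Dec_RR_eq, norm_smul]

theorem Dec_RR_add (x y : Fin (ρ + 1) → ℝ) :
    D.RR σ k b τ ξ (x + y) ≤ D.RR σ k b τ ξ x + D.RR σ k b τ ξ y := by
  simp only [Dec_RR_eq, map_add]
  exact norm_add_le _ _

theorem Dec_inner (x y : Fin (ρ + 1) → ℝ) :
    inner ℝ (D.LL σ k a b τ ξ x) (D.LL σ k a b τ ξ y) =
      inner ℝ (D.LL σ k 0 b τ ξ x) (D.LL σ k 0 b τ ξ y) +
        a ^ 2 * dot (zm σ k (D.ho x)) (zm σ k (D.ho y)) := by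
  rw [inner_LL, inner_LL]
  ring

theorem Dec_LL_ker {x : Fin (ρ + 1) → ℝ} (hx : D.ho x = 0) :
    D.LL σ k a b τ ξ x = D.LL σ k 0 b 0 0 x := by
  simp [LL, ell, hx, dot]

theorem Dec_vol_ker {m : ℕ} {v : Fin m → Fin (ρ + 1) → ℝ} (hv : ∀ i, D.ho (v i) = 0) (κ : ℝ) :
    κ * vol (fun i => D.LL σ k a b τ ξ (v i)) =
      D.om (fun i => tl ρ (v i)) (fun i => b * -v i 0) κ σ k := by
  unfold om vol gramD
  congr 3
  ext i j
  rw [Matrix.gram_apply, inner_LL, Matrix.of_apply]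
  simp [ell, hv, dot]

theorem Dec_om_nonneg {m : ℕ} (w : Fin m → Fin ρ → ℝ) (c : Fin m → ℝ) {κ : ℝ} (hκ : 0 < κ) :
    0 ≤ D.om w c κ σ k := mul_nonneg hκ.le (Real.sqrt_nonneg _)

/-- a functional vanishing on the kernel of the holonomy factors through the holonomy -/
theorem Dec_factor {W : Lat ρ} (hW : D.Surj W) (g : ℂ ≃L[ℝ] ℂ) (φ : (Fin (ρ + 1) → ℝ) →ₗ[ℝ] ℝ)
    (hφ : ∀ x ∈ spanR W, D.ho x = 0 → φ x = 0) :
    ∃ cc : ℂ, ∀ x ∈ spanR W, φ x = dot cc (g (D.ho x)) := by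
  obtain ⟨x₁, m₁, e₁⟩ := hW (g.symm 1)
  obtain ⟨x₂, m₂, e₂⟩ := hW (g.symm Complex.I)
  refine ⟨⟨φ x₁, φ x₂⟩, fun x hx => ?_⟩
  have h := hφ (x - ((g (D.ho x)).re • x₁ + (g (D.ho x)).im • x₂))
    (Submodule.sub_mem _ hx (Submodule.add_mem _ (Submodule.smul_mem _ _ m₁)
      (Submodule.smul_mem _ _ m₂))) (by
      rw [Dec_ho_sub, Dec_ho_add, Dec_ho_smul, Dec_ho_smul, e₁, e₂, ← map_smul, ← map_smul,
        ← map_add, sub_eq_zero, ContinuousLinearEquiv.eq_symm_apply]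
      apply Complex.ext <;> simp)
  simp only [map_sub, map_add, map_smul, smul_eq_mul] at h
  simp only [dot]
  linarith

end ResData

end Pool.Agent.MP_d0b2d2_an.Gen
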