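import Pool.Agent.MP_d0b2d2_an.Gen.FanAux

open MeasureTheory Set Filter Topology Metric

namespace Pool.Agent.MP_d0b2d2_an.Gen.TS

variable {X : Type} [TopologicalSpace X] [T2Space X] [CompactSpace X] [MeasurableSpace X]
  {μ : Measure X} {S : TS X μ} {x x' : X} {w u h h' : ℂ}

/-- sweeping a fan with singular apex `w` while the base point moves towards the hit `u` -/
theorem fan (hw : S.Hit x w) (hu : S.Hit x u) (hne : wedge u w ≠ 0) : ∃ s τ : ℝ, 0 < s ∧ s ≤ 1 ∧
    0 ≤ τ ∧ τ < 1 ∧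
    (∀ s' t : ℝ, 0 ≤ s' → s' < s → 0 ≤ t → t < 1 → S.Ok x (s' • u + t • (w - s' • u))) ∧
    (∀ t : ℝ, τ < t → t < 1 → S.Ok x (s • u + t • (w - s • u))) ∧
    S.Hit x (s • u + τ • (w - s • u)) ∧
    S.IsSC (S.mv x (s • u + ((1 + τ) / 2) • (w - s • u))) (((1 - τ) / 2) • (w - s • u)) := by
  let A : Set ℝ := {s | 0 ≤ s ∧ s ≤ 1 ∧
    ∀ s', 0 ≤ s' → s' < s → S.Hit (S.mv x (s' • u)) (w - s' • u)}
  have A0 : (0 : ℝ) ∈ A := ⟨le_rfl, zero_le_one, fun s' a b => absurd b (not_lt.2 a)⟩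
  have bA : BddAbove A := ⟨1, fun s hs => hs.2.1⟩
  set s := sSup A with hs
  have s0' : 0 ≤ s := le_csSup bA A0
  have s1 : s ≤ 1 := csSup_le ⟨0, A0⟩ fun s hs => hs.2.1
  have good : ∀ s', 0 ≤ s' → s' < s → S.Hit (S.mv x (s' • u)) (w - s' • u) := fun s' a b => by
    obtain ⟨s'', c, d⟩ := exists_lt_of_lt_csSup ⟨0, A0⟩ b
    exact c.2.2 s' a d
  have ext : s < 1 → ¬ S.Hit (S.mv x (s • u)) (w - s • u) := fun l H => by
    obtain ⟨σ, -, H⟩ := H.hitAt
    obtain ⟨r, hr, K⟩ := H.nhds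
    obtain ⟨ε, hε, sm⟩ := api1_small u hr
    obtain ⟨s₂, a, b⟩ := exists_between (show s < min 1 (s + ε) from lt_min l (by linarith))
    rw [lt_min_iff] at b
    have : s₂ ∈ A := ⟨by linarith, b.1.le, fun s' c d => by
      rcases lt_or_ge s' s with e | e
      · exact good s' c e
      · have := (K _ (sm (s' - s) (abs_lt.2 ⟨by linarith, by linarith [b.2]⟩))).2.1
        rwa [(line_ok (hu.2 _ s0' l) (hu.2 _ c (by linarith [b.1]))).2,
          show w - s • u - (s' - s) • u = w - s' • u by module] at this⟩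
    exact absurd (le_csSup bA this) (not_le.2 a)
  have s0 : 0 < s := by
    refine s0'.lt_of_ne fun e => ext (by linarith) ?_
    rw [← e]
    simpa [S.mv_zero] using hw
  have R : ∀ a b : ℝ, 0 ≤ a → 0 ≤ b → a < s * (1 - b) → S.Ok x (a • u + b • w) :=
    fun a b ha hb hab => fan_region hu hne s0 s1 good ha hb hab
  let F : ℝ → ℂ := fun t => s • u + t • (w - s • u)
  have eF : ∀ t, F t = ((1 - t) * s) • u + t • w := fun t => by
    simp only [F]
    module
  have wF : ∀ t, wedge (F t) w = (1 - t) * s * wedge u w := fun t => by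
    rw [eF, wedge_add_left, wedge_smul_left, wedge_smul_left, wedge_self]
    ring
  have wF' : ∀ t, wedge u (F t) = t * wedge u w := fun t => by
    rw [eF, wedge_add_right, wedge_smul_right, wedge_smul_right, wedge_self]
    ring
  have F1 : F 1 = w := by simp [F]
  have iF : ∀ t t', F t = F t' → t = t' := fun t t' e => by
    have := wF' t
    rw [e, wF'] at this
    exact (mul_right_cancel₀ hne this).symm
  have nF : ∀ t, F t ≠ 0 := fun t e => by
    have h1 := wF t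
    have h2 := wF' t
    rw [e, wedge_zero_left] at h1
    rw [e, wedge_zero_right] at h2
    have h3 : t = 0 := (mul_eq_zero.1 h2.symm).resolve_right hne
    rw [h3] at h1
    exact mul_ne_zero (by positivity) hne h1.symm
  -- triangles with far side on the far side of the fan
  have tri : ∀ t₁ t₂ : ℝ, 0 ≤ t₁ → t₁ ≤ 1 → 0 ≤ t₂ → t₂ ≤ 1 →
      (∀ a : ℝ, 0 < a → a ≤ 1 → S.Ok x (F (a * t₁ + (1 - a) * t₂))) →
      ∀ p ∈ convexHull ℝ {0, F t₁, F t₂}, p ≠ F t₂ → S.Ok x p := by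
    intro t₁ t₂ a0 a1 b0 b1 H p hp hp'
    obtain ⟨a, b, c0, d0, cd, rfl⟩ := fan_tri hp
    rcases cd.lt_or_eq with l | l
    · have := R (a * ((1 - t₁) * s) + b * ((1 - t₂) * s)) (a * t₁ + b * t₂)
        (by have : 0 ≤ 1 - t₁ := by linarith
            have : 0 ≤ 1 - t₂ := by linarith
            positivity) (by positivity) (by nlinarith)
      rwa [show (a * ((1 - t₁) * s) + b * ((1 - t₂) * s)) • u + (a * t₁ + b * t₂) • w =
        a • F t₁ + b • F t₂ by rw [eF, eF]; module] at this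
    · have e : b = 1 - a := by linarith
      have := H a (c0.lt_of_ne fun z => hp' (by rw [e, ← z]; simp)) (by linarith)
      rwa [show F (a * t₁ + (1 - a) * t₂) = a • F t₁ + b • F t₂ by
        rw [eF, eF, eF, e]; module] at this
  -- the far side is regular near the apex
  obtain ⟨t₂, t20, t21, near⟩ : ∃ t₂ : ℝ, 0 ≤ t₂ ∧ t₂ < 1 ∧ ∀ t, t₂ < t → t < 1 → S.Ok x (F t) := by
    obtain ⟨ε, hε, su⟩ := short_unique S
    obtain ⟨ε₁, h1, k1⟩ := api1_small w (half_pos hε)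
    obtain ⟨ε₂, h2, k2⟩ := api1_small (w - s • u) (half_pos hε)
    obtain ⟨t₁, a, b⟩ := exists_between (show max 0 (1 - ε₁) < 1 from max_lt one_pos (by linarith))
    rw [max_lt_iff] at a
    refine ⟨max 0 (1 - ε₂), le_max_left _ _, max_lt one_pos (by linarith), fun t c d => ?_⟩
    rw [max_lt_iff] at c
    have n1 := k1 (1 - t₁) (abs_lt.2 ⟨by linarith, by linarith [a.2]⟩)
    have n2 := k2 (1 - t) (abs_lt.2 ⟨by linarith, by linarith [c.2]⟩)
    have n3 : ‖F t - t₁ • w‖ < ε := by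
      rw [show F t - t₁ • w = (1 - t₁) • w - (1 - t) • (w - s • u) by simp only [F]; module]
      linarith [norm_sub_le ((1 - t₁) • w) ((1 - t) • (w - s • u))]
    have hb := hw.tail a.1.le b
    have wne : wedge (F t) w ≠ 0 := by
      rw [wF]
      exact mul_ne_zero (mul_pos (by linarith) s0).ne' hne
    have ok : S.Ok (S.mv x (t₁ • w)) (F t - t₁ • w) := by
      by_contra no
      obtain ⟨θ, θ0, θ1, H⟩ := exists_hit hb.reg.1 no
      have := su _ _ _ H hb (by
        rw [norm_smul, Real.norm_of_nonneg θ0.le]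
        nlinarith [norm_nonneg (F t - t₁ • w)]) (by linarith)
      have e := congrArg (wedge · w) this
      simp only [wedge_smul_left, wedge_sub_left, wedge_self, mul_zero, sub_zero] at e
      exact mul_ne_zero θ0.ne' wne e
    refine (transfer (fun p hp hp' => ?_) (fun e => wne ?_) (nF t)).1.2 ok
    · obtain ⟨α, β, α0, β0, αβ, rfl⟩ := fan_tri hp
      have l : β + α * t₁ < 1 := by
        rcases α0.eq_or_lt with rfl | z
        · refine lt_of_le_of_ne (by linarith) fun e => hp' ?_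
          rw [show β = 1 by linarith]
          simp
        · nlinarith
      have := R (β * ((1 - t) * s)) (α * t₁ + β * t)
        (by have : 0 ≤ 1 - t := by linarith
            positivity) (by have := a.1; have := c.1; positivity) (by nlinarith)
      rwa [show (β * ((1 - t) * s)) • u + (α * t₁ + β * t) • w = α • t₁ • w + β • F t by
        rw [eF]; module] at this
    · rw [← e, wedge_smul_left, wedge_self, mul_zero]
  let N : Set ℝ := Icc 0 t₂ ∩ {t | ¬ S.Ok x (F t)}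
  have cN : IsCompact N := isCompact_Icc.inter_right
    (((isOpen_ok_right (S := S) x).preimage (show Continuous F by unfold F; fun_prop)).isClosed_compl)
  have nN : N.Nonempty := by
    by_contra c
    have all : ∀ t, 0 ≤ t → t < 1 → S.Ok x (F t) := fun t a b => by
      rcases lt_or_ge t₂ t with d | d
      · exact near t d b
      · by_contra e
        exact c ⟨t, ⟨a, d⟩, e⟩
    have F0 : F 0 = s • u := by simp [F]
    rcases s1.lt_or_eq with l | l
    · have := (transfer (tri 0 1 le_rfl zero_le_one zero_le_one le_rfl fun a a0 a1 =>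
        all _ (by linarith) (by linarith)) (fun e => zero_ne_one (iF _ _ e)) (nF 1)).2
      rw [F1, F0] at this
      exact ext l (this.1 hw)
    · have := all 0 le_rfl one_pos
      rw [F0, l, one_smul] at this
      exact hu.1 this
  obtain ⟨τ, ⟨⟨τ0, τ2⟩, hτ⟩, mx⟩ := cN.exists_isGreatest nN
  have τ1 : τ < 1 := by linarith
  have far : ∀ t, τ < t → t < 1 → S.Ok x (F t) := fun t a b => by
    rcases lt_or_ge t₂ t with d | d
    · exact near t d b
    · by_contra e
      exact absurd (mx ⟨⟨by linarith, d⟩, e⟩) (not_le.2 a)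
  have hp : S.Hit x (F τ) := ⟨hτ, fun θ θ0 θ1 => by
    have := R (θ * ((1 - τ) * s)) (θ * τ)
      (by have : 0 ≤ 1 - τ := by linarith
          positivity) (by positivity) (by nlinarith)
    rwa [show (θ * ((1 - τ) * s)) • u + (θ * τ) • w = θ • F τ by rw [eF]; module] at this⟩
  refine ⟨s, τ, s0, s1, τ0, τ1, fun s' t a b c d => ?_, far, hp, ?_, ?_⟩
  · have := R ((1 - t) * s') t (mul_nonneg (by linarith) a) c (by nlinarith)
    rwa [show ((1 - t) * s') • u + t • w = s' • u + t • (w - s' • u) by module] at this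
  · have := (transfer (tri ((1 + τ) / 2) 1 (by linarith) (by linarith) zero_le_one le_rfl
      fun a a0 a1 => far _ (by nlinarith) (by nlinarith))
      (fun e => by linarith [iF _ _ e]) (nF 1)).2
    rw [F1] at this
    have := this.1 hw
    rwa [show w - F ((1 + τ) / 2) = ((1 - τ) / 2) • (w - s • u) by simp only [F]; module] at this
  · have := (transfer (tri ((1 + τ) / 2) τ (by linarith) (by linarith) τ0 τ1.le
      fun a a0 a1 => far _ (by nlinarith) (by nlinarith))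
      (fun e => by linarith [iF _ _ e]) (nF τ)).2.1 hp
    rwa [show F τ - F ((1 + τ) / 2) = -(((1 - τ) / 2) • (w - s • u)) by
      simp only [F]; module] at this

theorem two_hits (hw : S.Hit x w) (hu : S.Hit x u) (hne : w ≠ u) :
    ∃ p ∈ convexHull ℝ {0, w, u}, p ≠ w ∧ S.Hit x p ∧ ∃ q, S.IsSC q ((1 / 2 : ℝ) • (w - p)) := by
  by_cases c : wedge u w = 0
  · obtain ⟨a, rfl⟩ := exists_smul_of_wedge c hw.reg.2
    have a0 : a < 0 := by
      rcases lt_trichotomy a 0 with l | l | l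
      · exact l
      · exact absurd (by rw [l, zero_smul]) hu.reg.2
      · have := Hit.eq_of_smul l one_pos hu (by rwa [one_smul])
        exact absurd (by rw [this, one_smul]) hne
    have hw' : S.Hit x ((1 : ℝ) • w) := by rwa [one_smul]
    have hu' : S.Hit x ((-a) • (-w)) := by rwa [neg_smul_neg]
    have o : S.Ok x (((1 + a) / 2) • w) := by
      rcases le_or_gt 0 ((1 + a) / 2) with l | l
      · exact hw.2 _ l (by linarith)
      · have := hu.2 ((1 + a) / 2 / a) (div_nonneg_of_nonpos l.le a0.le)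
          ((div_lt_one_of_neg a0).2 (by linarith))
        rwa [smul_smul, div_mul_cancel₀ _ a0.ne] at this
    refine ⟨a • w, subset_convexHull ℝ _ (by simp), hne.symm, hu,
      S.mv x (((1 + a) / 2) • w), ?_, ?_⟩
    · have := fan_line one_pos (by linarith) hw' o
      rwa [show (1 - (1 + a) / 2) • w = (1 / 2 : ℝ) • (w - a • w) by module] at this
    · have := fan_line (γ := -((1 + a) / 2)) (by linarith) (by linarith) hu' (by rwa [neg_smul_neg])
      rwa [neg_smul_neg,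
        show (-a - -((1 + a) / 2)) • (-w) = -((1 / 2 : ℝ) • (w - a • w)) by module] at this
  · obtain ⟨s, τ, s0, s1, τ0, τ1, -, -, H, K⟩ := fan hw hu c
    refine ⟨_, ?_, fun e => ?_, H, S.mv x (s • u + ((1 + τ) / 2) • (w - s • u)), ?_⟩
    · have := api2_mem_tri (y := w) (w := u) (a := τ) (b := (1 - τ) * s) τ0
        (mul_nonneg (by linarith) s0.le) (by nlinarith)
      rwa [show τ • w + ((1 - τ) * s) • u = s • u + τ • (w - s • u) by module] at this
    · have := congrArg (wedge u) e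
      simp only [wedge_add_right, wedge_smul_right, wedge_sub_right, wedge_self] at this
      exact c (mul_left_cancel₀ (show 1 - τ ≠ 0 by linarith) (by linarith))
    · rwa [show (1 / 2 : ℝ) • (w - (s • u + τ • (w - s • u))) = ((1 - τ) / 2) • (w - s • u) by
        module]

omit [T2Space X] [CompactSpace X] in
theorem IsSC.neg (H : S.IsSC x h) : S.IsSC x (-h) := ⟨H.2, by rw [neg_neg]; exact H.1⟩

omit [T2Space X] [CompactSpace X] in
theorem seg_neg (S : TS X μ) (x : X) (h : ℂ) : S.seg x (-h) = S.seg x h := by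
  ext q
  constructor
  · rintro ⟨s, hs, rfl⟩
    exact ⟨-s, by rwa [abs_neg], by rw [neg_smul, smul_neg]⟩
  · rintro ⟨s, hs, rfl⟩
    exact ⟨-s, by rwa [abs_neg], by rw [neg_smul_neg]⟩

omit [T2Space X] [CompactSpace X] in
theorem self_mem_seg (S : TS X μ) (x : X) (h : ℂ) : x ∈ S.seg x h :=
  ⟨0, by simp, by rw [zero_smul, S.mv_zero]⟩

omit [T2Space X] [CompactSpace X] in
theorem IsSC.ok (H : S.IsSC x h) {s : ℝ} (hs : |s| < 1) : S.Ok x (s • h) := by
  rw [abs_lt] at hs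
  rcases le_total 0 s with c | c
  · exact H.1.2 s c hs.2
  · have := H.2.2 (-s) (by linarith) (by linarith [hs.1])
    rwa [neg_smul_neg] at this

omit [T2Space X] [CompactSpace X] in
theorem IsSC.move (H : S.IsSC x h) {s t : ℝ} (hs : |s| < 1) (ht : |t| < 1) :
    S.Ok (S.mv x (s • h)) ((t - s) • h) ∧ S.mv (S.mv x (s • h)) ((t - s) • h) = S.mv x (t • h) :=
  line_ok (H.ok hs) (H.ok ht)

omit [T2Space X] [CompactSpace X] in
theorem IsSC.hit_end (H : S.IsSC x h) {s : ℝ} (hs : |s| < 1) :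
    S.Hit (S.mv x (s • h)) ((1 - s) • h) ∧ S.Hit (S.mv x (s • h)) ((-1 - s) • h) := by
  have o := H.ok hs
  rw [abs_lt] at hs
  refine ⟨fan_line one_pos hs.2 (by rw [one_smul]; exact H.1) o, ?_⟩
  have := fan_line (w := -h) (γ := -s) one_pos (by linarith [hs.1]) (by rw [one_smul]; exact H.2)
    (by rwa [neg_smul_neg])
  rwa [neg_smul_neg, show (1 - -s) • (-h) = (-1 - s) • h by module] at this

omit [T2Space X] [CompactSpace X] in
theorem IsSC.inj (H : S.IsSC x h) {s t : ℝ} (hs : |s| < 1) (ht : |t| < 1)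
    (e : S.mv x (s • h) = S.mv x (t • h)) : s = t := by
  have a := (H.hit_end hs).1
  rw [e] at a
  have := Hit.eq_of_smul (by linarith [(abs_lt.1 hs).2]) (by linarith [(abs_lt.1 ht).2]) a
    (H.hit_end ht).1
  linarith

omit [T2Space X] [CompactSpace X] in
/-- a regular segment parallel to a saddle connection and meeting it stays on it -/
theorem IsSC.mv_mem (H : S.IsSC x h) {q : X} (hq : q ∈ S.seg x h) {y : ℂ} (hy : S.Ok q y)
    (hp : wedge y h = 0) : S.mv q y ∈ S.seg x h := by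
  obtain ⟨s, hs, rfl⟩ := hq
  obtain ⟨a, rfl⟩ := exists_smul_of_wedge hp H.1.reg.2
  obtain ⟨h1, h2⟩ := H.hit_end hs
  obtain ⟨s1, s2⟩ := abs_lt.1 hs
  have l1 : a < 1 - s := by
    by_contra c
    have c := not_lt.1 c
    have a0 : 0 < a := by linarith
    have := ok_smul hy (t := (1 - s) / a) (div_nonneg (by linarith) a0.le) ((div_le_one a0).2 c)
    rw [smul_smul, div_mul_cancel₀ _ a0.ne'] at this
    exact h1.1 this
  have l2 : -1 - s < a := by
    by_contra c
    have c := not_lt.1 c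
    have a0 : a < 0 := by linarith
    have := ok_smul hy (t := (-1 - s) / a) (div_nonneg_of_nonpos (by linarith) a0.le)
      ((div_le_one_of_neg a0).2 c)
    rw [smul_smul, div_mul_cancel₀ _ a0.ne] at this
    exact h2.1 this
  have ht : |s + a| < 1 := abs_lt.2 ⟨by linarith, by linarith⟩
  have := (H.move hs ht).2
  rw [add_sub_cancel_left] at this
  exact ⟨s + a, ht, this⟩

omit [T2Space X] [CompactSpace X] in
theorem fan_par (H : S.IsSC x h) {a : ℝ} (ha : 0 < a) (H' : S.IsSC x' (a • h))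
    (hd : ¬ Disjoint (S.seg x h) (S.seg x' (a • h))) : x' = x ∧ a = 1 := by
  obtain ⟨q, ⟨s, hs, rfl⟩, s', hs', e⟩ := not_disjoint_iff.1 hd
  obtain ⟨h1, h2⟩ := H.hit_end hs
  obtain ⟨k1, k2⟩ := H'.hit_end hs'
  obtain ⟨s1, s2⟩ := abs_lt.1 hs
  obtain ⟨s1', s2'⟩ := abs_lt.1 hs'
  rw [← e, smul_smul] at k1 k2
  have e1 := Hit.eq_of_smul (by linarith) (mul_pos (by linarith) ha) h1 k1
  rw [← neg_smul_neg (-1 - s)] at h2
  rw [← neg_smul_neg ((-1 - s') * a)] at k2
  have e2 := Hit.eq_of_smul (by linarith) (by nlinarith) h2 k2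
  have a1 : a = 1 := by linarith
  subst a1
  have ss : s' = s := by linarith
  subst ss
  rw [one_smul] at H' e
  have m := (H.move hs (t := 0) (by simp)).2
  have m' := (H'.move hs (t := 0) (by simp)).2
  rw [zero_smul, S.mv_zero] at m m'
  exact ⟨by rw [← m', ← e, m], rfl⟩

omit [T2Space X] [CompactSpace X] in
theorem IsSC.eq_of_parallel (H : S.IsSC x h) (H' : S.IsSC x' h')
    (hd : ¬ Disjoint (S.seg x h) (S.seg x' h')) (hp : wedge h h' = 0) :
    x' = x ∧ (h' = h ∨ h' = -h) := by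
  obtain ⟨a, rfl⟩ := exists_smul_of_wedge (y := h') (y' := h) (by rw [wedge_comm, hp, neg_zero])
    H.1.reg.2
  rcases lt_trichotomy a 0 with l | l | l
  · have := fan_par (a := -a) H (by linarith) (by rw [neg_smul]; exact H'.neg)
      (by rwa [neg_smul, seg_neg])
    exact ⟨this.1, Or.inr (by rw [show a = -1 by linarith [this.2], neg_one_smul])⟩
  · exact absurd (by rw [l, zero_smul]) H'.1.reg.2
  · have := fan_par H l H' hd
    exact ⟨this.1, Or.inl (by rw [this.2, one_smul])⟩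

omit [T2Space X] [CompactSpace X] in
theorem fan_cpt (H : S.IsSC x h) {K : Set ℝ} (hK : IsCompact K) (h1 : ∀ t ∈ K, |t| < 1) :
    IsCompact ((fun t : ℝ => S.mv x (t • h)) '' K) :=
  hK.image_of_continuousOn fun t ht =>
    (ContinuousAt.comp (f := fun t : ℝ => t • h) (continuousAt_mv_right (H.ok (h1 t ht)))
      (by fun_prop)).continuousWithinAt

omit [T2Space X] [CompactSpace X] in
/-- points of a saddle connection without a short hit lie in its middle part -/
theorem fan_mid (H : S.IsSC x h) {ε : ℝ} (hε : 0 < ε) : ∃ η : ℝ, η < 1 ∧ ∀ t : ℝ, |t| < 1 →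
    t ∈ Icc (-η) η ∨ ∃ a : ℝ, ‖a • h‖ < ε ∧ S.Hit (S.mv x (t • h)) (a • h) := by
  obtain ⟨δ, hδ, sm⟩ := api1_small h hε
  refine ⟨1 - δ, by linarith, fun t ht => ?_⟩
  obtain ⟨h1, h2⟩ := H.hit_end ht
  obtain ⟨t1, t2⟩ := abs_lt.1 ht
  rcases lt_or_ge (1 - δ) t with c | c
  · exact Or.inr ⟨_, sm _ (abs_lt.2 ⟨by linarith, by linarith⟩), h1⟩
  rcases lt_or_ge t (-(1 - δ)) with d | d
  · exact Or.inr ⟨_, sm _ (abs_lt.2 ⟨by linarith, by linarith⟩), h2⟩
  · exact Or.inl ⟨d, c⟩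

omit [CompactSpace X] in
theorem fan_local (H : S.IsSC x h) {q : X} (hq : q ∉ S.Sg) : ∃ r > 0, ∀ y : ℂ, ‖y‖ < r →
    S.mv q y ∈ S.seg x h → q ∈ S.seg x h ∧ wedge y h = 0 := by
  obtain ⟨r, hr, -, mv, inj, -, -⟩ := api1_loc hq
  obtain ⟨η, η1, mid⟩ := fan_mid H (half_pos hr)
  obtain ⟨δ, hδ, sm⟩ := api1_small h hr
  let K : Set ℝ := Icc (-η) η ∩ ⋂ s ∈ {s : ℝ | |s| < 1 ∧ q = S.mv x (s • h)}, {t | δ ≤ |t - s|}
  have k1 : ∀ t ∈ Icc (-η) η, |t| < 1 := fun t ht =>
    abs_lt.2 ⟨by linarith [ht.1], by linarith [ht.2]⟩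
  have cK : IsCompact K := isCompact_Icc.inter_right
    (isClosed_biInter fun s _ => isClosed_le continuous_const (by fun_prop))
  have cl := (fan_cpt H cK fun t ht => k1 t ht.1).isClosed
  have nq : q ∉ (fun t : ℝ => S.mv x (t • h)) '' K := by
    rintro ⟨t, ht, e⟩
    have := mem_iInter₂.1 ht.2 t ⟨k1 t ht.1, e.symm⟩
    simp only [mem_ofPred_eq, sub_self, abs_zero] at this
    linarith
  have ca := continuousAt_mv_right (ok_zero.2 hq)
  have ev : ∀ᶠ y in 𝓝 (0 : ℂ), S.mv q y ∉ (fun t : ℝ => S.mv x (t • h)) '' K :=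
    ca.eventually (cl.isOpen_compl.mem_nhds (by rwa [S.mv_zero]))
  obtain ⟨ρ, hρ, ev⟩ := Metric.eventually_nhds_iff.1 ev
  refine ⟨min ρ (r / 2), lt_min hρ (half_pos hr), fun y hy ⟨t, ht, e⟩ => ?_⟩
  rw [lt_min_iff] at hy
  rcases mid t ht with c | ⟨a, c, d⟩
  · have : t ∉ K := fun z => ev (by simpa using hy.1) ⟨t, z, e.symm⟩
    have : ∃ s : ℝ, (|s| < 1 ∧ q = S.mv x (s • h)) ∧ |t - s| < δ := by
      by_contra z
      exact this ⟨c, mem_iInter₂.2 fun s hs => not_lt.1 fun l => z ⟨s, hs, l⟩⟩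
    obtain ⟨s, ⟨hs, e'⟩, l⟩ := this
    have m := (H.move hs ht).2
    rw [← e', ← e] at m
    have := inj (by simpa using sm _ l) (by simpa using (by linarith [hy.2] : ‖y‖ < r)) m
    exact ⟨⟨s, hs, e'⟩, by rw [← this, wedge_smul_left, wedge_self, mul_zero]⟩
  · have := (mv y (y + a • h) (by linarith [hy.2]) (by linarith [hy.2, norm_add_le y (a • h)])).1
    rw [add_sub_cancel_left, e] at this
    exact absurd this d.1

theorem seg_local {Γ : Finset (X × ℂ)} (hΓ : ∀ c ∈ Γ, S.IsSC c.1 c.2) {q : X} (hq : q ∉ S.Sg) :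
    ∃ r > 0, ∀ y : ℂ, ‖y‖ < r → ∀ c ∈ Γ, S.mv q y ∈ S.seg c.1 c.2 →
      q ∈ S.seg c.1 c.2 ∧ wedge y c.2 = 0 := by
  obtain ⟨r, hr, H⟩ := api2_unif Γ (P := fun c r => ∀ y : ℂ, ‖y‖ < r → S.mv q y ∈ S.seg c.1 c.2 →
    q ∈ S.seg c.1 c.2 ∧ wedge y c.2 = 0) (fun c hc => fan_local (hΓ c hc) hq)
    fun c r r' l H y hy => H y (hy.trans_le l)
  exact ⟨r, hr, fun y hy c hc => H c hc y hy⟩

theorem seg_cone {Γ : Finset (X × ℂ)} (hΓ : ∀ c ∈ Γ, S.IsSC c.1 c.2) : ∃ ε > 0, ∀ c ∈ Γ,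
    ∀ q ∈ S.seg c.1 c.2, ∀ y : ℂ, ‖y‖ < ε → S.Hit q y → wedge y c.2 = 0 := by
  refine api2_unif Γ (P := fun c ε => ∀ q ∈ S.seg c.1 c.2, ∀ y : ℂ, ‖y‖ < ε → S.Hit q y →
    wedge y c.2 = 0) (fun c hc => ?_) fun c r r' l H q hq y hy => H q hq y (hy.trans_le l)
  have H := hΓ c hc
  obtain ⟨ε, hε, su⟩ := short_unique S
  obtain ⟨η, η1, mid⟩ := fan_mid H hε
  have k1 : ∀ t ∈ Icc (-η) η, |t| < 1 := fun t ht =>
    abs_lt.2 ⟨by linarith [ht.1], by linarith [ht.2]⟩
  obtain ⟨ε₁, h1, uo⟩ := unif_ok (S := S) (fan_cpt H isCompact_Icc k1) (by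
    rintro _ ⟨t, ht, rfl⟩
    exact (S.reg _ _ (H.ok (k1 t ht))).2)
  refine ⟨min ε ε₁, lt_min hε h1, ?_⟩
  rintro _ ⟨t, ht, rfl⟩ y hy K
  rw [lt_min_iff] at hy
  rcases mid t ht with d | ⟨a, d, e⟩
  · exact absurd (uo _ ⟨t, d, rfl⟩ y hy.2) K.1
  · rw [su _ _ _ K e hy.1 d, wedge_smul_left, wedge_self, mul_zero]

/-- the first meeting point of a segment with the family `Γ` -/
theorem first_meet {Γ : Finset (X × ℂ)} (hΓ : ∀ c ∈ Γ, S.IsSC c.1 c.2) {t₀ : ℝ} (h0 : 0 < t₀)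
    (hok : S.Ok x (t₀ • w)) (hm : S.mv x (t₀ • w) ∈ S.supp Γ)
    (hp : ∀ c ∈ Γ, x ∈ S.seg c.1 c.2 → wedge w c.2 ≠ 0) : ∃ t : ℝ, 0 < t ∧ t ≤ t₀ ∧
    (∃ c ∈ Γ, S.mv x (t • w) ∈ S.seg c.1 c.2 ∧ wedge w c.2 ≠ 0) ∧
    ∀ t' : ℝ, 0 < t' → t' < t → S.mv x (t' • w) ∉ S.supp Γ := by
  let A : Set ℝ := {t | 0 < t ∧ t ≤ t₀ ∧ S.mv x (t • w) ∈ S.supp Γ}
  have A0 : t₀ ∈ A := ⟨h0, le_rfl, hm⟩
  have bA : BddBelow A := ⟨0, fun t ht => ht.1.le⟩
  set t := sInf A with ht
  have t0 : 0 ≤ t := le_csInf ⟨_, A0⟩ fun t ht => ht.1.le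
  have t1 : t ≤ t₀ := csInf_le bA A0
  have ok : ∀ s : ℝ, 0 ≤ s → s ≤ t₀ → S.Ok x (s • w) := fun s a b => by
    have := ok_smul hok (t := s / t₀) (by positivity) ((div_le_one h0).2 b)
    rwa [smul_smul, div_mul_cancel₀ _ h0.ne'] at this
  obtain ⟨r, hr, loc⟩ := seg_local hΓ (S.reg _ _ (ok t t0 t1)).2
  obtain ⟨δ, hδ, sm⟩ := api1_small w hr
  obtain ⟨t', h', l⟩ := exists_lt_of_csInf_lt ⟨_, A0⟩ (show t < t + δ by linarith)
  have l' : t ≤ t' := csInf_le bA h'
  obtain ⟨c, hc, mem⟩ := mem_iUnion₂.1 h'.2.2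
  obtain ⟨k1, k2⟩ := loc ((t' - t) • w) (sm _ (abs_lt.2 ⟨by linarith, by linarith⟩)) c hc
    (by rwa [(line_ok (ok t t0 t1) (ok t' h'.1.le h'.2.1)).2])
  have ne : wedge w c.2 ≠ 0 := fun z => by
    obtain ⟨m1, m2⟩ := line_ok (ok t t0 t1) (ok 0 le_rfl h0.le)
    have := (hΓ c hc).mv_mem k1 m1 (by rw [wedge_smul_left, z, mul_zero])
    rw [m2, zero_smul, S.mv_zero] at this
    exact hp c hc this z
  rw [wedge_smul_left] at k2
  have e : t' = t := by linarith [(mul_eq_zero.1 k2).resolve_right ne]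
  refine ⟨t, e ▸ h'.1, t1, ⟨c, hc, k1, ne⟩, fun s a b m => ?_⟩
  exact absurd (csInf_le bA ⟨a, by linarith, m⟩) (not_le.2 b)

/-- a saddle connection through an interior point of a regular open triangle (or any bounded
convex open set) leaves it on both sides, through boundary points lying on it when regular -/
theorem exit_points {T D : Set ℂ} (hT : Convex ℝ T) (hT' : IsOpen T) (hb : Bornology.IsBounded T)
    (hD : Convex ℝ D) (h0 : 0 ∈ D) (hTD : T ⊆ D) (hok : ∀ y ∈ D, S.Ok x y) (H : S.IsSC x' h)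
    {y : ℂ} (hy : y ∈ T) (hm : S.mv x y ∈ S.seg x' h) : ∃ a : ℝ, 0 < a ∧ y + a • h ∈ frontier T ∧
    (∀ b : ℝ, 0 ≤ b → b < a → y + b • h ∈ T ∧ S.mv x (y + b • h) ∈ S.seg x' h) ∧
    (y + a • h ∈ D → S.mv x (y + a • h) ∈ S.seg x' h) := by
  have on : ∀ b : ℝ, y + b • h ∈ D → S.mv x (y + b • h) ∈ S.seg x' h := fun b hb => by
    obtain ⟨m1, m2⟩ := convex_ok hD h0 hok y (hTD hy) _ hb
    rw [← m2]
    exact H.mv_mem hm m1 (by rw [add_sub_cancel_left, wedge_smul_left, wedge_self, mul_zero])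
  have cf : Continuous fun b : ℝ => y + b • h := by fun_prop
  let B : Set ℝ := (fun b : ℝ => y + b • h) ⁻¹' T
  have oB : IsOpen B := hT'.preimage cf
  have B0 : (0 : ℝ) ∈ B := by simpa [B] using hy
  have hpos : 0 < ‖h‖ := norm_pos_iff.2 H.1.reg.2
  have bB : BddAbove B := by
    obtain ⟨C, hC⟩ := hb.exists_norm_le
    refine ⟨2 * C / ‖h‖, fun b hb => (le_div_iff₀ hpos).2 ?_⟩
    have h1 := hC _ hb
    have h2 := hC _ hy
    have h3 := norm_sub_le (y + b • h) y
    rw [add_sub_cancel_left, norm_smul, Real.norm_eq_abs] at h3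
    nlinarith [le_abs_self b]
  have nB : sSup B ∉ B := fun z => by
    obtain ⟨ε, hε, k⟩ := Metric.isOpen_iff.1 oB _ z
    have := le_csSup bB (k (show sSup B + ε / 2 ∈ ball (sSup B) ε by
      rw [mem_ball, Real.dist_eq, add_sub_cancel_left, abs_of_pos (half_pos hε)]
      exact half_lt_self hε))
    linarith
  have a0 : 0 < sSup B := (le_csSup bB B0).lt_of_ne fun e => nB (e ▸ B0)
  refine ⟨sSup B, a0, ?_, fun b b0 b1 => ?_, on _⟩
  · rw [hT'.frontier_eq]
    exact ⟨cf.closure_preimage_subset T (csSup_mem_closure ⟨0, B0⟩ bB), nB⟩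
  · obtain ⟨b', h1, h2⟩ := exists_lt_of_lt_csSup ⟨0, B0⟩ b1
    have p : 0 < b' := by linarith
    have := hT.add_smul_mem hy h1 (t := b / b') ⟨by positivity, (div_le_one p).2 h2.le⟩
    rw [smul_smul, div_mul_cancel₀ _ p.ne'] at this
    exact ⟨this, on _ (hTD this)⟩

end Pool.Agent.MP_d0b2d2_an.Gen.TS
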