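import Pool.Agent.MP_d0b2d2_an.Gen.Api2

open MeasureTheory Set Filter Topology Metric

namespace Pool.Agent.MP_d0b2d2_an.Gen.TS

theorem fan_tri {y e p : ℂ} (hp : p ∈ convexHull ℝ ({0, y, e} : Set ℂ)) :
    ∃ a b : ℝ, 0 ≤ a ∧ 0 ≤ b ∧ a + b ≤ 1 ∧ p = a • y + b • e := by
  have cv : Convex ℝ {p : ℂ | ∃ a b : ℝ, 0 ≤ a ∧ 0 ≤ b ∧ a + b ≤ 1 ∧ p = a • y + b • e} := by
    rintro _ ⟨a, b, a0, b0, ab, rfl⟩ _ ⟨a', b', a0', b0', ab', rfl⟩ s t s0 t0 st
    exact ⟨s * a + t * a', s * b + t * b', by positivity, by positivity, by nlinarith, by module⟩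
  refine convexHull_min ?_ cv hp
  rintro q (rfl | rfl | rfl)
  · exact ⟨0, 0, le_rfl, le_rfl, by simp, by simp⟩
  · exact ⟨1, 0, zero_le_one, le_rfl, by simp, by simp⟩
  · exact ⟨0, 1, le_rfl, zero_le_one, by simp, by simp⟩

variable {X : Type} [TopologicalSpace X] [T2Space X] [CompactSpace X] [MeasurableSpace X]
  {μ : Measure X} {S : TS X μ} {x x' : X} {w u h h' : ℂ}

omit [T2Space X] [CompactSpace X] in
/-- a hit seen from another point of the same line -/
theorem fan_line {β γ : ℝ} (hβ : 0 < β) (hγ : γ < β) (H : S.Hit x (β • w))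
    (ho : S.Ok x (γ • w)) : S.Hit (S.mv x (γ • w)) ((β - γ) • w) := by
  have o0 : S.Ok x ((0 : ℝ) • w) := by
    rw [zero_smul]
    exact ok_zero.2 H.reg.1
  refine ⟨fun a => H.1 ?_, fun t t0 t1 => ?_⟩
  · obtain ⟨b, c⟩ := line_ok ho o0
    have d := (line_ok b a).1
    rw [c, zero_smul, S.mv_zero] at d
    rwa [show β - γ - (0 - γ) = β by ring] at d
  · have e : S.Ok x ((γ + t * (β - γ)) • w) := by
      have l : γ + t * (β - γ) < β := by nlinarith
      rcases le_or_gt 0 (γ + t * (β - γ)) with c | c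
      · have := H.2 ((γ + t * (β - γ)) / β) (by positivity) ((div_lt_one hβ).2 l)
        rwa [smul_smul, div_mul_cancel₀ _ hβ.ne'] at this
      · have g : γ ≤ γ + t * (β - γ) := by nlinarith
        have g0 : γ < 0 := by linarith
        have := ok_smul ho (t := (γ + t * (β - γ)) / γ) (div_nonneg_of_nonpos c.le g0.le)
          ((div_le_one_of_neg g0).2 g)
        rwa [smul_smul, div_mul_cancel₀ _ g0.ne] at this
    have := (line_ok ho e).1
    rwa [add_sub_cancel_left, mul_smul] at this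

omit [T2Space X] [CompactSpace X] in
/-- the region swept by the fan is regular -/
theorem fan_region (hu : S.Hit x u) (hne : wedge u w ≠ 0) {s : ℝ} (s0 : 0 < s) (s1 : s ≤ 1)
    (good : ∀ s', 0 ≤ s' → s' < s → S.Hit (S.mv x (s' • u)) (w - s' • u)) {a b : ℝ} (ha : 0 ≤ a)
    (hb : 0 ≤ b) (hab : a < s * (1 - b)) : S.Ok x (a • u + b • w) := by
  let A : ℂ → ℝ := fun y => wedge y w / wedge u w
  let B : ℂ → ℝ := fun y => wedge u y / wedge u w
  have cA : Continuous A := by
    unfold A wedge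
    fun_prop
  have cB : Continuous B := by
    unfold B wedge
    fun_prop
  have eA : ∀ a b : ℝ, A (a • u + b • w) = a := fun a b => by
    simp only [A, wedge_add_left, wedge_smul_left, wedge_self]
    field_simp
    ring
  have eB : ∀ a b : ℝ, B (a • u + b • w) = b := fun a b => by
    simp only [B, wedge_add_right, wedge_smul_right, wedge_self]
    field_simp
    ring
  have eAB : ∀ y, y = A y • u + B y • w := fun y => by
    have := wedge_smul_eq y u w
    simp only [A, B, div_eq_inv_mul, mul_smul]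
    rw [← smul_add, ← this, smul_smul, inv_mul_cancel₀ hne, one_smul]
  let D : Set ℂ := {y | 0 ≤ A y ∧ 0 ≤ B y ∧ A y < s * (1 - B y)}
  have cD : Convex ℝ D := by
    rintro y ⟨a1, a2, a3⟩ y' ⟨b1, b2, b3⟩ p q p0 q0 pq
    have e : p • y + q • y' = (p * A y + q * A y') • u + (p * B y + q * B y') • w := by
      conv_lhs => rw [eAB y, eAB y']
      module
    refine ⟨?_, ?_, ?_⟩
    · rw [e, eA]
      positivity
    · rw [e, eB]
      positivity
    · rw [e, eA, eB]
      rcases p0.eq_or_lt with rfl | c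
      · rw [zero_add] at pq
        rw [pq]
        linarith
      · have q1 : q = 1 - p := by linarith
        have h1 := mul_lt_mul_of_pos_left a3 c
        have h2 := mul_le_mul_of_nonneg_left b3.le q0
        rw [q1] at h2 ⊢
        nlinarith
  have A0 : A 0 = 0 := by simp [A, wedge_zero_left]
  have B0 : B 0 = 0 := by simp [B, wedge_zero_right]
  have D0 : (0 : ℂ) ∈ D := ⟨A0.ge, B0.ge, by rw [A0, B0]; linarith⟩
  let σ : ℂ → ℝ := fun y => A y / (1 - B y)
  let V : ℂ → ℂ := fun y => B y • (w - σ y • u)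
  have hD : ∀ y ∈ D, 0 < 1 - B y ∧ 0 ≤ σ y ∧ σ y < s ∧ y = σ y • u + V y := by
    rintro y ⟨a1, a2, a3⟩
    have p : 0 < 1 - B y := by
      by_contra c
      nlinarith [not_lt.1 c]
    refine ⟨p, div_nonneg a1 p.le, (div_lt_iff₀ p).2 a3, ?_⟩
    have e : A y = σ y * (1 - B y) := (div_mul_cancel₀ _ p.ne').symm
    conv_lhs => rw [eAB y, e]
    simp only [V]
    module
  have key := develop (S := S) (x := x) cD D0 (ψ := fun y => S.mv (S.mv x (σ y • u)) (V y))
    (by simp [σ, V, A0, B0, S.mv_zero]) (fun y hy => by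
      obtain ⟨p, q0, q1, e⟩ := hD y hy
      have ov : S.Ok (S.mv x (σ y • u)) (V y) := (good _ q0 q1).2 _ hy.2.1 (by linarith)
      obtain ⟨r, hr, H⟩ := localTrans ov
      have cσ : ContinuousAt σ y :=
        cA.continuousAt.div (continuous_const.sub cB).continuousAt p.ne'
      have c1 : ContinuousAt (fun y' => (σ y' - σ y) • u) y :=
        (cσ.sub continuousAt_const).smul continuousAt_const
      have c2 : ContinuousAt (fun y' => V y' - V y) y :=
        (cB.continuousAt.smul (continuousAt_const.sub (cσ.smul continuousAt_const))).sub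
          continuousAt_const
      have n1 : ∀ᶠ y' in 𝓝 y, ‖(σ y' - σ y) • u‖ < r :=
        c1.norm.eventually (gt_mem_nhds (by simpa using hr))
      have n2 : ∀ᶠ y' in 𝓝 y, ‖V y' - V y‖ < r :=
        c2.norm.eventually (gt_mem_nhds (by simpa using hr))
      obtain ⟨ρ, hρ, K⟩ := Metric.eventually_nhds_iff.1 (n1.and n2)
      refine ⟨ρ, hρ, fun y' hy' hd => ?_⟩
      obtain ⟨p', q0', q1', e'⟩ := hD y' hy'
      obtain ⟨k1, k2⟩ := K (show dist y' y < ρ by rwa [dist_eq_norm])
      obtain ⟨-, -, m1, m2⟩ := H _ _ k1 k2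
      have f : (σ y' - σ y) • u + (V y' - V y) = y' - y := by
        conv_rhs => rw [e, e']
        module
      rw [f] at m1 m2
      rw [(line_ok (hu.2 _ q0 (by linarith)) (hu.2 _ q0' (by linarith))).2,
        add_sub_cancel] at m2
      exact ⟨m1, m2.symm⟩)
  exact (key _ ⟨by rwa [eA], by rwa [eB], by rwa [eA, eB]⟩).1

end Pool.Agent.MP_d0b2d2_an.Gen.TS
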