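import Mathlib

open MeasureTheory Set Filter Topology

namespace Pool.Agent.MP_d0b2d2_an.Gen

/-- A holomorphic 1-form on a Riemann surface: `ω = coeff x z dz` in the chart at `x`. -/
structure HolForm (X : Type) [TopologicalSpace X] [ChartedSpace ℂ X] where
  coeff : X → ℂ → ℂ
  holo : ∀ x, DifferentiableOn ℂ (coeff x) (chartAt ℂ x).target
  compat : ∀ x y, ∀ q ∈ (chartAt ℂ x).source ∩ (chartAt ℂ y).source,
    coeff x (chartAt ℂ x q) =
      coeff y (chartAt ℂ y q) * deriv (chartAt ℂ y ∘ (chartAt ℂ x).symm) (chartAt ℂ x q)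

variable {X : Type} [TopologicalSpace X] [ChartedSpace ℂ X]

/-- `lam` is the area measure of `ω`: its density in the chart at `x` is `|coeff x| ^ 2`. -/
def HolForm.IsArea [MeasurableSpace X] (ω : HolForm X) (lam : Measure X) : Prop :=
  ∀ (x : X) (A : Set X), MeasurableSet A → A ⊆ (chartAt ℂ x).source →
    lam A = ∫⁻ z in chartAt ℂ x '' A, ‖ω.coeff x z‖ₑ ^ 2

/-- `γ` is a trajectory from `p` with `ω (γ' t) = e` for all `t > 0`. -/
def HolForm.IsRay (ω : HolForm X) (p : X) (e : ℂ) (γ : ℝ → X) : Prop :=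
  γ 0 = p ∧ ContinuousOn γ (Ici 0) ∧ ∀ t : ℝ, 0 < t → ∃ w : ℂ,
    HasDerivAt (fun s => chartAt ℂ (γ t) (γ s)) w t ∧
      ω.coeff (γ t) (chartAt ℂ (γ t) (γ t)) * w = e

/-- `γ` is jointly measurable and `γ θ` is a unit-speed trajectory from `p` in direction `2 π θ`
for almost every `θ ∈ (0, 1)`. -/
def HolForm.IsRayFamily [MeasurableSpace X] (ω : HolForm X) (p : X) (γ : ℝ → ℝ → X) : Prop :=
  Measurable (Function.uncurry γ) ∧ ∀ᵐ θ ∂(volume.restrict (Ioo (0 : ℝ) 1)),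
    ω.IsRay p (Complex.exp (((2 * Real.pi * θ : ℝ) : ℂ) * Complex.I)) (γ θ)

end Pool.Agent.MP_d0b2d2_an.Gen
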