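import Pool.Agent.MP_d0b2d2_an.Gen.Cyl

open MeasureTheory Set Filter Topology Metric

namespace Pool.Agent.MP_d0b2d2_an.Gen.TS

variable {X : Type} [TopologicalSpace X] [T2Space X] [CompactSpace X] [MeasurableSpace X]
  {μ : Measure X} {S : TS X μ} {δ : ℝ} {x σ : X} {w : ℂ}

theorem Thick.hit_unique (hδ : S.Thick δ) {w' : ℂ} (h : S.Hit x w) (h' : S.Hit x w')
    (hs : ‖w‖ + ‖w'‖ < δ) : w = w' := by
  by_contra hne
  obtain ⟨p, hp, -, -, q, hq⟩ := two_hits h h' hne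
  have h1 := hδ _ _ hq
  have h2 : convexHull ℝ {0, w, w'} ⊆ closedBall w (‖w‖ + ‖w'‖) := by
    refine convexHull_min ?_ (convex_closedBall _ _)
    intro y hy
    simp only [mem_insert_iff, mem_singleton_iff] at hy
    rw [mem_closedBall, dist_eq_norm]
    rcases hy with rfl | rfl | rfl
    · simp
    · simp only [sub_self, norm_zero]; positivity
    · linarith [norm_sub_le y w]
  have h3 := h2 hp
  rw [mem_closedBall, dist_comm, dist_eq_norm] at h3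
  rw [norm_smul, Real.norm_of_nonneg (by norm_num)] at h1
  linarith

lemma thick_tri {d w p : ℂ} (hp : p ∈ convexHull ℝ ({0, d, w} : Set ℂ)) :
    ∃ a b : ℝ, 0 ≤ a ∧ 0 ≤ b ∧ a + b ≤ 1 ∧ p = a • d + b • w := by
  have : convexHull ℝ ({0, d, w} : Set ℂ) ⊆
      {p | ∃ a b : ℝ, 0 ≤ a ∧ 0 ≤ b ∧ a + b ≤ 1 ∧ p = a • d + b • w} := by
    refine convexHull_min ?_ ?_
    · intro y hy
      simp only [mem_insert_iff, mem_singleton_iff] at hy
      rcases hy with rfl | rfl | rfl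
      · exact ⟨0, 0, le_rfl, le_rfl, by norm_num, by simp⟩
      · exact ⟨1, 0, by norm_num, le_rfl, by norm_num, by simp⟩
      · exact ⟨0, 1, le_rfl, by norm_num, by norm_num, by simp⟩
    · rintro y ⟨a, b, ha, hb, hab, rfl⟩ y' ⟨a', b', ha', hb', hab', rfl⟩ s t hs ht hst
      refine ⟨s * a + t * a', s * b + t * b', by positivity, by positivity, by nlinarith, ?_⟩
      simp only [smul_add, smul_smul, add_smul]
      abel
  exact this hp

theorem Thick.hit_step (hδ : S.Thick δ) (h : S.HitAt x w σ) {d : ℂ} (hd : S.Ok x d)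
    (h1 : 2 * ‖w‖ < δ) (h2 : 2 * ‖d‖ < δ) :
    (∀ p ∈ convexHull ℝ {0, d, w}, p ≠ w → S.Ok x p) ∧ S.HitAt (S.mv x d) (w - d) σ := by
  have key : ∀ p ∈ convexHull ℝ {0, d, w}, p ≠ w → S.Ok x p := by
    intro p hp hpw
    by_contra hn
    obtain ⟨t, ht0, ht1, ht⟩ := exists_hit h.1.reg.1 hn
    obtain ⟨a, b, ha, hb, hab, rfl⟩ := thick_tri hp
    have hnorm : 2 * ‖a • d + b • w‖ < δ ∨ a + b = 0 := by
      by_cases h0 : a + b = 0
      · exact Or.inr h0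
      left
      have h3 : ‖a • d + b • w‖ ≤ a * ‖d‖ + b * ‖w‖ := by
        refine (norm_add_le _ _).trans ?_
        rw [norm_smul, norm_smul, Real.norm_of_nonneg ha, Real.norm_of_nonneg hb]
      have h4 : 0 ≤ ‖d‖ := norm_nonneg _
      have h5 : 0 ≤ ‖w‖ := norm_nonneg _
      rcases le_total ‖d‖ ‖w‖ with h6 | h6 <;> nlinarith
    rcases hnorm with hnorm | h0
    swap
    · have ha0 : a = 0 := by linarith
      have hb0 : b = 0 := by linarith
      subst ha0 hb0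
      exact ht.reg.2 (by simp)
    have e := hδ.hit_unique h.1 ht (by
      rw [norm_smul, Real.norm_of_nonneg ht0.le]
      nlinarith [norm_nonneg (a • d + b • w)])
    have ht1' : t < 1 := lt_of_le_of_ne ht1 fun h1 => hpw (by rw [h1, one_smul] at e; exact e.symm)
    have hpos : 0 < 1 - t * b := by nlinarith
    have e2 : w = (t * a / (1 - t * b)) • d := by
      have : (1 - t * b) • w = (t * a) • d := by
        rw [sub_smul, one_smul, sub_eq_iff_eq_add]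
        conv_lhs => rw [e]
        simp only [smul_add, smul_smul]
      rw [div_eq_inv_mul, mul_smul, ← this, smul_smul, inv_mul_cancel₀ hpos.ne', one_smul]
    apply h.1.1
    rw [e2]
    exact ok_smul hd (by positivity) (by rw [div_le_one hpos]; nlinarith)
  exact ⟨key, h.transfer key fun e => h.1.1 (e ▸ hd)⟩

theorem Thick.mem_XR (hδ : S.Thick δ) (h : S.Hit x w) {r : ℝ} (h1 : r ≤ ‖w‖) (h2 : r + ‖w‖ ≤ δ) :
    x ∈ S.XR r := by
  intro y hy
  by_contra hn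
  obtain ⟨t, ht0, ht1, ht⟩ := exists_hit h.reg.1 hn
  have h3 : ‖t • y‖ < r := by
    rw [norm_smul, Real.norm_of_nonneg ht0.le]
    nlinarith [norm_nonneg y]
  have e := hδ.hit_unique h ht (by linarith)
  rw [← e] at h3
  linarith

omit [T2Space X] [CompactSpace X] in
theorem XR_move {r : ℝ} (hx : x ∈ S.XR r) {d : ℂ} (hd : ‖d‖ < r) : S.mv x d ∈ S.XR (r - ‖d‖) := by
  intro y hy
  have := (convex_ok (convex_ball (0 : ℂ) r) (mem_ball_self ((norm_nonneg d).trans_lt hd))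
    (fun y hy => hx y (by simpa using hy)) d (by simpa using hd) (d + y)
    (by rw [mem_ball_zero_iff]; linarith [norm_add_le d y])).1
  simpa using this

omit [T2Space X] [CompactSpace X] in
lemma thick_contAt (hx : x ∉ S.Sg) {g : X → ℂ}
    (h : ∀ ε > 0, ∃ r > 0, ∀ d : ℂ, ‖d‖ < r → S.Ok x d → ‖g (S.mv x d) - g x‖ < ε) :
    ContinuousAt g x := by
  refine Metric.tendsto_nhds.2 fun ε hε => ?_
  obtain ⟨r, hr, h⟩ := h ε hε
  filter_upwards [nhds_image hx hr]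
  rintro _ ⟨d, ⟨h1, h2⟩, rfl⟩
  rw [dist_eq_norm]
  exact h d h1 h2

lemma thick_norm_back {s : ℝ} (hw : w ≠ 0) (h : ‖w‖ ≤ s) : ‖(1 - s / ‖w‖) • w‖ = s - ‖w‖ := by
  have h0 : 0 < ‖w‖ := norm_pos_iff.2 hw
  have : 1 ≤ s / ‖w‖ := by rwa [one_le_div h0]
  rw [norm_smul, Real.norm_eq_abs, abs_of_nonpos (by linarith)]
  field_simp
  ring

lemma Thick.thick_back (hδ : S.Thick δ) (h : S.HitAt x w σ) {s : ℝ} (hs : ‖w‖ < s)
    (hs' : 2 * s < δ) : S.Ok x ((1 - s / ‖w‖) • w) ∧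
      S.HitAt (S.mv x ((1 - s / ‖w‖) • w)) ((s / ‖w‖) • w) σ := by
  have hw := h.1.reg.2
  have h0 : 0 < ‖w‖ := norm_pos_iff.2 hw
  have hn := thick_norm_back hw hs.le
  have hok : S.Ok x ((1 - s / ‖w‖) • w) := by
    by_contra hc
    obtain ⟨t, ht0, ht1, ht⟩ := exists_hit h.1.reg.1 hc
    have e := hδ.hit_unique h.1 ht (by
      rw [norm_smul, hn, Real.norm_of_nonneg ht0.le]
      nlinarith)
    have h1 : 1 < s / ‖w‖ := by rwa [one_lt_div h0]
    have h2 : (1 - t * (1 - s / ‖w‖)) • w = 0 := by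
      rw [sub_smul, one_smul, mul_smul, ← e, sub_self]
    rcases smul_eq_zero.1 h2 with h3 | h3
    · nlinarith
    · exact hw h3
  refine ⟨hok, ?_⟩
  have := (hδ.hit_step h hok (by linarith) (by rw [hn]; linarith)).2
  have e : w - (1 - s / ‖w‖) • w = (s / ‖w‖) • w := by rw [sub_smul, one_smul, sub_sub_cancel]
  rwa [e] at this

lemma Thick.thick_push (hδ : S.Thick δ) {s : ℝ} (hs : 0 < s) (hs' : 2 * s < δ) : ∃ p : X → ℂ,
    ContinuousOn p (S.Sg : Set X)ᶜ ∧ (∀ x w, S.Hit x w → ‖w‖ < s → p x = (1 - s / ‖w‖) • w) ∧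
      ∀ x, (¬ ∃ w, S.Hit x w ∧ ‖w‖ < s) → p x = 0 := by
  classical
  let p : X → ℂ := fun x =>
    if h : ∃ w, S.Hit x w ∧ ‖w‖ < s then (1 - s / ‖h.choose‖) • h.choose else 0
  have hA : ∀ x w, S.Hit x w → ‖w‖ < s → p x = (1 - s / ‖w‖) • w := by
    intro x w h1 h2
    have h : ∃ w, S.Hit x w ∧ ‖w‖ < s := ⟨w, h1, h2⟩
    have e : h.choose = w :=
      hδ.hit_unique h.choose_spec.1 h1 (by linarith [h.choose_spec.2])
    simp only [p, dif_pos h, e]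
  have hB : ∀ x, (¬ ∃ w, S.Hit x w ∧ ‖w‖ < s) → p x = 0 := fun x h => by
    simp only [p, dif_neg h]
  refine ⟨p, fun x hx => (thick_contAt (S := S) hx fun ε hε => ?_).continuousWithinAt, hA, hB⟩
  by_cases h : ∃ w, S.Hit x w ∧ ‖w‖ < s
  · obtain ⟨w, h1, h2⟩ := h
    obtain ⟨σ, -, h3⟩ := h1.hitAt
    obtain ⟨r, hr, h4⟩ := h3.nhds
    have hw : ‖w‖ ≠ 0 := norm_ne_zero_iff.2 h1.reg.2
    have hc : ContinuousAt (fun y : ℂ => (1 - s / ‖y‖) • y) w := by fun_prop (disch := exact hw)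
    obtain ⟨r', hr', h5⟩ := Metric.continuousAt_iff.1 hc ε hε
    refine ⟨min r (min r' (s - ‖w‖)), by positivity, fun d hd _ => ?_⟩
    simp only [lt_min_iff] at hd
    rw [hA _ _ (h4 d hd.1).2.1 (by linarith [norm_sub_le w d]), hA _ _ h1 h2, ← dist_eq_norm]
    exact h5 (by simpa [dist_eq_norm] using hd.2.1)
  · have hx' : x ∈ S.XR s := by
      by_contra hn
      obtain ⟨y, σ, -, h1, h2⟩ := not_mem_XR hx hn
      exact h ⟨y, h2.1, h1⟩
    refine ⟨min s ε, by positivity, fun d hd _ => ?_⟩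
    simp only [lt_min_iff] at hd
    rw [hB x h, sub_zero]
    by_cases h' : ∃ w, S.Hit (S.mv x d) w ∧ ‖w‖ < s
    · obtain ⟨w, h1, h2⟩ := h'
      rw [hA _ _ h1 h2, thick_norm_back h1.reg.2 h2.le]
      have : s - ‖d‖ ≤ ‖w‖ := not_lt.1 fun h3 => h1.1 (XR_move hx' hd.1 w h3)
      linarith
    · rw [hB _ h', norm_zero]
      exact hε

theorem Thick.push (hδ : S.Thick δ) {s : ℝ} (hs : 0 < s) (hs' : 2 * s < δ) : ∃ p : X → ℂ,
    ContinuousOn p (S.Sg : Set X)ᶜ ∧ ∀ x ∉ S.Sg, S.Ok x (p x) ∧ S.mv x (p x) ∈ S.XR s ∧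
      (x ∈ S.XR s → p x = 0) := by
  obtain ⟨p, hp, hA, hB⟩ := hδ.thick_push hs hs'
  refine ⟨p, hp, fun x hx => ?_⟩
  by_cases h : ∃ w, S.Hit x w ∧ ‖w‖ < s
  · obtain ⟨w, h1, h2⟩ := h
    obtain ⟨σ, -, h3⟩ := h1.hitAt
    obtain ⟨h4, h5⟩ := hδ.thick_back h3 h2 hs'
    have hw : 0 < ‖w‖ := norm_pos_iff.2 h1.reg.2
    have hn : ‖(s / ‖w‖) • w‖ = s := by
      rw [norm_smul, Real.norm_of_nonneg (by positivity)]
      field_simp
    rw [hA _ _ h1 h2]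
    exact ⟨h4, hδ.mem_XR h5.1 hn.ge (by rw [hn]; linarith), fun h6 => absurd (h6 w h2) h1.1⟩
  · rw [hB x h, S.mv_zero]
    refine ⟨ok_zero.2 hx, ?_, fun _ => rfl⟩
    by_contra hn
    obtain ⟨y, σ, -, h1, h2⟩ := not_mem_XR hx hn
    exact h ⟨y, h2.1, h1⟩

omit [T2Space X] [CompactSpace X] in
lemma thick_const {A T P : Set X} (hA : IsPreconnected A) {p : X → ℂ} (hp : ContinuousOn p A)
    (hok : ∀ y ∈ A, S.Ok y (p y) ∧ S.mv y (p y) ∈ T) {s : ℝ} (hs : 0 < s)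
    (hP : ∀ x ∈ P, ∀ d : ℂ, ‖d‖ < s → S.Ok x d → S.mv x d ∈ T → S.mv x d ∈ P) {y y' : X}
    (hy : y ∈ A) (hy' : y' ∈ A) (h : S.mv y (p y) ∈ P) : S.mv y' (p y') ∈ P := by
  refine hA.induction₂' (fun y y' => S.mv y (p y) ∈ P → S.mv y' (p y') ∈ P) ?_
    (fun _ _ _ _ _ _ h1 h2 h3 => h2 (h1 h3)) hy hy' h
  intro y hy
  obtain ⟨r, hr, h1⟩ := localTrans (hok y hy).1
  have hr' : 0 < min r (s / 2) := by positivity
  filter_upwards [self_mem_nhdsWithin, Metric.tendsto_nhds.1 (hp y hy) _ hr',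
    mem_nhdsWithin_of_mem_nhds (nhds_image (S.reg _ _ (hok y hy).1).1 hr')]
  rintro _ hy' h2 ⟨d, ⟨h3, -⟩, rfl⟩
  rw [dist_eq_norm] at h2
  simp only [lt_min_iff] at h2 h3
  obtain ⟨-, -, h4, h5⟩ := h1 d _ h3.1 h2.1
  rw [add_sub_cancel] at h5
  have h6 : ‖d + (p (S.mv y d) - p y)‖ < s := by
    linarith [norm_add_le d (p (S.mv y d) - p y)]
  constructor
  · intro h7
    rw [h5]
    exact hP _ h7 _ h6 h4 (h5 ▸ (hok _ hy').2)
  · intro h7
    obtain ⟨h8, h9⟩ := ok_symm h4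
    rw [h5] at h7
    rw [← h9]
    exact hP _ h7 _ (by rwa [norm_neg]) h8 (by rw [h9]; exact (hok y hy).2)

theorem Thick.stepX (hδ : S.Thick δ) {s s' : ℝ} (hs : 0 < s) (hs' : 2 * s < δ) (h' : 0 < s') :
    S.StepConn (S.XR s) s' := by
  obtain ⟨p, hp, h⟩ := hδ.push hs hs'
  rintro P hP hstep ⟨x₀, hx₀⟩
  refine hP.antisymm fun x hx => ?_
  have hreg : ∀ y ∈ S.XR s, y ∉ S.Sg := fun y hy => ok_zero.1 (hy 0 (by simpa using hs))
  have e : ∀ y ∈ S.XR s, S.mv y (p y) = y := fun y hy => by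
    rw [(h y (hreg y hy)).2.2 hy, S.mv_zero]
  have := thick_const S.conn hp (fun y hy => ⟨(h y hy).1, (h y hy).2.1⟩) h' hstep
    (hreg _ (hP hx₀)) (hreg _ hx) (by rwa [e _ (hP hx₀)])
  rwa [e _ hx] at this

theorem Thick.stepA (hδ : S.Thick δ) (hσ : σ ∈ S.Sg) {r₁ r₂ s' : ℝ} (h1 : 0 < r₁) (h2 : r₁ ≤ r₂)
    (h3 : 2 * r₂ < δ) (h' : 0 < s') : S.StepConn (S.Ann σ r₁ r₂) s' := by
  obtain ⟨p, hp, hA, -⟩ := hδ.thick_push h1 (by linarith)
  obtain ⟨-, -, -, -, -, -, -, -, hV⟩ := S.cone σ hσ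
  obtain ⟨V, hV, hV1, hV2⟩ := hV _ (near_sing hσ h1)
  obtain ⟨r, hr, hV3⟩ := sing_near (S := S) hV
  have hin : ∀ y ∈ V \ {σ}, ∃ w, ‖w‖ < r₁ ∧ S.HitAt y w σ := fun y hy =>
    (hV1 hy.1).resolve_left hy.2
  have hok : ∀ y ∈ V \ {σ}, S.Ok y (p y) ∧ S.mv y (p y) ∈ S.Ann σ r₁ r₂ := by
    intro y hy
    obtain ⟨w, h4, h5⟩ := hin y hy
    obtain ⟨h6, h7⟩ := hδ.thick_back h5 h4 (by linarith)
    have hw : 0 < ‖w‖ := norm_pos_iff.2 h5.1.reg.2
    have hn : ‖(r₁ / ‖w‖) • w‖ = r₁ := by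
      rw [norm_smul, Real.norm_of_nonneg (by positivity)]
      field_simp
    rw [hA _ _ h5.1 h4]
    exact ⟨h6, _, h7, hn.ge, hn.le.trans h2⟩
  rintro P hP hstep ⟨x₀, hx₀⟩
  have key : ∀ x ∈ S.Ann σ r₁ r₂, ∃ y ∈ V \ {σ}, (x ∈ P ↔ S.mv y (p y) ∈ P) := by
    rintro x ⟨w, hw, hw1, hw2⟩
    have hw0 : 0 < ‖w‖ := h1.trans_le hw1
    have ht1 : 0 ≤ 1 - r₁ / ‖w‖ := by rw [sub_nonneg, div_le_one hw0]; exact hw1
    have ht2 : 1 - r₁ / ‖w‖ < 1 := by linarith [div_pos h1 hw0]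
    obtain ⟨u, hu0, hu1, hu2⟩ : ∃ u : ℝ, 0 < u ∧ u ≤ 1 ∧ u * ‖w‖ < min r r₁ := by
      refine ⟨min r r₁ / (2 * ‖w‖), by positivity, ?_, ?_⟩
      · rw [div_le_one (by positivity)]
        linarith [min_le_right r r₁]
      · have : 0 < min r r₁ := by positivity
        field_simp
        norm_num
    have h4 := hw.tail (t := 1 - u) (by linarith) (by linarith)
    rw [sub_sub_cancel] at h4
    have hn : ‖u • w‖ = u * ‖w‖ := by rw [norm_smul, Real.norm_of_nonneg hu0.le]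
    simp only [lt_min_iff] at hu2
    refine ⟨S.mv x ((1 - u) • w), ⟨hV3 _ _ h4 (by linarith), fun e => h4.1.reg.1 (e ▸ hσ)⟩, ?_⟩
    have e1 : (1 - r₁ / ‖u • w‖) • u • w = ((1 - r₁ / ‖w‖) - (1 - u)) • w := by
      rw [smul_smul, hn]
      congr 1
      field_simp
      ring
    rw [hA _ _ h4.1 (by linarith), e1,
      (line_ok (hw.1.2 _ (by linarith) (by linarith)) (hw.1.2 _ ht1 ht2)).2]
    have hrel : ∀ a ∈ Icc 0 (1 - r₁ / ‖w‖), ∀ b ∈ Icc 0 (1 - r₁ / ‖w‖), |b - a| < s' / ‖w‖ →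
        S.mv x (a • w) ∈ P → S.mv x (b • w) ∈ P := by
      intro a ha b hb hab h5
      obtain ⟨h6, h7⟩ := line_ok (hw.1.2 _ ha.1 (ha.2.trans_lt ht2))
        (hw.1.2 _ hb.1 (hb.2.trans_lt ht2))
      rw [← h7]
      refine hstep _ h5 _ (by rwa [norm_smul, Real.norm_eq_abs, ← lt_div_iff₀ hw0]) h6 ?_
      rw [h7]
      refine ⟨_, hw.tail hb.1 (hb.2.trans_lt ht2), ?_, ?_⟩
      · rw [norm_smul, Real.norm_of_nonneg (by linarith [hb.2]), ← div_le_iff₀ hw0]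
        linarith [hb.2]
      · rw [norm_smul, Real.norm_of_nonneg (by linarith [hb.2])]
        nlinarith [hb.1]
    have hall : ∀ a ∈ Icc 0 (1 - r₁ / ‖w‖), ∀ b ∈ Icc 0 (1 - r₁ / ‖w‖),
        S.mv x (a • w) ∈ P → S.mv x (b • w) ∈ P := by
      intro a ha b hb
      refine isPreconnected_Icc.induction₂' (fun a b => S.mv x (a • w) ∈ P → S.mv x (b • w) ∈ P)
        ?_ (fun _ _ _ _ _ _ h1 h2 h3 => h2 (h1 h3)) ha hb
      intro c hc
      filter_upwards [self_mem_nhdsWithin,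
        mem_nhdsWithin_of_mem_nhds (ball_mem_nhds c (div_pos h' hw0))] with c' hc' h5
      rw [mem_ball, Real.dist_eq] at h5
      exact ⟨hrel _ hc _ hc' h5, hrel _ hc' _ hc (by rwa [abs_sub_comm])⟩
    have h0 := left_mem_Icc.2 ht1
    have h0' := right_mem_Icc.2 ht1
    have e0 : S.mv x ((0 : ℝ) • w) = x := by rw [zero_smul, S.mv_zero]
    exact ⟨fun h5 => hall _ h0 _ h0' (by rwa [e0]), fun h5 => e0 ▸ hall _ h0' _ h0 h5⟩
  refine hP.antisymm fun x hx => ?_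
  obtain ⟨y, hy, e⟩ := key x hx
  obtain ⟨y₀, hy₀, e₀⟩ := key x₀ (hP hx₀)
  refine e.2 (thick_const hV2 (hp.mono fun q hq => ?_) hok h' hstep hy₀ hy (e₀.1 hx₀))
  exact (S.reg _ _ (hok q hq).1).1

/-- the time spent near the singular points along a unit-speed segment -/
theorem Thick.time_bad (hδ : S.Thick δ) {e : ℂ} (he : ‖e‖ = 1) {l s : ℝ} (hl : 0 ≤ l) (hs : 0 < s)
    (hs' : 8 * s ≤ δ) (h : S.Ok x (l • e)) :
    volume {t : ℝ | 0 ≤ t ∧ t ≤ l ∧ S.mv x (t • e) ∉ S.XR s} ≤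
      ENNReal.ofReal ((8 * l / δ + 1) * (2 * s)) := by
  have hδ0 : 0 < δ := by linarith
  have hok : ∀ t : ℝ, 0 ≤ t → t ≤ l → S.Ok x (t • e) := fun t h0 h1 =>
    ((S.split x e t (l - t) h0 (by linarith)).1 (by rwa [add_sub_cancel])).1
  set B := {t : ℝ | 0 ≤ t ∧ t ≤ l ∧ S.mv x (t • e) ∉ S.XR s} with hB
  have hj : ∀ j : ℕ, volume (B ∩ {t | ⌊8 * t / δ⌋₊ = j}) ≤ ENNReal.ofReal (2 * s) := by
    intro j
    rcases (B ∩ {t | ⌊8 * t / δ⌋₊ = j}).eq_empty_or_nonempty with h0 | ⟨t₀, ⟨h1, h2, h3⟩, h4⟩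
    · simp [h0]
    obtain ⟨w₀, σ, -, h5, h6⟩ := not_mem_XR (S.reg _ _ (hok t₀ h1 h2)).2 h3
    refine (measure_mono (t := Ioo (t₀ + dot w₀ e - s) (t₀ + dot w₀ e + s)) ?_).trans_eq ?_
    swap
    · rw [Real.volume_Ioo]; congr 1; ring
    rintro t ⟨⟨k1, k2, k3⟩, k4⟩
    obtain ⟨w, σ', -, k5, k6⟩ := not_mem_XR (S.reg _ _ (hok t k1 k2)).2 k3
    have hlt : |t - t₀| < δ / 8 := by
      have a1 := (Nat.floor_eq_iff (by positivity)).1 h4
      have a2 := (Nat.floor_eq_iff (by positivity)).1 k4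
      have a3 : |8 * t / δ - 8 * t₀ / δ| < 1 := by rw [abs_lt]; constructor <;> linarith
      rw [← sub_div, ← mul_sub, abs_div, abs_mul, abs_of_pos hδ0, div_lt_one hδ0,
        abs_of_pos (by norm_num : (0 : ℝ) < 8)] at a3
      linarith
    obtain ⟨m1, m2⟩ := line_ok (hok t₀ h1 h2) (hok t k1 k2)
    have hn : ‖(t - t₀) • e‖ = |t - t₀| := by rw [norm_smul, he, mul_one, Real.norm_eq_abs]
    have m3 := (hδ.hit_step h6 m1 (by linarith) (by linarith)).2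
    rw [m2] at m3
    have m4 := hδ.hit_unique k6.1 m3.1 (by linarith [norm_sub_le w₀ ((t - t₀) • e)])
    have m5 := abs_dot_le w e
    rw [he, mul_one, m4, dot_sub_left, dot_smul_left, dot_self, he, ← m4] at m5
    have m6 := abs_lt.1 (m5.trans_lt k5)
    constructor <;> linarith [m6.1, m6.2]
  calc volume B ≤ volume (⋃ j ∈ Finset.range (⌊8 * l / δ⌋₊ + 1), B ∩ {t | ⌊8 * t / δ⌋₊ = j}) := by
        refine measure_mono fun t ht => ?_
        simp only [mem_iUnion, Finset.mem_range, exists_prop]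
        exact ⟨_, Nat.lt_succ_of_le (Nat.floor_le_floor (by gcongr; exact ht.2.1)), ht, rfl⟩
    _ ≤ ∑ j ∈ Finset.range (⌊8 * l / δ⌋₊ + 1), volume (B ∩ {t | ⌊8 * t / δ⌋₊ = j}) :=
        measure_biUnion_finset_le _ _
    _ ≤ ∑ _j ∈ Finset.range (⌊8 * l / δ⌋₊ + 1), ENNReal.ofReal (2 * s) :=
        Finset.sum_le_sum fun j _ => hj j
    _ = ENNReal.ofReal (((⌊8 * l / δ⌋₊ + 1 : ℕ) : ℝ) * (2 * s)) := by
        rw [Finset.sum_const, Finset.card_range, nsmul_eq_mul,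
          ENNReal.ofReal_mul (Nat.cast_nonneg _), ENNReal.ofReal_natCast]
    _ ≤ _ := by
        refine ENNReal.ofReal_le_ofReal ?_
        have := Nat.floor_le (a := 8 * l / δ) (by positivity)
        push_cast
        gcongr

variable [BorelSpace X] [SecondCountableTopology X] [IsProbabilityMeasure μ]

/-- the oscillation lemma -/
theorem Thick.osc (hδ : S.Thick δ) {T : Set X} {s : ℝ} (hs : 0 < s) (hs1 : s ≤ 1) (hs2 : 2 * s ≤ δ)
    (hT : T ⊆ S.XR s) (hc : S.StepConn T s) {G : X → ℝ} {ε : ℝ} (hε : 0 ≤ ε)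
    (hG : ∀ x ∈ T, ∀ d : ℂ, ‖d‖ < s → S.mv x d ∈ T → |G (S.mv x d) - G x| ≤ ε) :
    ∀ x ∈ T, ∀ x' ∈ T, |G x - G x'| ≤ 10 * ε / s ^ 2 := by
  have _ := hs1
  suffices H : ∀ x ∈ T, ∀ x' ∈ T, G x' - G x ≤ 10 * ε / s ^ 2 from fun x hx x' hx' =>
    abs_le.2 ⟨by linarith [H x hx x' hx'], H x' hx' x hx⟩
  intro x hx x' hx'
  by_contra hlt
  rw [not_le] at hlt
  have h0 : 0 ≤ 10 * ε / s ^ 2 := by positivity
  have h1 : ∀ t : ℝ, G x < t → t ≤ G x' → ∃ y ∈ T, t ≤ G y ∧ G y < t + ε := by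
    intro t ht ht'
    by_contra hn
    have := hc {y ∈ T | G y < t} (sep_subset _ _) (fun y hy d hd _ hd' => ⟨hd', ?_⟩) ⟨x, hx, ht⟩
    · have h2 : x' ∈ {y ∈ T | G y < t} := this.symm ▸ hx'
      linarith [h2.2]
    · by_contra h2
      exact hn ⟨_, hd', not_lt.1 h2, by linarith [(abs_le.1 (hG y hy.1 d hd hd')).2, hy.2]⟩
  have hε' : 0 < ε := by
    obtain ⟨y, -, h2, h3⟩ := h1 (G x') (by linarith) le_rfl
    linarith
  set N := ⌊(G x' - G x) / (2 * ε)⌋₊ with hN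
  have h2 : ∀ j : ℕ, ∃ y ∈ T, j ≤ N → G x + 2 * ε * j ≤ G y ∧ G y < G x + 2 * ε * j + ε := by
    intro j
    by_cases hj : j ≤ N
    swap
    · exact ⟨x, hx, fun h => absurd h hj⟩
    rcases j.eq_zero_or_pos with rfl | hj0
    · exact ⟨x, hx, fun _ => by constructor <;> simp [hε']⟩
    have h3 : (j : ℝ) ≤ (G x' - G x) / (2 * ε) :=
      (Nat.le_floor_iff (div_nonneg (by linarith) (by positivity))).1 hj
    rw [le_div_iff₀ (by positivity)] at h3
    obtain ⟨y, hy, h4⟩ := h1 (G x + 2 * ε * j) (lt_add_of_pos_right _ (by positivity)) (by linarith)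
    exact ⟨y, hy, fun _ => h4⟩
  choose y hy hy' using h2
  have hball : ∀ j, ∀ u ∈ ball (0 : ℂ) (s / 2), S.Ok (y j) u := fun j u hu =>
    hT (hy j) u (by rw [mem_ball_zero_iff] at hu; linarith)
  have hdis : ∀ i j : ℕ, i < j → j ≤ N →
      Disjoint (S.mv (y i) '' ball 0 (s / 2)) (S.mv (y j) '' ball 0 (s / 2)) := by
    intro i j hij hj
    rw [Set.disjoint_left]
    rintro _ ⟨u, hu, rfl⟩ ⟨v, hv, e⟩
    have h3 := (ok_symm (hball j v hv)).2
    rw [mem_ball_zero_iff] at hu hv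
    have h4 : ‖u - v‖ < s := by linarith [norm_sub_le u v]
    have h5 := (convex_ok (convex_ball (0 : ℂ) s) (mem_ball_self hs)
      (fun z hz => hT (hy i) z (by simpa using hz)) u (by rw [mem_ball_zero_iff]; linarith) (u - v)
      (by simpa using h4)).2
    rw [sub_sub_cancel_left, ← e, h3] at h5
    have h6 := hG _ (hy i) _ h4 (h5 ▸ hy j)
    rw [← h5] at h6
    have h7 : (i : ℝ) + 1 ≤ j := by exact_mod_cast hij
    nlinarith [(abs_le.1 h6).2, (hy' i (hij.le.trans hj)).2, (hy' j hj).1]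
  have hm : ∀ j, μ (S.mv (y j) '' ball 0 (s / 2)) = ENNReal.ofReal ((s / 2) ^ 2 * Real.pi) := by
    intro j
    rw [measure_image measurableSet_ball (hball j)
      ((hδ.injOn (hT (hy j)) hs2).mono (ball_subset_ball (by linarith))), Complex.volume_ball,
      ENNReal.ofReal_mul (by positivity), ENNReal.ofReal_pow (by positivity)]
    congr 1
    exact (ENNReal.ofReal_coe_nnreal (p := NNReal.pi)).symm
  have hsum := measure_biUnion_finset (μ := μ) (s := Finset.range (N + 1))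
    (f := fun j => S.mv (y j) '' ball 0 (s / 2)) (fun i hi j hj hij => ?_)
    fun j _ => measurableSet_image measurableSet_ball (hball j)
  swap
  · simp only [Finset.coe_range, mem_Iio] at hi hj
    rcases lt_or_gt_of_ne hij with h | h
    · exact hdis i j h (by omega)
    · exact (hdis j i h (by omega)).symm
  have hle := hsum ▸ prob_le_one (μ := μ)
  simp only [hm] at hle
  rw [Finset.sum_const, Finset.card_range, nsmul_eq_mul, ← ENNReal.ofReal_natCast,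
    ← ENNReal.ofReal_mul (by positivity), ENNReal.ofReal_le_one] at hle
  have h3 := Nat.lt_floor_add_one ((G x' - G x) / (2 * ε))
  rw [← hN, div_lt_iff₀ (by positivity)] at h3
  rw [div_lt_iff₀ (by positivity)] at hlt
  push_cast at hle
  have h4 : ((N : ℝ) + 1) * s ^ 2 ≤ 4 / 3 := by
    nlinarith [Real.pi_gt_three, mul_pos (Nat.cast_add_one_pos (α := ℝ) N) (pow_pos hs 2)]
  nlinarith [pow_pos hs 2]

end Pool.Agent.MP_d0b2d2_an.Gen.TS
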