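import Pool.Agent.MP_d0b2d2_an.Gen.Lip
import Pool.Agent.MP_d0b2d2_an.Gen.Thick

open MeasureTheory Set Filter Topology Metric
open scoped ENNReal

namespace Pool.Agent.MP_d0b2d2_an.Gen.TS

/-- a Lipschitz bump of total mass one supported in the disc of radius `r` -/
structure GapABump (φ : ℂ → ℝ) (r M L : ℝ) : Prop where
  zero : ∀ y, r ≤ ‖y‖ → φ y = 0
  bdd : ∀ y, |φ y| ≤ M
  lip : ∀ y y', |φ y - φ y'| ≤ L * ‖y - y'‖
  cont : Continuous φ
  int : Integrable φ
  one : ∫ y, φ y = 1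
  L_nonneg : 0 ≤ L

lemma gapA_exists_bump {r : ℝ} (hr : 0 < r) : ∃ φ M L, GapABump φ r M L := by
  let b : ContDiffBump (0 : ℂ) := ⟨r / 2, r, by positivity, by linarith⟩
  have hc : HasCompactSupport (b.normed volume) := b.hasCompactSupport_normed
  have hd : ContDiff ℝ 1 (b.normed volume) := b.contDiff_normed
  obtain ⟨L, hL⟩ := ContDiff.lipschitzWith_of_hasCompactSupport hc hd (by simp)
  obtain ⟨M, hM⟩ := hd.continuous.bounded_above_of_compact_support hc
  refine ⟨b.normed volume, M, L, fun y hy => ?_, fun y => hM y, fun y y' => ?_, hd.continuous,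
    b.integrable_normed, b.integral_normed, L.2⟩
  · have : y ∉ Function.support (b.normed volume) := by
      rw [b.support_normed_eq]
      simpa using hy
    simpa using this
  · simpa [Real.dist_eq, dist_eq_norm] using hL.dist_le_mul y y'

lemma GapABump.M_nonneg {φ : ℂ → ℝ} {r M L : ℝ} (b : GapABump φ r M L) : 0 ≤ M :=
  (abs_nonneg _).trans (b.bdd 0)

variable {X : Type} [TopologicalSpace X] [T2Space X] [CompactSpace X] [MeasurableSpace X]
  [BorelSpace X] [SecondCountableTopology X] {μ : Measure X} [IsProbabilityMeasure μ]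

section Aux

variable {S : TS X μ} {δ ρ : ℝ} {x : X}

omit [T2Space X] [CompactSpace X] [BorelSpace X] [SecondCountableTopology X]
  [IsProbabilityMeasure μ] in
lemma gapA_XR_mono {ρ' : ℝ} (hx : x ∈ S.XR ρ) (h : ρ' ≤ ρ) : x ∈ S.XR ρ' :=
  fun w hw => hx w (hw.trans_le h)

omit [T2Space X] [CompactSpace X] [BorelSpace X] [SecondCountableTopology X]
  [IsProbabilityMeasure μ] in
lemma gapA_mv_mv (hx : x ∈ S.XR ρ) {y d : ℂ} (hy : ‖y‖ < ρ) (hd : ‖y + d‖ < ρ) :
    S.mv (S.mv x y) d = S.mv x (y + d) := by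
  have h0 : (0 : ℝ) < ρ := (norm_nonneg _).trans_lt hy
  have := (convex_ok (S := S) (x := x) (convex_ball (0 : ℂ) ρ) (mem_ball_self h0)
    (fun z hz => hx z (by simpa using hz)) y (by simpa using hy) (y + d) (by simpa using hd)).2
  simpa using this

omit [T2Space X] [CompactSpace X] [BorelSpace X] [SecondCountableTopology X]
  [IsProbabilityMeasure μ] in
lemma gapA_coc {dl : X → ℂ → ℝ} (h : S.Cocycle dl) (hx : x ∈ S.XR ρ) {y d : ℂ} (hy : ‖y‖ < ρ)
    (hd : ‖y + d‖ < ρ) : dl (S.mv x y) d = dl x (y + d) - dl x y := by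
  have h0 : (0 : ℝ) < ρ := (norm_nonneg _).trans_lt hy
  have := h.convex (x := x) (convex_ball (0 : ℂ) ρ) (mem_ball_self h0)
    (fun z hz => hx z (by simpa using hz)) (y := y) (y' := y + d) (by simpa using hy)
    (by simpa using hd)
  simpa using this

lemma gapA_mp (hδ : S.Thick δ) (hx : x ∈ S.XR ρ) (hρ : 2 * ρ ≤ δ) :
    MeasurePreserving (S.mv x) (volume.restrict (ball 0 ρ)) (μ.restrict (S.mv x '' ball 0 ρ)) :=
  measurePreserving_image measurableSet_ball (fun z hz => hx z (by simpa using hz))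
    (hδ.injOn hx hρ)

lemma gapA_transport (hδ : S.Thick δ) (hx : x ∈ S.XR ρ) (hρ : 2 * ρ ≤ δ) {F : X → ℝ}
    (hF : Integrable F μ) : IntegrableOn (fun y => F (S.mv x y)) (ball 0 ρ) ∧
      ∫ y in ball 0 ρ, F (S.mv x y) = ∫ q in S.mv x '' ball 0 ρ, F q ∂μ := by
  have h := gapA_mp hδ hx hρ
  refine ⟨h.integrable_comp_of_integrable hF.integrableOn, ?_⟩
  rw [← h.map_eq, integral_map h.measurable.aemeasurable]
  rw [h.map_eq]
  exact hF.aestronglyMeasurable.restrict

lemma gapA_weight (hδ : S.Thick δ) (hx : x ∈ S.XR ρ) (hρ : 2 * ρ ≤ δ) {F : X → ℝ}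
    (hF : Integrable F μ) {g : ℂ → ℝ} (hg : Continuous g) {M : ℝ} (hM : ∀ y, |g y| ≤ M)
    (h0 : ∀ y, ρ ≤ ‖y‖ → g y = 0) : Integrable (fun y => g y * F (S.mv x y)) ∧
      |∫ y, g y * F (S.mv x y)| ≤ M * ∫ q, |F q| ∂μ := by
  have hM0 : 0 ≤ M := (abs_nonneg _).trans (hM 0)
  obtain ⟨h1, -⟩ := gapA_transport hδ hx hρ hF
  obtain ⟨h2, h3⟩ := gapA_transport hδ hx hρ hF.abs
  have hs : Function.support (fun y => g y * F (S.mv x y)) ⊆ ball 0 ρ := fun y hy => by
    by_contra hc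
    exact hy (by simp [h0 y (by simpa using hc)])
  have h4 : IntegrableOn (fun y => g y * F (S.mv x y)) (ball 0 ρ) :=
    Integrable.bdd_mul (c := M) h1 hg.aestronglyMeasurable (ae_of_all _ fun y => hM y)
  refine ⟨(integrableOn_iff_integrable_of_support_subset hs).1 h4, ?_⟩
  rw [← setIntegral_eq_integral_of_forall_compl_eq_zero (s := ball 0 ρ)
    (fun y hy => by simp [h0 y (by simpa using hy)])]
  calc |∫ y in ball 0 ρ, g y * F (S.mv x y)| ≤ ∫ y in ball 0 ρ, |g y * F (S.mv x y)| :=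
        abs_integral_le_integral_abs
    _ ≤ ∫ y in ball 0 ρ, M * |F (S.mv x y)| := by
        refine integral_mono h4.abs (h2.const_mul M) fun y => ?_
        simp only [abs_mul]
        exact mul_le_mul_of_nonneg_right (hM y) (abs_nonneg _)
    _ = M * ∫ q in S.mv x '' ball 0 ρ, |F q| ∂μ := by rw [integral_const_mul, h3]
    _ ≤ M * ∫ q, |F q| ∂μ :=
        mul_le_mul_of_nonneg_left
          (setIntegral_le_integral hF.abs (ae_of_all _ fun _ => abs_nonneg _)) hM0

omit [TopologicalSpace X] [T2Space X] [CompactSpace X] [BorelSpace X]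
  [SecondCountableTopology X] in
lemma gapA_l1_le {F : X → ℝ} (hF : MemLp F 2 μ) : ∫ q, |F q| ∂μ ≤ (eLpNorm F 2 μ).toReal := by
  have h := eLpNorm_le_eLpNorm_of_exponent_le (μ := μ) (show (1 : ℝ≥0∞) ≤ 2 by norm_num) hF.1
  have h2 := ENNReal.toReal_mono hF.2.ne h
  rw [eLpNorm_one_eq_lintegral_enorm, ← integral_norm_eq_lintegral_enorm hF.1] at h2
  exact h2

omit [TopologicalSpace X] [T2Space X] [CompactSpace X] [BorelSpace X]
  [SecondCountableTopology X] in
lemma gapA_l1_le_sq {F : X → ℝ} (hF : MemLp F 2 μ) {ε : ℝ} (hε : 0 ≤ ε)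
    (h : ∫ q, F q ^ 2 ∂μ ≤ ε ^ 2) : ∫ q, |F q| ∂μ ≤ ε := by
  have h1 := ProbabilityTheory.variance_eq_sub (μ := μ) hF.abs
  have h2 := ProbabilityTheory.variance_nonneg (μ := μ) |F|
  have h3 : ∫ q, (|F| ^ 2) q ∂μ = ∫ q, F q ^ 2 ∂μ := by simp
  have h4 : ∫ q, |F| q ∂μ = ∫ q, |F q| ∂μ := rfl
  rw [h3, h4] at h1
  exact (abs_le_of_sq_le_sq' (by linarith) hε).2

omit [TopologicalSpace X] [T2Space X] [CompactSpace X] [BorelSpace X]
  [SecondCountableTopology X] [IsProbabilityMeasure μ] in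
lemma gapA_memLp_re (β : Lp ℂ 2 μ) : MemLp (fun q => (β q).re) 2 μ :=
  (Complex.reCLM.comp_memLp' (Lp.memLp β))

omit [TopologicalSpace X] [T2Space X] [CompactSpace X] [BorelSpace X]
  [SecondCountableTopology X] [IsProbabilityMeasure μ] in
lemma gapA_memLp_im (β : Lp ℂ 2 μ) : MemLp (fun q => (β q).im) 2 μ :=
  (Complex.imCLM.comp_memLp' (Lp.memLp β))

variable {φ : ℂ → ℝ} {r M L : ℝ}

/-- the primitive of the bump in the direction `d` -/
noncomputable def gapAk (φ : ℂ → ℝ) (d y : ℂ) : ℝ := ∫ t in (0 : ℝ)..1, φ (y - t • d)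

lemma gapAk_lip (b : GapABump φ r M L) (d y y' : ℂ) :
    |gapAk φ d y - gapAk φ d y'| ≤ L * ‖y - y'‖ := by
  have hc := b.cont
  unfold gapAk
  rw [← intervalIntegral.integral_sub (Continuous.intervalIntegrable (by fun_prop) _ _)
    (Continuous.intervalIntegrable (by fun_prop) _ _)]
  have := intervalIntegral.norm_integral_le_of_norm_le_const (a := 0) (b := 1) (C := L * ‖y - y'‖)
    (f := fun t : ℝ => φ (y - t • d) - φ (y' - t • d)) fun t _ => by
      simpa using b.lip (y - t • d) (y' - t • d)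
  simpa using this

lemma gapAk_cont (b : GapABump φ r M L) (d : ℂ) : Continuous (gapAk φ d) := by
  refine (LipschitzWith.of_dist_le_mul (K := ⟨L, b.L_nonneg⟩) fun y y' => ?_).continuous
  rw [Real.dist_eq, dist_eq_norm]
  exact gapAk_lip b d y y'

lemma gapAk_zero (b : GapABump φ r M L) {d y : ℂ} (hd : ‖d‖ < r) (hy : 2 * r < ‖y‖) :
    gapAk φ d y = 0 := by
  unfold gapAk
  rw [intervalIntegral.integral_congr (g := fun _ => (0 : ℝ)) fun t ht => ?_]
  · simp
  · rw [uIcc_of_le zero_le_one] at ht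
    refine b.zero _ ?_
    have h1 : ‖t • d‖ ≤ ‖d‖ := by
      rw [norm_smul, Real.norm_of_nonneg ht.1]
      exact mul_le_of_le_one_left (norm_nonneg _) ht.2
    have h2 := norm_sub_norm_le y (t • d)
    linarith

lemma gapAk_deriv (b : GapABump φ r M L) (d y : ℂ) :
    HasDerivAt (fun h : ℝ => gapAk φ d (y + h • d)) (φ y - φ (y - d)) 0 := by
  have hc : Continuous fun u : ℝ => φ (y + u • d) := by have := b.cont; fun_prop
  have e : (fun h : ℝ => gapAk φ d (y + h • d)) = fun h : ℝ =>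
      (∫ u in (0 : ℝ)..h, φ (y + u • d)) - ∫ u in (0 : ℝ)..(h - 1), φ (y + u • d) := by
    funext h
    rw [intervalIntegral.integral_interval_sub_left (hc.intervalIntegrable _ _)
      (hc.intervalIntegrable _ _)]
    have := intervalIntegral.integral_comp_sub_left (fun u : ℝ => φ (y + u • d)) (a := 0) (b := 1) h
    simp only [sub_zero] at this
    rw [← this, gapAk]
    congr 1
    funext t
    rw [sub_smul, add_sub_assoc]
  rw [e]
  have h2 : ∀ u : ℝ, HasDerivAt (fun h : ℝ => ∫ u in (0 : ℝ)..h, φ (y + u • d)) (φ (y + u • d)) u :=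
    fun u => (hc.integral_hasStrictDerivAt 0 u).hasDerivAt
  have h3 := (h2 ((0 : ℝ) - 1)).comp_sub_const 0 1
  have h4 := (h2 0).sub h3
  have e2 : φ (y + (0 : ℝ) • d) - φ (y + ((0 : ℝ) - 1) • d) = φ y - φ (y - d) := by
    simp [sub_eq_add_neg]
  rw [e2] at h4
  exact h4

/-- the averaged imaginary part is almost locally constant -/
lemma gapA_step (b : GapABump φ r M L) (hδ : S.Thick δ) (hx : x ∈ S.XR ρ) (hρ : 2 * ρ ≤ δ)
    (hr : 2 * r < ρ) (β : Lp ℂ 2 μ) {ε : ℝ} (hε : 0 ≤ ε)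
    (h1 : ∀ e ∈ S.E, |∫ x, (β x).im * (e x).im ∂μ| ≤ ε * ‖e‖)
    (h2 : ∀ e ∈ S.E, |∫ x, (β x).im * (e x).re ∂μ| ≤ ε * ‖e‖) {d : ℂ} (hd : ‖d‖ < r) :
    |(∫ y, φ y * (β (S.mv (S.mv x d) y)).im) - ∫ y, φ y * (β (S.mv x y)).im| ≤
      2 * r * L * ε := by
  have hr0 : 0 < r := (norm_nonneg _).trans_lt hd
  obtain ⟨f, hf1, hf2⟩ := exists_bump hx (hδ.injOn hx hρ) hr (gapAk_cont b d)
    (c := 0) fun y hy => gapAk_zero b hd hy
  have hK : IsClosed (S.mv x '' closedBall 0 (2 * r)) := by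
    refine ((isCompact_closedBall _ _).image_of_continuousOn fun y hy => ?_).isClosed
    exact (continuousAt_mv_right (hx y (by simp at hy; linarith))).continuousWithinAt
  have hout : ∀ q ∉ S.Sg, q ∉ S.mv x '' ball 0 ρ → f q = 0 ∧
      ∀ᶠ w in 𝓝 (0 : ℂ), f (S.mv q w) = 0 := fun q hq hq' => by
    have hq2 : q ∉ S.mv x '' closedBall 0 (2 * r) := fun h =>
      hq' (image_mono (closedBall_subset_ball hr) h)
    refine ⟨hf2 q hq2, ?_⟩
    have := (continuousAt_mv_right (ok_zero.2 hq)).preimage_mem_nhds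
      (hK.isOpen_compl.mem_nhds (by rw [S.mv_zero]; exact hq2))
    filter_upwards [this] with w hw using hf2 _ hw
  have hlip := (S.cocycle_real f).lip_of_local b.L_nonneg fun q hq => by
    by_cases hq' : q ∈ S.mv x '' ball 0 ρ
    · obtain ⟨y, hy, rfl⟩ := hq'
      have hy : ‖y‖ < ρ := by simpa using hy
      refine ⟨ρ - ‖y‖, by linarith, fun w hw => ?_⟩
      have hw' : ‖y + w‖ < ρ := by linarith [norm_add_le y w]
      rw [gapA_mv_mv hx hy hw', hf1 _ hy, hf1 _ hw']
      simpa using gapAk_lip b d (y + w) y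
    · obtain ⟨e1, e2⟩ := hout q hq hq'
      obtain ⟨r', hr', h⟩ := Metric.eventually_nhds_iff.1 e2
      refine ⟨r', hr', fun w hw => ?_⟩
      rw [e1, h (by simpa using hw)]
      simpa using mul_nonneg b.L_nonneg (norm_nonneg w)
  obtain ⟨u, hu, hu'⟩ := (S.cocycle_real f).grad_of_lip b.L_nonneg hlip
  have huE : u ∈ S.E := Submodule.subset_span ⟨f, hu⟩
  have hun : ‖u‖ ≤ L := by
    have := Lp.norm_le_of_ae_bound b.L_nonneg (hu'.mono fun q hq => hq.1)
    simpa [measureUnivNNReal] using this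
  have i1 : Integrable (fun q => (β q).im * (u q).im) μ :=
    (gapA_memLp_im β).integrable_mul (gapA_memLp_im u)
  have i2 : Integrable (fun q => (β q).im * (u q).re) μ :=
    (gapA_memLp_im β).integrable_mul (gapA_memLp_re u)
  have iβ : Integrable (fun q => (β q).im) μ := (gapA_memLp_im β).integrable one_le_two
  set F : X → ℝ := fun q => wedge d (u q) * (β q).im with hF
  have eF : F = fun q => d.re * ((β q).im * (u q).im) - d.im * ((β q).im * (u q).re) := by
    funext q; simp only [hF, wedge]; ring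
  have iF : Integrable F μ := by rw [eF]; exact (i1.const_mul _).sub (i2.const_mul _)
  have bF : |∫ q, F q ∂μ| ≤ 2 * r * L * ε := by
    rw [eF, integral_sub (i1.const_mul _) (i2.const_mul _), integral_const_mul, integral_const_mul]
    have a1 := (h1 u huE).trans (mul_le_mul_of_nonneg_left hun hε)
    have a2 := (h2 u huE).trans (mul_le_mul_of_nonneg_left hun hε)
    have a3 : |d.re| ≤ r := (Complex.abs_re_le_norm d).trans hd.le
    have a4 : |d.im| ≤ r := (Complex.abs_im_le_norm d).trans hd.le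
    refine (abs_sub _ _).trans ?_
    rw [abs_mul, abs_mul]
    have a5 := mul_le_mul a3 a1 (abs_nonneg _) hr0.le
    have a6 := mul_le_mul a4 a2 (abs_nonneg _) hr0.le
    linarith
  have hreg : ∀ᵐ q ∂μ, q ∉ S.Sg := measure_eq_zero_iff_ae_notMem.1 S.null
  have e1 : ∫ q in S.mv x '' ball 0 ρ, F q ∂μ = ∫ q, F q ∂μ := by
    refine setIntegral_eq_integral_of_ae_compl_eq_zero ?_
    filter_upwards [hu', hreg] with q hq hq1 hq2
    obtain ⟨e1, e2⟩ := hout q hq1 hq2
    have t1 : Tendsto (fun t : ℝ => t • d) (𝓝 0) (𝓝 0) :=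
      (continuous_id.smul continuous_const).tendsto' 0 0 (by simp)
    have e3 : (fun t : ℝ => f (S.mv q (t • d)) - f q) =ᶠ[𝓝 0] fun _ => (0 : ℝ) := by
      filter_upwards [t1.eventually e2] with t ht
      rw [ht, e1, sub_zero]
    have := (hq.2 d).unique ((hasDerivAt_const (0 : ℝ) (0 : ℝ)).congr_of_eventuallyEq e3)
    simp [hF, this]
  have e2 : ∫ y in ball 0 ρ, F (S.mv x y) =
      ∫ y in ball 0 ρ, (φ y - φ (y - d)) * (β (S.mv x y)).im := by
    refine setIntegral_congr_ae measurableSet_ball ?_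
    filter_upwards [ae_pull (S := S) hu' x] with y hy hy1
    have hy2 : ‖y‖ < ρ := by simpa using hy1
    have t1 : Tendsto (fun t : ℝ => ‖y + t • d‖) (𝓝 0) (𝓝 ‖y‖) :=
      (by fun_prop : Continuous fun t : ℝ => ‖y + t • d‖).tendsto' 0 _ (by simp)
    have e3 : (fun t : ℝ => f (S.mv (S.mv x y) (t • d)) - f (S.mv x y)) =ᶠ[𝓝 0]
        fun t => gapAk φ d (y + t • d) - gapAk φ d y := by
      filter_upwards [t1.eventually (gt_mem_nhds hy2)] with t ht
      rw [gapA_mv_mv hx hy2 ht, hf1 _ ht, hf1 _ hy2]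
    have := ((hy (hx y hy2)).2 d).unique
      (((gapAk_deriv b d y).sub_const (gapAk φ d y)).congr_of_eventuallyEq e3)
    simp only [hF, this]
  have hz : ∀ y : ℂ, ρ ≤ ‖y‖ → φ (y - d) = 0 := fun y hy =>
    b.zero _ (by linarith [norm_sub_norm_le y d])
  have hz' : ∀ y : ℂ, ρ ≤ ‖y‖ → φ y = 0 := fun y hy => b.zero _ (by linarith)
  have j1 := (gapA_weight hδ hx hρ iβ b.cont b.bdd hz').1
  have j2 := (gapA_weight hδ hx hρ iβ (g := fun y => φ (y - d))
    (by have := b.cont; fun_prop) (fun y => b.bdd _) hz).1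
  have e4 : ∫ y in ball 0 ρ, (φ y - φ (y - d)) * (β (S.mv x y)).im =
      (∫ y, φ y * (β (S.mv x y)).im) - ∫ y, φ (y - d) * (β (S.mv x y)).im := by
    rw [setIntegral_eq_integral_of_forall_compl_eq_zero fun y hy => by
      simp [hz y (by simpa using hy), hz' y (by simpa using hy)], ← integral_sub j1 j2]
    simp only [sub_mul]
  have e5 : ∫ y, φ y * (β (S.mv (S.mv x d) y)).im = ∫ y, φ (y - d) * (β (S.mv x y)).im := by
    rw [← integral_add_left_eq_self (fun y => φ (y - d) * (β (S.mv x y)).im) d]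
    congr 1
    funext y
    rw [add_sub_cancel_left]
    by_cases hy : r ≤ ‖y‖
    · simp [b.zero y hy]
    · rw [gapA_mv_mv hx (by linarith) (by linarith [norm_add_le d y])]
  rw [e5, abs_sub_comm, ← e4, ← e2, (gapA_transport hδ hx hρ iF).2, e1]
  exact bF

omit [T2Space X] [CompactSpace X] [BorelSpace X] [SecondCountableTopology X]
  [IsProbabilityMeasure μ] in
lemma gapA_int_dl (b : GapABump φ r M L) {dl : X → ℂ → ℝ} (h : S.Cocycle dl) (hx : x ∈ S.XR ρ)
    {c : ℂ} (hc : ‖c‖ + r < ρ) : Integrable fun y => φ y * dl x (c + y) := by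
  have hs : Function.support (fun y => φ y * dl x (c + y)) ⊆ closedBall 0 r := fun y hy => by
    by_contra hc
    exact hy (by simp [b.zero y (by simp at hc; exact hc.le)])
  refine (integrableOn_iff_integrable_of_support_subset hs).1
    (ContinuousOn.integrableOn_compact (isCompact_closedBall _ _) (b.cont.continuousOn.mul ?_))
  refine h.cont.comp (f := fun y => (x, c + y)) (by fun_prop) fun y hy => hx _ ?_
  have : ‖y‖ ≤ r := by simpa using hy
  linarith [norm_add_le c y]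

omit [BorelSpace X] [IsProbabilityMeasure μ] in
lemma gapA_cont (b : GapABump φ r M L) {dl : X → ℂ → ℝ} (h : S.Cocycle dl) (hρ : 0 < ρ)
    (hr : r < ρ) : ContinuousOn (fun x => ∫ y, φ y * dl x y) (S.XR ρ) := by
  have hsub : S.XR ρ ×ˢ closedBall (0 : ℂ) r ⊆ {p | S.Ok p.1 p.2} := fun p hp =>
    hp.1 _ (lt_of_le_of_lt (by simpa using hp.2) hr)
  obtain ⟨B, hB⟩ := IsCompact.exists_bound_of_continuousOn
    ((S.isCompact_XR hρ).prod (isCompact_closedBall (0 : ℂ) r)) (h.cont.mono hsub)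
  refine continuousOn_of_dominated (bound := fun y => |φ y| * B) (fun x hx => ?_)
    (fun x hx => ae_of_all _ fun y => ?_) (b.int.abs.mul_const B) (ae_of_all _ fun y => ?_)
  · simpa using (gapA_int_dl b h hx (c := 0) (by simpa using hr)).1
  · by_cases hy : r ≤ ‖y‖
    · simp [b.zero y hy]
    · rw [norm_mul, Real.norm_eq_abs]
      exact mul_le_mul_of_nonneg_left (hB (x, y) ⟨hx, by simpa using (not_le.1 hy).le⟩)
        (abs_nonneg _)
  · by_cases hy : r ≤ ‖y‖
    · simpa [b.zero y hy] using continuousOn_const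
    · refine continuousOn_const.mul ?_
      exact h.cont.comp (f := fun x => (x, y)) (by fun_prop) fun x hx =>
        hx _ ((not_le.1 hy).trans hr)

lemma gapA_lim (b : GapABump φ r M L) (hδ : S.Thick δ) (hx : x ∈ S.XR ρ) (hρ : 2 * ρ ≤ δ)
    (hr : r ≤ ρ) {β : Lp ℂ 2 μ} {dl : X → ℂ → ℝ} (h : S.Cocycle dl) (g : HasGrad μ dl β) (d : ℂ) :
    Tendsto (fun t : ℝ => t⁻¹ • ∫ y, φ y * dl (S.mv x y) (t • d)) (𝓝[≠] 0)
      (𝓝 (d.re * (∫ y, φ y * (β (S.mv x y)).im) - d.im * ∫ y, φ y * (β (S.mv x y)).re)) := by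
  have hz : ∀ y : ℂ, ρ ≤ ‖y‖ → φ y = 0 := fun y hy => b.zero _ (hr.trans hy)
  have m1 := gapA_memLp_im β
  have m2 := gapA_memLp_re β
  have m3 : ∀ v : ℂ, MemLp (fun q => dl q v) 2 μ := fun v =>
    ⟨(h.measurable.comp (measurable_id.prodMk measurable_const)).aestronglyMeasurable,
      (h.eLpNorm_le g v).trans_lt ENNReal.ofReal_lt_top⟩
  have m4 : ∀ t : ℝ, MemLp (fun q => dl q (t • d) / t - wedge d (β q)) 2 μ := fun t => by
    have := ((m3 (t • d)).mul_const t⁻¹).sub ((m1.const_mul d.re).sub (m2.const_mul d.im))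
    exact this
  have j1 := (gapA_weight hδ hx hρ (m1.integrable one_le_two) b.cont b.bdd hz).1
  have j2 := (gapA_weight hδ hx hρ (m2.integrable one_le_two) b.cont b.bdd hz).1
  rw [← tendsto_sub_nhds_zero_iff]
  have t1 : Tendsto (fun t : ℝ => M * (eLpNorm (fun q => dl q (t • d) / t - wedge d (β q)) 2
      μ).toReal) (𝓝[≠] 0) (𝓝 0) := by
    have := ((ENNReal.tendsto_toReal ENNReal.zero_ne_top).comp (g d)).const_mul M
    simpa using this
  refine squeeze_zero_norm (fun t => ?_) t1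
  have j3 := (gapA_weight hδ hx hρ ((m3 (t • d)).integrable one_le_two) b.cont b.bdd hz).1
  have j4 := (gapA_weight hδ hx hρ ((m4 t).integrable one_le_two) b.cont b.bdd hz).2
  refine le_of_eq_of_le ?_ (j4.trans (mul_le_mul_of_nonneg_left (gapA_l1_le (m4 t)) b.M_nonneg))
  have j5 : Integrable fun y => d.re * (φ y * (β (S.mv x y)).im) -
      d.im * (φ y * (β (S.mv x y)).re) := (j1.const_mul _).sub (j2.const_mul _)
  rw [Real.norm_eq_abs, smul_eq_mul, ← integral_const_mul, ← integral_const_mul,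
    ← integral_const_mul, ← integral_sub (j1.const_mul _) (j2.const_mul _),
    ← integral_sub (j3.const_mul _) j5]
  congr 2
  funext y
  simp only [wedge]
  ring

end Aux

/-- smoothing on the thick part -/
theorem smooth_thick {s : ℝ} (hs : 0 < s) (hs1 : s ≤ 1) : ∃ C > 0, ∀ (S : TS X μ) (δ : ℝ),
    16 * s ≤ δ → S.Thick δ → ∀ (β : Lp ℂ 2 μ) (dl : X → ℂ → ℝ), S.Cocycle dl → HasGrad μ dl β →
    ∀ ε : ℝ, 0 ≤ ε → (∀ e ∈ S.E, |∫ x, (β x).im * (e x).im ∂μ| ≤ ε * ‖e‖) →
    (∀ e ∈ S.E, |∫ x, (β x).im * (e x).re ∂μ| ≤ ε * ‖e‖) → ∫ x, (β x).re ^ 2 ∂μ ≤ ε ^ 2 →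
    ∃ (κ : ℝ) (θ : X → ℝ), ContinuousOn θ (S.XR (s / 2)) ∧ ∀ x ∈ S.XR s, ∀ d : ℂ, ‖d‖ < s / 4 →
      |dl x d - (θ (S.mv x d) - θ x) - κ * d.re| ≤ C * ε * ‖d‖ := by
  obtain ⟨φ, M, L, b⟩ := gapA_exists_bump (r := s / 8) (by positivity)
  have hM := b.M_nonneg
  have hL := b.L_nonneg
  set A : ℝ := 10 * (2 * (s / 8) * L) / (s / 8) ^ 2 with hA
  have hA0 : 0 ≤ A := by positivity
  refine ⟨A + M + 1, by positivity, fun S δ hδ' hδ β dl h g ε hε h1 h2 h3 => ?_⟩
  set m : X → ℝ := fun x => ∫ y, φ y * (β (S.mv x y)).im with hm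
  set m1 : X → ℝ := fun x => ∫ y, φ y * (β (S.mv x y)).re with hm1
  have hosc := hδ.osc (T := S.XR (s / 2)) (s := s / 8) (by positivity) (by linarith) (by linarith)
    (fun x hx => gapA_XR_mono hx (by linarith))
    (hδ.stepX (by positivity) (by linarith) (by positivity)) (G := m) (ε := 2 * (s / 8) * L * ε)
    (by positivity) fun x hx d hd _ =>
      gapA_step b hδ hx (by linarith) (by linarith) β hε h1 h2 hd
  obtain ⟨κ, hκ⟩ : ∃ κ : ℝ, ∀ x ∈ S.XR (s / 2), |m x - κ| ≤ A * ε := by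
    rcases (S.XR (s / 2)).eq_empty_or_nonempty with he | ⟨x₀, hx₀⟩
    · exact ⟨0, by simp [he]⟩
    · exact ⟨m x₀, fun x hx => (hosc x hx x₀ hx₀).trans_eq (by rw [hA]; ring)⟩
  have hm1' : ∀ x ∈ S.XR (s / 2), |m1 x| ≤ M * ε := fun x hx =>
    (gapA_weight hδ hx (by linarith) ((gapA_memLp_re β).integrable one_le_two) b.cont b.bdd
      fun y hy => b.zero _ (by linarith)).2.trans
      (mul_le_mul_of_nonneg_left (gapA_l1_le_sq (gapA_memLp_re β) hε h3) hM)
  refine ⟨κ, fun x => -∫ y, φ y * dl x y, (gapA_cont b h (by positivity) (by linarith)).neg,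
    fun x hx d hd => ?_⟩
  have nd : ∀ t : ℝ, |t| ≤ 2 → ‖t • d‖ ≤ s / 2 := fun t ht => by
    rw [norm_smul, Real.norm_eq_abs]
    nlinarith [norm_nonneg d, abs_nonneg t]
  set G : ℝ → ℝ := fun t => ∫ y, φ y * dl x (t • d + y) with hG
  have iG : ∀ t : ℝ, |t| ≤ 2 → Integrable fun y => φ y * dl x (t • d + y) := fun t ht =>
    gapA_int_dl b h hx (by linarith [nd t ht])
  have hxt : ∀ t ∈ Icc (0 : ℝ) 1, S.mv x (t • d) ∈ S.XR (s / 2) := fun t ht => by
    have := nd t (by rw [abs_of_nonneg ht.1]; linarith [ht.2])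
    exact gapA_XR_mono (XR_move hx (by linarith)) (by linarith)
  have dG : ∀ t ∈ Icc (0 : ℝ) 1, HasDerivAt G
      (d.re * m (S.mv x (t • d)) - d.im * m1 (S.mv x (t • d))) t := fun t ht => by
    rw [hasDerivAt_iff_tendsto_slope_zero]
    refine (gapA_lim b hδ (hxt t ht) (by linarith) (by linarith) h g d).congr' ?_
    have : ∀ᶠ u : ℝ in 𝓝[≠] 0, u ∈ Ioo (-1 : ℝ) 1 :=
      nhdsWithin_le_nhds (Ioo_mem_nhds (by norm_num) (by norm_num))
    filter_upwards [this] with u hu
    have a1 : |t| ≤ 2 := by rw [abs_le]; constructor <;> linarith [ht.1, ht.2]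
    have a2 : |t + u| ≤ 2 := by rw [abs_le]; constructor <;> linarith [ht.1, ht.2, hu.1, hu.2]
    congr 1
    rw [hG, ← integral_sub (iG _ a2) (iG _ a1)]
    congr 1
    funext y
    by_cases hy : s / 8 ≤ ‖y‖
    · simp [b.zero y hy]
    · have c1 : ‖t • d + y‖ < s := by linarith [nd t a1, norm_add_le (t • d) y]
      have e : t • d + y + u • d = (t + u) • d + y := by rw [add_smul]; ring
      have c2 : ‖t • d + y + u • d‖ < s := by
        rw [e]; linarith [nd _ a2, norm_add_le ((t + u) • d) y]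
      rw [gapA_mv_mv hx (by linarith [nd t a1]) c1, gapA_coc h hx c1 c2, e, mul_sub]
  have mv := norm_image_sub_le_of_norm_deriv_le_segment_01' (f := fun t => G t - t * (κ * d.re))
    (f' := fun t => d.re * m (S.mv x (t • d)) - d.im * m1 (S.mv x (t • d)) - κ * d.re)
    (C := (A + M + 1) * ε * ‖d‖)
    (fun t ht => ((dG t ht).sub (hasDerivAt_mul_const (κ * d.re))).hasDerivWithinAt)
    fun t ht => by
      have ht' := Ico_subset_Icc_self ht
      have a1 := mul_le_mul (Complex.abs_re_le_norm d) (hκ _ (hxt t ht')) (abs_nonneg _)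
        (norm_nonneg _)
      have a2 := mul_le_mul (Complex.abs_im_le_norm d) (hm1' _ (hxt t ht')) (abs_nonneg _)
        (norm_nonneg _)
      rw [← abs_mul] at a1 a2
      have e : d.re * m (S.mv x (t • d)) - d.im * m1 (S.mv x (t • d)) - κ * d.re =
          d.re * (m (S.mv x (t • d)) - κ) - d.im * m1 (S.mv x (t • d)) := by ring
      rw [Real.norm_eq_abs, e]
      refine (abs_sub _ _).trans ?_
      nlinarith [mul_nonneg hε (norm_nonneg d)]
  have e1 : ∫ y, φ y * dl (S.mv x d) y = G 1 - dl x d := by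
    have i1 := iG 1 (by norm_num)
    have e : dl x d = ∫ y, φ y * dl x d := by rw [integral_mul_const, b.one, one_mul]
    rw [e, hG, ← integral_sub i1 (b.int.mul_const _)]
    congr 1
    funext y
    by_cases hy : s / 8 ≤ ‖y‖
    · simp [b.zero y hy]
    · rw [gapA_coc h hx (by linarith) (by linarith [norm_add_le d y]), one_smul, mul_sub]
  have e0 : ∫ y, φ y * dl x y = G 0 := by simp [hG]
  beta_reduce
  rw [e1, e0]
  refine le_of_eq_of_le ?_ mv
  rw [Real.norm_eq_abs]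
  congr 1
  ring

end Pool.Agent.MP_d0b2d2_an.Gen.TS
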