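import Pool.Agent.MP_d0b2d2_an.Gen.GapA

open MeasureTheory Set Filter Topology Metric
open scoped ENNReal

set_option linter.unusedSectionVars false

namespace Pool.Agent.MP_d0b2d2_an.Gen.TS

variable {X : Type} [TopologicalSpace X] [T2Space X] [CompactSpace X] [MeasurableSpace X]
  {μ : Measure X}

/-- a triangle with the side opposite to `0` kept but the vertex `w` removed -/
def gapB_tri (d w : ℂ) : Set ℂ :=
  {p | ∃ a b : ℝ, 0 ≤ a ∧ 0 ≤ b ∧ a + b ≤ 1 ∧ b < 1 ∧ p = a • d + b • w}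

lemma gapB_convex (d w : ℂ) : Convex ℝ (gapB_tri d w) := by
  rintro _ ⟨a, b, h1, h2, h3, h4, rfl⟩ _ ⟨a', b', h1', h2', h3', h4', rfl⟩ s t hs ht hst
  refine ⟨s * a + t * a', s * b + t * b', by positivity, by positivity, by nlinarith, ?_, ?_⟩
  · rcases hs.eq_or_lt with h | h
    · subst h
      have : t = 1 := by linarith
      subst this
      simpa using h4'
    · nlinarith
  · simp only [smul_add, add_smul, mul_smul]
    abel

lemma gapB_mem (d w : ℂ) {a b : ℝ} (h1 : 0 ≤ a) (h2 : 0 ≤ b) (h3 : a + b ≤ 1) :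
    a • d + b • w ∈ convexHull ℝ ({0, d, w} : Set ℂ) := by
  have hc := convex_convexHull ℝ ({0, d, w} : Set ℂ)
  have h0 : (0 : ℂ) ∈ convexHull ℝ ({0, d, w} : Set ℂ) := subset_convexHull _ _ (by simp)
  have hd : d ∈ convexHull ℝ ({0, d, w} : Set ℂ) := subset_convexHull _ _ (by simp)
  have hw : w ∈ convexHull ℝ ({0, d, w} : Set ℂ) := subset_convexHull _ _ (by simp)
  have := hc.sum_mem (t := Finset.univ) (w := ![1 - a - b, a, b]) (z := ![0, d, w])
    (fun i _ => by fin_cases i <;> simp <;> linarith) (by simp [Fin.sum_univ_three]; ring)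
    (fun i _ => by fin_cases i <;> simpa)
  simpa [Fin.sum_univ_three] using this

lemma gapB_ok {S : TS X μ} {x : X} {w d : ℂ} (h : S.Hit x w) (hd : d ≠ w)
    (h' : ∀ p ∈ convexHull ℝ {0, d, w}, p ≠ w → S.Ok x p) : ∀ p ∈ gapB_tri d w, S.Ok x p := by
  rintro _ ⟨a, b, h1, h2, h3, h4, rfl⟩
  refine h' _ (gapB_mem d w h1 h2 h3) fun he => h.1 ?_
  have hd' : S.Ok x d := h' d (subset_convexHull _ _ (by simp)) hd
  have h5 : 0 < 1 - b := by linarith
  have h6 : (1 - b) • w = a • d := by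
    rw [sub_smul, one_smul, sub_eq_iff_eq_add]
    exact he.symm
  have h7 : w = (a / (1 - b)) • d := by
    rw [div_eq_inv_mul, mul_smul, ← h6, smul_smul, inv_mul_cancel₀ h5.ne', one_smul]
  rw [h7]
  exact ok_smul hd' (by positivity) ((div_le_one h5).2 (by linarith))

lemma gapB_ev : ∀ᶠ t in 𝓝[<] (1 : ℝ), 0 ≤ t ∧ t < 1 := by
  filter_upwards [Ioo_mem_nhdsLT (show (0 : ℝ) < 1 by norm_num)] with t ht using ⟨ht.1.le, ht.2⟩

lemma gapB_lim {S : TS X μ} {dl : X → ℂ → ℝ} (h : S.Cocycle dl) {x : X} {w : ℂ} (hw : S.Hit x w) :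
    ∃ L, Tendsto (fun t : ℝ => dl x (t • w)) (𝓝[<] 1) (𝓝 L) := by
  apply cauchy_map_iff_exists_tendsto.1
  rw [Metric.cauchy_iff]
  refine ⟨inferInstance, fun η hη => ?_⟩
  obtain ⟨r, hr, h1⟩ := h.small (η / 2) (by positivity)
  have hw0 : 0 < ‖w‖ := norm_pos_iff.2 hw.reg.2
  have hok := gapB_ok (d := 0) hw hw.reg.2.symm (by
    intro p hp hne
    have : ({0, 0, w} : Set ℂ) = {0, w} := by simp
    rw [this, convexHull_pair, segment_eq_image] at hp
    obtain ⟨t, ht, rfl⟩ := hp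
    simp only [smul_zero, zero_add] at hne ⊢
    exact hw.2 t ht.1 (lt_of_le_of_ne ht.2 fun e => hne (by rw [e, one_smul])))
  refine ⟨(fun t : ℝ => dl x (t • w)) '' Ioo (max 0 (1 - r / ‖w‖)) 1,
    image_mem_map (Ioo_mem_nhdsLT (max_lt one_pos (by have := div_pos hr hw0; linarith))), ?_⟩
  rintro _ ⟨s, hs, rfl⟩ _ ⟨t, ht, rfl⟩
  have hs1 := max_lt_iff.1 hs.1
  have ht1 := max_lt_iff.1 ht.1
  have := h.convex (gapB_convex 0 w) ⟨0, 0, le_rfl, le_rfl, by norm_num, by norm_num, by simp⟩ hok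
    (y := t • w) (y' := s • w) ⟨0, t, le_rfl, ht1.1.le, by linarith [ht.2], ht.2, by simp⟩
    ⟨0, s, le_rfl, hs1.1.le, by linarith [hs.2], hs.2, by simp⟩
  rw [Real.dist_eq, ← this]
  refine (h1 _ _ ?_).trans_lt (by linarith)
  rw [← sub_smul, norm_smul, Real.norm_eq_abs, ← lt_div_iff₀ hw0, abs_lt]
  constructor <;> linarith [hs.2, ht.2, hs1.2, ht1.2]

/-- the primitive of a cocycle near the singular points -/
theorem cone_prim {S : TS X μ} {dl : X → ℂ → ℝ} (h : S.Cocycle dl) : ∃ ψ : X → ℂ → ℝ,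
    (∀ η > 0, ∃ r > 0, ∀ x w, S.Hit x w → ‖w‖ < r → |ψ x w| ≤ η) ∧
    ∀ x w d, S.Hit x w → d ≠ w → (∀ p ∈ convexHull ℝ {0, d, w}, p ≠ w → S.Ok x p) →
      ψ (S.mv x d) (w - d) = ψ x w + dl x d := by
  refine ⟨fun x w => -limUnder (𝓝[<] (1 : ℝ)) fun t : ℝ => dl x (t • w), fun η hη => ?_,
    fun x w d hw hd hok => ?_⟩
  · obtain ⟨r, hr, h1⟩ := h.small η hη
    refine ⟨r, hr, fun x w hw hwr => ?_⟩
    obtain ⟨L, hL⟩ := gapB_lim h hw
    simp only [hL.limUnder_eq, abs_neg]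
    refine le_of_tendsto hL.abs ?_
    filter_upwards [gapB_ev] with t ht
    refine h1 _ _ (lt_of_le_of_lt ?_ hwr)
    rw [norm_smul, Real.norm_eq_abs, abs_of_nonneg ht.1]
    nlinarith [norm_nonneg w, ht.2]
  · obtain ⟨L, hL⟩ := gapB_lim h hw
    have hok' := gapB_ok hw hd hok
    have h0 : (0 : ℂ) ∈ gapB_tri d w := ⟨0, 0, le_rfl, le_rfl, by norm_num, by norm_num, by simp⟩
    have h1 : Tendsto (fun t : ℝ => dl (S.mv x (t • w)) ((1 - t) • d)) (𝓝[<] 1) (𝓝 0) := by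
      rw [Metric.tendsto_nhds]
      intro η hη
      obtain ⟨r, hr, h2⟩ := h.small (η / 2) (by positivity)
      have h3 : Tendsto (fun t : ℝ => ‖(1 - t) • d‖) (𝓝[<] 1) (𝓝 0) := by
        refine Tendsto.mono_left ?_ nhdsWithin_le_nhds
        exact (show Continuous fun t : ℝ => ‖(1 - t) • d‖ by fun_prop).tendsto' 1 0 (by simp)
      filter_upwards [h3.eventually (gt_mem_nhds hr)] with t ht
      rw [Real.dist_eq, sub_zero]
      exact (h2 _ _ ht).trans_lt (by linarith)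
    have h2 : Tendsto (fun t : ℝ => dl (S.mv x d) (t • (w - d))) (𝓝[<] 1) (𝓝 (L - dl x d)) := by
      have := (hL.add h1).sub_const (dl x d)
      rw [add_zero] at this
      refine this.congr' ?_
      filter_upwards [gapB_ev] with t ht
      have hm : (1 - t) • d + t • w ∈ gapB_tri d w :=
        ⟨1 - t, t, by linarith [ht.2], ht.1, by linarith, ht.2, rfl⟩
      have e1 := h.convex (gapB_convex d w) h0 hok' (y := d)
        ⟨1, 0, by norm_num, le_rfl, by norm_num, by norm_num, by simp⟩ hm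
      have e2 := h.convex (gapB_convex d w) h0 hok' (y := t • w)
        ⟨0, t, le_rfl, ht.1, by linarith [ht.2], ht.2, by simp⟩ hm
      rw [show (1 - t) • d + t • w - d = t • (w - d) by simp only [sub_smul, smul_sub, one_smul]; abel]
        at e1
      rw [add_sub_cancel_right] at e2
      linarith
    simp only [hL.limUnder_eq, h2.limUnder_eq]
    ring

/-- the cut-off function -/
noncomputable def gapB_chi (s r : ℝ) : ℝ := max 0 (min 1 ((r - 2 * s) / s))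

lemma gapB_chi_zero {s r : ℝ} (hs : 0 < s) (h : r ≤ 2 * s) : gapB_chi s r = 0 :=
  max_eq_left ((min_le_right _ _).trans (div_nonpos_of_nonpos_of_nonneg (by linarith) hs.le))

lemma gapB_chi_one {s r : ℝ} (hs : 0 < s) (h : 3 * s ≤ r) : gapB_chi s r = 1 := by
  rw [gapB_chi, min_eq_left ((one_le_div hs).2 (by linarith)), max_eq_right zero_le_one]

lemma gapB_chi_abs (s r : ℝ) : |gapB_chi s r| ≤ 1 :=
  abs_le.2 ⟨le_trans (by norm_num) (le_max_left 0 (min 1 ((r - 2 * s) / s))),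
    max_le zero_le_one (min_le_left _ _)⟩

lemma gapB_chi_lip {s : ℝ} (hs : 0 < s) (r r' : ℝ) :
    |gapB_chi s r - gapB_chi s r'| ≤ |r - r'| / s := by
  have h1 : |(r - 2 * s) / s - (r' - 2 * s) / s| = |r - r'| / s := by
    rw [← sub_div, abs_div, abs_of_pos hs]
    congr 2
    ring
  rw [← h1, gapB_chi, gapB_chi]
  refine (abs_max_sub_max_le_max _ _ _ _).trans (max_le (by simp) ?_)
  exact (abs_min_sub_min_le_max _ _ _ _).trans (max_le (by simp) le_rfl)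

lemma gapB_cont {S : TS X μ} {k : X → ℝ} {x : X} (hx : x ∉ S.Sg)
    (h : ∀ η > 0, ∃ r > 0, ∀ d : ℂ, ‖d‖ < r → |k (S.mv x d) - k x| < η) : ContinuousAt k x := by
  rw [ContinuousAt, Metric.tendsto_nhds]
  intro η hη
  obtain ⟨r, hr, h1⟩ := h η hη
  filter_upwards [nhds_image hx hr]
  rintro _ ⟨d, hd, rfl⟩
  exact h1 d hd.1

variable [BorelSpace X] [SecondCountableTopology X] [IsProbabilityMeasure μ]

/-- gluing of the primitive near the singular points with the smoothing on the thick part -/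
lemma gapB_glue {S : TS X μ} {δ s κ l : ℝ} (hδ : S.Thick δ) (hs : 0 < s) (hs1 : s ≤ 1)
    (hsδ : 16 * s ≤ δ) (hl : 0 ≤ l) {dl : X → ℂ → ℝ} (h : S.Cocycle dl) {θ : X → ℝ}
    (hθ : ∀ x ∈ S.XR s, ∀ d : ℂ, ‖d‖ < s / 4 →
      |dl x d - (θ (S.mv x d) - θ x) - κ * d.re| ≤ l * ‖d‖) :
    ∃ k : C(X, ℝ), ∀ x ∉ S.Sg, ∃ r > 0, ∀ d : ℂ, ‖d‖ < r → S.Ok x d ∧
      |dl x d - (k (S.mv x d) - k x) - κ * d.re| ≤ (l + 40 * l / s ^ 2) * ‖d‖ := by
  classical
  obtain ⟨ψ, hψ1, hψ2⟩ := cone_prim h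
  -- the unique short hit
  have hW : ∀ x, ∃ p : ℂ × X, ∀ w σ, S.HitAt x w σ → ‖w‖ < 6 * s → p = (w, σ) := fun x => by
    by_cases hx : ∃ w σ, S.HitAt x w σ ∧ ‖w‖ < 6 * s
    · obtain ⟨w, σ, h1, h2⟩ := hx
      refine ⟨(w, σ), fun w' σ' h1' h2' => ?_⟩
      obtain rfl : w = w' := hδ.hit_unique h1.1 h1'.1 (by linarith)
      rw [h1.unique h1']
    · exact ⟨(0, x), fun w σ h1 h2 => (hx ⟨w, σ, h1, h2⟩).elim⟩
  choose W hW using hW
  set G : X → ℝ := fun x => ψ x (W x).1 + κ * (W x).1.re - θ x with hG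
  have hG1 : ∀ x w σ, S.HitAt x w σ → ‖w‖ < 6 * s → G x = ψ x w + κ * w.re - θ x :=
    fun x w σ h1 h2 => by simp only [hG, hW x w σ h1 h2]
  -- one step near a singular point
  have hstep : ∀ x w σ d, S.HitAt x w σ → ‖w‖ ≤ 4 * s → ‖d‖ < s / 4 → S.Ok x d →
      S.HitAt (S.mv x d) (w - d) σ ∧ ‖w - d‖ < 6 * s ∧
      ψ (S.mv x d) (w - d) + κ * (w - d).re = ψ x w + κ * w.re + dl x d - κ * d.re :=
    fun x w σ d h1 h2 h3 h4 => by
    obtain ⟨h5, h6⟩ := hδ.hit_step h1 h4 (by linarith) (by linarith)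
    refine ⟨h6, by linarith [norm_sub_le w d], ?_⟩
    rw [hψ2 x w d h1.1 (fun e => h1.1.1 (e ▸ h4)) h5, Complex.sub_re]
    ring
  have hGl : ∀ x w σ d, S.HitAt x w σ → s ≤ ‖w‖ → ‖w‖ ≤ 4 * s → ‖d‖ < s / 4 →
      |G (S.mv x d) - G x| ≤ l * ‖d‖ := fun x w σ d h1 h2 h3 h4 => by
    have hx : x ∈ S.XR s := hδ.mem_XR h1.1 h2 (by linarith)
    obtain ⟨h5, h6, h7⟩ := hstep x w σ d h1 h3 h4 (hx d (by linarith))
    rw [hG1 _ _ _ h5 h6, hG1 _ _ _ h1 (by linarith), h7]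
    refine le_of_eq_of_le ?_ (hθ x hx d h4)
    congr 1
    ring
  have ha : ∀ σ, ∃ a : ℝ, ∀ x ∈ S.Ann σ s (4 * s), |G x - a| ≤ 40 * l / s := fun σ => by
    rcases (S.Ann σ s (4 * s)).eq_empty_or_nonempty with he | ⟨x₀, hx₀⟩
    · exact ⟨0, by simp [he]⟩
    have hσ : σ ∈ S.Sg := by
      obtain ⟨w, h1, -⟩ := hx₀
      exact h1.mem
    refine ⟨G x₀, fun x hx => ?_⟩
    have := hδ.osc (T := S.Ann σ s (4 * s)) (s := s / 4) (by positivity) (by linarith)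
      (by linarith) (fun q ⟨w, h1, h2, h3⟩ => hδ.mem_XR h1.1 (by linarith) (by linarith))
      (hδ.stepA hσ hs (by linarith) (by linarith) (by positivity)) (G := G) (ε := l * (s / 4))
      (by positivity) (fun q ⟨w, h1, h2, h3⟩ d hd _ =>
        (hGl q w σ d h1 h2 h3 hd).trans (mul_le_mul_of_nonneg_left hd.le hl)) x hx x₀ hx₀
    refine this.trans (le_of_eq ?_)
    field_simp
    ring
  choose a ha using ha
  set k : X → ℝ := fun x => if S.HitAt x (W x).1 (W x).2 ∧ ‖(W x).1‖ < 6 * s then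
    ψ x (W x).1 + κ * (W x).1.re - a (W x).2 - gapB_chi s ‖(W x).1‖ * (G x - a (W x).2)
    else if x ∈ S.Sg then -a x else θ x with hk
  have hk1 : ∀ x w σ, S.HitAt x w σ → ‖w‖ < 6 * s →
      k x = ψ x w + κ * w.re - a σ - gapB_chi s ‖w‖ * (G x - a σ) := fun x w σ h1 h2 => by
    simp only [hk, hW x w σ h1 h2, h1, h2, and_self, if_true]
  have hk2 : ∀ x ∈ S.Sg, k x = -a x := fun x hx => by
    simp only [hk]
    rw [if_neg fun h1 => h1.1.1.reg.1 hx, if_pos hx]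
  have hk3 : ∀ x ∈ S.XR (3 * s), k x = θ x := fun x hx => by
    by_cases h1 : S.HitAt x (W x).1 (W x).2 ∧ ‖(W x).1‖ < 6 * s
    · rw [hk1 x _ _ h1.1 h1.2, hG1 x _ _ h1.1 h1.2,
        gapB_chi_one hs (not_lt.1 fun h2 => h1.1.1.1 (hx _ h2))]
      ring
    · simp only [hk]
      rw [if_neg h1, if_neg (ok_zero.1 (hx 0 (by simpa using hs)))]
  have hl2 : 0 ≤ 40 * l / s ^ 2 := by positivity
  have main : ∀ x ∉ S.Sg, ∃ r > 0, ∀ d : ℂ, ‖d‖ < r → S.Ok x d ∧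
      |dl x d - (k (S.mv x d) - k x) - κ * d.re| ≤ (l + 40 * l / s ^ 2) * ‖d‖ := fun x hx => by
    by_cases h1 : x ∈ S.XR (7 * s / 2)
    · refine ⟨s / 4, by positivity, fun d hd => ⟨h1 d (by linarith), ?_⟩⟩
      rw [hk3 x fun y hy => h1 y (by linarith),
        hk3 _ fun y hy => XR_move h1 (d := d) (by linarith) y (by linarith)]
      refine (hθ x (fun y hy => h1 y (by linarith)) d hd).trans ?_
      exact mul_le_mul_of_nonneg_right (by linarith) (norm_nonneg _)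
    obtain ⟨w, σ, -, h2, h3⟩ := not_mem_XR hx h1
    obtain ⟨r, hr, h4⟩ := h3.nhds
    refine ⟨min r (s / 4), by positivity, fun d hd => ⟨(h4 d (lt_min_iff.1 hd).1).1, ?_⟩⟩
    have hd2 := (lt_min_iff.1 hd).2
    obtain ⟨h5, h6, h7⟩ := hstep x w σ d h3 (by linarith) hd2 (h4 d (lt_min_iff.1 hd).1).1
    rw [hk1 _ _ _ h5 h6, hk1 _ _ _ h3 (by linarith), h7]
    have h8 := norm_sub_le w d
    by_cases h9 : ‖w‖ ≤ 3 * s / 2
    · rw [gapB_chi_zero hs (r := ‖w‖) (by linarith), gapB_chi_zero hs (r := ‖w - d‖) (by linarith)]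
      refine le_of_eq_of_le (b := 0) (abs_eq_zero.2 (by ring)) (by positivity)
    have h10 := hGl x w σ d h3 (by linarith) (by linarith) hd2
    have h11 := ha σ x ⟨w, h3, by linarith, by linarith⟩
    have h12 : |gapB_chi s ‖w - d‖ - gapB_chi s ‖w‖| ≤ ‖d‖ / s := by
      refine (gapB_chi_lip hs _ _).trans (div_le_div_of_nonneg_right ?_ hs.le)
      simpa using abs_norm_sub_norm_le (w - d) w
    calc _ = |gapB_chi s ‖w - d‖ * (G (S.mv x d) - G x) +
          (gapB_chi s ‖w - d‖ - gapB_chi s ‖w‖) * (G x - a σ)| := by congr 1; ring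
      _ ≤ 1 * (l * ‖d‖) + ‖d‖ / s * (40 * l / s) := by
          refine (abs_add_le _ _).trans (add_le_add ?_ ?_) <;> rw [abs_mul]
          · exact mul_le_mul (gapB_chi_abs _ _) h10 (abs_nonneg _) zero_le_one
          · exact mul_le_mul h12 h11 (abs_nonneg _) (by positivity)
      _ = _ := by field_simp
  refine ⟨⟨k, continuous_iff_continuousAt.2 fun x => ?_⟩, main⟩
  by_cases hx : x ∈ S.Sg
  · rw [ContinuousAt, Metric.tendsto_nhds]
    intro η hη
    obtain ⟨r, hr, h1⟩ := hψ1 (η / 3) (by positivity)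
    have hκ : 0 < |κ| + 1 := by positivity
    filter_upwards [near_sing hx (r := min (min r s) (η / 3 / (|κ| + 1))) (by positivity)] with q hq
    rcases hq with rfl | ⟨y, h2, h3⟩
    · simpa using hη
    simp only [lt_min_iff] at h2
    rw [Real.dist_eq, hk1 q y x h3 (by linarith), hk2 x hx, gapB_chi_zero hs (by linarith)]
    have h4 := h1 q y h3.1 h2.1.1
    have h5 : |κ * y.re| ≤ η / 3 := by
      rw [abs_mul]
      have h6 := (lt_div_iff₀ hκ).1 h2.2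
      nlinarith [Complex.abs_re_le_norm y, abs_nonneg κ, abs_nonneg y.re, norm_nonneg y]
    calc _ = |ψ q y + κ * y.re| := by congr 1; ring
      _ < η := by linarith [abs_add_le (ψ q y) (κ * y.re)]
  · refine gapB_cont hx fun η hη => ?_
    obtain ⟨r, hr, h1⟩ := main x hx
    obtain ⟨r', hr', h2⟩ := h.small (η / 3) (by positivity)
    have hκ : 0 < l + 40 * l / s ^ 2 + |κ| + 1 := by positivity
    refine ⟨min (min r r') (η / 3 / (l + 40 * l / s ^ 2 + |κ| + 1)), by positivity, fun d hd => ?_⟩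
    simp only [lt_min_iff] at hd
    have h3 := abs_le.1 (h1 d hd.1.1).2
    have h4 := abs_le.1 (h2 x d hd.1.2)
    have h5 := (lt_div_iff₀ hκ).1 hd.2
    have h6 : |κ * d.re| ≤ |κ| * ‖d‖ := by
      rw [abs_mul]
      exact mul_le_mul_of_nonneg_left (Complex.abs_re_le_norm d) (abs_nonneg _)
    have h7 := abs_le.1 h6
    have h8 := norm_nonneg d
    rw [abs_lt]
    constructor <;> nlinarith

/-- a closed field is cohomologous to a nearly constant one -/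
theorem smooth_all {δ : ℝ} (hδ : 0 < δ) : ∃ C > 0, ∀ S : TS X μ, S.Thick δ → ∀ β ∈ S.Zset,
    ∀ ε : ℝ, 0 ≤ ε → (∀ e ∈ S.E, |∫ x, (β x).im * (e x).im ∂μ| ≤ ε * ‖e‖) →
    (∀ e ∈ S.E, |∫ x, (β x).im * (e x).re ∂μ| ≤ ε * ‖e‖) → ∫ x, (β x).re ^ 2 ∂μ ≤ ε ^ 2 →
    ∃ (κ : ℝ), ∃ e ∈ S.E, ∀ᵐ x ∂μ, ‖β x - e x - (κ : ℂ) * Complex.I‖ ≤ C * ε := by
  classical
  obtain ⟨s, hs, hs1, hsδ⟩ : ∃ s : ℝ, 0 < s ∧ s ≤ 1 ∧ 16 * s ≤ δ :=
    ⟨min (δ / 16) 1, by positivity, min_le_right _ _, by linarith [min_le_left (δ / 16) 1]⟩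
  obtain ⟨C, hC, H⟩ := smooth_thick (X := X) (μ := μ) hs hs1
  refine ⟨C + 40 * C / s ^ 2, by positivity, fun S hS β ⟨dl, h, hg⟩ ε hε h1 h2 h3 => ?_⟩
  obtain ⟨κ, θ, -, hθ⟩ := H S δ hsδ hS β dl h hg ε hε h1 h2 h3
  obtain ⟨k, hk⟩ := gapB_glue hS hs hs1 hsδ (l := C * ε) (by positivity) h hθ
  set c : X → ℂ → ℝ := fun x v => if S.Ok x v then wedge v (κ * Complex.I) else 0 with hc
  set dk : X → ℂ → ℝ := fun x v => k (S.mv x v) - k x with hdk
  have hc1 : S.Cocycle c := S.cocycle_const _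
  have hd' : S.Cocycle (dl + (-1 : ℝ) • dk + (-1 : ℝ) • c) :=
    (h.add ((S.cocycle_real k).smul _)).add (hc1.smul _)
  have hl : 0 ≤ C * ε + 40 * (C * ε) / s ^ 2 := by positivity
  obtain ⟨u, hu, hu'⟩ := hd'.grad_of_lip hl (hd'.lip_of_local hl fun x hx => by
    obtain ⟨r, hr, h4⟩ := hk x hx
    refine ⟨r, hr, fun d hd => le_of_eq_of_le ?_ (h4 d hd).2⟩
    congr 1
    simp [hc, hdk, (h4 d hd).1, wedge]
    ring)
  have hg' := hasGrad_add (h.add (hd'.smul (-1))) (hc1.smul (-1))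
    (hasGrad_add h (hd'.smul (-1)) hg (hasGrad_smul hu (-1)))
    (hasGrad_smul (S.hasGrad_const (κ * Complex.I)) (-1))
  have he : dl + (-1 : ℝ) • (dl + (-1 : ℝ) • dk + (-1 : ℝ) • c) + (-1 : ℝ) • c = dk := by
    funext x v
    simp only [Pi.add_apply, Pi.smul_apply, smul_eq_mul]
    ring
  rw [he] at hg'
  refine ⟨κ, _, Submodule.subset_span ⟨k, hg'⟩, ?_⟩
  filter_upwards [hu', Lp.coeFn_add (β + (-1 : ℝ) • u) ((-1 : ℝ) • Lp.const 2 μ (κ * Complex.I)),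
    Lp.coeFn_add β ((-1 : ℝ) • u), Lp.coeFn_smul (-1 : ℝ) u,
    Lp.coeFn_smul (-1 : ℝ) (Lp.const 2 μ ((κ : ℂ) * Complex.I)),
    Lp.coeFn_const 2 μ ((κ : ℂ) * Complex.I)] with x e0 e1 e2 e3 e4 e5
  rw [e1, Pi.add_apply, e2, Pi.add_apply, e3, e4, Pi.smul_apply, Pi.smul_apply, e5]
  refine le_of_eq_of_le ?_ (e0.1.trans (le_of_eq (by ring)))
  congr 1
  simp
  ring

end Pool.Agent.MP_d0b2d2_an.Gen.TS
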