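import Pool.Agent.MP_d0b2d2_an.Gen.Vol

open Set Filter Topology

namespace Pool.Agent.MP_d0b2d2_an.Gen

variable {H : Type} [NormedAddCommGroup H] [InnerProductSpace ℝ H] [CompleteSpace H]

theorem perp_inner (K : Submodule ℝ H) (v : H) {e : H} (he : e ∈ K) : inner ℝ e (perp K v) = 0 :=
  Submodule.inner_right_of_mem_orthogonal he (K.orthogonal.starProjection_apply_mem v)

theorem perp_of_mem (K : Submodule ℝ H) {e : H} (he : e ∈ K) : perp K e = 0 :=
  (Submodule.starProjection_apply_eq_zero_iff _).2 (K.le_orthogonal_orthogonal he)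

theorem norm_perp_le (K : Submodule ℝ H) (v : H) {e : H} (he : e ∈ K) :
    ‖perp K v‖ ≤ ‖v - e‖ := by
  have : ‖perp K (v - e)‖ ≤ ‖v - e‖ := K.orthogonal.norm_starProjection_apply_le (v - e)
  rwa [map_sub, perp_of_mem K he, sub_zero] at this

theorem perp_approx (K : Submodule ℝ H) (v : H) {η : ℝ} (hη : 0 < η) :
    ∃ e ∈ K, ‖v - e - perp K v‖ < η := by
  have h : v - perp K v ∈ K.orthogonal.orthogonal :=
    K.orthogonal.sub_starProjection_mem_orthogonal v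
  rw [Submodule.orthogonal_orthogonal_eq_closure, ← SetLike.mem_coe,
    Submodule.topologicalClosure_coe, Metric.mem_closure_iff] at h
  obtain ⟨e, he, h⟩ := h η hη
  exact ⟨e, he, by rwa [dist_eq_norm, sub_right_comm] at h⟩

theorem perp_of_orth (K : Submodule ℝ H) {v : H} (h : ∀ e ∈ K, inner ℝ e v = 0) : perp K v = v :=
  Submodule.starProjection_eq_self_iff.2 ((Submodule.mem_orthogonal K v).2 h)

namespace Act

variable (a : Act H) (E : Submodule ℝ H)

omit [CompleteSpace H] in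
theorem Om_ac {g : ℂ →L[ℝ] ℂ} (hg : Sl g) (u v : H) : a.Om (a.ac g u) (a.ac g v) = a.Om u v := by
  have h1 : ∀ y y', dot (ContinuousLinearMap.adjoint g y) y' = dot y (g y') := fun y y' => by
    rw [← inner_eq_dot, ← inner_eq_dot, ContinuousLinearMap.adjoint_inner_left]
  have h2 : (ContinuousLinearMap.adjoint g).comp (rotJ.comp g) = rotJ := by
    refine ContinuousLinearMap.ext fun y => ext_inner_right ℝ fun y' => ?_
    have := hg y y'
    rw [inner_eq_dot, inner_eq_dot, ContinuousLinearMap.comp_apply, h1]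
    simp only [wedge, dot, ContinuousLinearMap.comp_apply, rotJ_apply, Complex.mul_re,
      Complex.mul_im, Complex.I_re, Complex.I_im] at this ⊢
    linarith
  rw [Om, Om, ← a.ac_adj _ g h1, ← a.ac_comp, ← a.ac_comp, ContinuousLinearMap.comp_assoc, h2]

theorem norm_hA_le (g g' : ℂ →L[ℝ] ℂ) {l : ℝ} (hl : 0 ≤ l) (h : ∀ y, ‖g' y‖ ≤ l * ‖g y‖) (u : H) :
    ‖a.hA E g' u‖ ≤ l * ‖a.hA E g u‖ := by
  refine le_of_forall_pos_le_add fun η hη => ?_
  obtain ⟨_, ⟨e, he, rfl⟩, h1⟩ := perp_approx (E.map (a.ac g : H →ₗ[ℝ] H)) (a.ac g u)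
    (show 0 < η / (l + 1) by positivity)
  have h2 : ‖a.hA E g' u‖ ≤ ‖a.ac g' u - a.ac g' e‖ := norm_perp_le _ _ ⟨e, he, rfl⟩
  have h3 := a.ac_le g g' l hl h (u - e)
  have h4 : ‖a.ac g u - a.ac g e‖ ≤ ‖a.hA E g u‖ + η / (l + 1) :=
    (norm_le_norm_add_norm_sub' _ _).trans (add_le_add le_rfl h1.le)
  have h5 : l * (η / (l + 1)) ≤ η := by
    rw [mul_div_assoc', div_le_iff₀ (by positivity)]
    linarith
  rw [map_sub, map_sub] at h3
  nlinarith

theorem hA_comp (g h : ℂ →L[ℝ] ℂ) (u : H) :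
    a.hA E (h.comp g) u = a.hA (E.map (a.ac g : H →ₗ[ℝ] H)) h (a.ac g u) := by
  have : (a.ac (h.comp g) : H →ₗ[ℝ] H) = (a.ac h : H →ₗ[ℝ] H).comp (a.ac g : H →ₗ[ℝ] H) :=
    LinearMap.ext fun v => a.ac_comp h g v
  simp only [hA, ContinuousLinearMap.comp_apply]
  rw [this, Submodule.map_comp, a.ac_comp]

theorem norm_hA_comp_le (g h : ℂ →L[ℝ] ℂ) (u : H) :
    ‖a.hA E (h.comp g) u‖ ≤ ‖a.ac h (a.hA E g u)‖ := by
  refine le_of_forall_pos_le_add fun η hη => ?_
  obtain ⟨e, he, h1⟩ := perp_approx (E.map (a.ac g : H →ₗ[ℝ] H)) (a.ac g u)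
    (show 0 < η / (‖a.ac h‖ + 1) by positivity)
  have h2 : ‖a.hA (E.map (a.ac g : H →ₗ[ℝ] H)) h (a.ac g u)‖ ≤ ‖a.ac h (a.ac g u) - a.ac h e‖ :=
    norm_perp_le _ _ ⟨e, he, rfl⟩
  have h3 := (a.ac h).le_opNorm (a.ac g u - e - a.hA E g u)
  have h4 := norm_le_norm_add_norm_sub' (a.ac h (a.ac g u) - a.ac h e) (a.ac h (a.hA E g u))
  have h5 : ‖a.ac h‖ * (η / (‖a.ac h‖ + 1)) ≤ η := by
    rw [mul_div_assoc', div_le_iff₀ (by positivity)]
    linarith
  have h6 : ‖a.ac h‖ * ‖a.ac g u - e - a.hA E g u‖ ≤ ‖a.ac h‖ * (η / (‖a.ac h‖ + 1)) :=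
    mul_le_mul_of_nonneg_left h1.le (norm_nonneg _)
  rw [map_sub, map_sub] at h3
  rw [hA_comp]
  linarith

/-- the Gram determinant of a family of classes -/
noncomputable def gd {m : ℕ} (v : Fin m → H) (c : Fin m → ℝ) (g : ℂ →L[ℝ] ℂ) : ℝ :=
  (Matrix.of fun i j => inner ℝ (a.hA E g (v i)) (a.hA E g (v j)) + c i * c j).det

theorem HA_gd_eq {m : ℕ} (v : Fin m → H) (c : Fin m → ℝ) (g : ℂ →L[ℝ] ℂ) :
    a.gd E v c g = vol (fun i => WithLp.toLp 2 (a.hA E g (v i), c i)) ^ 2 := by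
  rw [vol_sq, gd]
  congr 1
  ext i j
  simp [mul_comm]

theorem gd_nonneg {m : ℕ} (v : Fin m → H) (c : Fin m → ℝ) (g : ℂ →L[ℝ] ℂ) :
    0 ≤ a.gd E v c g := by
  rw [HA_gd_eq]
  positivity

theorem gd_le {m : ℕ} (v : Fin m → H) (c : Fin m → ℝ) (g g' : ℂ →L[ℝ] ℂ) {l : ℝ} (hl : 1 ≤ l)
    (h : ∀ y, ‖g' y‖ ≤ l * ‖g y‖) : a.gd E v c g' ≤ l ^ (2 * m) * a.gd E v c g := by
  have hl0 : 0 ≤ l := by linarith
  have key : ∀ (g : ℂ →L[ℝ] ℂ) (x : Fin m → ℝ),
      ‖∑ i, x i • WithLp.toLp 2 (a.hA E g (v i), c i)‖ ^ 2 =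
        ‖a.hA E g (∑ i, x i • v i)‖ ^ 2 + (∑ i, x i * c i) ^ 2 := by
    intro g x
    rw [WithLp.prod_norm_sq_eq_of_L2]
    simp [WithLp.fst, WithLp.snd, Prod.fst_sum, Prod.snd_sum]
  have h1 := vol_le_of_norm_le (fun i => WithLp.toLp 2 (a.hA E g' (v i), c i))
    (fun i => WithLp.toLp 2 (a.hA E g (v i), c i)) hl0 fun x => by
      refine (pow_le_pow_iff_left₀ (norm_nonneg _) (by positivity) two_ne_zero).1 ?_
      rw [mul_pow, key, key, mul_add]
      refine add_le_add ?_ (le_mul_of_one_le_left (sq_nonneg _) (one_le_pow₀ hl))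
      rw [← mul_pow]
      exact pow_le_pow_left₀ (norm_nonneg _) (a.norm_hA_le E g g' hl0 h _) 2
  rw [HA_gd_eq, HA_gd_eq, mul_comm 2, pow_mul, ← mul_pow]
  rw [Fintype.card_fin] at h1
  exact pow_le_pow_left₀ (vol_nonneg _) h1 2

end Act

theorem HA_log_ge {y : ℝ} (h : |y| ≤ 1 / 2) : y - y ^ 2 / 2 - 2 * |y| ^ 3 ≤ Real.log (1 + y) := by
  have h1 := Real.abs_log_sub_add_sum_range_le (x := -y) (by rw [abs_neg]; linarith) 2
  have h2 : |y| ^ 3 / (1 - |y|) ≤ 2 * |y| ^ 3 := by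
    rw [div_le_iff₀ (by linarith)]
    have : 0 ≤ |y| ^ 3 := by positivity
    nlinarith
  have h3 := (abs_le.1 h1).1
  simp only [Finset.sum_range_succ, Finset.sum_range_zero, abs_neg, sub_neg_eq_add] at h3
  norm_num at h3
  linarith

/-- second order lower bound for the logarithm of a determinant -/
theorem log_det_ge (m : ℕ) : ∃ C ≥ (0 : ℝ), ∃ t₀ > (0 : ℝ), ∀ (Y : Matrix (Fin m) (Fin m) ℝ)
    (t : ℝ), Y.IsSymm → 0 < t → t ≤ t₀ → (∀ i j, |Y i j| ≤ 10 * t) →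
    0 < (1 + Y).det ∧
      Y.trace - (1 / 2) * ∑ i, ∑ j, Y i j ^ 2 - C * t ^ 3 ≤ Real.log (1 + Y).det := by
  refine ⟨m * (2 * (10 * m) ^ 3), by positivity, 1 / (20 * (m + 1)), by positivity,
    fun Y t hY ht ht0 hb => ?_⟩
  have hH : Y.IsHermitian := Matrix.isHermitian_iff_isSymm.2 hY
  set y := hH.eigenvalues with hy
  have hs := hH.spectral_theorem
  rw [Unitary.conjStarAlgAut_apply] at hs
  set U : Matrix (Fin m) (Fin m) ℝ := hH.eigenvectorUnitary.1 with hU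
  have hU1 : star U * U = 1 := Unitary.coe_star_mul_self _
  have hU2 : U * star U = 1 := Unitary.coe_mul_star_self _
  have hs' : Y = U * Matrix.diagonal y * star U := hs
  have h1 : Y.trace = ∑ i, y i := hH.trace_eq_sum_eigenvalues
  have h2 : ∑ i, ∑ j, Y i j ^ 2 = ∑ i, y i ^ 2 := by
    have e1 : (Y * Y).trace = ∑ i, ∑ j, Y i j ^ 2 := by
      simp only [Matrix.trace, Matrix.diag, Matrix.mul_apply, sq]
      exact Finset.sum_congr rfl fun i _ => Finset.sum_congr rfl fun j _ => by rw [hY.apply]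
    have e2 : Y * Y = U * (Matrix.diagonal y * Matrix.diagonal y * star U) := by
      calc Y * Y = (U * Matrix.diagonal y * star U) * (U * Matrix.diagonal y * star U) := by
            rw [← hs']
        _ = U * Matrix.diagonal y * (star U * U) * Matrix.diagonal y * star U := by
            simp only [mul_assoc]
        _ = _ := by rw [hU1]; simp only [mul_assoc, mul_one]
    rw [← e1, e2, Matrix.trace_mul_comm, mul_assoc, hU1, mul_one, Matrix.diagonal_mul_diagonal,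
      Matrix.trace_diagonal]
    simp only [sq]
  have h3 : (1 + Y).det = ∏ i, (1 + y i) := by
    have e : 1 + Y = U * (Matrix.diagonal (fun i => 1 + y i) * star U) := by
      rw [← Matrix.diagonal_add, Matrix.diagonal_one, add_mul, mul_add, one_mul, hU2, ← mul_assoc,
        ← hs']
    rw [e, Matrix.det_mul_comm, mul_assoc, hU1, mul_one, Matrix.det_diagonal]
  have h4 : ∀ i, |y i| ≤ 10 * m * t := by
    intro i
    refine abs_le_of_sq_le_sq' ?_ (by positivity) |> abs_le.2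
    calc _ ≤ ∑ i, y i ^ 2 :=
          Finset.single_le_sum (f := fun i => y i ^ 2) (fun _ _ => sq_nonneg _) (Finset.mem_univ i)
      _ ≤ ∑ _i : Fin m, ∑ _j : Fin m, (10 * t) ^ 2 := by
          rw [← h2]
          exact Finset.sum_le_sum fun i _ => Finset.sum_le_sum fun j _ =>
            sq_le_sq' (abs_le.1 (hb i j)).1 (abs_le.1 (hb i j)).2
      _ = _ := by simp; ring
  have h5 : ∀ i, |y i| ≤ 1 / 2 := fun i => (h4 i).trans (by
    rw [le_div_iff₀ (by positivity)] at ht0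
    nlinarith)
  have h6 : ∀ i, 0 < 1 + y i := fun i => by linarith [(abs_le.1 (h5 i)).1]
  refine ⟨h3 ▸ Finset.prod_pos fun i _ => h6 i, ?_⟩
  rw [h1, h2, h3, Real.log_prod fun i _ => (h6 i).ne']
  calc _ = ∑ i, (y i - y i ^ 2 / 2 - 2 * (10 * m * t) ^ 3) := by
        simp only [Finset.sum_sub_distrib, ← Finset.sum_div, Finset.sum_const, Finset.card_univ,
          Fintype.card_fin, nsmul_eq_mul]
        ring
    _ ≤ _ := Finset.sum_le_sum fun i _ => le_trans (by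
        have := pow_le_pow_left₀ (abs_nonneg _) (h4 i) 3
        linarith) (HA_log_ge (h5 i))

end Pool.Agent.MP_d0b2d2_an.Gen
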