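import Pool.Agent.MP_d0b2d2_an.Gen.GapB
import Pool.Agent.MP_d0b2d2_an.Gen.HA

open MeasureTheory Set Filter Topology Metric
open scoped ENNReal

namespace Pool.Agent.MP_d0b2d2_an.Gen.TS

section Parts

variable {X : Type} [MeasurableSpace X] {μ : Measure X}

/-- the real part of a field -/
noncomputable def gapC_re (μ : Measure X) : Lp ℂ 2 μ →L[ℝ] Lp ℝ 2 μ := Complex.reCLM.compLpL 2 μ

/-- the imaginary part of a field -/
noncomputable def gapC_im (μ : Measure X) : Lp ℂ 2 μ →L[ℝ] Lp ℝ 2 μ := Complex.imCLM.compLpL 2 μ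

lemma gapC_re_ae (u : Lp ℂ 2 μ) : gapC_re μ u =ᵐ[μ] fun x => (u x).re :=
  ContinuousLinearMap.coeFn_compLpL _ u

lemma gapC_im_ae (u : Lp ℂ 2 μ) : gapC_im μ u =ᵐ[μ] fun x => (u x).im :=
  ContinuousLinearMap.coeFn_compLpL _ u

lemma gapC_inner {a b : Lp ℝ 2 μ} {f g : X → ℝ} (ha : a =ᵐ[μ] f) (hb : b =ᵐ[μ] g) :
    inner ℝ a b = ∫ x, f x * g x ∂μ := by
  rw [L2.inner_def]
  refine integral_congr_ae ?_
  filter_upwards [ha, hb] with x h1 h2
  simp [h1, h2, mul_comm]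

lemma gapC_split (u v : Lp ℂ 2 μ) :
    inner ℝ u v = inner ℝ (gapC_re μ u) (gapC_re μ v) + inner ℝ (gapC_im μ u) (gapC_im μ v) := by
  rw [L2.inner_def, L2.inner_def, L2.inner_def,
    ← integral_add (L2.integrable_inner _ _) (L2.integrable_inner _ _)]
  refine integral_congr_ae ?_
  filter_upwards [gapC_re_ae u, gapC_re_ae v, gapC_im_ae u, gapC_im_ae v] with x h1 h2 h3 h4
  rw [inner_eq_dot, h1, h2, h3, h4]
  simp [dot]
  ring

lemma gapC_Om (u v : Lp ℂ 2 μ) : (lpAct μ).Om u v =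
    inner ℝ (gapC_re μ u) (gapC_im μ v) - inner ℝ (gapC_im μ u) (gapC_re μ v) := by
  rw [lpAct_Om, L2.inner_def, L2.inner_def,
    ← integral_sub (L2.integrable_inner _ _) (L2.integrable_inner _ _)]
  refine integral_congr_ae ?_
  filter_upwards [gapC_re_ae u, gapC_re_ae v, gapC_im_ae u, gapC_im_ae v] with x h1 h2 h3 h4
  rw [h1, h2, h3, h4]
  simp [wedge]
  ring

lemma gapC_sq (u : Lp ℂ 2 μ) : ‖u‖ ^ 2 = ‖gapC_re μ u‖ ^ 2 + ‖gapC_im μ u‖ ^ 2 := by
  simp only [← real_inner_self_eq_norm_sq]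
  exact gapC_split u u

lemma gapC_re_le (u : Lp ℂ 2 μ) : ‖gapC_re μ u‖ ≤ ‖u‖ :=
  abs_le_of_sq_le_sq' (by rw [gapC_sq u]; linarith [sq_nonneg ‖gapC_im μ u‖]) (norm_nonneg _) |>.2

lemma gapC_im_le (u : Lp ℂ 2 μ) : ‖gapC_im μ u‖ ≤ ‖u‖ :=
  abs_le_of_sq_le_sq' (by rw [gapC_sq u]; linarith [sq_nonneg ‖gapC_re μ u‖]) (norm_nonneg _) |>.2

lemma gapC_zm (u : Lp ℂ 2 μ) : ‖(lpAct μ).ac ((zm 0 1).symm : ℂ →L[ℝ] ℂ) u‖ ^ 2 =
    ‖gapC_re μ u‖ ^ 2 / 4 + 4 * ‖gapC_im μ u‖ ^ 2 := by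
  have h1 : gapC_re μ ((lpAct μ).ac ((zm 0 1).symm : ℂ →L[ℝ] ℂ) u) = (1 / 2 : ℝ) • gapC_re μ u := by
    refine Lp.ext ?_
    filter_upwards [gapC_re_ae ((lpAct μ).ac ((zm 0 1).symm : ℂ →L[ℝ] ℂ) u),
      lpAct_ae ((zm 0 1).symm : ℂ →L[ℝ] ℂ) u, Lp.coeFn_smul (1 / 2 : ℝ) (gapC_re μ u),
      gapC_re_ae u] with x e1 e2 e3 e4
    rw [e1, e2, e3, Pi.smul_apply, e4]
    simp
    ring
  have h2 : gapC_im μ ((lpAct μ).ac ((zm 0 1).symm : ℂ →L[ℝ] ℂ) u) = (2 : ℝ) • gapC_im μ u := by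
    refine Lp.ext ?_
    filter_upwards [gapC_im_ae ((lpAct μ).ac ((zm 0 1).symm : ℂ →L[ℝ] ℂ) u),
      lpAct_ae ((zm 0 1).symm : ℂ →L[ℝ] ℂ) u, Lp.coeFn_smul (2 : ℝ) (gapC_im μ u),
      gapC_im_ae u] with x e1 e2 e3 e4
    rw [e1, e2, e3, Pi.smul_apply, e4]
    simp
  rw [gapC_sq, h1, h2, norm_smul, norm_smul]
  norm_num
  ring

end Parts

variable {X : Type} [TopologicalSpace X] [T2Space X] [CompactSpace X] [MeasurableSpace X]
  [BorelSpace X] [SecondCountableTopology X] {μ : Measure X} [IsProbabilityMeasure μ]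

/-- the harmonic representative is controlled by its real part -/
lemma gapC_bound {δ : ℝ} (hδ : 0 < δ) : ∃ C > 0, ∀ S : TS X μ, S.Thick δ →
    ∀ u ∈ S.Zset, ∫ x, u x ∂μ = 0 → ‖perp S.E u‖ ≤ C * ‖gapC_re μ (perp S.E u)‖ := by
  obtain ⟨C, hC, H⟩ := smooth_all (X := X) (μ := μ) hδ
  refine ⟨2 * C, by positivity, fun S hS u hu hm => ?_⟩
  refine le_of_forall_pos_le_add fun η₀ hη₀ => ?_
  obtain ⟨η, hη, rfl⟩ : ∃ η > 0, η₀ = 2 * C * η := ⟨η₀ / (2 * C), by positivity, by field_simp⟩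
  obtain ⟨e₀, he₀, h0⟩ := perp_approx S.E u hη
  set β := perp S.E u with hβ
  set b := ‖gapC_re μ β‖ with hb
  have hb0 : 0 ≤ b := norm_nonneg _
  have hZ : u - e₀ ∈ S.Zset := by
    have := Zset_add hu (Zset_smul (S.Iset_subset_Zset (S.Eset_subset_Iset (mem_E.1 he₀))) (-1))
    rwa [neg_one_smul, ← sub_eq_add_neg] at this
  have hr : ‖gapC_re μ (u - e₀)‖ ≤ b + η := by
    have h1 : gapC_re μ (u - e₀) = gapC_re μ β + gapC_re μ (u - e₀ - β) := by
      rw [← map_add]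
      congr 1
      abel
    rw [h1]
    exact (norm_add_le _ _).trans (by linarith [gapC_re_le (u - e₀ - β)])
  obtain ⟨κ, e, he, h1⟩ := H S hS _ hZ (b + η) (by positivity) (fun e he => by
      rw [← gapC_inner (gapC_im_ae _) (gapC_im_ae _)]
      have h1 : gapC_im μ (u - e₀) = gapC_im μ β + gapC_im μ (u - e₀ - β) := by
        rw [← map_add]
        congr 1
        abel
      have h2 := perp_inner S.E u he
      rw [real_inner_comm, gapC_split, ← hβ] at h2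
      have h3 := abs_real_inner_le_norm (gapC_re μ β) (gapC_re μ e)
      have h4 := abs_real_inner_le_norm (gapC_im μ (u - e₀ - β)) (gapC_im μ e)
      rw [h1, inner_add_left, show inner ℝ (gapC_im μ β) (gapC_im μ e) =
        -inner ℝ (gapC_re μ β) (gapC_re μ e) by linarith]
      refine (abs_add_le _ _).trans ?_
      rw [abs_neg, add_mul]
      exact add_le_add (h3.trans (mul_le_mul_of_nonneg_left (gapC_re_le e) hb0))
        (h4.trans (mul_le_mul ((gapC_im_le _).trans h0.le) (gapC_im_le e) (norm_nonneg _) hη.le)))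
    (fun e he => by
      rw [← gapC_inner (gapC_im_ae _) (gapC_re_ae _)]
      have h2 := closed hZ he
      rw [gapC_Om, sub_eq_zero] at h2
      rw [← h2]
      exact (abs_real_inner_le_norm _ _).trans
        (mul_le_mul hr (gapC_im_le e) (norm_nonneg _) (by positivity)))
    (by
      simp only [sq (Complex.re _)]
      rw [← gapC_inner (gapC_re_ae _) (gapC_re_ae _), real_inner_self_eq_norm_sq]
      exact pow_le_pow_left₀ (norm_nonneg _) hr 2)
  have hi : ∀ v : Lp ℂ 2 μ, Integrable v μ := fun v => (Lp.memLp v).integrable (by norm_num)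
  have hm' : ∫ x, (u - e₀) x ∂μ = 0 := by
    rw [integral_congr_ae (Lp.coeFn_sub u e₀)]
    simp only [Pi.sub_apply]
    rw [integral_sub (hi _) (hi _), hm, mean_E he₀, sub_zero]
  have hκ : |κ| ≤ C * (b + η) := by
    have h2 := norm_integral_le_of_norm_le_const h1
    rw [integral_sub (f := fun x => (u - e₀) x - e x) ((hi _).sub (hi _)) (integrable_const _),
      integral_sub (hi _) (hi _), hm',
      mean_E he] at h2
    simpa using h2
  have h2 : ‖u - e₀ - e‖ ≤ 2 * C * (b + η) := by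
    have := Lp.norm_le_of_ae_bound (f := u - e₀ - e) (C := 2 * C * (b + η)) (by positivity) (by
      filter_upwards [h1, Lp.coeFn_sub (u - e₀) e] with x h3 h4
      rw [h4, Pi.sub_apply]
      have := norm_add_le ((u - e₀) x - e x - (κ : ℂ) * Complex.I) ((κ : ℂ) * Complex.I)
      rw [sub_add_cancel] at this
      simp only [norm_mul, Complex.norm_real, Real.norm_eq_abs, Complex.norm_I, mul_one] at this
      linarith)
    simpa [measureUnivNNReal] using this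
  have h3 := norm_perp_le S.E u (S.E.add_mem he₀ he)
  rw [← sub_sub] at h3
  linarith

/-- the spectral gap on thick surfaces -/
theorem gap {δ : ℝ} (hδ : 0 < δ) : ∃ κ : ℝ, 0 < κ ∧ κ < 1 ∧ ∀ S : TS X μ, S.Thick δ →
    ∀ u ∈ S.Zset, ∫ x, u x ∂μ = 0 →
    ‖(lpAct μ).ac ((zm 0 1).symm : ℂ →L[ℝ] ℂ) (perp S.E u)‖ ≤ 2 * κ * ‖perp S.E u‖ := by
  obtain ⟨C, hC, H⟩ := gapC_bound (X := X) (μ := μ) hδ
  obtain ⟨c, hc, hc1, hc2⟩ : ∃ c : ℝ, 0 < c ∧ c ≤ 1 / 4 ∧ 4 * c * C ^ 2 ≤ 1 :=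
    ⟨1 / (4 * (C ^ 2 + 1)), by positivity,
      one_div_le_one_div_of_le (by norm_num) (by nlinarith [sq_nonneg C]), by
        rw [← sub_nonneg]
        have : 1 - 4 * (1 / (4 * (C ^ 2 + 1))) * C ^ 2 = 1 / (C ^ 2 + 1) := by
          field_simp
          ring
        rw [this]
        positivity⟩
  refine ⟨1 - c, by linarith, by linarith, fun S hS u hu hm => ?_⟩
  have h1 := H S hS u hu hm
  refine (abs_le_of_sq_le_sq' ?_ (mul_nonneg (by linarith) (norm_nonneg _))).2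
  have h2 := gapC_sq (perp S.E u)
  have h3 : ‖perp S.E u‖ ^ 2 ≤ C ^ 2 * ‖gapC_re μ (perp S.E u)‖ ^ 2 := by
    rw [← mul_pow]
    exact pow_le_pow_left₀ (norm_nonneg _) h1 2
  rw [gapC_zm, mul_pow]
  generalize ‖perp S.E u‖ ^ 2 = A at *
  have h4 := sq_nonneg ‖gapC_re μ (perp S.E u)‖
  have h5 := sq_nonneg ‖gapC_im μ (perp S.E u)‖
  generalize ‖gapC_re μ (perp S.E u)‖ ^ 2 = B at *
  generalize ‖gapC_im μ (perp S.E u)‖ ^ 2 = B' at *
  have h6 : 4 * c * A ≤ B := by nlinarith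
  have h7 : 0 ≤ c ^ 2 * A := by rw [h2]; positivity
  nlinarith

end Pool.Agent.MP_d0b2d2_an.Gen.TS
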