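import Pool.Agent.MP_d0b2d2_an.Gen.RDefs
import Pool.Agent.MP_d0b2d2_an.Gen.Dens

open Set Filter Topology

namespace Pool.Agent.MP_d0b2d2_an.Gen.ResData

variable {ρ : ℕ} {V : Type} [NormedAddCommGroup V] [InnerProductSpace ℝ V] (D : ResData ρ V)

/-- the base volume rarely drops -/
theorem om_drop : ∃ C ≥ (1 : ℝ), ∀ m ≤ ρ + 1, ∀ (w : Fin m → Fin ρ → ℝ) (c : Fin m → ℝ)
    (κ₀ σ₀ : ℝ) (k B : ℕ) (κ E : ℝ), 0 < κ₀ → 0 < κ → κ ≤ 1 →
    dens B (fun τ => D.om w c κ₀ (σ₀ + τ / 4 ^ k) (k + B) < Real.exp (-E) * D.om w c κ₀ σ₀ k) ≤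
      C * Real.exp (C * κ ^ 2 * B - 2 * κ * E) := by
  choose Cf h1 hC using D.nc
  have hle : ∀ m ≤ ρ + 1, Cf m ≤ ∑ i ∈ Finset.range (ρ + 2), Cf i := fun m hm =>
    Finset.single_le_sum (fun i _ => zero_le_one.trans (h1 i)) (Finset.mem_range.2 (by omega))
  refine ⟨_, (h1 0).trans (hle 0 (Nat.zero_le _)), fun m hm w c κ₀ σ₀ k B κ E h₀ hκ hκ1 => ?_⟩
  have hC0 := zero_le_one.trans (h1 m)
  have hm' := hle m hm
  refine le_trans (b := Cf m * Real.exp (Cf m * κ ^ 2 * B - 2 * κ * E)) ?_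
    (by have := hC0.trans hm'; gcongr)
  by_cases hg : gramD D.hol D.A w 0 c σ₀ k ≤ 0
  · rw [dens_false fun j _ => ?_]
    · positivity
    · simp only [om, Real.sqrt_eq_zero'.2 hg, mul_zero, not_lt]
      positivity
  push Not at hg
  obtain ⟨hp, hs⟩ := hC m w 0 c σ₀ k B κ hκ hκ1 hg
  set g := gramD D.hol D.A w 0 c σ₀ k
  have ht : 0 < (Real.exp (-E) ^ 2 * g) ^ (-κ) := by positivity
  refine le_trans (dens_mono fun j _ h => ?_) ((dens_markov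
    (f := fun τ => gramD D.hol D.A w 0 c (σ₀ + τ / 4 ^ k) (k + B) ^ (-κ))
    (fun τ => (Real.rpow_pos_of_pos (hp τ) _).le) ht hs).trans (le_of_eq ?_))
  · refine Real.rpow_le_rpow_of_nonpos (hp _) ?_ (by linarith)
    simp only [om] at h
    rw [mul_left_comm] at h
    have h' := (lt_of_mul_lt_mul_left h h₀.le).le
    rwa [Real.sqrt_le_left (by positivity), mul_pow, Real.sq_sqrt hg.le] at h'
  · have := Real.rpow_pos_of_pos hg (-κ)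
    rw [Real.mul_rpow (by positivity) hg.le, ← Real.exp_nat_mul, ← Real.exp_mul, Real.exp_sub,
      show ((2 : ℕ) : ℝ) * -E * -κ = 2 * κ * E by push_cast; ring]
    field_simp

/-- growth when the holonomy has rank one -/
theorem grow1 (σ₀ : ℝ) (k B : ℕ) {y : ℂ} {δ η : ℝ} (hδ : 0 < δ) (hη : 0 < η)
    (hy : δ ≤ ‖zm σ₀ k y‖) :
    dens B (fun τ => ‖zm (σ₀ + τ / 4 ^ k) (k + B) y‖ < 2 ^ B * (δ * η)) ≤ 8 * η + 1 / 4 ^ B := by
  set z := zm σ₀ k y with hz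
  refine le_trans (dens_mono fun j _ h => ?_) (dens_lin B (cc := ⟨-z.im, z.re⟩) hδ hη (hy.trans ?_))
  · rw [zm_add, ← hz] at h
    have h' := (Complex.abs_re_le_norm _).trans_lt h
    rw [zm_re, abs_mul, abs_of_pos (by positivity : (0 : ℝ) < 2 ^ B)] at h'
    refine le_trans (le_of_eq ?_) (lt_of_mul_lt_mul_left h' (by positivity)).le
    generalize (j : ℝ) / 4 ^ B = τ
    congr 1
    simp only [dot, Complex.add_re, Complex.ofReal_re, Complex.I_re, Complex.add_im,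
      Complex.ofReal_im, Complex.I_im]
    ring
  · refine (abs_le_of_sq_le_sq' (le_of_eq ?_) (norm_nonneg _)).2
    rw [dens_norm_sq, dens_norm_sq]
    ring

theorem grow_RR {σ₀ τ κ b ξ r : ℝ} {k B : ℕ} (h0 : 0 ≤ τ) (h1 : τ ≤ 1) (hκ : κ ≤ 1 / 2)
    (hG : D.GapAt κ (σ₀ + τ / 4 ^ k) k B) {x : Fin (ρ + 1) → ℝ} {t : ℝ}
    (h : D.RR (σ₀ + τ / 4 ^ k) (k + B) b t ξ x < Real.exp (κ * B) * r / 2 ^ (k + B)) :
    D.RR σ₀ k b t ξ x ≤ 2 * r / 2 ^ k := by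
  have hs : |σ₀ - (σ₀ + τ / 4 ^ k)| ≤ 1 / 4 ^ k := by
    rw [sub_add_cancel_left, abs_neg, abs_of_nonneg (by positivity)]
    gcongr
  have h₁ := D.lipS _ _ k (tl ρ x) hs
  have h₂ := hG (tl ρ x)
  have he : Real.exp (κ * B) ≤ 2 ^ B := by
    rw [mul_comm, Real.exp_nat_mul]
    gcongr
    have h₃ : Real.exp κ ≤ Real.exp (1 / 2) := Real.exp_le_exp.2 hκ
    have h₄ : Real.exp (1 / 2) ^ 2 = Real.exp 1 := by rw [← Real.exp_nat_mul]; norm_num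
    have h₅ := Real.exp_one_lt_d9
    nlinarith [Real.exp_pos (1 / 2)]
  have he0 := Real.exp_pos (κ * B)
  have h2 : (0 : ℝ) < 2 ^ B := by positivity
  set e := Real.exp (κ * B)
  have h₃ : e * D.RR σ₀ k b t ξ x ≤ 2 * (2 ^ B * D.RR (σ₀ + τ / 4 ^ k) (k + B) b t ξ x) := by
    unfold RR
    generalize b * D.ell t ξ x = l
    refine (abs_le_of_sq_le_sq' ?_ (by positivity)).2
    rw [mul_pow, mul_pow, mul_pow, Real.sq_sqrt (by positivity), Real.sq_sqrt (by positivity)]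
    have a₁ : e * ‖D.A σ₀ k (tl ρ x)‖ ≤ 2 * (2 ^ B * ‖D.A (σ₀ + τ / 4 ^ k) (k + B) (tl ρ x)‖) := by
      nlinarith [mul_le_mul_of_nonneg_left h₁ he0.le]
    have a₂ := pow_le_pow_left₀ (by positivity) a₁ 2
    have a₃ := mul_le_mul_of_nonneg_right (pow_le_pow_left₀ he0.le he 2) (sq_nonneg l)
    have a₄ : 0 ≤ ((2 : ℝ) ^ B) ^ 2 * l ^ 2 := by positivity
    nlinarith
  rw [pow_add, lt_div_iff₀ (by positivity)] at h
  rw [le_div_iff₀ (by positivity)]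
  refine le_of_mul_le_mul_left ?_ he0
  nlinarith [mul_le_mul_of_nonneg_right h₃ (by positivity : (0 : ℝ) ≤ 2 ^ k)]

theorem grow_tri (a c c' : ℝ) : √(a ^ 2 + c ^ 2) ≤ √(a ^ 2 + c' ^ 2) + |c - c'| := by
  have h := Real.sq_sqrt (x := a ^ 2 + c' ^ 2) (by positivity)
  have h₁ : |c'| ≤ √(a ^ 2 + c' ^ 2) := Real.abs_le_sqrt (by nlinarith)
  rw [Real.sqrt_le_left (by positivity)]
  have h₂ : c' * (c - c') ≤ |c'| * |c - c'| := by rw [← abs_mul]; exact le_abs_self _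
  nlinarith [sq_abs (c - c'), mul_le_mul_of_nonneg_right h₁ (abs_nonneg (c - c'))]

theorem grow_grid {j B : ℕ} (hj : j < 4 ^ B) : (j : ℝ) / 4 ^ B ≤ 1 := by
  rw [div_le_one (by positivity)]
  exact_mod_cast hj.le

/-- growth when the holonomy has rank two and the depth is bounded -/
theorem grow2 {σ₀ : ℝ} (h0 : |σ₀| ≤ 1) (k B : ℕ) {b ξ m η κ : ℝ} (hb : 0 ≤ b) (hξ : 0 ≤ ξ)
    (hm : 0 < m) (hη : 0 < η) (hκ : κ ≤ 1 / 2) (hf : 8 * b * ξ ≤ m * η * 8 ^ k) (W : Lat ρ)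
    {cc : ℂ} (hc : m ≤ ‖cc‖)
    (hc' : ∀ x ∈ spanR W, |dot cc (zm σ₀ k (D.ho x))| ≤ D.RR σ₀ k b σ₀ ξ x) :
    dens B (fun τ => D.GapAt κ (σ₀ + τ / 4 ^ k) k B ∧ ∃ x ∈ spanR W,
      D.ho x = ((σ₀ + τ / 4 ^ k : ℝ) : ℂ) + Complex.I ∧
      D.RR (σ₀ + τ / 4 ^ k) (k + B) b (σ₀ + τ / 4 ^ k) ξ x <
        Real.exp (κ * B) * (m * η / 4) / 2 ^ (k + B)) ≤ 8 * η + 1 / 4 ^ B := by
  refine le_trans (dens_mono ?_) (dens_lin B hm hη hc)
  rintro j hj ⟨hG, x, hx, hh, h⟩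
  have t1 := grow_grid hj
  have t0 : 0 ≤ (j : ℝ) / 4 ^ B := by positivity
  generalize (j : ℝ) / 4 ^ B = τ at *
  have h2 : (0 : ℝ) < 2 ^ k := by positivity
  have h8 : (0 : ℝ) < 8 ^ k := by positivity
  have h₁ := D.grow_RR t0 t1 hκ hG h
  have hz : zm σ₀ k (D.ho x) = (1 / 2 ^ k : ℝ) • ((τ : ℂ) + Complex.I) := by
    rw [hh]
    apply Complex.ext
    · simp only [zm_re, Complex.add_re, Complex.ofReal_re, Complex.I_re, Complex.add_im,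
        Complex.ofReal_im, Complex.I_im, Complex.smul_re, smul_eq_mul, dens_four]
      field_simp
      ring
    · simp only [zm_im, Complex.add_im, Complex.ofReal_im, Complex.I_im, Complex.smul_im,
        smul_eq_mul]
      ring
  have hn : ‖zm σ₀ k (D.ho x)‖ ≤ 1 / 2 ^ k * 2 := by
    rw [hz, norm_smul, Real.norm_of_nonneg (by positivity)]
    gcongr
    refine (norm_add_le _ _).trans ?_
    rw [Complex.norm_real, Complex.norm_I, Real.norm_of_nonneg t0]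
    linarith
  have hf' := dot_ed_flat (σ' := σ₀ + τ / 4 ^ k) (k := k) h0 (by
    rw [add_sub_cancel_left, abs_of_nonneg (by positivity)]; gcongr) (D.ho x)
  have h₂ : |b * D.ell σ₀ ξ x - b * D.ell (σ₀ + τ / 4 ^ k) ξ x| ≤ m * η / 2 / 2 ^ k := by
    have : b * D.ell σ₀ ξ x - b * D.ell (σ₀ + τ / 4 ^ k) ξ x =
        -(b * ξ * (dot (D.ho x) (ed (σ₀ + τ / 4 ^ k)) - dot (D.ho x) (ed σ₀))) := by
      simp only [ell]; ring
    rw [this, abs_neg, abs_mul, abs_of_nonneg (by positivity)]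
    calc _ ≤ b * ξ * (2 / 8 ^ k * (1 / 2 ^ k * 2)) := by
          gcongr
          exact hf'.trans (by gcongr)
      _ = 8 * b * ξ / 8 ^ k / 2 / 2 ^ k := by ring
      _ ≤ _ := by
          gcongr
          rwa [div_le_iff₀ h8]
  have h₃ := (hc' x hx).trans ((grow_tri _ _ _).trans (add_le_add h₁ h₂))
  rw [hz, dot_smul_right, abs_mul, abs_of_pos (by positivity)] at h₃
  refine le_of_mul_le_mul_left (h₃.trans (le_of_eq ?_)) (by positivity)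
  ring

/-- growth from curvature -/
theorem grow3 {σ₀ : ℝ} (k B : ℕ) (h0 : 0 ≤ σ₀) (h1 : σ₀ + 1 / 4 ^ k ≤ 1) {b ξ ν η κ : ℝ}
    (hν : 0 < ν) (hη : 0 < η) (hκ : κ ≤ 1 / 2) (W : Lat ρ) {cc : ℂ}
    (hc : ∀ τ, ∀ x ∈ spanR W,
      |dot cc (D.ho x) + ν * dot (D.ho x) (ed τ)| ≤ D.RR σ₀ k b τ ξ x) :
    dens B (fun τ => D.GapAt κ (σ₀ + τ / 4 ^ k) k B ∧ ∃ x ∈ spanR W,
      D.ho x = ((σ₀ + τ / 4 ^ k : ℝ) : ℂ) + Complex.I ∧
      D.RR (σ₀ + τ / 4 ^ k) (k + B) b (σ₀ + τ / 4 ^ k) ξ x <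
        Real.exp (κ * B) * (ν * η ^ 2 / 2 / 8 ^ k) / 2 ^ (k + B)) ≤ 7 * η + 2 / 4 ^ B := by
  refine le_trans (dens_mono ?_) (dens_curv k B cc hν hη h0 h1)
  rintro j hj ⟨hG, x, hx, hh, h⟩
  have h₁ := (hc _ x hx).trans (D.grow_RR (by positivity) (grow_grid hj) hκ hG h)
  rw [hh, dot_ed] at h₁
  refine h₁.trans (le_of_eq ?_)
  rw [show (16 : ℝ) ^ k = 8 ^ k * 2 ^ k by rw [← mul_pow]; norm_num]
  field_simp

theorem norm_zm_slope (σ : ℝ) (k : ℕ) : ‖zm σ k ((σ : ℂ) + Complex.I)‖ = 1 / 2 ^ k := by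
  refine (pow_left_inj₀ (norm_nonneg _) (by positivity) two_ne_zero).1 ?_
  rw [dens_norm_sq]
  simp

end Pool.Agent.MP_d0b2d2_an.Gen.ResData
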