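import Pool.Agent.MP_d0b2d2_an.Gen.Claim1
import Pool.Agent.MP_d0b2d2_an.Gen.Claim2
import Pool.Agent.MP_d0b2d2_an.Gen.Card

open MeasureTheory Set Filter Topology Metric

namespace Pool.Agent.MP_d0b2d2_an.Gen.TS

variable {X : Type} [TopologicalSpace X] [T2Space X] [CompactSpace X] [MeasurableSpace X]
  [BorelSpace X] [SecondCountableTopology X] {μ : Measure X} [IsProbabilityMeasure μ]

omit [BorelSpace X] [SecondCountableTopology X] [IsProbabilityMeasure μ] in
/-- an unfilled side of a crossed edge gives a new edge -/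
theorem iso_new {S : TS X μ} {Γ : Finset (X × ℂ)} (hΓ : S.Fam Γ) {L : ℝ}
    (hL : ∀ c ∈ Γ, 2 * ‖c.2‖ ≤ L) {x₀ : X} {h : ℂ} (hc : (x₀, h) ∈ Γ ∨ (x₀, -h) ∈ Γ)
    (hf : ¬ S.Filled Γ L x₀ h) (hi : ¬ S.Isol L) :
    ∃ x' h', S.IsSC x' h' ∧ Disjoint (S.seg x' h') (S.supp Γ) ∧ 2 * ‖h'‖ ≤ √L + 2 * L := by
  have H : S.IsSC x₀ h := by
    rcases hc with hc | hc
    · exact hΓ.1 _ hc
    · simpa using (hΓ.1 _ hc).neg
  have hl : 2 * ‖h‖ ≤ L := by
    rcases hc with hc | hc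
    · exact hL _ hc
    · simpa using hL _ hc
  have : ∃ x' h', S.IsSC x' h' ∧ 2 * ‖h'‖ ≤ √L ∧ wedge h h' ≠ 0 ∧
      ¬ Disjoint (S.seg x₀ h) (S.seg x' h') := by
    by_contra hn
    refine hi ⟨x₀, h, H, hl, fun x' h' a b c => ?_⟩
    by_contra d
    exact hn ⟨x', h', a, b, c, d⟩
  obtain ⟨x', h', H', hl', hw, hd⟩ := this
  obtain ⟨q, ⟨s, hs, rfl⟩, t, ht, e⟩ := not_disjoint_iff.1 hd
  obtain ⟨t1, t2⟩ := abs_lt.1 ht
  obtain ⟨e1, e2⟩ := H'.hit_end ht
  rw [← e] at e1 e2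
  have key : ∀ u : ℝ, |u| ≤ 2 → S.Hit (S.mv x₀ (s • h)) (u • h') → 0 < u * wedge h h' →
      ∃ x' h', S.IsSC x' h' ∧ Disjoint (S.seg x' h') (S.supp Γ) ∧ 2 * ‖h'‖ ≤ √L + 2 * L := by
    intro u hu hh hp
    rcases claim1 hΓ hL hc hs hh (by rwa [wedge_smul_right]) with hF | ⟨y, k, a, b, c⟩
    · exact absurd hF hf
    · refine ⟨y, k, a, b, c.trans ?_⟩
      rw [norm_smul, Real.norm_eq_abs]
      nlinarith [norm_nonneg h']
  rcases lt_or_gt_of_ne hw with hw | hw
  · exact key _ (abs_le.2 ⟨by linarith, by linarith⟩) e2 (mul_pos_of_neg_of_neg (by linarith) hw)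
  · exact key _ (abs_le.2 ⟨by linarith, by linarith⟩) e1 (mul_pos (by linarith) hw)

/-- a short saddle connection gives an isolated one at one of finitely many scales -/
theorem isolate (S : TS X μ) {M : ℕ} (hM : 3 * (S.k * S.Sg.card) ≤ M) {L : ℕ → ℝ} (h0 : 0 < L 0)
    (hL : ∀ i, L (i + 1) = 3 * √(L i)) (hs : L M ≤ 1 / (10 * (M + 1))) (ht : ¬ S.Thick (L 0)) :
    ∃ i ≤ M, S.Isol (L i) := by
  classical
  have hM1 : (1 : ℝ) ≤ M + 1 := by linarith [(Nat.cast_nonneg M : (0 : ℝ) ≤ M)]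
  have hb1 : 1 / (10 * ((M : ℝ) + 1)) ≤ 1 := by
    rw [div_le_one (by linarith)]; linarith
  have pos : ∀ i, 0 < L i := fun i => by
    induction i with
    | zero => exact h0
    | succ i ih => rw [hL]; exact mul_pos (by norm_num) (Real.sqrt_pos.2 ih)
  have small : ∀ j i, i + j = M → L i ≤ 1 / (10 * (M + 1)) := fun j => by
    induction j with
    | zero => intro i hi; rw [show i = M by omega]; exact hs
    | succ j ih =>
      intro i hi
      have h1 := ih (i + 1) (by omega)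
      rw [hL] at h1
      have h2 := Real.sq_sqrt (pos i).le
      have h3 := Real.sqrt_nonneg (L i)
      nlinarith
  have hsq : ∀ i ≤ M, L i ≤ √(L i) := fun i hi => by
    have h1 := (small (M - i) i (by omega)).trans hb1
    have h2 := Real.sq_sqrt (pos i).le
    have h3 := Real.sqrt_nonneg (L i)
    have h4 : √(L i) ≤ 1 := Real.sqrt_le_one.2 h1
    nlinarith
  by_contra hn
  have hn' : ∀ i ≤ M, ¬ S.Isol (L i) := fun i hi h => hn ⟨i, hi, h⟩
  have main : ∀ i ≤ M, ∃ Γ : Finset (X × ℂ), S.Fam Γ ∧ Γ.card = i + 1 ∧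
      ∀ c ∈ Γ, 2 * ‖c.2‖ ≤ L i := fun i => by
    induction i with
    | zero =>
      intro _
      have : ∃ x h, S.IsSC x h ∧ 2 * ‖h‖ < L 0 := by
        by_contra hc
        exact ht fun x h H => not_lt.1 fun hlt => hc ⟨x, h, H, hlt⟩
      obtain ⟨x, h, H, hl⟩ := this
      refine ⟨{(x, h)}, ⟨fun c hc => ?_, fun c hc c' hc' hne => ?_⟩, by simp, fun c hc => ?_⟩
      · rw [Finset.mem_singleton.1 hc]; exact H
      · exact absurd ((Finset.mem_singleton.1 hc).trans (Finset.mem_singleton.1 hc').symm) hne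
      · rw [Finset.mem_singleton.1 hc]; exact hl.le
    | succ i ih =>
      intro hi
      obtain ⟨Γ, hΓ, hc, hl⟩ := ih (by omega)
      have hne : Γ.Nonempty := Finset.card_pos.1 (by omega)
      have : ∃ x₀ h, ((x₀, h) ∈ Γ ∨ (x₀, -h) ∈ Γ) ∧ ¬ S.Filled Γ (L i) x₀ h := by
        by_contra hcon
        have hf : ∀ c ∈ Γ, S.Filled Γ (L i) c.1 c.2 ∧ S.Filled Γ (L i) c.1 (-c.2) := fun c hc => by
          constructor
          · by_contra h
            exact hcon ⟨c.1, c.2, Or.inl hc, h⟩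
          · by_contra h
            exact hcon ⟨c.1, -c.2, Or.inr (by simpa using hc), h⟩
        have h1 := claim2 hΓ hne hl hf
        have h2 := small (M - i) i (by omega)
        have h3 : (Γ.card : ℝ) ≤ M + 1 := by
          rw [hc]; exact_mod_cast (by omega : i + 1 ≤ M + 1)
        rw [le_div_iff₀ (by linarith)] at h2
        have h4 := pos i
        have h5 : (Γ.card : ℝ) * L i ≤ 1 / 10 := by nlinarith
        have h6 : L i ≤ 1 / 10 := by nlinarith
        nlinarith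
      obtain ⟨x₀, h, h1, h2⟩ := this
      obtain ⟨x', h', a, b, c⟩ := iso_new hΓ hl h1 h2 (hn' i (by omega))
      obtain ⟨d, e⟩ := hΓ.insert a b
      have h3 := hsq i (by omega)
      have h4 := Real.sqrt_nonneg (L i)
      refine ⟨_, d, by convert e using 1; omega, fun c' hc' => ?_⟩
      rw [hL]
      rcases Finset.mem_insert.1 hc' with rfl | hc'
      · linarith
      · linarith [hl _ hc']
  obtain ⟨Γ, hΓ, hc, -⟩ := main M le_rfl
  have := card_le hΓ
  omega

end Pool.Agent.MP_d0b2d2_an.Gen.TS
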