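import Pool.Agent.MP_d0b2d2_an.Gen.Vol

open Set Filter Topology

namespace Pool.Agent.MP_d0b2d2_an.Gen

variable {V : Type} [NormedAddCommGroup V] [InnerProductSpace ℝ V] {d : ℕ}
  {W W₁ W₂ : Submodule ℤ (Fin d → ℤ)}

theorem cst_add (x y : Fin d → ℤ) : cst (x + y) = cst x + cst y := by
  funext i
  simp [cst]

theorem cst_smul (n : ℤ) (x : Fin d → ℤ) : cst (n • x) = (n : ℝ) • cst x := by
  funext i
  simp [cst]

/-- the cast as a linear map -/
def lat_cstL (d : ℕ) : (Fin d → ℤ) →ₗ[ℤ] (Fin d → ℝ) where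
  toFun := cst
  map_add' := cst_add
  map_smul' n x := by
    funext i
    simp [cst]

theorem lat_cst_sum {ι : Type} [Fintype ι] (g : ι → ℤ) (w : ι → Fin d → ℤ) :
    cst (∑ i, g i • w i) = ∑ i, (g i : ℝ) • cst (w i) := by
  funext j
  simp [cst]

theorem lat_li_iff {ι : Type} (w : ι → Fin d → ℤ) :
    LinearIndependent ℝ (fun i => cst (w i)) ↔ LinearIndependent ℤ w :=
  linearIndependent_algebraMap_comp_iff (R := ℤ) (S := ℝ) (v := w)

theorem lat_spanR_span (s : Set (Fin d → ℤ)) :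
    spanR (Submodule.span ℤ s) = Submodule.span ℝ (cst '' s) := by
  have : (cst '' (Submodule.span ℤ s : Set (Fin d → ℤ))) =
      (Submodule.span ℤ (cst '' s) : Set (Fin d → ℝ)) := by
    have h := Submodule.map_span (lat_cstL d) s
    have h' : (((Submodule.span ℤ s).map (lat_cstL d) : Submodule ℤ (Fin d → ℝ)) :
        Set (Fin d → ℝ)) = cst '' (Submodule.span ℤ s : Set (Fin d → ℤ)) := rfl
    rw [← h', h]
    rfl
  rw [spanR, this, Submodule.span_span_of_tower]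

theorem lat_spanR_range {ι : Type} (w : ι → Fin d → ℤ) :
    spanR (Submodule.span ℤ (range w)) = Submodule.span ℝ (range fun i => cst (w i)) := by
  rw [lat_spanR_span, ← range_comp]
  rfl

/-- the chosen basis of a sublattice -/
noncomputable def lat_B (W : Submodule ℤ (Fin d → ℤ)) : Fin (rk W) → Fin d → ℤ :=
  fun i => Module.finBasis ℤ W i

theorem lat_basis_li {ι : Type} (b : Module.Basis ι ℤ W) :
    LinearIndependent ℤ fun i => (b i : Fin d → ℤ) :=
  b.linearIndependent.map' W.subtype W.ker_subtype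

theorem lat_basis_span {ι : Type} (b : Module.Basis ι ℤ W) :
    Submodule.span ℤ (range fun i => (b i : Fin d → ℤ)) = W := by
  have : (range fun i => (b i : Fin d → ℤ)) = W.subtype '' range b := by
    rw [← range_comp]
    rfl
  rw [this, ← Submodule.map_span, b.span_eq, Submodule.map_top, Submodule.range_subtype]

theorem lat_B_li (W : Submodule ℤ (Fin d → ℤ)) : LinearIndependent ℤ (lat_B W) :=
  lat_basis_li (Module.finBasis ℤ W)

theorem lat_B_span (W : Submodule ℤ (Fin d → ℤ)) : Submodule.span ℤ (range (lat_B W)) = W :=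
  lat_basis_span (Module.finBasis ℤ W)

theorem lat_B_mem (W : Submodule ℤ (Fin d → ℤ)) (i : Fin (rk W)) : lat_B W i ∈ W :=
  (Module.finBasis ℤ W i).2

theorem lat_B_spanR (W : Submodule ℤ (Fin d → ℤ)) :
    Submodule.span ℝ (range fun i => cst (lat_B W i)) = spanR W := by
  rw [← lat_spanR_range, lat_B_span]

theorem lat_cov_eq (L : (Fin d → ℝ) →ₗ[ℝ] V) (W : Submodule ℤ (Fin d → ℤ)) :
    cov L W = vol fun i => L (cst (lat_B W i)) := rfl

theorem sat_sat (W : Submodule ℤ (Fin d → ℤ)) : Sat (sat W) := by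
  rintro n x hn ⟨m, hm, h⟩
  exact ⟨m * n, mul_ne_zero hm hn, by rwa [mul_smul]⟩

theorem le_sat (W : Submodule ℤ (Fin d → ℤ)) : W ≤ sat W :=
  fun x hx => ⟨1, one_ne_zero, by rwa [one_smul]⟩

theorem Sat.inf (h₁ : Sat W₁) (h₂ : Sat W₂) : Sat (W₁ ⊓ W₂) :=
  fun n x hn h => ⟨h₁ n x hn h.1, h₂ n x hn h.2⟩

theorem sat_bot : Sat (⊥ : Submodule ℤ (Fin d → ℤ)) := by
  intro n x hn h
  rw [Submodule.mem_bot] at h ⊢
  exact (smul_eq_zero.1 h).resolve_left hn

theorem rk_le (W : Submodule ℤ (Fin d → ℤ)) : rk W ≤ d := by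
  have := Submodule.finrank_le W
  rwa [Module.finrank_fin_fun] at this

theorem rk_bot : rk (⊥ : Submodule ℤ (Fin d → ℤ)) = 0 := finrank_bot ℤ _

theorem finrank_spanR (W : Submodule ℤ (Fin d → ℤ)) : Module.finrank ℝ (spanR W) = rk W := by
  rw [← lat_B_spanR, finrank_span_eq_card ((lat_li_iff _).2 (lat_B_li W)), Fintype.card_fin]

theorem spanR_mono (h : W₁ ≤ W₂) : spanR W₁ ≤ spanR W₂ :=
  Submodule.span_mono (image_mono h)

theorem cst_mem_spanR {x : Fin d → ℤ} (h : x ∈ W) : cst x ∈ spanR W :=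
  Submodule.subset_span (mem_image_of_mem _ h)

theorem lat_spanR_sat (W : Submodule ℤ (Fin d → ℤ)) : spanR (sat W) = spanR W := by
  refine le_antisymm (Submodule.span_le.2 ?_) (spanR_mono (le_sat W))
  rintro _ ⟨x, ⟨n, hn, hx⟩, rfl⟩
  have h := cst_mem_spanR hx
  rw [cst_smul] at h
  exact (Submodule.smul_mem_iff _ (Int.cast_ne_zero.2 hn)).1 h

theorem lat_spanR_sup (W₁ W₂ : Submodule ℤ (Fin d → ℤ)) :
    spanR (W₁ ⊔ W₂) = spanR W₁ ⊔ spanR W₂ := by
  conv_lhs => rw [← Submodule.span_eq W₁, ← Submodule.span_eq W₂, ← Submodule.span_union]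
  rw [lat_spanR_span, image_union, Submodule.span_union]
  rfl

theorem rk_sat (W : Submodule ℤ (Fin d → ℤ)) : rk (sat W) = rk W := by
  rw [← finrank_spanR, lat_spanR_sat, finrank_spanR]

theorem Sat.mem_of_spanR (hW : Sat W) {x : Fin d → ℤ} (h : cst x ∈ spanR W) : x ∈ W := by
  classical
  let w : Option (Fin (rk W)) → Fin d → ℤ := fun o => o.elim x (lat_B W)
  have hw : ¬ LinearIndependent ℤ w := by
    rw [← lat_li_iff]
    intro hl
    have h1 := hl.notMem_span_image (s := range some) (x := none) (by simp)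
    apply h1
    rw [← range_comp]
    rw [← lat_B_spanR] at h
    exact h
  obtain ⟨g, hg, i, hi⟩ := Fintype.not_linearIndependent_iff.1 hw
  rw [Fintype.sum_option] at hg
  simp only [w, Option.elim_none, Option.elim_some] at hg
  by_cases h0 : g none = 0
  · rw [h0, zero_smul, zero_add] at hg
    have := Fintype.linearIndependent_iff.1 (lat_B_li W) _ hg
    cases i with
    | none => exact absurd h0 hi
    | some j => exact absurd (this j) hi
  · refine hW _ x h0 ?_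
    rw [eq_neg_of_add_eq_zero_left hg]
    exact W.neg_mem (W.sum_mem fun j _ => W.smul_mem _ (lat_B_mem W j))

theorem rk_lt (h₁ : Sat W₁) (h : W₁ ≤ W₂) (hne : W₁ ≠ W₂) : rk W₁ < rk W₂ := by
  rw [← finrank_spanR, ← finrank_spanR]
  refine Submodule.finrank_lt_finrank_of_lt (lt_of_le_of_ne (spanR_mono h) fun e => hne ?_)
  exact le_antisymm h fun x hx => h₁.mem_of_spanR (e ▸ cst_mem_spanR hx)

theorem rk_inf_add_sup (W₁ W₂ : Submodule ℤ (Fin d → ℤ)) :
    rk (W₁ ⊓ W₂) + rk (sat (W₁ ⊔ W₂)) = rk W₁ + rk W₂ := by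
  rw [rk_sat]
  have h := Submodule.rank_sup_add_rank_inf_eq W₁ W₂
  simp only [← Module.finrank_eq_rank] at h
  rw [add_comm]
  exact_mod_cast h

theorem spanR_sat_sup (W : Submodule ℤ (Fin d → ℤ)) (x : Fin d → ℤ) :
    spanR (sat (W ⊔ Submodule.span ℤ {x})) = spanR W ⊔ Submodule.span ℝ {cst x} := by
  rw [lat_spanR_sat, lat_spanR_sup, lat_spanR_span, image_singleton]

theorem cov_nonneg (L : (Fin d → ℝ) →ₗ[ℝ] V) (W : Submodule ℤ (Fin d → ℤ)) : 0 ≤ cov L W :=
  vol_nonneg _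

theorem cov_bot (L : (Fin d → ℝ) →ₗ[ℝ] V) : cov L ⊥ = 1 := by
  have : IsEmpty (Fin (rk (⊥ : Submodule ℤ (Fin d → ℤ)))) := by
    rw [rk_bot]
    infer_instance
  rw [lat_cov_eq]
  exact vol_empty _

/-- change of a real family by a matrix, uniformly in the linear map -/
theorem lat_vol_real {ι : Type} [Fintype ι] [DecidableEq ι] (u w : ι → Fin d → ℝ)
    (M : Matrix ι ι ℝ) (h : ∀ i, u i = ∑ j, M i j • w j) (L : (Fin d → ℝ) →ₗ[ℝ] V) :
    vol (fun i => L (u i)) = |M.det| * vol fun i => L (w i) := by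
  rw [← vol_matrix]
  congr 1
  funext i
  rw [h i, map_sum]
  simp only [map_smul]

theorem lat_det_ne {ι : Type} [Fintype ι] [DecidableEq ι] (u w : ι → Fin d → ℝ)
    (M : Matrix ι ι ℝ) (h : ∀ i, u i = ∑ j, M i j • w j) (hu : LinearIndependent ℝ u) :
    M.det ≠ 0 := by
  intro h0
  let L : (Fin d → ℝ) →ₗ[ℝ] EuclideanSpace ℝ (Fin d) :=
    (WithLp.linearEquiv 2 ℝ (Fin d → ℝ)).symm.toLinearMap
  have h1 := lat_vol_real u w M h L
  rw [h0, abs_zero, zero_mul] at h1
  have h2 := (vol_pos_iff fun i => L (u i)).2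
    (hu.map' L (LinearMap.ker_eq_bot.2 (WithLp.linearEquiv 2 ℝ (Fin d → ℝ)).symm.injective))
  exact h2.ne' h1

/-- an independent family of integer combinations has larger volume -/
theorem lat_vol_le {ι ι' : Type} [Fintype ι] [DecidableEq ι] [Fintype ι'] [DecidableEq ι']
    (u : ι → Fin d → ℤ) (w : ι' → Fin d → ℤ) (hc : Fintype.card ι = Fintype.card ι')
    (hu : LinearIndependent ℤ u) (h : ∀ i, u i ∈ Submodule.span ℤ (range w))
    (L : (Fin d → ℝ) →ₗ[ℝ] V) :
    (vol fun i => L (cst (w i))) ≤ vol fun i => L (cst (u i)) := by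
  obtain ⟨e⟩ : Nonempty (ι ≃ ι') := Fintype.card_eq.1 hc
  have h' : ∀ i, ∃ c : ι → ℤ, ∑ j, c j • w (e j) = u i := by
    intro i
    obtain ⟨c, hc⟩ := (Submodule.mem_span_range_iff_exists_fun ℤ).1 (h i)
    exact ⟨fun j => c (e j), by rw [← hc]; exact e.sum_comp fun j => c j • w j⟩
  choose N hN using h'
  have hM : ∀ i, cst (u i) = ∑ j, ((Matrix.of N).map (Int.castRingHom ℝ)) i j • cst (w (e j)) := by
    intro i
    rw [← hN i, lat_cst_sum]
    rfl
  have h1 := lat_vol_real _ _ _ hM L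
  have h2 := lat_det_ne _ _ _ hM ((lat_li_iff u).2 hu)
  have h3 : ((Matrix.of N).map (Int.castRingHom ℝ)).det = (((Matrix.of N).det : ℤ) : ℝ) :=
    ((Int.castRingHom ℝ).map_det (Matrix.of N)).symm
  rw [h3] at h1 h2
  have h4 : (1 : ℝ) ≤ |(((Matrix.of N).det : ℤ) : ℝ)| := by
    rw [← Int.cast_abs]
    exact_mod_cast Int.one_le_abs (Int.cast_ne_zero.1 h2)
  have h5 : (vol fun i => L (cst (w (e i)))) = vol fun i => L (cst (w i)) :=
    vol_equiv e fun i => L (cst (w i))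
  rw [h1, h5]
  exact le_mul_of_one_le_left (vol_nonneg _) h4

theorem lat_cov_le {ι : Type} [Fintype ι] [DecidableEq ι] (u : ι → Fin d → ℤ)
    (hm : ∀ i, u i ∈ W) (hs : spanR W ≤ Submodule.span ℝ (range fun i => cst (u i)))
    (hc : Fintype.card ι = rk W) (L : (Fin d → ℝ) →ₗ[ℝ] V) :
    cov L W ≤ vol fun i => L (cst (u i)) := by
  have hs' : Submodule.span ℝ (range fun i => cst (u i)) = spanR W :=
    le_antisymm (Submodule.span_le.2 (range_subset_iff.2 fun i => cst_mem_spanR (hm i))) hs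
  refine lat_vol_le u (lat_B W) (by rw [hc, Fintype.card_fin]) ((lat_li_iff u).1 ?_)
    (fun i => by rw [lat_B_span]; exact hm i) L
  rw [linearIndependent_iff_card_eq_finrank_span, Set.finrank, hs', finrank_spanR, hc]

theorem lat_le_cov {ι : Type} [Fintype ι] [DecidableEq ι] (u : ι → Fin d → ℤ)
    (hs : W ≤ Submodule.span ℤ (range u)) (hc : Fintype.card ι = rk W)
    (L : (Fin d → ℝ) →ₗ[ℝ] V) : (vol fun i => L (cst (u i))) ≤ cov L W :=
  lat_vol_le (lat_B W) u (by rw [hc, Fintype.card_fin]) (lat_B_li W)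
    (fun i => hs (lat_B_mem W i)) L

/-- the covolume is a fixed multiple of the volume of any real basis of the span -/
theorem cov_eq_vol (W : Submodule ℤ (Fin d → ℤ)) {ι : Type} [Fintype ι] [DecidableEq ι]
    (b : ι → Fin d → ℝ) (hb : LinearIndependent ℝ b) (hs : Submodule.span ℝ (range b) = spanR W) :
    ∃ κ > 0, ∀ (V' : Type) [NormedAddCommGroup V'] [InnerProductSpace ℝ V']
      (L : (Fin d → ℝ) →ₗ[ℝ] V'), cov L W = κ * vol (fun i => L (b i)) := by
  have hc : Fintype.card ι = Fintype.card (Fin (rk W)) := by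
    rw [← finrank_span_eq_card hb, hs, finrank_spanR, Fintype.card_fin]
  obtain ⟨e⟩ : Nonempty (ι ≃ Fin (rk W)) := Fintype.card_eq.1 hc
  have h' : ∀ i, ∃ c : ι → ℝ, ∑ j, c j • b j = cst (lat_B W (e i)) := fun i =>
    (Submodule.mem_span_range_iff_exists_fun ℝ).1 (hs ▸ cst_mem_spanR (lat_B_mem W (e i)))
  choose M hM using h'
  have hM' : ∀ i, cst (lat_B W (e i)) = ∑ j, (Matrix.of M) i j • b j := fun i => (hM i).symm
  refine ⟨|(Matrix.of M).det|, abs_pos.2 (lat_det_ne _ _ _ hM'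
    (((lat_li_iff _).2 (lat_B_li W)).comp e e.injective)), fun V' _ _ L => ?_⟩
  rw [← lat_vol_real _ _ _ hM' L, lat_cov_eq]
  exact (vol_equiv e fun i => L (cst (lat_B W i))).symm

theorem lat_rk_add (hW : Sat W) {x : Fin d → ℤ} (hx : x ∉ W) :
    rk (sat (W ⊔ Submodule.span ℤ {x})) = rk W + 1 := by
  have hx' : cst x ∉ spanR W := fun h => hx (hW.mem_of_spanR h)
  have h0 : cst x ≠ 0 := fun h => hx' (h ▸ Submodule.zero_mem _)
  have h := Submodule.finrank_sup_add_finrank_inf_eq (spanR W) (Submodule.span ℝ {cst x})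
  rw [disjoint_iff.1 ((Submodule.disjoint_span_singleton' h0).2 hx'), finrank_bot,
    finrank_span_singleton h0, finrank_spanR, add_zero] at h
  rw [← finrank_spanR, spanR_sat_sup, h]

theorem lat_cov_add (hW : Sat W) {x : Fin d → ℤ} (hx : x ∉ W) (L : (Fin d → ℝ) →ₗ[ℝ] V) :
    cov L (sat (W ⊔ Submodule.span ℤ {x})) ≤
      vol (Sum.elim (fun i => L (cst (lat_B W i))) fun _ : Unit => L (cst x)) := by
  have h := lat_cov_le (W := sat (W ⊔ Submodule.span ℤ {x}))
    (Sum.elim (lat_B W) fun _ : Unit => x) (by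
      rintro (i | i)
      · exact le_sat _ (Submodule.mem_sup_left (lat_B_mem W i))
      · exact le_sat _ (Submodule.mem_sup_right (Submodule.mem_span_singleton_self x))) (by
      rw [spanR_sat_sup, ← lat_B_spanR]
      refine sup_le (Submodule.span_mono ?_) (Submodule.span_mono ?_)
      · rintro _ ⟨i, rfl⟩
        exact ⟨Sum.inl i, rfl⟩
      · rintro _ rfl
        exact ⟨Sum.inr (), rfl⟩) (by simp [lat_rk_add hW hx]) L
  convert h using 2
  funext i
  cases i <;> rfl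

/-- adding a vector, in terms of a real basis of the span -/
theorem cov_add_le_vol (hW : Sat W) {x : Fin d → ℤ} (hx : x ∉ W) {ι : Type} [Fintype ι]
    [DecidableEq ι] (b : ι → Fin d → ℝ) (hb : LinearIndependent ℝ b)
    (hs : Submodule.span ℝ (range b) = spanR W) {κ : ℝ}
    (hκ : ∀ (V' : Type) [NormedAddCommGroup V'] [InnerProductSpace ℝ V']
      (L : (Fin d → ℝ) →ₗ[ℝ] V'), cov L W = κ * vol (fun i => L (b i)))
    (L : (Fin d → ℝ) →ₗ[ℝ] V) :
    cov L (sat (W ⊔ Submodule.span ℤ {x})) ≤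
      κ * vol (Sum.elim (fun i => L (b i)) fun _ : Unit => L (cst x)) := by
  have _ := hb
  obtain ⟨Q, hQ1, hQ2, -, -⟩ := exists_orth ((spanR W).map L)
  have e1 : Submodule.span ℝ (range fun i => L (b i)) = (spanR W).map L := by
    rw [← hs, Submodule.map_span, ← range_comp]
    rfl
  have e2 : Submodule.span ℝ (range fun i => L (cst (lat_B W i))) = (spanR W).map L := by
    rw [← lat_B_spanR, Submodule.map_span, ← range_comp]
    rfl
  have h1 := vol_sum (fun i => L (b i)) (fun _ : Unit => L (cst x)) (fun _ => Q (L (cst x)))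
    (fun _ => e1 ▸ hQ1 _) fun i _ => hQ2 _ _ (e1 ▸ Submodule.subset_span ⟨i, rfl⟩)
  have h2 := vol_sum (fun i => L (cst (lat_B W i))) (fun _ : Unit => L (cst x))
    (fun _ => Q (L (cst x))) (fun _ => e2 ▸ hQ1 _)
    fun i _ => hQ2 _ _ (e2 ▸ Submodule.subset_span ⟨i, rfl⟩)
  have h3 := lat_cov_add hW hx L
  rw [h2, ← lat_cov_eq, hκ V L] at h3
  rw [h1, ← mul_assoc]
  exact h3

theorem cov_le_of_norm_le {V' : Type} [NormedAddCommGroup V'] [InnerProductSpace ℝ V']
    (L : (Fin d → ℝ) →ₗ[ℝ] V) (L' : (Fin d → ℝ) →ₗ[ℝ] V') (W : Submodule ℤ (Fin d → ℤ)) {l : ℝ}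
    (hl : 0 ≤ l) (h : ∀ x ∈ spanR W, ‖L x‖ ≤ l * ‖L' x‖) : cov L W ≤ l ^ rk W * cov L' W := by
  have := vol_le_of_norm_le (fun i => L (cst (lat_B W i))) (fun i => L' (cst (lat_B W i))) hl
    (fun x => by
      have := h (∑ i, x i • cst (lat_B W i)) (Submodule.sum_mem _ fun i _ =>
        Submodule.smul_mem _ _ (cst_mem_spanR (lat_B_mem W i)))
      simpa only [map_sum, map_smul] using this)
  rwa [Fintype.card_fin] at this

/-- a basis of a saturated sublattice extends to a basis of a larger one -/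
theorem lat_extend (h₁ : Sat W₁) (h : W₁ ≤ W₂) : ∃ (n : ℕ) (c : Fin n → Fin d → ℤ),
    (∀ j, c j ∈ W₂) ∧ W₂ ≤ Submodule.span ℤ (range (Sum.elim (lat_B W₁) c)) ∧
      rk W₁ + n = rk W₂ := by
  have : Module.IsTorsionFree ℤ (W₂ ⧸ W₁.submoduleOf W₂) := by
    refine Module.IsTorsionFree.of_smul_eq_zero fun n y hy => ?_
    obtain ⟨y, rfl⟩ := Submodule.Quotient.mk_surjective _ y
    by_cases hn : n = 0
    · exact Or.inl hn
    · rw [← Submodule.Quotient.mk_smul, Submodule.Quotient.mk_eq_zero] at hy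
      exact Or.inr ((Submodule.Quotient.mk_eq_zero _).2 (h₁ n y hn hy))
  let b₁ := (Module.finBasis ℤ W₁).map (Submodule.submoduleOfEquivOfLe h).symm
  let b₂ := Module.finBasis ℤ (W₂ ⧸ W₁.submoduleOf W₂)
  let b := b₁.sumQuot b₂
  refine ⟨_, fun j => b (Sum.inr j), fun j => (b (Sum.inr j)).2, ?_, ?_⟩
  · have e : Sum.elim (lat_B W₁) (fun j => (b (Sum.inr j) : Fin d → ℤ)) =
        fun i => (b i : Fin d → ℤ) := by
      funext i
      cases i with
      | inl i =>
        have := Module.Basis.sumQuot_inl b₁ b₂ i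
        exact (congrArg Subtype.val this).symm
      | inr j => rfl
    rw [e]
    exact (lat_basis_span b).ge
  · have := Module.finrank_eq_card_basis b
    simp only [Fintype.card_sum, Fintype.card_fin] at this
    exact this.symm

theorem cov_submod (L : (Fin d → ℝ) →ₗ[ℝ] V) (h₁ : Sat W₁) (h₂ : Sat W₂) :
    cov L (W₁ ⊓ W₂) * cov L (sat (W₁ ⊔ W₂)) ≤ cov L W₁ * cov L W₂ := by
  obtain ⟨n₁, c₁, hm₁, hs₁, hr₁⟩ := lat_extend (h₁.inf h₂) (inf_le_left : W₁ ⊓ W₂ ≤ W₁)
  obtain ⟨n₂, c₂, hm₂, hs₂, hr₂⟩ := lat_extend (h₁.inf h₂) (inf_le_right : W₁ ⊓ W₂ ≤ W₂)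
  have e₁ := lat_le_cov _ hs₁ (by simp [hr₁]) L
  have e₂ := lat_le_cov _ hs₂ (by simp [hr₂]) L
  have hr := rk_inf_add_sup W₁ W₂
  have e₃ := lat_cov_le (W := sat (W₁ ⊔ W₂)) (Sum.elim (lat_B (W₁ ⊓ W₂)) (Sum.elim c₁ c₂)) (by
      rintro (i | i | i)
      · exact le_sat _ (Submodule.mem_sup_left (lat_B_mem _ i).1)
      · exact le_sat _ (Submodule.mem_sup_left (hm₁ i))
      · exact le_sat _ (Submodule.mem_sup_right (hm₂ i))) (by
      rw [lat_spanR_sat, ← lat_spanR_range]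
      refine spanR_mono (sup_le (hs₁.trans (Submodule.span_mono ?_))
        (hs₂.trans (Submodule.span_mono ?_)))
      · rintro _ ⟨i | i, rfl⟩
        exacts [⟨Sum.inl i, rfl⟩, ⟨Sum.inr (Sum.inl i), rfl⟩]
      · rintro _ ⟨i | i, rfl⟩
        exacts [⟨Sum.inl i, rfl⟩, ⟨Sum.inr (Sum.inr i), rfl⟩]) (by
      simp only [Fintype.card_sum, Fintype.card_fin]
      omega) L
  have e₄ := vol_submod (fun i => L (cst (lat_B (W₁ ⊓ W₂) i))) (fun j => L (cst (c₁ j)))
    fun j => L (cst (c₂ j))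
  have f₁ : (fun i => L (cst (Sum.elim (lat_B (W₁ ⊓ W₂)) c₁ i))) =
      Sum.elim (fun i => L (cst (lat_B (W₁ ⊓ W₂) i))) fun j => L (cst (c₁ j)) := by
    funext i
    cases i <;> rfl
  have f₂ : (fun i => L (cst (Sum.elim (lat_B (W₁ ⊓ W₂)) c₂ i))) =
      Sum.elim (fun i => L (cst (lat_B (W₁ ⊓ W₂) i))) fun j => L (cst (c₂ j)) := by
    funext i
    cases i <;> rfl
  have f₃ : (fun i => L (cst (Sum.elim (lat_B (W₁ ⊓ W₂)) (Sum.elim c₁ c₂) i))) =
      Sum.elim (fun i => L (cst (lat_B (W₁ ⊓ W₂) i)))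
        (Sum.elim (fun j => L (cst (c₁ j))) fun j => L (cst (c₂ j))) := by
    funext i
    rcases i with i | i | i <;> rfl
  rw [f₁] at e₁
  rw [f₂] at e₂
  rw [f₃] at e₃
  calc _ ≤ _ := mul_le_mul_of_nonneg_left e₃ (cov_nonneg _ _)
    _ ≤ _ := e₄
    _ ≤ _ := mul_le_mul e₁ e₂ (vol_nonneg _) (cov_nonneg _ _)

theorem cov_add_le (L : (Fin d → ℝ) →ₗ[ℝ] V) (hW : Sat W) {x : Fin d → ℤ} (hx : x ∉ W) :
    cov L (sat (W ⊔ Submodule.span ℤ {x})) ≤ cov L W * ‖L (cst x)‖ ∧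
      rk (sat (W ⊔ Submodule.span ℤ {x})) = rk W + 1 := by
  refine ⟨(lat_cov_add hW hx L).trans ((vol_sum_le _ _).trans_eq ?_), lat_rk_add hW hx⟩
  rw [vol_unique (fun _ : Unit => L (cst x)), lat_cov_eq]

open MeasureTheory Matrix in
theorem lat_linear_forms {n : ℕ} (G : Matrix (Fin n) (Fin n) ℝ) (h0 : G.det ≠ 0)
    (h1 : |G.det| < 1) : ∃ z : Fin n → ℤ, z ≠ 0 ∧ ∀ i, |(G *ᵥ cst z) i| < 1 := by
  classical
  have hdet : LinearMap.det (Matrix.toLin' G) = G.det := LinearMap.det_toLin' G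
  have hc : Countable (Submodule.span ℤ (Set.range (Pi.basisFun ℝ (Fin n)))).toAddSubgroup :=
    inferInstanceAs (Countable (Submodule.span ℤ (Set.range (Pi.basisFun ℝ (Fin n)))))
  obtain ⟨x, hx0, hx⟩ := exists_ne_zero_mem_lattice_of_measure_mul_two_pow_lt_measure
    (μ := volume) (s := (Matrix.toLin' G) ⁻¹' (Metric.ball 0 1))
    (ZSpan.isAddFundamentalDomain' (Pi.basisFun ℝ (Fin n)) volume)
    (by
      intro x hx
      simpa [Matrix.mulVec_neg] using hx)
    ((convex_ball 0 1).linear_preimage _)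
    (by
      rw [Measure.addHaar_preimage_linearMap _ (by rw [hdet]; exact h0), hdet,
        Real.volume_pi_ball _ one_pos, ZSpan.volume_fundamentalDomain]
      have : (Matrix.of (Pi.basisFun ℝ (Fin n))) = (1 : Matrix (Fin n) (Fin n) ℝ) := by
        ext i j
        simp [Matrix.one_apply, Pi.single_apply, eq_comm]
      rw [this, Matrix.det_one, abs_one, ENNReal.ofReal_one, one_mul, Module.finrank_fin_fun,
        Fintype.card_fin, mul_one, ← ENNReal.ofReal_mul (abs_nonneg _)]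
      have h2 : (2 : ENNReal) ^ n = ENNReal.ofReal (2 ^ n) := by
        rw [ENNReal.ofReal_pow (by norm_num)]; simp
      rw [h2, ENNReal.ofReal_lt_ofReal_iff (by positivity)]
      have h3 : 1 < |G.det⁻¹| := by
        rw [abs_inv]
        exact (one_lt_inv₀ (abs_pos.mpr h0)).mpr h1
      have h4 : (0 : ℝ) < 2 ^ n := by positivity
      nlinarith)
  have hz := ((Pi.basisFun ℝ (Fin n)).mem_span_iff_repr_mem ℤ (x : Fin n → ℝ)).mp x.2
  choose z hz using hz
  have e : cst z = (x : Fin n → ℝ) := by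
    ext j
    simpa [cst] using hz j
  refine ⟨z, ?_, ?_⟩
  · rintro rfl
    apply hx0
    ext j
    rw [← e]
    simp [cst]
  · intro i
    rw [e]
    have h2 : ‖G *ᵥ (x : Fin n → ℝ)‖ < 1 := by simpa using hx
    exact (norm_le_pi_norm _ i).trans_lt h2

open Matrix MatrixOrder in
theorem lat_mink_posDef {n : ℕ} (G : Matrix (Fin n) (Fin n) ℝ) (hG : G.PosDef) {m : ℝ}
    (hm : 0 < m) (h : ∀ z : Fin n → ℤ, z ≠ 0 → m ^ 2 ≤ cst z ⬝ᵥ G *ᵥ cst z) :
    ((m / (n + 1)) ^ n) ^ 2 ≤ G.det := by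
  obtain ⟨B, hB⟩ := CStarAlgebra.nonneg_iff_eq_star_mul_self.mp hG.posSemidef.nonneg
  have hB' : G = Bᵀ * B := hB
  have hdet : G.det = B.det ^ 2 := by rw [hB', det_mul, det_transpose, sq]
  have hB0 : B.det ≠ 0 := by
    intro h0
    have := hG.det_pos
    rw [hdet, h0] at this
    simp at this
  set t : ℝ := m / (n + 1) with ht
  have ht0 : 0 < t := by positivity
  by_contra hcon
  rw [not_le, hdet] at hcon
  have h1 : |B.det| < t ^ n := abs_lt_of_sq_lt_sq hcon (by positivity)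
  obtain ⟨z, hz0, hz⟩ := lat_linear_forms (t⁻¹ • B) (by
    rw [det_smul]
    exact mul_ne_zero (by positivity) hB0) (by
    rw [det_smul, Fintype.card_fin, abs_mul, abs_of_pos (by positivity), inv_pow,
      inv_mul_lt_iff₀ (by positivity), mul_one]
    exact h1)
  have h2 : ∀ i, (B *ᵥ cst z) i ^ 2 ≤ t ^ 2 := by
    intro i
    have := hz i
    rw [smul_mulVec, Pi.smul_apply, smul_eq_mul, abs_mul, abs_of_pos (by positivity),
      inv_mul_lt_iff₀ ht0, mul_one] at this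
    exact (sq_lt_sq' (abs_lt.1 this).1 (abs_lt.1 this).2).le
  have h3 : cst z ⬝ᵥ G *ᵥ cst z = ∑ i, (B *ᵥ cst z) i ^ 2 := by
    rw [hB', ← mulVec_mulVec, dotProduct_mulVec, vecMul_transpose]
    simp only [dotProduct, sq]
  have h4 := h z hz0
  rw [h3] at h4
  have h5 : ∑ i, (B *ᵥ cst z) i ^ 2 ≤ n * t ^ 2 := by
    simpa using Finset.sum_le_sum fun i (_ : i ∈ Finset.univ) => h2 i
  have h6 : m = t * (n + 1) := by
    rw [ht]
    field_simp
  have h7 : (0 : ℝ) ≤ n := Nat.cast_nonneg n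
  rw [h6] at h4
  nlinarith [sq_pos_of_pos ht0, mul_nonneg h7 (sq_pos_of_pos ht0).le,
    mul_nonneg (mul_nonneg h7 h7) (sq_pos_of_pos ht0).le]

open Matrix in
theorem lat_mink {n : ℕ} (v : Fin n → V) {m : ℝ} (hm : 0 < m)
    (h : ∀ z : Fin n → ℤ, z ≠ 0 → m ≤ ‖∑ i, (z i : ℝ) • v i‖) : (m / (n + 1)) ^ n ≤ vol v := by
  refine le_of_sq_le_sq ?_ (vol_nonneg v)
  rw [vol_sq]
  have hc : Continuous fun ε : ℝ => (gram ℝ v + ε • (1 : Matrix (Fin n) (Fin n) ℝ)).det :=
    (continuous_const.add (continuous_id.smul continuous_const)).matrix_det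
  have ht := (hc.tendsto 0).mono_left (nhdsWithin_le_nhds (s := Ioi 0))
  simp only [zero_smul, add_zero] at ht
  refine ge_of_tendsto ht (eventually_nhdsWithin_of_forall fun ε hε => ?_)
  refine lat_mink_posDef _ (PosDef.posSemidef_add (posSemidef_gram ℝ v) (PosDef.one.smul hε)) hm
    fun z hz => ?_
  have h1 := star_dotProduct_gram_mulVec (𝕜 := ℝ) v (cst z) (cst z)
  rw [star_trivial, real_inner_self_eq_norm_sq] at h1
  rw [add_mulVec, dotProduct_add, h1, smul_mulVec, one_mulVec, dotProduct_smul, smul_eq_mul]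
  have h2 : 0 ≤ cst z ⬝ᵥ cst z := Finset.sum_nonneg fun i _ => mul_self_nonneg _
  have h3 : m ^ 2 ≤ ‖∑ i, cst z i • v i‖ ^ 2 := pow_le_pow_left₀ hm.le (h z hz) 2
  have h4 := mul_nonneg (le_of_lt hε) h2
  linarith

/-- Minkowski lower bound -/
theorem cov_lower (d : ℕ) : ∃ c > 0, ∀ (V : Type) [NormedAddCommGroup V] [InnerProductSpace ℝ V]
    (L : (Fin d → ℝ) →ₗ[ℝ] V) (m : ℝ), 0 < m → m ≤ 1 →
    (∀ x : Fin d → ℤ, x ≠ 0 → m ≤ ‖L (cst x)‖) → ∀ W : Submodule ℤ (Fin d → ℤ),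
    c * m ^ d ≤ cov L W := by
  refine ⟨(1 / (d + 1)) ^ d, by positivity, fun V _ _ L m hm hm1 h W => ?_⟩
  have h1 := lat_mink (fun i => L (cst (lat_B W i))) hm fun z hz => by
    have := h (∑ i, z i • lat_B W i) fun h0 =>
      hz (funext (Fintype.linearIndependent_iff.1 (lat_B_li W) z h0))
    simpa only [lat_cst_sum, map_sum, map_smul] using this
  have h2 : (rk W : ℝ) ≤ d := Nat.cast_le.2 (rk_le W)
  have h3 : (0 : ℝ) ≤ d := Nat.cast_nonneg d
  rw [← mul_pow, one_div_mul_eq_div]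
  calc (m / (d + 1)) ^ d ≤ (m / (d + 1)) ^ rk W :=
        pow_le_pow_of_le_one (by positivity) (by rw [div_le_one (by positivity)]; linarith)
          (rk_le W)
    _ ≤ (m / (rk W + 1)) ^ rk W := by gcongr
    _ ≤ _ := h1

end Pool.Agent.MP_d0b2d2_an.Gen
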