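import Pool.Agent.MP_d0b2d2_an.Gen.LipAuxA

open MeasureTheory Set Filter Topology Metric
open scoped ENNReal

namespace Pool.Agent.MP_d0b2d2_an.Gen.TS

variable {X : Type} [TopologicalSpace X] [T2Space X] [CompactSpace X] [MeasurableSpace X]
  [BorelSpace X] [SecondCountableTopology X] {μ : Measure X} [IsProbabilityMeasure μ] {S : TS X μ}
  {δ : X → ℂ → ℝ}

/-- exact fields have mean zero -/
theorem mean_E {e : Lp ℂ 2 μ} (h : e ∈ S.E) : ∫ x, e x ∂μ = 0 := lip_mean_E h

/-- closed fields are symplectically orthogonal to exact fields -/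
theorem closed {u e : Lp ℂ 2 μ} (hu : u ∈ S.Zset) (he : e ∈ S.E) : (lpAct μ).Om u e = 0 :=
  lip_closed hu he

omit [IsProbabilityMeasure μ] in
theorem Cocycle.eLpNorm_le (h : S.Cocycle δ) {u : Lp ℂ 2 μ} (g : HasGrad μ δ u) (v : ℂ) :
    eLpNorm (fun x => δ x v) 2 μ ≤ ENNReal.ofReal (‖v‖ * ‖u‖) := h.lip_eLpNorm_le g v

omit [CompactSpace X] [IsProbabilityMeasure μ] in
lemma Cocycle.lip_ae_diff (h : S.Cocycle δ) {l : ℝ} (hl : 0 ≤ l)
    (h' : ∀ x v, |δ x v| ≤ l * ‖v‖) : ∀ᵐ x ∂μ, DifferentiableAt ℝ (δ x) 0 := by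
  refine ae_local (S := S) fun x hx => ?_
  obtain ⟨r, hr, hb⟩ := Metric.isOpen_iff.1 (isOpen_ok_right (S := S) x) 0 (ok_zero.2 hx)
  refine ⟨r, hr, ?_⟩
  have hc := fun y hy y' hy' => h.convex (convex_ball 0 r) (mem_ball_self hr) hb (y := y)
    (y' := y') hy hy'
  have hlip : LipschitzOnWith ⟨l, hl⟩ (δ x) (ball 0 r) := by
    refine LipschitzOnWith.of_dist_le_mul fun y hy y' hy' => ?_
    rw [Real.dist_eq, ← hc y' hy' y hy, dist_eq_norm]
    exact h' _ _
  filter_upwards [hlip.ae_differentiableWithinAt_of_mem (μ := volume)] with y hy h1 _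
  have h2 : y ∈ ball (0 : ℂ) r := by simpa using h1
  have h3 := (hy h2).differentiableAt (isOpen_ball.mem_nhds h2)
  have h4 : DifferentiableAt ℝ (fun d => δ x (y + d) - δ x y) 0 := by
    refine DifferentiableAt.sub_const ?_ _
    exact DifferentiableAt.comp (g := δ x) 0 (by simpa using h3) (by fun_prop)
  refine h4.congr_of_eventuallyEq ?_
  have : ∀ᶠ d in 𝓝 (0 : ℂ), y + d ∈ ball (0 : ℂ) r :=
    ContinuousAt.eventually_mem (by fun_prop) (by simpa using isOpen_ball.mem_nhds h2)
  filter_upwards [this] with d hd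
  rw [← hc y h2 _ hd, add_sub_cancel_left]

omit [CompactSpace X] in
/-- Lipschitz cocycles have a bounded gradient -/
theorem Cocycle.grad_of_lip (h : S.Cocycle δ) {l : ℝ} (hl : 0 ≤ l)
    (h' : ∀ x v, |δ x v| ≤ l * ‖v‖) : ∃ u : Lp ℂ 2 μ, HasGrad μ δ u ∧ ∀ᵐ x ∂μ, ‖u x‖ ≤ l ∧
      ∀ w : ℂ, HasDerivAt (fun t : ℝ => δ x (t • w)) (wedge w (u x)) 0 := by
  let u0 : X → ℂ := fun x =>
    (-fderiv ℝ (δ x) 0 Complex.I : ℝ) + (fderiv ℝ (δ x) 0 1 : ℝ) * Complex.I
  have hw : ∀ x w, wedge w (u0 x) = fderiv ℝ (δ x) 0 w := by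
    intro x w
    have : w = w.re • (1 : ℂ) + w.im • Complex.I := by apply Complex.ext <;> simp
    conv_rhs => rw [this, map_add, map_smul, map_smul]
    simp [wedge, u0]
  have hd : ∀ᵐ x ∂μ, ∀ w : ℂ, HasDerivAt (fun t : ℝ => δ x (t • w)) (wedge w (u0 x)) 0 := by
    filter_upwards [h.lip_ae_diff hl h'] with x hx w
    rw [hw]
    have h1 : HasDerivAt (fun t : ℝ => t • w) w 0 := by simpa using (hasDerivAt_id (0 : ℝ)).smul_const w
    exact HasFDerivAt.comp_hasDerivAt (f := fun t : ℝ => t • w) 0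
      (by simpa using hx.hasFDerivAt) h1
  have hq : ∀ x (w : ℂ) (t : ℝ), |δ x (t • w) / t| ≤ l * ‖w‖ := by
    intro x w t
    rcases eq_or_ne t 0 with rfl | ht
    · simp; positivity
    rw [abs_div, div_le_iff₀ (abs_pos.2 ht)]
    have := h' x (t • w)
    rw [norm_smul, Real.norm_eq_abs] at this
    linarith
  have hlim : ∀ᵐ x ∂μ, ∀ w : ℂ,
      Tendsto (fun t : ℝ => δ x (t • w) / t) (𝓝[≠] 0) (𝓝 (wedge w (u0 x))) := by
    filter_upwards [hd] with x hx w
    refine (hx w).tendsto_slope_zero.congr fun t => ?_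
    simp [h.zero, div_eq_inv_mul]
  have hb : ∀ᵐ x ∂μ, ∀ w, |wedge w (u0 x)| ≤ l * ‖w‖ := by
    filter_upwards [hlim] with x hx w
    exact le_of_tendsto' (hx w).abs fun t => hq x w t
  have hn : ∀ᵐ x ∂μ, ‖u0 x‖ ≤ l := by
    filter_upwards [hb] with x hx
    have h1 := hx (-Complex.I * u0 x)
    have h2 : wedge (-Complex.I * u0 x) (u0 x) = ‖u0 x‖ ^ 2 := by
      rw [← dot_self]; simp [wedge, dot]; ring
    rw [h2, abs_of_nonneg (sq_nonneg _)] at h1
    simp only [norm_mul, norm_neg, Complex.norm_I, one_mul] at h1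
    by_contra hlt
    push Not at hlt
    nlinarith
  have ht : Tendsto (fun n : ℕ => 1 / ((n : ℝ) + 1)) atTop (𝓝[≠] 0) :=
    tendsto_nhdsWithin_iff.2 ⟨tendsto_one_div_add_atTop_nhds_zero_nat,
      Eventually.of_forall fun n => by simp; positivity⟩
  have hm : ∀ w, AEStronglyMeasurable (fun x => wedge w (u0 x)) μ := fun w =>
    aestronglyMeasurable_of_tendsto_ae atTop
      (fun n : ℕ => ((h.lip_meas ((1 / ((n : ℝ) + 1)) • w)).div_const
        (1 / ((n : ℝ) + 1))).aestronglyMeasurable)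
      (by filter_upwards [hlim] with x hx using (hx w).comp ht)
  have hm0 : AEStronglyMeasurable u0 μ := by
    have a1 := Complex.continuous_ofReal.comp_aestronglyMeasurable (hm Complex.I).neg
    have a2 := (Complex.continuous_ofReal.comp_aestronglyMeasurable (hm 1)).mul_const Complex.I
    refine (a1.add a2).congr (ae_of_all _ fun x => ?_)
    simp only [Pi.add_apply, Pi.neg_apply, hw, u0]
  have hL : MemLp u0 2 μ := MemLp.of_bound hm0 l hn
  refine ⟨hL.toLp u0, fun w => ?_, ?_⟩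
  · have e : ∀ t : ℝ, eLpNorm (fun x => δ x (t • w) / t - wedge w (hL.toLp u0 x)) 2 μ =
        (∫⁻ x, ‖δ x (t • w) / t - wedge w (u0 x)‖ₑ ^ (2 : ℝ) ∂μ) ^ (1 / 2 : ℝ) := by
      intro t
      rw [eLpNorm_congr_ae (g := fun x => δ x (t • w) / t - wedge w (u0 x))
        (by filter_upwards [hL.coeFn_toLp] with x hx using by rw [hx]),
        eLpNorm_eq_lintegral_rpow_enorm_toReal (by norm_num) (by norm_num)]
      norm_num
    simp_rw [e]
    have key := tendsto_lintegral_filter_of_dominated_convergence' (μ := μ) (l := 𝓝[≠] (0 : ℝ))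
      (F := fun t x => ‖δ x (t • w) / t - wedge w (u0 x)‖ₑ ^ (2 : ℝ)) (f := fun _ => 0)
      (fun _ => ENNReal.ofReal (2 * (l * ‖w‖)) ^ (2 : ℝ))
      (Eventually.of_forall fun t => (((h.lip_meas _).div_const t).aemeasurable.sub
        (hm w).aemeasurable).enorm.pow_const _)
      (Eventually.of_forall fun t => by
        filter_upwards [hb] with x hx
        refine ENNReal.rpow_le_rpow ?_ (by norm_num)
        rw [← ofReal_norm]
        refine ENNReal.ofReal_le_ofReal ((norm_sub_le _ _).trans ?_)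
        have := hq x w t
        have := hx w
        simp only [Real.norm_eq_abs]
        linarith)
      (by
        rw [lintegral_const, measure_univ, mul_one]
        exact ENNReal.rpow_ne_top_of_nonneg (by norm_num) ENNReal.ofReal_ne_top)
      (by
        filter_upwards [hlim] with x hx
        have h1 := ((hx w).sub_const (wedge w (u0 x))).enorm
        rw [sub_self, enorm_zero] at h1
        simpa using h1.ennrpow_const (2 : ℝ))
    rw [lintegral_zero] at key
    simpa using key.ennrpow_const (1 / 2 : ℝ)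
  · filter_upwards [hL.coeFn_toLp, hn, hd] with x h1 h2 h3
    rw [h1]
    exact ⟨h2, h3⟩

omit [T2Space X] [CompactSpace X] [BorelSpace X] [SecondCountableTopology X]
  [IsProbabilityMeasure μ] in
lemma lip_contAt {x : X} {y : ℂ} (h : S.Ok x y) {Y : Type} [TopologicalSpace Y] {f : X → Y}
    {k : ℂ → Y} (hk : ContinuousAt k y) (hf : ∀ᶠ y' in 𝓝 y, f (S.mv x y') = k y') :
    ContinuousAt f (S.mv x y) := by
  have h1 : 𝓝 (S.mv x y) ≤ Filter.map (S.mv x) (𝓝 y) := by
    intro V hV
    obtain ⟨W, hW, hWo, hy⟩ := _root_.mem_nhds_iff.1 hV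
    refine mem_of_superset ((isOpen_image (hWo.inter (isOpen_ok_right (S := S) x))
      fun _ hz => hz.2).mem_nhds ⟨y, ⟨hy, h⟩, rfl⟩) ?_
    rintro _ ⟨z, hz, rfl⟩
    exact hW hz.1
  rw [ContinuousAt, hf.self_of_nhds]
  exact (tendsto_map' (hk.tendsto.congr' (hf.mono fun _ h => h.symm))).mono_left h1

omit [CompactSpace X] [BorelSpace X] [SecondCountableTopology X] [IsProbabilityMeasure μ] in
/-- a continuous function supported in an embedded disc -/
theorem exists_bump {x : X} {ρ r : ℝ} (hx : x ∈ S.XR ρ) (hi : InjOn (S.mv x) (ball 0 ρ))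
    (hr : r < ρ) {Y : Type} [TopologicalSpace Y] {k : ℂ → Y} (hk : Continuous k) {c : Y}
    (hs : ∀ y, r < ‖y‖ → k y = c) : ∃ f : C(X, Y), (∀ y, ‖y‖ < ρ → f (S.mv x y) = k y) ∧
      ∀ q, q ∉ S.mv x '' closedBall 0 r → f q = c := by
  classical
  let f : X → Y := fun q => if h : ∃ y, ‖y‖ < ρ ∧ S.mv x y = q then k h.choose else c
  have h1 : ∀ y, ‖y‖ < ρ → f (S.mv x y) = k y := by
    intro y hy
    have h : ∃ y', ‖y'‖ < ρ ∧ S.mv x y' = S.mv x y := ⟨y, hy, rfl⟩
    simp only [f, dif_pos h]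
    rw [hi (by simpa using h.choose_spec.1) (by simpa using hy) h.choose_spec.2]
  have h2 : ∀ q, q ∉ S.mv x '' closedBall 0 r → f q = c := by
    intro q hq
    by_cases h : ∃ y, ‖y‖ < ρ ∧ S.mv x y = q
    · obtain ⟨y, hy, rfl⟩ := h
      rw [h1 y hy]
      exact hs y (not_le.1 fun h' => hq ⟨y, by simpa using h', rfl⟩)
    · simp only [f, dif_neg h]
  have hK : IsCompact (S.mv x '' closedBall 0 r) :=
    (isCompact_closedBall 0 r).image_of_continuousOn fun y hy =>
      (continuousAt_mv_right (hx y ((mem_closedBall_zero_iff.1 hy).trans_lt hr))).continuousWithinAt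
  refine ⟨⟨f, continuous_iff_continuousAt.2 fun q => ?_⟩, h1, h2⟩
  by_cases hq : q ∈ S.mv x '' closedBall 0 r
  · obtain ⟨y, hy, rfl⟩ := hq
    have hy' := (mem_closedBall_zero_iff.1 hy).trans_lt hr
    refine lip_contAt (hx y hy') hk.continuousAt ?_
    filter_upwards [isOpen_ball.mem_nhds (mem_ball_zero_iff.2 hy')] with y' h
    exact h1 y' (mem_ball_zero_iff.1 h)
  · refine (continuousAt_const (y := c)).congr ?_
    filter_upwards [hK.isClosed.isOpen_compl.mem_nhds hq] with q' h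
    exact (h2 q' h).symm

omit [T2Space X] [CompactSpace X] [BorelSpace X] [SecondCountableTopology X]
  [IsProbabilityMeasure μ] in
lemma IsInc.lip_local {Φ : C(X, UnitAddCircle)} (h : S.IsInc Φ δ) {q : X} (hq : q ∉ S.Sg)
    {g : ℂ → ℝ} (hg : ContinuousAt g 0) (g0 : g 0 = 0)
    (hl : ∀ᶠ d in 𝓝 0, ((g d : ℝ) : UnitAddCircle) = Φ (S.mv q d) - Φ q) :
    ∀ᶠ d in 𝓝 0, δ q d = g d := by
  have h0 : S.Ok q 0 := ok_zero.2 hq
  have h1 : ContinuousAt (δ q) 0 :=
    ContinuousAt.comp (g := Function.uncurry δ) (f := fun d => (q, d))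
      (h.cont.continuousAt (S.isOpen_ok.mem_nhds h0)) (by fun_prop)
  have h2 : Tendsto (fun d => |δ q d - g d|) (𝓝 0) (𝓝 0) := by
    simpa [h.zero, g0] using (h1.tendsto.sub hg.tendsto).abs
  filter_upwards [hl, h2.eventually_lt_const one_pos, (isOpen_ok_right (S := S) q).mem_nhds h0]
    with d a1 a2 a3
  have a4 : ((δ q d - g d : ℝ) : UnitAddCircle) = 0 := by
    rw [AddCircle.coe_sub, h.lift q d a3, a1, sub_self]
  obtain ⟨n, hn⟩ := (AddCircle.coe_eq_zero_iff _).1 a4
  rw [← hn, zsmul_one, ← Int.cast_abs] at a2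
  have : n = 0 := Int.abs_lt_one_iff.1 (by exact_mod_cast a2)
  rw [this] at hn
  simp at hn
  linarith

lemma lip_null_line {v : ℂ} (hv : v ≠ 0) (a : ℝ) : volume {y : ℂ | wedge y v = a} = 0 := by
  let L : ℂ →ₗ[ℝ] ℝ :=
    { toFun := fun y => wedge y v
      map_add' := fun y y' => wedge_add_left _ _ _
      map_smul' := fun r y => wedge_smul_left _ _ _ }
  have hn : ‖v‖ ^ 2 ≠ 0 := by simpa using hv
  have e1 : wedge (-Complex.I * v) v = ‖v‖ ^ 2 := by rw [← dot_self]; simp [wedge, dot]; ring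
  have h1 : LinearMap.ker L ≠ ⊤ := fun h => by
    have : -Complex.I * v ∈ LinearMap.ker L := h ▸ Submodule.mem_top
    exact hn (e1.symm.trans this)
  have h2 := Measure.addHaar_submodule (volume : Measure ℂ) _ h1
  rw [← measure_preimage_add_right _ (-((a / ‖v‖ ^ 2) • (-Complex.I * v)))] at h2
  convert h2 using 2
  ext y
  simp only [mem_ofPred_eq, mem_preimage, SetLike.mem_coe, LinearMap.mem_ker]
  change _ ↔ wedge _ v = 0
  rw [wedge_add_left, wedge_neg_left, wedge_smul_left, e1, div_mul_cancel₀ _ hn, add_neg_eq_zero]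

/-- the integral class of a cylinder -/
theorem IsCyl.exists_class {x : X} {v : ℂ} {c : ℝ} (H : S.IsCyl x v c) : ∃ u ∈ S.Iset,
    ∀ᵐ q ∂μ, (u : X → ℂ) q = (S.cyl x v c).indicator (fun _ => (2 * c)⁻¹ • v) q := by
  classical
  obtain ⟨hv, hc, hok, hper⟩ := H
  have hv' : 0 < ‖v‖ := norm_pos_iff.2 hv
  let cl : ℝ → ℝ := fun t => max 0 (min 1 ((t + c) / (2 * c)))
  have clc : Continuous cl := by fun_prop
  have cll : ∀ s t, |cl s - cl t| ≤ |s - t| / (2 * c) := by
    intro s t
    refine (abs_max_sub_max_le_max _ _ _ _).trans (max_le (by simp; positivity) ?_)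
    refine (abs_min_sub_min_le_max _ _ _ _).trans (max_le (by simp; positivity) ?_)
    rw [← sub_div, abs_div, abs_of_pos (a := 2 * c) (by positivity)]
    simp
  have cl0 : ∀ t, c < |t| → ((cl t : ℝ) : UnitAddCircle) = 0 := by
    intro t ht
    rcases lt_abs.1 ht with h | h
    · have : cl t = 1 := by
        simp only [cl]
        rw [min_eq_left (by rw [le_div_iff₀ (by positivity)]; linarith), max_eq_right zero_le_one]
      rw [this]; exact AddCircle.coe_period 1
    · have : cl t = 0 := max_eq_left ((min_le_right _ _).trans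
        (div_nonpos_of_nonpos_of_nonneg (by linarith) (by positivity)))
      rw [this]; rfl
  have cl1 : ∀ t, |t| < c → cl t = (t + c) / (2 * c) := by
    intro t ht
    have := abs_lt.1 ht
    simp only [cl]
    rw [min_eq_right (by rw [div_le_iff₀ (by positivity)]; linarith),
      max_eq_right (div_nonneg (by linarith) (by positivity))]
  have wc : Continuous fun y => wedge y v := continuous_wedge.comp (Continuous.prodMk_left v)
  let D : Set ℂ := {y | |wedge y v| < 3 * c}
  have Do : IsOpen D := isOpen_lt wc.abs continuous_const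
  have Dc : Convex ℝ D := by
    intro y hy y' hy' a b ha hb hab
    have h1 := abs_lt.1 hy.out
    have h2 := abs_lt.1 hy'.out
    change |wedge _ v| < _
    rw [wedge_add_left, wedge_smul_left, wedge_smul_left, abs_lt]
    rcases ha.eq_or_lt with rfl | ha'
    · have : b = 1 := by linarith
      subst this; simpa using h2
    · obtain rfl : b = 1 - a := by linarith
      constructor <;> nlinarith [mul_pos ha' (sub_pos.2 h1.1), mul_pos ha' (sub_pos.2 h1.2),
        mul_nonneg hb (sub_pos.2 h2.1).le, mul_nonneg hb (sub_pos.2 h2.2).le]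
  have D0 : (0 : ℂ) ∈ D := by simp [D, wedge_zero_left, hc]
  let F : X → UnitAddCircle := fun q =>
    if h : ∃ y ∈ D, S.mv x y = q then ((cl (wedge h.choose v) : ℝ) : UnitAddCircle) else 0
  have h1 : ∀ y ∈ D, F (S.mv x y) = ((cl (wedge y v) : ℝ) : UnitAddCircle) := by
    intro y hy
    have h : ∃ y' ∈ D, S.mv x y' = S.mv x y := ⟨y, hy, rfl⟩
    simp only [F, dif_pos h]
    obtain ⟨n, hn⟩ := (hper _ _ h.choose_spec.1 hy).1 h.choose_spec.2
    have := congrArg (fun z => wedge z v) hn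
    simp only [wedge_sub_left, wedge_smul_left, wedge_self, mul_zero] at this
    rw [sub_eq_zero.1 this]
  let K : Set X := S.mv x '' {y | |wedge y v| ≤ c}
  have h2 : ∀ q ∉ K, F q = 0 := by
    intro q hq
    by_cases h : ∃ y ∈ D, S.mv x y = q
    · obtain ⟨y, hy, rfl⟩ := h
      rw [h1 y hy]
      exact cl0 _ (not_le.1 fun h' => hq ⟨y, h', rfl⟩)
    · simp only [F, dif_neg h]
  have sub : ∀ y, |wedge y v| ≤ c → y ∈ D := fun y hy => hy.trans_lt (by linarith)
  have hK : IsCompact K := by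
    have : K = S.mv x '' (closedBall 0 (‖v‖ + c / ‖v‖) ∩ {y | |wedge y v| ≤ c}) := by
      refine Subset.antisymm ?_ (image_mono inter_subset_right)
      rintro _ ⟨y, hy, rfl⟩
      set n := ⌊dot y v / ‖v‖ ^ 2⌋
      have e1 : wedge (y - (n : ℝ) • v) v = wedge y v := by
        simp only [wedge_sub_left, wedge_smul_left, wedge_self, mul_zero, sub_zero]
      have hy' : |wedge (y - (n : ℝ) • v) v| ≤ c := by rw [e1]; exact hy
      refine ⟨y - (n : ℝ) • v, ⟨?_, hy'⟩, (hper _ _ (sub _ hy') (sub _ hy)).2 ⟨n, by simp⟩⟩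
      have a1 := Int.floor_le (dot y v / ‖v‖ ^ 2)
      have a2 := Int.lt_floor_add_one (dot y v / ‖v‖ ^ 2)
      rw [le_div_iff₀ (by positivity)] at a1
      rw [div_lt_iff₀ (by positivity)] at a2
      have a3 := dot_sq_add_wedge_sq (y - (n : ℝ) • v) v
      rw [dot_sub_left, dot_smul_left, dot_self] at a3
      have a4 := sq_le_sq' (abs_le.1 hy').1 (abs_le.1 hy').2
      have a5 : (dot y v - n * ‖v‖ ^ 2) ^ 2 ≤ (‖v‖ ^ 2) ^ 2 :=
        sq_le_sq' (by nlinarith) (by linarith)
      rw [mem_closedBall_zero_iff]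
      refine le_of_mul_le_mul_right (le_of_sq_le_sq ?_ (by positivity)) hv'
      rw [add_mul, div_mul_cancel₀ _ hv'.ne', mul_pow]
      nlinarith [mul_pos hc (mul_pos hv' hv')]
    rw [this]
    exact ((isCompact_closedBall _ _).inter_right (isClosed_le wc.abs continuous_const)).image_of_continuousOn
      fun y hy => (continuousAt_mv_right (hok y (sub y hy.2))).continuousWithinAt
  have Fc : Continuous F := continuous_iff_continuousAt.2 fun q => by
    by_cases hq : q ∈ K
    · obtain ⟨y, hy, rfl⟩ := hq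
      refine lip_contAt (hok y (sub y hy))
        ((AddCircle.continuous_mk' 1).comp (clc.comp wc)).continuousAt ?_
      filter_upwards [Do.mem_nhds (sub y hy)] with y' h
      exact h1 y' h
    · refine (continuousAt_const (y := 0)).congr ?_
      filter_upwards [hK.isClosed.isOpen_compl.mem_nhds hq] with q' h
      exact (h2 q' h).symm
  obtain ⟨δ, hδ⟩ := S.exists_inc ⟨F, Fc⟩
  have locA : ∀ y ∈ D, ∀ᶠ d in 𝓝 (0 : ℂ),
      δ (S.mv x y) d = cl (wedge y v + wedge d v) - cl (wedge y v) := by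
    intro y hy
    refine hδ.lip_local (S.reg _ _ (hok y hy)).2 (by fun_prop) (by simp [wedge_zero_left]) ?_
    have : ∀ᶠ d in 𝓝 (0 : ℂ), y + d ∈ D :=
      ContinuousAt.eventually_mem (by fun_prop) (by simpa using Do.mem_nhds hy)
    filter_upwards [this] with d hd
    have := (convex_ok Dc D0 hok y hy _ hd).2
    rw [add_sub_cancel_left] at this
    simp only [ContinuousMap.coe_mk]
    rw [this, h1 _ hd, h1 _ hy, AddCircle.coe_sub, wedge_add_left]
  have locB : ∀ q ∉ S.Sg, q ∉ K → ∀ᶠ d in 𝓝 (0 : ℂ), δ q d = 0 := by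
    intro q hq hq'
    refine hδ.lip_local hq continuousAt_const rfl ?_
    have := (continuousAt_mv_right (ok_zero.2 hq)).eventually_mem
      (hK.isClosed.isOpen_compl.mem_nhds (by rw [S.mv_zero]; exact hq'))
    filter_upwards [this] with d hd
    simp only [ContinuousMap.coe_mk]
    rw [h2 _ hd, h2 _ hq']; simp
  have hl : 0 ≤ ‖v‖ / (2 * c) := by positivity
  obtain ⟨u, hu1, hu2⟩ := hδ.cocycle.grad_of_lip hl (hδ.cocycle.lip_of_local hl fun q hq => by
    have : ∀ᶠ d in 𝓝 (0 : ℂ), |δ q d| ≤ ‖v‖ / (2 * c) * ‖d‖ := by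
      by_cases hq' : q ∈ K
      · obtain ⟨y, hy, rfl⟩ := hq'
        filter_upwards [locA y (sub y hy)] with d hd
        rw [hd]
        refine (cll _ _).trans ?_
        rw [add_sub_cancel_left, div_mul_eq_mul_div, mul_comm ‖v‖]
        exact div_le_div_of_nonneg_right (abs_wedge_le _ _) (by positivity)
      · filter_upwards [locB q hq hq'] with d hd
        rw [hd, abs_zero]; positivity
    obtain ⟨r, hr, h⟩ := Metric.eventually_nhds_iff.1 this
    exact ⟨r, hr, fun d hd => h (by simpa using hd)⟩)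
  refine ⟨u, ⟨_, δ, hδ, hu1⟩, ?_⟩
  have hnull : ∀ a : ℝ, |a| = c → ∀ᵐ q ∂μ, q ∉ S.mv x '' {y | wedge y v = a} := fun a ha =>
    measure_eq_zero_iff_ae_notMem.1 (le_antisymm ((measure_image_le
      (isClosed_eq wc continuous_const).measurableSet fun y hy => hok y (sub y (by
        rw [hy.out, ha]))).trans (lip_null_line hv a).le) zero_le)
  have ext : ∀ z z' : ℂ, (∀ w, wedge w z = wedge w z') → z = z' := fun z z' h => by
    have a := h 1
    have b := h Complex.I
    simp only [wedge] at a b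
    exact Complex.ext (by simpa using b) (by simpa using a)
  have tw : ∀ w : ℂ, Tendsto (fun t : ℝ => t • w) (𝓝 0) (𝓝 0) := fun w =>
    Continuous.tendsto' (by fun_prop) _ _ (by simp)
  filter_upwards [hu2, S.ae_ok 0, hnull c (abs_of_pos hc), hnull (-c) (by simp [abs_of_pos hc])]
    with q q1 q2 q3 q4
  by_cases hq : q ∈ S.cyl x v c
  · rw [indicator_of_mem hq]
    obtain ⟨y, hy, rfl⟩ := hq
    refine ext _ _ fun w => (q1.2 w).unique ?_
    have a1 : ∀ᶠ d in 𝓝 (0 : ℂ), |wedge y v + wedge d v| < c :=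
      ContinuousAt.eventually_lt (by fun_prop) continuousAt_const
        (by simpa [wedge_zero_left] using hy)
    have a2 : HasDerivAt (fun t : ℝ => t * wedge w ((2 * c)⁻¹ • v)) (wedge w ((2 * c)⁻¹ • v)) 0 := by
      simpa using (hasDerivAt_id (0 : ℝ)).mul_const (wedge w ((2 * c)⁻¹ • v))
    refine a2.congr_of_eventuallyEq ?_
    filter_upwards [(tw w).eventually a1, (tw w).eventually (locA y (sub y hy.out.le))] with t b1 b2
    rw [b2, cl1 _ b1, cl1 _ hy, wedge_smul_left, wedge_smul_right]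
    field_simp
    ring
  · rw [indicator_of_notMem hq]
    have hq' : q ∉ K := by
      rintro ⟨y, hy, rfl⟩
      rcases hy.out.eq_or_lt with h | h
      · rcases (abs_eq hc.le).1 h with h | h
        · exact q3 ⟨y, h, rfl⟩
        · exact q4 ⟨y, h, rfl⟩
      · exact hq ⟨y, h, rfl⟩
    refine ext _ _ fun w => (q1.2 w).unique ?_
    rw [wedge_zero_right]
    refine (hasDerivAt_const (0 : ℝ) (0 : ℝ)).congr_of_eventuallyEq ?_
    exact (tw w).eventually (locB q (ok_zero.1 q2) hq')

end Pool.Agent.MP_d0b2d2_an.Gen.TS
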