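import Pool.Agent.MP_d0b2d2_an.Gen.Coc
import Pool.Agent.MP_d0b2d2_an.Gen.Cyl

open MeasureTheory Set Filter Topology Metric
open scoped ENNReal

namespace Pool.Agent.MP_d0b2d2_an.Gen.TS

lemma lip_tendsto_mul {X ι : Type} [MeasurableSpace X] {μ : Measure X} {l : Filter ι}
    {a b : ι → X → ℝ} {a0 b0 : X → ℝ} (ha0 : MemLp a0 2 μ) (hb0 : MemLp b0 2 μ)
    (hma : ∀ i, AEStronglyMeasurable (a i) μ) (hmb : ∀ i, AEStronglyMeasurable (b i) μ)
    (ha : Tendsto (fun i => eLpNorm (fun x => a i x - a0 x) 2 μ) l (𝓝 0))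
    (hb : Tendsto (fun i => eLpNorm (fun x => b i x - b0 x) 2 μ) l (𝓝 0)) :
    Tendsto (fun i => ∫ x, a i x * b i x ∂μ) l (𝓝 (∫ x, a0 x * b0 x ∂μ)) := by
  classical
  have key : ∀ {a : ι → X → ℝ} {a0 : X → ℝ} (ha0 : MemLp a0 2 μ),
      (∀ i, AEStronglyMeasurable (a i) μ) →
      Tendsto (fun i => eLpNorm (fun x => a i x - a0 x) 2 μ) l (𝓝 0) →
      ∃ A : ι → Lp ℝ 2 μ, Tendsto A l (𝓝 (ha0.toLp a0)) ∧ ∀ᶠ i in l, A i =ᵐ[μ] a i := by
    intro a a0 ha0 hma ha
    have h1 : ∀ᶠ i in l, MemLp (a i) 2 μ := by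
      filter_upwards [ha.eventually_lt_const (show (0 : ℝ≥0∞) < 1 by simp)] with i hi
      have h2 : MemLp (fun x => a i x - a0 x) 2 μ :=
        ⟨(hma i).sub ha0.1, hi.trans ENNReal.one_lt_top⟩
      have := h2.add ha0
      refine (memLp_congr_ae (ae_of_all _ fun x => ?_)).1 this
      simp
    let A : ι → Lp ℝ 2 μ := fun i => if h : MemLp (a i) 2 μ then h.toLp (a i) else 0
    have h3 : ∀ᶠ i in l, A i =ᵐ[μ] a i := by
      filter_upwards [h1] with i hi
      simp only [A, dif_pos hi]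
      exact hi.coeFn_toLp
    refine ⟨A, ?_, h3⟩
    rw [Lp.tendsto_Lp_iff_tendsto_eLpNorm]
    refine ha.congr' ?_
    filter_upwards [h3] with i hi
    refine eLpNorm_congr_ae ?_
    filter_upwards [hi] with x hx
    simp [hx]
  obtain ⟨A, A1, A2⟩ := key ha0 hma ha
  obtain ⟨B, B1, B2⟩ := key hb0 hmb hb
  have h := A1.inner (𝕜 := ℝ) B1
  have e : inner ℝ (ha0.toLp a0) (hb0.toLp b0) = ∫ x, a0 x * b0 x ∂μ := by
    rw [L2.inner_def]
    refine integral_congr_ae ?_
    filter_upwards [ha0.coeFn_toLp, hb0.coeFn_toLp] with x h1 h2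
    simp [h1, h2, mul_comm]
  rw [e] at h
  refine h.congr' ?_
  filter_upwards [A2, B2] with i h1 h2
  rw [L2.inner_def]
  refine integral_congr_ae ?_
  filter_upwards [h1, h2] with x h1 h2
  simp [h1, h2, mul_comm]

lemma lip_memLp_wedge {X : Type} [MeasurableSpace X] {μ : Measure X} (u : Lp ℂ 2 μ) (w : ℂ) :
    MemLp (fun x => wedge w (u x)) 2 μ := by
  refine MemLp.of_le_mul (c := ‖w‖) (Lp.memLp u) ?_ (ae_of_all _ fun x => abs_wedge_le _ _)
  exact (continuous_wedge.comp (Continuous.prodMk_right w)).comp_aestronglyMeasurable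
    (Lp.aestronglyMeasurable u)

variable {X : Type} [TopologicalSpace X] [T2Space X] [CompactSpace X] [MeasurableSpace X]
  [BorelSpace X] [SecondCountableTopology X] {μ : Measure X} [IsProbabilityMeasure μ] {S : TS X μ}
  {δ : X → ℂ → ℝ}

omit [T2Space X] [CompactSpace X] [IsProbabilityMeasure μ] in
lemma Cocycle.lip_meas (h : S.Cocycle δ) (v : ℂ) : Measurable fun x => δ x v :=
  h.measurable.comp (measurable_id.prodMk measurable_const)

omit [IsProbabilityMeasure μ] in
lemma lip_shift {F : X → ℝ} (hF : Measurable F) (v : ℂ) :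
    ∫ x, F (S.mv x v) ∂μ = ∫ x, F x ∂μ := by
  have := integral_map (μ := μ) (φ := fun q => S.mv q v) (S.measurePreserving_mv v).aemeasurable
    (f := F) hF.aestronglyMeasurable
  rw [(S.measurePreserving_mv v).map_eq] at this
  exact this.symm

theorem lip_mean_E {e : Lp ℂ 2 μ} (h : e ∈ S.E) : ∫ x, e x ∂μ = 0 := by
  obtain ⟨f, hf⟩ := mem_E.1 h
  have hfi : ∀ v, Integrable (fun x => f (S.mv x v)) μ := fun v =>
    Integrable.of_bound ((f.continuous.measurable.comp
      (S.measurePreserving_mv v).measurable).aestronglyMeasurable) ‖f‖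
      (ae_of_all _ fun x => f.norm_coe_le_norm _)
  have hf0 : Integrable f μ := Integrable.of_bound f.continuous.aestronglyMeasurable ‖f‖
      (ae_of_all _ fun x => f.norm_coe_le_norm _)
  have key : ∀ w, ∫ x, wedge w (e x) ∂μ = 0 := by
    intro w
    have := lip_tendsto_mul (l := 𝓝[≠] (0 : ℝ)) (b := fun _ _ => 1) (lip_memLp_wedge e w)
      (memLp_const (1 : ℝ))
      (fun h => (((S.cocycle_real f).lip_meas (h • w)).div_const h).aestronglyMeasurable)
      (fun _ => aestronglyMeasurable_const) (hf w) (by simp)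
    simp only [mul_one] at this
    refine tendsto_nhds_unique this (tendsto_const_nhds.congr fun h => ?_)
    rw [integral_div, integral_sub (hfi _) hf0, lip_shift f.continuous.measurable]
    simp
  have hi : Integrable e μ := (Lp.memLp e).integrable (by norm_num)
  apply Complex.ext
  · have h1 := key (-Complex.I)
    have h2 := integral_re hi
    simp only [wedge, RCLike.re_to_complex] at h1 h2
    simpa [h2] using h1
  · have h1 := key 1
    have h2 := integral_im hi
    simp only [wedge, RCLike.im_to_complex] at h1 h2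
    simpa [h2] using h1

omit [IsProbabilityMeasure μ] in
lemma lip_shift_mul {F : X → ℝ} (hF : Measurable F) (f : C(X, ℝ)) (v : ℂ) :
    ∫ x, F x * f (S.mv x v) ∂μ = ∫ x, F (S.mv x (-v)) * f x ∂μ := by
  rw [← lip_shift (S := S) (F := fun x => F x * f (S.mv x v)) (hF.mul
    (f.continuous.measurable.comp (S.measurePreserving_mv v).measurable)) (-v)]
  refine integral_congr_ae ?_
  filter_upwards [S.ae_ok (-v)] with x hx
  have := (ok_symm hx).2
  rw [neg_neg] at this
  rw [this]

theorem lip_closed {u e : Lp ℂ 2 μ} (hu : u ∈ S.Zset) (he : e ∈ S.E) :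
    (lpAct μ).Om u e = 0 := by
  obtain ⟨f, hf⟩ := mem_E.1 he
  obtain ⟨δ, hδ, hg⟩ := hu
  have m1 := fun (w : ℂ) (h : ℝ) =>
    ((hδ.lip_meas (h • w)).div_const h).aestronglyMeasurable (μ := μ)
  have m2 := fun (w : ℂ) (h : ℝ) =>
    (((S.cocycle_real f).lip_meas (h • w)).div_const h).aestronglyMeasurable (μ := μ)
  have tA := lip_tendsto_mul (lip_memLp_wedge u 1) (lip_memLp_wedge e Complex.I) (m1 1)
    (m2 Complex.I) (hg 1) (hf Complex.I)
  have tB := lip_tendsto_mul (lip_memLp_wedge u (-Complex.I)) (lip_memLp_wedge e (-1))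
    (m1 (-Complex.I)) (m2 (-1)) (hg (-Complex.I)) (hf (-1))
  have tC := tA.sub tB
  have i1 : Integrable (fun x => wedge 1 (u x) * wedge Complex.I (e x)) μ :=
    (lip_memLp_wedge u 1).integrable_mul (lip_memLp_wedge e Complex.I)
  have i2 : Integrable (fun x => wedge (-Complex.I) (u x) * wedge (-1) (e x)) μ :=
    (lip_memLp_wedge u (-Complex.I)).integrable_mul (lip_memLp_wedge e (-1))
  rw [← integral_sub i1 i2] at tC
  rw [lpAct_Om]
  have e0 : ∫ x, wedge (u x) (e x) ∂μ = ∫ x, (wedge 1 (u x) * wedge Complex.I (e x) -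
      wedge (-Complex.I) (u x) * wedge (-1) (e x)) ∂μ := by
    refine integral_congr_ae (ae_of_all _ fun x => ?_)
    simp [wedge]; ring
  rw [e0]
  refine tendsto_nhds_unique tC ?_
  obtain ⟨ε, hε, C, hC⟩ := S.measure_not_XR_small
  rw [Metric.tendsto_nhds]
  intro η' hη'
  set η := η' / (16 * (‖f‖ + 1) * (|C| + 1)) with hη
  have hη0 : 0 < η := by positivity
  obtain ⟨r, hr, hs⟩ := hδ.small η hη0
  have hev : ∀ᶠ h : ℝ in 𝓝[≠] 0, |h| < min r (ε / 2) := by
    refine nhdsWithin_le_nhds ?_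
    filter_upwards [Metric.ball_mem_nhds (0 : ℝ) (lt_min hr (half_pos hε))] with h hh
    simpa using hh
  filter_upwards [hev, self_mem_nhdsWithin] with h hh h0
  have h0' : h ≠ 0 := h0
  have hpos : 0 < |h| := abs_pos.2 h0'
  have hb : ∀ (w : ℂ), ‖w‖ = 1 → ∀ x, |δ x (h • w)| ≤ η := fun w hw x =>
    hs x _ (by rw [norm_smul, hw, mul_one]; exact hh.trans_le (min_le_left _ _))
  have hint : ∀ (w : ℂ), ‖w‖ = 1 → ∀ φ ψ : X → X, Measurable φ → Measurable ψ →
      Integrable (fun x => δ (φ x) (h • w) * f (ψ x)) μ := fun w hw φ ψ hφ hψ =>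
    Integrable.of_bound (((hδ.lip_meas _).comp hφ).mul
      (f.continuous.measurable.comp hψ)).aestronglyMeasurable (η * ‖f‖) (ae_of_all _ fun x => by
        rw [norm_mul]
        exact mul_le_mul (hb w hw _) (f.norm_coe_le_norm _) (norm_nonneg _) hη0.le)
  have mm := fun v => (S.measurePreserving_mv v).measurable
  have j0 : ∀ w : ℂ, ‖w‖ = 1 → Integrable (fun x => δ x (h • w) * f x) μ := fun w hw =>
    hint w hw _ _ measurable_id measurable_id
  have j1 : ∀ w : ℂ, ‖w‖ = 1 → ∀ v, Integrable (fun x => δ (S.mv x v) (h • w) * f x) μ :=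
    fun w hw v => hint w hw _ _ (mm v) measurable_id
  have j2 : ∀ w : ℂ, ‖w‖ = 1 → ∀ v, Integrable (fun x => δ x (h • w) * f (S.mv x v)) μ :=
    fun w hw v => hint w hw _ _ measurable_id (mm v)
  have j3 : ∀ w : ℂ, ‖w‖ = 1 → ∀ v,
      Integrable (fun x => δ (S.mv x v) (h • w) * f x - δ x (h • w) * f x) μ :=
    fun w hw v => (j1 w hw v).sub (j0 w hw)
  have hA : ∀ w w' : ℂ, ‖w‖ = 1 → ∫ x, δ x (h • w) / h * ((f (S.mv x (h • w')) - f x) / h) ∂μ =
      (∫ x, (δ (S.mv x (-(h • w'))) (h • w) * f x - δ x (h • w) * f x) ∂μ) / h ^ 2 := by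
    intro w w' hw
    rw [integral_sub (j1 w hw _) (j0 w hw), ← lip_shift_mul (hδ.lip_meas _) f,
      ← integral_sub (j2 w hw _) (j0 w hw), ← integral_div]
    refine integral_congr_ae (ae_of_all _ fun x => ?_)
    simp only
    field_simp
  have n1 : ‖(1 : ℂ)‖ = 1 := by simp
  have n2 : ‖-Complex.I‖ = 1 := by simp
  rw [hA _ _ n1, hA _ _ n2, ← sub_div, ← integral_sub (j3 _ n1 _) (j3 _ n2 _),
    ← setIntegral_eq_integral_of_forall_compl_eq_zero (s := (S.XR (2 * |h|))ᶜ)]
  · have hm := hC (2 * |h|) (by positivity) (by linarith [hh.trans_le (min_le_right _ _)])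
    have hm' : μ.real (S.XR (2 * |h|))ᶜ ≤ |C| * (4 * h ^ 2) := by
      refine (ENNReal.toReal_mono ENNReal.ofReal_ne_top hm).trans ?_
      rw [ENNReal.toReal_ofReal', mul_pow, sq_abs]
      refine max_le ?_ (by positivity)
      have := mul_le_mul_of_nonneg_right (le_abs_self C) (show 0 ≤ 4 * h ^ 2 by positivity)
      linarith
    have hb2 := norm_setIntegral_le_of_norm_le_const (μ := μ) (s := (S.XR (2 * |h|))ᶜ)
      (f := fun x => (δ (S.mv x (-(h • Complex.I))) (h • 1) * f x - δ x (h • 1) * f x) -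
        (δ (S.mv x (-(h • (-1 : ℂ)))) (h • -Complex.I) * f x - δ x (h • -Complex.I) * f x))
      (C := 4 * η * ‖f‖) (measure_lt_top _ _) fun x _ => by
        have a1 := abs_le.1 (hb _ n1 (S.mv x (-(h • Complex.I))))
        have a2 := abs_le.1 (hb _ n1 x)
        have a3 := abs_le.1 (hb _ n2 (S.mv x (-(h • (-1 : ℂ)))))
        have a4 := abs_le.1 (hb _ n2 x)
        rw [← sub_mul, ← sub_mul, ← sub_mul, norm_mul]
        refine mul_le_mul (abs_le.2 ⟨?_, ?_⟩) (f.norm_coe_le_norm _) (norm_nonneg _) (by positivity)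
        · linarith [a1.1, a2.2, a3.2, a4.1]
        · linarith [a1.2, a2.1, a3.1, a4.2]
    rw [dist_zero_right, norm_div, Real.norm_eq_abs (h ^ 2), abs_of_pos (a := h ^ 2) (by positivity),
      div_lt_iff₀ (by positivity)]
    refine lt_of_le_of_lt (hb2.trans (mul_le_mul_of_nonneg_left hm' (by positivity))) ?_
    have e1 : η' = η * (16 * (‖f‖ + 1) * (|C| + 1)) := by rw [hη]; field_simp
    rw [e1]
    have hh2 : 0 < h ^ 2 := by positivity
    have : ‖f‖ * |C| < (‖f‖ + 1) * (|C| + 1) := by nlinarith [norm_nonneg f, abs_nonneg C]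
    nlinarith [mul_pos hη0 hh2]
  · intro x hx
    rw [mem_compl_iff, not_not] at hx
    have hok : ∀ y ∈ ball (0 : ℂ) (2 * |h|), S.Ok x y := fun y hy => hx y (by simpa using hy)
    have b1 : h • (1 : ℂ) ∈ ball (0 : ℂ) (2 * |h|) := by simp; linarith
    have b2 : h • -Complex.I ∈ ball (0 : ℂ) (2 * |h|) := by simp; linarith
    have b3 : h • (1 : ℂ) + h • -Complex.I ∈ ball (0 : ℂ) (2 * |h|) := by
      rw [mem_ball_zero_iff, ← smul_add, norm_smul, Real.norm_eq_abs, mul_comm]
      refine mul_lt_mul_of_pos_right ?_ hpos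
      refine lt_of_pow_lt_pow_left₀ 2 (by norm_num) ?_
      rw [Complex.sq_norm, Complex.normSq_apply]
      simp; norm_num
    have c1 := hδ.convex (convex_ball 0 _) (mem_ball_self (by positivity)) hok b2 b3
    have c2 := hδ.convex (convex_ball 0 _) (mem_ball_self (by positivity)) hok b1 b3
    rw [add_sub_cancel_right] at c1
    rw [add_sub_cancel_left] at c2
    rw [← smul_neg, ← smul_neg, neg_neg, c1, c2]
    ring

omit [IsProbabilityMeasure μ] in
theorem Cocycle.lip_eLpNorm_le (h : S.Cocycle δ) {u : Lp ℂ 2 μ} (g : HasGrad μ δ u) (v : ℂ) :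
    eLpNorm (fun x => δ x v) 2 μ ≤ ENNReal.ofReal (‖v‖ * ‖u‖) := by
  have key : ∀ n : ℕ, eLpNorm (fun x => δ x v) 2 μ ≤
      eLpNorm (fun x => δ x ((1 / ((n : ℝ) + 1)) • v) / (1 / ((n : ℝ) + 1)) - wedge v (u x)) 2 μ +
        ENNReal.ofReal (‖v‖ * ‖u‖) := by
    intro n
    set t : ℝ := 1 / ((n : ℝ) + 1) with ht
    have t0 : 0 < t := by positivity
    have e1 : (fun x => δ x v) =ᵐ[μ]
        ∑ i ∈ Finset.range (n + 1), fun x => δ (S.mv x (((i : ℝ) * t) • v)) (t • v) := by
      filter_upwards [S.ae_ok v] with x hx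
      have hD : ∀ y ∈ segment ℝ 0 v, S.Ok x y := by
        rintro y ⟨a, b, ha, hb, hab, rfl⟩
        rw [smul_zero, zero_add]
        exact ok_smul hx hb (by linarith)
      have hm : ∀ i : ℕ, i ≤ n + 1 → ((i : ℝ) * t) • v ∈ segment ℝ 0 v := fun i hi => by
        have : (i : ℝ) * t ≤ 1 := by
          rw [ht, mul_one_div, div_le_one (by positivity)]
          exact_mod_cast hi
        exact ⟨1 - i * t, i * t, by linarith, by positivity, by ring, by simp⟩
      rw [Finset.sum_apply, Finset.sum_congr rfl (g := fun i =>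
        δ x ((((i + 1 : ℕ) : ℝ) * t) • v) - δ x (((i : ℝ) * t) • v)),
        Finset.sum_range_sub (fun i : ℕ => δ x (((i : ℝ) * t) • v))]
      · have : ((n + 1 : ℕ) : ℝ) * t = 1 := by rw [ht]; push_cast; field_simp
        rw [this]
        simp [h.zero]
      · intro i hi
        have hi' := Finset.mem_range.1 hi
        rw [← h.convex (convex_segment 0 v) (left_mem_segment _ _ _) hD (hm i hi'.le) (hm (i + 1) hi'),
          ← sub_smul]
        congr 2
        push_cast; ring
    rw [eLpNorm_congr_ae e1]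
    refine (eLpNorm_sum_le (fun i _ => ((h.lip_meas _).comp
      (S.measurePreserving_mv _).measurable).aestronglyMeasurable) (by norm_num)).trans ?_
    rw [Finset.sum_congr rfl (g := fun _ => eLpNorm (fun x => δ x (t • v)) 2 μ) fun i _ =>
      eLpNorm_comp_measurePreserving (h.lip_meas (t • v)).aestronglyMeasurable
        (S.measurePreserving_mv _)]
    rw [Finset.sum_const, Finset.card_range, nsmul_eq_mul]
    have e2 : ((n + 1 : ℕ) : ℝ≥0∞) * eLpNorm (fun x => δ x (t • v)) 2 μ =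
        eLpNorm ((fun x => δ x (t • v) / t - wedge v (u x)) + fun x => wedge v (u x)) 2 μ := by
      have := eLpNorm_const_smul ((n + 1 : ℕ) : ℝ) (fun x => δ x (t • v)) 2 μ
      rw [Real.enorm_natCast] at this
      rw [← this]
      congr 1
      ext x
      simp only [Pi.smul_apply, smul_eq_mul, Pi.add_apply, ht]
      push_cast; field_simp; ring
    rw [e2]
    refine (eLpNorm_add_le (((h.lip_meas _).div_const _).aestronglyMeasurable.sub
      (lip_memLp_wedge u v).1) (lip_memLp_wedge u v).1 (by norm_num)).trans (add_le_add le_rfl ?_)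
    refine (eLpNorm_le_mul_eLpNorm_of_ae_le_mul (c := ‖v‖) (g := u)
      (ae_of_all _ fun x => abs_wedge_le _ _) 2).trans (le_of_eq ?_)
    rw [ENNReal.ofReal_mul (norm_nonneg _), Lp.norm_def, ENNReal.ofReal_toReal (Lp.eLpNorm_ne_top u)]
  have ht : Tendsto (fun n : ℕ => 1 / ((n : ℝ) + 1)) atTop (𝓝[≠] 0) :=
    tendsto_nhdsWithin_iff.2 ⟨tendsto_one_div_add_atTop_nhds_zero_nat,
      Eventually.of_forall fun n => by simp; positivity⟩
  have := ((g v).comp ht).add (tendsto_const_nhds (x := ENNReal.ofReal (‖v‖ * ‖u‖)))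
  rw [zero_add] at this
  exact ge_of_tendsto' this key

end Pool.Agent.MP_d0b2d2_an.Gen.TS
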