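import Mathlib

open MeasureTheory Set Filter Topology Metric
open scoped ENNReal

namespace Pool.Agent.MP_d0b2d2_an.Gen

lemma low_int {t : ℝ} (h : ((t : ℝ) : UnitAddCircle) = 0) : ∃ n : ℤ, (n : ℝ) = t := by
  obtain ⟨n, hn⟩ := (AddCircle.coe_eq_zero_iff (1 : ℝ)).1 h
  exact ⟨n, by simpa using hn⟩

lemma low_coe_eq_zero {t : ℝ} (h : ((t : ℝ) : UnitAddCircle) = 0) (h' : |t| < 1) : t = 0 := by
  obtain ⟨n, rfl⟩ := low_int h
  have : |n| < 1 := by exact_mod_cast h'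
  have : n = 0 := Int.abs_lt_one_iff.1 this
  simp [this]

lemma low_exists_lift (z : UnitAddCircle) : ∃ t : ℝ, (t : UnitAddCircle) = z ∧ |t| = ‖z‖ := by
  obtain ⟨t, rfl⟩ := QuotientAddGroup.mk_surjective z
  refine ⟨t - round t, ?_, ?_⟩
  · have : (((round t : ℤ) : ℝ) : UnitAddCircle) = 0 :=
      (AddCircle.coe_eq_zero_iff (1 : ℝ)).2 ⟨round t, by simp⟩
    rw [AddCircle.coe_sub, this, sub_zero]
  · rw [UnitAddCircle.norm_eq]

lemma low_norm_coe (t : ℝ) : ‖(t : UnitAddCircle)‖ ≤ |t| := QuotientAddGroup.norm_mk_le_norm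

/-- a continuous lift off a finite set of locally non-separating points extends -/
lemma low_glue {X : Type} [TopologicalSpace X] [T2Space X] (Sg : Finset X)
    (hc : ∀ σ ∈ Sg, ∀ V ∈ 𝓝 σ, ∃ V' ∈ 𝓝 σ, V' ⊆ V ∧ IsPreconnected (V' \ {σ}))
    (Φ : C(X, UnitAddCircle)) {F : X → ℝ} (hF : ContinuousOn F (Sg : Set X)ᶜ)
    (h : ∀ x ∉ Sg, ((F x : ℝ) : UnitAddCircle) = Φ x) :
    ∃ f : C(X, ℝ), ∀ x, ((f x : ℝ) : UnitAddCircle) = Φ x := by
  classical
  have key : ∀ σ : X, ∃ g : X → ℝ, σ ∈ Sg → (ContinuousAt g σ ∧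
      ((g σ : ℝ) : UnitAddCircle) = Φ σ ∧ ∀ᶠ x in 𝓝 σ, x ≠ σ → x ∉ Sg ∧ F x = g x) := by
    intro σ
    by_cases hσ : σ ∈ Sg
    swap
    · exact ⟨0, fun h => absurd h hσ⟩
    obtain ⟨a, ha, -⟩ := low_exists_lift (Φ σ)
    have hne : Φ σ ≠ ((a - 1 / 2 : ℝ) : UnitAddCircle) := by
      intro h1
      have h2 : (((1 / 2 : ℝ)) : UnitAddCircle) = 0 := by
        rw [← ha, AddCircle.coe_sub] at h1
        exact sub_eq_self.1 h1.symm
      have := low_coe_eq_zero h2 (by norm_num [abs_of_pos])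
      norm_num at this
    set L : X → ℝ := fun x => (AddCircle.equivIoc (1 : ℝ) (a - 1 / 2) (Φ x) : ℝ) with hL
    have hL1 : ∀ x, ((L x : ℝ) : UnitAddCircle) = Φ x := fun x => AddCircle.coe_equivIoc
    have hL2 : ∀ x, Φ x ≠ ((a - 1 / 2 : ℝ) : UnitAddCircle) → ContinuousAt L x := fun x hx =>
      continuous_subtype_val.continuousAt.comp
        ((AddCircle.continuousAt_equivIoc (1 : ℝ) (a - 1 / 2) hx).comp Φ.continuous.continuousAt)
    have hV : {x | Φ x ≠ ((a - 1 / 2 : ℝ) : UnitAddCircle)} ∩ ((Sg.erase σ : Finset X) : Set X)ᶜ ∈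
        𝓝 σ := inter_mem ((isOpen_ne_fun Φ.continuous continuous_const).mem_nhds hne)
          ((Sg.erase σ).finite_toSet.isClosed.isOpen_compl.mem_nhds (by simp))
    obtain ⟨V', hV', hsub, hpre⟩ := hc σ hσ _ hV
    have hns : ∀ x ∈ V' \ {σ}, x ∉ Sg := fun x hx hx' =>
      (hsub hx.1).2 (Finset.mem_coe.2 (Finset.mem_erase.2 ⟨hx.2, hx'⟩))
    rcases (V' \ {σ}).eq_empty_or_nonempty with he | ⟨b, hb⟩
    · refine ⟨L, fun _ => ⟨hL2 σ hne, hL1 σ, ?_⟩⟩
      filter_upwards [hV'] with x hx hx'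
      exact absurd (show x ∈ V' \ {σ} from ⟨hx, hx'⟩) (by rw [he]; simp)
    have hz : ((F b - L b : ℝ) : UnitAddCircle) = 0 := by
      rw [AddCircle.coe_sub, h b (hns b hb), hL1, sub_self]
    have hg : ∀ x, ((L x + (F b - L b) : ℝ) : UnitAddCircle) = Φ x := fun x => by
      rw [AddCircle.coe_add, hz, hL1, add_zero]
    refine ⟨fun x => L x + (F b - L b), fun _ => ⟨(hL2 σ hne).add continuousAt_const, hg σ, ?_⟩⟩
    have := (AddCircle.isCoveringMap_coe (1 : ℝ)).eqOn_of_comp_eqOn hpre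
      (g₁ := F) (g₂ := fun x => L x + (F b - L b)) (hF.mono fun x hx => hns x hx)
      (fun x hx => ((hL2 x (hsub hx.1).1).add continuousAt_const).continuousWithinAt)
      (fun x hx => by
        simp only [Function.comp]
        rw [h x (hns x hx), hg]) hb (by ring)
    filter_upwards [hV'] with x hx hx'
    exact ⟨hns x ⟨hx, hx'⟩, this ⟨hx, hx'⟩⟩
  choose g hg using key
  have hO : IsOpen ((Sg : Set X)ᶜ) := Sg.finite_toSet.isClosed.isOpen_compl
  refine ⟨⟨fun x => if x ∈ Sg then g x x else F x, continuous_iff_continuousAt.2 fun x => ?_⟩,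
    fun x => ?_⟩
  · by_cases hx : x ∈ Sg
    · obtain ⟨h1, -, h3⟩ := hg x hx
      refine h1.congr ?_
      filter_upwards [h3] with y hy
      by_cases hyx : y = x
      · subst hyx
        simp [hx]
      · simp [(hy hyx).1, (hy hyx).2]
    · refine (hF.continuousAt (hO.mem_nhds hx)).congr ?_
      filter_upwards [hO.mem_nhds hx] with y hy
      have : y ∉ Sg := hy
      simp [this]
  · by_cases hx : x ∈ Sg
    · simpa [hx] using (hg x hx).2.1
    · simpa [hx] using h x hx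

/-- a group with finitely many integer invariants has a lattice as image -/
lemma low_lattice {H A ι : Type} [AddCommGroup H] [Module ℝ H] [AddCommGroup A] [Finite ι]
    (E : Submodule ℝ H) (π : A →+ H) (ψ : A →+ (ι → ℤ)) (h : ∀ a, ψ a = 0 → π a ∈ E) :
    ∃ (ρ : ℕ) (α : Fin ρ → A), (∀ a, ∃ n : Fin ρ → ℤ, π a - ∑ i, (n i : ℝ) • π (α i) ∈ E) ∧
      ∀ n : Fin ρ → ℤ, ∑ i, (n i : ℝ) • π (α i) ∈ E → n = 0 := by
  set p : A →ₗ[ℤ] (H ⧸ E) := ((E.mkQ : H →+ H ⧸ E).comp π).toIntLinearMap with hp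
  have hp' : ∀ a, p a = E.mkQ (π a) := fun a => rfl
  set q : A →ₗ[ℤ] (ι → ℤ) := ψ.toIntLinearMap with hq
  have hk : LinearMap.ker q ≤ LinearMap.ker p := fun a ha => by
    rw [LinearMap.mem_ker, hp', Submodule.mkQ_apply, Submodule.Quotient.mk_eq_zero]
    exact h a ha
  have : Module.Finite ℤ (A ⧸ LinearMap.ker q) := Module.Finite.equiv q.quotKerEquivRange.symm
  have : Module.Finite ℤ (LinearMap.range p) := by
    rw [← Submodule.range_liftQ _ p hk]
    infer_instance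
  have : IsAddTorsionFree (H ⧸ E) := IsAddTorsionFree.of_isTorsionFree ℝ _
  obtain ⟨ρ, b⟩ : Σ n, Module.Basis (Fin n) ℤ (LinearMap.range p) :=
    Module.basisOfFiniteTypeTorsionFree'
  choose α hα using fun i => (b i).2
  have hs : ∀ n : Fin ρ → ℤ, E.mkQ (∑ i, (n i : ℝ) • π (α i)) =
      ((∑ i, n i • b i : LinearMap.range p) : H ⧸ E) := fun n => by
    rw [map_sum, Submodule.coe_sum]
    refine Finset.sum_congr rfl fun i _ => ?_
    rw [Int.cast_smul_eq_zsmul, map_zsmul, ← hp', hα]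
    rfl
  refine ⟨ρ, α, fun a => ⟨b.repr ⟨p a, a, rfl⟩, ?_⟩, fun n hn => ?_⟩
  · rw [← Submodule.Quotient.mk_eq_zero, ← Submodule.mkQ_apply, map_sub, hs, b.sum_repr]
    exact sub_self _
  · rw [← Submodule.Quotient.mk_eq_zero, ← Submodule.mkQ_apply, hs] at hn
    have h0 : ∑ i, n i • b i = 0 := Subtype.ext hn
    exact funext (Fintype.linearIndependent_iff.1 b.linearIndependent n h0)

end Pool.Agent.MP_d0b2d2_an.Gen
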