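import Pool.Agent.MP_d0b2d2_an.Gen.Lip
import Pool.Agent.MP_d0b2d2_an.Gen.Thick
import Pool.Agent.MP_d0b2d2_an.Gen.LowAux

open MeasureTheory Set Filter Topology Metric
open scoped ENNReal

namespace Pool.Agent.MP_d0b2d2_an.Gen.TS

variable {X : Type} [TopologicalSpace X] [T2Space X] [CompactSpace X] [MeasurableSpace X]
  {μ : Measure X} {S : TS X μ}

omit [T2Space X] [CompactSpace X] in
lemma low_reg {s : ℝ} (hs : 0 < s) {x : X} (hx : x ∈ S.XR s) : S.Ok x 0 :=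
  hx 0 (by simpa using hs)

omit [T2Space X] [CompactSpace X] in
lemma low_ball {s : ℝ} {x : X} (hx : x ∈ S.XR s) : ∀ y ∈ ball (0 : ℂ) s, S.Ok x y :=
  fun y hy => hx y (mem_ball_zero_iff.1 hy)

omit [T2Space X] [CompactSpace X] in
lemma low_contF {s s' : ℝ} (hs : 0 < s) (h' : 0 < s')
    {Φ : C(X, UnitAddCircle)} {dl : X → ℂ → ℝ} (h : S.IsInc Φ dl) {F : X → ℝ}
    (h2 : ∀ x ∈ S.XR s, ∀ d : ℂ, ‖d‖ < s' → S.Ok x d → S.mv x d ∈ S.XR s →
      F (S.mv x d) = F x + dl x d) : ContinuousOn F (S.XR s) := by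
  intro q hq
  have h0 := low_reg hs hq
  have hc : ContinuousAt (dl q) 0 :=
    (h.cont.continuousAt ((isOpen_ok S).mem_nhds (show (q, (0 : ℂ)) ∈ _ from h0))).comp
      (f := fun y : ℂ => (q, y)) (by fun_prop)
  rw [Metric.continuousWithinAt_iff']
  intro ε hε
  obtain ⟨r, hr, hr'⟩ := Metric.continuousAt_iff.1 hc ε hε
  filter_upwards [mem_nhdsWithin_of_mem_nhds (nhds_image (S.reg _ _ h0).1 (lt_min hr h')),
    self_mem_nhdsWithin]
  rintro _ ⟨d, ⟨hd, hd'⟩, rfl⟩ hm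
  have := hr' (x := d) (by simpa using hd.trans_le (min_le_left _ _))
  rw [h.zero] at this
  rw [h2 q hq d (hd.trans_le (min_le_right _ _)) hd' hm]
  simpa [Real.dist_eq] using this

/-- a lift on the thick part extends to the whole surface -/
theorem lift_ext {δ s s' : ℝ} (hδ : S.Thick δ) (hs : 0 < s) (hs' : 2 * s < δ) (h' : 0 < s')
    {Φ : C(X, UnitAddCircle)} {dl : X → ℂ → ℝ} (h : S.IsInc Φ dl) {F : X → ℝ}
    (h1 : ∀ x ∈ S.XR s, ((F x : ℝ) : UnitAddCircle) = Φ x)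
    (h2 : ∀ x ∈ S.XR s, ∀ d : ℂ, ‖d‖ < s' → S.Ok x d → S.mv x d ∈ S.XR s →
      F (S.mv x d) = F x + dl x d) :
    ∃ f : C(X, ℝ), ∀ x, ((f x : ℝ) : UnitAddCircle) = Φ x := by
  obtain ⟨p, hp, hp'⟩ := hδ.push hs hs'
  have hpp : ContinuousOn (fun x => (x, p x)) (S.Sg : Set X)ᶜ := continuousOn_id.prodMk hp
  have hm : MapsTo (fun x => (x, p x)) (S.Sg : Set X)ᶜ {a : X × ℂ | S.Ok a.1 a.2} :=
    fun x hx => (hp' x hx).1
  refine low_glue S.Sg (fun σ hσ => ?_) Φ (F := fun x => F (S.mv x (p x)) - dl x (p x))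
    (((low_contF hs h' h h2).comp ((continuousOn_mv S).comp hpp hm)
      fun x hx => (hp' x hx).2.1).sub (h.cont.comp hpp hm)) fun x hx => ?_
  · obtain ⟨U, -, -, z, -, -, -, -, h7⟩ := S.cone σ hσ
    exact h7
  · rw [AddCircle.coe_sub, h1 _ (hp' x hx).2.1, h.lift _ _ (hp' x hx).1, sub_sub_cancel]

omit [T2Space X] [CompactSpace X] in
lemma low_exact {Φ : C(X, UnitAddCircle)} {dl : X → ℂ → ℝ} (h : S.IsInc Φ dl) {u : Lp ℂ 2 μ}
    (g : HasGrad μ dl u) (hf : ∃ f : C(X, ℝ), ∀ x, ((f x : ℝ) : UnitAddCircle) = Φ x) :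
    u ∈ S.E := by
  obtain ⟨f, hf⟩ := hf
  refine Submodule.subset_span ⟨f, ?_⟩
  rwa [← h.unique (isInc_real f hf)]

omit [T2Space X] [CompactSpace X] in
lemma low_integrable {dl : X → ℂ → ℝ} (h : S.Cocycle dl) {s r : ℝ} (hr : r < s) {x : X}
    (hx : x ∈ S.XR s) : IntegrableOn (dl x) (closedBall 0 r) :=
  ContinuousOn.integrableOn_compact (isCompact_closedBall 0 r)
    (h.cont.comp (f := fun y : ℂ => (x, y)) (by fun_prop)
      fun y hy => low_ball hx y (closedBall_subset_ball hr hy))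

variable [BorelSpace X] [SecondCountableTopology X] [IsProbabilityMeasure μ]

lemma low_cs {δ s r : ℝ} (hδ : S.Thick δ) (hs : 2 * s ≤ δ) (hr0 : 0 < r) (hr : r < s)
    {dl : X → ℂ → ℝ} (h : S.Cocycle dl) {u : Lp ℂ 2 μ} (g : HasGrad μ dl u) {x : X}
    (hx : x ∈ S.XR s) {d : ℂ} (hd : ‖d‖ ≤ r) :
    |∫ y in closedBall (0 : ℂ) r, dl (S.mv x y) d| ≤ ‖u‖ * (r ^ 2 * Real.pi) := by
  have hsub : closedBall (0 : ℂ) r ⊆ ball 0 s := closedBall_subset_ball hr
  have hmp := measurePreserving_image (S := S) (x := x) measurableSet_closedBall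
    (fun y hy => low_ball hx y (hsub hy)) ((hδ.injOn hx hs).mono hsub)
  have hme : Measurable fun q => dl q d := h.measurable.comp (f := fun q : X => (q, d)) (by fun_prop)
  have h1 : eLpNorm ((fun q => dl q d) ∘ S.mv x) 2 (volume.restrict (closedBall 0 r)) ≤
      ENNReal.ofReal (‖d‖ * ‖u‖) := by
    rw [eLpNorm_comp_measurePreserving hme.aestronglyMeasurable hmp]
    exact (eLpNorm_restrict_le _ _ _ _).trans (h.eLpNorm_le g d)
  have h2 := eLpNorm_le_eLpNorm_mul_rpow_measure_univ (p := 1) (q := 2) (by norm_num)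
    (hme.comp hmp.measurable).aestronglyMeasurable (μ := volume.restrict (closedBall 0 r))
  have hv : volume (closedBall (0 : ℂ) r) = ENNReal.ofReal (r ^ 2 * Real.pi) := by
    rw [Complex.volume_closedBall, ENNReal.ofReal_mul (by positivity), ENNReal.ofReal_pow hr0.le,
      ← NNReal.coe_real_pi, ENNReal.ofReal_coe_nnreal]
  have hA : 0 < r ^ 2 * Real.pi := by positivity
  rw [Measure.restrict_apply_univ, hv, ENNReal.ofReal_rpow_of_pos hA,
    eLpNorm_one_eq_lintegral_enorm] at h2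
  have h3 := ((enorm_integral_le_lintegral_enorm _).trans h2).trans (mul_le_mul_left h1 _)
  rw [← ENNReal.ofReal_mul (by positivity), ← ofReal_norm,
    ENNReal.ofReal_le_ofReal_iff (by positivity)] at h3
  refine h3.trans ?_
  have h4 : (1 / (1 : ℝ≥0∞).toReal - 1 / (2 : ℝ≥0∞).toReal : ℝ) = 1 / 2 := by norm_num
  rw [h4, ← Real.sqrt_eq_rpow]
  have h5 : √(r ^ 2 * Real.pi) ≤ r * Real.pi := by
    rw [Real.sqrt_le_left (by positivity)]
    have := Real.pi_gt_three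
    have h6 : 0 < r ^ 2 := by positivity
    nlinarith [mul_pos h6 Real.pi_pos]
  calc ‖d‖ * ‖u‖ * √(r ^ 2 * Real.pi) ≤ r * ‖u‖ * (r * Real.pi) := by gcongr
    _ = _ := by ring

/-- averaging the increments over a disc gives a nearly invariant correction -/
lemma low_avg {δ s r : ℝ} (hδ : S.Thick δ) (hs : 2 * s ≤ δ) (hr0 : 0 < r) (hr : 2 * r < s)
    {dl : X → ℂ → ℝ} (h : S.Cocycle dl) {u : Lp ℂ 2 μ} (g : HasGrad μ dl u) :
    ∃ a : X → ℝ, ∀ x ∈ S.XR s, ∀ d : ℂ, ‖d‖ < r → S.mv x d ∈ S.XR s →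
      |dl x d + a (S.mv x d) - a x| ≤ ‖u‖ := by
  have hA : 0 < r ^ 2 * Real.pi := by positivity
  refine ⟨fun x => (∫ y in closedBall (0 : ℂ) r, dl x y) / (r ^ 2 * Real.pi),
    fun x hx d hd hx' => ?_⟩
  have hrs : r < s := by linarith
  have h1 := low_cs hδ hs hr0 hrs h g hx hd.le
  have hv : volume.real (closedBall (0 : ℂ) r) = r ^ 2 * Real.pi := by
    rw [Measure.real, Complex.volume_closedBall]
    simp [hr0.le]
  have h2 : ∫ y in closedBall (0 : ℂ) r, dl (S.mv x y) d =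
      ∫ y in closedBall (0 : ℂ) r, (dl x d + dl (S.mv x d) y - dl x y) := by
    refine setIntegral_congr_fun measurableSet_closedBall fun y hy => ?_
    have hy' := mem_closedBall_zero_iff.1 hy
    have m1 : y ∈ ball (0 : ℂ) s := mem_ball_zero_iff.2 (by linarith)
    have m2 : d ∈ ball (0 : ℂ) s := mem_ball_zero_iff.2 (by linarith)
    have m3 : d + y ∈ ball (0 : ℂ) s := mem_ball_zero_iff.2 (by linarith [norm_add_le d y])
    have e1 := h.convex (convex_ball 0 s) (mem_ball_self (by linarith)) (low_ball hx) m1 m3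
    have e2 := h.convex (convex_ball 0 s) (mem_ball_self (by linarith)) (low_ball hx) m2 m3
    rw [add_sub_cancel_right] at e1
    rw [add_sub_cancel_left] at e2
    linarith
  have i0 : IntegrableOn (fun _ : ℂ => dl x d) (closedBall 0 r) :=
    integrableOn_const measure_closedBall_lt_top.ne
  have i1 : IntegrableOn (fun y : ℂ => dl x d + dl (S.mv x d) y) (closedBall 0 r) :=
    i0.add (low_integrable h hrs hx')
  rw [h2, integral_sub i1 (low_integrable h hrs hx),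
    integral_add i0 (low_integrable h hrs hx'), setIntegral_const, hv, smul_eq_mul] at h1
  rw [← div_le_iff₀ hA, ← abs_of_pos hA, ← abs_div, abs_of_pos hA] at h1
  refine le_of_eq_of_le (congrArg _ ?_) h1
  beta_reduce
  field_simp

/-- small integral fields on thick surfaces are exact -/
theorem low : ∃ C > 0, ∀ (S : TS X μ) (δ : ℝ), 0 < δ → δ ≤ 1 → S.Thick δ → ∀ u ∈ S.Iset,
    C * ‖u‖ < δ ^ 2 → u ∈ S.E := by
  refine ⟨100000, by norm_num, ?_⟩
  rintro S δ h0 h1 hδ u ⟨Φ, dl, h, g⟩ hu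
  refine low_exact h g ?_
  have hr : 0 < δ / 32 := by positivity
  have hs : 0 < δ / 8 := by positivity
  rcases (S.XR (δ / 8)).eq_empty_or_nonempty with he | ⟨x₀, hx₀⟩
  · exact lift_ext hδ hs (by linarith) hr h (F := 0) (by simp [he]) (by simp [he])
  obtain ⟨a, ha⟩ := low_avg (s := δ / 8) hδ (by linarith) hr (by linarith) h.cocycle g
  set G : X → UnitAddCircle := fun x => Φ x + (a x : ℝ) with hG
  have hstep : ∀ x ∈ S.XR (δ / 8), ∀ d : ℂ, ‖d‖ < δ / 32 → G (S.mv x d) - G x =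
      ((dl x d + a (S.mv x d) - a x : ℝ) : UnitAddCircle) := fun x hx d hd => by
    rw [AddCircle.coe_sub, AddCircle.coe_add, h.lift x d (hx d (by linarith))]
    simp only [hG]
    abel
  have hosc := hδ.osc (T := S.XR (δ / 8)) hr (by linarith) (by linarith)
    (fun x hx w hw => hx w (by linarith)) (hδ.stepX hs (by linarith) hr)
    (G := fun x => ‖G x - G x₀‖) (norm_nonneg u) (fun x hx d hd hx' => by
      refine (abs_norm_sub_norm_le _ _).trans ?_
      rw [sub_sub_sub_cancel_right, hstep x hx d hd]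
      exact (low_norm_coe _).trans (ha x hx d hd hx'))
  have hu1 : ‖u‖ < 1 / 8 := by nlinarith
  have hsm : 10 * ‖u‖ / (δ / 32) ^ 2 < 1 / 8 := by
    rw [div_lt_iff₀ (by positivity)]
    nlinarith [norm_nonneg u]
  choose t ht ht' using fun x => low_exists_lift (G x - G x₀)
  have hb : ∀ x ∈ S.XR (δ / 8), |t x| < 1 / 8 := fun x hx => by
    have := hosc x hx x₀ hx₀
    rw [sub_self, norm_zero, sub_zero, abs_norm] at this
    rw [ht']
    exact this.trans_lt hsm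
  obtain ⟨g₀, hg₀, -⟩ := low_exists_lift (G x₀)
  refine lift_ext hδ hs (by linarith) hr h (F := fun x => g₀ + t x - a x) (fun x _ => ?_)
    fun x hx d hd _ hx' => ?_
  · rw [AddCircle.coe_sub, AddCircle.coe_add, ht, hg₀]
    simp only [hG]
    abel
  · have hz : t (S.mv x d) - t x - (dl x d + a (S.mv x d) - a x) = 0 := by
      refine low_coe_eq_zero ?_ ?_
      · rw [AddCircle.coe_sub, AddCircle.coe_sub, ht, ht, ← hstep x hx d hd]
        abel
      · have b1 := abs_lt.1 (hb x hx)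
        have b2 := abs_lt.1 (hb _ hx')
        have b3 := abs_le.1 (ha x hx d hd hx')
        rw [abs_lt]
        constructor <;> linarith [b1.1, b1.2, b2.1, b2.2, b3.1, b3.2]
    linarith

/-- circle-valued maps with their increments, gradients and a pointwise lift -/
def lowGrp (S : TS X μ) :
    AddSubgroup (C(X, UnitAddCircle) × (X → ℂ → ℝ) × Lp ℂ 2 μ × (X → ℝ)) where
  carrier := {a | S.IsInc a.1 a.2.1 ∧ HasGrad μ a.2.1 a.2.2.1 ∧
    ∀ x, ((a.2.2.2 x : ℝ) : UnitAddCircle) = a.1 x}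
  add_mem' := fun ha hb => ⟨ha.1.add hb.1, hasGrad_add ha.1.cocycle hb.1.cocycle ha.2.1 hb.2.1,
    fun x => by simp [ha.2.2 x, hb.2.2 x]⟩
  zero_mem' := by
    refine ⟨⟨continuousOn_const, fun _ _ _ => rfl, fun _ => rfl, fun _ _ _ => by simp⟩,
      fun w => tendsto_const_nhds.congr fun h => ?_, fun x => by simp⟩
    rw [eLpNorm_congr_ae (g := 0), eLpNorm_zero]
    filter_upwards [Lp.coeFn_zero ℂ 2 μ] with x hx
    simp [wedge]
  neg_mem' := fun ha => ⟨ha.1.neg, by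
    have := hasGrad_smul ha.2.1 (-1)
    rw [neg_one_smul, neg_one_smul] at this
    exact this, fun x => by simp [ha.2.2 x]⟩

omit [BorelSpace X] [SecondCountableTopology X] [IsProbabilityMeasure μ] in
lemma low_ker {δ s : ℝ} (hδ : S.Thick δ) (hs : 0 < s) (hs' : 2 * s < δ) {T : Set X}
    (hT : T ⊆ S.XR s) (hc : ∀ x ∈ S.XR s, ∃ i ∈ T, ∃ y : ℂ, ‖y‖ < s / 8 ∧ S.mv i y = x)
    {Φ : C(X, UnitAddCircle)} {dl : X → ℂ → ℝ} (h : S.IsInc Φ dl) {t : X → ℝ}
    (ht : ∀ x, ((t x : ℝ) : UnitAddCircle) = Φ x)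
    (h0 : ∀ i ∈ T, ∀ d : ℂ, ‖d‖ < s / 2 → S.mv i d ∈ T → dl i d = t (S.mv i d) - t i) :
    ∃ f : C(X, ℝ), ∀ x, ((f x : ℝ) : UnitAddCircle) = Φ x := by
  choose! i hi y hy hm using hc
  have hb : ∀ {w : ℂ}, ‖w‖ < s → w ∈ ball (0 : ℂ) s := fun hw => mem_ball_zero_iff.2 hw
  have h00 : (0 : ℂ) ∈ ball (0 : ℂ) s := mem_ball_self hs
  refine lift_ext hδ hs hs' (show 0 < s / 8 by positivity) h
    (F := fun x => t (i x) + dl (i x) (y x)) (fun x hx => ?_) fun x hx d hd _ hx' => ?_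
  · rw [AddCircle.coe_add, ht, h.lift _ _ (hT (hi x hx) _ (by linarith [hy x hx])), hm x hx]
    abel
  · have a1 := hy x hx
    have a2 := hy _ hx'
    have a3 : ‖y x + d‖ < s / 4 := by linarith [norm_add_le (y x) d]
    have a4 : ‖y x + d - y (S.mv x d)‖ < s / 2 := by
      linarith [norm_sub_le (y x + d) (y (S.mv x d))]
    have oi := low_ball (hT (hi x hx))
    have oj := low_ball (hT (hi _ hx'))
    have m1 := (convex_ok (convex_ball 0 s) h00 oi _ (hb (by linarith : ‖y x‖ < s)) _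
      (hb (by linarith : ‖y x + d‖ < s))).2
    have c1 := h.cocycle.convex (convex_ball 0 s) h00 oi (hb (by linarith : ‖y x‖ < s))
      (hb (by linarith : ‖y x + d‖ < s))
    rw [hm x hx, add_sub_cancel_left] at m1 c1
    have m2 := (convex_ok (convex_ball 0 s) h00 oi _ (hb (by linarith : ‖y x + d‖ < s)) _
      (hb (by linarith : ‖y x + d - y (S.mv x d)‖ < s))).2
    have c2 := h.cocycle.convex (convex_ball 0 s) h00 oi (hb (by linarith : ‖y x + d‖ < s))
      (hb (by linarith : ‖y x + d - y (S.mv x d)‖ < s))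
    rw [← m1, sub_sub_cancel_left] at m2 c2
    have m3 := (ok_symm (oj _ (hb (by linarith : ‖y (S.mv x d)‖ < s)))).2
    have c3 := h.cocycle.convex (convex_ball 0 s) h00 oj
      (hb (by linarith : ‖y (S.mv x d)‖ < s)) h00
    rw [hm _ hx'] at m3 c3
    rw [zero_sub, h.zero] at c3
    have e := h0 _ (hi x hx) _ a4 (by rw [← m2, m3]; exact hi _ hx')
    rw [← m2, m3] at e
    linarith

/-- the integral classes form a lattice of finite rank -/
theorem fin_rank (S : TS X μ) : ∃ (ρ : ℕ) (α : Fin ρ → Lp ℂ 2 μ), (∀ i, α i ∈ S.Iset) ∧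
    (∀ u ∈ S.Iset, ∃ n : Fin ρ → ℤ, u - ∑ i, (n i : ℝ) • α i ∈ S.E) ∧
    ∀ n : Fin ρ → ℤ, ∑ i, (n i : ℝ) • α i ∈ S.E → n = 0 := by
  obtain ⟨δ, h0, hδ⟩ := exists_thick S
  have hs : 0 < δ / 4 := by positivity
  obtain ⟨T, hT, hc⟩ := (isCompact_XR S hs).elim_nhds_subcover
    (fun x => S.mv x '' {d | ‖d‖ < δ / 4 / 8 ∧ S.Ok x d})
    fun x hx => nhds_image (S.reg _ _ (low_reg hs hx)).1 (by positivity)
  set J : Set (X × ℂ) := {p | p.1 ∈ T ∧ ‖p.2‖ < δ / 4 / 2 ∧ S.mv p.1 p.2 ∈ T} with hJ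
  have hfin : J.Finite := by
    refine Set.Finite.of_injOn (f := fun p : X × ℂ => (p.1, S.mv p.1 p.2))
      (t := (T : Set X) ×ˢ (T : Set X)) (fun p hp => ⟨hp.1, hp.2.2⟩) ?_
      (T.finite_toSet.prod T.finite_toSet)
    rintro ⟨x, d⟩ hp ⟨x', d'⟩ hp' he
    obtain ⟨rfl, he'⟩ := Prod.mk.inj he
    exact Prod.ext rfl (hδ.injOn (hT _ hp.1) (by linarith)
      (mem_ball_zero_iff.2 (by linarith [hp.2.1])) (mem_ball_zero_iff.2 (by linarith [hp'.2.1])) he')
  have := hfin.to_subtype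
  have hint : ∀ (a : lowGrp S) (p : J), ∃ n : ℤ, (n : ℝ) =
      a.1.2.1 p.1.1 p.1.2 - (a.1.2.2.2 (S.mv p.1.1 p.1.2) - a.1.2.2.2 p.1.1) := fun a p => by
    refine low_int ?_
    rw [AddCircle.coe_sub, AddCircle.coe_sub, a.2.2.2, a.2.2.2,
      a.2.1.lift _ _ (hT _ p.2.1 _ (by linarith [p.2.2.1])), sub_self]
  choose n hn using hint
  obtain ⟨ρ, α, h1, h2⟩ := low_lattice S.E
    (AddMonoidHom.mk' (fun a : lowGrp S => a.1.2.2.1) fun _ _ => rfl)
    (AddMonoidHom.mk' n fun a b => funext fun p => Int.cast_injective (α := ℝ) (by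
      rw [Pi.add_apply, Int.cast_add, hn, hn, hn]
      simp only [AddSubgroup.coe_add, Prod.snd_add, Prod.fst_add, Pi.add_apply]
      ring))
    (fun a ha => low_exact a.2.1 a.2.2.1 (low_ker hδ hs (by linarith) (T := T) hT
      (fun x hx => by
        obtain ⟨i, hi, y, hy, hm⟩ := mem_iUnion₂.1 (hc hx)
        exact ⟨i, hi, y, hy.1, hm⟩) a.2.1 a.2.2.2 fun i hi d hd hm => by
        have e := hn a ⟨(i, d), hi, hd, hm⟩
        have e' : n a ⟨(i, d), hi, hd, hm⟩ = 0 := congrFun ha _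
        rw [e', Int.cast_zero] at e
        exact sub_eq_zero.1 e.symm))
  refine ⟨ρ, fun i => (α i).1.2.2.1, fun i => ⟨_, _, (α i).2.1, (α i).2.2.1⟩, ?_, h2⟩
  rintro u ⟨Φ, dl, h, g⟩
  choose t ht _ using fun x => low_exists_lift (Φ x)
  exact h1 ⟨(Φ, dl, u, t), h, g, ht⟩

end Pool.Agent.MP_d0b2d2_an.Gen.TS
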