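import Pool.Agent.MP_d0b2d2_an.Gen.Area
import Pool.Agent.MP_d0b2d2_an.Gen.Api2

open MeasureTheory Set Filter Topology Metric

namespace Pool.Agent.MP_d0b2d2_an.Gen.TransSurf

variable {X : Type} [TopologicalSpace X] [T2Space X] [CompactSpace X] [MeasurableSpace X]
  [BorelSpace X] [SecondCountableTopology X] (S : TransSurf X) {p : X} {lam : Measure X}
  {T : TS X lam}

omit [T2Space X] [CompactSpace X] [BorelSpace X] [SecondCountableTopology X] in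
/-- developing a locally straight curve -/
theorem rays_dev {γ : ℝ → X} {e : ℂ} (he : e ≠ 0) {J : Set ℝ} (hJ : Convex ℝ J) {t₀ : ℝ}
    (h0 : t₀ ∈ J)
    (hloc : ∀ t ∈ J, ∀ᶠ s in 𝓝[J] t, T.Ok (γ t) ((s - t) • e) ∧ T.mv (γ t) ((s - t) • e) = γ s) :
    ∀ t ∈ J, T.Ok (γ t₀) ((t - t₀) • e) ∧ T.mv (γ t₀) ((t - t₀) • e) = γ t := by
  have e1 : ∀ t : ℝ, t₀ + (((t - t₀) • e) / e).re = t := fun t => by
    rw [Complex.real_smul, mul_div_cancel_right₀ _ he, Complex.ofReal_re]; ring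
  have hD : Convex ℝ ((fun t : ℝ => (t - t₀) • e) '' J) := by
    rintro _ ⟨a, ha, rfl⟩ _ ⟨b, hb, rfl⟩ u v hu hv huv
    refine ⟨u • a + v • b, hJ ha hb hu hv huv, ?_⟩
    simp only [smul_smul, ← add_smul, smul_eq_mul]
    congr 1
    linear_combination t₀ * huv
  have := TS.develop (S := T) (x := γ t₀) hD ⟨t₀, h0, by simp⟩
    (ψ := fun y => γ (t₀ + (y / e).re)) (by simp) (by
      rintro _ ⟨t, ht, rfl⟩
      obtain ⟨r, hr, h⟩ := Metric.eventually_nhds_iff.1 (eventually_nhdsWithin_iff.1 (hloc t ht))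
      refine ⟨r * ‖e‖, mul_pos hr (norm_pos_iff.2 he), ?_⟩
      rintro _ ⟨s, hs, rfl⟩ hn
      have e2 : (s - t₀) • e - (t - t₀) • e = (s - t) • e := by
        rw [← sub_smul]; congr 1; ring
      simp only [e1, e2] at hn ⊢
      rw [norm_smul] at hn
      exact h (by rw [dist_eq_norm]; exact lt_of_mul_lt_mul_right hn (norm_nonneg _)) hs)
  intro t ht
  simpa only [e1] using this _ ⟨t, ht, rfl⟩

omit [T2Space X] [CompactSpace X] [BorelSpace X] [SecondCountableTopology X] in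
/-- straightness in the chart gives straightness for the translation structure -/
theorem rays_loc (h2 : ∀ x ∉ T.Sg, ∀ᶠ y in 𝓝 (0 : ℂ),
      T.mv x y ∈ (S.chart x).source ∧ S.chart x (T.mv x y) = y)
    {γ : ℝ → X} {e : ℂ} {J : Set ℝ} {t : ℝ} (hx : γ t ∉ T.Sg) (hc : ContinuousWithinAt γ J t)
    (h : ∀ᶠ s in 𝓝[J] t, S.chart (γ t) (γ s) = ((s - t : ℝ) : ℂ) * e) :
    ∀ᶠ s in 𝓝[J] t, T.Ok (γ t) ((s - t) • e) ∧ T.mv (γ t) ((s - t) • e) = γ s := by
  have ht : Tendsto (fun s : ℝ => (s - t) • e) (𝓝[J] t) (𝓝 0) :=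
    ((by fun_prop : Continuous fun s : ℝ => (s - t) • e).tendsto' t 0 (by simp)).mono_left
      nhdsWithin_le_nhds
  have h3 : ∀ᶠ y in 𝓝 (0 : ℂ), T.Ok (γ t) y :=
    (TS.isOpen_ok_right (γ t)).mem_nhds (TS.ok_zero.2 hx)
  filter_upwards [h, ht.eventually (h2 _ hx), ht.eventually h3,
    hc.tendsto.eventually ((S.chart (γ t)).open_source.mem_nhds (S.mem_source _))] with s a b c d
  exact ⟨c, (S.chart (γ t)).injOn b.1 d (by rw [b.2, a, Complex.real_smul])⟩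

omit [CompactSpace X] [BorelSpace X] [SecondCountableTopology X] in
/-- a segment converging to a singular point cannot be closed up -/
theorem rays_not_ok {m σ : X} {e : ℂ} {a : ℝ} {f : ℝ → ℝ} {γ : ℝ → X} {l : Filter ℝ} [l.NeBot]
    (hf : Tendsto f l (𝓝 a)) (hγ : Tendsto γ l (𝓝 σ)) (hσ : σ ∈ T.Sg)
    (h : ∀ᶠ u in l, T.mv m (f u • e) = γ u) : ¬ T.Ok m (a • e) := fun h0 => by
  have h1 : Tendsto (fun u => T.mv m (f u • e)) l (𝓝 (T.mv m (a • e))) :=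
    (TS.continuousAt_mv_right h0).tendsto.comp (hf.smul_const e)
  exact (T.reg _ _ h0).2 (tendsto_nhds_unique (h1.congr' h) hγ ▸ hσ)

omit [T2Space X] [CompactSpace X] [BorelSpace X] [SecondCountableTopology X] in
/-- a line that is blocked on both sides carries a saddle connection -/
theorem rays_sc {q : X} {e : ℂ} {a b : ℝ} (ha : 0 < a) (hb : b < 0)
    (h : ∀ u, b < u → u < a → T.Ok q (u • e)) (h1 : ¬ T.Ok q (a • e)) (h2 : ¬ T.Ok q (b • e)) :
    ∃ r : ℝ, 0 < r ∧ ∃ x, T.IsSC x (r • e) := by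
  have hc := h ((a + b) / 2) (by linarith) (by linarith)
  have h0 := TS.line_ok hc (h 0 hb ha)
  rw [zero_smul, T.mv_zero] at h0
  have key : ∀ u : ℝ, T.Ok (T.mv q (((a + b) / 2) • e)) (u • e) →
      T.Ok q ((u + (a + b) / 2) • e) := fun u hu => by
    have := (TS.line_ok h0.1 hu).1
    rwa [h0.2, show u - (0 - (a + b) / 2) = u + (a + b) / 2 by ring] at this
  refine ⟨(a - b) / 2, by linarith, T.mv q (((a + b) / 2) • e), ⟨fun h3 => h1 ?_, fun t t0 t1 => ?_⟩,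
    fun h3 => h2 ?_, fun t t0 t1 => ?_⟩
  · simpa only [show (a - b) / 2 + (a + b) / 2 = a by ring] using key _ h3
  · have := (TS.line_ok hc (h (t * ((a - b) / 2) + (a + b) / 2) (by nlinarith) (by nlinarith))).1
    rwa [add_sub_cancel_right, mul_smul] at this
  · rw [← neg_smul] at h3
    simpa only [show -((a - b) / 2) + (a + b) / 2 = b by ring] using key _ h3
  · have := (TS.line_ok hc (h (t * (-((a - b) / 2)) + (a + b) / 2)
      (by nlinarith) (by nlinarith))).1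
    rwa [add_sub_cancel_right, mul_smul, neg_smul] at this

omit [BorelSpace X] in
/-- almost no direction carries a saddle connection -/
theorem rays_good (T : TS X lam) : ∀ᵐ θ ∂(volume.restrict (Ioo (0 : ℝ) 1)), ¬ ∃ r : ℝ, 0 < r ∧
    ∃ x, T.IsSC x (r • Complex.exp (((2 * Real.pi * θ : ℝ) : ℂ) * Complex.I)) := by
  have h1 := (Complex.countable_preimage_exp.2
    (T.countable_sc.image fun h : ℂ => (‖h‖⁻¹ : ℝ) • h)).preimage
    (f := fun θ : ℝ => ((2 * Real.pi * θ : ℝ) : ℂ) * Complex.I) (fun a b h => by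
      have := Complex.ofReal_injective (mul_right_cancel₀ Complex.I_ne_zero h)
      exact mul_left_cancel₀ (by positivity) this)
  refine ae_restrict_of_ae ((h1.ae_notMem volume).mono fun θ hθ => ?_)
  rintro ⟨r, hr, x, hx⟩
  refine hθ ⟨_, ⟨x, hx⟩, ?_⟩
  simp only [norm_smul, Complex.norm_exp_ofReal_mul_I, mul_one, Real.norm_eq_abs, abs_of_pos hr,
    smul_smul, inv_mul_cancel₀ hr.ne', one_smul]

omit [T2Space X] [CompactSpace X] [BorelSpace X] [SecondCountableTopology X] in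
theorem rays_reg (h1 : ∀ x, x ∈ T.Sg ↔ (2 ≤ S.ord x ∨ x = p)) {x : X} (h : S.ord x = 1)
    (h' : x ≠ p) : x ∉ T.Sg := fun hx => by
  rcases (h1 x).1 hx with h3 | h3
  · omega
  · exact h' h3

omit [T2Space X] [CompactSpace X] [BorelSpace X] [SecondCountableTopology X] in
/-- developing a trajectory on an interval of positive times on which it avoids `p` -/
theorem rays_dev_ray (h1 : ∀ x, x ∈ T.Sg ↔ (2 ≤ S.ord x ∨ x = p))
    (h2 : ∀ x ∉ T.Sg, ∀ᶠ y in 𝓝 (0 : ℂ),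
      T.mv x y ∈ (S.chart x).source ∧ S.chart x (T.mv x y) = y)
    {γ : ℝ → X} {e : ℂ} (he : e ≠ 0) (hγ : S.IsRay p e γ) {J : Set ℝ} (hJ : Convex ℝ J)
    (hJ' : ∀ t ∈ J, 0 < t ∧ γ t ≠ p) {t₀ : ℝ} (h0 : t₀ ∈ J) :
    ∀ t ∈ J, T.Ok (γ t₀) ((t - t₀) • e) ∧ T.mv (γ t₀) ((t - t₀) • e) = γ t :=
  rays_dev he hJ h0 fun t ht => S.rays_loc h2
    (S.rays_reg h1 (hγ.2.2 t (hJ' t ht).1).1 (hJ' t ht).2)
    ((hγ.2.1 t (hJ' t ht).1.le).mono fun s hs => (hJ' s hs).1.le)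
    ((hγ.2.2 t (hJ' t ht).1).2.filter_mono nhdsWithin_le_nhds)

omit [CompactSpace X] [BorelSpace X] [SecondCountableTopology X] in
theorem rays_ne (h1 : ∀ x, x ∈ T.Sg ↔ (2 ≤ S.ord x ∨ x = p))
    (h2 : ∀ x ∉ T.Sg, ∀ᶠ y in 𝓝 (0 : ℂ),
      T.mv x y ∈ (S.chart x).source ∧ S.chart x (T.mv x y) = y)
    {γ : ℝ → X} {e : ℂ} (he : e ≠ 0) (hγ : S.IsRay p e γ)
    (hg : ¬ ∃ r : ℝ, 0 < r ∧ ∃ x, T.IsSC x (r • e)) {t₁ : ℝ} (ht : 0 < t₁) : γ t₁ ≠ p := by
  intro hp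
  have hpS : p ∈ T.Sg := (h1 p).2 (Or.inr rfl)
  obtain ⟨δ, hδ, hb⟩ := Metric.eventually_nhds_iff.1 (hγ.2.2 t₁ ht).2
  have hiso : ∀ s, t₁ - δ < s → s < t₁ → γ s ≠ p := fun s a b c => by
    have := hb (y := s) (by rw [Real.dist_eq, abs_lt]; constructor <;> linarith)
    rw [hp, c, S.center] at this
    exact mul_ne_zero (Complex.ofReal_ne_zero.2 (by linarith)) he this.symm
  set K : Set ℝ := Icc 0 (max 0 (t₁ - δ)) ∩ γ ⁻¹' {p} with hK
  have hKc : IsCompact K := isCompact_Icc.of_isClosed_subset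
    ((hγ.2.1.mono Icc_subset_Ici_self).preimage_isClosed_of_isClosed isClosed_Icc
      isClosed_singleton) inter_subset_left
  obtain ⟨t₀, ⟨⟨a0, a1⟩, a2⟩, a3⟩ := hKc.exists_isGreatest ⟨0, ⟨le_rfl, le_max_left _ _⟩, hγ.1⟩
  have a4 : t₀ < t₁ := a1.trans_lt (max_lt ht (by linarith))
  have hJ : ∀ t ∈ Ioo t₀ t₁, 0 < t ∧ γ t ≠ p := fun t h => ⟨a0.trans_lt h.1, fun c => by
    rcases lt_or_ge (t₁ - δ) t with d | d
    · exact hiso t d h.2 c
    · exact absurd (a3 ⟨⟨a0.trans h.1.le, d.trans (le_max_right _ _)⟩, c⟩) (not_le.2 h.1)⟩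
  have hm : (t₀ + t₁) / 2 ∈ Ioo t₀ t₁ := ⟨by linarith, by linarith⟩
  have hd := S.rays_dev_ray h1 h2 he hγ (convex_Ioo t₀ t₁) hJ hm
  have c0 : ∀ a : ℝ, ∀ J, Tendsto (fun u : ℝ => u - (t₀ + t₁) / 2) (𝓝[J] a)
      (𝓝 (a - (t₀ + t₁) / 2)) := fun a J =>
    ((continuous_sub_right _).tendsto a).mono_left nhdsWithin_le_nhds
  have c1 : ∀ a : ℝ, 0 ≤ a → γ a = p → Tendsto γ (𝓝[Ioo t₀ t₁] a) (𝓝 p) := fun a b c =>
    c ▸ ((hγ.2.1 a b).mono fun s hs => (hJ s hs).1.le).tendsto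
  have c2 : ∀ a : ℝ, ∀ᶠ u in 𝓝[Ioo t₀ t₁] a,
      T.mv (γ ((t₀ + t₁) / 2)) ((u - (t₀ + t₁) / 2) • e) = γ u := fun a =>
    eventually_nhdsWithin_of_forall fun u hu => (hd u hu).2
  have := left_nhdsWithin_Ioo_neBot a4
  have := right_nhdsWithin_Ioo_neBot a4
  refine hg (rays_sc (q := γ ((t₀ + t₁) / 2)) (a := t₁ - (t₀ + t₁) / 2) (b := t₀ - (t₀ + t₁) / 2)
    (by linarith) (by linarith) (fun u a b => ?_)
    (rays_not_ok (c0 t₁ _) (c1 t₁ ht.le hp) hpS (c2 t₁))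
    (rays_not_ok (c0 t₀ _) (c1 t₀ a0 a2) hpS (c2 t₀)))
  simpa only [add_sub_cancel_right] using (hd (u + (t₀ + t₁) / 2) ⟨by linarith, by linarith⟩).1

omit [T2Space X] [CompactSpace X] [BorelSpace X] [SecondCountableTopology X] in
/-- the initial segments of the rays -/
theorem rays_init (h1 : ∀ x, x ∈ T.Sg ↔ (2 ≤ S.ord x ∨ x = p))
    (h2 : ∀ x ∉ T.Sg, ∀ᶠ y in 𝓝 (0 : ℂ),
      T.mv x y ∈ (S.chart x).source ∧ S.chart x (T.mv x y) = y) :
    ∃ ε > 0, ∃ ψ : ℝ → ℝ → X, Continuous (fun θ => ψ θ ε) ∧ ∀ θ, ψ θ 0 = p ∧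
      ContinuousOn (ψ θ) (Icc 0 ε) ∧ ∀ t ∈ Ioc 0 ε,
        T.Ok (ψ θ ε) ((t - ε) • Complex.exp (((2 * Real.pi * θ : ℝ) : ℂ) * Complex.I)) ∧
        T.mv (ψ θ ε) ((t - ε) • Complex.exp (((2 * Real.pi * θ : ℝ) : ℂ) * Complex.I)) =
          ψ θ t := by
  have hn : S.ord p ≠ 0 := by have := S.ord_pos p; omega
  have h0 : (0 : ℂ) ∈ (S.chart p).target := S.center p ▸ (S.chart p).map_source (S.mem_source p)
  obtain ⟨ρ, hρ, hb⟩ := Metric.isOpen_iff.1 (S.chart p).open_target 0 h0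
  let w : ℝ → ℝ → ℂ := fun θ t => ((t ^ ((S.ord p : ℝ))⁻¹ : ℝ) : ℂ) *
    Complex.exp (((2 * Real.pi * θ / S.ord p : ℝ) : ℂ) * Complex.I)
  have hi : (0 : ℝ) < ((S.ord p : ℝ))⁻¹ := inv_pos.2 (Nat.cast_pos.2 (Nat.pos_of_ne_zero hn))
  have w1 : ∀ θ, ∀ t ∈ Icc 0 ((ρ / 2) ^ S.ord p), w θ t ∈ (S.chart p).target := fun θ t ht => by
    refine hb ?_
    rw [mem_ball_zero_iff, norm_mul, Complex.norm_exp_ofReal_mul_I, mul_one, Complex.norm_real,
      Real.norm_eq_abs, abs_of_nonneg (Real.rpow_nonneg ht.1 _)]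
    have := Real.rpow_le_rpow ht.1 ht.2 hi.le
    rw [Real.pow_rpow_inv_natCast (by positivity) hn] at this
    linarith
  have w2 : ∀ θ, ∀ t, 0 ≤ t → w θ t ^ S.ord p =
      (t : ℂ) * Complex.exp (((2 * Real.pi * θ : ℝ) : ℂ) * Complex.I) := fun θ t ht => by
    rw [mul_pow, ← Complex.ofReal_pow, Real.rpow_inv_natCast_pow ht hn, ← Complex.exp_nat_mul]
    congr 2
    have : (S.ord p : ℂ) ≠ 0 := Nat.cast_ne_zero.2 hn
    push_cast
    field_simp
  have w3 : ∀ θ, Continuous (w θ) := fun θ =>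
    (Complex.continuous_ofReal.comp (Real.continuous_rpow_const hi.le)).mul continuous_const
  have hε : 0 < (ρ / 2) ^ S.ord p := by positivity
  have hc : ∀ θ, ContinuousOn (fun t => (S.chart p).symm (w θ t)) (Icc 0 ((ρ / 2) ^ S.ord p)) :=
    fun θ => (S.chart p).continuousOn_symm.comp (w3 θ).continuousOn (w1 θ)
  refine ⟨_, hε, fun θ t => (S.chart p).symm (w θ t),
    (S.chart p).continuousOn_symm.comp_continuous (by fun_prop) fun θ => w1 θ _ ⟨hε.le, le_rfl⟩,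
    fun θ => ⟨?_, hc θ, rays_dev (γ := fun t => (S.chart p).symm (w θ t)) (Complex.exp_ne_zero _)
      (convex_Ioc _ _) ⟨hε, le_rfl⟩ fun t ht => ?_⟩⟩
  · have : w θ 0 = S.chart p p := by simp [w, S.center, Real.zero_rpow hi.ne']
    simp only [this, (S.chart p).left_inv (S.mem_source p)]
  have ht' := w1 θ t (Ioc_subset_Icc_self ht)
  have q1 := (S.chart p).map_target ht'
  have q2 : (S.chart p).symm (w θ t) ≠ p := fun h => by
    have h3 := (S.chart p).right_inv ht'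
    rw [h, S.center] at h3
    have h4 := w2 θ t ht.1.le
    rw [← h3, zero_pow hn] at h4
    exact mul_ne_zero (Complex.ofReal_ne_zero.2 ht.1.ne') (Complex.exp_ne_zero _) h4.symm
  have q3 := S.ord_eq_one q1 q2
  have hc' := (hc θ t (Ioc_subset_Icc_self ht)).mono Ioc_subset_Icc_self
  refine S.rays_loc h2 (S.rays_reg h1 q3 q2) hc' ?_
  filter_upwards [hc'.tendsto.eventually (S.compat p _ _ ⟨q1, S.mem_source _⟩),
    self_mem_nhdsWithin] with s hs hs'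
  rw [q3, S.center, pow_one, pow_one, (S.chart p).right_inv ht',
    (S.chart p).right_inv (w1 θ s (Ioc_subset_Icc_self hs')), w2 θ t ht.1.le,
    w2 θ s hs'.1.le] at hs
  push_cast at hs ⊢
  linear_combination -hs

theorem exists_rays (h1 : ∀ x, x ∈ T.Sg ↔ (2 ≤ S.ord x ∨ x = p))
    (h2 : ∀ x ∉ T.Sg, ∀ᶠ y in 𝓝 (0 : ℂ),
      T.mv x y ∈ (S.chart x).source ∧ S.chart x (T.mv x y) = y) :
    ∃ γ, S.IsRayFamily p γ := by
  obtain ⟨ε, hε, ψ, hq, hψ⟩ := S.rays_init h1 h2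
  have hpS : p ∈ T.Sg := (h1 p).2 (Or.inr rfl)
  refine ⟨fun θ t => if t ≤ 0 then p else
    T.mv (ψ θ ε) ((t - ε) • Complex.exp (((2 * Real.pi * θ : ℝ) : ℂ) * Complex.I)), ?_, ?_⟩
  · refine Measurable.ite (measurableSet_le measurable_snd measurable_const) measurable_const
      (T.measurable_mv.comp ((hq.measurable.comp measurable_fst).prodMk
        (Continuous.measurable (by fun_prop))))
  filter_upwards [rays_good T] with θ hg
  obtain ⟨a0, a1, a2⟩ := hψ θ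
  generalize Complex.exp (((2 * Real.pi * θ : ℝ) : ℂ) * Complex.I) = e at hg a2 ⊢
  have hq0 : ψ θ ε ∉ T.Sg := (T.reg _ _ (a2 ε ⟨hε, le_rfl⟩).1).1
  have c1 : Tendsto (ψ θ) (𝓝[Ioc 0 ε] 0) (𝓝 p) :=
    a0 ▸ ((a1 0 ⟨le_rfl, hε.le⟩).mono Ioc_subset_Icc_self).tendsto
  have := left_nhdsWithin_Ioc_neBot hε
  have hno : ¬ T.Ok (ψ θ ε) ((0 - ε) • e) :=
    rays_not_ok (((continuous_sub_right ε).tendsto 0).mono_left nhdsWithin_le_nhds) c1 hpS
      (eventually_nhdsWithin_of_forall fun u hu => (a2 u hu).2)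
  have hok : ∀ t, 0 < t → T.Ok (ψ θ ε) ((t - ε) • e) := fun t ht => by
    by_contra hn
    have hlt : ε < t := not_le.1 fun h => hn (a2 t ⟨ht, h⟩).1
    obtain ⟨τ, τ0, -, hh⟩ := TS.exists_hit hq0 hn
    rw [smul_smul] at hh
    have hτ : 0 < τ * (t - ε) := mul_pos τ0 (by linarith)
    refine hg (rays_sc hτ (by linarith) (fun u b c => ?_) hh.1 hno)
    rcases le_or_gt u 0 with d | d
    · simpa only [add_sub_cancel_right] using (a2 (u + ε) ⟨by linarith, by linarith⟩).1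
    · have := hh.2 (u / (τ * (t - ε))) (by positivity) ((div_lt_one hτ).2 c)
      rwa [smul_smul, div_mul_cancel₀ _ hτ.ne'] at this
  refine ⟨if_pos le_rfl, fun t ht => ?_, fun t ht => ?_⟩
  · rcases eq_or_lt_of_le (mem_Ici.1 ht) with rfl | ht
    · refine (continuousWithinAt_Icc_iff_Ici hε).1 ((a1 0 ⟨le_rfl, hε.le⟩).congr
        (fun s hs => ?_) (by rw [if_pos le_rfl, a0]))
      rcases eq_or_lt_of_le hs.1 with rfl | h
      · rw [if_pos le_rfl, a0]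
      · rw [if_neg (not_le.2 h), (a2 s ⟨h, hs.2⟩).2]
    · refine ContinuousAt.continuousWithinAt (ContinuousAt.congr
        (ContinuousAt.comp (f := fun s : ℝ => (s - ε) • e) (TS.continuousAt_mv_right (hok t ht))
          (by fun_prop)) ?_)
      filter_upwards [Ioi_mem_nhds ht] with s hs
      exact (if_neg (not_le.2 hs)).symm
  · have hr := (T.reg _ _ (hok t ht)).2
    simp only [if_neg (not_le.2 ht)]
    refine ⟨?_, ?_⟩
    · have := S.ord_pos (T.mv (ψ θ ε) ((t - ε) • e))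
      have := mt (fun h => (h1 _).2 (Or.inl h)) hr
      omega
    have ht' : Tendsto (fun s : ℝ => (s - t) • e) (𝓝 t) (𝓝 0) :=
      (by fun_prop : Continuous fun s : ℝ => (s - t) • e).tendsto' t 0 (by simp)
    filter_upwards [Ioi_mem_nhds ht, ht'.eventually (h2 _ hr)] with s hs hs'
    have := (TS.line_ok (hok t ht) (hok s hs)).2
    rw [sub_sub_sub_cancel_right] at this
    rw [if_neg (not_le.2 hs), ← this, hs'.2, Complex.real_smul]

omit [BorelSpace X] in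
theorem ae_ray (h1 : ∀ x, x ∈ T.Sg ↔ (2 ≤ S.ord x ∨ x = p))
    (h2 : ∀ x ∉ T.Sg, ∀ᶠ y in 𝓝 (0 : ℂ),
      T.mv x y ∈ (S.chart x).source ∧ S.chart x (T.mv x y) = y)
    {γ : ℝ → ℝ → X} (hγ : S.IsRayFamily p γ) : ∀ᵐ θ ∂(volume.restrict (Ioo (0 : ℝ) 1)),
      T.IsRay (Complex.exp (((2 * Real.pi * θ : ℝ) : ℂ) * Complex.I)) (γ θ) := by
  filter_upwards [rays_good T, hγ.2] with θ hg hr t ht s hs
  simpa only [add_sub_cancel_left] using S.rays_dev_ray h1 h2 (Complex.exp_ne_zero _) hr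
    (convex_Ioi 0) (fun u hu => ⟨hu, S.rays_ne h1 h2 (Complex.exp_ne_zero _) hr hg hu⟩) ht (t + s)
    (add_pos_of_pos_of_nonneg ht hs)

end Pool.Agent.MP_d0b2d2_an.Gen.TransSurf
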