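import Pool.Agent.MP_d0b2d2_an.Gen.Circle
import Pool.Agent.MP_d0b2d2_an.Gen.Bridge
import Pool.Agent.MP_d0b2d2_an.Gen.Rays

open MeasureTheory Set Filter Topology

namespace Pool.Agent.MP_d0b2d2_an.Gen

theorem main (X : Type) [TopologicalSpace X] [CompactSpace X] [T2Space X] [ConnectedSpace X]
    [SecondCountableTopology X] [MeasurableSpace X] [BorelSpace X] (S : TransSurf X) (p : X) :
    (∃ lam : Measure X, S.IsArea lam) ∧ (∃ γ : ℝ → ℝ → X, S.IsRayFamily p γ) ∧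
    ∀ lam : Measure X, S.IsArea lam → (0 < lam univ ∧ lam univ < ⊤) ∧
      ∀ γ : ℝ → ℝ → X, S.IsRayFamily p γ → ∃ G : Set ℝ, MeasurableSet G ∧
        Tendsto (fun N : ℝ => (volume (G ∩ Icc (-N) N)).toReal / (2 * N)) atTop (𝓝 1) ∧
        ∀ h : C(X, ℝ), Tendsto (fun t : ℝ => ∫ θ in (0 : ℝ)..1, h (γ θ t)) (atTop ⊓ 𝓟 G)
          (𝓝 ((∫ q, h q ∂lam) / (lam univ).toReal)) := by
  obtain ⟨lam, hl⟩ := S.exists_area
  obtain ⟨T, h1, h2⟩ := S.exists_TS p hl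
  refine ⟨⟨lam, hl⟩, S.exists_rays h1 h2, fun lam hl => ?_⟩
  obtain ⟨T, h1, h2⟩ := S.exists_TS p hl
  haveI := T.isFiniteMeasure
  exact ⟨⟨pos_iff_ne_zero.2 T.measure_pos, measure_lt_top _ _⟩,
    fun γ hγ => T.weakly_illuminated hγ.1 (S.ae_ray h1 h2 hγ)⟩

end Pool.Agent.MP_d0b2d2_an.Gen
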