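import Pool.Agent.MP_d0b2d2_an.Gen.NCglobAux

open MeasureTheory Set Filter Topology

namespace Pool.Agent.MP_d0b2d2_an.Gen

theorem Sl.norm_le_symm {g g' : ℂ →L[ℝ] ℂ} (hg : Sl g) (hg' : Sl g') {l : ℝ}
    (h : ∀ y, ‖g' y‖ ≤ l * ‖g y‖) (y : ℂ) : ‖g y‖ ≤ l * ‖g' y‖ := ncg_norm_le_symm hg hg' h y

section

variable {Λ : ℝ} {F : (ℂ →L[ℝ] ℂ) → ℝ}
  (hL : ∀ g g', Sl g → Sl g' → ∀ l : ℝ, 1 ≤ l → (∀ y, ‖g' y‖ ≤ l * ‖g y‖) →
      F g' ≤ F g + Λ * Real.log l)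

include hL

lemma ncg_abs {g g' : ℂ →L[ℝ] ℂ} (hg : Sl g) (hg' : Sl g') {l : ℝ} (hl : 1 ≤ l)
    (h : ∀ y, ‖g' y‖ ≤ l * ‖g y‖) : |F g' - F g| ≤ Λ * Real.log l := by
  have h1 := hL g g' hg hg' l hl h
  have h2 := hL g' g hg' hg l hl (hg.norm_le_symm hg' h)
  exact abs_le.2 ⟨by linarith, by linarith⟩

lemma ncg_eq {g g' : ℂ →L[ℝ] ℂ} (hg : Sl g) (hg' : Sl g') (h : ∀ y, ‖g' y‖ = ‖g y‖) :
    F g' = F g := by
  have := ncg_abs hL hg hg' le_rfl fun y => by rw [h, one_mul]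
  rw [Real.log_one, mul_zero] at this
  exact sub_eq_zero.1 (abs_nonpos_iff.1 this)

lemma ncg_contF {Y : Type} [TopologicalSpace Y] {p : Y → ℂ →L[ℝ] ℂ} (hp : Continuous p)
    (hs : ∀ y, Sl (p y)) : Continuous fun y => F (p y) := by
  refine continuous_iff_continuousAt.2 fun y₀ => ?_
  have hid : Sl (ContinuousLinearMap.id ℝ ℂ) := fun _ _ => rfl
  have h1 : ∀ z, ‖z‖ ≤ ‖p y₀‖ * ‖p y₀ z‖ := fun z =>
    hid.norm_le_symm (hs y₀) (fun w => (p y₀).le_opNorm w) z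
  have h2 : ∀ y, |F (p y) - F (p y₀)| ≤ Λ * Real.log (1 + ‖p y - p y₀‖ * ‖p y₀‖) := fun y => by
    refine ncg_abs hL (hs y₀) (hs y) (le_add_of_nonneg_right (by positivity)) fun z => ?_
    have a1 : p y z = p y₀ z + (p y - p y₀) z := by simp
    have a2 := (p y - p y₀).le_opNorm z
    have a3 := mul_le_mul_of_nonneg_left (h1 z) (norm_nonneg (p y - p y₀))
    rw [a1]
    refine (norm_add_le _ _).trans ?_
    nlinarith
  have h3 : Continuous fun y => 1 + ‖p y - p y₀‖ * ‖p y₀‖ := by fun_prop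
  have h4 : Tendsto (fun y => Λ * Real.log (1 + ‖p y - p y₀‖ * ‖p y₀‖)) (𝓝 y₀) (𝓝 0) := by
    have := ((h3.tendsto y₀).log (by simp)).const_mul Λ
    simpa using this
  exact tendsto_sub_nhds_zero_iff.1 (squeeze_zero_norm h2 h4)

end

/-- the rotational average -/
noncomputable def ncgAv (F : (ℂ →L[ℝ] ℂ) → ℝ) (g : ℂ →L[ℝ] ℂ) (κ : ℝ) (h : ℂ →L[ℝ] ℂ) : ℝ :=
  ∫ θ in (0 : ℝ)..2 * Real.pi, Real.exp (-κ * F (h.comp ((ncgRot θ).comp g)))

section

variable {Λ : ℝ} {F : (ℂ →L[ℝ] ℂ) → ℝ}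
  (hL : ∀ g g', Sl g → Sl g' → ∀ l : ℝ, 1 ≤ l → (∀ y, ‖g' y‖ ≤ l * ‖g y‖) →
      F g' ≤ F g + Λ * Real.log l) {g : ℂ →L[ℝ] ℂ} (hg : Sl g) (κ : ℝ)

include hL hg

lemma ncg_cont_th {h : ℂ →L[ℝ] ℂ} (hh : Sl h) :
    Continuous fun θ => Real.exp (-κ * F (h.comp ((ncgRot θ).comp g))) := by
  have := ncg_contF hL (p := fun θ => h.comp ((ncgRot θ).comp g))
    (continuous_const.clm_comp (ncgRot_cont.clm_comp continuous_const))
    fun θ => hh.comp ((ncgRot_sl θ).comp hg)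
  exact Real.continuous_exp.comp (continuous_const.mul this)

lemma ncgAv_cont : Continuous fun r => ncgAv F g κ (hyp r 1) := by
  have := ncg_contF hL (p := fun q : ℝ × ℝ => (hyp q.1 1).comp ((ncgRot q.2).comp g))
    ((ncg_hyp_cont.comp continuous_fst).clm_comp
      ((ncgRot_cont.comp continuous_snd).clm_comp continuous_const))
    fun q => (ncg_hyp_sl q.1 norm_one).comp ((ncgRot_sl q.2).comp hg)
  refine intervalIntegral.continuous_parametric_intervalIntegral_of_continuous'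
    (f := fun r θ => Real.exp (-κ * F ((hyp r 1).comp ((ncgRot θ).comp g)))) ?_ _ _
  exact Real.continuous_exp.comp (continuous_const.mul this)

lemma ncgAv_pos {h : ℂ →L[ℝ] ℂ} (hh : Sl h) : 0 < ncgAv F g κ h :=
  intervalIntegral.intervalIntegral_pos_of_pos ((ncg_cont_th hL hg κ hh).intervalIntegrable _ _)
    (fun _ => Real.exp_pos _) Real.two_pi_pos

lemma ncgAv_inv {h h' : ℂ →L[ℝ] ℂ} (hh : Sl h) (hh' : Sl h') {α β : ℝ}
    (e : ∀ y, h y = ncgRot α (h' (ncgRot β y))) : ncgAv F g κ h = ncgAv F g κ h' := by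
  have a1 : ∀ θ, F (h.comp ((ncgRot θ).comp g)) = F (h'.comp ((ncgRot (θ + β)).comp g)) :=
    fun θ => ncg_eq hL (hh'.comp ((ncgRot_sl _).comp hg)) (hh.comp ((ncgRot_sl _).comp hg))
      fun y => by simp only [ContinuousLinearMap.comp_apply, e, ncgRot_norm, ncgRot_add]
  have a2 : Function.Periodic (fun θ => Real.exp (-κ * F (h'.comp ((ncgRot θ).comp g))))
      (2 * Real.pi) := fun θ => by simp only [ncgRot_per]
  unfold ncgAv
  simp only [a1]
  rw [intervalIntegral.integral_comp_add_right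
    (fun θ => Real.exp (-κ * F (h'.comp ((ncgRot θ).comp g)))) β, zero_add, add_comm _ β,
    a2.intervalIntegral_add_eq β 0, zero_add]

lemma ncgAv_zero : ncgAv F g κ (hyp 0 1) = 2 * Real.pi * Real.exp (-κ * F g) := by
  have a1 : ∀ θ, F ((hyp 0 1).comp ((ncgRot θ).comp g)) = F g := fun θ =>
    ncg_eq hL hg ((ncg_hyp_sl 0 norm_one).comp ((ncgRot_sl _).comp hg)) fun y => by
      simp only [ncg_hyp_zero, ContinuousLinearMap.comp_apply, ContinuousLinearMap.id_apply,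
        ncgRot_norm]
  unfold ncgAv
  simp only [a1, intervalIntegral.integral_const, sub_zero, smul_eq_mul]

omit hg in
lemma ncg_one {κ : ℝ} (hκ : 0 < κ) (hκ1 : κ ≤ 1) {h : ℂ →L[ℝ] ℂ} (hh : Sl h) {t : ℝ}
    (ht : 0 < t) (ht1 : Λ * t ≤ 1) {ζ : ℂ} (hζ : ‖ζ‖ = 1) :
    Real.exp (-κ * F ((hyp t ζ).comp h)) ≤ Real.exp (-κ * F h) *
      (1 - κ * (F ((hyp t ζ).comp h) - F h) + κ ^ 2 * Λ ^ 2 * t ^ 2) := by
  have a1 := ncg_abs hL hh ((ncg_hyp_sl t hζ).comp hh) (Real.one_le_exp ht.le)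
    fun y => ncg_hyp_norm ht.le hζ (h y)
  rw [Real.log_exp] at a1
  set x := F ((hyp t ζ).comp h) - F h with hx
  have a2 : |(-κ) * x| ≤ κ * (Λ * t) := by
    rw [abs_mul, abs_neg, abs_of_pos hκ]; exact mul_le_mul_of_nonneg_left a1 hκ.le
  have a3 : κ * (Λ * t) ≤ 1 := by nlinarith
  have a4 := Real.abs_exp_sub_one_sub_id_le (a2.trans a3)
  have a5 : (-κ * x) ^ 2 ≤ (κ * (Λ * t)) ^ 2 := by
    rw [← sq_abs]; exact pow_le_pow_left₀ (abs_nonneg _) a2 2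
  have a6 : -κ * F ((hyp t ζ).comp h) = -κ * F h + -κ * x := by rw [hx]; ring
  rw [a6, Real.exp_add]
  refine mul_le_mul_of_nonneg_left ?_ (Real.exp_pos _).le
  have := (abs_le.1 a4).2
  nlinarith

lemma ncgAv_super {C₁ t₀ : ℝ}
    (hS : ∀ g, Sl g → ∀ t : ℝ, 0 < t → t ≤ t₀ → 4 * F g - C₁ * t ^ 3 ≤
      F ((hyp t 1).comp g) + F ((hyp t (-1)).comp g) + F ((hyp t Complex.I).comp g) +
      F ((hyp t (-Complex.I)).comp g)) {κ : ℝ} (hκ : 0 < κ) (hκ1 : κ ≤ 1) {h : ℂ →L[ℝ] ℂ}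
    (hh : Sl h) {t : ℝ} (ht : 0 < t) (ht0 : t ≤ t₀) (ht1 : Λ * t ≤ 1) :
    ncgAv F g κ ((hyp t 1).comp h) + ncgAv F g κ ((hyp t (-1)).comp h) +
      ncgAv F g κ ((hyp t Complex.I).comp h) + ncgAv F g κ ((hyp t (-Complex.I)).comp h) ≤
      (4 + κ * C₁ * t ^ 3 + 4 * (κ ^ 2 * Λ ^ 2 * t ^ 2)) * ncgAv F g κ h := by
  have n2 : ‖(-1 : ℂ)‖ = 1 := by simp
  have n3 : ‖Complex.I‖ = 1 := by simp
  have n4 : ‖-Complex.I‖ = 1 := by simp
  have i1 := (ncg_cont_th hL hg κ ((ncg_hyp_sl t norm_one).comp hh)).intervalIntegrable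
    (μ := volume) 0 (2 * Real.pi)
  have i2 := (ncg_cont_th hL hg κ ((ncg_hyp_sl t n2).comp hh)).intervalIntegrable
    (μ := volume) 0 (2 * Real.pi)
  have i3 := (ncg_cont_th hL hg κ ((ncg_hyp_sl t n3).comp hh)).intervalIntegrable
    (μ := volume) 0 (2 * Real.pi)
  have i4 := (ncg_cont_th hL hg κ ((ncg_hyp_sl t n4).comp hh)).intervalIntegrable
    (μ := volume) 0 (2 * Real.pi)
  have i0 := (ncg_cont_th hL hg κ hh).intervalIntegrable (μ := volume) 0 (2 * Real.pi)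
  unfold ncgAv
  rw [← intervalIntegral.integral_add i1 i2, ← intervalIntegral.integral_add (i1.add i2) i3,
    ← intervalIntegral.integral_add ((i1.add i2).add i3) i4, ← intervalIntegral.integral_const_mul]
  refine intervalIntegral.integral_mono_on Real.two_pi_pos.le (((i1.add i2).add i3).add i4)
    (i0.const_mul _) fun θ _ => ?_
  have hk : Sl (h.comp ((ncgRot θ).comp g)) := hh.comp ((ncgRot_sl θ).comp hg)
  simp only [ContinuousLinearMap.comp_assoc]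
  set k := h.comp ((ncgRot θ).comp g)
  have b1 := ncg_one hL hκ hκ1 hk ht ht1 norm_one
  have b2 := ncg_one hL hκ hκ1 hk ht ht1 n2
  have b3 := ncg_one hL hκ hκ1 hk ht ht1 n3
  have b4 := ncg_one hL hκ hκ1 hk ht ht1 n4
  have b5 := mul_le_mul_of_nonneg_left (hS k hk t ht ht0) (mul_pos hκ (Real.exp_pos (-κ * F k))).le
  nlinarith

lemma ncgAv_bound (hΛ : 0 ≤ Λ) {C₁ t₀ : ℝ} (hC : 0 ≤ C₁) (ht₀ : 0 < t₀)
    (hS : ∀ g, Sl g → ∀ t : ℝ, 0 < t → t ≤ t₀ → 4 * F g - C₁ * t ^ 3 ≤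
      F ((hyp t 1).comp g) + F ((hyp t (-1)).comp g) + F ((hyp t Complex.I).comp g) +
      F ((hyp t (-Complex.I)).comp g)) {κ : ℝ} (hκ : 0 < κ) (hκ1 : κ ≤ 1) {T : ℝ} (hT : 0 ≤ T) :
    ncgAv F g κ (hyp T 1) ≤
      2 * Real.pi * Real.exp (-κ * F g) * Real.exp (4 * κ ^ 2 * (Λ ^ 2 + 1) * T) := by
  set a := 2 * κ ^ 2 * (Λ ^ 2 + 1) with ha
  have a0 : 0 < a := by positivity
  set R : ℝ → ℝ := fun r => ncgAv F g κ (hyp r 1) with hR
  set L : ℝ → ℝ := fun r => Real.log (Real.cosh (2 * r)) with hLL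
  have cL : Continuous L := (Real.continuous_cosh.comp (by fun_prop)).log
    fun r => (Real.cosh_pos _).ne'
  have cR : Continuous R := ncgAv_cont hL hg κ
  have cψ : Continuous fun r => R r * Real.exp (-(a * L r)) := by fun_prop
  obtain ⟨r, hr, hmin⟩ := isCompact_Icc.exists_isMinOn (nonempty_Icc.2 hT) cψ.continuousOn
  have key : ∀ r' ∈ Icc 0 T, R r * Real.exp (a * (L r' - L r)) ≤ R r' := fun r' hr' => by
    have b1 : R r * Real.exp (-(a * L r)) ≤ R r' * Real.exp (-(a * L r')) := hmin hr'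
    have b2 := mul_le_mul_of_nonneg_right b1 (Real.exp_pos (a * L r')).le
    rw [mul_assoc (R r), mul_assoc (R r'), ← Real.exp_add, ← Real.exp_add, neg_add_cancel,
      Real.exp_zero, mul_one] at b2
    rwa [show a * (L r' - L r) = -(a * L r) + a * L r' by ring]
  have Rp : 0 < R r := ncgAv_pos hL hg κ (ncg_hyp_sl r norm_one)
  have hrT : r = T := by
    by_contra hne
    have hlt : 0 < T - r := sub_pos.2 (lt_of_le_of_ne hr.2 hne)
    obtain ⟨t, t0, t1, t2, t3, t4, t5⟩ : ∃ t : ℝ, 0 < t ∧ t ≤ t₀ ∧ t ≤ T - r ∧ t ≤ 1 / 2 ∧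
        t ≤ 1 / (Λ + 1) ∧ t ≤ κ / (C₁ + 1) :=
      ⟨min t₀ (min (T - r) (min (1 / 2) (min (1 / (Λ + 1)) (κ / (C₁ + 1))))), by positivity,
        min_le_left _ _, (min_le_right _ _).trans (min_le_left _ _),
        (min_le_right _ _).trans ((min_le_right _ _).trans (min_le_left _ _)),
        (min_le_right _ _).trans ((min_le_right _ _).trans ((min_le_right _ _).trans
          (min_le_left _ _))),
        (min_le_right _ _).trans ((min_le_right _ _).trans ((min_le_right _ _).trans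
          (min_le_right _ _)))⟩
    rw [le_div_iff₀ (by positivity)] at t4 t5
    have st : ∀ ζ : ℂ, ‖ζ‖ = 1 → ∃ c, c = Real.cosh (2 * t) * Real.cosh (2 * r) +
        ζ.re * (Real.sinh (2 * t) * Real.sinh (2 * r)) ∧
        R r * (1 + a * (Real.log c - L r)) ≤ ncgAv F g κ ((hyp t ζ).comp (hyp r 1)) := by
      intro ζ hζ
      obtain ⟨α, β, r', h0, h1, h2, h3⟩ := ncg_step t0.le hr.1 hζ
      refine ⟨_, h3, ?_⟩
      rw [ncgAv_inv hL hg κ ((ncg_hyp_sl t hζ).comp (ncg_hyp_sl r norm_one))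
        (ncg_hyp_sl r' norm_one) h2]
      refine le_trans ?_ (key r' ⟨h0, by linarith⟩)
      refine mul_le_mul_of_nonneg_left ?_ Rp.le
      rw [add_comm]
      exact Real.add_one_le_exp _
    obtain ⟨c₁, e1, f1⟩ := st 1 norm_one
    obtain ⟨c₂, e2, f2⟩ := st (-1) (by simp)
    obtain ⟨c₃, e3, f3⟩ := st Complex.I (by simp)
    obtain ⟨c₄, e4, f4⟩ := st (-Complex.I) (by simp)
    have sb := ncg_sub (r := r) (c₁ := c₁) (c₂ := c₂) (c₃ := c₃) (c₄ := c₄) t0.le t3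
      (by rw [e1]; simp) (by rw [e2]; simp [sub_eq_add_neg]) (by rw [e3]; simp) (by rw [e4]; simp)
    have sp := ncgAv_super hL hg hS hκ hκ1 (ncg_hyp_sl r norm_one) t0 t1 (by nlinarith)
    have d1 : R r * (4 + a * (2 * t ^ 2)) ≤
        (4 + κ * C₁ * t ^ 3 + 4 * (κ ^ 2 * Λ ^ 2 * t ^ 2)) * R r := by
      refine le_trans ?_ (le_trans (add_le_add (add_le_add (add_le_add f1 f2) f3) f4) sp)
      have := mul_le_mul_of_nonneg_left sb (mul_pos Rp a0).le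
      simp only [hLL]
      nlinarith
    rw [mul_comm] at d1
    have d2 := le_of_mul_le_mul_right d1 Rp
    rw [ha] at d2
    have d3 : 0 < κ * t ^ 2 := by positivity
    have d4 := mul_le_mul_of_nonneg_left t5 d3.le
    nlinarith [mul_pos d3 hκ, mul_pos d3 t0]
  subst hrT
  have k0 := key 0 ⟨le_rfl, hT⟩
  have l0 : L 0 = 0 := by simp [hLL]
  have l1 : L r ≤ 2 * r := by
    rw [hLL]
    refine (Real.log_le_iff_le_exp (Real.cosh_pos _)).2 ?_
    rw [← Real.cosh_add_sinh]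
    exact le_add_of_nonneg_right (Real.sinh_nonneg_iff.2 (by linarith))
  have r0 : R 0 = 2 * Real.pi * Real.exp (-κ * F g) := ncgAv_zero hL hg κ
  rw [← r0]
  have k1 := mul_le_mul_of_nonneg_right k0 (Real.exp_pos (4 * κ ^ 2 * (Λ ^ 2 + 1) * r)).le
  refine le_trans ?_ k1
  rw [mul_assoc, ← Real.exp_add]
  refine le_mul_of_one_le_right Rp.le (Real.one_le_exp ?_)
  have := mul_le_mul_of_nonneg_left l1 a0.le
  rw [l0]
  rw [ha] at this ⊢
  nlinarith

lemma ncg_transfer (hΛ : 0 ≤ Λ) {κ : ℝ} (hκ : 0 < κ) (hκ1 : κ ≤ 1) (B : ℕ) :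
    ∑ j ∈ Finset.range (4 ^ B), Real.exp (-κ * F ((zm (j / 4 ^ B) B : ℂ →L[ℝ] ℂ).comp g)) ≤
      4 ^ B * (2 * Real.exp (Λ * Real.log 5) * ncgAv F g κ (hyp (B * Real.log 2) 1)) := by
  have hh := ncg_hyp_sl (B * Real.log 2) norm_one
  set U : ℝ → ℝ := fun θ => Real.exp (-κ * F ((hyp (B * Real.log 2) 1).comp ((ncgRot θ).comp g)))
    with hU
  have cU : Continuous U := ncg_cont_th hL hg κ hh
  have cW : Continuous fun τ => U (Real.arctan τ) := cU.comp Real.continuous_arctan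
  have q4 : (0 : ℝ) < 4 ^ B := by positivity
  have cd : Continuous fun x : ℝ => 1 / (1 + x ^ 2) :=
    continuous_const.div (by fun_prop) fun x => by positivity
  have s1 := intervalIntegral.integral_comp_mul_deriv (a := 0) (b := 1)
    (fun x _ => Real.hasDerivAt_arctan x) cd.continuousOn cU
  rw [Real.arctan_zero, Real.arctan_one] at s1
  have s2 : ∫ θ in (0 : ℝ)..Real.pi / 4, U θ ≤ ncgAv F g κ (hyp (B * Real.log 2) 1) :=
    intervalIntegral.integral_mono_interval le_rfl (by positivity) (by linarith [Real.pi_pos])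
      (ae_of_all _ fun θ => (Real.exp_pos _).le) (cU.intervalIntegrable _ _)
  have s3 : ∫ τ in (0 : ℝ)..1, U (Real.arctan τ) ≤ 2 * ∫ θ in (0 : ℝ)..Real.pi / 4, U θ := by
    rw [← s1, ← intervalIntegral.integral_const_mul]
    refine intervalIntegral.integral_mono_on zero_le_one (cW.intervalIntegrable _ _)
      ((continuous_const.mul (cW.mul cd)).intervalIntegrable _ _) fun τ hτ => ?_
    have b1 : 1 / 2 ≤ 1 / (1 + τ ^ 2) :=
      one_div_le_one_div_of_le (by positivity) (by nlinarith [hτ.1, hτ.2])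
    have b2 : 0 < U (Real.arctan τ) := Real.exp_pos _
    simp only [Function.comp_apply]
    nlinarith
  have s4 := intervalIntegral.sum_integral_adjacent_intervals (f := fun τ => U (Real.arctan τ))
    (μ := volume) (a := fun k : ℕ => (k : ℝ) / 4 ^ B) (n := 4 ^ B)
    fun k _ => cW.intervalIntegrable _ _
  simp only [Nat.cast_zero, zero_div, Nat.cast_pow, Nat.cast_ofNat, div_self q4.ne'] at s4
  have E0 := Real.exp_pos (Λ * Real.log 5)
  have s5 : ∀ j ∈ Finset.range (4 ^ B),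
      Real.exp (-κ * F ((zm (j / 4 ^ B) B : ℂ →L[ℝ] ℂ).comp g)) ≤
        4 ^ B * (Real.exp (Λ * Real.log 5) * ∫ τ in (j : ℝ) / 4 ^ B..((j + 1 : ℕ) : ℝ) / 4 ^ B, U (Real.arctan τ)) := by
    intro j hj
    have j1 : ((j + 1 : ℕ) : ℝ) / 4 ^ B = j / 4 ^ B + 1 / 4 ^ B := by push_cast; ring
    have j2 : ((j + 1 : ℕ) : ℝ) / 4 ^ B ≤ 1 := by
      rw [div_le_one q4]; exact_mod_cast Finset.mem_range.1 hj
    have j3 : (j : ℝ) / 4 ^ B ≤ ((j + 1 : ℕ) : ℝ) / 4 ^ B := by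
      rw [j1]; exact le_add_of_nonneg_right (by positivity)
    have m := intervalIntegral.integral_mono_on (μ := volume)
      (f := fun _ => Real.exp (-κ * F ((zm (j / 4 ^ B) B : ℂ →L[ℝ] ℂ).comp g)))
      (g := fun τ => Real.exp (Λ * Real.log 5) * U (Real.arctan τ)) j3 intervalIntegrable_const
      ((continuous_const.mul cW).intervalIntegrable _ _) fun τ hτ => by
        have c1 := hL _ _ ((sl_zm (j / 4 ^ B) B).comp hg)
          (hh.comp ((ncgRot_sl (Real.arctan τ)).comp hg)) 5 (by norm_num) fun y =>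
            ncg_cmp B (by positivity) hτ.1 (j1 ▸ hτ.2) (hτ.2.trans j2) (g y)
        simp only [hU]
        rw [← Real.exp_add]
        refine Real.exp_le_exp.2 ?_
        have c2 : 0 ≤ Λ * Real.log 5 := mul_nonneg hΛ (Real.log_nonneg (by norm_num))
        nlinarith [mul_le_mul_of_nonneg_left c1 hκ.le]
    rw [intervalIntegral.integral_const, intervalIntegral.integral_const_mul, j1,
      add_sub_cancel_left, smul_eq_mul, ← j1, one_div, inv_mul_le_iff₀ q4] at m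
    exact m
  refine (Finset.sum_le_sum s5).trans ?_
  rw [← Finset.mul_sum, ← Finset.mul_sum, s4]
  refine mul_le_mul_of_nonneg_left ?_ q4.le
  nlinarith

end

/-- exponential moments of nearly subharmonic Lipschitz functions along horocycle segments -/
theorem nc_glob {Λ C₁ t₀ : ℝ} (hΛ : 0 ≤ Λ) (hC : 0 ≤ C₁) (ht₀ : 0 < t₀) : ∃ C ≥ (1 : ℝ),
    ∀ F : (ℂ →L[ℝ] ℂ) → ℝ,
    (∀ g g', Sl g → Sl g' → ∀ l : ℝ, 1 ≤ l → (∀ y, ‖g' y‖ ≤ l * ‖g y‖) →
      F g' ≤ F g + Λ * Real.log l) →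
    (∀ g, Sl g → ∀ t : ℝ, 0 < t → t ≤ t₀ → 4 * F g - C₁ * t ^ 3 ≤
      F ((hyp t 1).comp g) + F ((hyp t (-1)).comp g) + F ((hyp t Complex.I).comp g) +
      F ((hyp t (-Complex.I)).comp g)) →
    ∀ g, Sl g → ∀ (B : ℕ) (κ : ℝ), 0 < κ → κ ≤ 1 →
    ∑ j ∈ Finset.range (4 ^ B), Real.exp (-κ * F ((zm (j / 4 ^ B) B : ℂ →L[ℝ] ℂ).comp g)) ≤
      4 ^ B * (C * Real.exp (C * κ ^ 2 * B) * Real.exp (-κ * F g)) := by
  have E0 := Real.exp_pos (Λ * Real.log 5)
  have p0 : 0 < 4 * Real.pi * Real.exp (Λ * Real.log 5) := by positivity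
  refine ⟨4 * Real.pi * Real.exp (Λ * Real.log 5) + 4 * (Λ ^ 2 + 1), by nlinarith [sq_nonneg Λ],
    fun F hL hS g hg B κ hκ hκ1 => (ncg_transfer hL hg hΛ hκ hκ1 B).trans ?_⟩
  refine mul_le_mul_of_nonneg_left ?_ (by positivity)
  have l2 : Real.log 2 ≤ 1 := by linarith [Real.log_two_lt_d9]
  have l0 : 0 ≤ Real.log 2 := Real.log_nonneg one_le_two
  have h1 := ncgAv_bound hL hg hΛ hC ht₀ hS hκ hκ1 (T := B * Real.log 2) (by positivity)
  have h2 : Real.exp (4 * κ ^ 2 * (Λ ^ 2 + 1) * (B * Real.log 2)) ≤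
      Real.exp ((4 * Real.pi * Real.exp (Λ * Real.log 5) + 4 * (Λ ^ 2 + 1)) * κ ^ 2 * B) := by
    refine Real.exp_le_exp.2 ?_
    have a1 : 0 ≤ κ ^ 2 * B := by positivity
    have a2 : 0 ≤ (Λ ^ 2 + 1) * (κ ^ 2 * B) := by positivity
    nlinarith [mul_nonneg p0.le a1, mul_le_mul_of_nonneg_left l2 a2]
  have h3 := h1.trans (mul_le_mul_of_nonneg_left h2 (by positivity))
  refine (mul_le_mul_of_nonneg_left h3 (by positivity)).trans ?_
  set E := Real.exp ((4 * Real.pi * Real.exp (Λ * Real.log 5) + 4 * (Λ ^ 2 + 1)) * κ ^ 2 * B)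
  have : 0 ≤ (Λ ^ 2 + 1) * E * Real.exp (-κ * F g) := by positivity
  nlinarith

end Pool.Agent.MP_d0b2d2_an.Gen
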