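import Pool.Agent.MP_d0b2d2_an.Gen.Defs

open MeasureTheory Set Filter Topology

namespace Pool.Agent.MP_d0b2d2_an.Gen

lemma ncg_surj {g : ℂ →L[ℝ] ℂ} (hg : Sl g) (w : ℂ) : ∃ y, g y = w := by
  have h1 : wedge (g 1) (g Complex.I) = 1 := by rw [hg]; simp [wedge]
  have h2 := wedge_smul_eq w (g 1) (g Complex.I)
  rw [h1, one_smul] at h2
  exact ⟨wedge w (g Complex.I) • (1 : ℂ) + wedge (g 1) w • Complex.I, by
    rw [map_add, map_smul, map_smul, ← h2]⟩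

lemma ncg_norm_le_symm {g g' : ℂ →L[ℝ] ℂ} (hg : Sl g) (hg' : Sl g') {l : ℝ}
    (h : ∀ y, ‖g' y‖ ≤ l * ‖g y‖) (y : ℂ) : ‖g y‖ ≤ l * ‖g' y‖ := by
  obtain ⟨y2, hy2⟩ := ncg_surj hg (Complex.I * g y)
  have e1 : ‖g y‖ ^ 2 = wedge (g y) (g y2) := by
    rw [hy2, ← dot_self]; simp [dot, wedge]
  have e2 : wedge (g y) (g y2) ≤ ‖g' y‖ * ‖g' y2‖ := by
    rw [hg, ← hg']; exact (le_abs_self _).trans (abs_wedge_le _ _)
  have e3 := h y2
  rw [hy2, norm_mul, Complex.norm_I, one_mul] at e3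
  have e4 := mul_le_mul_of_nonneg_left e3 (norm_nonneg (g' y))
  rcases (norm_nonneg (g y)).eq_or_lt with h0 | h0
  · have e5 := h y
    rw [← h0, mul_zero] at e5
    rw [← h0, le_antisymm e5 (norm_nonneg _), mul_zero]
  · refine le_of_mul_le_mul_right ?_ h0
    nlinarith

/-- the rotation by the angle `θ` -/
noncomputable def ncgRot (θ : ℝ) : ℂ →L[ℝ] ℂ :=
  ContinuousLinearMap.mul ℝ ℂ (Complex.exp (θ * Complex.I))

lemma ncgRot_apply (θ : ℝ) (y : ℂ) : ncgRot θ y = Complex.exp (θ * Complex.I) * y := rfl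

lemma ncgRot_norm (θ : ℝ) (y : ℂ) : ‖ncgRot θ y‖ = ‖y‖ := by
  rw [ncgRot_apply, norm_mul, Complex.norm_exp_ofReal_mul_I, one_mul]

lemma ncgRot_re (θ : ℝ) (y : ℂ) : (ncgRot θ y).re = Real.cos θ * y.re - Real.sin θ * y.im := by
  rw [ncgRot_apply, Complex.mul_re, Complex.exp_ofReal_mul_I_re, Complex.exp_ofReal_mul_I_im]

lemma ncgRot_im (θ : ℝ) (y : ℂ) : (ncgRot θ y).im = Real.cos θ * y.im + Real.sin θ * y.re := by
  rw [ncgRot_apply, Complex.mul_im, Complex.exp_ofReal_mul_I_re, Complex.exp_ofReal_mul_I_im]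

lemma ncgRot_sl (θ : ℝ) : Sl (ncgRot θ) := fun y y' => by
  simp only [wedge, ncgRot_re, ncgRot_im]
  linear_combination (y.re * y'.im - y.im * y'.re) * Real.cos_sq_add_sin_sq θ

lemma ncgRot_add (θ β : ℝ) (y : ℂ) : ncgRot β (ncgRot θ y) = ncgRot (θ + β) y := by
  simp only [ncgRot_apply]
  rw [← mul_assoc, ← Complex.exp_add]
  congr 2
  push_cast
  ring

lemma ncgRot_per (θ : ℝ) : ncgRot (θ + 2 * Real.pi) = ncgRot θ := by
  ext1 y
  apply Complex.ext <;> simp only [ncgRot_re, ncgRot_im, Real.cos_add_two_pi, Real.sin_add_two_pi]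

lemma ncgRot_cont : Continuous ncgRot := by
  unfold ncgRot
  exact (ContinuousLinearMap.mul ℝ ℂ).continuous.comp (by fun_prop)

lemma ncg_hyp_re (t : ℝ) (ζ y : ℂ) : (hyp t ζ y).re =
    Real.cosh t * y.re + Real.sinh t * (ζ.re * y.re + ζ.im * y.im) := by
  simp only [hyp_apply, Complex.add_re, Complex.smul_re, smul_eq_mul, Complex.mul_re,
    Complex.conj_re, Complex.conj_im]
  ring

lemma ncg_hyp_im (t : ℝ) (ζ y : ℂ) : (hyp t ζ y).im =
    Real.cosh t * y.im + Real.sinh t * (ζ.im * y.re - ζ.re * y.im) := by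
  simp only [hyp_apply, Complex.add_im, Complex.smul_im, smul_eq_mul, Complex.mul_im,
    Complex.conj_re, Complex.conj_im]
  ring

lemma ncg_unit {ζ : ℂ} (hζ : ‖ζ‖ = 1) : ζ.re ^ 2 + ζ.im ^ 2 = 1 := by
  have := dot_self ζ
  rw [hζ, dot] at this
  linarith

lemma ncg_hyp_sl (t : ℝ) {ζ : ℂ} (hζ : ‖ζ‖ = 1) : Sl (hyp t ζ) := fun y y' => by
  simp only [wedge, ncg_hyp_re, ncg_hyp_im]
  linear_combination (y.re * y'.im - y.im * y'.re) * Real.cosh_sq t -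
    (y.re * y'.im - y.im * y'.re) * Real.sinh t ^ 2 * ncg_unit hζ

lemma ncg_hyp_norm {t : ℝ} (ht : 0 ≤ t) {ζ : ℂ} (hζ : ‖ζ‖ = 1) (y : ℂ) :
    ‖hyp t ζ y‖ ≤ Real.exp t * ‖y‖ := by
  rw [hyp_apply, ← Real.cosh_add_sinh, add_mul]
  refine (norm_add_le _ _).trans (le_of_eq ?_)
  rw [norm_smul, norm_smul, norm_mul, hζ, Complex.norm_conj, one_mul, Real.norm_of_nonneg
    (Real.cosh_pos t).le, Real.norm_of_nonneg (Real.sinh_nonneg_iff.2 ht)]

lemma ncg_hyp_cont : Continuous fun r : ℝ => hyp r 1 := by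
  unfold hyp
  fun_prop

lemma ncg_hyp_zero : hyp 0 1 = ContinuousLinearMap.id ℝ ℂ := by
  ext1 y
  simp [hyp_apply]

/-- the polar decomposition -/
lemma ncg_kak {h : ℂ →L[ℝ] ℂ} (hh : Sl h) : ∃ α β r : ℝ, 0 ≤ r ∧
    (∀ y, h y = ncgRot α (hyp r 1 (ncgRot β y))) ∧
    2 * Real.cosh (2 * r) = ‖h 1‖ ^ 2 + ‖h Complex.I‖ ^ 2 := by
  set A : ℂ := (h 1 - Complex.I * h Complex.I) / 2 with hA
  set B : ℂ := (h 1 + Complex.I * h Complex.I) / 2 with hB
  have h1 : wedge (h 1) (h Complex.I) = 1 := by rw [hh]; simp [wedge]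
  have e1 : ‖A‖ ^ 2 = ‖B‖ ^ 2 + 1 := by
    rw [← dot_self, ← dot_self]
    simp only [dot, wedge, hA, hB] at h1 ⊢
    simp
    linear_combination h1
  have e2 : 2 * (‖A‖ ^ 2 + ‖B‖ ^ 2) = ‖h 1‖ ^ 2 + ‖h Complex.I‖ ^ 2 := by
    simp only [← dot_self]
    simp only [dot, hA, hB]
    simp
    ring
  have e3 : ∀ y, h y = A * y + B * (starRingEnd ℂ) y := fun y => by
    have : y = y.re • (1 : ℂ) + y.im • Complex.I := by simp
    conv_lhs => rw [this, map_add, map_smul, map_smul]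
    apply Complex.ext <;> simp [hA, hB] <;> ring
  have s1 : Real.sinh (Real.arsinh ‖B‖) = ‖B‖ := Real.sinh_arsinh _
  have s2 : Real.cosh (Real.arsinh ‖B‖) = ‖A‖ := by
    refine (pow_left_inj₀ (Real.cosh_pos _).le (norm_nonneg _) two_ne_zero).1 ?_
    rw [Real.cosh_sq, s1, e1]
  refine ⟨(A.arg + B.arg) / 2, (A.arg - B.arg) / 2, Real.arsinh ‖B‖,
    Real.arsinh_nonneg_iff.2 (norm_nonneg _), fun y => ?_, ?_⟩
  · rw [e3, hyp_apply, s1, s2, ncgRot_apply, ncgRot_apply, map_mul, ← Complex.exp_conj,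
      Complex.real_smul, Complex.real_smul, one_mul]
    conv_lhs => rw [← Complex.norm_mul_exp_arg_mul_I A, ← Complex.norm_mul_exp_arg_mul_I B]
    have a1 : Complex.exp (A.arg * Complex.I) =
        Complex.exp ((((A.arg + B.arg) / 2 : ℝ) : ℂ) * Complex.I) *
          Complex.exp ((((A.arg - B.arg) / 2 : ℝ) : ℂ) * Complex.I) := by
      rw [← Complex.exp_add]; congr 1; push_cast; ring
    have a2 : Complex.exp (B.arg * Complex.I) =
        Complex.exp ((((A.arg + B.arg) / 2 : ℝ) : ℂ) * Complex.I) *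
          Complex.exp ((starRingEnd ℂ) ((((A.arg - B.arg) / 2 : ℝ) : ℂ) * Complex.I)) := by
      rw [← Complex.exp_add, map_mul, Complex.conj_ofReal, Complex.conj_I]; congr 1; push_cast; ring
    rw [a1, a2]
    ring
  · rw [Real.cosh_two_mul, s1, s2, e2]

lemma ncg_step {t r : ℝ} (ht : 0 ≤ t) (hr : 0 ≤ r) {ζ : ℂ} (hζ : ‖ζ‖ = 1) :
    ∃ α β r' : ℝ, 0 ≤ r' ∧ r' ≤ r + t ∧
      (∀ y, hyp t ζ (hyp r 1 y) = ncgRot α (hyp r' 1 (ncgRot β y))) ∧
      Real.cosh (2 * r') = Real.cosh (2 * t) * Real.cosh (2 * r) +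
        ζ.re * (Real.sinh (2 * t) * Real.sinh (2 * r)) := by
  obtain ⟨α, β, r', h0, h1, h2⟩ := ncg_kak ((ncg_hyp_sl t hζ).comp (ncg_hyp_sl r norm_one))
  have e : Real.cosh (2 * r') = Real.cosh (2 * t) * Real.cosh (2 * r) +
        ζ.re * (Real.sinh (2 * t) * Real.sinh (2 * r)) := by
    simp only [← dot_self] at h2
    simp only [dot, ContinuousLinearMap.comp_apply, ncg_hyp_re, ncg_hyp_im, Complex.one_re,
      Complex.one_im, Complex.I_re, Complex.I_im] at h2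
    rw [Real.cosh_two_mul t, Real.cosh_two_mul r, Real.sinh_two_mul, Real.sinh_two_mul]
    linear_combination h2 / 2 + Real.sinh t ^ 2 * (Real.cosh r ^ 2 + Real.sinh r ^ 2) * ncg_unit hζ
  refine ⟨α, β, r', h0, ?_, h1, e⟩
  have a1 : ζ.re ≤ 1 := hζ ▸ Complex.re_le_norm ζ
  have a2 : 0 ≤ Real.sinh (2 * t) * Real.sinh (2 * r) :=
    mul_nonneg (Real.sinh_nonneg_iff.2 (by linarith)) (Real.sinh_nonneg_iff.2 (by linarith))
  have a3 : Real.cosh (2 * r') ≤ Real.cosh (2 * t + 2 * r) := by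
    rw [Real.cosh_add, e]; nlinarith
  rw [Real.cosh_le_cosh, abs_of_nonneg (by linarith), abs_of_nonneg (by linarith)] at a3
  linarith

/-- subharmonicity of the logarithm of the Hilbert-Schmidt norm -/
lemma ncg_sub {t r c₁ c₂ c₃ c₄ : ℝ} (ht : 0 ≤ t) (ht' : t ≤ 1 / 2)
    (h₁ : c₁ = Real.cosh (2 * t) * Real.cosh (2 * r) + Real.sinh (2 * t) * Real.sinh (2 * r))
    (h₂ : c₂ = Real.cosh (2 * t) * Real.cosh (2 * r) - Real.sinh (2 * t) * Real.sinh (2 * r))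
    (h₃ : c₃ = Real.cosh (2 * t) * Real.cosh (2 * r))
    (h₄ : c₄ = Real.cosh (2 * t) * Real.cosh (2 * r)) :
    4 * Real.log (Real.cosh (2 * r)) + 2 * t ^ 2 ≤
      Real.log c₁ + Real.log c₂ + Real.log c₃ + Real.log c₄ := by
  have p1 : 0 < c₁ := by rw [h₁, ← Real.cosh_add]; exact Real.cosh_pos _
  have p2 : 0 < c₂ := by rw [h₂, ← Real.cosh_sub]; exact Real.cosh_pos _
  have pc := Real.cosh_pos (2 * r)
  have pt := Real.cosh_pos (2 * t)
  have a1 : Real.cosh (2 * r) ^ 2 ≤ c₁ * c₂ := by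
    rw [h₁, h₂]
    nlinarith [Real.cosh_sq (2 * r), Real.cosh_sq (2 * t), sq_nonneg (Real.sinh (2 * t))]
  have a2 := Real.log_le_log (by positivity) a1
  rw [Real.log_mul p1.ne' p2.ne', Real.log_pow] at a2
  have a3 : 1 + 4 * t ^ 2 ≤ Real.cosh (2 * t) ^ 2 := by
    have := Real.self_le_sinh_iff.2 (show 0 ≤ 2 * t by linarith)
    nlinarith [Real.cosh_sq (2 * t)]
  have a4 := Real.log_le_log (by positivity) a3
  rw [Real.log_pow] at a4
  have a5 : 2 * t ^ 2 ≤ Real.log (1 + 4 * t ^ 2) := by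
    have b1 := Real.one_sub_inv_le_log_of_pos (show 0 < 1 + 4 * t ^ 2 by positivity)
    refine le_trans ?_ b1
    have b2 : (1 + 4 * t ^ 2)⁻¹ ≤ 1 - 2 * t ^ 2 := by
      rw [inv_eq_one_div, div_le_iff₀ (by positivity)]
      have : t ^ 2 ≤ 1 / 4 := by nlinarith
      nlinarith [sq_nonneg t]
    linarith
  rw [h₃, h₄, Real.log_mul pt.ne' pc.ne']
  push_cast at a2 a4
  linarith

lemma ncg_cmp (B : ℕ) {σ τ : ℝ} (h0 : 0 ≤ σ) (h1 : σ ≤ τ) (h2 : τ ≤ σ + 1 / 4 ^ B) (h3 : τ ≤ 1)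
    (y : ℂ) : ‖hyp (B * Real.log 2) 1 (ncgRot (Real.arctan τ) y)‖ ≤ 5 * ‖zm σ B y‖ := by
  have hD : Real.exp (B * Real.log 2) = 2 ^ B := by
    rw [Real.exp_nat_mul, Real.exp_log two_pos]
  have hD' : Real.exp (-(B * Real.log 2)) = 1 / 2 ^ B := by rw [Real.exp_neg, hD, one_div]
  set c := Real.cos (Real.arctan τ) with hc
  have c0 : 0 < c := Real.cos_arctan_pos τ
  have c1 : c ≤ 1 := Real.cos_le_one _
  have hs : Real.sin (Real.arctan τ) = τ * c := by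
    have := Real.tan_arctan τ
    rw [Real.tan_eq_sin_div_cos, div_eq_iff c0.ne'] at this
    exact this
  set u := (zm σ B y).re with hu
  set v := (zm σ B y).im with hv
  have h4 : (4 : ℝ) ^ B = 2 ^ B * 2 ^ B := by rw [← mul_pow]; norm_num
  have hp : (1 : ℝ) ≤ 2 ^ B := one_le_pow₀ one_le_two
  have e1 : (hyp (B * Real.log 2) 1 (ncgRot (Real.arctan τ) y)).re =
      c * (u - (4 ^ B * (τ - σ)) * v) := by
    rw [ncg_hyp_re, Complex.one_re, Complex.one_im, one_mul, zero_mul, add_zero, ← add_mul,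
      Real.cosh_add_sinh, hD, ncgRot_re, hs, ← hc, hu, hv, zm_re, zm_im, h4]
    field_simp
    ring
  have e2 : (hyp (B * Real.log 2) 1 (ncgRot (Real.arctan τ) y)).im =
      c * (τ / 4 ^ B * u + (1 + τ * σ) * v) := by
    rw [ncg_hyp_im, Complex.one_re, Complex.one_im, one_mul, zero_mul, zero_sub, mul_neg,
      ← sub_eq_add_neg, ← sub_mul, Real.cosh_sub_sinh, hD', ncgRot_im, hs, ← hc, hu, hv, zm_re,
      zm_im, h4]
    field_simp
    ring
  have q4 : (0 : ℝ) < 4 ^ B := by positivity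
  have b1 : |4 ^ B * (τ - σ)| ≤ 1 := by
    rw [abs_of_nonneg (mul_nonneg q4.le (by linarith))]
    have : τ - σ ≤ 1 / 4 ^ B := by linarith
    rwa [le_div_iff₀ q4, mul_comm] at this
  have b2 : |τ / 4 ^ B| ≤ 1 := by
    rw [abs_of_nonneg (div_nonneg (by linarith) q4.le), div_le_one q4]
    exact h3.trans (one_le_pow₀ (by norm_num))
  have b3 : |1 + τ * σ| ≤ 2 := by
    rw [abs_of_nonneg (by nlinarith)]; nlinarith
  have u1 : |u| ≤ ‖zm σ B y‖ := Complex.abs_re_le_norm _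
  have v1 : |v| ≤ ‖zm σ B y‖ := Complex.abs_im_le_norm _
  refine (Complex.norm_le_abs_re_add_abs_im _).trans ?_
  rw [e1, e2, abs_mul, abs_mul, abs_of_pos c0]
  have d1 : |u - (4 ^ B * (τ - σ)) * v| ≤ |u| + |v| := by
    refine (abs_sub _ _).trans ?_
    rw [abs_mul]
    nlinarith [abs_nonneg v]
  have d2 : |τ / 4 ^ B * u + (1 + τ * σ) * v| ≤ |u| + 2 * |v| := by
    refine (abs_add_le _ _).trans ?_
    rw [abs_mul, abs_mul]
    nlinarith [abs_nonneg v, abs_nonneg u]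
  nlinarith [abs_nonneg (u - (4 ^ B * (τ - σ)) * v), abs_nonneg (τ / 4 ^ B * u + (1 + τ * σ) * v)]

end Pool.Agent.MP_d0b2d2_an.Gen
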