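import Pool.Agent.MP_d0b2d2_an.Gen.HA

open Set Filter Topology
open scoped Matrix

namespace Pool.Agent.MP_d0b2d2_an.Gen

section Aux

variable {H : Type} [NormedAddCommGroup H] [InnerProductSpace ℝ H] [CompleteSpace H]

lemma ncloc_perp_mem (K : Submodule ℝ H) (v : H) : perp K v ∈ Kᗮ :=
  Submodule.starProjection_apply_mem _ _

lemma ncloc_sub_mem (K : Submodule ℝ H) (v : H) : v - perp K v ∈ Kᗮᗮ :=
  Submodule.sub_starProjection_mem_orthogonal v

omit [CompleteSpace H] in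
lemma ncloc_orth {K : Submodule ℝ H} {x y : H} (hx : x ∈ Kᗮ) (hy : y ∈ Kᗮᗮ) :
    inner ℝ x y = 0 := Submodule.inner_right_of_mem_orthogonal hx hy

lemma ncloc_inner_perp {K : Submodule ℝ H} {x : H} (hx : x ∈ Kᗮ) (v : H) :
    inner ℝ x (perp K v) = inner ℝ x v := by
  have := ncloc_orth hx (ncloc_sub_mem K v)
  rw [inner_sub_right] at this
  linarith

lemma ncloc_inner_sub {K : Submodule ℝ H} {x : H} (hx : x ∈ Kᗮᗮ) (v : H) :
    inner ℝ (v - perp K v) x = inner ℝ v x := by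
  rw [inner_sub_left, ncloc_orth (ncloc_perp_mem K v) hx, sub_zero]

lemma ncloc_norm_sub_le (K : Submodule ℝ H) (v : H) : ‖v - perp K v‖ ≤ ‖v‖ := by
  have h := ncloc_inner_sub (ncloc_sub_mem K v) v
  rw [real_inner_self_eq_norm_sq] at h
  have h2 := real_inner_le_norm v (v - perp K v)
  by_contra hc
  have h3 := not_le.1 hc
  nlinarith [norm_nonneg v]

/-- self-adjoint involutions -/
def NclocInv (S : H →L[ℝ] H) : Prop :=
  (∀ x y, inner ℝ (S x) y = inner ℝ x (S y)) ∧ ∀ x, S (S x) = x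

omit [CompleteSpace H] in
lemma NclocInv.norm {S : H →L[ℝ] H} (hS : NclocInv S) (x : H) : ‖S x‖ = ‖x‖ := by
  have h := hS.1 x (S x)
  rw [hS.2, real_inner_self_eq_norm_sq, real_inner_self_eq_norm_sq] at h
  exact (pow_left_inj₀ (norm_nonneg _) (norm_nonneg _) two_ne_zero).1 h

omit [CompleteSpace H] in
lemma NclocInv.abs_inner {S : H →L[ℝ] H} (hS : NclocInv S) (x y : H) :
    |inner ℝ (S x) y| ≤ ‖x‖ * ‖y‖ := by
  rw [← hS.norm x]
  exact abs_real_inner_le_norm _ _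

omit [CompleteSpace H] in
lemma NclocInv.norm_sq {S : H →L[ℝ] H} (hS : NclocInv S) (t : ℝ) (y : H) :
    ‖Real.cosh t • y + Real.sinh t • S y‖ ^ 2 =
      Real.cosh (2 * t) * ‖y‖ ^ 2 + Real.sinh (2 * t) * inner ℝ (S y) y := by
  rw [norm_add_sq_real, norm_smul, norm_smul, hS.norm, real_inner_smul_left, real_inner_smul_right,
    Real.cosh_two_mul, Real.sinh_two_mul, real_inner_comm (S y) y, mul_pow, mul_pow,
    Real.norm_eq_abs, Real.norm_eq_abs, sq_abs, sq_abs]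
  ring

lemma NclocInv.quad {S T : H →L[ℝ] H} (hS : NclocInv S) {t : ℝ} (ht : 0 ≤ t)
    (hT : ∀ x, T x = Real.cosh t • x + Real.sinh t • S x) (K : Submodule ℝ H) (v : H) :
    Real.cosh (2 * t) * ‖perp K v‖ ^ 2 + Real.sinh (2 * t) * inner ℝ (S (perp K v)) (perp K v) -
        Real.sinh (2 * t) ^ 2 * Real.exp (2 * t) * ‖S (perp K v) - perp K (S (perp K v))‖ ^ 2 ≤
      ‖perp (K.map (T : H →ₗ[ℝ] H)) (T v)‖ ^ 2 ∧
    ‖perp (K.map (T : H →ₗ[ℝ] H)) (T v)‖ ^ 2 ≤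
      Real.cosh (2 * t) * ‖perp K v‖ ^ 2 +
        Real.sinh (2 * t) * inner ℝ (S (perp K v)) (perp K v) := by
  set w := perp K v with hw
  set p := perp (K.map (T : H →ₗ[ℝ] H)) (T v) with hp
  have pm : p ∈ (K.map (T : H →ₗ[ℝ] H))ᗮ := ncloc_perp_mem _ _
  have wm : w ∈ Kᗮ := ncloc_perp_mem _ _
  have adj : ∀ x y, inner ℝ (T x) y = inner ℝ x (T y) := fun x y => by
    simp only [hT, inner_add_left, inner_add_right, real_inner_smul_left, real_inner_smul_right,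
      hS.1]
  let U : H → H := fun x => Real.cosh t • x - Real.sinh t • S x
  have adj' : ∀ x y, inner ℝ (U x) y = inner ℝ x (U y) := fun x y => by
    simp only [U, inner_sub_left, inner_sub_right, real_inner_smul_left, real_inner_smul_right,
      hS.1]
  have TU : ∀ x, T (U x) = x := fun x => by
    have e : T (U x) = (Real.cosh t ^ 2 - Real.sinh t ^ 2) • x := by
      simp only [U, hT, map_sub, map_smul, hS.2]
      module
    rw [e, Real.cosh_sq_sub_sinh_sq, one_smul]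
  constructor
  · have em : U p - w ∈ Kᗮᗮ := by
      refine (Submodule.mem_orthogonal _ _).2 fun z hz => ?_
      have h1 : U z ∈ (K.map (T : H →ₗ[ℝ] H))ᗮ := by
        refine (Submodule.mem_orthogonal _ _).2 ?_
        rintro _ ⟨e, he, rfl⟩
        rw [ContinuousLinearMap.coe_coe, adj, TU]
        exact Submodule.inner_right_of_mem_orthogonal he hz
      rw [inner_sub_right, ← adj', hp, ncloc_inner_perp h1, ← adj, TU, hw, ncloc_inner_perp hz,
        sub_self]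
    set e := U p - w with he
    have e1 : p = T (w + e) := by rw [he, add_sub_cancel, TU]
    have e2 := hS.norm_sq t (w + e)
    rw [← hT, ← e1, norm_add_sq_real, ncloc_orth wm em, map_add, inner_add_left, inner_add_right,
      inner_add_right, hS.1 e w, real_inner_comm (S w) e, ← ncloc_inner_sub em (S w)] at e2
    have b1 := (abs_le.1 (hS.abs_inner e e)).1
    have b2 := (abs_le.1 (abs_real_inner_le_norm (S w - perp K (S w)) e)).1
    have s0 : 0 ≤ Real.sinh (2 * t) := Real.sinh_nonneg_iff.2 (by linarith)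
    have c1 := Real.cosh_sub_sinh (2 * t)
    have c2 : Real.exp (-(2 * t)) * Real.exp (2 * t) = 1 := by rw [← Real.exp_add]; simp
    set A := ‖S w - perp K (S w)‖
    set n := ‖e‖
    set s := Real.sinh (2 * t)
    set x := Real.exp (2 * t)
    set x' := Real.exp (-(2 * t))
    have c3 : 0 ≤ x' * (n - s * x * A) ^ 2 := mul_nonneg (Real.exp_pos _).le (sq_nonneg _)
    have c4 : x' * (n - s * x * A) ^ 2 =
        x' * n ^ 2 - 2 * s * A * n * (x' * x) + s ^ 2 * x * A ^ 2 * (x' * x) := by ring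
    rw [c2] at c4
    have c5 := mul_le_mul_of_nonneg_left b1 s0
    have c6 := mul_le_mul_of_nonneg_left b2 s0
    have c7 : Real.cosh (2 * t) = x' + s := by linarith
    rw [e2, c7]
    nlinarith
  · have h1 : T p ∈ Kᗮ := by
      refine (Submodule.mem_orthogonal _ _).2 fun e he => ?_
      rw [← adj]
      exact Submodule.inner_right_of_mem_orthogonal (Submodule.mem_map_of_mem he) pm
    have h2 : inner ℝ p (T w) = ‖p‖ ^ 2 := by
      rw [← adj, hw, ncloc_inner_perp h1, adj, ← ncloc_inner_perp pm, ← hp,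
        real_inner_self_eq_norm_sq]
    have h3 := real_inner_le_norm p (T w)
    rw [← hS.norm_sq, ← hT]
    nlinarith [sq_nonneg (‖p‖ - ‖T w‖)]

lemma ncloc_num {t : ℝ} (h0 : 0 < t) (h1 : t ≤ 1 / 10) : 0 ≤ Real.sinh (2 * t) ∧
    Real.sinh (2 * t) ≤ 3 * t ∧ 1 ≤ Real.cosh (2 * t) ∧ Real.cosh (2 * t) - 1 ≤ 4 * t ^ 2 ∧
    Real.exp (2 * t) ≤ 1 + 3 * t := by
  have a1 := abs_le.1 (Real.abs_exp_sub_one_sub_id_le (x := 2 * t)
    (by rw [abs_le]; constructor <;> linarith))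
  have a2 := abs_le.1 (Real.abs_exp_sub_one_sub_id_le (x := -(2 * t))
    (by rw [abs_le]; constructor <;> linarith))
  refine ⟨Real.sinh_nonneg_iff.2 (by linarith), ?_, Real.one_le_cosh _, ?_, ?_⟩
  · rw [Real.sinh_eq]; nlinarith [a1.2, a2.1]
  · rw [Real.cosh_eq]; nlinarith [a1.2, a2.2]
  · nlinarith [a1.2]

lemma NclocInv.rem {S T : H →L[ℝ] H} (hS : NclocInv S) {t : ℝ} (h0 : 0 < t) (h1 : t ≤ 1 / 10)
    (hT : ∀ x, T x = Real.cosh t • x + Real.sinh t • S x) (K : Submodule ℝ H) (v : H) :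
    |‖perp (K.map (T : H →ₗ[ℝ] H)) (T v)‖ ^ 2 - ‖perp K v‖ ^ 2 -
      Real.sinh (2 * t) * inner ℝ (S (perp K v)) (perp K v)| ≤ 18 * t ^ 2 * ‖perp K v‖ ^ 2 := by
  obtain ⟨q1, q2⟩ := hS.quad h0.le hT K v
  obtain ⟨n1, n2, n3, n4, n5⟩ := ncloc_num h0 h1
  have b := ncloc_norm_sub_le K (S (perp K v))
  rw [hS.norm] at b
  have b2 : ‖S (perp K v) - perp K (S (perp K v))‖ ^ 2 ≤ ‖perp K v‖ ^ 2 := by gcongr
  have b3 : Real.sinh (2 * t) ^ 2 * Real.exp (2 * t) ≤ (3 * t) ^ 2 * 2 := by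
    gcongr; linarith
  have b4 := mul_le_mul b3 b2 (by positivity) (by positivity)
  have b5 := mul_le_mul_of_nonneg_right n4 (sq_nonneg ‖perp K v‖)
  have b6 := mul_le_mul_of_nonneg_right n3 (sq_nonneg ‖perp K v‖)
  have b7 : 0 ≤ t ^ 2 * ‖perp K v‖ ^ 2 := by positivity
  rw [abs_le]
  constructor <;> nlinarith

lemma NclocInv.rem₂ {S T : H →L[ℝ] H} (hS : NclocInv S) {t : ℝ} (h0 : 0 < t) (h1 : t ≤ 1 / 10)
    (hT : ∀ x, T x = Real.cosh t • x + Real.sinh t • S x) (K : Submodule ℝ H) {v v' : H}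
    (hv : ‖perp K v‖ ^ 2 ≤ 1) (hv' : ‖perp K v'‖ ^ 2 ≤ 1) :
    |inner ℝ (perp (K.map (T : H →ₗ[ℝ] H)) (T v)) (perp (K.map (T : H →ₗ[ℝ] H)) (T v')) -
      inner ℝ (perp K v) (perp K v') -
      Real.sinh (2 * t) * inner ℝ (S (perp K v)) (perp K v')| ≤ 18 * t ^ 2 := by
  have a := abs_le.1 (hS.rem h0 h1 hT K (v + v'))
  have b := abs_le.1 (hS.rem h0 h1 hT K (v - v'))
  simp only [map_add, map_sub, norm_add_sq_real, norm_sub_sq_real, inner_add_left, inner_add_right,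
    inner_sub_left, inner_sub_right] at a b
  have e : inner ℝ (S (perp K v')) (perp K v) = inner ℝ (S (perp K v)) (perp K v') := by
    rw [hS.1, real_inner_comm]
  rw [e] at a b
  have c1 := mul_le_mul_of_nonneg_left hv (sq_nonneg t)
  have c2 := mul_le_mul_of_nonneg_left hv' (sq_nonneg t)
  rw [abs_le]
  constructor <;> nlinarith [a.1, a.2, b.1, b.2]

omit [CompleteSpace H] in
/-- the Gram matrix with a rank one term -/
def nclocM {m : ℕ} (u : Fin m → H) (c : Fin m → ℝ) : Matrix (Fin m) (Fin m) ℝ :=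
  Matrix.of fun i j => inner ℝ (u i) (u j) + c i * c j

omit [CompleteSpace H] in
lemma nclocM_comb {m : ℕ} (P : Matrix (Fin m) (Fin m) ℝ) (u : Fin m → H) (c : Fin m → ℝ) :
    nclocM (fun i => ∑ j, P i j • u j) (fun i => ∑ j, P i j * c j) = P * nclocM u c * Pᵀ := by
  ext i k
  simp only [nclocM, Matrix.of_apply, Matrix.mul_apply, Matrix.transpose_apply, sum_inner,
    inner_sum, real_inner_smul_left, real_inner_smul_right, Finset.sum_mul, Finset.mul_sum,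
    ← Finset.sum_add_distrib]
  refine Finset.sum_congr rfl fun j _ => Finset.sum_congr rfl fun l _ => ?_
  ring

omit [CompleteSpace H] in
open scoped MatrixOrder in
lemma nclocM_norm {m : ℕ} (u : Fin m → H) (c : Fin m → ℝ) (h : (nclocM u c).det ≠ 0) :
    ∃ P : Matrix (Fin m) (Fin m) ℝ, P * nclocM u c * Pᵀ = 1 := by
  have hp : (nclocM u c).PosSemidef :=
    (Matrix.posSemidef_gram ℝ u).add (Matrix.posSemidef_vecMulVec_self_star c)
  obtain ⟨B, hB⟩ := CStarAlgebra.nonneg_iff_eq_star_mul_self.mp hp.nonneg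
  have hB' : nclocM u c = Bᵀ * B := hB
  have hd : IsUnit B.det := by
    rw [hB', Matrix.det_mul] at h
    exact (right_ne_zero_of_mul h).isUnit
  refine ⟨(B⁻¹)ᵀ, ?_⟩
  rw [hB', Matrix.transpose_transpose, ← Matrix.mul_assoc, ← Matrix.transpose_mul,
    Matrix.mul_nonsing_inv _ hd, Matrix.transpose_one, Matrix.one_mul, Matrix.mul_nonsing_inv _ hd]

omit [CompleteSpace H] in
lemma nclocM_diag {m : ℕ} {w : Fin m → H} {c : Fin m → ℝ} (h : nclocM w c = 1) (i : Fin m) :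
    ‖w i‖ ^ 2 ≤ 1 := by
  have := congrFun (congrFun h i) i
  simp only [nclocM, Matrix.of_apply, Matrix.one_apply_eq, real_inner_self_eq_norm_sq] at this
  nlinarith [mul_self_nonneg (c i)]

omit [CompleteSpace H] in
lemma nclocM_le {m : ℕ} {w : Fin m → H} {c : Fin m → ℝ} (h : nclocM w c = 1) (x : Fin m → ℝ) :
    ‖∑ j, x j • w j‖ ^ 2 ≤ ∑ j, x j ^ 2 := by
  have e : ∀ i j, inner ℝ (w i) (w j) = (if i = j then 1 else 0) - c i * c j := fun i j => by
    have := congrFun (congrFun h i) j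
    simp only [nclocM, Matrix.of_apply, Matrix.one_apply] at this
    linarith
  have e2 : ‖∑ j, x j • w j‖ ^ 2 = ∑ j, x j ^ 2 - (∑ j, x j * c j) ^ 2 := by
    rw [← real_inner_self_eq_norm_sq, sq (∑ j, x j * c j), Finset.sum_mul_sum, sum_inner,
      ← Finset.sum_sub_distrib]
    refine Finset.sum_congr rfl fun i _ => ?_
    simp only [inner_sum, real_inner_smul_left, real_inner_smul_right, e, mul_sub, mul_ite,
      Finset.sum_sub_distrib, mul_one, mul_zero, Finset.sum_ite_eq, Finset.mem_univ, if_true]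
    congr 1
    · ring
    · exact Finset.sum_congr rfl fun j _ => by ring
  rw [e2]
  linarith [sq_nonneg (∑ j, x j * c j)]

lemma ncloc_bessel {J : H →L[ℝ] H} (hJ : ∀ x y, inner ℝ (J x) y = -inner ℝ x (J y))
    (hJJ : ∀ x, J (J x) = -x) {K : Submodule ℝ H} (hK : ∀ e ∈ K, ∀ e' ∈ K, inner ℝ (J e) e' = 0)
    {m : ℕ} {v : Fin m → H} {c : Fin m → ℝ} (hv : ∀ i, ∀ e ∈ K, inner ℝ (J (v i)) e = 0)
    (h : nclocM (fun i => perp K (v i)) c = 1) (y : H) :
    ‖y - perp K y‖ ^ 2 + ‖J y - perp K (J y)‖ ^ 2 + ∑ j, inner ℝ y (perp K (v j)) ^ 2 ≤ ‖y‖ ^ 2 := by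
  have k1 : ∀ f ∈ Kᗮᗮ, J f ∈ Kᗮ := fun f hf => by
    refine (Submodule.mem_orthogonal _ _).2 fun e he => ?_
    have : J e ∈ Kᗮ := (Submodule.mem_orthogonal' _ _).2 (hK e he)
    have := ncloc_orth this hf
    rw [hJ] at this
    linarith
  have nJ : ∀ x, ‖J x‖ ^ 2 = ‖x‖ ^ 2 := fun x => by
    rw [← real_inner_self_eq_norm_sq, hJ, hJJ, inner_neg_right, neg_neg,
      real_inner_self_eq_norm_sq]
  set a := y - perp K y
  set a' := J y - perp K (J y)
  have am : a ∈ Kᗮᗮ := ncloc_sub_mem K y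
  have am' : a' ∈ Kᗮᗮ := ncloc_sub_mem K (J y)
  set z := ∑ j, inner ℝ y (perp K (v j)) • perp K (v j) with hz
  have zm : z ∈ Kᗮ := Submodule.sum_mem _ fun j _ => Submodule.smul_mem _ _ (ncloc_perp_mem K _)
  have o1 : inner ℝ (J a') a = 0 := ncloc_orth (k1 _ am') am
  have o2 : inner ℝ z a = 0 := ncloc_orth zm am
  have o3 : inner ℝ z (J a') = 0 := by
    rw [hz, sum_inner]
    refine Finset.sum_eq_zero fun j _ => ?_
    have h1 : J (v j) ∈ Kᗮ := (Submodule.mem_orthogonal' _ _).2 (hv j)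
    have h2 := ncloc_orth h1 am'
    rw [real_inner_smul_left, real_inner_comm (J a'), ncloc_inner_perp (k1 _ am'),
      real_inner_comm (v j) (J a'), ← neg_neg (inner ℝ (v j) (J a')), ← hJ, h2, neg_zero, mul_zero]
  have p1 : inner ℝ y a = ‖a‖ ^ 2 := by
    rw [← ncloc_inner_sub am y, real_inner_self_eq_norm_sq]
  have p2 : inner ℝ y (J a') = -‖a'‖ ^ 2 := by
    rw [← real_inner_self_eq_norm_sq, ncloc_inner_sub am' (J y), hJ, neg_neg]
  have p3 : inner ℝ y z = ∑ j, inner ℝ y (perp K (v j)) ^ 2 := by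
    rw [hz, inner_sum]
    exact Finset.sum_congr rfl fun j _ => by rw [real_inner_smul_right, sq]
  have p4 : ‖z‖ ^ 2 ≤ _ := nclocM_le h fun j => inner ℝ y (perp K (v j))
  have p5 := sq_nonneg ‖y - (z + (a - J a'))‖
  rw [norm_sub_sq_real, norm_add_sq_real, norm_sub_sq_real, inner_add_right, inner_sub_right y a,
    inner_sub_right z a, real_inner_comm (J a') a, o1, o2, o3, p1, p2, p3, nJ] at p5
  linarith

lemma ncloc_one {m : ℕ} {C t₀ : ℝ} (hC : ∀ (Y : Matrix (Fin m) (Fin m) ℝ) (t : ℝ), Y.IsSymm →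
      0 < t → t ≤ t₀ → (∀ i j, |Y i j| ≤ 10 * t) → 0 < (1 + Y).det ∧
      Y.trace - (1 / 2) * ∑ i, ∑ j, Y i j ^ 2 - C * t ^ 3 ≤ Real.log (1 + Y).det)
    {S T : H →L[ℝ] H} (hS : NclocInv S) {t : ℝ} (h0 : 0 < t) (h1 : t ≤ 1 / 10) (h2 : t ≤ t₀)
    (hT : ∀ x, T x = Real.cosh t • x + Real.sinh t • S x) {K : Submodule ℝ H} {v : Fin m → H}
    {c : Fin m → ℝ} (h : nclocM (fun i => perp K (v i)) c = 1) :
    0 < (nclocM (fun i => perp (K.map (T : H →ₗ[ℝ] H)) (T (v i))) c).det ∧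
    ∑ i, ((Real.cosh (2 * t) - 1) * ‖perp K (v i)‖ ^ 2 +
        Real.sinh (2 * t) * inner ℝ (S (perp K (v i))) (perp K (v i)) -
        Real.sinh (2 * t) ^ 2 * Real.exp (2 * t) *
          ‖S (perp K (v i)) - perp K (S (perp K (v i)))‖ ^ 2 -
        Real.sinh (2 * t) ^ 2 / 2 * ∑ j, inner ℝ (S (perp K (v i))) (perp K (v j)) ^ 2) -
      (C + 71 * m ^ 2) * t ^ 3 ≤
      Real.log (nclocM (fun i => perp (K.map (T : H →ₗ[ℝ] H)) (T (v i))) c).det := by
  set p := fun i => perp (K.map (T : H →ₗ[ℝ] H)) (T (v i)) with hp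
  set w := fun i => perp K (v i) with hw
  obtain ⟨n1, n2, -, -, -⟩ := ncloc_num h0 h1
  let Y : Matrix (Fin m) (Fin m) ℝ := Matrix.of fun i j => inner ℝ (p i) (p j) - inner ℝ (w i) (w j)
  have eY : 1 + Y = nclocM p c := by
    rw [← h]
    ext i j
    simp only [nclocM, Y, Matrix.add_apply, Matrix.of_apply]
    ring
  have r : ∀ i j, |Y i j - Real.sinh (2 * t) * inner ℝ (S (w i)) (w j)| ≤ 18 * t ^ 2 :=
    fun i j => hS.rem₂ h0 h1 hT K (nclocM_diag h i) (nclocM_diag h j)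
  have r2 : ∀ i j, |Real.sinh (2 * t) * inner ℝ (S (w i)) (w j)| ≤ 3 * t := fun i j => by
    have a1 := hS.abs_inner (w i) (w j)
    have a2 := nclocM_diag h i
    have a3 := nclocM_diag h j
    have a4 : |inner ℝ (S (w i)) (w j)| ≤ 1 := by nlinarith [sq_nonneg (‖w i‖ - ‖w j‖)]
    rw [abs_mul, abs_of_nonneg n1]
    nlinarith [abs_nonneg (inner ℝ (S (w i)) (w j))]
  obtain ⟨g1, g2⟩ := hC Y t (by
      ext i j
      simp only [Y, Matrix.transpose_apply, Matrix.of_apply, real_inner_comm]) h0 h2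
    fun i j => by
      have a := abs_le.1 (r i j)
      have b := abs_le.1 (r2 i j)
      rw [abs_le]
      constructor <;> nlinarith [a.1, a.2, b.1, b.2]
  rw [eY] at g1 g2
  refine ⟨g1, le_trans ?_ g2⟩
  have sq : ∀ i j, Y i j ^ 2 ≤
      Real.sinh (2 * t) ^ 2 * inner ℝ (S (w i)) (w j) ^ 2 + 142 * t ^ 3 := fun i j => by
    have a := r i j
    have b := r2 i j
    rw [← mul_pow]
    set β := Real.sinh (2 * t) * inner ℝ (S (w i)) (w j)
    have e : Y i j ^ 2 = β ^ 2 + (2 * (β * (Y i j - β)) + (Y i j - β) ^ 2) := by ring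
    have c1 : β * (Y i j - β) ≤ 3 * t * (18 * t ^ 2) := by
      refine (le_abs_self _).trans ?_
      rw [abs_mul]
      gcongr
    have c2 : (Y i j - β) ^ 2 ≤ (18 * t ^ 2) ^ 2 := by
      rw [← sq_abs]
      gcongr
    have c3 : t ^ 3 * t ≤ t ^ 3 * (1 / 10) := by gcongr
    nlinarith [pow_pos h0 3]
  have tr : ∀ i, (Real.cosh (2 * t) - 1) * ‖w i‖ ^ 2 +
      Real.sinh (2 * t) * inner ℝ (S (w i)) (w i) - Real.sinh (2 * t) ^ 2 * Real.exp (2 * t) *
        ‖S (w i) - perp K (S (w i))‖ ^ 2 ≤ Y i i := fun i => by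
    have := (hS.quad h0.le hT K (v i)).1
    simp only [Y, Matrix.of_apply, real_inner_self_eq_norm_sq]
    linarith
  have s1 := Finset.sum_le_sum (s := Finset.univ) fun i _ => tr i
  have s2 := Finset.sum_le_sum (s := Finset.univ) fun i _ =>
    Finset.sum_le_sum (s := Finset.univ) fun j _ => sq i j
  simp only [Finset.sum_add_distrib, ← Finset.mul_sum, Finset.sum_const, Finset.card_univ,
    Fintype.card_fin, nsmul_eq_mul] at s2
  rw [Finset.sum_sub_distrib, ← Finset.mul_sum]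
  have s3 : Y.trace = ∑ i, Y i i := rfl
  nlinarith

lemma ncloc_core {m : ℕ} {C t₀ : ℝ} (hC : ∀ (Y : Matrix (Fin m) (Fin m) ℝ) (t : ℝ), Y.IsSymm →
      0 < t → t ≤ t₀ → (∀ i j, |Y i j| ≤ 10 * t) → 0 < (1 + Y).det ∧
      Y.trace - (1 / 2) * ∑ i, ∑ j, Y i j ^ 2 - C * t ^ 3 ≤ Real.log (1 + Y).det)
    {S S' J : H →L[ℝ] H} (hS : NclocInv S) (hS' : NclocInv S') (e : ∀ x, S' x = J (S x))
    (hJ : ∀ x y, inner ℝ (J x) y = -inner ℝ x (J y)) (hJJ : ∀ x, J (J x) = -x)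
    {t : ℝ} (h0 : 0 < t) (h1 : t ≤ 1 / 10) (h2 : t ≤ t₀) {T₁ T₂ T₃ T₄ : H →L[ℝ] H}
    (e1 : ∀ x, T₁ x = Real.cosh t • x + Real.sinh t • S x)
    (e2 : ∀ x, T₂ x = Real.cosh t • x + Real.sinh t • (-S) x)
    (e3 : ∀ x, T₃ x = Real.cosh t • x + Real.sinh t • S' x)
    (e4 : ∀ x, T₄ x = Real.cosh t • x + Real.sinh t • (-S') x) {K : Submodule ℝ H}
    (hK : ∀ e ∈ K, ∀ e' ∈ K, inner ℝ (J e) e' = 0) {v : Fin m → H} {c : Fin m → ℝ}
    (hv : ∀ i, ∀ e ∈ K, inner ℝ (J (v i)) e = 0) (h : nclocM (fun i => perp K (v i)) c = 1) :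
    -((4 * (C + 71 * m ^ 2) + 60 * m) * t ^ 3) ≤
      Real.log (nclocM (fun i => perp (K.map (T₁ : H →ₗ[ℝ] H)) (T₁ (v i))) c).det +
      Real.log (nclocM (fun i => perp (K.map (T₂ : H →ₗ[ℝ] H)) (T₂ (v i))) c).det +
      Real.log (nclocM (fun i => perp (K.map (T₃ : H →ₗ[ℝ] H)) (T₃ (v i))) c).det +
      Real.log (nclocM (fun i => perp (K.map (T₄ : H →ₗ[ℝ] H)) (T₄ (v i))) c).det := by
  have ng : ∀ {S : H →L[ℝ] H}, NclocInv S → NclocInv (-S) := fun {S} hS =>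
    ⟨fun x y => by simp [hS.1], fun x => by simp [hS.2]⟩
  have a1 := (ncloc_one hC hS h0 h1 h2 e1 h).2
  have a2 := (ncloc_one hC (ng hS) h0 h1 h2 e2 h).2
  have a3 := (ncloc_one hC hS' h0 h1 h2 e3 h).2
  have a4 := (ncloc_one hC (ng hS') h0 h1 h2 e4 h).2
  simp only [neg_apply, map_neg, inner_neg_left, neg_sq, neg_sub_neg,
    norm_sub_rev (perp K _), e] at a2 a3 a4
  refine le_trans ?_ (add_le_add (add_le_add (add_le_add a1 a2) a3) a4)
  obtain ⟨n1, n2, n3, n4, n5⟩ := ncloc_num h0 h1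
  have key : ∀ i, -(60 * t ^ 3) ≤ 4 * ((Real.cosh (2 * t) - 1) * ‖perp K (v i)‖ ^ 2) -
      2 * (Real.sinh (2 * t) ^ 2 * Real.exp (2 * t) *
        ‖S (perp K (v i)) - perp K (S (perp K (v i)))‖ ^ 2) -
      2 * (Real.sinh (2 * t) ^ 2 * Real.exp (2 * t) *
        ‖J (S (perp K (v i))) - perp K (J (S (perp K (v i))))‖ ^ 2) -
      2 * (Real.sinh (2 * t) ^ 2 / 2 * ∑ j, inner ℝ (S (perp K (v i))) (perp K (v j)) ^ 2) -
      2 * (Real.sinh (2 * t) ^ 2 / 2 *
        ∑ j, inner ℝ (J (S (perp K (v i)))) (perp K (v j)) ^ 2) := fun i => by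
    have b1 := ncloc_bessel hJ hJJ hK hv h (S (perp K (v i)))
    have b2 := ncloc_bessel hJ hJJ hK hv h (J (S (perp K (v i))))
    rw [hJJ, map_neg, neg_sub_neg, norm_sub_rev (perp K _), ← e, hS'.norm, e] at b2
    rw [hS.norm] at b1
    have d := nclocM_diag h i
    have f1 : 0 ≤ ∑ j, inner ℝ (S (perp K (v i))) (perp K (v j)) ^ 2 := by positivity
    have c1 := Real.cosh_sq (2 * t)
    set N := ‖perp K (v i)‖ ^ 2
    set A := ‖S (perp K (v i)) - perp K (S (perp K (v i)))‖ ^ 2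
    set A' := ‖J (S (perp K (v i))) - perp K (J (S (perp K (v i))))‖ ^ 2
    set B := ∑ j, inner ℝ (S (perp K (v i))) (perp K (v j)) ^ 2
    set B' := ∑ j, inner ℝ (J (S (perp K (v i)))) (perp K (v j)) ^ 2
    set s := Real.sinh (2 * t)
    set ch := Real.cosh (2 * t)
    set x := Real.exp (2 * t)
    have N0 : 0 ≤ N := by positivity
    have A0 : 0 ≤ A + A' := by positivity
    have g1 : s ^ 2 * (2 * A + 2 * A' + B + B') ≤ s ^ 2 * (2 * N) := by gcongr; linarith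
    have g2 : s ^ 2 * (x - 1) * (A + A') ≤ (3 * t) ^ 2 * (3 * t) * 1 :=
      mul_le_mul (by
        calc _ ≤ s ^ 2 * (3 * t) := by gcongr; linarith
          _ ≤ _ := by gcongr) (by linarith) A0 (by positivity)
    have g3 : (ch - 1) ^ 2 * N ≤ (4 * t ^ 2) ^ 2 * 1 := by gcongr
    have g4 : s ^ 2 * N = (ch - 1) ^ 2 * N + 2 * ((ch - 1) * N) := by
      rw [show s ^ 2 = ch ^ 2 - 1 by linarith]; ring
    have g5 : t ^ 3 * t ≤ t ^ 3 * (1 / 10) := by gcongr
    nlinarith [pow_pos h0 3]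
  have s1 := Finset.sum_le_sum (s := Finset.univ) fun i _ => key i
  simp only [Finset.sum_sub_distrib, Finset.sum_add_distrib, ← Finset.mul_sum, mul_neg,
    Finset.sum_neg_distrib, Finset.sum_const, Finset.card_univ, Fintype.card_fin,
    nsmul_eq_mul] at s1 ⊢
  linarith

end Aux

namespace Act

variable {H : Type} [NormedAddCommGroup H] [InnerProductSpace ℝ H] (a : Act H)

/-- the reflection `y ↦ ζ conj y` -/
noncomputable def nclocR (ζ : ℂ) : ℂ →L[ℝ] ℂ :=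
  (ContinuousLinearMap.mul ℝ ℂ ζ).comp (Complex.conjCLE : ℂ →L[ℝ] ℂ)

lemma nclocR_apply (ζ y : ℂ) : nclocR ζ y = ζ * (starRingEnd ℂ) y := rfl

lemma ncloc_hyp (t : ℝ) (ζ : ℂ) (x : H) :
    a.ac (hyp t ζ) x = Real.cosh t • x + Real.sinh t • a.ac (nclocR ζ) x := by
  rw [hyp, a.ac_add, a.ac_smul, a.ac_smul, a.ac_id]
  rfl

lemma ncloc_neg (ζ : ℂ) (x : H) : a.ac (nclocR (-ζ)) x = (-a.ac (nclocR ζ)) x := by
  have : nclocR (-ζ) = (-1 : ℝ) • nclocR ζ := by
    refine ContinuousLinearMap.ext fun y => ?_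
    simp [nclocR_apply]
  rw [this, a.ac_smul]
  simp

lemma ncloc_inv {ζ : ℂ} (h : ζ * (starRingEnd ℂ) ζ = 1) : NclocInv (a.ac (nclocR ζ)) := by
  refine ⟨a.ac_adj _ _ fun y y' => ?_, fun x => ?_⟩
  · simp [nclocR_apply, dot]
    ring
  · have : (nclocR ζ).comp (nclocR ζ) = ContinuousLinearMap.id ℝ ℂ := by
      refine ContinuousLinearMap.ext fun y => ?_
      simp [nclocR_apply, ← mul_assoc, h]
    rw [← a.ac_comp, this, a.ac_id]

lemma ncloc_I (x : H) : a.ac (nclocR Complex.I) x = a.ac rotJ (a.ac (nclocR 1) x) := by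
  rw [← a.ac_comp]
  congr 2
  refine ContinuousLinearMap.ext fun y => ?_
  simp [nclocR_apply]

lemma ncloc_J (x y : H) : inner ℝ (a.ac rotJ x) y = -inner ℝ x (a.ac rotJ y) := by
  rw [a.ac_adj rotJ ((-1 : ℝ) • rotJ) (fun y y' => by simp [dot]; ring), a.ac_smul]
  simp

lemma ncloc_JJ (x : H) : a.ac rotJ (a.ac rotJ x) = -x := by
  have : rotJ.comp rotJ = (-1 : ℝ) • ContinuousLinearMap.id ℝ ℂ := by
    refine ContinuousLinearMap.ext fun y => ?_
    simp [← mul_assoc]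
  rw [← a.ac_comp, this, a.ac_smul, a.ac_id]
  simp

/-- discrete subharmonicity of the logarithm of the Hodge Gram determinant -/
theorem gd_sub (m : ℕ) : ∃ C ≥ (0 : ℝ), ∃ t₀ > (0 : ℝ), ∀ (H : Type) [NormedAddCommGroup H]
    [InnerProductSpace ℝ H] [CompleteSpace H] (a : Act H) (E : Submodule ℝ H),
    (∀ e ∈ E, ∀ e' ∈ E, a.Om e e' = 0) → ∀ (v : Fin m → H) (c : Fin m → ℝ),
    (∀ i, ∀ e ∈ E, a.Om (v i) e = 0) → ∀ g : ℂ →L[ℝ] ℂ, Sl g → 0 < a.gd E v c g →
    ∀ t : ℝ, 0 < t → t ≤ t₀ →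
    4 * Real.log (a.gd E v c g) - C * t ^ 3 ≤
      Real.log (a.gd E v c ((hyp t 1).comp g)) + Real.log (a.gd E v c ((hyp t (-1)).comp g)) +
      Real.log (a.gd E v c ((hyp t Complex.I).comp g)) +
      Real.log (a.gd E v c ((hyp t (-Complex.I)).comp g)) := by
  obtain ⟨C, C0, t₀, ht₀, hC⟩ := log_det_ge m
  refine ⟨4 * (C + 71 * m ^ 2) + 60 * m, by positivity, min t₀ (1 / 10), by positivity,
    fun H _ _ _ a E hE v c hv g hg hd t h0 h1 => ?_⟩
  have h2 := h1.trans (min_le_left _ _)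
  have h3 := h1.trans (min_le_right _ _)
  obtain ⟨P, hP⟩ := nclocM_norm (fun i => a.hA E g (v i)) c hd.ne'
  set K := E.map (a.ac g : H →ₗ[ℝ] H)
  let v' : Fin m → H := fun i => a.ac g (∑ j, P i j • v j)
  let c' : Fin m → ℝ := fun i => ∑ j, P i j * c j
  have comb : ∀ g' : ℂ →L[ℝ] ℂ, nclocM (fun i => a.hA E g' (∑ j, P i j • v j)) c' =
      P * nclocM (fun i => a.hA E g' (v i)) c * Pᵀ := fun g' => by
    rw [← nclocM_comb]
    simp only [map_sum, map_smul, c']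
  have h : nclocM (fun i => perp K (v' i)) c' = 1 := (comb g).trans hP
  have dt : ∀ h' : ℂ →L[ℝ] ℂ,
      (nclocM (fun i => perp (K.map (a.ac h' : H →ₗ[ℝ] H)) (a.ac h' (v' i))) c').det =
        P.det ^ 2 * a.gd E v c (h'.comp g) := fun h' => by
    have := congrArg Matrix.det (comb (h'.comp g))
    simp only [a.hA_comp E g h' (∑ j, P _ j • v j), Matrix.det_mul, Matrix.det_transpose] at this
    refine this.trans ?_
    change _ * a.gd E v c (h'.comp g) * _ = _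
    ring
  have d0 : P.det ^ 2 * a.gd E v c g = 1 := by
    have := congrArg Matrix.det hP
    rw [Matrix.det_mul, Matrix.det_mul, Matrix.det_transpose, Matrix.det_one] at this
    rw [← this]
    change _ = _ * a.gd E v c g * _
    ring
  have P0 : P.det ^ 2 ≠ 0 := left_ne_zero_of_mul_eq_one d0
  have l0 : Real.log (P.det ^ 2) + Real.log (a.gd E v c g) = 0 := by
    rw [← Real.log_mul P0 hd.ne', d0, Real.log_one]
  have lg : ∀ ζ : ℂ, ζ * (starRingEnd ℂ) ζ = 1 →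
      Real.log (P.det ^ 2 * a.gd E v c ((hyp t ζ).comp g)) =
        Real.log (P.det ^ 2) + Real.log (a.gd E v c ((hyp t ζ).comp g)) := fun ζ hζ => by
    have := (ncloc_one hC (a.ncloc_inv hζ) h0 h3 h2 (a.ncloc_hyp t ζ) h).1
    rw [dt] at this
    exact Real.log_mul P0 (right_ne_zero_of_mul this.ne')
  have hK : ∀ e ∈ K, ∀ e' ∈ K, inner ℝ (a.ac rotJ e) e' = 0 := by
    rintro _ ⟨e, he, rfl⟩ _ ⟨e', he', rfl⟩
    exact (a.Om_ac hg e e').trans (hE e he e' he')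
  have hv' : ∀ i, ∀ e ∈ K, inner ℝ (a.ac rotJ (v' i)) e = 0 := by
    rintro i _ ⟨e, he, rfl⟩
    refine (a.Om_ac hg _ e).trans ?_
    simp only [Om, map_sum, map_smul, sum_inner, real_inner_smul_left]
    exact Finset.sum_eq_zero fun j _ => mul_eq_zero_of_right _ (hv j e he)
  have core := ncloc_core hC (a.ncloc_inv (ζ := 1) (by simp))
    (a.ncloc_inv (ζ := Complex.I) (by simp)) a.ncloc_I a.ncloc_J a.ncloc_JJ h0 h3 h2
    (a.ncloc_hyp t 1) (fun x => by rw [a.ncloc_hyp t (-1), a.ncloc_neg])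
    (a.ncloc_hyp t Complex.I) (fun x => by rw [a.ncloc_hyp t (-Complex.I), a.ncloc_neg]) hK hv' h
  rw [dt, dt, dt, dt, lg _ (by simp), lg _ (by simp), lg _ (by simp), lg _ (by simp)] at core
  linarith

end Act

end Pool.Agent.MP_d0b2d2_an.Gen
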