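import Pool.Agent.MP_d0b2d2_an.Gen.Iso
import Pool.Agent.MP_d0b2d2_an.Gen.Dens

open MeasureTheory Set Filter Topology Metric

namespace Pool.Agent.MP_d0b2d2_an.Gen.TS

variable {X : Type} [TopologicalSpace X] [T2Space X] [CompactSpace X] [MeasurableSpace X]
  [BorelSpace X] [SecondCountableTopology X] {μ : Measure X} [IsProbabilityMeasure μ]

omit [T2Space X] [CompactSpace X] [BorelSpace X] [SecondCountableTopology X]
  [IsProbabilityMeasure μ] in
/-- a normalised saddle connection which is isolated at slope `σ` -/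
def NondivGood (S : TS X μ) (k : ℕ) (L σ : ℝ) (c : X × ℂ) : Prop :=
  S.IsSC c.1 c.2 ∧ 0 < c.2.im ∧ 2 * ‖zm σ k c.2‖ ≤ L ∧ ∀ x' h', S.IsSC x' h' →
    2 * ‖zm σ k h'‖ ≤ √L → wedge c.2 h' ≠ 0 → Disjoint (S.seg c.1 c.2) (S.seg x' h')

/-- the slope of a holonomy vector -/
noncomputable def nondivM (h : ℂ) : ℝ := h.re / h.im

/-- the unit radius of a holonomy vector -/
noncomputable def nondivR (k : ℕ) (h : ℂ) : ℝ := 1 / (2 * 2 ^ k * h.im)

lemma nondivR_pos (k : ℕ) {h : ℂ} (hh : 0 < h.im) : 0 < nondivR k h := by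
  unfold nondivR; positivity

lemma nondiv_re (σ : ℝ) (k : ℕ) {h : ℂ} (hh : 0 < h.im) :
    2 * |(zm σ k h).re| * nondivR k h = |σ - nondivM h| := by
  have e : σ - nondivM h = -(h.re - σ * h.im) / h.im := by
    unfold nondivM; field_simp; ring
  rw [zm_re, e, abs_mul, abs_div, abs_neg, abs_of_pos hh, abs_of_pos (by positivity : (0:ℝ) < 2 ^ k)]
  unfold nondivR
  field_simp

lemma nondiv_near {σ L : ℝ} {k : ℕ} {h : ℂ} (hh : 0 < h.im) (hL : 2 * ‖zm σ k h‖ ≤ L) :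
    |σ - nondivM h| ≤ L * nondivR k h := by
  rw [← nondiv_re σ k hh]
  have := Complex.abs_re_le_norm (zm σ k h)
  have := nondivR_pos k hh
  gcongr
  linarith

lemma nondiv_grid {σ L : ℝ} {k : ℕ} {h : ℂ} (hh : 0 < h.im) (hL : 2 * ‖zm σ k h‖ ≤ L) :
    1 / 4 ^ k ≤ L * nondivR k h := by
  have h1 := Complex.abs_im_le_norm (zm σ k h)
  rw [zm_im, abs_of_pos (by positivity)] at h1
  have h2 : 2 * (h.im / 2 ^ k) ≤ L := by linarith
  have h4 : (4 : ℝ) ^ k = 2 ^ k * 2 ^ k := by rw [← mul_pow]; norm_num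
  have e : 1 / (4 : ℝ) ^ k = 2 * (h.im / 2 ^ k) * nondivR k h := by
    unfold nondivR; rw [h4]; field_simp
  rw [e]
  exact mul_le_mul_of_nonneg_right h2 (nondivR_pos k hh).le

lemma nondiv_short {σ σ' L : ℝ} {k : ℕ} {h : ℂ} (hh : 0 < h.im) (hL : 2 * ‖zm σ k h‖ ≤ L)
    (hs : √L ≤ 1 / 2) (hσ : |σ' - nondivM h| ≤ √L / 2 * nondivR k h) :
    2 * ‖zm σ' k h‖ ≤ √L := by
  have h0 : 0 ≤ L := le_trans (by positivity) hL
  have h1 := Complex.abs_im_le_norm (zm σ k h)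
  have h2 := Complex.norm_le_abs_re_add_abs_im (zm σ' k h)
  have h3 : (zm σ' k h).im = (zm σ k h).im := rfl
  rw [← nondiv_re σ' k hh] at hσ
  have h4 := le_of_mul_le_mul_right hσ (nondivR_pos k hh)
  have h5 := Real.mul_self_sqrt h0
  have h6 := Real.sqrt_nonneg L
  rw [h3] at h2
  nlinarith

omit [T2Space X] [CompactSpace X] [BorelSpace X] [SecondCountableTopology X]
  [IsProbabilityMeasure μ] in
lemma nondiv_exists_good (S : TS X μ) {s₀ : ℝ} (hs : S.Thick s₀) {k : ℕ} {L σ : ℝ}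
    (h0 : 0 ≤ σ) (h1 : σ ≤ 1) (hL : L ≤ s₀ / 2) (hs0 : 0 < s₀)
    (h : (S.map (zm σ k) (sl_zm σ k)).Isol L) :
    ∃ c : X × ℂ, S.NondivGood k L σ c ∧ s₀ / 8 ≤ c.2.im := by
  obtain ⟨x, v, a1, a2, a3⟩ := h
  rw [map_isSC] at a1
  set h := (zm σ k).symm v with hh
  have hv : v = zm σ k h := by simp [hh]
  have b3 : ∀ x' h', S.IsSC x' h' → 2 * ‖zm σ k h'‖ ≤ √L → wedge h h' ≠ 0 →
      Disjoint (S.seg x h) (S.seg x' h') := fun x' h' c1 c2 c3 => by
    have := a3 x' (zm σ k h') (by rw [map_isSC]; simpa using c1) c2 (by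
      have := sl_zm σ k h h'
      simp only [ContinuousLinearEquiv.coe_coe] at this
      rw [hv, this]; exact c3)
    rw [map_seg, map_seg] at this
    simpa using this
  rw [hv] at a2
  have b4 : s₀ / 8 ≤ |h.im| := by
    have c1 := hs x h a1
    have c2 := Complex.norm_le_abs_re_add_abs_im h
    have c3 := Complex.abs_re_le_norm (zm σ k h)
    rw [zm_re, abs_mul, abs_of_pos (by positivity : (0:ℝ) < 2 ^ k)] at c3
    have c4 : (1 : ℝ) ≤ 2 ^ k := one_le_pow₀ (by norm_num)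
    have c5 : |h.re - σ * h.im| ≤ 2 ^ k * |h.re - σ * h.im| :=
      le_mul_of_one_le_left (abs_nonneg _) c4
    have c6 : |h.re| ≤ |h.re - σ * h.im| + |σ * h.im| := by
      simpa using abs_add_le (h.re - σ * h.im) (σ * h.im)
    have c7 : |σ * h.im| ≤ |h.im| := by
      rw [abs_mul, abs_of_nonneg h0]
      exact mul_le_of_le_one_left (abs_nonneg _) h1
    linarith
  rcases le_or_gt 0 h.im with hp | hp
  · rw [abs_of_nonneg hp] at b4
    exact ⟨(x, h), ⟨a1, by dsimp only; linarith, a2, b3⟩, b4⟩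
  · rw [abs_of_neg hp] at b4
    refine ⟨(x, -h), ⟨a1.neg, by simpa using hp, by simpa using a2, fun x' h' c1 c2 c3 => ?_⟩,
      by simpa using b4⟩
    dsimp only at c3 ⊢
    rw [seg_neg]
    exact b3 x' h' c1 c2 fun e => c3 (by rw [wedge_neg_left, e, neg_zero])

omit [T2Space X] [CompactSpace X] [BorelSpace X] [SecondCountableTopology X]
  [IsProbabilityMeasure μ] in
lemma nondiv_disjoint {S : TS X μ} {k : ℕ} {L σ σ' : ℝ} {c c' : X × ℂ} (hs : √L ≤ 1 / 2)
    (hc : S.NondivGood k L σ c) (hc' : S.NondivGood k L σ' c') (hne : c ≠ c')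
    (hσ : |σ' - nondivM c.2| ≤ √L / 2 * nondivR k c.2) :
    Disjoint (S.seg c.1 c.2) (S.seg c'.1 c'.2) := by
  by_cases hw : wedge c'.2 c.2 = 0
  · by_contra hd
    obtain ⟨e1, e2⟩ := hc'.1.eq_of_parallel hc.1 (fun h => hd h.symm) hw
    rcases e2 with e2 | e2
    · exact hne (Prod.ext e1 e2)
    · have a1 := hc.2.1
      have a2 := hc'.2.1
      rw [e2, Complex.neg_im] at a1
      linarith
  · exact (hc'.2.2.2 _ _ hc.1 (nondiv_short hc.2.1 hc.2.2.1 hs hσ) hw).symm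

lemma nondiv_sub {L r : ℝ} (h0 : 0 ≤ L) (hs : √L ≤ 1 / 2) (hr : 0 < r) : L * r ≤ √L / 2 * r := by
  have h5 := Real.mul_self_sqrt h0
  have h6 := Real.sqrt_nonneg L
  gcongr
  nlinarith

omit [BorelSpace X] [SecondCountableTopology X] [IsProbabilityMeasure μ] in
open Classical in
lemma nondiv_card {S : TS X μ} {k : ℕ} {L : ℝ} (h0 : 0 ≤ L) (hs : √L ≤ 1 / 2)
    {Γ : Finset (X × ℂ)} {w : X × ℂ → ℝ} (hw : ∀ c ∈ Γ, S.NondivGood k L (w c) c) (σ₀ : ℝ) :
    (Γ.filter fun c => |σ₀ - nondivM c.2| ≤ √L / 2 * nondivR k c.2).card ≤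
      2 * (3 * (S.k * S.Sg.card)) := by
  set F := Γ.filter fun c => |σ₀ - nondivM c.2| ≤ √L / 2 * nondivR k c.2
  have hI : ∀ c ∈ Γ, |w c - nondivM c.2| ≤ √L / 2 * nondivR k c.2 := fun c hc =>
    (nondiv_near (hw c hc).2.1 (hw c hc).2.2.1).trans
      (nondiv_sub h0 hs (nondivR_pos k (hw c hc).2.1))
  have key : ∀ c ∈ F, ∀ c' ∈ F, c ≠ c' → (σ₀ ≤ w c' ∧ w c' ≤ w c ∨ w c ≤ w c' ∧ w c' ≤ σ₀) →
      Disjoint (S.seg c.1 c.2) (S.seg c'.1 c'.2) := fun c hc c' hc' hne hb => by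
    rw [Finset.mem_filter] at hc hc'
    refine nondiv_disjoint hs (hw c hc.1) (hw c' hc'.1) hne ?_
    have a1 := abs_le.1 (hI c hc.1)
    have a2 := abs_le.1 hc.2
    rw [abs_le]
    rcases hb with hb | hb <;> constructor <;> linarith [hb.1, hb.2, a1.1, a1.2, a2.1, a2.2]
  have hsc : ∀ c ∈ F, S.IsSC c.1 c.2 := fun c hc => (hw c (Finset.mem_filter.1 hc).1).1
  have f1 : S.Fam (F.filter fun c => σ₀ ≤ w c) := by
    refine ⟨fun c hc => hsc c (Finset.mem_filter.1 hc).1, fun c hc c' hc' hne => ?_⟩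
    rw [Finset.mem_filter] at hc hc'
    rcases le_total (w c') (w c) with h | h
    · exact key c hc.1 c' hc'.1 hne (Or.inl ⟨hc'.2, h⟩)
    · exact (key c' hc'.1 c hc.1 hne.symm (Or.inl ⟨hc.2, h⟩)).symm
  have f2 : S.Fam (F.filter fun c => ¬ σ₀ ≤ w c) := by
    refine ⟨fun c hc => hsc c (Finset.mem_filter.1 hc).1, fun c hc c' hc' hne => ?_⟩
    rw [Finset.mem_filter] at hc hc'
    rcases le_total (w c) (w c') with h | h
    · exact key c hc.1 c' hc'.1 hne (Or.inr ⟨h, (not_le.1 hc'.2).le⟩)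
    · exact (key c' hc'.1 c hc.1 hne.symm (Or.inr ⟨h, (not_le.1 hc.2).le⟩)).symm
  have := Finset.card_filter_add_card_filter_not (s := F) fun c => σ₀ ≤ w c
  have := card_le f1
  have := card_le f2
  omega

open Classical in
/-- intervals in `[-1, 2]` with bounded overlap have bounded total length -/
lemma nondiv_overlap {ι : Type} {Γ : Finset ι} {m r : ι → ℝ} {N : ℕ} (hr : ∀ c ∈ Γ, 0 ≤ r c)
    (h1 : ∀ c ∈ Γ, -1 ≤ m c - r c) (h2 : ∀ c ∈ Γ, m c + r c ≤ 2)
    (hN : ∀ σ₀ : ℝ, (Γ.filter fun c => |σ₀ - m c| ≤ r c).card ≤ N) :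
    ∑ c ∈ Γ, 2 * r c ≤ 3 * N := by
  have hi : ∀ a b : ℝ, Integrable ((Icc a b).indicator fun _ => (1 : ℝ)) volume := fun a b =>
    (integrable_indicator_iff measurableSet_Icc).2 (integrableOn_const measure_Icc_lt_top.ne)
  have e1 : ∀ c ∈ Γ, 2 * r c =
      ∫ σ, (Icc (m c - r c) (m c + r c)).indicator (fun _ => (1 : ℝ)) σ := fun c hc => by
    rw [integral_indicator measurableSet_Icc]
    simp only [integral_const, MeasurableSet.univ, measureReal_restrict_apply, univ_inter,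
      smul_eq_mul, mul_one]
    rw [Real.volume_real_Icc_of_le (by linarith [hr c hc])]
    ring
  have e2 : (3 : ℝ) * N = ∫ σ, (N : ℝ) * (Icc (-1 : ℝ) 2).indicator (fun _ => (1 : ℝ)) σ := by
    rw [integral_const_mul, integral_indicator measurableSet_Icc]
    simp only [integral_const, MeasurableSet.univ, measureReal_restrict_apply, univ_inter,
      smul_eq_mul, mul_one]
    rw [Real.volume_real_Icc_of_le (by norm_num)]
    ring
  rw [Finset.sum_congr rfl e1, e2, ← integral_finsetSum _ fun c _ => hi _ _]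
  refine integral_mono (integrable_finsetSum _ fun c _ => hi _ _) ((hi _ _).const_mul _)
    fun σ => ?_
  dsimp only
  by_cases hσ : σ ∈ Icc (-1 : ℝ) 2
  · rw [indicator_of_mem hσ, mul_one]
    refine le_trans (le_of_eq ?_) (Nat.cast_le.2 (hN σ))
    rw [Finset.card_filter, Nat.cast_sum]
    refine Finset.sum_congr rfl fun c _ => ?_
    have : σ ∈ Icc (m c - r c) (m c + r c) ↔ |σ - m c| ≤ r c := by
      rw [abs_le, mem_Icc]
      constructor <;> rintro ⟨a, b⟩ <;> constructor <;> linarith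
    by_cases h : |σ - m c| ≤ r c
    · simp [h, indicator_of_mem (this.2 h)]
    · simp [h, indicator_of_notMem (mt this.1 h)]
  · rw [indicator_of_notMem hσ, mul_zero]
    refine le_of_eq (Finset.sum_eq_zero fun c hc => indicator_of_notMem (fun h => hσ ?_) _)
    exact ⟨(h1 c hc).trans h.1, h.2.trans (h2 c hc)⟩

omit [BorelSpace X] [SecondCountableTopology X] [IsProbabilityMeasure μ] in
lemma nondiv_small (S : TS X μ) {s₀ : ℝ} (hs : S.Thick s₀) (hs0 : 0 < s₀) (k : ℕ) {L : ℝ}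
    (hL : 0 < L) (h1 : √L ≤ 1 / 2) (h2 : √L ≤ s₀ / 4) :
    dens k (fun σ => (S.map (zm σ k) (sl_zm σ k)).Isol L) ≤
      18 * (3 * (S.k * S.Sg.card) : ℕ) * √L := by
  classical
  have q1 := Real.mul_self_sqrt hL.le
  have q2 := Real.sqrt_nonneg L
  have hL' : L ≤ s₀ / 2 := by nlinarith
  have h4 : (0 : ℝ) < 4 ^ k := by positivity
  let B := (Finset.range (4 ^ k)).filter fun j : ℕ =>
    (S.map (zm ((j : ℝ) / 4 ^ k) k) (sl_zm _ k)).Isol L
  have hj : ∀ j : ℕ, j < 4 ^ k → (0 : ℝ) ≤ j / 4 ^ k ∧ (j : ℝ) / 4 ^ k ≤ 1 := fun j hj =>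
    ⟨by positivity, (div_le_one h4).2 (by exact_mod_cast hj.le)⟩
  have ex : ∀ j : B, ∃ c : X × ℂ, S.NondivGood k L ((j : ℕ) / 4 ^ k) c ∧ s₀ / 8 ≤ c.2.im :=
    fun j => by
    have := Finset.mem_filter.1 j.2
    have a := hj j (Finset.mem_range.1 this.1)
    exact S.nondiv_exists_good hs a.1 a.2 hL' hs0 this.2
  choose f f1 f2 using ex
  let Γ : Finset (X × ℂ) := Finset.univ.image f
  have ex2 : ∀ c : X × ℂ, ∃ σ : ℝ, c ∈ Γ →
      0 ≤ σ ∧ σ ≤ 1 ∧ S.NondivGood k L σ c ∧ s₀ / 8 ≤ c.2.im := fun c => by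
    by_cases hc : c ∈ Γ
    · obtain ⟨j, -, rfl⟩ := Finset.mem_image.1 hc
      have a := hj j (Finset.mem_range.1 (Finset.mem_filter.1 j.2).1)
      exact ⟨_, fun _ => ⟨a.1, a.2, f1 j, f2 j⟩⟩
    · exact ⟨0, fun h => absurd h hc⟩
  choose w hw using ex2
  have hr : ∀ c ∈ Γ, 0 < nondivR k c.2 := fun c hc => nondivR_pos k (hw c hc).2.2.1.2.1
  have hI : ∀ c ∈ Γ, |w c - nondivM c.2| ≤ √L / 2 * nondivR k c.2 := fun c hc =>
    (nondiv_near (hw c hc).2.2.1.2.1 (hw c hc).2.2.1.2.2.1).trans (nondiv_sub hL.le h1 (hr c hc))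
  have hJ : ∀ c ∈ Γ, √L * nondivR k c.2 ≤ 1 := fun c hc => by
    have a := (hw c hc).2.2.2
    have c4 : (1 : ℝ) ≤ 2 ^ k := one_le_pow₀ (by norm_num)
    have a0 : 0 < c.2.im := by linarith
    unfold nondivR
    rw [mul_one_div, div_le_one (by positivity)]
    nlinarith
  have ov := nondiv_overlap (Γ := Γ) (m := fun c => nondivM c.2)
    (r := fun c => √L / 2 * nondivR k c.2) (fun c hc => mul_nonneg (by positivity) (hr c hc).le)
    (fun c hc => by
      have a := abs_le.1 (hI c hc)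
      linarith [a.1, a.2, hJ c hc, (hw c hc).1])
    (fun c hc => by
      have a := abs_le.1 (hI c hc)
      linarith [a.1, a.2, hJ c hc, (hw c hc).2.1])
    fun σ₀ => by convert nondiv_card hL.le h1 (fun c hc => (hw c hc).2.2.1) σ₀
  calc _ ≤ dens k fun σ => ∃ c ∈ Γ, nondivM c.2 - L * nondivR k c.2 ≤ σ ∧
          σ ≤ nondivM c.2 - L * nondivR k c.2 + 2 * (L * nondivR k c.2) := by
        refine dens_mono fun j hj' hb => ?_
        let j' : B := ⟨j, Finset.mem_filter.2 ⟨Finset.mem_range.2 hj', hb⟩⟩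
        have a := abs_le.1 (nondiv_near (f1 j').2.1 (f1 j').2.2.1)
        exact ⟨f j', Finset.mem_image_of_mem f (Finset.mem_univ _), by linarith [a.1],
          by linarith [a.2]⟩
    _ ≤ _ := dens_exists k Γ _
    _ ≤ ∑ c ∈ Γ, 3 * √L * (2 * (√L / 2 * nondivR k c.2)) := by
        refine Finset.sum_le_sum fun c hc => ?_
        have a := nondiv_grid (hw c hc).2.2.1.2.1 (hw c hc).2.2.1.2.2.1
        have b := dens_interval k (nondivM c.2 - L * nondivR k c.2)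
          (l := 2 * (L * nondivR k c.2)) (by have := hr c hc; positivity)
        have e : 3 * √L * (2 * (√L / 2 * nondivR k c.2)) = 3 * (√L * √L * nondivR k c.2) := by
          ring
        rw [e, q1]
        linarith
    _ ≤ _ := by
        rw [← Finset.mul_sum]
        refine (mul_le_mul_of_nonneg_left ov (by positivity)).trans (le_of_eq ?_)
        push_cast
        ring

omit [BorelSpace X] [SecondCountableTopology X] [IsProbabilityMeasure μ] in
/-- the sparse cover estimate -/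
theorem sparse (S : TS X μ) : ∃ C : ℝ, ∀ (k : ℕ) (L : ℝ), 0 < L →
    dens k (fun σ => (S.map (zm σ k) (sl_zm σ k)).Isol L) ≤ C * √L := by
  obtain ⟨s₀, hs0, hs⟩ := S.exists_thick
  refine ⟨18 * (3 * (S.k * S.Sg.card) : ℕ) + 2 + 4 / s₀, fun k L hL => ?_⟩
  have q2 := Real.sqrt_nonneg L
  have q3 : (0 : ℝ) ≤ 18 * (3 * (S.k * S.Sg.card) : ℕ) * √L := by positivity
  have q4 : 0 ≤ 4 / s₀ * √L := by positivity
  have q5 := dens_le_one k fun σ => (S.map (zm σ k) (sl_zm σ k)).Isol L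
  rcases le_or_gt (√L) (1 / 2) with h1 | h1
  · rcases le_or_gt (√L) (s₀ / 4) with h2 | h2
    · have := S.nondiv_small hs hs0 k hL h1 h2
      nlinarith
    · have : 1 ≤ 4 / s₀ * √L := by
        rw [div_mul_eq_mul_div, le_div_iff₀ hs0]
        linarith
      nlinarith
  · nlinarith

/-- the scales of the isolation lemma -/
noncomputable def nondivL (δ : ℝ) : ℕ → ℝ
  | 0 => δ
  | i + 1 => 3 * √(nondivL δ i)

lemma nondivL_pos {δ : ℝ} (hδ : 0 < δ) : ∀ i, 0 < nondivL δ i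
  | 0 => hδ
  | i + 1 => by
    have := nondivL_pos hδ i
    unfold nondivL
    positivity

lemma nondivL_le {δ : ℝ} (hδ : 0 < δ) : ∀ i, nondivL δ i ≤ 9 * δ ^ ((1 / 2 : ℝ) ^ i)
  | 0 => by
    simp only [nondivL, pow_zero, Real.rpow_one]
    linarith
  | i + 1 => by
    have h := Real.sqrt_le_sqrt (nondivL_le hδ i)
    have e : √(9 * δ ^ ((1 / 2 : ℝ) ^ i)) = 3 * δ ^ ((1 / 2 : ℝ) ^ (i + 1)) := by
      rw [Real.sqrt_eq_iff_mul_self_eq (by positivity) (by positivity)]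
      have : δ ^ ((1 / 2 : ℝ) ^ i) = δ ^ ((1 / 2 : ℝ) ^ (i + 1)) * δ ^ ((1 / 2 : ℝ) ^ (i + 1)) := by
        rw [← Real.rpow_add hδ]
        congr 1
        ring
      rw [this]
      ring
    unfold nondivL
    linarith

/-- quantitative non-divergence -/
theorem nondiv (S : TS X μ) : ∃ C a : ℝ, 0 < a ∧ ∀ (k : ℕ) (δ : ℝ), 0 < δ →
    dens k (fun σ => ¬ (S.map (zm σ k) (sl_zm σ k)).Thick δ) ≤ C * δ ^ a := by
  obtain ⟨C, hC⟩ := S.sparse
  set M := 3 * (S.k * S.Sg.card) with hM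
  set a : ℝ := (1 / 2) ^ (M + 1) with ha
  have a0 : 0 < a := by positivity
  refine ⟨(M + 1) * (|C| * 3) + 90 * (M + 1), a, a0, fun k δ hδ => ?_⟩
  have p0 : 0 < δ ^ a := Real.rpow_pos_of_pos hδ a
  have p1 : 0 ≤ ((M : ℝ) + 1) * (|C| * 3) * δ ^ a := by positivity
  have p2 : (0 : ℝ) < M + 1 := by positivity
  rcases le_or_gt (90 * (M + 1) * δ ^ a) 1 with h | h
  swap
  · have := dens_le_one k fun σ => ¬ (S.map (zm σ k) (sl_zm σ k)).Thick δ
    nlinarith
  have d1 : δ ≤ 1 := by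
    by_contra hc
    have := Real.one_le_rpow (not_le.1 hc).le a0.le
    have : (0 : ℝ) ≤ M := Nat.cast_nonneg M
    nlinarith
  have hb : ∀ i ≤ M + 1, nondivL δ i ≤ 9 * δ ^ a := fun i hi => by
    refine (nondivL_le hδ i).trans ?_
    gcongr 9 * ?_
    exact Real.rpow_le_rpow_of_exponent_ge hδ d1 (pow_le_pow_of_le_one (by norm_num) (by norm_num) hi)
  have hs : nondivL δ M ≤ 1 / (10 * (M + 1)) := by
    rw [le_div_iff₀ (by positivity)]
    nlinarith [hb M (Nat.le_succ M)]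
  calc _ ≤ dens k fun σ => ∃ i ∈ Finset.range (M + 1),
          (S.map (zm σ k) (sl_zm σ k)).Isol (nondivL δ i) := by
        refine dens_mono fun j _ hj => ?_
        obtain ⟨i, hi, h'⟩ := (S.map (zm ((j : ℝ) / 4 ^ k) k) (sl_zm _ k)).isolate (M := M)
          le_rfl (L := nondivL δ) hδ (fun _ => rfl) hs hj
        exact ⟨i, Finset.mem_range.2 (Nat.lt_succ_of_le hi), h'⟩
    _ ≤ _ := dens_exists k _ _
    _ ≤ ∑ _i ∈ Finset.range (M + 1), |C| * 3 * δ ^ a := by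
        refine Finset.sum_le_sum fun i hi => (hC k _ (nondivL_pos hδ i)).trans ?_
        have b := hb (i + 1) (Finset.mem_range.1 hi)
        unfold nondivL at b
        have := Real.sqrt_nonneg (nondivL δ i)
        calc C * √(nondivL δ i) ≤ |C| * √(nondivL δ i) := by gcongr; exact le_abs_self C
          _ ≤ |C| * (3 * δ ^ a) := by gcongr; linarith
          _ = _ := by ring
    _ ≤ _ := by
        rw [Finset.sum_const, Finset.card_range, nsmul_eq_mul]
        push_cast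
        nlinarith

end Pool.Agent.MP_d0b2d2_an.Gen.TS
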