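import Pool.Agent.MP_d0b2d2_an.Gen.OrthAux1

open MeasureTheory Set Filter Topology Metric

namespace Pool.Agent.MP_d0b2d2_an.Gen

lemma orthN_eq : orthN = volume.restrict (Ico (0 : ℝ) 1) :=
  Measure.restrict_congr_set Ioo_ae_eq_Ico

lemma orthN_Ico {a b : ℝ} (h0 : 0 ≤ a) (hab : a ≤ b) (h1 : b ≤ 1) :
    orthN.real (Ico a b) = b - a := by
  rw [orthN_eq, measureReal_restrict_apply measurableSet_Ico,
    inter_eq_left.2 (Ico_subset_Ico h0 h1), Real.volume_real_Ico_of_le hab]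

/-- the cell of level `k` -/
def orthCell (k j : ℕ) : Set ℝ := Ico ((j : ℝ) / 4 ^ k) ((j + 1) / 4 ^ k)

lemma orthCell_disj {k i j : ℕ} (h : i ≠ j) : Disjoint (orthCell k i) (orthCell k j) := by
  rw [Set.disjoint_left]
  rintro σ ⟨h1, h2⟩ ⟨h3, h4⟩
  have h5 := (div_lt_div_iff_of_pos_right (by positivity)).1 (h1.trans_lt h4)
  have h6 := (div_lt_div_iff_of_pos_right (by positivity)).1 (h3.trans_lt h2)
  have h7 : i < j + 1 := by exact_mod_cast h5
  have h8 : j < i + 1 := by exact_mod_cast h6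
  omega

lemma orthCell_le {k j : ℕ} (h : j < 4 ^ k) : ((j : ℝ) + 1) / 4 ^ k ≤ 1 := by
  rw [div_le_one (by positivity)]
  exact_mod_cast h

lemma orth_cells {g : ℝ → ℝ} (hg : OrthBd g) {ε : ℝ} (hε : 0 < ε) :
    ∀ᶠ k : ℕ in atTop, ∀ (s : Finset ℕ) (l : ℕ → ℝ) (p : ℝ), 0 < p →
      (∀ j ∈ s, j < 4 ^ k ∧ (j : ℝ) / 4 ^ k ≤ l j ∧ l j + p / 4 ^ k ≤ (j + 1) / 4 ^ k) →
      p * ∑ j ∈ s, ∫ σ in orthCell k j, g σ ∂orthN ≤
        ∑ j ∈ s, ∫ σ in Ico (l j) (l j + p / 4 ^ k), g σ ∂orthN + ε := by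
  obtain ⟨g', h1, h2⟩ := hg.int.exists_boundedContinuous_integral_sub_le
    (show 0 < ε / 4 by positivity)
  obtain ⟨δ, hδ, hu⟩ := Metric.uniformContinuousOn_iff_le.1
    ((isCompact_Icc (a := (0 : ℝ)) (b := 1)).uniformContinuousOn_of_continuous
      g'.continuous.continuousOn) (ε / 4) (by positivity)
  have ht : Tendsto (fun k : ℕ => (1 : ℝ) / 4 ^ k) atTop (𝓝 0) :=
    tendsto_const_nhds.div_atTop (tendsto_pow_atTop_atTop_of_one_lt (by norm_num))
  filter_upwards [ht.eventually_le_const hδ] with k hk s l p hp hs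
  have he : Integrable (fun σ => ‖g σ - g' σ‖) orthN := (hg.int.sub h2).norm
  have hh : (0 : ℝ) < 1 / 4 ^ k := by positivity
  have key : ∀ j ∈ s, p * ∫ σ in orthCell k j, g σ ∂orthN ≤
      ∫ σ in Ico (l j) (l j + p / 4 ^ k), g σ ∂orthN +
        (ε / 2 * (1 / 4 ^ k) + 2 * ∫ σ in orthCell k j, ‖g σ - g' σ‖ ∂orthN) := by
    intro j hj
    obtain ⟨a1, a2, a3⟩ := hs j hj
    have a4 := orthCell_le a1
    have a5 : (0 : ℝ) ≤ j / 4 ^ k := by positivity
    have a6 : ((j : ℝ) + 1) / 4 ^ k = j / 4 ^ k + 1 / 4 ^ k := add_div _ _ _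
    have a7 : p / 4 ^ k = p * (1 / 4 ^ k) := by ring
    have hp1 : p ≤ 1 := by
      have : p * (1 / 4 ^ k) ≤ 1 * (1 / 4 ^ k) := by linarith
      exact le_of_mul_le_mul_right this hh
    have hsub : Ico (l j) (l j + p / 4 ^ k) ⊆ orthCell k j := Ico_subset_Ico a2 a3
    have hb : ∀ σ ∈ orthCell k j, |g σ - g' (j / 4 ^ k)| ≤ ‖g σ - g' σ‖ + ε / 4 := by
      intro σ hσ
      have := hu σ ⟨a5.trans hσ.1, hσ.2.le.trans a4⟩ (j / 4 ^ k) ⟨a5, by linarith⟩ (by
        rw [Real.dist_eq, abs_le]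
        constructor <;> linarith [hσ.1, hσ.2])
      rw [Real.dist_eq] at this
      exact (abs_sub_le _ (g' σ) _).trans (add_le_add le_rfl this)
    have b1 : ∫ σ in orthCell k j, g σ ∂orthN ≤
        ∫ σ in orthCell k j, (‖g σ - g' σ‖ + (g' (j / 4 ^ k) + ε / 4)) ∂orthN :=
      setIntegral_mono_on hg.int.integrableOn (he.add (integrable_const _)).integrableOn
        measurableSet_Ico fun σ hσ => by linarith [(abs_le.1 (hb σ hσ)).2]
    have b2 : ∫ σ in Ico (l j) (l j + p / 4 ^ k), ((g' (j / 4 ^ k) - ε / 4) - ‖g σ - g' σ‖) ∂orthN ≤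
        ∫ σ in Ico (l j) (l j + p / 4 ^ k), g σ ∂orthN :=
      setIntegral_mono_on ((integrable_const _).sub he).integrableOn hg.int.integrableOn
        measurableSet_Ico fun σ hσ => by linarith [(abs_le.1 (hb σ (hsub hσ))).1]
    have b3 : ∫ σ in Ico (l j) (l j + p / 4 ^ k), ‖g σ - g' σ‖ ∂orthN ≤
        ∫ σ in orthCell k j, ‖g σ - g' σ‖ ∂orthN :=
      setIntegral_mono_set he.integrableOn (ae_of_all _ fun σ => norm_nonneg _) hsub.eventuallyLE
    have b4 : 0 ≤ ∫ σ in orthCell k j, ‖g σ - g' σ‖ ∂orthN :=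
      integral_nonneg fun σ => norm_nonneg _
    rw [integral_add he.integrableOn (integrable_const _), setIntegral_const, orthCell,
      orthN_Ico a5 (by linarith) a4, a6, add_sub_cancel_left, smul_eq_mul, ← a6] at b1
    rw [integral_sub (integrable_const _) he.integrableOn, setIntegral_const,
      orthN_Ico (a5.trans a2) (by rw [a7]; nlinarith) (a3.trans a4), add_sub_cancel_left,
      smul_eq_mul, a7] at b2
    rw [a7] at b3 ⊢
    have b5 := mul_le_mul_of_nonneg_left b1 hp.le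
    have b6 : p * (1 / 4 ^ k) * ε ≤ 1 * (1 / 4 ^ k) * ε := by gcongr
    have b7 := mul_le_mul_of_nonneg_right hp1 b4
    unfold orthCell at *
    nlinarith
  have c1 : ∑ j ∈ s, ∫ σ in orthCell k j, ‖g σ - g' σ‖ ∂orthN ≤ ε / 4 := by
    rw [← integral_biUnion_finset (s := orthCell k) s (fun j _ => measurableSet_Ico)
      (fun i _ j _ h => orthCell_disj h) fun j _ => he.integrableOn]
    exact (setIntegral_le_integral he (ae_of_all _ fun σ => norm_nonneg _)).trans h1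
  have c2 : (s.card : ℝ) * (1 / 4 ^ k) ≤ 1 := by
    have : s.card ≤ 4 ^ k := by
      simpa using Finset.card_le_card (fun j hj => Finset.mem_range.2 (hs j hj).1 :
        s ⊆ Finset.range (4 ^ k))
    rw [mul_one_div, div_le_one (by positivity)]
    exact_mod_cast this
  have c3 := Finset.sum_le_sum key
  rw [Finset.sum_add_distrib, Finset.sum_add_distrib, ← Finset.mul_sum, ← Finset.mul_sum,
    ← Finset.mul_sum, Finset.sum_const, nsmul_eq_mul] at c3
  nlinarith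

variable {U : Ultrafilter ℕ}

lemma orthM_lim (hU : (U : Filter ℕ) ≤ atTop) {a : ℝ → ℝ → ℝ} (ha : a ∈ orthBM) {c : ℝ → ℝ}
    (hc : Integrable c orthN) (h : ∀ᵐ σ ∂orthN, Tendsto (avN (a σ)) atTop (𝓝 (c σ))) :
    orthM U (fun t => ∫ σ, a σ t ∂orthN) = ∫ σ, c σ ∂orthN := by
  refine le_antisymm (le_of_forall_pos_le_add fun η hη => ?_)
    (le_of_forall_pos_le_add fun η hη => ?_)
  · have := orthM_fatou hU ha (hc.add (integrable_const η)) (by
      filter_upwards [h] with σ hσ using hσ.eventually_le_const (lt_add_of_pos_right _ hη))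
    simp only [Pi.add_apply] at this
    rwa [integral_add hc (integrable_const η), integral_const, probReal_univ, one_smul] at this
  · have := orthM_fatou' hU ha (hc.sub (integrable_const η)) (by
      filter_upwards [h] with σ hσ using hσ.eventually_const_le (sub_lt_self _ hη))
    simp only [Pi.sub_apply] at this
    rw [integral_sub hc (integrable_const η), integral_const, probReal_univ, one_smul] at this
    linarith

/-- restriction to a set of values of the first variable -/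
noncomputable def orthP (S : Set ℝ) (hS : MeasurableSet S) : OrthV U →ₗ[ℝ] OrthV U :=
  orthMul (S.indicator 1) (orthBd_ind hS)

variable {S S' : Set ℝ} (hS : MeasurableSet S) (hS' : MeasurableSet S')

lemma orthP_fn (x : OrthV U) (σ t : ℝ) :
    (orthP S hS x).fn σ t = S.indicator 1 σ * x.fn σ t := rfl

lemma orthP_idem (x : OrthV U) : orthP S hS (orthP S hS x) = orthP S hS x :=
  OrthV.ext fun σ t => by by_cases h : σ ∈ S <;> simp [orthP_fn, h]

lemma orthP_adj (x y : OrthV U) : inner ℝ (orthP S hS x) y = inner ℝ x (orthP S hS y) :=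
  orthMul_inner _ x y

lemma orthP_inner (x y : OrthV U) :
    inner ℝ x (orthP S hS y) = inner ℝ (orthP S hS x) (orthP S hS y) := by
  rw [orthP_adj, orthP_idem]

lemma orthP_orth (h : Disjoint S S') (x y : OrthV U) :
    inner ℝ (orthP S hS x) (orthP S' hS' y) = 0 := by
  have : orthP S hS (orthP S' hS' y) = 0 := OrthV.ext fun σ t => by
    by_cases h1 : σ ∈ S
    · simp [orthP_fn, Set.disjoint_left.1 h h1]
    · simp [orthP_fn, h1]
  rw [orthP_adj, this, inner_zero_right]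

lemma orthP_right {x : OrthV U} {B : ℝ → ℝ} (hB : OrthBd B) (h : ∀ σ t, x.fn σ t = B t) :
    ‖orthP S hS x‖ ^ 2 = orthN.real S * orthM U fun t => B t ^ 2 := by
  rw [orth_norm_sq, ← orthM_mul _ (by simpa only [sq] using hB.mul hB)]
  congr 1
  funext t
  have : ∀ σ, (orthP S hS x).fn σ t ^ 2 = S.indicator (fun _ => B t ^ 2) σ := fun σ => by
    by_cases h1 : σ ∈ S <;> simp [orthP_fn, h1, h]
  simp only [this]
  rw [integral_indicator hS, setIntegral_const, smul_eq_mul]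

lemma orthAv_P (J : ℕ) (T : ℝ) (x : OrthV U) :
    orthAv J T (orthP S hS x) = orthP S hS (orthAv J T x) := orthAv_mul J T _ x

/-- the upper bound for the averaged pieces of a near projection -/
lemma orth_upper (hU : (U : Filter ℕ) ≤ atTop) {C : Submodule ℝ (OrthV U)}
    (hC1 : ∀ s, ∀ x ∈ C, orthSh s x ∈ C) {b φ : OrthV U} {η : ℝ}
    (h : ∀ ψ ∈ C, |inner ℝ (b - φ) ψ| ≤ η * ‖ψ‖) (J : ℕ) (s : Finset ℕ) (T : ℕ → ℝ)
    (I : ℕ → Set ℝ) (hI : ∀ j, MeasurableSet (I j)) (hC2 : ∀ j, orthP (I j) (hI j) φ ∈ C)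
    (hd : ∀ i ∈ s, ∀ j ∈ s, i ≠ j → Disjoint (I i) (I j)) :
    ∑ j ∈ s, ‖orthP (I j) (hI j) (orthAv J (T j) φ)‖ ^ 2 ≤
      2 * ∑ j ∈ s, ‖orthP (I j) (hI j) (orthAv J (T j) b)‖ ^ 2 + 2 * η ^ 2 := by
  have hA : ∀ T, ∀ x ∈ C, orthAv J T x ∈ C := fun T x hx =>
    C.smul_mem _ (C.sum_mem fun i _ => hC1 _ x hx)
  set y : ℕ → OrthV U := fun j => orthP (I j) (hI j) (orthAv J (T j) φ) with hy
  set w : ℕ → OrthV U := fun j => orthAv J (-T j) (y j) with hw
  have hwC : ∑ j ∈ s, w j ∈ C := C.sum_mem fun j _ => hA _ _ (by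
    simp only [hy, ← orthAv_P]; exact hA _ _ (hC2 j))
  have h1 : ‖∑ j ∈ s, w j‖ ^ 2 ≤ ∑ j ∈ s, ‖y j‖ ^ 2 := by
    rw [← real_inner_self_eq_norm_sq, sum_inner]
    refine Finset.sum_le_sum fun i hi => ?_
    rw [inner_sum, Finset.sum_eq_single i (fun j hj hji => ?_) fun h => absurd hi h,
      real_inner_self_eq_norm_sq]
    · exact pow_le_pow_left₀ (norm_nonneg _) (orthAv_norm hU _ _ _) 2
    · simp only [hw, hy, orthAv_P]
      exact orthP_orth _ _ (hd i hi j hj hji.symm) _ _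
  have h2 : ∀ x, inner ℝ x (∑ j ∈ s, w j) =
      ∑ j ∈ s, inner ℝ (orthP (I j) (hI j) (orthAv J (T j) x)) (y j) := fun x => by
    rw [inner_sum]
    refine Finset.sum_congr rfl fun j _ => ?_
    rw [hw, ← orthAv_inner hU, hy, orthP_inner]
  have h3 := (abs_le.1 (h _ hwC)).1
  rw [inner_sub_left, h2, h2] at h3
  have h4 : ∑ j ∈ s, inner ℝ (orthP (I j) (hI j) (orthAv J (T j) b)) (y j) ≤
      ∑ j ∈ s, (‖orthP (I j) (hI j) (orthAv J (T j) b)‖ ^ 2 + ‖y j‖ ^ 2 / 4) :=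
    Finset.sum_le_sum fun j _ => (real_inner_le_norm _ _).trans (by
      nlinarith [sq_nonneg (‖orthP (I j) (hI j) (orthAv J (T j) b)‖ - ‖y j‖ / 2)])
  rw [Finset.sum_add_distrib, ← Finset.sum_div] at h4
  have h5 : ∑ j ∈ s, inner ℝ (orthP (I j) (hI j) (orthAv J (T j) φ)) (y j) =
      ∑ j ∈ s, ‖y j‖ ^ 2 := Finset.sum_congr rfl fun j _ => real_inner_self_eq_norm_sq _
  rw [h5] at h3
  nlinarith [sq_nonneg (η - ‖∑ j ∈ s, w j‖ / 2)]

end Pool.Agent.MP_d0b2d2_an.Gen
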