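import Pool.Agent.MP_d0b2d2_an.Gen.Util
import Pool.Agent.MP_d0b2d2_an.Gen.Dens
import Pool.Agent.MP_d0b2d2_an.Gen.OrthAux2

open MeasureTheory Set Filter Topology Metric

namespace Pool.Agent.MP_d0b2d2_an.Gen

section

variable {X : Type} [TopologicalSpace X] [CompactSpace X] [MeasurableSpace X] [BorelSpace X]
  {μ : Measure X} [IsProbabilityMeasure μ] {γ : ℝ → ℝ → X} {U : Ultrafilter ℕ}

/-- finite sums of families `ρ σ * f (γ σ t)` -/
noncomputable def orthC (U : Ultrafilter ℕ) (γ : ℝ → ℝ → X) : Submodule ℝ (OrthV U) :=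
  Submodule.span ℝ {x | ∃ ρ, OrthBd ρ ∧ ∃ f : C(X, ℝ), ∀ σ t, x.fn σ t = ρ σ * f (γ σ t)}

/-- the family `f (γ σ t)` -/
def orthF (U : Ultrafilter ℕ) (hγ : Measurable (Function.uncurry γ)) (f : C(X, ℝ)) : OrthV U :=
  orthMk U (fun σ t => f (γ σ t))
    ⟨f.continuous.measurable.comp hγ, ‖f‖, fun _ _ => f.norm_coe_le_norm _⟩

lemma orthF_mem (hγ : Measurable (Function.uncurry γ)) (f : C(X, ℝ)) :
    orthF U hγ f ∈ orthC U γ :=
  Submodule.subset_span ⟨fun _ => 1, orthBd_const 1, f, fun _ _ => (one_mul _).symm⟩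

omit [CompactSpace X] [MeasurableSpace X] [BorelSpace X] in
lemma orthC_mul {ρ : ℝ → ℝ} (hρ : OrthBd ρ) {x : OrthV U} (hx : x ∈ orthC U γ) :
    orthMul ρ hρ x ∈ orthC U γ := by
  refine (Submodule.span_le (p := (orthC U γ).comap (orthMul ρ hρ))).2 ?_ hx
  rintro x ⟨ρ', h1, f, h2⟩
  exact Submodule.subset_span ⟨_, hρ.mul h1, f, fun σ t => by rw [orthMul_fn, h2, mul_assoc]⟩

lemma orthC_rep {x : OrthV U} (hx : x ∈ orthC U γ) : ∃ G : ℝ → C(X, ℝ),
    Measurable (fun z : ℝ × X => G z.1 z.2) ∧ (∃ M, ∀ σ q, |G σ q| ≤ M) ∧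
      ∀ σ t, x.fn σ t = G σ (γ σ t) := by
  induction hx using Submodule.span_induction with
  | mem x hx =>
    obtain ⟨ρ, ⟨h1, M, h2⟩, f, h3⟩ := hx
    refine ⟨fun σ => ρ σ • f, (h1.comp measurable_fst).mul
      (f.continuous.measurable.comp measurable_snd), ⟨M * ‖f‖, fun σ q => ?_⟩, h3⟩
    rw [ContinuousMap.smul_apply, smul_eq_mul, abs_mul]
    exact mul_le_mul (h2 σ) (f.norm_coe_le_norm q) (abs_nonneg _) ((abs_nonneg _).trans (h2 σ))
  | zero => exact ⟨0, measurable_const, ⟨0, fun _ _ => by simp⟩, fun _ _ => rfl⟩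
  | add x y _ _ hx hy =>
    obtain ⟨G, h1, ⟨M, h2⟩, h3⟩ := hx
    obtain ⟨G', h4, ⟨M', h5⟩, h6⟩ := hy
    exact ⟨G + G', h1.add h4, ⟨M + M', fun σ q => (abs_add_le _ _).trans
      (add_le_add (h2 σ q) (h5 σ q))⟩, fun σ t => by rw [orthV_add, h3, h6]; rfl⟩
  | smul r x _ hx =>
    obtain ⟨G, h1, ⟨M, h2⟩, h3⟩ := hx
    refine ⟨r • G, h1.const_mul r, ⟨|r| * M, fun σ q => ?_⟩, fun σ t => by
      rw [orthV_smul, h3]; rfl⟩
    simpa [abs_mul] using mul_le_mul_of_nonneg_left (h2 σ q) (abs_nonneg r)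

omit [CompactSpace X] [BorelSpace X] in
lemma orth_sq_bd {G : ℝ → C(X, ℝ)} (h1 : Measurable (fun z : ℝ × X => G z.1 z.2))
    (h2 : ∃ M, ∀ σ q, |G σ q| ≤ M) : OrthBd fun σ => ∫ q, G σ q ^ 2 ∂μ := by
  obtain ⟨M, hM⟩ := h2
  refine ⟨((h1.pow_const 2).stronglyMeasurable.integral_prod_right').measurable,
    M ^ 2 * μ.real univ, fun σ => norm_integral_le_of_norm_le_const
      (f := fun q => G σ q ^ 2) (ae_of_all _ fun q => ?_)⟩
  rw [Real.norm_eq_abs, abs_pow]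
  exact pow_le_pow_left₀ (abs_nonneg _) (hM σ q) 2

omit [CompactSpace X] [BorelSpace X] [IsProbabilityMeasure μ] in
lemma orthP_rep (hU : (U : Filter ℕ) ≤ atTop)
    (h0 : ∀ᵐ σ ∂orthN, ∀ f : C(X, ℝ), Tendsto (avN fun t => f (γ σ t)) atTop (𝓝 (∫ q, f q ∂μ)))
    {x : OrthV U} {G : ℝ → C(X, ℝ)} (hg : OrthBd fun σ => ∫ q, G σ q ^ 2 ∂μ)
    (h : ∀ σ t, x.fn σ t = G σ (γ σ t)) {S : Set ℝ} (hS : MeasurableSet S) :
    ‖orthP S hS x‖ ^ 2 = ∫ σ in S, ∫ q, G σ q ^ 2 ∂μ ∂orthN := by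
  rw [orth_norm_sq, ← integral_indicator hS]
  refine orthM_lim hU (orthBM_sq _) (hg.int.indicator hS) ?_
  filter_upwards [h0] with σ hσ
  by_cases e : σ ∈ S
  · simpa [orthP_fn, e, h, sq] using hσ (G σ * G σ)
  · have : avN (fun _ => 0) = fun _ => 0 := funext fun n => by simp [avN]
    simp [orthP_fn, e, this]

lemma orthSh_mem (hU : (U : Filter ℕ) ≤ atTop) (hγ : Measurable (Function.uncurry γ))
    (h1 : ∀ (f : C(X, ℝ)) (s σ₀ η : ℝ), 0 < η → ∃ f' : C(X, ℝ), ∃ r > 0,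
      ∀ᵐ σ ∂orthN, |σ - σ₀| < r →
        ∀ᶠ n in atTop, avN (fun t => (f (γ σ (t + s)) - f' (γ σ t)) ^ 2) n ≤ η)
    (s : ℝ) (x : OrthV U) (hx : x ∈ (orthC U γ).topologicalClosure) :
    orthSh s x ∈ (orthC U γ).topologicalClosure := by
  classical
  have key : ∀ f, orthSh s (orthF U hγ f) ∈ closure (orthC U γ : Set (OrthV U)) := by
    intro f
    refine Metric.mem_closure_iff.2 fun ε hε => ?_
    choose f' r hr hf' using fun σ₀ => h1 f s σ₀ (ε ^ 2 / 2) (by positivity)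
    obtain ⟨z, -, hz⟩ := (isCompact_Icc (a := (0 : ℝ)) (b := 1)).elim_nhds_subcover
      (fun σ₀ => ball σ₀ (r σ₀)) fun σ₀ _ => ball_mem_nhds _ (hr σ₀)
    have : ∀ z : Finset ℝ, ∃ ψ ∈ orthC U γ, ∀ σ, (∃ a ∈ z, σ ∈ ball a (r a)) →
        ∃ a ∈ z, σ ∈ ball a (r a) ∧ ∀ t, ψ.fn σ t = f' a (γ σ t) := by
      intro z
      induction z using Finset.induction_on with
      | empty => exact ⟨0, zero_mem _, by simp⟩
      | insert a z _ ih =>
        obtain ⟨ψ, h2, h3⟩ := ih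
        refine ⟨orthP _ (measurableSet_ball (x := a) (ε := r a)) (orthF U hγ (f' a)) +
          orthP _ (measurableSet_ball (x := a) (ε := r a)).compl ψ,
          add_mem (orthC_mul _ (orthF_mem hγ _)) (orthC_mul _ h2), fun σ hσ => ?_⟩
        by_cases e : σ ∈ ball a (r a)
        · exact ⟨a, Finset.mem_insert_self _ _, e, fun t => by
            simp [orthP_fn, orthF, indicator_of_mem e, indicator_of_notMem (notMem_compl_iff.2 e)]⟩
        · obtain ⟨a', h4, h5⟩ := hσ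
          obtain ⟨a'', h6, h7, h8⟩ := h3 σ ⟨a', (Finset.mem_insert.1 h4).resolve_left
            (by rintro rfl; exact e h5), h5⟩
          exact ⟨a'', Finset.mem_insert_of_mem h6, h7, fun t => by
            simp [orthP_fn, indicator_of_notMem e, indicator_of_mem (mem_compl e), h8]⟩
    obtain ⟨ψ, h2, h3⟩ := this z
    refine ⟨ψ, h2, ?_⟩
    rw [dist_eq_norm]
    refine lt_of_pow_lt_pow_left₀ 2 hε.le ?_
    rw [orth_norm_sq]
    refine (orthM_fatou hU (orthBM_sq _) (integrable_const (ε ^ 2 / 2)) ?_).trans_lt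
      (by simp; positivity)
    filter_upwards [(eventually_all_finset z).2 fun a _ => hf' a,
      ae_restrict_mem measurableSet_Ioo] with σ h4 h5
    obtain ⟨a, h6, h7, h8⟩ := h3 σ (by simpa using hz (Ioo_subset_Icc_self h5))
    simpa [orthF, h8] using h4 a h6 h7
  have h2 : ∀ x ∈ orthC U γ, orthSh s x ∈ (orthC U γ).topologicalClosure := by
    refine (Submodule.span_le (p := (orthC U γ).topologicalClosure.comap (orthSh s))).2 ?_
    rintro x ⟨ρ, h2, f, h3⟩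
    have : orthSh s x = orthMul ρ h2 (orthSh s (orthF U hγ f)) :=
      OrthV.ext fun σ t => by simp [h3, orthF]
    show orthSh s x ∈ closure (orthC U γ : Set (OrthV U))
    rw [this]
    exact map_mem_closure (orthMul_cont h2) (key f) fun y hy => orthC_mul h2 hy
  exact (orthC U γ).isClosed_topologicalClosure.closure_subset
    (map_mem_closure (orthSh_cont hU s) hx h2)

omit [CompactSpace X] [BorelSpace X] [IsProbabilityMeasure μ] in
/-- the lower bound for the averaged pieces -/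
lemma orth_lower (hU : (U : Filter ℕ) ≤ atTop) {x : OrthV U} {G : ℝ → C(X, ℝ)}
    (hg : OrthBd fun σ => ∫ q, G σ q ^ 2 ∂μ) (h : ∀ σ t, x.fn σ t = G σ (γ σ t))
    {c p : ℝ} (hc : 0 < c) {J : ℕ} {T l : ℕ → ℕ → ℝ} {th : ℕ → ℝ → Prop}
    (h3 : ∀ᵐ σ ∂orthN, ∀ (f : C(X, ℝ)) (η' : ℝ), 0 < η' →
      ∀ᶠ k in atTop, ∀ j : ℕ, th k (j / 4 ^ k) → l k j ≤ σ → σ ≤ l k j + p / 4 ^ k →
      ∀ᶠ n in atTop, c * ∫ q, f q ^ 2 ∂μ - η' ≤
        avN (fun t => ((∑ i ∈ Finset.range J, f (γ σ (t + i * T k j))) / J) ^ 2) n)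
    {η : ℝ} (hη : 0 < η) :
    ∀ᶠ k in atTop, ∀ s : Finset ℕ, (∀ j ∈ s, th k (j / 4 ^ k)) →
      (∀ i ∈ s, ∀ j ∈ s, i ≠ j →
        Disjoint (Ico (l k i) (l k i + p / 4 ^ k)) (Ico (l k j) (l k j + p / 4 ^ k))) →
      c * ∑ j ∈ s, ∫ σ in Ico (l k j) (l k j + p / 4 ^ k), ∫ q, G σ q ^ 2 ∂μ ∂orthN ≤
        ∑ j ∈ s, ‖orthP (Ico (l k j) (l k j + p / 4 ^ k)) measurableSet_Ico
          (orthAv J (T k j) x)‖ ^ 2 + 2 * η := by
  set g : ℝ → ℝ := fun σ => ∫ q, G σ q ^ 2 ∂μ with hgd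
  have hg0 : ∀ σ, 0 ≤ g σ := fun σ => integral_nonneg fun q => sq_nonneg _
  let good : ℕ → Set ℝ := fun k => {σ | ∀ j : ℕ, th k (j / 4 ^ k) → l k j ≤ σ →
    σ ≤ l k j + p / 4 ^ k → ∀ᶠ n in atTop, c * g σ - η ≤
      avN (fun t => (orthAv J (T k j) x).fn σ t ^ 2) n}
  have hgood : ∀ k, MeasurableSet (good k) := by
    intro k
    simp only [good, eventually_atTop]
    refine measurableSet_setOfPred.2 (Measurable.forall fun j => measurable_const.imp
      ((measurableSet_setOfPred.1 measurableSet_Ici).imp ((measurableSet_setOfPred.1 measurableSet_Iic).imp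
      (Measurable.exists fun N => Measurable.forall fun n => measurable_const.imp ?_))))
    exact measurableSet_setOfPred.1 (measurableSet_le ((hg.1.const_mul c).sub_const η)
      (measurable_avN (orthBM_sq (orthAv J (T k j) x)).1 n))
  let u : ℕ → ℝ → ℝ := fun k => (good k)ᶜ.indicator fun σ => c * g σ
  have hu0 : ∀ k σ, 0 ≤ u k σ := fun k σ =>
    indicator_nonneg (fun σ _ => mul_nonneg hc.le (hg0 σ)) σ
  have hui : ∀ k, Integrable (u k) orthN := fun k => (hg.int.const_mul c).indicator (hgood k).compl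
  have ht := tendsto_integral_of_dominated_convergence (μ := orthN) (F := u) (f := fun _ => 0)
    (fun σ => c * g σ) (fun k => (hui k).aestronglyMeasurable) (hg.int.const_mul c)
    (fun k => ae_of_all _ fun σ => by
      rw [Real.norm_eq_abs, abs_of_nonneg (hu0 k σ)]
      exact indicator_le_self' (fun σ _ => mul_nonneg hc.le (hg0 σ)) σ)
    (by
      filter_upwards [h3] with σ hσ
      refine tendsto_const_nhds.congr' ?_
      filter_upwards [hσ (G σ) η hη] with k hk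
      refine (indicator_of_notMem (notMem_compl_iff.2 ?_) _).symm
      simp only [good, orthAv_fn, h]
      exact hk)
  rw [integral_zero] at ht
  filter_upwards [ht.eventually_le_const hη] with k hk s hs hd
  have hv : Integrable (fun σ => u k σ + η) orthN := (hui k).add (integrable_const _)
  have key : ∀ j ∈ s, c * ∫ σ in Ico (l k j) (l k j + p / 4 ^ k), g σ ∂orthN ≤
      ‖orthP (Ico (l k j) (l k j + p / 4 ^ k)) measurableSet_Ico (orthAv J (T k j) x)‖ ^ 2 +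
        ∫ σ in Ico (l k j) (l k j + p / 4 ^ k), (u k σ + η) ∂orthN := by
    intro j hj
    rw [← integral_const_mul, ← sub_le_iff_le_add,
      ← integral_sub (hg.int.const_mul c).integrableOn hv.integrableOn,
      ← integral_indicator measurableSet_Ico, orth_norm_sq]
    refine orthM_fatou' hU (orthBM_sq _)
      (((hg.int.const_mul c).sub hv).indicator measurableSet_Ico) (ae_of_all _ fun σ => ?_)
    have hn : ∀ (y : OrthV U) n, 0 ≤ avN (fun t => y.fn σ t ^ 2) n := fun y n => div_nonneg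
      (intervalIntegral.integral_nonneg (Nat.cast_nonneg n) fun t _ => sq_nonneg _)
      (Nat.cast_nonneg n)
    by_cases e : σ ∈ Ico (l k j) (l k j + p / 4 ^ k)
    · rw [indicator_of_mem e]
      by_cases e' : σ ∈ good k
      · filter_upwards [e' j (hs j hj) e.1 e.2.le] with n hn
        simp only [orthP_fn, indicator_of_mem e, Pi.one_apply, one_mul]
        linarith [hu0 k σ]
      · refine Eventually.of_forall fun n => le_trans ?_ (hn _ n)
        have : u k σ = c * g σ := indicator_of_mem (mem_compl e') _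
        linarith
    · rw [indicator_of_notMem e]
      exact Eventually.of_forall (hn _)
  have c1 : ∑ j ∈ s, ∫ σ in Ico (l k j) (l k j + p / 4 ^ k), (u k σ + η) ∂orthN ≤ 2 * η := by
    rw [← integral_biUnion_finset (s := fun j => Ico (l k j) (l k j + p / 4 ^ k)) s
      (fun j _ => measurableSet_Ico) (fun i hi j hj h => hd i hi j hj h)
      fun j _ => hv.integrableOn]
    refine (setIntegral_le_integral hv (ae_of_all _ fun σ => add_nonneg (hu0 k σ) hη.le)).trans ?_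
    rw [integral_add (hui k) (integrable_const _), integral_const, probReal_univ, one_smul]
    linarith
  have c2 := Finset.sum_le_sum key
  rw [Finset.sum_add_distrib, ← Finset.mul_sum] at c2
  linarith

open Classical in
lemma orth_split {g : ℝ → ℝ} (hg : OrthBd g) (h0 : ∀ σ, 0 ≤ g σ) (k : ℕ) (P : ℝ → Prop) :
    ∫ σ, g σ ∂orthN ≤ ∫ σ in {σ | σ ∈ Ico (0 : ℝ) 1 ∧ ¬ P (tr k σ)}, g σ ∂orthN +
      ∑ j ∈ (Finset.range (4 ^ k)).filter (fun j : ℕ => P (j / 4 ^ k)),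
        ∫ σ in orthCell k j, g σ ∂orthN := by
  have hm := (volume_tr k fun σ => ¬ P σ).1
  have hc : ∀ j, MeasurableSet (orthCell k j) := fun j => measurableSet_Ico
  simp only [← integral_indicator hm, ← integral_indicator (hc _)]
  rw [← integral_finsetSum _ fun j _ => hg.int.indicator (hc j), ← integral_add
    (hg.int.indicator hm) (integrable_finsetSum _ fun j _ => hg.int.indicator (hc j))]
  refine integral_mono_ae hg.int ((hg.int.indicator hm).add
    (integrable_finsetSum _ fun j _ => hg.int.indicator (hc j))) ?_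
  filter_upwards [ae_restrict_mem measurableSet_Ioo] with σ hσ
  have a1 : ∀ S : Set ℝ, 0 ≤ S.indicator g σ := fun S => indicator_nonneg (fun σ _ => h0 σ) σ
  by_cases e : P (tr k σ)
  · obtain ⟨j, hj, hj'⟩ := tr_mem hσ.1.le hσ.2 k
    have a2 : σ ∈ orthCell k j :=
      ⟨hj' ▸ tr_le k σ, by rw [add_div, ← hj']; exact lt_tr_add k σ⟩
    have a3 := Finset.single_le_sum (f := fun j => (orthCell k j).indicator g σ)
      (s := (Finset.range (4 ^ k)).filter (fun j : ℕ => P (j / 4 ^ k))) (fun j _ => a1 _)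
      (Finset.mem_filter.2 ⟨Finset.mem_range.2 hj, hj' ▸ e⟩)
    rw [indicator_of_mem a2] at a3
    exact a3.trans (le_add_of_nonneg_left (a1 _))
  · rw [indicator_of_mem (show σ ∈ {σ | σ ∈ Ico (0 : ℝ) 1 ∧ ¬ P (tr k σ)} from
      ⟨Ioo_subset_Ico_self hσ, e⟩)]
    exact le_add_of_nonneg_right (Finset.sum_nonneg fun j _ => a1 _)

end

open Classical in
/-- the abstract orthogonality argument -/
theorem orth {X : Type} [TopologicalSpace X] [CompactSpace X] [MeasurableSpace X] [BorelSpace X]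
    (μ : Measure X) [IsProbabilityMeasure μ] {γ : ℝ → ℝ → X}
    (hγ : Measurable (Function.uncurry γ)) {B : ℝ → ℝ} (hB : Measurable B) (hb : ∀ t, |B t| ≤ 1)
    (h0 : ∀ᵐ σ ∂(volume.restrict (Ioo (0 : ℝ) 1)), ∀ f : C(X, ℝ),
      Tendsto (avN fun t => f (γ σ t)) atTop (𝓝 (∫ q, f q ∂μ)))
    (h1 : ∀ (f : C(X, ℝ)) (s σ₀ η : ℝ), 0 < η → ∃ f' : C(X, ℝ), ∃ r > 0,
      ∀ᵐ σ ∂(volume.restrict (Ioo (0 : ℝ) 1)), |σ - σ₀| < r →
        ∀ᶠ n in atTop, avN (fun t => (f (γ σ (t + s)) - f' (γ σ t)) ^ 2) n ≤ η)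
    (h2 : ∀ η₁ > (0 : ℝ), ∃ c > (0 : ℝ), ∀ η > (0 : ℝ), ∃ (p : ℝ) (J : ℕ) (T l : ℕ → ℕ → ℝ)
      (th : ℕ → ℝ → Prop), 0 < p ∧ 1 ≤ J ∧ (∀ k, dens k (fun σ => ¬ th k σ) ≤ η₁) ∧
      (∀ k j : ℕ, th k (j / 4 ^ k) → (j : ℝ) / 4 ^ k ≤ l k j ∧ l k j + p / 4 ^ k ≤ (j + 1) / 4 ^ k) ∧
      (∀ᵐ σ ∂(volume.restrict (Ioo (0 : ℝ) 1)), ∀ (f : C(X, ℝ)) (η' : ℝ), 0 < η' →
        ∀ᶠ k in atTop, ∀ j : ℕ, th k (j / 4 ^ k) → l k j ≤ σ → σ ≤ l k j + p / 4 ^ k →
        ∀ᶠ n in atTop, c * ∫ q, f q ^ 2 ∂μ - η' ≤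
          avN (fun t => ((∑ i ∈ Finset.range J, f (γ σ (t + i * T k j))) / J) ^ 2) n) ∧
      ∀ K₁ : ℕ, ∃ s : Finset ℕ, s.Nonempty ∧ (∀ k ∈ s, K₁ ≤ k) ∧ ∀ᶠ n in atTop,
        ∑ k ∈ s, ∑ j ∈ (Finset.range (4 ^ k)).filter (fun j : ℕ => th k (j / 4 ^ k)), 1 / 4 ^ k *
          avN (fun t => ((∑ i ∈ Finset.range J, B (t + i * T k j)) / J) ^ 2) n ≤ η * s.card)
    {ρ : ℝ → ℝ} (hρ : Continuous ρ) (f : C(X, ℝ)) :
    Tendsto (avN fun t => B t * ∫ σ in (0 : ℝ)..1, ρ σ * f (γ σ t)) atTop (𝓝 0) := by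
  refine (tendsto_iff_ultrafilter _ _ _).2 fun U hU => ?_
  have hBb : OrthBd B := ⟨hB, 1, hb⟩
  obtain ⟨Mρ, hMρ⟩ := (isCompact_Icc (a := (0 : ℝ)) (b := 1)).exists_bound_of_continuousOn
    hρ.continuousOn
  have hρb : OrthBd ((Icc (0 : ℝ) 1).indicator ρ) :=
    ⟨hρ.measurable.indicator measurableSet_Icc, |Mρ|, fun σ => by
      by_cases e : σ ∈ Icc (0 : ℝ) 1
      · rw [indicator_of_mem e]; exact (hMρ σ e).trans (le_abs_self _)
      · simp [indicator_of_notMem e]⟩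
  set b : OrthV U := orthMk U (fun _ t => B t) (orthBM_right hBb) with hbd
  set ψ0 : OrthV U := orthMul _ hρb (orthF U hγ f) with hψd
  have e0 : (fun t => B t * ∫ σ in (0 : ℝ)..1, ρ σ * f (γ σ t)) =
      fun t => ∫ σ, b.fn σ t * ψ0.fn σ t ∂orthN := by
    funext t
    rw [intervalIntegral.integral_of_le zero_le_one, integral_Ioc_eq_integral_Ioo,
      ← integral_const_mul]
    refine setIntegral_congr_fun measurableSet_Ioo fun σ hσ => ?_
    simp [hbd, hψd, orthF, indicator_of_mem (Ioo_subset_Icc_self hσ)]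
  rw [e0]
  suffices h : inner ℝ b ψ0 = 0 by
    rw [← h]; exact orthM_tendsto (orthBM_int (orthBM_mul b.mem ψ0.mem))
  by_contra hne
  have hψC : ψ0 ∈ orthC U γ := orthC_mul hρb (orthF_mem hγ f)
  have hip := abs_pos.2 hne
  have hψ0 : 0 < ‖ψ0‖ := by
    refine (norm_nonneg _).lt_of_ne fun e => ?_
    have := abs_real_inner_le_norm b ψ0
    rw [← e, mul_zero] at this
    linarith
  obtain ⟨θ, hθ, hθ'⟩ : ∃ θ > 0, |inner ℝ b ψ0| = 2 * θ * ‖ψ0‖ :=
    ⟨|inner ℝ b ψ0| / (2 * ‖ψ0‖), by positivity, by field_simp⟩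
  obtain ⟨c, hc, h2⟩ := h2 (θ ^ 2 / 16) (by positivity)
  obtain ⟨p, J, T, l, th, hp, -, h3, h4, h5, h6⟩ := h2 (c * θ ^ 2 / 100) (by positivity)
  obtain ⟨η, hη, hη1, hη2⟩ : ∃ η > 0, η ≤ θ / 4 ∧ η ^ 2 ≤ c * p * θ ^ 2 / 100 := by
    refine ⟨min (θ / 4) √(c * p * θ ^ 2 / 100), lt_min (by positivity)
      (Real.sqrt_pos.2 (by positivity)), min_le_left _ _, ?_⟩
    exact (pow_le_pow_left₀ (le_min (by positivity) (Real.sqrt_nonneg _))
      (min_le_right _ _) 2).trans_eq (Real.sq_sqrt (by positivity))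
  obtain ⟨φ, hφ, hnear⟩ := orth_near (orthC U γ) b hη
  obtain ⟨G, hG1, hG2, hG3⟩ := orthC_rep hφ
  have hg := orth_sq_bd (μ := μ) hG1 hG2
  have hφθ : θ ≤ ‖φ‖ := by
    have a1 := hnear ψ0 (subset_closure hψC)
    have a2 := abs_real_inner_le_norm φ ψ0
    have a3 := abs_sub_abs_le_abs_sub (inner ℝ b ψ0) (inner ℝ φ ψ0)
    rw [inner_sub_left] at a1
    refine le_of_mul_le_mul_right ?_ hψ0
    nlinarith
  have hint : θ ^ 2 ≤ ∫ σ, ∫ q, G σ q ^ 2 ∂μ ∂orthN := by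
    have a1 := orthP_rep hU h0 hg hG3 MeasurableSet.univ
    have a2 : orthP univ MeasurableSet.univ φ = φ := OrthV.ext fun σ t => by simp [orthP_fn]
    rw [a2, Measure.restrict_univ] at a1
    rw [← a1]
    exact pow_le_pow_left₀ hθ.le hφθ 2
  have hbad : ∀ k, ∫ σ in {σ | σ ∈ Ico (0 : ℝ) 1 ∧ ¬ th k (tr k σ)}, ∫ q, G σ q ^ 2 ∂μ ∂orthN ≤
      θ ^ 2 / 4 := by
    intro k
    obtain ⟨hm, hv⟩ := volume_tr k fun σ => ¬ th k σ
    rw [← orthP_rep hU h0 hg hG3 hm]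
    have a1 := (abs_le.1 (hnear _ (subset_closure (orthC_mul (orthBd_ind hm) hφ)))).1
    change -(η * ‖orthP _ hm φ‖) ≤ inner ℝ (b - φ) (orthP _ hm φ) at a1
    rw [inner_sub_left, orthP_inner, orthP_inner hm φ, real_inner_self_eq_norm_sq] at a1
    have a2 := real_inner_le_norm (orthP _ hm b) (orthP _ hm φ)
    have a3 : ‖orthP _ hm b‖ ^ 2 ≤ (θ / 4) ^ 2 := by
      rw [orthP_right hm hBb fun _ _ => rfl, orthN_eq, measureReal_restrict_apply hm,
        inter_eq_left.2 fun σ hσ => hσ.1, hv]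
      have a4 := orthM_le (U := U) (f := fun t => B t ^ 2) (M := 1)
        (by simpa only [sq] using hBb.mul hBb) fun t => by
          rw [abs_pow]; exact pow_le_one₀ (abs_nonneg _) (hb t)
      nlinarith [dens_nonneg k fun σ => ¬ th k σ, h3 k]
    have a5 := (abs_le_of_sq_le_sq' a3 (by positivity)).2
    have a6 := norm_nonneg (orthP _ hm φ)
    have a7 : ‖orthP _ hm φ‖ ^ 2 ≤ θ / 2 * ‖orthP _ hm φ‖ := by nlinarith
    nlinarith [sq_nonneg (‖orthP _ hm φ‖ - θ / 2)]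
  obtain ⟨K, hK⟩ := eventually_atTop.1 ((orth_cells hg (show 0 < p * θ ^ 2 / 100 by positivity)).and
    (orth_lower hU hg hG3 hc h5 (show 0 < c * p * θ ^ 2 / 100 by positivity)))
  obtain ⟨s, hs, hsK, hs'⟩ := h6 K
  have hA' : ∀ k j, OrthBd fun t => (∑ i ∈ Finset.range J, B (t + i * T k j)) / J := fun k j => by
    have := orthBM_sec' (orthAv J (T k j) b).mem 0
    rwa [funext (orthAv_fn J (T k j) b 0)] at this
  have hA : ∀ k j, OrthBd fun t => ((∑ i ∈ Finset.range J, B (t + i * T k j)) / J) ^ 2 :=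
    fun k j => by simpa only [sq] using (hA' k j).mul (hA' k j)
  have hlim := le_of_tendsto (tendsto_finsetSum s fun k _ => tendsto_finsetSum
    ((Finset.range (4 ^ k)).filter (fun j : ℕ => th k (j / 4 ^ k))) fun j _ =>
      (orthM_tendsto (U := U) (hA k j)).const_mul (1 / 4 ^ k)) (hU hs')
  have key : ∀ k ∈ s, c * θ ^ 2 / 4 ≤
      ∑ j ∈ (Finset.range (4 ^ k)).filter (fun j : ℕ => th k (j / 4 ^ k)), 1 / 4 ^ k *
        orthM U fun t => ((∑ i ∈ Finset.range J, B (t + i * T k j)) / J) ^ 2 := by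
    intro k hk
    obtain ⟨b1, b2⟩ := hK k (hsK k hk)
    set z := (Finset.range (4 ^ k)).filter (fun j : ℕ => th k (j / 4 ^ k)) with hz
    have hz1 : ∀ j ∈ z, j < 4 ^ k ∧ (j : ℝ) / 4 ^ k ≤ l k j ∧
        l k j + p / 4 ^ k ≤ (j + 1) / 4 ^ k := fun j hj =>
      ⟨Finset.mem_range.1 (Finset.mem_filter.1 hj).1, h4 k j (Finset.mem_filter.1 hj).2⟩
    have hd : ∀ i ∈ z, ∀ j ∈ z, i ≠ j →
        Disjoint (Ico (l k i) (l k i + p / 4 ^ k)) (Ico (l k j) (l k j + p / 4 ^ k)) :=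
      fun i hi j hj h => (orthCell_disj (k := k) h).mono
        (Ico_subset_Ico (hz1 i hi).2.1 (hz1 i hi).2.2) (Ico_subset_Ico (hz1 j hj).2.1 (hz1 j hj).2.2)
    have b3 := b1 z (l k) p hp hz1
    have b4 := b2 z (fun j hj => (Finset.mem_filter.1 hj).2) hd
    have b5 := orth_split hg (fun σ => integral_nonneg fun q => sq_nonneg _) k (th k)
    have b6 := orth_upper hU (C := (orthC U γ).topologicalClosure) (orthSh_mem hU hγ h1) hnear J z
      (T k) (fun j => Ico (l k j) (l k j + p / 4 ^ k)) (fun j => measurableSet_Ico)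
      (fun j => subset_closure (orthC_mul _ hφ)) hd
    have b7 : ∑ j ∈ z, ‖orthP (Ico (l k j) (l k j + p / 4 ^ k)) measurableSet_Ico
        (orthAv J (T k j) b)‖ ^ 2 = p * ∑ j ∈ z, 1 / 4 ^ k *
          orthM U fun t => ((∑ i ∈ Finset.range J, B (t + i * T k j)) / J) ^ 2 := by
      rw [Finset.mul_sum]
      refine Finset.sum_congr rfl fun j hj => ?_
      obtain ⟨d1, d2, d3⟩ := hz1 j hj
      rw [orthP_right measurableSet_Ico (hA' k j) (fun σ t => orthAv_fn _ _ _ _ _), orthN_Ico (le_trans (by positivity) d2)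
        (le_add_of_nonneg_right (by positivity)) (d3.trans (orthCell_le d1))]
      ring
    rw [b7] at b6
    rw [← hz] at b5
    refine le_of_mul_le_mul_left ?_ hp
    have b8 := mul_le_mul_of_nonneg_left b3 hc.le
    have b9 := mul_le_mul_of_nonneg_left (hint.trans (b5.trans (add_le_add (hbad k) le_rfl)))
      (mul_pos hc hp).le
    have b10 : 0 < c * p * θ ^ 2 := by positivity
    nlinarith
  have c1 := Finset.sum_le_sum key
  rw [Finset.sum_const, nsmul_eq_mul] at c1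
  have c2 : (0 : ℝ) < s.card := by exact_mod_cast hs.card_pos
  have c3 : 0 < c * θ ^ 2 * s.card := by positivity
  nlinarith

end Pool.Agent.MP_d0b2d2_an.Gen
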