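import Pool.Agent.MP_d0b2d2_an.Gen.Util

open MeasureTheory Set Filter Topology Metric

namespace Pool.Agent.MP_d0b2d2_an.Gen

/-- Lebesgue measure on the unit interval -/
noncomputable abbrev orthN : Measure ℝ := volume.restrict (Ioo (0 : ℝ) 1)

instance orthN_prob : IsProbabilityMeasure orthN := ⟨by simp⟩

/-- bounded measurable functions -/
def OrthBd (ρ : ℝ → ℝ) : Prop := Measurable ρ ∧ ∃ M, ∀ σ, |ρ σ| ≤ M

lemma OrthBd.ii {f : ℝ → ℝ} (h : OrthBd f) (a b : ℝ) : IntervalIntegrable f volume a b := by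
  obtain ⟨h1, M, h2⟩ := h
  exact ii_bdd h1 h2 a b

lemma OrthBd.int {f : ℝ → ℝ} (h : OrthBd f) : Integrable f orthN := by
  obtain ⟨h1, M, h2⟩ := h
  exact integrable_bdd h1 h2

lemma orthBd_ind {S : Set ℝ} (hS : MeasurableSet S) : OrthBd (S.indicator 1) :=
  ⟨measurable_one.indicator hS, 1, fun σ => by by_cases h : σ ∈ S <;> simp [h]⟩

lemma OrthBd.mul {f g : ℝ → ℝ} (hf : OrthBd f) (hg : OrthBd g) : OrthBd fun t => f t * g t := by
  obtain ⟨h1, M, h2⟩ := hf
  obtain ⟨h3, N, h4⟩ := hg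
  exact ⟨h1.mul h3, M * N, fun t => by
    rw [abs_mul]; exact mul_le_mul (h2 t) (h4 t) (abs_nonneg _) ((abs_nonneg _).trans (h2 t))⟩

lemma OrthBd.add {f g : ℝ → ℝ} (hf : OrthBd f) (hg : OrthBd g) : OrthBd fun t => f t + g t := by
  obtain ⟨h1, M, h2⟩ := hf
  obtain ⟨h3, N, h4⟩ := hg
  exact ⟨h1.add h3, M + N, fun t => (abs_add_le _ _).trans (add_le_add (h2 t) (h4 t))⟩

lemma orthBd_const (c : ℝ) : OrthBd fun _ => c := ⟨measurable_const, |c|, fun _ => le_rfl⟩

/-- the mean along an ultrafilter -/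
noncomputable def orthM (U : Ultrafilter ℕ) (a : ℝ → ℝ) : ℝ := limUnder (U : Filter ℕ) (avN a)

variable {U : Ultrafilter ℕ} {f g : ℝ → ℝ}

lemma orthM_tendsto (hf : OrthBd f) : Tendsto (avN f) U (𝓝 (orthM U f)) := by
  obtain ⟨-, M, hM⟩ := hf
  obtain ⟨x, -, hx⟩ := (isCompact_Icc (a := -M) (b := M)).ultrafilter_le_nhds (U.map (avN f)) (by
    rw [Ultrafilter.coe_map, le_principal_iff, mem_map]
    exact univ_mem' fun n => abs_le.1 (abs_avN_le hM n))
  exact tendsto_nhds_limUnder ⟨x, hx⟩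

lemma orthM_add (hf : OrthBd f) (hg : OrthBd g) :
    orthM U (fun t => f t + g t) = orthM U f + orthM U g := by
  refine tendsto_nhds_unique (orthM_tendsto (hf.add hg))
    (((orthM_tendsto hf).add (orthM_tendsto hg)).congr fun n => ?_)
  simp only [avN]
  rw [intervalIntegral.integral_add (hf.ii _ _) (hg.ii _ _), add_div]

lemma orth_avN_mul (r : ℝ) (f : ℝ → ℝ) (n : ℕ) : avN (fun t => r * f t) n = r * avN f n := by
  simp only [avN]
  rw [intervalIntegral.integral_const_mul, mul_div_assoc]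

lemma orthM_mul (r : ℝ) (hf : OrthBd f) : orthM U (fun t => r * f t) = r * orthM U f :=
  tendsto_nhds_unique (orthM_tendsto ((orthBd_const r).mul hf))
    (((orthM_tendsto hf).const_mul r).congr fun n => (orth_avN_mul r f n).symm)

lemma orthM_mono (hf : OrthBd f) (hg : OrthBd g) (h : ∀ t, f t ≤ g t) : orthM U f ≤ orthM U g :=
  le_of_tendsto_of_tendsto' (orthM_tendsto hf) (orthM_tendsto hg) fun n =>
    avN_mono n (hf.ii _ _) (hg.ii _ _) fun t _ => h t

lemma orthM_nonneg (hf : OrthBd f) (h : ∀ t, 0 ≤ f t) : 0 ≤ orthM U f :=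
  ge_of_tendsto' (orthM_tendsto hf) fun n => div_nonneg
    (intervalIntegral.integral_nonneg (Nat.cast_nonneg n) fun t _ => h t) (Nat.cast_nonneg n)

lemma orthM_le (hf : OrthBd f) {M : ℝ} (h : ∀ t, |f t| ≤ M) : orthM U f ≤ M :=
  le_of_tendsto' (orthM_tendsto hf) fun n => (le_abs_self _).trans (abs_avN_le h n)

lemma OrthBd.shift (hf : OrthBd f) (s : ℝ) : OrthBd fun t => f (t + s) := by
  obtain ⟨h1, M, h2⟩ := hf
  exact ⟨h1.comp (measurable_add_const s), M, fun t => h2 _⟩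

lemma orthM_shift (hU : (U : Filter ℕ) ≤ atTop) (hf : OrthBd f) (s : ℝ) :
    orthM U (fun t => f (t + s)) = orthM U f := by
  obtain ⟨M, hM⟩ := hf.2
  have h0 : Tendsto (fun n => avN (fun t => f (t + s)) n - avN f n) atTop (𝓝 0) := by
    refine squeeze_zero_norm (fun n => ?_) (tendsto_const_div_atTop_nhds_zero_nat (2 * M * |s|))
    simp only [avN]
    rw [← sub_div, norm_div, Real.norm_natCast]
    refine div_le_div_of_nonneg_right ?_ (Nat.cast_nonneg n)
    rw [intervalIntegral.integral_comp_add_right (fun t => f t),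
      intervalIntegral.integral_interval_sub_interval_comm' (hf.ii _ _) (hf.ii _ _) (hf.ii _ _)]
    have h1 := intervalIntegral.norm_integral_le_of_norm_le_const (a := n) (b := n + s)
      (f := f) (C := M) fun s _ => hM s
    have h2 := intervalIntegral.norm_integral_le_of_norm_le_const (a := 0) (b := 0 + s)
      (f := f) (C := M) fun s _ => hM s
    simp only [add_sub_cancel_left] at h1 h2
    linarith [norm_sub_le (∫ t in (n : ℝ)..n + s, f t) (∫ t in (0 : ℝ)..0 + s, f t)]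
  have := tendsto_nhds_unique ((orthM_tendsto (hf.shift s)).sub (orthM_tendsto hf))
    (h0.mono_left hU)
  linarith

/-- bounded jointly measurable families -/
def orthBM : Submodule ℝ (ℝ → ℝ → ℝ) where
  carrier := {a | Measurable (Function.uncurry a) ∧ ∃ M, ∀ σ t, |a σ t| ≤ M}
  add_mem' := by
    rintro a b ⟨h1, M, h2⟩ ⟨h3, N, h4⟩
    exact ⟨h1.add h3, M + N, fun σ t => (abs_add_le _ _).trans (add_le_add (h2 σ t) (h4 σ t))⟩
  zero_mem' := ⟨measurable_const, 0, fun _ _ => by simp⟩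
  smul_mem' := by
    rintro r a ⟨h1, M, h2⟩
    exact ⟨h1.const_mul r, |r| * M, fun σ t => by
      simpa [abs_mul] using mul_le_mul_of_nonneg_left (h2 σ t) (abs_nonneg r)⟩

lemma orthBM_mul {a b : ℝ → ℝ → ℝ} (ha : a ∈ orthBM) (hb : b ∈ orthBM) :
    (fun σ t => a σ t * b σ t) ∈ orthBM := by
  obtain ⟨h1, M, h2⟩ := ha
  obtain ⟨h3, N, h4⟩ := hb
  exact ⟨h1.mul h3, M * N, fun σ t => by
    rw [abs_mul]
    exact mul_le_mul (h2 σ t) (h4 σ t) (abs_nonneg _) ((abs_nonneg _).trans (h2 σ t))⟩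

lemma orthBM_left {ρ : ℝ → ℝ} (h : OrthBd ρ) : (fun σ _ => ρ σ) ∈ orthBM := by
  obtain ⟨h1, M, h2⟩ := h
  exact ⟨h1.comp measurable_fst, M, fun σ _ => h2 σ⟩

lemma orthBM_right {ρ : ℝ → ℝ} (h : OrthBd ρ) : (fun _ t => ρ t) ∈ orthBM := by
  obtain ⟨h1, M, h2⟩ := h
  exact ⟨h1.comp measurable_snd, M, fun _ t => h2 t⟩

lemma orthBM_sec {a : ℝ → ℝ → ℝ} (ha : a ∈ orthBM) (t : ℝ) : OrthBd fun σ => a σ t := by
  obtain ⟨h1, M, h2⟩ := ha
  exact ⟨h1.comp (measurable_prodMk_right (y := t)), M, fun σ => h2 σ t⟩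

lemma orthBM_sec' {a : ℝ → ℝ → ℝ} (ha : a ∈ orthBM) (σ : ℝ) : OrthBd (a σ) := by
  obtain ⟨h1, M, h2⟩ := ha
  exact ⟨h1.comp (measurable_prodMk_left (x := σ)), M, h2 σ⟩

lemma orthBM_int {a : ℝ → ℝ → ℝ} (ha : a ∈ orthBM) : OrthBd fun t => ∫ σ, a σ t ∂orthN := by
  obtain ⟨h1, M, h2⟩ := ha
  exact ⟨(h1.stronglyMeasurable.integral_prod_left').measurable, M * orthN.real univ, fun t =>
    norm_integral_le_of_norm_le_const (f := fun σ => a σ t) (ae_of_all _ fun σ => h2 σ t)⟩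

lemma orthM_fatou (hU : (U : Filter ℕ) ≤ atTop) {a : ℝ → ℝ → ℝ} (ha : a ∈ orthBM) {c : ℝ → ℝ}
    (hc : Integrable c orthN) (h : ∀ᵐ σ ∂orthN, ∀ᶠ n in atTop, avN (a σ) n ≤ c σ) :
    orthM U (fun t => ∫ σ, a σ t ∂orthN) ≤ ∫ σ, c σ ∂orthN := by
  obtain ⟨M, hM⟩ := ha.2
  exact le_of_forall_pos_le_add fun η hη => le_of_tendsto (orthM_tendsto (orthBM_int ha))
    (hU (rev_fatou orthN ha.1 hM hc h hη))

lemma orthM_fatou' (hU : (U : Filter ℕ) ≤ atTop) {a : ℝ → ℝ → ℝ} (ha : a ∈ orthBM) {c : ℝ → ℝ}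
    (hc : Integrable c orthN) (h : ∀ᵐ σ ∂orthN, ∀ᶠ n in atTop, c σ ≤ avN (a σ) n) :
    ∫ σ, c σ ∂orthN ≤ orthM U (fun t => ∫ σ, a σ t ∂orthN) := by
  have := orthM_fatou hU (orthBM.smul_mem (-1) ha) (hc.const_mul (-1)) (by
    filter_upwards [h] with σ hσ
    filter_upwards [hσ] with n hn
    have : avN (((-1 : ℝ) • a) σ) n = -1 * avN (a σ) n := orth_avN_mul (-1) (a σ) n
    linarith)
  simp only [Pi.smul_apply, smul_eq_mul, integral_const_mul] at this
  rw [orthM_mul _ (orthBM_int ha)] at this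
  linarith

/-- the space of families with the semi-inner product given by the mean along `U` -/
def OrthV (_U : Ultrafilter ℕ) : Type := orthBM

noncomputable instance orthV_acg : AddCommGroup (OrthV U) := inferInstanceAs (AddCommGroup orthBM)

noncomputable instance orthV_mod : Module ℝ (OrthV U) := inferInstanceAs (Module ℝ orthBM)

/-- the underlying family -/
def OrthV.fn (x : OrthV U) : ℝ → ℝ → ℝ := Subtype.val x

lemma OrthV.mem (x : OrthV U) : x.fn ∈ orthBM := Subtype.property x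

/-- a family as an element of the space -/
def orthMk (U : Ultrafilter ℕ) (a : ℝ → ℝ → ℝ) (ha : a ∈ orthBM) : OrthV U := Subtype.mk a ha

@[simp] lemma orthMk_fn {a : ℝ → ℝ → ℝ} (ha : a ∈ orthBM) : (orthMk U a ha).fn = a := rfl

lemma OrthV.ext {x y : OrthV U} (h : ∀ σ t, x.fn σ t = y.fn σ t) : x = y :=
  Subtype.ext (funext fun σ => funext (h σ))

@[simp] lemma orthV_add (x y : OrthV U) (σ t : ℝ) : (x + y).fn σ t = x.fn σ t + y.fn σ t := rfl

@[simp] lemma orthV_sub (x y : OrthV U) (σ t : ℝ) : (x - y).fn σ t = x.fn σ t - y.fn σ t := rfl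

@[simp] lemma orthV_smul (r : ℝ) (x : OrthV U) (σ t : ℝ) : (r • x).fn σ t = r * x.fn σ t := rfl

@[simp] lemma orthV_zero (σ t : ℝ) : (0 : OrthV U).fn σ t = 0 := rfl

lemma orthV_sum {ι : Type} (s : Finset ι) (x : ι → OrthV U) (σ t : ℝ) :
    (∑ i ∈ s, x i).fn σ t = ∑ i ∈ s, (x i).fn σ t := by
  classical
  induction s using Finset.induction_on with
  | empty => simp
  | insert i s hi ih => rw [Finset.sum_insert hi, Finset.sum_insert hi, orthV_add, ih]

noncomputable instance orthV_core : PreInnerProductSpace.Core ℝ (OrthV U) where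
  inner x y := orthM U fun t => ∫ σ, x.fn σ t * y.fn σ t ∂orthN
  conj_inner_symm x y := by simp only [conj_trivial, mul_comm]
  re_inner_nonneg x := orthM_nonneg (orthBM_int (orthBM_mul x.mem x.mem)) fun t =>
    integral_nonneg fun σ => mul_self_nonneg _
  add_left x y z := by
    rw [← orthM_add (orthBM_int (orthBM_mul x.mem z.mem)) (orthBM_int (orthBM_mul y.mem z.mem))]
    congr 1
    funext t
    simp only [orthV_add, add_mul]
    exact integral_add (orthBM_sec (orthBM_mul x.mem z.mem) t).int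
      (orthBM_sec (orthBM_mul y.mem z.mem) t).int
  smul_left x y r := by
    simp only [orthV_smul, mul_assoc, integral_const_mul, conj_trivial]
    exact orthM_mul r (orthBM_int (orthBM_mul x.mem y.mem))

noncomputable instance orthV_sn : SeminormedAddCommGroup (OrthV U) :=
  InnerProductSpace.Core.toSeminormedAddCommGroup (𝕜 := ℝ)

noncomputable instance orthV_ip : InnerProductSpace ℝ (OrthV U) :=
  InnerProductSpace.ofCore orthV_core

lemma orth_inner (x y : OrthV U) :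
    inner ℝ x y = orthM U fun t => ∫ σ, x.fn σ t * y.fn σ t ∂orthN := rfl

lemma orth_norm_sq (x : OrthV U) :
    ‖x‖ ^ 2 = orthM U fun t => ∫ σ, x.fn σ t ^ 2 ∂orthN := by
  rw [← real_inner_self_eq_norm_sq, orth_inner]
  simp only [sq]

lemma orthBM_sq (x : OrthV U) : (fun σ t => x.fn σ t ^ 2) ∈ orthBM := by
  simpa only [sq] using orthBM_mul x.mem x.mem

/-- multiplication by a function of the first variable -/
def orthMul (ρ : ℝ → ℝ) (h : OrthBd ρ) : OrthV U →ₗ[ℝ] OrthV U where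
  toFun x := orthMk U (fun σ t => ρ σ * x.fn σ t) (orthBM_mul (orthBM_left h) x.mem)
  map_add' x y := OrthV.ext fun σ t => by simp [mul_add]
  map_smul' r x := OrthV.ext fun σ t => by simp [mul_left_comm]

@[simp] lemma orthMul_fn {ρ : ℝ → ℝ} (h : OrthBd ρ) (x : OrthV U) (σ t : ℝ) :
    (orthMul ρ h x).fn σ t = ρ σ * x.fn σ t := rfl

lemma orthMul_inner {ρ : ℝ → ℝ} (h : OrthBd ρ) (x y : OrthV U) :
    inner ℝ (orthMul ρ h x) y = inner ℝ x (orthMul ρ h y) := by
  simp only [orth_inner, orthMul_fn, mul_assoc, mul_left_comm]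

lemma orthMul_cont {ρ : ℝ → ℝ} (h : OrthBd ρ) : Continuous (orthMul (U := U) ρ h) := by
  obtain ⟨M, hM⟩ := h.2
  have hM0 : 0 ≤ M := (abs_nonneg _).trans (hM 0)
  refine AddMonoidHomClass.continuous_of_bound _ M fun x => ?_
  refine (abs_le_of_sq_le_sq' ?_ (mul_nonneg hM0 (norm_nonneg x))).2
  rw [mul_pow, orth_norm_sq, orth_norm_sq, ← orthM_mul _ (orthBM_int (orthBM_sq x))]
  refine orthM_mono (orthBM_int (orthBM_sq _)) ((orthBd_const _).mul (orthBM_int (orthBM_sq x)))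
    fun t => ?_
  rw [← integral_const_mul]
  refine integral_mono (orthBM_sec (orthBM_sq _) t).int
    ((orthBM_sec (orthBM_sq x) t).int.const_mul _) fun σ => ?_
  simp only [orthMul_fn, mul_pow]
  exact mul_le_mul_of_nonneg_right (sq_le_sq' (abs_le.1 (hM σ)).1 (abs_le.1 (hM σ)).2)
    (sq_nonneg _)

/-- translation in the second variable -/
def orthSh (s : ℝ) : OrthV U →ₗ[ℝ] OrthV U where
  toFun x := orthMk U (fun σ t => x.fn σ (t + s))
    ⟨x.mem.1.comp (measurable_fst.prodMk (measurable_snd.add_const s)),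
      x.mem.2.imp fun _ h _ _ => h _ _⟩
  map_add' _ _ := rfl
  map_smul' _ _ := rfl

@[simp] lemma orthSh_fn (s : ℝ) (x : OrthV U) (σ t : ℝ) :
    (orthSh s x).fn σ t = x.fn σ (t + s) := rfl

lemma orthSh_inner (hU : (U : Filter ℕ) ≤ atTop) (s : ℝ) (x y : OrthV U) :
    inner ℝ (orthSh s x) y = inner ℝ x (orthSh (-s) y) := by
  rw [orth_inner, orth_inner, ← orthM_shift hU (orthBM_int (orthBM_mul x.mem (orthSh (-s) y).mem)) s]
  simp

lemma orthSh_norm (hU : (U : Filter ℕ) ≤ atTop) (s : ℝ) (x : OrthV U) : ‖orthSh s x‖ = ‖x‖ := by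
  rw [← sq_eq_sq₀ (norm_nonneg _) (norm_nonneg _), orth_norm_sq, orth_norm_sq,
    ← orthM_shift hU (orthBM_int (orthBM_sq x)) s]
  simp

lemma orthSh_cont (hU : (U : Filter ℕ) ≤ atTop) (s : ℝ) : Continuous (orthSh (U := U) s) :=
  AddMonoidHomClass.continuous_of_bound _ 1 fun x => by rw [orthSh_norm hU, one_mul]

/-- average of translates -/
noncomputable def orthAv (J : ℕ) (T : ℝ) (x : OrthV U) : OrthV U :=
  (J : ℝ)⁻¹ • ∑ i ∈ Finset.range J, orthSh (i * T) x

lemma orthAv_fn (J : ℕ) (T : ℝ) (x : OrthV U) (σ t : ℝ) :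
    (orthAv J T x).fn σ t = (∑ i ∈ Finset.range J, x.fn σ (t + i * T)) / J := by
  simp [orthAv, orthV_sum, div_eq_inv_mul]

lemma orthAv_inner (hU : (U : Filter ℕ) ≤ atTop) (J : ℕ) (T : ℝ) (x y : OrthV U) :
    inner ℝ (orthAv J T x) y = inner ℝ x (orthAv J (-T) y) := by
  simp only [orthAv, inner_smul_left, inner_smul_right, sum_inner, inner_sum, orthSh_inner hU,
    conj_trivial, mul_neg]

lemma orthAv_norm (hU : (U : Filter ℕ) ≤ atTop) (J : ℕ) (T : ℝ) (x : OrthV U) :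
    ‖orthAv J T x‖ ≤ ‖x‖ := by
  rcases Nat.eq_zero_or_pos J with rfl | hJ
  · simp [orthAv]
  have hJ' : (0 : ℝ) < J := by exact_mod_cast hJ
  rw [orthAv, norm_smul, norm_inv, Real.norm_natCast, inv_mul_le_iff₀ hJ']
  refine (norm_sum_le _ _).trans (le_of_eq ?_)
  simp [orthSh_norm hU]

lemma orthAv_mul (J : ℕ) (T : ℝ) {ρ : ℝ → ℝ} (h : OrthBd ρ) (x : OrthV U) :
    orthAv J T (orthMul ρ h x) = orthMul ρ h (orthAv J T x) :=
  OrthV.ext fun σ t => by simp only [orthAv_fn, orthMul_fn, ← Finset.mul_sum, mul_div_assoc]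

/-- near projection onto a subspace of a seminormed inner product space -/
lemma orth_near {V : Type} [SeminormedAddCommGroup V] [InnerProductSpace ℝ V]
    (C : Submodule ℝ V) (b : V) {η : ℝ} (hη : 0 < η) :
    ∃ φ ∈ C, ∀ ψ ∈ closure (C : Set V), |inner ℝ (b - φ) ψ| ≤ η * ‖ψ‖ := by
  have hb : BddBelow (range fun φ : C => ‖b - φ‖ ^ 2) := ⟨0, by rintro _ ⟨φ, rfl⟩; positivity⟩
  obtain ⟨φ, hφ⟩ := exists_lt_of_ciInf_lt (f := fun φ : C => ‖b - φ‖ ^ 2)
    (lt_add_of_pos_right _ (pow_pos hη 2))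
  refine ⟨φ, φ.2, fun ψ hψ => ?_⟩
  refine closure_minimal (s := (C : Set V)) (t := {ψ | |inner ℝ (b - φ) ψ| ≤ η * ‖ψ‖})
    (fun ψ hψ => ?_) (isClosed_le (by fun_prop) (by fun_prop)) hψ
  have h : ∀ r : ℝ, 0 ≤ ‖ψ‖ ^ 2 * (r * r) + -2 * inner ℝ (b - φ) ψ * r + η ^ 2 := fun r => by
    have h1 := ciInf_le hb ⟨φ + r • ψ, C.add_mem φ.2 (C.smul_mem r hψ)⟩
    simp only [← sub_sub] at h1
    rw [norm_sub_sq_real, inner_smul_right, norm_smul, mul_pow, Real.norm_eq_abs, sq_abs] at h1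
    nlinarith
  have := discrim_le_zero h
  rw [discrim] at this
  have h2 : (inner ℝ (b - φ) ψ) ^ 2 ≤ (η * ‖ψ‖) ^ 2 := by nlinarith
  exact abs_le_of_sq_le_sq h2 (by positivity)

end Pool.Agent.MP_d0b2d2_an.Gen
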