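import Pool.Agent.MP_d0b2d2_an.Gen.Dec
import Pool.Agent.MP_d0b2d2_an.Gen.Count

open Set Filter Topology

namespace Pool.Agent.MP_d0b2d2_an.Gen.ResData

variable {ρ : ℕ} {V : Type} [NormedAddCommGroup V] [InnerProductSpace ℝ V] (D : ResData ρ V)

lemma pot_tl_cst (x : Fin (ρ + 1) → ℤ) : tl ρ (cst x) = cst (fun i => x i.succ) := rfl

/-- nonzero integer vectors are not too short at thick nodes -/
lemma pot_low : ∃ c₁ > (0 : ℝ), c₁ ≤ 1 ∧ ∀ σ k δ, 0 < δ → δ ≤ 1 → D.th σ k δ →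
    ∀ a b s : ℝ, 0 < s → s ≤ 1 → s ≤ a → s ≤ b → ∀ τ ξ, ∀ x : Fin (ρ + 1) → ℤ, x ≠ 0 →
    s * δ ^ 2 * c₁ ≤ ‖D.LL σ k a b τ ξ (cst x)‖ := by
  obtain ⟨C, hC, hlow⟩ := D.low
  refine ⟨min 1 (1 / (2 * C)), lt_min one_pos (by positivity), min_le_left _ _, ?_⟩
  intro σ k δ hδ hδ1 hth a b s hs hs1 hsa hsb τ ξ x hx
  have hn := D.norm_LL_sq σ k a b τ ξ (cst x)
  have hm0 : 0 < min 1 (1 / (2 * C)) := lt_min one_pos (by positivity)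
  have hN := norm_nonneg (D.LL σ k a b τ ξ (cst x))
  by_cases hu : (fun i : Fin ρ => x i.succ) = 0
  · have hx0 : x 0 ≠ 0 := by
      intro h0
      apply hx
      funext i
      refine Fin.cases h0 (fun j => ?_) i
      exact congrFun hu j
    have h1 : (1 : ℝ) ≤ |(x 0 : ℝ)| := by
      have := Int.one_le_abs hx0
      exact_mod_cast this
    have ht : tl ρ (cst x) = 0 := by
      rw [pot_tl_cst, hu]
      funext i
      simp [cst]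
    have he : D.ell τ ξ (cst x) = -(x 0 : ℝ) := by
      simp [ell, ho, ht, dot, cst]
    have h2 : |b * D.ell τ ξ (cst x)| ≤ ‖D.LL σ k a b τ ξ (cst x)‖ := by
      refine abs_le_of_sq_le_sq' ?_ hN |> abs_le.2
      rw [hn]
      nlinarith [sq_nonneg ‖D.A σ k (tl ρ (cst x))‖, sq_nonneg (a * ‖zm σ k (D.ho (cst x))‖)]
    rw [he, abs_mul, abs_neg, abs_of_pos (hs.trans_le hsb)] at h2
    have h3 : δ ^ 2 * min 1 (1 / (2 * C)) ≤ 1 :=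
      mul_le_one₀ (pow_le_one₀ hδ.le hδ1) hm0.le (min_le_left _ _)
    calc s * δ ^ 2 * min 1 (1 / (2 * C)) = s * (δ ^ 2 * min 1 (1 / (2 * C))) := by ring
      _ ≤ s * 1 := by gcongr
      _ ≤ b * |(x 0 : ℝ)| := by
        have : 0 ≤ b := (hs.trans_le hsb).le
        gcongr
      _ ≤ _ := h2
  · have h1 := hlow σ k δ hδ hδ1 hth _ hu
    rw [← pot_tl_cst] at h1
    have hX := norm_nonneg (D.A σ k (tl ρ (cst x)))
    have hY := norm_nonneg (zm σ k (D.ho (cst x)))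
    have h2 : ‖D.A σ k (tl ρ (cst x))‖ ≤ ‖D.LL σ k a b τ ξ (cst x)‖ := by
      refine (abs_le_of_sq_le_sq' ?_ hN).2
      rw [hn]
      nlinarith [sq_nonneg (b * D.ell τ ξ (cst x)), sq_nonneg (a * ‖zm σ k (D.ho (cst x))‖)]
    have h3 : a * ‖zm σ k (D.ho (cst x))‖ ≤ ‖D.LL σ k a b τ ξ (cst x)‖ := by
      refine (abs_le_of_sq_le_sq' ?_ hN).2
      rw [hn]
      nlinarith [sq_nonneg (b * D.ell τ ξ (cst x)), sq_nonneg ‖D.A σ k (tl ρ (cst x))‖]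
    have h4 : s * (‖D.A σ k (tl ρ (cst x))‖ + ‖zm σ k (D.ho (cst x))‖) ≤
        2 * ‖D.LL σ k a b τ ξ (cst x)‖ := by
      have := mul_le_mul_of_nonneg_right hs1 hX
      have := mul_le_mul_of_nonneg_right hsa hY
      linarith
    change δ ^ 2 ≤ C * (‖D.A σ k (tl ρ (cst x))‖ + ‖zm σ k (D.ho (cst x))‖) at h1
    calc s * δ ^ 2 * min 1 (1 / (2 * C)) ≤
          s * (C * (‖D.A σ k (tl ρ (cst x))‖ + ‖zm σ k (D.ho (cst x))‖)) * (1 / (2 * C)) := by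
          gcongr
          exact min_le_right _ _
      _ = s * (‖D.A σ k (tl ρ (cst x))‖ + ‖zm σ k (D.ho (cst x))‖) / 2 := by field_simp
      _ ≤ _ := by linarith

lemma pot_cov_low : ∃ c > (0 : ℝ), ∀ σ k δ, 0 < δ → δ ≤ 1 → D.th σ k δ →
    ∀ a b s : ℝ, 0 < s → s ≤ 1 → s ≤ a → s ≤ b → ∀ τ ξ, ∀ W : Lat ρ,
    c * (s * δ ^ 2) ^ (ρ + 1) ≤ cov (D.LL σ k a b τ ξ) W := by
  obtain ⟨c₁, hc₁, hc₁', h⟩ := D.pot_low
  obtain ⟨c, hc, hcov⟩ := cov_lower (ρ + 1)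
  refine ⟨c * c₁ ^ (ρ + 1), by positivity, ?_⟩
  intro σ k δ hδ hδ1 hth a b s hs hs1 hsa hsb τ ξ W
  have := hcov _ (D.LL σ k a b τ ξ) (s * δ ^ 2 * c₁) (by positivity)
    (mul_le_one₀ (mul_le_one₀ hs1 (by positivity) (pow_le_one₀ hδ.le hδ1)) hc₁.le hc₁')
    (h σ k δ hδ hδ1 hth a b s hs hs1 hsa hsb τ ξ) W
  calc c * c₁ ^ (ρ + 1) * (s * δ ^ 2) ^ (ρ + 1) = c * (s * δ ^ 2 * c₁) ^ (ρ + 1) := by
        rw [mul_pow (s * δ ^ 2)]; ring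
    _ ≤ _ := this

/-- lower bound for covolumes at nodes that are `exp (-√r)`-thick -/
theorem cv_lower : ∃ C ≥ (1 : ℝ), ∀ r ≥ (1 : ℝ), ∀ σ k, D.th σ k (Real.exp (-√r)) →
    ∀ b ≥ (1 : ℝ), ∀ τ ξ, ∀ W : Lat ρ, Real.exp (-(C * √r)) ≤ cov (D.LL σ k 1 b τ ξ) W := by
  obtain ⟨c, hc, h⟩ := D.pot_cov_low
  have hρ : (0 : ℝ) ≤ ρ := Nat.cast_nonneg ρ
  refine ⟨2 * (ρ + 1) + |Real.log c|, by linarith [abs_nonneg (Real.log c)], ?_⟩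
  intro r hr σ k hth b hb τ ξ W
  have hs : 1 ≤ √r := Real.one_le_sqrt.2 hr
  have h1 := h σ k _ (Real.exp_pos _) (Real.exp_le_one_iff.2 (by linarith)) hth 1 b 1 one_pos
    le_rfl le_rfl hb τ ξ W
  refine le_trans ?_ h1
  rw [one_mul, ← Real.exp_nat_mul, ← Real.exp_nat_mul]
  conv_rhs => rw [← Real.exp_log hc, ← Real.exp_add]
  rw [Real.exp_le_exp]
  push_cast
  nlinarith [neg_abs_le (Real.log c), abs_nonneg (Real.log c)]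

theorem cov_pos (σ : ℝ) (k : ℕ) {a b : ℝ} (ha : 0 < a) (hb : 0 < b) (τ ξ : ℝ) :
    ∃ c > 0, ∀ W : Lat ρ, c ≤ cov (D.LL σ k a b τ ξ) W := by
  obtain ⟨c, hc, h⟩ := D.pot_cov_low
  obtain ⟨δ, hδ, hth⟩ := D.pos σ k
  have hδ' : 0 < min δ 1 := lt_min hδ one_pos
  have hs : 0 < min 1 (min a b) := lt_min one_pos (lt_min ha hb)
  exact ⟨_, by positivity, h σ k (min δ 1) hδ' (min_le_right _ _)
    (D.thM σ k δ _ (min_le_left _ _) hth) a b (min 1 (min a b)) hs (min_le_left _ _)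
    ((min_le_right _ _).trans (min_le_left _ _)) ((min_le_right _ _).trans (min_le_right _ _)) τ ξ⟩

lemma pot_cov_pos (σ : ℝ) (k : ℕ) {a b : ℝ} (ha : 0 < a) (hb : 0 < b) (τ ξ : ℝ) (W : Lat ρ) :
    0 < cov (D.LL σ k a b τ ξ) W := by
  obtain ⟨c, hc, h⟩ := D.cov_pos σ k ha hb τ ξ
  exact hc.trans_le (h W)

lemma pot_exp_neg_le {x : ℝ} (hx : 0 < x) : Real.exp (-x) ≤ 1 / x := by
  rw [Real.exp_neg, one_div]
  exact inv_anti₀ hx (by linarith [Real.add_one_le_exp x])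

theorem nondiv_exp : ∃ C ≥ (1 : ℝ), ∀ r ≥ (1 : ℝ), ∀ k,
    dens k (fun σ => ¬ D.th σ k (Real.exp (-√r))) ≤ C / √r := by
  obtain ⟨C, a, ha, h⟩ := D.nondiv
  refine ⟨max 1 (|C| / a), le_max_left _ _, fun r hr k => ?_⟩
  have hs : 1 ≤ √r := Real.one_le_sqrt.2 hr
  refine (h k _ (Real.exp_pos _)).trans ?_
  rw [← Real.exp_mul]
  have h1 : Real.exp (-√r * a) ≤ 1 / (√r * a) := by
    rw [neg_mul]
    exact pot_exp_neg_le (by positivity)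
  calc C * Real.exp (-√r * a) ≤ |C| * (1 / (√r * a)) := by
        gcongr
        exact le_abs_self C
    _ = |C| / a / √r := by field_simp
    _ ≤ _ := by
        gcongr
        exact le_max_right _ _

variable {P : Pot ρ}

theorem uu_le_UU (ha : 0 < P.a) (hb : 0 < P.b) (σ : ℝ) (k : ℕ) {W : Lat ρ} (hW : W ∈ P.Adm) :
    D.uu P σ k W ≤ D.UU P σ k := by
  obtain ⟨c, hc, h⟩ := D.cov_pos σ k ha hb σ P.ξ
  refine le_trans (le_csSup ⟨∑ m ∈ Finset.range (ρ + 2), |P.β m| - Real.log c, ?_⟩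
    (mem_image_of_mem _ hW)) (le_max_right _ _)
  rintro _ ⟨W', -, rfl⟩
  have h1 : |P.β (rk W')| ≤ ∑ m ∈ Finset.range (ρ + 2), |P.β m| :=
    Finset.single_le_sum (f := fun m => |P.β m|) (fun _ _ => abs_nonneg _)
      (Finset.mem_range.2 (Nat.lt_succ_of_le (rk_le W')))
  have h2 : Real.log c ≤ Real.log (D.cv σ k P.a P.b P.ξ W') := Real.log_le_log hc (h W')
  unfold uu
  linarith [le_abs_self (P.β (rk W'))]

theorem le_UU (σ : ℝ) (k : ℕ) : P.Γ ≤ D.UU P σ k := le_max_left _ _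

theorem UU_le (hΓ : 0 ≤ P.Γ) (σ : ℝ) (k : ℕ) {x : ℝ} (hx : P.Γ ≤ x)
    (h : ∀ W ∈ P.Adm, D.uu P σ k W ≤ x) : D.UU P σ k ≤ x := by
  refine max_le hx (Real.sSup_le ?_ (hΓ.trans hx))
  rintro _ ⟨W, hW, rfl⟩
  exact h W hW

lemma pot_lipD (σ : ℝ) (k B : ℕ) (u : Fin ρ → ℝ) : ‖D.A σ k u‖ ≤ 2 ^ B * ‖D.A σ (k + B) u‖ := by
  induction B with
  | zero => simp
  | succ B ih =>
    calc ‖D.A σ k u‖ ≤ 2 ^ B * ‖D.A σ (k + B) u‖ := ih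
      _ ≤ 2 ^ B * (2 * ‖D.A σ (k + B + 1) u‖) := by
        gcongr
        exact D.lipD σ (k + B) u
      _ = 2 ^ (B + 1) * ‖D.A σ (k + (B + 1)) u‖ := by rw [pow_succ, add_assoc, mul_assoc]

lemma pot_zm_le {σ₀ σ : ℝ} {k : ℕ} (B : ℕ) (hσ : |σ - σ₀| ≤ 1 / 4 ^ k) (y : ℂ) :
    ‖zm σ₀ k y‖ ≤ 2 * 2 ^ B * ‖zm σ (k + B) y‖ := by
  have h1 := norm_zm_shear (σ := σ) (σ' := σ₀) (k := k) (by rwa [abs_sub_comm]) y
  have h2 := (norm_zm_add_le σ k B y).2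
  linarith

/-- changing the direction in the resonance functional inside a window -/
lemma pot_ell {a b ξ σ₀ σ : ℝ} {k B : ℕ} (hb : 0 < b) (hξ : 0 ≤ ξ) (h0 : |σ₀| ≤ 1)
    (hσ : |σ - σ₀| ≤ 1 / 4 ^ k) (hf : 4 * ξ * b * 2 ^ B ≤ a * 8 ^ k) (x : Fin (ρ + 1) → ℝ) :
    (b * D.ell σ₀ ξ x) ^ 2 ≤ 2 * (b * D.ell σ ξ x) ^ 2 + 2 * (a * ‖zm σ (k + B) (D.ho x)‖) ^ 2 := by
  have h1 := dot_ed_flat h0 hσ (D.ho x)
  have h2 := pot_zm_le B hσ (D.ho x)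
  have h8 : (0 : ℝ) < 8 ^ k := by positivity
  have hY := norm_nonneg (zm σ (k + B) (D.ho x))
  have h3 : |b * D.ell σ ξ x - b * D.ell σ₀ ξ x| ≤ a * ‖zm σ (k + B) (D.ho x)‖ := by
    have : b * D.ell σ ξ x - b * D.ell σ₀ ξ x =
        b * ξ * (dot (D.ho x) (ed σ) - dot (D.ho x) (ed σ₀)) := by
      unfold ell
      ring
    rw [this, abs_mul, abs_of_nonneg (mul_nonneg hb.le hξ)]
    calc b * ξ * |dot (D.ho x) (ed σ) - dot (D.ho x) (ed σ₀)| ≤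
          b * ξ * (2 / 8 ^ k * (2 * 2 ^ B * ‖zm σ (k + B) (D.ho x)‖)) := by
          have := mul_nonneg hb.le hξ
          gcongr
          exact h1.trans (by gcongr)
      _ = (4 * ξ * b * 2 ^ B) / 8 ^ k * ‖zm σ (k + B) (D.ho x)‖ := by ring
      _ ≤ a * ‖zm σ (k + B) (D.ho x)‖ := by
          gcongr
          rwa [div_le_iff₀ h8]
  have h4 := sq_le_sq' (abs_le.1 h3).1 (abs_le.1 h3).2
  nlinarith [sq_nonneg (2 * (b * D.ell σ ξ x) - b * D.ell σ₀ ξ x)]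

lemma pot_log_cov {V' : Type} [NormedAddCommGroup V'] [InnerProductSpace ℝ V']
    (L L' : (Fin (ρ + 1) → ℝ) →ₗ[ℝ] V') (W : Lat ρ) (n : ℕ) (h0 : 0 < cov L W) (h1 : 0 < cov L' W)
    (h : ∀ x, ‖L x‖ ≤ 2 ^ n * ‖L' x‖) :
    Real.log (cov L W) ≤ Real.log (cov L' W) + (ρ + 1) * n := by
  have h2 := cov_le_of_norm_le L L' W (l := 2 ^ n) (by positivity) fun x _ => h x
  have h3 := Real.log_le_log h0 h2
  rw [Real.log_mul (by positivity) h1.ne', Real.log_pow, Real.log_pow] at h3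
  have h4 : (rk W : ℝ) ≤ ρ + 1 := by exact_mod_cast rk_le W
  have h5 : Real.log 2 ≤ 1 := by linarith [Real.log_le_sub_one_of_pos (x := 2) two_pos]
  have h6 : 0 ≤ Real.log 2 := Real.log_nonneg one_le_two
  have h7 : (rk W : ℝ) * (n * Real.log 2) ≤ (ρ + 1) * (n * 1) := by gcongr
  linarith

/-- deterministic rise over a block -/
theorem step_det (ha : 0 < P.a) (hb : 0 < P.b) (hξ : 0 ≤ P.ξ) {σ₀ σ : ℝ} {k B : ℕ}
    (h0 : |σ₀| ≤ 1) (hσ : |σ - σ₀| ≤ 1 / 4 ^ k) (hf : 4 * P.ξ * P.b * 2 ^ B ≤ P.a * 8 ^ k)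
    (W : Lat ρ) : D.uu P σ (k + B) W ≤ D.uu P σ₀ k W + (ρ + 1) * (B + 2) := by
  have h := pot_log_cov (D.LL σ₀ k P.a P.b σ₀ P.ξ) (D.LL σ (k + B) P.a P.b σ P.ξ) W (B + 2)
    (D.pot_cov_pos _ _ ha hb _ _ W) (D.pot_cov_pos _ _ ha hb _ _ W) fun x => by
      refine (abs_le_of_sq_le_sq' ?_ (by positivity)).2
      rw [mul_pow, norm_LL_sq, norm_LL_sq]
      have h1 := D.pot_ell hb hξ h0 hσ hf x
      have h2 := pot_zm_le B hσ (D.ho x)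
      have h3 : ‖D.A σ₀ k (tl ρ x)‖ ≤ 2 * 2 ^ B * ‖D.A σ (k + B) (tl ρ x)‖ := by
        have := D.lipS σ σ₀ k (tl ρ x) (by rwa [abs_sub_comm])
        have := D.pot_lipD σ k B (tl ρ x)
        linarith
      have h4 : (P.a * ‖zm σ₀ k (D.ho x)‖) ^ 2 ≤
          (2 * 2 ^ B) ^ 2 * (P.a * ‖zm σ (k + B) (D.ho x)‖) ^ 2 := by
        rw [← mul_pow]
        refine pow_le_pow_left₀ (by positivity) ?_ 2
        calc P.a * ‖zm σ₀ k (D.ho x)‖ ≤ P.a * (2 * 2 ^ B * ‖zm σ (k + B) (D.ho x)‖) := by gcongr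
          _ = _ := mul_left_comm _ _ _
      have h5 : ‖D.A σ₀ k (tl ρ x)‖ ^ 2 ≤ (2 * 2 ^ B) ^ 2 * ‖D.A σ (k + B) (tl ρ x)‖ ^ 2 := by
        rw [← mul_pow]
        gcongr
      have h6 : (1 : ℝ) ≤ (2 ^ B) ^ 2 := one_le_pow₀ (one_le_pow₀ one_le_two)
      have h7 : ((2 : ℝ) ^ (B + 2)) ^ 2 = 16 * (2 ^ B) ^ 2 := by ring
      have h8 : ((2 : ℝ) * 2 ^ B) ^ 2 = 4 * (2 ^ B) ^ 2 := by ring
      rw [h7]
      rw [h8] at h4 h5
      generalize ((2 : ℝ) ^ B) ^ 2 = t at *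
      have hX := sq_nonneg ‖D.A σ (k + B) (tl ρ x)‖
      have hY := sq_nonneg (P.a * ‖zm σ (k + B) (D.ho x)‖)
      have hZ := sq_nonneg (P.b * D.ell σ P.ξ x)
      generalize ‖D.A σ (k + B) (tl ρ x)‖ ^ 2 = X at *
      generalize (P.a * ‖zm σ (k + B) (D.ho x)‖) ^ 2 = Y at *
      generalize (P.b * D.ell σ P.ξ x) ^ 2 = Z at *
      nlinarith [mul_le_mul_of_nonneg_right h6 hX, mul_le_mul_of_nonneg_right h6 hY,
        mul_le_mul_of_nonneg_right h6 hZ]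
  unfold uu cv
  push_cast at h
  linarith

/-- a fixed sublattice rarely rises -/
theorem step_prob : ∃ C ≥ (1 : ℝ), ∀ P : Pot ρ, 0 < P.a → 0 < P.b → 0 ≤ P.ξ →
    ∀ (σ₀ : ℝ) (k B : ℕ), |σ₀| ≤ 1 → 4 * P.ξ * P.b * 2 ^ B ≤ P.a * 8 ^ k → ∀ (W : Lat ρ) (κ E : ℝ),
    0 < κ → κ ≤ 1 →
    dens B (fun τ => D.uu P σ₀ k W + E < D.uu P (σ₀ + τ / 4 ^ k) (k + B) W) ≤
      C * Real.exp (C * κ ^ 2 * B - 2 * κ * (E - (ρ + 1))) := by
  choose Cm hCm hnc using D.nc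
  have hle : ∀ m ≤ ρ + 1, Cm m ≤ ∑ m ∈ Finset.range (ρ + 2), Cm m := fun m hm =>
    Finset.single_le_sum (f := Cm) (fun i _ => zero_le_one.trans (hCm i))
      (Finset.mem_range.2 (Nat.lt_succ_of_le hm))
  refine ⟨∑ m ∈ Finset.range (ρ + 2), Cm m, (hCm 0).trans (hle 0 (Nat.zero_le _)), ?_⟩
  intro P ha hb hξ σ₀ k B h0 hf W κ E hκ hκ1
  obtain ⟨w, c, hw⟩ := D.cov_sq W P.b σ₀ P.ξ
  have hg : ∀ σ k, 0 < gramD D.hol D.A w P.a c σ k := fun σ k => by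
    rw [← hw]
    exact pow_pos (D.pot_cov_pos _ _ ha hb _ _ W) 2
  have h1 := (hnc (rk W) w P.a c σ₀ k B κ hκ hκ1 (hg _ _)).2
  have hg0 : 0 < gramD D.hol D.A w P.a c σ₀ k ^ (-κ) := Real.rpow_pos_of_pos (hg _ _) _
  have h2 := dens_markov (m := B)
    (f := fun τ => gramD D.hol D.A w P.a c (σ₀ + τ / 4 ^ k) (k + B) ^ (-κ))
    (fun τ => (Real.rpow_pos_of_pos (hg _ _) _).le)
    (t := Real.exp (2 * κ * (E - (ρ + 1))) * gramD D.hol D.A w P.a c σ₀ k ^ (-κ))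
    (by positivity) h1
  refine le_trans (dens_mono fun j hj hE => ?_) (h2.trans ?_)
  · have h4 : (0 : ℝ) < 4 ^ k := by positivity
    have hj' : (j : ℝ) / 4 ^ B ≤ 1 := by
      rw [div_le_one (by positivity)]
      exact_mod_cast hj.le
    have hσ : |σ₀ + (j : ℝ) / 4 ^ B / 4 ^ k - σ₀| ≤ 1 / 4 ^ k := by
      rw [add_sub_cancel_left, abs_of_nonneg (by positivity)]
      gcongr
    generalize σ₀ + (j : ℝ) / 4 ^ B / 4 ^ k = σ at *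
    have h := pot_log_cov (D.LL σ (k + B) P.a P.b σ₀ P.ξ) (D.LL σ (k + B) P.a P.b σ P.ξ) W 1
      (D.pot_cov_pos _ _ ha hb _ _ W) (D.pot_cov_pos _ _ ha hb _ _ W) fun x => by
        refine (abs_le_of_sq_le_sq' ?_ (by positivity)).2
        rw [mul_pow, norm_LL_sq, norm_LL_sq]
        have h1 := D.pot_ell hb hξ h0 hσ hf x
        nlinarith [sq_nonneg ‖D.A σ (k + B) (tl ρ x)‖, sq_nonneg (P.a * ‖zm σ (k + B) (D.ho x)‖),
          sq_nonneg (P.b * D.ell σ P.ξ x)]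
    unfold uu cv at hE
    rw [Real.rpow_def_of_pos (hg _ _), Real.rpow_def_of_pos (hg _ _), ← Real.exp_add,
      Real.exp_le_exp, ← hw, ← hw, Real.log_pow, Real.log_pow]
    push_cast at h ⊢
    nlinarith
  · have hC := hle _ (rk_le W)
    have hC1 := hCm (rk W)
    have hC2 : 0 ≤ ∑ m ∈ Finset.range (ρ + 2), Cm m := by linarith
    rw [mul_div_mul_right _ _ hg0.ne', mul_div_assoc, ← Real.exp_sub]
    gcongr

lemma pot_grid_abs {k j : ℕ} (hj : j < 4 ^ k) : |(j : ℝ) / 4 ^ k| ≤ 1 := by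
  rw [abs_of_nonneg (by positivity), div_le_one (by positivity)]
  exact_mod_cast hj.le

lemma pot_quarter {r : ℝ} (hr : 1 ≤ r) : ∃ q : ℝ, 1 ≤ q ∧ r ^ (1 / 4 : ℝ) = q ∧ √r = q ^ 2 ∧
    r ^ (3 / 4 : ℝ) = q ^ 3 ∧ r = q ^ 4 := by
  have h0 : 0 ≤ r := zero_le_one.trans hr
  refine ⟨r ^ (1 / 4 : ℝ), Real.one_le_rpow hr (by norm_num), rfl, ?_, ?_, ?_⟩
  · rw [← Real.rpow_natCast, ← Real.rpow_mul h0, Real.sqrt_eq_rpow]
    norm_num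
  · rw [← Real.rpow_natCast, ← Real.rpow_mul h0]
    norm_num
  · rw [← Real.rpow_natCast, ← Real.rpow_mul h0]
    norm_num

/-- choice of the sub-block length at scale `r` -/
theorem pot_scale {γ : ℝ} (hγ : 0 < γ) (hγ' : γ ≤ 1) : ∃ C ≥ (1 : ℝ), ∃ r₀ ≥ (1 : ℝ),
    ∀ r ≥ r₀, ∃ B₀ : ℕ, r / C ≤ B₀ ∧ (B₀ : ℝ) ≤ γ * r ∧ ((ρ : ℝ) + 1) * (B₀ + 2) ≤ γ * r / 2 ∧
    ∀ P : Pot ρ, 0 < P.a → 0 < P.b → 0 ≤ P.ξ → D.Uniq P (Real.exp (-√r)) →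
    ∀ k N : ℕ, k + B₀ ≤ N → 4 * P.ξ * P.b * 2 ^ B₀ ≤ P.a * 8 ^ k →
    dens N (fun σ => D.SB P (r ^ (3 / 4 : ℝ)) B₀ σ k) ≤ C / r ^ (1 / 4 : ℝ) := by
  obtain ⟨C₁, hC₁, hstep⟩ := D.step_prob
  obtain ⟨C₂, hC₂, hnd⟩ := D.nondiv_exp
  have hρ : (0 : ℝ) ≤ ρ := Nat.cast_nonneg ρ
  have hd : (0 : ℝ) < ρ + 1 := by positivity
  obtain ⟨C₃, hC₃⟩ : ∃ C₃, C₃ = C₁ * Real.exp (C₁ + 2 * (ρ + 1)) := ⟨_, rfl⟩
  have hC₃' : 0 ≤ C₃ := by rw [hC₃]; positivity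
  have hC₄ : 0 ≤ 4 * (ρ + 1) / γ := by positivity
  have hC₅ : 0 ≤ (ρ + 2) * C₃ := by positivity
  refine ⟨4 * (ρ + 1) / γ + C₂ + (ρ + 2) * C₃, by linarith, max 1 (12 * (ρ + 1) / γ),
    le_max_left _ _, fun r hr => ?_⟩
  have hr1 : 1 ≤ r := (le_max_left _ _).trans hr
  have hr2 : 12 * (ρ + 1) ≤ r * γ := (div_le_iff₀ hγ).1 ((le_max_right _ _).trans hr)
  obtain ⟨y, hy⟩ : ∃ y, y = γ * r / (2 * (ρ + 1)) := ⟨_, rfl⟩
  have hy' : y * (2 * (ρ + 1)) = γ * r := by rw [hy]; field_simp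
  have hy6 : 6 ≤ y := by rw [hy, le_div_iff₀ (by positivity)]; linarith
  have hf1 : (⌊y⌋₊ : ℝ) ≤ y := Nat.floor_le (by linarith)
  have hf2 : y < ⌊y⌋₊ + 1 := Nat.lt_floor_add_one y
  have hf3 : 2 ≤ ⌊y⌋₊ := Nat.le_floor (by push_cast; linarith)
  obtain ⟨B₀, hB₀⟩ := Nat.exists_eq_add_of_le' hf3
  rw [hB₀] at hf1 hf2
  push_cast at hf1 hf2
  have hB1 : ((ρ : ℝ) + 1) * (B₀ + 2) ≤ γ * r / 2 := by nlinarith
  have hB0 : (0 : ℝ) ≤ B₀ := Nat.cast_nonneg _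
  have hB2 : (B₀ : ℝ) ≤ γ * r := by nlinarith
  refine ⟨B₀, ?_, hB2, hB1, ?_⟩
  · calc r / (4 * (ρ + 1) / γ + C₂ + (ρ + 2) * C₃) ≤ r / (4 * (ρ + 1) / γ) := by
          gcongr
          linarith
      _ = y / 2 := by rw [hy]; field_simp; ring
      _ ≤ B₀ := by linarith
  intro P ha hb hξ hU k N hN hf
  obtain ⟨q, hq1, hq2, hq3, hq4, hq5⟩ := pot_quarter hr1
  have hq0 : 0 < q := by linarith
  have hp : C₁ * Real.exp (C₁ * (1 / q ^ 2) ^ 2 * B₀ - 2 * (1 / q ^ 2) * (q ^ 3 - (ρ + 1))) ≤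
      C₃ / q := by
    have h1 : (1 / q ^ 2) ^ 2 * B₀ ≤ 1 := by
      rw [div_pow, one_pow, ← pow_mul, one_div, inv_mul_le_iff₀ (by positivity), ← hq5]
      nlinarith
    have h2 : 1 / q ^ 2 ≤ 1 := by
      rw [div_le_one (by positivity)]
      exact one_le_pow₀ hq1
    have h3 : 1 / q ^ 2 * q ^ 3 = q := by field_simp
    have h4 : C₁ * (1 / q ^ 2) ^ 2 * B₀ - 2 * (1 / q ^ 2) * (q ^ 3 - (ρ + 1)) ≤
        C₁ + 2 * (ρ + 1) + -q := by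
      have := mul_le_mul_of_nonneg_left h1 (zero_le_one.trans hC₁)
      have := mul_le_mul_of_nonneg_right h2 hd.le
      nlinarith
    calc _ ≤ C₁ * Real.exp (C₁ + 2 * (ρ + 1) + -q) := by gcongr
      _ = C₃ * Real.exp (-q) := by rw [Real.exp_add, hC₃, mul_assoc]
      _ ≤ C₃ * (1 / q) := by
          gcongr
          exact pot_exp_neg_le hq0
      _ = C₃ / q := by ring
  have h := dens_cond' hN (fun σ => D.th σ k (Real.exp (-√r)))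
    (fun s s' => ∃ W ∈ D.Ch P s k, D.uu P s k W + r ^ (3 / 4 : ℝ) < D.uu P s' (k + B₀) W)
    (p := (ρ + 2) * C₃ / q) (by positivity) fun j hj hth => by
      have hW : ∀ m : ℕ, ∃ W₀ : Lat ρ, ∀ W ∈ D.Ch P (j / 4 ^ k) k, rk W = m → W = W₀ := fun m => by
        by_cases hm : ∃ W₀ ∈ D.Ch P (j / 4 ^ k) k, rk W₀ = m
        · obtain ⟨W₀, h1, h2⟩ := hm
          exact ⟨W₀, fun W h3 h4 => hU _ _ hth W h3 W₀ h1 (h4.trans h2.symm)⟩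
        · exact ⟨⊥, fun W h3 h4 => (hm ⟨W, h3, h4⟩).elim⟩
      choose W₀ hW₀ using hW
      refine le_trans (dens_mono (Q := fun τ => ∃ m ∈ Finset.range (ρ + 2),
        D.uu P (j / 4 ^ k) k (W₀ m) + r ^ (3 / 4 : ℝ) <
          D.uu P (j / 4 ^ k + τ / 4 ^ k) (k + B₀) (W₀ m)) ?_) ((dens_exists _ _ _).trans ?_)
      · rintro i - ⟨W, h1, h2⟩
        refine ⟨rk W, Finset.mem_range.2 (Nat.lt_succ_of_le (rk_le W)), ?_⟩
        rw [← hW₀ _ W h1 rfl]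
        exact h2
      · refine (Finset.sum_le_card_nsmul _ _ (C₃ / q) fun m _ => ?_).trans ?_
        · refine le_trans ?_ hp
          rw [hq4]
          exact hstep P ha hb hξ _ k B₀ (pot_grid_abs hj) hf (W₀ m) (1 / q ^ 2) (q ^ 3)
            (by positivity) (by rw [div_le_one (by positivity)]; exact one_le_pow₀ hq1)
        · rw [Finset.card_range, nsmul_eq_mul]
          push_cast
          exact le_of_eq (by ring)
  refine le_trans h ?_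
  have h1 := hnd r hr1 k
  rw [hq2]
  rw [hq3] at h1 ⊢
  have h2 : C₂ / q ^ 2 ≤ C₂ / q := by
    gcongr
    nlinarith
  have h3 : 0 ≤ 4 * (ρ + 1) / γ / q := by positivity
  rw [add_div, add_div]
  linarith

/-- the pathwise block inequalities -/
theorem pot_block (ha : 0 < P.a) (hb : 0 < P.b) (hξ : 0 ≤ P.ξ) {E : ℝ} (hE : 0 ≤ E) {B₀ k : ℕ}
    (hB : ((ρ : ℝ) + 1) * (B₀ + 2) ≤ P.Γ / 2) (hf : 4 * P.ξ * P.b * 2 ^ B₀ ≤ P.a * 8 ^ k)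
    {σ : ℝ} (h0 : 0 ≤ σ) (h1 : σ < 1) (n : ℕ) :
    D.UU P (tr (k + n * B₀) σ) (k + n * B₀) ≤ D.UU P (tr k σ) k + n * (P.Γ / 2) ∧
    ((∀ i < n, ¬ D.SB P E B₀ σ (k + i * B₀)) →
      D.UU P (tr (k + n * B₀) σ) (k + n * B₀) ≤ D.UU P (tr k σ) k + n * E ∧
      (1 ≤ n → ¬ D.NG P (n * B₀) σ k → D.UU P (tr (k + n * B₀) σ) (k + n * B₀) ≤
        max P.Γ (D.UU P (tr k σ) k - P.Γ / 2 + n * E))) := by
  have hΓ : 0 ≤ P.Γ := by
    have : (0 : ℝ) ≤ ((ρ : ℝ) + 1) * (B₀ + 2) := by positivity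
    linarith
  have hi : ∀ i : ℕ, k + (i + 1) * B₀ = k + i * B₀ + B₀ := fun i => by ring
  have h := block P.Adm (fun i W => D.uu P (tr (k + i * B₀) σ) (k + i * B₀) W)
    (fun i => D.UU P (tr (k + i * B₀) σ) (k + i * B₀)) hΓ hE n (fun i => D.le_UU _ _)
    (fun i W hW => D.uu_le_UU ha hb _ _ hW) (fun i x hx h => D.UU_le hΓ _ _ hx h)
    fun i _ W _ => by
      obtain ⟨j, hj, hj'⟩ := tr_mem h0 h1 (k + i * B₀)
      have h2 := abs_tr_sub_tr (Nat.le_add_right (k + i * B₀) B₀) σ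
      have h3 := D.step_det ha hb hξ (σ₀ := tr (k + i * B₀) σ) (σ := tr (k + i * B₀ + B₀) σ)
        (k := k + i * B₀) (B := B₀) (by rw [hj']; exact pot_grid_abs hj)
        (by rw [abs_of_nonneg h2.1]; exact h2.2)
        (hf.trans (by gcongr; exacts [by norm_num, Nat.le_add_right _ _])) W
      simp only [hi]
      linarith
  simp only [zero_mul, add_zero, hi] at h
  refine ⟨h.1, fun hS => ?_⟩
  have h2 := h.2 fun i hi' W hW hW' => not_lt.1 fun hlt => hS i hi' ⟨W, ⟨hW, hW'⟩, hlt⟩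
  exact ⟨h2.1, fun hn hG => h2.2 hn fun W hW hW' => not_lt.1 fun hlt => hG ⟨W, ⟨hW, hW'⟩, hlt⟩⟩

/-- the main estimate for a potential at scale `r` -/
theorem pot_main {γ θ : ℝ} (hγ : 0 < γ) (hγ' : γ ≤ 1) (hθ : 0 < θ) : ∃ C ≥ (1 : ℝ),
    ∃ r₀ ≥ (1 : ℝ), ∀ r ≥ r₀, ∃ B : ℕ, θ * r ≤ B ∧ (B : ℝ) ≤ (θ + γ) * r ∧
    ∀ P : Pot ρ, P.Γ = γ * r → 0 < P.a → 0 < P.b → 0 ≤ P.ξ → D.Uniq P (Real.exp (-√r)) →
    ∀ (K K' N : ℕ) (R p : ℝ) (Ev : ℝ → ℕ → Prop), K ≤ K' → K' + B ≤ N →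
    4 * P.ξ * P.b * 2 ^ B ≤ P.a * 8 ^ K → P.Γ ≤ R → 0 ≤ p →
    (∀ σ k, D.th σ k (Real.exp (-√r)) → ∀ W ∈ P.Adm, D.uu P σ k W ≤ R) →
    (∀ σ k, Ev σ k → 2 * P.Γ ≤ D.UU P (tr k σ) k) →
    (∀ k, K ≤ k → k < K' → dens N (fun σ => Ev σ k ∧ D.NG P B σ k) ≤ p) →
    ∑ k ∈ Finset.Ico K K', dens N (fun σ => Ev σ k) ≤
      C * (((K' : ℝ) - K + B) * (p + 1 / r ^ (1 / 4 : ℝ)) + R) := by
  obtain ⟨C₁, hC₁, r₀, hr₀, hsc⟩ := D.pot_scale hγ hγ'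
  obtain ⟨C₂, hC₂, hnd⟩ := D.nondiv_exp
  obtain ⟨n₀, hn₀⟩ : ∃ n₀, n₀ = θ * C₁ + 1 := ⟨_, rfl⟩
  have hn₀' : 0 ≤ n₀ := by rw [hn₀]; positivity
  have e1 : 0 ≤ (1 + n₀) * n₀ * C₁ := by positivity
  have e2 : 0 ≤ 2 * n₀ / γ := by positivity
  have e3 : 0 ≤ 2 * (θ + γ) / γ := by positivity
  obtain ⟨C, hC⟩ : ∃ C, C = (1 + n₀) + (1 + n₀) * n₀ * C₁ + 2 * n₀ / γ + C₂ + 2 * (θ + γ) / γ :=
    ⟨_, rfl⟩
  refine ⟨C, by linarith, r₀, hr₀, fun r hr => ?_⟩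
  have hr1 : 1 ≤ r := hr₀.trans hr
  have hr0 : 0 < r := by linarith
  obtain ⟨B₀, hB1, hB2, hB3, hSB⟩ := hsc r hr
  have hB0 : (0 : ℝ) < B₀ := lt_of_lt_of_le (by positivity) hB1
  have hB0' : 1 ≤ B₀ := by exact_mod_cast hB0
  obtain ⟨n, hn⟩ : ∃ n, n = ⌈θ * r / B₀⌉₊ := ⟨_, rfl⟩
  have hn1 : θ * r / B₀ ≤ n := by rw [hn]; exact Nat.le_ceil _
  have hn2 : (n : ℝ) < θ * r / B₀ + 1 := by rw [hn]; exact Nat.ceil_lt_add_one (by positivity)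
  have hn3 : 1 ≤ n := by rw [hn]; exact Nat.one_le_ceil_iff.2 (by positivity)
  have hn4 : (n : ℝ) ≤ n₀ := by
    have : θ * r / B₀ ≤ θ * C₁ := by
      rw [div_le_iff₀ (by positivity)] at hB1 ⊢
      nlinarith
    linarith
  have hn5 : ((n * B₀ : ℕ) : ℝ) ≤ (θ + γ) * r := by
    push_cast
    rw [div_add_one hB0.ne', lt_div_iff₀ hB0] at hn2
    linarith
  refine ⟨n * B₀, ?_, hn5, ?_⟩
  · push_cast
    rwa [div_le_iff₀ hB0] at hn1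
  intro P hΓ ha hb hξ hU K K' N R p Ev hK hN hf hR hp hth hEv hNG
  obtain ⟨q, hq1, hq2, hq3, hq4, hq5⟩ := pot_quarter hr1
  have hq0 : 0 < q := by linarith
  have hΓ0 : 0 < P.Γ := by rw [hΓ]; positivity
  have hf' : ∀ k, K ≤ k → 4 * P.ξ * P.b * 2 ^ B₀ ≤ P.a * 8 ^ k := fun k hk =>
    calc 4 * P.ξ * P.b * 2 ^ B₀ ≤ 4 * P.ξ * P.b * 2 ^ (n * B₀) := by
          gcongr
          exacts [by norm_num, Nat.le_mul_of_pos_left _ hn3]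
      _ ≤ P.a * 8 ^ K := hf
      _ ≤ P.a * 8 ^ k := by
          gcongr
          norm_num
  have hE : 0 ≤ r ^ (3 / 4 : ℝ) := by positivity
  have hbl := fun (j : ℕ) (hj : j < 4 ^ N) (k : ℕ) (hk : K ≤ k) =>
    D.pot_block ha hb hξ hE (B₀ := B₀) (k := k) (by rw [hΓ]; exact hB3) (hf' k hk)
      (σ := j / 4 ^ N) (by positivity)
      (by rw [div_lt_one (by positivity)]; exact_mod_cast hj) n
  have h := count_blocks (N := N) (K := K) (K' := K') (B := n * B₀)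
    (Nat.mul_pos hn3 hB0') hK (fun σ k => D.UU P (tr k σ) k) Ev
    (fun σ k => (∃ i ∈ Finset.range n, D.SB P (r ^ (3 / 4 : ℝ)) B₀ σ (k + i * B₀)) ∨
      (Ev σ k ∧ D.NG P (n * B₀) σ k))
    (fun σ k => ¬ D.th (tr k σ) k (Real.exp (-√r))) (G := P.Γ / 2) (e := n * r ^ (3 / 4 : ℝ))
    (Λ := n * (P.Γ / 2)) (R := R) (p := n * (C₁ / r ^ (1 / 4 : ℝ)) + p) (p₀ := C₂ / √r)
    (by positivity) (by positivity) (by positivity) (hΓ0.le.trans hR) (by positivity)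
    (by positivity) (fun σ k => hΓ0.le.trans (D.le_UU _ _))
    (fun j hj k hk _ => (hbl j hj k hk).1)
    (fun j hj k hk _ hB => ((hbl j hj k hk).2 fun i hi hS =>
      hB (Or.inl ⟨i, Finset.mem_range.2 hi, hS⟩)).1)
    (fun j hj k hk _ hB hE' => by
      have h1 := ((hbl j hj k hk).2 fun i hi hS =>
        hB (Or.inl ⟨i, Finset.mem_range.2 hi, hS⟩)).2 hn3 fun hG => hB (Or.inr ⟨hE', hG⟩)
      have h2 := hEv _ _ hE'
      have h3 : 0 ≤ n * r ^ (3 / 4 : ℝ) := by positivity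
      exact h1.trans (max_le (by linarith) (by linarith)))
    (fun j _ k _ _ hB => D.UU_le hΓ0.le _ _ hR (hth _ _ (not_not.1 hB)))
    (fun k hk hk' => by
      refine (dens_or _ _ _).trans (add_le_add ((dens_exists _ _ _).trans ?_) (hNG k hk hk'))
      refine (Finset.sum_le_card_nsmul _ _ (C₁ / r ^ (1 / 4 : ℝ)) fun i hi => ?_).trans ?_
      · have h1 : (i + 1) * B₀ ≤ n * B₀ := Nat.mul_le_mul_right _ (Finset.mem_range.1 hi)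
        rw [add_mul, one_mul] at h1
        exact hSB P ha hb hξ hU _ _ (by omega) (hf' _ (hk.trans (Nat.le_add_right _ _)))
      · rw [Finset.card_range, nsmul_eq_mul])
    (fun k _ hk' => by
      rw [dens_tr (by omega) fun σ => ¬ D.th σ k (Real.exp (-√r))]
      exact hnd r hr1 k)
  refine h.trans ?_
  have hR0 : 0 ≤ R := hΓ0.le.trans hR
  have hKK : (K : ℝ) ≤ K' := by exact_mod_cast hK
  have hL : (0 : ℝ) ≤ (K' : ℝ) - K + (n * B₀ : ℕ) := by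
    have : (0 : ℝ) ≤ (n * B₀ : ℕ) := Nat.cast_nonneg _
    linarith
  have g1 : (n : ℝ) * (P.Γ / 2) / (P.Γ / 2) = n := by field_simp
  have g2 : n * r ^ (3 / 4 : ℝ) / (P.Γ / 2) ≤ 2 * n₀ / γ * (1 / q) := by
    rw [hq4, hΓ]
    calc n * q ^ 3 / (γ * r / 2) ≤ n₀ * q ^ 3 / (γ * r / 2) := by gcongr
      _ = _ := by rw [hq5]; field_simp
  have g3 : C₂ / √r ≤ C₂ * (1 / q) := by
    rw [hq3, mul_one_div]
    gcongr
    nlinarith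
  have g4 : ((n * B₀ : ℕ) : ℝ) * R / (P.Γ / 2) ≤ C * R := by
    calc ((n * B₀ : ℕ) : ℝ) * R / (P.Γ / 2) ≤ (θ + γ) * r * R / (P.Γ / 2) := by gcongr
      _ = 2 * (θ + γ) / γ * R := by rw [hΓ]; field_simp
      _ ≤ C * R := by
          gcongr
          linarith
  have g5 : (n * (C₁ / q) + p) * (1 + n) ≤ (1 + n₀) * n₀ * C₁ * (1 / q) + (1 + n₀) * p := by
    calc (n * (C₁ / q) + p) * (1 + n) ≤ (n₀ * (C₁ / q) + p) * (1 + n₀) := by gcongr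
      _ = _ := by ring
  have g6 : (1 + n₀) * p ≤ C * p := by
    gcongr
    linarith
  have g7 : ((1 + n₀) * n₀ * C₁ + 2 * n₀ / γ + C₂) * (1 / q) ≤ C * (1 / q) := by
    gcongr
    linarith
  rw [g1, hq2, mul_add C, mul_left_comm C]
  refine add_le_add (mul_le_mul_of_nonneg_left ?_ hL) g4
  linarith

end Pool.Agent.MP_d0b2d2_an.Gen.ResData
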