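import Pool.Agent.MP_d0b2d2_an.Gen.Pot

open Set Filter Topology

namespace Pool.Agent.MP_d0b2d2_an.Gen

/-- the second potential at level `r` -/
noncomputable def potII (ρ : ℕ) (κ ξ r : ℝ) : Pot ρ where
  ξ := ξ
  a := Real.exp (-r)
  b := 1
  Γ := gam ρ κ / 4 * r
  β := fun i => κ / 32 / 3 ^ i * r - 2 * r
  Adm := {W | Sat W ∧ eps ρ ∉ W}

lemma potII_gam_pos (ρ : ℕ) {κ : ℝ} (hκ : 0 < κ) : 0 < gam ρ κ := by
  unfold gam; positivity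

lemma potII_gam_le {ρ i : ℕ} {κ : ℝ} (hκ : 0 < κ) (hi : i ≤ ρ + 1) : gam ρ κ ≤ κ / 32 / 3 ^ i :=
  div_le_div_of_nonneg_left (by positivity) (by positivity) (pow_le_pow_right₀ (by norm_num) hi)

lemma potII_le {i : ℕ} {κ : ℝ} (hκ : 0 < κ) : κ / 32 / 3 ^ i ≤ κ / 32 :=
  div_le_self (by positivity) (one_le_pow₀ (by norm_num))

lemma potII_step {p i : ℕ} {κ : ℝ} (hκ : 0 < κ) (h : p < i) :
    3 * (κ / 32 / 3 ^ i) ≤ κ / 32 / 3 ^ p := by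
  have h1 : κ / 32 / 3 ^ i ≤ κ / 32 / 3 ^ (p + 1) :=
    div_le_div_of_nonneg_left (by positivity) (by positivity) (pow_le_pow_right₀ (by norm_num) h)
  have h2 : κ / 32 / 3 ^ p = 3 * (κ / 32 / 3 ^ (p + 1)) := by
    rw [pow_succ]; field_simp
  linarith

namespace ResData

variable {ρ : ℕ} {V : Type} [NormedAddCommGroup V] [InnerProductSpace ℝ V] (D : ResData ρ V)

lemma potII_cv_pos (σ : ℝ) (k : ℕ) {a : ℝ} (ha : 0 < a) (ξ : ℝ) (W : Lat ρ) :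
    0 < D.cv σ k a 1 ξ W := by
  obtain ⟨c, hc, h⟩ := D.cov_pos σ k ha one_pos σ ξ
  exact hc.trans_le (h W)

lemma potII_uu (κ ξ r σ : ℝ) (k : ℕ) (W : Lat ρ) : D.uu (potII ρ κ ξ r) σ k W =
    κ / 32 / 3 ^ rk W * r - 2 * r - Real.log (D.cv σ k (Real.exp (-r)) 1 ξ W) := rfl

lemma potII_low {σ r x ξ : ℝ} {k : ℕ} (hr : 0 ≤ r)
    (h : ∀ W : Lat ρ, Real.exp (-x) ≤ D.cv σ k 1 1 ξ W) (W : Lat ρ) :
    -(2 * r) - x ≤ Real.log (D.cv σ k (Real.exp (-r)) 1 ξ W) := by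
  rw [Real.le_log_iff_exp_le (D.potII_cv_pos σ k (Real.exp_pos _) ξ W)]
  refine le_trans ?_ (D.dec_a2 σ k 1 ξ W (Real.exp_pos _).le
    (Real.exp_le_one_iff.2 (by linarith)))
  rw [show -(2 * r) - x = -r + -r + -x by ring, Real.exp_add, Real.exp_add, ← sq]
  exact mul_le_mul_of_nonneg_left (h W) (sq_nonneg _)

lemma potII_inf {σ r x ξ : ℝ} {k : ℕ} (hr : 0 ≤ r)
    (h : ∀ W : Lat ρ, Real.exp (-x) ≤ D.cv σ k 1 1 ξ W) {W W' : Lat ρ} (hW : Sat W)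
    (hW' : Sat W') : Real.log (D.cv σ k (Real.exp (-r)) 1 ξ (W ⊓ W')) ≤
      Real.log (D.cv σ k (Real.exp (-r)) 1 ξ W) + Real.log (D.cv σ k (Real.exp (-r)) 1 ξ W') +
        2 * r + x := by
  have p := fun W => D.potII_cv_pos σ k (Real.exp_pos (-r)) ξ W
  have h1 : D.cv σ k (Real.exp (-r)) 1 ξ (W ⊓ W') * D.cv σ k (Real.exp (-r)) 1 ξ (sat (W ⊔ W')) ≤
      D.cv σ k (Real.exp (-r)) 1 ξ W * D.cv σ k (Real.exp (-r)) 1 ξ W' := cov_submod _ hW hW'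
  have h2 := Real.log_le_log (mul_pos (p _) (p _)) h1
  rw [Real.log_mul (p _).ne' (p _).ne', Real.log_mul (p _).ne' (p _).ne'] at h2
  linarith [D.potII_low hr h (sat (W ⊔ W'))]

lemma potII_lock {σ r g ξ : ℝ} {k : ℕ} (hr : 0 ≤ r) (hg : 0 ≤ g) {W : Lat ρ}
    (h : D.Lock ξ (g / 20 * r) ((1 - g / 20) * r) σ k W) :
    Real.log (D.cv σ k (Real.exp (-r)) 1 ξ W) ≤ 1 - 2 * r + 3 / 20 * (g * r) := by
  rw [Real.log_le_iff_le_exp (D.potII_cv_pos σ k (Real.exp_pos _) ξ W)]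
  refine (D.dec_g0 h.2.2.2 (Real.exp_pos _).le
    (Real.exp_le_exp.2 (by nlinarith [mul_nonneg hg hr]))).trans ?_
  have h2 : (2 : ℝ) ≤ Real.exp 1 := by linarith [Real.add_one_le_exp 1]
  rw [show 1 - 2 * r + 3 / 20 * (g * r) = 1 + (-((1 - g / 20) * r) + -((1 - g / 20) * r)) +
    g / 20 * r by ring, Real.exp_add, Real.exp_add, Real.exp_add, ← sq]
  exact mul_le_mul (mul_le_mul_of_nonneg_right h2 (sq_nonneg _)) h.2.2.1
    (D.potII_cv_pos σ k one_pos ξ W).le (by positivity)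

/-- structure of the second potential -/
theorem potII_spec {κ : ℝ} (hκ : 0 < κ) (hκ' : κ ≤ 1 / 2) : ∃ C ≥ (1 : ℝ), ∃ r₀ ≥ (1 : ℝ),
    ∀ r ≥ r₀, ∀ ξ,
    D.Uniq (potII ρ κ ξ r) (Real.exp (-√r)) ∧
    (∀ σ k, D.th σ k (Real.exp (-√r)) → ∀ W ∈ (potII ρ κ ξ r).Adm,
      D.uu (potII ρ κ ξ r) σ k W ≤ κ / 16 * r) ∧
    (∀ σ k W, D.Lock ξ (gam ρ κ / 20 * r) ((1 - gam ρ κ / 20) * r) σ k W →
      3 * (potII ρ κ ξ r).Γ ≤ D.UU (potII ρ κ ξ r) σ k ∧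
      (D.th σ k (Real.exp (-√r)) → ∀ W' ∈ D.Ch (potII ρ κ ξ r) σ k, W' ≤ W)) ∧
    ∀ σ k, D.th σ k (Real.exp (-√r)) → ∀ W ∈ D.Ch (potII ρ κ ξ r) σ k,
      D.Deep σ k 1 ξ W 1 ∧ D.cv σ k (Real.exp (-r)) 1 ξ W ≤ Real.exp (κ / 32 * r - 2 * r) := by
  obtain ⟨C, hC, hlow⟩ := D.cv_lower
  have hg := potII_gam_pos ρ hκ
  have hg1 : gam ρ κ ≤ κ / 32 := (potII_gam_le hκ le_rfl).trans (potII_le hκ)
  set g := gam ρ κ with hgd
  refine ⟨1, le_rfl, max 1 (max (10 / g) ((2 * C / g) ^ 2)), le_max_left _ _, fun r hr ξ => ?_⟩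
  have r1 : 1 ≤ r := (le_max_left _ _).trans hr
  have r0 : 0 ≤ r := by linarith
  have r2 : 10 ≤ g * r := by
    have := ((le_max_left _ _).trans (le_max_right _ _)).trans hr
    rw [div_le_iff₀ hg] at this
    linarith
  have r3 : C * √r ≤ g * r / 2 := by
    have h1 : 2 * C / g ≤ √r :=
      Real.le_sqrt_of_sq_le (((le_max_right _ _).trans (le_max_right _ _)).trans hr)
    rw [div_le_iff₀ hg] at h1
    have h2 := Real.mul_self_sqrt r0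
    have h3 := mul_le_mul_of_nonneg_right h1 (Real.sqrt_nonneg r)
    nlinarith
  have r4 : g * r ≤ κ / 32 * r := mul_le_mul_of_nonneg_right hg1 r0
  have r5 : κ / 32 * r ≤ r / 64 := by nlinarith
  have hΓ : (potII ρ κ ξ r).Γ = g / 4 * r := rfl
  have hl : ∀ σ k, D.th σ k (Real.exp (-√r)) → ∀ W : Lat ρ,
      Real.exp (-(C * √r)) ≤ D.cv σ k 1 1 ξ W := fun σ k h W => hlow r r1 σ k h 1 le_rfl σ ξ W
  have hU : ∀ σ k, ∀ W : Lat ρ, Sat W → eps ρ ∉ W →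
      D.uu (potII ρ κ ξ r) σ k W ≤ D.UU (potII ρ κ ξ r) σ k := fun σ k W h1 h2 =>
    D.uu_le_UU (P := potII ρ κ ξ r) (Real.exp_pos _) one_pos σ k ⟨h1, h2⟩
  have hU0 := fun σ k => D.le_UU (P := potII ρ κ ξ r) σ k
  have hrk : ∀ W : Lat ρ, g * r ≤ κ / 32 / 3 ^ rk W * r := fun W =>
    mul_le_mul_of_nonneg_right (potII_gam_le hκ (rk_le W)) r0
  have hrk' : ∀ W : Lat ρ, κ / 32 / 3 ^ rk W * r ≤ κ / 32 * r := fun W =>
    mul_le_mul_of_nonneg_right (potII_le hκ) r0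
  have hst : ∀ W W' : Lat ρ, Sat W → Sat W' → ¬ W ≤ W' →
      3 * (κ / 32 / 3 ^ rk W * r) ≤ κ / 32 / 3 ^ rk (W ⊓ W') * r := fun W W' h1 h2 h => by
    have := mul_le_mul_of_nonneg_right (potII_step hκ
      (rk_lt (h1.inf h2) inf_le_left fun e => h (inf_eq_left.1 e))) r0
    linarith
  refine ⟨fun σ k ht W hW W' hW' he => ?_, fun σ k ht W _ => ?_, fun σ k W hW => ⟨?_, ?_⟩,
    fun σ k ht W hW => ?_⟩
  · by_contra hne
    have hle : ¬ W ≤ W' := fun h => (rk_lt hW.1.1 h hne).ne he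
    have h1 := hU σ k _ (hW.1.1.inf hW'.1.1) fun h => hW.1.2 h.1
    have h2 := D.potII_inf r0 (hl σ k ht) hW.1.1 hW'.1.1
    have h3 := hst W W' hW.1.1 hW'.1.1 hle
    have h4 := hW.2
    have h5 := hW'.2
    have h6 := hU0 σ k
    rw [potII_uu] at h1 h4 h5
    rw [← he] at h5
    rw [hΓ] at h4 h5 h6
    linarith [hrk W]
  · rw [potII_uu]
    linarith [D.potII_low r0 (hl σ k ht) W, hrk' W]
  · have h1 := hU σ k W hW.1 hW.2.1
    rw [potII_uu] at h1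
    rw [hΓ]
    linarith [D.potII_lock r0 hg.le hW, hrk W]
  · intro ht W' hW'
    by_contra hle
    have h1 := hU σ k _ (hW'.1.1.inf hW.1) fun h => hW'.1.2 h.1
    have h2 := D.potII_inf r0 (hl σ k ht) hW'.1.1 hW.1
    have h3 := hst W' W hW'.1.1 hW.1 hle
    have h4 := hW'.2
    rw [potII_uu] at h1 h4
    rw [hΓ] at h4
    linarith [hrk W', D.potII_lock r0 hg.le hW]
  · have h4 := hW.2
    have h6 := hU0 σ k
    rw [potII_uu] at h4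
    have h7 : D.cv σ k (Real.exp (-r)) 1 ξ W ≤ Real.exp (κ / 32 * r - 2 * r) := by
      rw [← Real.log_le_iff_le_exp (D.potII_cv_pos σ k (Real.exp_pos _) ξ W)]
      linarith [hrk' W]
    refine ⟨?_, h7⟩
    by_contra hd
    have h1 := D.dec3 hd (Real.exp_pos (-r)) (Real.exp_le_one_iff.2 (by linarith))
    have h2 : (2 : ℝ) ≤ Real.exp 1 := by linarith [Real.add_one_le_exp 1]
    have h3 : Real.exp (-r + -(C * √r)) ≤ Real.exp (1 + (κ / 32 * r - 2 * r)) := by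
      rw [Real.exp_add, Real.exp_add]
      exact ((mul_le_mul_of_nonneg_left (hl σ k ht W) (Real.exp_pos _).le).trans h1).trans
        (mul_le_mul h2 h7 (D.potII_cv_pos σ k (Real.exp_pos _) ξ W).le (Real.exp_pos _).le)
    rw [Real.exp_le_exp] at h3
    linarith

end ResData

end Pool.Agent.MP_d0b2d2_an.Gen
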