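import Mathlib

open MeasureTheory Set Filter Topology

namespace Pool.Agent.MP_d0b2d2_an.Gen

/-- A translation surface structure on `X`: at every point `x` a local coordinate `ζ = chart x`
centred at `x` and an integer `n = ord x ≥ 1` with `ω = d(ζ ^ n)`; on overlaps the flat
coordinates `ζ ^ n` differ locally by a constant. The cone angle at `x` is `2 π n`. -/
structure TransSurf (X : Type) [TopologicalSpace X] where
  chart : X → OpenPartialHomeomorph X ℂ
  ord : X → ℕ
  ord_pos : ∀ x, 1 ≤ ord x
  mem_source : ∀ x, x ∈ (chart x).source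
  center : ∀ x, chart x x = 0
  compat : ∀ x y, ∀ q ∈ (chart x).source ∩ (chart y).source, ∀ᶠ q' in 𝓝 q,
    chart x q' ^ ord x - chart y q' ^ ord y = chart x q ^ ord x - chart y q ^ ord y

variable {X : Type} [TopologicalSpace X]

/-- `lam` is the flat area measure: the cone points are null and `lam` is Lebesgue measure in
every chart at a regular point. -/
def TransSurf.IsArea [MeasurableSpace X] (S : TransSurf X) (lam : Measure X) : Prop :=
  lam {x | 2 ≤ S.ord x} = 0 ∧ ∀ x, S.ord x = 1 → ∀ A : Set X, MeasurableSet A →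
    A ⊆ (S.chart x).source → lam A = volume (S.chart x '' A)

/-- `γ` is a straight-line trajectory from `p` with velocity `e`, meeting no cone point at
positive times. -/
def TransSurf.IsRay (S : TransSurf X) (p : X) (e : ℂ) (γ : ℝ → X) : Prop :=
  γ 0 = p ∧ ContinuousOn γ (Ici 0) ∧ ∀ t : ℝ, 0 < t → S.ord (γ t) = 1 ∧
    ∀ᶠ s in 𝓝 t, S.chart (γ t) (γ s) = ((s - t : ℝ) : ℂ) * e

/-- `γ` is jointly measurable and `γ θ` is a unit-speed trajectory from `p` in direction `2 π θ`
for almost every `θ ∈ (0, 1)`. -/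
def TransSurf.IsRayFamily [MeasurableSpace X] (S : TransSurf X) (p : X) (γ : ℝ → ℝ → X) : Prop :=
  Measurable (Function.uncurry γ) ∧ ∀ᵐ θ ∂(volume.restrict (Ioo (0 : ℝ) 1)),
    S.IsRay p (Complex.exp (((2 * Real.pi * θ : ℝ) : ℂ) * Complex.I)) (γ θ)

end Pool.Agent.MP_d0b2d2_an.Gen
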