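import Pool.Agent.MP_d0b2d2_an.Gen.GapC
import Pool.Agent.MP_d0b2d2_an.Gen.Low
import Pool.Agent.MP_d0b2d2_an.Gen.NCloc
import Pool.Agent.MP_d0b2d2_an.Gen.NCglob
import Pool.Agent.MP_d0b2d2_an.Gen.Nondiv

open MeasureTheory Set Filter Topology Metric
open scoped ENNReal

namespace Pool.Agent.MP_d0b2d2_an.Gen

section Mean

variable {X : Type} [MeasurableSpace X] {μ : Measure X} [IsProbabilityMeasure μ]

lemma rd_int (u : Lp ℂ 2 μ) : Integrable u μ := (Lp.memLp u).integrable one_le_two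

/-- the mean of a field -/
noncomputable def rdI (μ : Measure X) [IsProbabilityMeasure μ] : Lp ℂ 2 μ →ₗ[ℝ] ℂ where
  toFun u := ∫ x, u x ∂μ
  map_add' u v := by
    rw [← integral_add (rd_int u) (rd_int v)]
    exact integral_congr_ae (Lp.coeFn_add u v)
  map_smul' r u := by
    rw [RingHom.id_apply, ← integral_smul]
    exact integral_congr_ae (Lp.coeFn_smul r u)

lemma rdI_apply (u : Lp ℂ 2 μ) : rdI μ u = ∫ x, u x ∂μ := rfl

/-- the constant fields -/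
noncomputable def rdK (μ : Measure X) [IsProbabilityMeasure μ] : ℂ →ₗ[ℝ] Lp ℂ 2 μ :=
  Lp.constₗ 2 μ ℝ

lemma rdK_ae (c : ℂ) : rdK μ c =ᵐ[μ] fun _ => c := Lp.coeFn_const 2 μ c

lemma rdI_K (c : ℂ) : rdI μ (rdK μ c) = c := by
  rw [rdI_apply, integral_congr_ae (rdK_ae c)]
  simp

lemma rdI_ac (g : ℂ →L[ℝ] ℂ) (u : Lp ℂ 2 μ) : rdI μ ((lpAct μ).ac g u) = g (rdI μ u) := by
  rw [rdI_apply, integral_congr_ae (lpAct_ae g u), rdI_apply]
  exact g.integral_comp_comm (rd_int u)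

lemma rd_ac_K (g : ℂ →L[ℝ] ℂ) (c : ℂ) : (lpAct μ).ac g (rdK μ c) = rdK μ (g c) := Lp.ext (by
  filter_upwards [lpAct_ae g (rdK μ c), rdK_ae (μ := μ) c, rdK_ae (μ := μ) (g c)] with x h1 h2 h3
  rw [h1, h2, h3])

lemma rd_inner_K (u : Lp ℂ 2 μ) (c : ℂ) : inner ℝ u (rdK μ c) = dot (rdI μ u) c := by
  rw [L2.inner_def, ← inner_eq_dot, real_inner_comm, rdI_apply, ← integral_inner (rd_int u)]
  refine integral_congr_ae ?_
  filter_upwards [rdK_ae (μ := μ) c] with x h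
  rw [h, real_inner_comm]

lemma rd_norm_K (c : ℂ) : ‖rdK μ c‖ = ‖c‖ := by
  have := rd_inner_K (rdK μ c) c
  rw [real_inner_self_eq_norm_sq, rdI_K, dot_self] at this
  exact (pow_left_inj₀ (norm_nonneg _) (norm_nonneg _) two_ne_zero).1 this

lemma rd_norm_sub_mean (u : Lp ℂ 2 μ) : ‖u - rdK μ (rdI μ u)‖ ≤ ‖u‖ := by
  have h := norm_sub_sq_real u (rdK μ (rdI μ u))
  rw [rd_inner_K, dot_self, rd_norm_K] at h
  exact abs_le_of_sq_le_sq' (by nlinarith [sq_nonneg ‖rdI μ u‖]) (norm_nonneg _) |>.2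

end Mean

lemma rd_sl_id : Sl (ContinuousLinearMap.id ℝ ℂ) := fun _ _ => rfl

lemma rd_gd_pos {H : Type} [NormedAddCommGroup H] [InnerProductSpace ℝ H] [CompleteSpace H]
    (a : Act H) (E : Submodule ℝ H) {m : ℕ} (v : Fin m → H) (c : Fin m → ℝ)
    {g g' : ℂ →L[ℝ] ℂ} (hg : Sl g) (h : 0 < a.gd E v c g') : 0 < a.gd E v c g := by
  have h1 : ∀ y, ‖y‖ ≤ ‖g‖ * ‖g y‖ := fun y =>
    rd_sl_id.norm_le_symm hg (l := ‖g‖) (fun y => g.le_opNorm y) y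
  have h2 := a.gd_le E v c g g' (l := max 1 (‖g'‖ * ‖g‖)) (le_max_left _ _) fun y => by
    calc ‖g' y‖ ≤ ‖g'‖ * ‖y‖ := g'.le_opNorm y
      _ ≤ ‖g'‖ * (‖g‖ * ‖g y‖) := mul_le_mul_of_nonneg_left (h1 y) (norm_nonneg _)
      _ = ‖g'‖ * ‖g‖ * ‖g y‖ := by ring
      _ ≤ _ := mul_le_mul_of_nonneg_right (le_max_right _ _) (norm_nonneg _)
  by_contra h3
  have h4 : 0 ≤ max 1 (‖g'‖ * ‖g‖) ^ (2 * m) := by positivity
  nlinarith [mul_nonneg h4 (neg_nonneg.2 (not_lt.1 h3))]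

lemma rd_zm_succ (σ : ℝ) (k : ℕ) : (zm σ k : ℂ →L[ℝ] ℂ) =
    ((zm 0 1).symm : ℂ →L[ℝ] ℂ).comp (zm σ (k + 1) : ℂ →L[ℝ] ℂ) := by
  refine ContinuousLinearMap.ext fun y => Complex.ext ?_ ?_
  · simp only [ContinuousLinearEquiv.coe_coe, ContinuousLinearMap.comp_apply, zm_re, zm_symm_re,
      zm_im]
    ring
  · simp only [ContinuousLinearEquiv.coe_coe, ContinuousLinearMap.comp_apply, zm_im, zm_symm_im]
    field_simp
    ring

lemma rd_zm_add (σ τ : ℝ) (k B : ℕ) : (zm (σ + τ / 4 ^ k) (k + B) : ℂ →L[ℝ] ℂ) =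
    (zm τ B : ℂ →L[ℝ] ℂ).comp (zm σ k : ℂ →L[ℝ] ℂ) :=
  ContinuousLinearMap.ext fun y => zm_add σ τ k B y

namespace TS

variable {X : Type} [TopologicalSpace X] [T2Space X] [CompactSpace X] [MeasurableSpace X]
  [BorelSpace X] [SecondCountableTopology X] {μ : Measure X} [IsProbabilityMeasure μ]

lemma rd_E_Z {S : TS X μ} {e : Lp ℂ 2 μ} (h : e ∈ S.E) : e ∈ S.Zset :=
  S.Iset_subset_Zset (S.Eset_subset_Iset (mem_E.1 h))

lemma rd_perp_K (S : TS X μ) (g : ℂ →L[ℝ] ℂ) (c : ℂ) :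
    perp (S.E.map ((lpAct μ).ac g : Lp ℂ 2 μ →ₗ[ℝ] Lp ℂ 2 μ)) (rdK μ c) = rdK μ c := by
  refine perp_of_orth _ ?_
  rintro _ ⟨e, he, rfl⟩
  have h0 : rdI μ e = 0 := mean_E he
  rw [rd_inner_K, ContinuousLinearMap.coe_coe, rdI_ac, h0, map_zero]
  simp [dot]

lemma rd_hA_K (S : TS X μ) (g : ℂ →L[ℝ] ℂ) (c : ℂ) :
    (lpAct μ).hA S.E g (rdK μ c) = rdK μ (g c) := by
  rw [Act.hA, ContinuousLinearMap.comp_apply, rd_ac_K, rd_perp_K]

omit [T2Space X] [CompactSpace X] [BorelSpace X] [SecondCountableTopology X]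
  [IsProbabilityMeasure μ] in
lemma rd_hA_E (S : TS X μ) (g : ℂ →L[ℝ] ℂ) {e : Lp ℂ 2 μ} (he : e ∈ S.E) :
    (lpAct μ).hA S.E g e = 0 := perp_of_mem _ ⟨e, he, rfl⟩

lemma rd_inner_hA (S : TS X μ) (g : ℂ →L[ℝ] ℂ) {u : Lp ℂ 2 μ} (hu : rdI μ u = 0) (c : ℂ) :
    inner ℝ ((lpAct μ).hA S.E g u) (rdK μ c) = 0 := by
  have h := rd_perp_K S g c
  rw [Act.hA, ContinuousLinearMap.comp_apply]
  unfold perp at h ⊢
  rw [Submodule.inner_starProjection_left_eq_right, h, rd_inner_K, rdI_ac, hu, map_zero]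
  simp [dot]

variable {ρ : ℕ}

/-- the field with given coefficients -/
noncomputable def rdC (α : Fin ρ → Lp ℂ 2 μ) : (Fin ρ → ℝ) →ₗ[ℝ] Lp ℂ 2 μ :=
  Fintype.linearCombination ℝ α

/-- the holonomy -/
noncomputable def rdH (α : Fin ρ → Lp ℂ 2 μ) : (Fin ρ → ℝ) →ₗ[ℝ] ℂ := (rdI μ).comp (rdC α)

/-- the mean zero part -/
noncomputable def rdU (α : Fin ρ → Lp ℂ 2 μ) : (Fin ρ → ℝ) →ₗ[ℝ] Lp ℂ 2 μ :=
  rdC α - (rdK μ).comp (rdH α)

/-- the harmonic representative of the mean zero part -/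
noncomputable def rdA (S : TS X μ) (α : Fin ρ → Lp ℂ 2 μ) (σ : ℝ) (k : ℕ) :
    (Fin ρ → ℝ) →ₗ[ℝ] Lp ℂ 2 μ :=
  ((lpAct μ).hA S.E (zm σ k : ℂ →L[ℝ] ℂ) : Lp ℂ 2 μ →ₗ[ℝ] Lp ℂ 2 μ).comp (rdU α)

variable {S : TS X μ} {α : Fin ρ → Lp ℂ 2 μ}

omit [TopologicalSpace X] [T2Space X] [CompactSpace X] [BorelSpace X] [SecondCountableTopology X]
  [IsProbabilityMeasure μ] in
lemma rdC_apply (w : Fin ρ → ℝ) : rdC α w = ∑ i, w i • α i := Fintype.linearCombination_apply _ _ _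

omit [TopologicalSpace X] [T2Space X] [CompactSpace X] [BorelSpace X]
  [SecondCountableTopology X] in
lemma rdU_apply (w : Fin ρ → ℝ) : rdU α w = rdC α w - rdK μ (rdH α w) := rfl

omit [TopologicalSpace X] [T2Space X] [CompactSpace X] [BorelSpace X]
  [SecondCountableTopology X] in
lemma rdU_mean (w : Fin ρ → ℝ) : rdI μ (rdU α w) = 0 := by
  rw [rdU_apply, map_sub, rdI_K]
  exact sub_self _

omit [T2Space X] [CompactSpace X] [BorelSpace X] [SecondCountableTopology X] in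
lemma rdA_apply (σ : ℝ) (k : ℕ) (w : Fin ρ → ℝ) :
    rdA S α σ k w = (lpAct μ).hA S.E (zm σ k : ℂ →L[ℝ] ℂ) (rdU α w) := rfl

lemma rdU_Z (hα : ∀ i, α i ∈ S.Iset) (w : Fin ρ → ℝ) (a : ℝ) :
    rdU α w + a • rdK μ (rdH α w) ∈ S.Zset := by
  have e : rdU α w + a • rdK μ (rdH α w) = rdC α w + (a - 1) • rdK μ (rdH α w) := by
    rw [rdU_apply, sub_smul, one_smul]
    abel
  rw [e, rdC_apply]
  exact Zset_add (Zset_sum (fun i => S.Iset_subset_Zset (hα i)) w)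
    (Zset_smul (S.const_mem_Zset _) _)

lemma rd_gap (hα : ∀ i, α i ∈ S.Iset) {δ : ℝ} (hδ : 0 < δ) : ∃ κ : ℝ, 0 < κ ∧ κ < 1 ∧
    ∀ σ k u, (S.map (zm σ (k + 1)) (sl_zm σ (k + 1))).Thick δ →
    ‖rdA S α σ k u‖ ≤ 2 * κ * ‖rdA S α σ (k + 1) u‖ := by
  obtain ⟨κ, h0, h1, h⟩ := gap (μ := μ) hδ
  refine ⟨κ, h0, h1, fun σ k u ht => ?_⟩
  have hz : rdU α u ∈ S.Zset := by simpa using rdU_Z hα u 0
  have h2 := h _ ht _ (map_Zset (zm σ (k + 1)) (sl_zm σ (k + 1)) hz)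
    (by rw [← rdI_apply, rdI_ac, rdU_mean, map_zero])
  rw [map_E] at h2
  rw [rdA_apply, rd_zm_succ]
  exact ((lpAct μ).norm_hA_comp_le S.E _ _ _).trans h2

lemma rd_low (hα : ∀ i, α i ∈ S.Iset)
    (hi : ∀ n : Fin ρ → ℤ, ∑ i, (n i : ℝ) • α i ∈ S.E → n = 0) : ∃ C > 0, ∀ σ k δ, 0 < δ →
    δ ≤ 1 → (S.map (zm σ k) (sl_zm σ k)).Thick δ → ∀ n : Fin ρ → ℤ, n ≠ 0 →
    δ ^ 2 ≤ C * (‖rdA S α σ k (cst n)‖ + ‖zm σ k (rdH α (cst n))‖) := by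
  obtain ⟨C, hC, h⟩ := low (μ := μ)
  refine ⟨C, hC, fun σ k δ h0 h1 ht n hn => ?_⟩
  have hu : rdC α (cst n) = ∑ i, (n i : ℝ) • α i := rdC_apply _
  have hI : (lpAct μ).ac (zm σ k : ℂ →L[ℝ] ℂ) (rdC α (cst n)) ∈
      (S.map (zm σ k) (sl_zm σ k)).Iset := map_Iset _ _ (hu ▸ Iset_sum hα n)
  have hN : (lpAct μ).ac (zm σ k : ℂ →L[ℝ] ℂ) (rdC α (cst n)) ∉
      (S.map (zm σ k) (sl_zm σ k)).E := by
    rw [map_E]
    rintro ⟨e, he, h2⟩
    have h3 : ∀ u : Lp ℂ 2 μ, (lpAct μ).ac ((zm σ k).symm : ℂ →L[ℝ] ℂ)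
        ((lpAct μ).ac (zm σ k : ℂ →L[ℝ] ℂ) u) = u := fun u => by
      rw [← Act.ac_comp, ContinuousLinearEquiv.coe_symm_comp_coe, Act.ac_id]
    have h4 := congrArg ((lpAct μ).ac ((zm σ k).symm : ℂ →L[ℝ] ℂ)) h2
    rw [ContinuousLinearMap.coe_coe, h3, h3] at h4
    exact hn (hi n (hu ▸ h4 ▸ he))
  refine le_of_forall_pos_le_add fun η hη => ?_
  obtain ⟨e, he, h2⟩ := perp_approx (S.map (zm σ k) (sl_zm σ k)).E
    ((lpAct μ).ac (zm σ k : ℂ →L[ℝ] ℂ) (rdU α (cst n))) (div_pos hη hC)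
  have h3 : δ ^ 2 ≤ C * ‖(lpAct μ).ac (zm σ k : ℂ →L[ℝ] ℂ) (rdC α (cst n)) + -e‖ := by
    by_contra h4
    have h5 := h _ δ h0 h1 ht _ (Iset_add hI (Iset_neg (Eset_subset_Iset _ (mem_E.1 he))))
      (not_le.1 h4)
    exact hN (by simpa using Submodule.add_mem _ h5 he)
  have e1 : perp (S.map (zm σ k) (sl_zm σ k)).E
      ((lpAct μ).ac (zm σ k : ℂ →L[ℝ] ℂ) (rdU α (cst n))) = rdA S α σ k (cst n) := by
    rw [map_E]; rfl
  rw [e1] at h2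
  have e2 : (lpAct μ).ac (zm σ k : ℂ →L[ℝ] ℂ) (rdC α (cst n)) + -e =
      ((lpAct μ).ac (zm σ k : ℂ →L[ℝ] ℂ) (rdU α (cst n)) - e - rdA S α σ k (cst n)) +
        (rdA S α σ k (cst n) + rdK μ (zm σ k (rdH α (cst n)))) := by
    rw [rdU_apply, map_sub, rd_ac_K, ContinuousLinearEquiv.coe_coe]
    abel
  have h4 := (norm_add_le _ _).trans (add_le_add h2.le ((norm_add_le (rdA S α σ k (cst n))
    (rdK μ (zm σ k (rdH α (cst n))))).trans_eq (by rw [rd_norm_K])))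
  rw [← e2] at h4
  have h5 := mul_le_mul_of_nonneg_left h4 hC.le
  rw [mul_add, mul_div_cancel₀ _ hC.ne'] at h5
  linarith

lemma rd_gram {m : ℕ} (w : Fin m → Fin ρ → ℝ) (a : ℝ) (c : Fin m → ℝ) (σ : ℝ) (k : ℕ) :
    gramD (rdH α) (rdA S α) w a c σ k = (lpAct μ).gd S.E
      (fun i => rdU α (w i) + a • rdK μ (rdH α (w i))) c (zm σ k : ℂ →L[ℝ] ℂ) := by
  unfold gramD Act.gd
  congr 2
  funext i j
  have h1 := fun i c => rd_inner_hA S (zm σ k : ℂ →L[ℝ] ℂ) (rdU_mean (α := α) (w i)) c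
  simp only [map_add, map_smul, rd_hA_K, inner_add_left, inner_add_right, real_inner_smul_left,
    real_inner_smul_right, h1, rdA_apply]
  rw [real_inner_comm ((lpAct μ).hA S.E (zm σ k : ℂ →L[ℝ] ℂ) (rdU α (w j))) (rdK μ _), h1,
    rd_inner_K, rdI_K, ContinuousLinearEquiv.coe_coe]
  ring

lemma rd_nc (hα : ∀ i, α i ∈ S.Iset) (m : ℕ) : ∃ C ≥ (1 : ℝ), ∀ (w : Fin m → Fin ρ → ℝ) (a : ℝ)
    (c : Fin m → ℝ) (σ : ℝ) (k B : ℕ) (κ : ℝ), 0 < κ → κ ≤ 1 →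
    0 < gramD (rdH α) (rdA S α) w a c σ k →
    (∀ τ, 0 < gramD (rdH α) (rdA S α) w a c (σ + τ / 4 ^ k) (k + B)) ∧
    ∑ j ∈ Finset.range (4 ^ B),
      gramD (rdH α) (rdA S α) w a c (σ + (j / 4 ^ B) / 4 ^ k) (k + B) ^ (-κ) ≤
      4 ^ B * (C * Real.exp (C * κ ^ 2 * B) * gramD (rdH α) (rdA S α) w a c σ k ^ (-κ)) := by
  obtain ⟨C₁, hC₁, t₀, ht₀, hsub⟩ := Act.gd_sub m
  obtain ⟨C, hC, hglob⟩ := nc_glob (Λ := 2 * m) (by positivity) hC₁ ht₀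
  refine ⟨C, hC, fun w a c σ k B κ h0 h1 hpos => ?_⟩
  simp only [rd_gram] at hpos ⊢
  set v : Fin m → Lp ℂ 2 μ := fun i => rdU α (w i) + a • rdK μ (rdH α (w i)) with hv
  have hp : ∀ g, Sl g → 0 < (lpAct μ).gd S.E v c g := fun g hg => rd_gd_pos _ _ _ _ hg hpos
  refine ⟨fun τ => hp _ (sl_zm _ _), ?_⟩
  have h := hglob (fun g => Real.log ((lpAct μ).gd S.E v c g))
    (fun g g' hg hg' l hl h => by
      have h2 := Real.log_le_log (hp g' hg') ((lpAct μ).gd_le S.E v c g g' hl h)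
      rw [Real.log_mul (by positivity) (hp g hg).ne', Real.log_pow] at h2
      push_cast at h2
      linarith)
    (fun g hg t ht ht' => hsub _ (lpAct μ) S.E (fun e he e' he' => closed (rd_E_Z he) he') v c
      (fun i e he => closed (rdU_Z hα (w i) a) he) g hg (hp g hg) t ht ht')
    _ (sl_zm σ k) B κ h0 h1
  rw [Real.rpow_def_of_pos hpos, mul_comm (Real.log _) (-κ)]
  refine le_of_eq_of_le (Finset.sum_congr rfl fun j _ => ?_) h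
  rw [Real.rpow_def_of_pos (hp _ (sl_zm _ _)), mul_comm, rd_zm_add]

lemma rd_cyl (hs : ∀ u ∈ S.Iset, ∃ n : Fin ρ → ℤ, u - ∑ i, (n i : ℝ) • α i ∈ S.E) {x : X} {v : ℂ}
    {c : ℝ} (H : S.IsCyl x v c) : ∃ n : Fin ρ → ℤ, rdH α (cst n) = v ∧
      ∀ σ k, ‖rdA S α σ k (cst n)‖ ≤ ‖zm σ k v‖ / √(2 * c) := by
  obtain ⟨u, hu, hae⟩ := H.exists_class
  obtain ⟨n, hn⟩ := hs u hu
  have hc : 0 < 2 * c := by linarith [H.2.1]
  have hm : MeasurableSet (S.cyl x v c) := H.isOpen.measurableSet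
  have e0 : rdC α (cst n) = ∑ i, (n i : ℝ) • α i := rdC_apply _
  rw [← e0] at hn
  have e1 : rdI μ u = v := by
    rw [rdI_apply, integral_congr_ae hae, integral_indicator_const _ hm, H.measure, smul_smul,
      mul_inv_cancel₀ hc.ne', one_smul]
  have e2 : rdH α (cst n) = v := by
    have h0 : rdI μ (u - rdC α (cst n)) = 0 := mean_E hn
    rw [map_sub, e1, sub_eq_zero] at h0
    exact h0.symm
  refine ⟨n, e2, fun σ k => ?_⟩
  have e3 : rdU α (cst n) = (u - rdK μ v) - (u - rdC α (cst n)) := by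
    rw [rdU_apply, e2]
    abel
  have e4 : (lpAct μ).ac (zm σ k : ℂ →L[ℝ] ℂ) u =
      indicatorConstLp 2 hm (measure_ne_top μ _) ((2 * c)⁻¹ • zm σ k v) := Lp.ext (by
    filter_upwards [lpAct_ae (zm σ k : ℂ →L[ℝ] ℂ) u, hae, indicatorConstLp_coeFn (p := 2)
      (hs := hm) (hμs := measure_ne_top μ _) (c := (2 * c)⁻¹ • zm σ k v)] with q h1 h2 h3
    rw [h1, h2, h3]
    by_cases hq : q ∈ S.cyl x v c
    · rw [indicator_of_mem hq, indicator_of_mem hq, map_smul, ContinuousLinearEquiv.coe_coe]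
    · rw [indicator_of_notMem hq, indicator_of_notMem hq, map_zero])
  have e5 : ‖(lpAct μ).ac (zm σ k : ℂ →L[ℝ] ℂ) u‖ = ‖zm σ k v‖ / √(2 * c) := by
    rw [e4, norm_indicatorConstLp two_ne_zero ENNReal.ofNat_ne_top, H.measure, norm_smul,
      Real.norm_of_nonneg (inv_nonneg.2 hc.le), ENNReal.toReal_ofNat, ← Real.sqrt_eq_rpow,
      eq_div_iff (Real.sqrt_pos.2 hc).ne', mul_assoc, Real.mul_self_sqrt hc.le,
      mul_right_comm, inv_mul_cancel₀ hc.ne', one_mul]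
  rw [rdA_apply, e3, map_sub, rd_hA_E S _ hn, sub_zero, ← e5]
  refine (norm_perp_le _ _ (Submodule.zero_mem _)).trans ?_
  have h := rd_norm_sub_mean ((lpAct μ).ac (zm σ k : ℂ →L[ℝ] ℂ) u)
  rw [rdI_ac, e1, ← rd_ac_K, ← map_sub] at h
  rw [sub_zero]
  exact h

/-- the resonance data of a translation surface -/
theorem exists_resData (S : TS X μ) : ∃ (ρ : ℕ) (D : ResData ρ (Lp ℂ 2 μ)),
    (∀ σ k δ, D.th σ k δ ↔ (S.map (zm σ k) (sl_zm σ k)).Thick δ) ∧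
    ∀ x v c, S.IsCyl x v c → ∃ n : Fin ρ → ℤ, D.hol (cst n) = v ∧
      ∀ σ k, ‖D.A σ k (cst n)‖ ≤ ‖zm σ k v‖ / √(2 * c) := by
  obtain ⟨ρ, α, hα, hs, hi⟩ := S.fin_rank
  exact ⟨ρ,
    { hol := rdH α
      A := rdA S α
      th := fun σ k δ => (S.map (zm σ k) (sl_zm σ k)).Thick δ
      lipS := fun σ σ' k u h => (lpAct μ).norm_hA_le S.E _ _ zero_le_two (norm_zm_shear h) _
      lipD := fun σ k u => (lpAct μ).norm_hA_le S.E _ _ zero_le_two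
        (fun y => by simpa using (norm_zm_add_le σ k 1 y).2) _
      thS := fun σ σ' k δ h ht => by
        rw [map_thick] at ht ⊢
        intro x y hy
        linarith [ht x y hy, norm_zm_shear (σ := σ') (σ' := σ) (by rwa [abs_sub_comm]) y]
      thM := fun σ k δ δ' h ht x y hy => h.trans (ht x y hy)
      pos := fun σ k => exists_thick _
      gap := fun δ hδ => rd_gap hα hδ
      low := rd_low hα hi
      nondiv := S.nondiv
      nc := rd_nc hα }, fun _ _ _ => Iff.rfl, fun x v c H => rd_cyl hs H⟩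

end TS

end Pool.Agent.MP_d0b2d2_an.Gen
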