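import Pool.Agent.MP_d0b2d2_an.Gen.Defs

open Set Filter Topology

namespace Pool.Agent.MP_d0b2d2_an.Gen

section Lattice

variable {V : Type} [NormedAddCommGroup V] [InnerProductSpace ℝ V] {d : ℕ}

/-- the volume of the parallelepiped spanned by a family of vectors -/
noncomputable def vol {ι : Type} [Fintype ι] [DecidableEq ι] (v : ι → V) : ℝ :=
  √(Matrix.gram ℝ v).det

/-- saturated sublattices -/
def Sat (W : Submodule ℤ (Fin d → ℤ)) : Prop := ∀ (n : ℤ) (x : Fin d → ℤ), n ≠ 0 → n • x ∈ W → x ∈ W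

/-- the saturation of a sublattice -/
def sat (W : Submodule ℤ (Fin d → ℤ)) : Submodule ℤ (Fin d → ℤ) where
  carrier := {x | ∃ n : ℤ, n ≠ 0 ∧ n • x ∈ W}
  zero_mem' := ⟨1, one_ne_zero, by simp⟩
  add_mem' := by
    rintro x y ⟨n, hn, hx⟩ ⟨m, hm, hy⟩
    refine ⟨n * m, mul_ne_zero hn hm, ?_⟩
    rw [smul_add, mul_smul n m y, mul_comm n m, mul_smul m n x]
    exact W.add_mem (W.smul_mem m hx) (W.smul_mem n hy)
  smul_mem' := by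
    rintro c x ⟨n, hn, hx⟩
    exact ⟨n, hn, by rw [smul_comm]; exact W.smul_mem c hx⟩

/-- an integer vector as a real vector -/
def cst (x : Fin d → ℤ) : Fin d → ℝ := fun i => x i

/-- the real span of a sublattice -/
def spanR (W : Submodule ℤ (Fin d → ℤ)) : Submodule ℝ (Fin d → ℝ) :=
  Submodule.span ℝ (cst '' (W : Set (Fin d → ℤ)))

/-- the rank of a sublattice -/
noncomputable def rk (W : Submodule ℤ (Fin d → ℤ)) : ℕ := Module.finrank ℤ W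

/-- the covolume of a sublattice for the seminorm `‖L ·‖` -/
noncomputable def cov (L : (Fin d → ℝ) →ₗ[ℝ] V) (W : Submodule ℤ (Fin d → ℤ)) : ℝ :=
  vol fun i : Fin (Module.finrank ℤ W) => L (cst (Module.finBasis ℤ W i))

end Lattice

/-- the Gram determinant of the family `w` at the node `(σ, k)` -/
noncomputable def gramD {ρ : ℕ} {V : Type} [NormedAddCommGroup V] [InnerProductSpace ℝ V]
    (hol : (Fin ρ → ℝ) →ₗ[ℝ] ℂ) (A : ℝ → ℕ → (Fin ρ → ℝ) →ₗ[ℝ] V) {m : ℕ}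
    (w : Fin m → Fin ρ → ℝ) (a : ℝ) (c : Fin m → ℝ) (σ : ℝ) (k : ℕ) : ℝ :=
  (Matrix.of fun i j => inner ℝ (A σ k (w i)) (A σ k (w j)) +
    a ^ 2 * dot (zm σ k (hol (w i))) (zm σ k (hol (w j))) + c i * c j).det

/-- the data of the abstract resonance theorem -/
structure ResData (ρ : ℕ) (V : Type) [NormedAddCommGroup V] [InnerProductSpace ℝ V] where
  hol : (Fin ρ → ℝ) →ₗ[ℝ] ℂ
  A : ℝ → ℕ → (Fin ρ → ℝ) →ₗ[ℝ] V
  th : ℝ → ℕ → ℝ → Prop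
  lipS : ∀ σ σ' k u, |σ' - σ| ≤ 1 / 4 ^ k → ‖A σ' k u‖ ≤ 2 * ‖A σ k u‖
  lipD : ∀ σ k u, ‖A σ k u‖ ≤ 2 * ‖A σ (k + 1) u‖
  thS : ∀ σ σ' k δ, |σ' - σ| ≤ 1 / 4 ^ k → th σ k δ → th σ' k (δ / 2)
  thM : ∀ σ k δ δ', δ' ≤ δ → th σ k δ → th σ k δ'
  pos : ∀ σ k, ∃ δ > 0, th σ k δ
  gap : ∀ δ > 0, ∃ κ : ℝ, 0 < κ ∧ κ < 1 ∧ ∀ σ k u, th σ (k + 1) δ →
    ‖A σ k u‖ ≤ 2 * κ * ‖A σ (k + 1) u‖
  low : ∃ C > 0, ∀ σ k δ, 0 < δ → δ ≤ 1 → th σ k δ → ∀ n : Fin ρ → ℤ, n ≠ 0 →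
    δ ^ 2 ≤ C * (‖A σ k (cst n)‖ + ‖zm σ k (hol (cst n))‖)
  nondiv : ∃ C a : ℝ, 0 < a ∧ ∀ k δ, 0 < δ → dens k (fun σ => ¬ th σ k δ) ≤ C * δ ^ a
  nc : ∀ m : ℕ, ∃ C ≥ (1 : ℝ), ∀ (w : Fin m → Fin ρ → ℝ) (a : ℝ) (c : Fin m → ℝ) (σ : ℝ)
    (k B : ℕ) (κ : ℝ), 0 < κ → κ ≤ 1 → 0 < gramD hol A w a c σ k →
    (∀ τ, 0 < gramD hol A w a c (σ + τ / 4 ^ k) (k + B)) ∧
    ∑ j ∈ Finset.range (4 ^ B), gramD hol A w a c (σ + (j / 4 ^ B) / 4 ^ k) (k + B) ^ (-κ) ≤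
      4 ^ B * (C * Real.exp (C * κ ^ 2 * B) * gramD hol A w a c σ k ^ (-κ))

/-- the extra basis vector of the extended lattice -/
def eps (ρ : ℕ) : Fin (ρ + 1) → ℤ := Pi.single 0 1

/-- forgetting the extra coordinate -/
def tl (ρ : ℕ) : (Fin (ρ + 1) → ℝ) →ₗ[ℝ] (Fin ρ → ℝ) := LinearMap.funLeft ℝ ℝ Fin.succ

/-- sublattices of the extended lattice -/
abbrev Lat (ρ : ℕ) : Type := Submodule ℤ (Fin (ρ + 1) → ℤ)

namespace ResData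

variable {ρ : ℕ} {V : Type} [NormedAddCommGroup V] [InnerProductSpace ℝ V] (D : ResData ρ V)

/-- the holonomy of an extended vector -/
noncomputable def ho (x : Fin (ρ + 1) → ℝ) : ℂ := D.hol (tl ρ x)

/-- the resonance functional -/
noncomputable def ell (τ ξ : ℝ) (x : Fin (ρ + 1) → ℝ) : ℝ := ξ * dot (D.ho x) (ed τ) - x 0

/-- the weighted norm map on the extended lattice -/
noncomputable def LL (σ : ℝ) (k : ℕ) (a b τ ξ : ℝ) :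
    (Fin (ρ + 1) → ℝ) →ₗ[ℝ] WithLp 2 (V × WithLp 2 (ℂ × ℝ)) where
  toFun x := WithLp.toLp 2 (D.A σ k (tl ρ x),
    WithLp.toLp 2 (a • zm σ k (D.ho x), b * D.ell τ ξ x))
  map_add' x y := by
    simp only [ho, ell, dot, map_add, smul_add, Complex.add_re, Complex.add_im, Pi.add_apply,
      ← WithLp.toLp_add, Prod.mk_add_mk]
    congr 4
    ring
  map_smul' r x := by
    simp only [ho, ell, dot, map_smul, Complex.smul_re, Complex.smul_im, Pi.smul_apply,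
      ← WithLp.toLp_smul, Prod.smul_mk, RingHom.id_apply, smul_eq_mul, smul_comm a r]
    congr 4
    ring

lemma inner_LL (σ : ℝ) (k : ℕ) (a b τ ξ : ℝ) (x y : Fin (ρ + 1) → ℝ) :
    inner ℝ (D.LL σ k a b τ ξ x) (D.LL σ k a b τ ξ y) =
      inner ℝ (D.A σ k (tl ρ x)) (D.A σ k (tl ρ y)) +
        a ^ 2 * dot (zm σ k (D.ho x)) (zm σ k (D.ho y)) + b * D.ell τ ξ x * (b * D.ell τ ξ y) := by
  simp only [LL, LinearMap.coe_mk, AddHom.coe_mk, WithLp.prod_inner_apply, real_inner_smul_left,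
    real_inner_smul_right, inner_eq_dot]
  simp
  ring

lemma norm_LL_sq (σ : ℝ) (k : ℕ) (a b τ ξ : ℝ) (x : Fin (ρ + 1) → ℝ) :
    ‖D.LL σ k a b τ ξ x‖ ^ 2 = ‖D.A σ k (tl ρ x)‖ ^ 2 + (a * ‖zm σ k (D.ho x)‖) ^ 2 +
      (b * D.ell τ ξ x) ^ 2 := by
  rw [← real_inner_self_eq_norm_sq, inner_LL, real_inner_self_eq_norm_sq, ← inner_eq_dot,
    real_inner_self_eq_norm_sq]
  ring

/-- the non-tautological part of the norm -/
noncomputable def RR (σ : ℝ) (k : ℕ) (b τ ξ : ℝ) (x : Fin (ρ + 1) → ℝ) : ℝ :=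
  √(‖D.A σ k (tl ρ x)‖ ^ 2 + (b * D.ell τ ξ x) ^ 2)

/-- the holonomy is onto on the real span of `W` -/
def Surj (W : Lat ρ) : Prop := ∀ y, ∃ x ∈ spanR W, D.ho x = y

/-- `W` contains the tautological plane up to the relative error `t` -/
def Deep (σ : ℝ) (k : ℕ) (b ξ : ℝ) (W : Lat ρ) (t : ℝ) : Prop :=
  ∀ y, ∃ x ∈ spanR W, D.ho x = y ∧ D.RR σ k b σ ξ x ≤ t * ‖zm σ k y‖

/-- the covolume at the node `(σ, k)` -/
noncomputable def cv (σ : ℝ) (k : ℕ) (a b ξ : ℝ) (W : Lat ρ) : ℝ := cov (D.LL σ k a b σ ξ) W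

/-- the volume of a fixed family in the kernel of the holonomy -/
noncomputable def om {m : ℕ} (w : Fin m → Fin ρ → ℝ) (c : Fin m → ℝ) (κ σ : ℝ) (k : ℕ) : ℝ :=
  κ * √(gramD D.hol D.A w 0 c σ k)

/-- the spectral gap over the block `[k, k + B]` -/
def GapAt (κ σ : ℝ) (k B : ℕ) : Prop :=
  ∀ u, Real.exp (κ * B) * ‖D.A σ k u‖ ≤ 2 ^ B * ‖D.A σ (k + B) u‖

/-- the spectral gap over all blocks starting at `k` -/
def Good (κ : ℝ) (N : ℕ) (σ : ℝ) (k : ℕ) : Prop := ∀ B, k + B ≤ N → D.GapAt κ (tr (k + B) σ) k B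

/-- a short resonant integer vector -/
def Res (C δ ε ξ σ : ℝ) (k : ℕ) : Prop := ∃ (u : Fin ρ → ℤ) (n : ℤ), ‖D.A σ k (cst u)‖ ≤ C ∧
  δ ≤ ‖zm σ k (D.hol (cst u))‖ ∧ ‖zm σ k (D.hol (cst u))‖ ≤ C ∧
  |ξ * dot (D.hol (cst u)) (ed σ) - n| < ε

/-- a lock of covolume at most `exp s` and depth at least `r` -/
def Lock (ξ s r σ : ℝ) (k : ℕ) (W : Lat ρ) : Prop :=
  Sat W ∧ eps ρ ∉ W ∧ D.cv σ k 1 1 ξ W ≤ Real.exp s ∧ D.Deep σ k 1 ξ W (Real.exp (-r))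

end ResData

/-- the parameters of a potential -/
structure Pot (ρ : ℕ) where
  ξ : ℝ
  a : ℝ
  b : ℝ
  Γ : ℝ
  β : ℕ → ℝ
  Adm : Set (Lat ρ)

namespace ResData

variable {ρ : ℕ} {V : Type} [NormedAddCommGroup V] [InnerProductSpace ℝ V] (D : ResData ρ V)
  (P : Pot ρ)

/-- the height of a sublattice -/
noncomputable def uu (σ : ℝ) (k : ℕ) (W : Lat ρ) : ℝ :=
  P.β (rk W) - Real.log (D.cv σ k P.a P.b P.ξ W)

/-- the truncated potential -/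
noncomputable def UU (σ : ℝ) (k : ℕ) : ℝ := max P.Γ (sSup (D.uu P σ k '' P.Adm))

/-- the nearly maximal sublattices -/
def Ch (σ : ℝ) (k : ℕ) : Set (Lat ρ) := {W | W ∈ P.Adm ∧ D.UU P σ k - P.Γ ≤ D.uu P σ k W}

/-- at most one nearly maximal sublattice of each rank at `δ`-thick nodes -/
def Uniq (δ : ℝ) : Prop := ∀ σ k, D.th σ k δ → ∀ W ∈ D.Ch P σ k, ∀ W' ∈ D.Ch P σ k,
  rk W = rk W' → W = W'

/-- some nearly maximal sublattice rises by more than `E` over the block `[k, k + B]` -/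
def SB (E : ℝ) (B : ℕ) (σ : ℝ) (k : ℕ) : Prop := ∃ W ∈ D.Ch P (tr k σ) k,
  D.uu P (tr k σ) k W + E < D.uu P (tr (k + B) σ) (k + B) W

/-- some nearly maximal sublattice fails to drop over the block `[k, k + B]` -/
def NG (B : ℕ) (σ : ℝ) (k : ℕ) : Prop := ∃ W ∈ D.Ch P (tr k σ) k,
  D.UU P (tr k σ) k - P.Γ / 2 < D.uu P (tr (k + B) σ) (k + B) W

end ResData

/-- the convexity gap of the second potential -/
noncomputable def gam (ρ : ℕ) (κ : ℝ) : ℝ := κ / 32 / 3 ^ (ρ + 1)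

end Pool.Agent.MP_d0b2d2_an.Gen
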