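import Pool.Agent.MP_d0b2d2_an.Gen.Form
import Pool.Agent.MP_d0b2d2_an.Gen.Main

open MeasureTheory Set Filter Topology Metric

namespace Pool.Agent.MP_d0b2d2_an.Gen

lemma rs_const {𝕜 : Type} [RCLike 𝕜] {D : 𝕜 → ℂ} [NormedSpace 𝕜 ℂ] {a : 𝕜}
    (h : ∀ᶠ z in 𝓝 a, HasDerivAt D 0 z) : ∀ᶠ z in 𝓝 a, D z = D a := by
  obtain ⟨r, hr, hb⟩ := Metric.eventually_nhds_iff_ball.1 h
  filter_upwards [ball_mem_nhds a hr] with z hz
  exact isOpen_ball.is_const_of_deriv_eq_zero (convex_ball a r).isPreconnected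
    (fun y hy => (hb y hy).differentiableAt.differentiableWithinAt)
    (fun y hy => (hb y hy).deriv) hz (mem_ball_self hr)

/-- the local normal form of a holomorphic 1-form -/
lemma rs_normal {f : ℂ → ℂ} {a : ℂ} (hf : AnalyticAt ℂ f a) (h0 : ¬ ∀ᶠ z in 𝓝 a, f z = 0) :
    ∃ (n : ℕ) (g : ℂ → ℂ), 1 ≤ n ∧ g a = 0 ∧ (∃ c ≠ 0, HasStrictDerivAt g c a) ∧
      (∀ᶠ z in 𝓝 a, HasDerivAt (fun z => g z ^ n) (f z) z) ∧ (n = 1 ↔ f a ≠ 0) := by
  obtain ⟨r, hr, hb⟩ := Metric.eventually_nhds_iff_ball.1 hf.eventually_analyticAt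
  have hd : DifferentiableOn ℂ f (ball a r) := fun z hz =>
    (hb z hz).differentiableAt.differentiableWithinAt
  obtain ⟨F, F0, hF⟩ := hd.isExactOn_ball.with_val_at a 0
  have hF' : ∀ᶠ z in 𝓝 a, HasDerivAt F (f z) z := by
    filter_upwards [ball_mem_nhds a hr] with z hz using hF z hz
  have Fa : AnalyticAt ℂ F a := DifferentiableOn.analyticAt
    (fun z hz => (hF z hz).differentiableAt.differentiableWithinAt) (ball_mem_nhds a hr)
  obtain ⟨n, k, ka, k0, hk⟩ := Fa.exists_eventuallyEq_pow_smul_nonzero_iff.2 fun h => h0 (by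
    filter_upwards [h.eventually_nhds, hF'] with z h1 h2
    exact h2.unique ((hasDerivAt_const z (0 : ℂ)).congr_of_eventuallyEq h1))
  have n1 : 1 ≤ n := by
    rcases Nat.eq_zero_or_pos n with rfl | h
    · exact absurd (by simpa [F0] using hk.self_of_nhds.symm) k0
    · exact h
  have n0 : (n : ℂ) ≠ 0 := Nat.cast_ne_zero.2 (by omega)
  obtain ⟨c, hc⟩ := IsAlgClosed.exists_pow_nat_eq (k a) (show 0 < n by omega)
  have c0 : c ≠ 0 := by
    rintro rfl
    exact k0 (by rw [← hc, zero_pow (by omega)])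
  have ua : AnalyticAt ℂ (fun z => c * Complex.exp (Complex.log (k z / k a) / n)) a :=
    analyticAt_const.mul (((ka.div_const (c := k a)).clog
      (by simp [div_self k0])).div_const (c := n)).cexp'
  have gd : HasStrictDerivAt (fun z => (z - a) * (c * Complex.exp (Complex.log (k z / k a) / n)))
      c a := by
    have := HasStrictDerivAt.fun_mul ((hasStrictDerivAt_id a).sub_const a) ua.hasStrictDerivAt
    simpa [div_self k0] using this
  have ge : ∀ᶠ z in 𝓝 a, ((z - a) * (c * Complex.exp (Complex.log (k z / k a) / n))) ^ n = F z := by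
    filter_upwards [hk, ka.continuousAt.eventually_ne k0] with z h1 h2
    rw [h1, mul_pow, mul_pow, ← Complex.exp_nat_mul, mul_div_cancel₀ _ n0,
      Complex.exp_log (div_ne_zero h2 k0), hc, smul_eq_mul]
    field_simp
  have gh : ∀ᶠ z in 𝓝 a, HasDerivAt
      (fun z => ((z - a) * (c * Complex.exp (Complex.log (k z / k a) / n))) ^ n) (f z) z := by
    filter_upwards [ge.eventually_nhds, hF'] with z h1 h2
    exact h2.congr_of_eventuallyEq h1
  refine ⟨n, _, n1, by simp, ⟨c, c0, gd⟩, gh, ?_⟩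
  rw [gh.self_of_nhds.unique (gd.hasDerivAt.fun_pow n)]
  rcases n1.eq_or_lt with rfl | h
  · simpa using c0
  · simp [h.ne', zero_pow (show n - 1 ≠ 0 by omega)]

lemma rs_det (c : ℂ) :
    ENNReal.ofReal |(c • (1 : ℂ →L[ℝ] ℂ)).det| = ‖c‖ₑ ^ 2 := by
  have : (c • (1 : ℂ →L[ℝ] ℂ)).det = ‖c‖ ^ 2 := by
    rw [ContinuousLinearMap.det, ← LinearMap.det_toMatrix Complex.basisOneI, Matrix.det_fin_two,
      Complex.sq_norm, Complex.normSq_apply]
    simp [LinearMap.toMatrix_apply]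
  rw [this, abs_of_nonneg (by positivity), ENNReal.ofReal_pow (norm_nonneg c), ofReal_norm]

namespace HolForm

variable {X : Type} [TopologicalSpace X] [ChartedSpace ℂ X] (ω : HolForm X)

lemma rs_trans [IsManifold (modelWithCornersSelf ℂ ℂ) 1 X] {x y q : X}
    (hx : q ∈ (chartAt ℂ x).source) (hy : q ∈ (chartAt ℂ y).source) :
    DifferentiableAt ℂ (chartAt ℂ y ∘ (chartAt ℂ x).symm) (chartAt ℂ x q) := by
  have := contDiffWithinAt_ext_coord_change (I := modelWithCornersSelf ℂ ℂ) (n := 1) y x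
    (y := chartAt ℂ x q) (by simp [hx, hy])
  simpa [differentiableWithinAt_univ] using (this.differentiableWithinAt one_ne_zero)

lemma rs_zero {x q : X} (hq : q ∈ (chartAt ℂ x).source) :
    ω.coeff x (chartAt ℂ x q) = 0 ↔ ω.coeff q (chartAt ℂ q q) = 0 :=
  ⟨fun h => by rw [ω.compat q x q ⟨mem_chart_source ℂ q, hq⟩, h, zero_mul],
    fun h => by rw [ω.compat x q q ⟨hq, mem_chart_source ℂ q⟩, h, zero_mul]⟩

lemma rs_analytic (x : X) : AnalyticAt ℂ (ω.coeff x) (chartAt ℂ x x) :=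
  (ω.holo x).analyticAt ((chartAt ℂ x).open_target.mem_nhds (mem_chart_target ℂ x))

/-- the identity theorem -/
lemma rs_ne [ConnectedSpace X] (hω : ∃ x, ω.coeff x (chartAt ℂ x x) ≠ 0) (x : X) :
    ¬ ∀ᶠ z in 𝓝 (chartAt ℂ x x), ω.coeff x z = 0 := by
  have key : ∀ x, (∀ᶠ z in 𝓝 (chartAt ℂ x x), ω.coeff x z = 0) →
      ∀ᶠ q in 𝓝 x, ω.coeff q (chartAt ℂ q q) = 0 := fun x h => by
    filter_upwards [((chartAt ℂ x).continuousAt (mem_chart_source ℂ x)).eventually h,
      chart_source_mem_nhds ℂ x] with q h1 h2 using (ω.rs_zero h2).1 h1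
  have hc : IsClopen {x | ∀ᶠ q in 𝓝 x, ω.coeff q (chartAt ℂ q q) = 0} := by
    refine ⟨isOpen_compl_iff.1 (isOpen_iff_mem_nhds.2 fun x hx => ?_), 
      isOpen_setOfPred_eventually_nhds⟩
    rcases (ω.rs_analytic x).eventually_eq_zero_or_eventually_ne_zero with h | h
    · exact absurd (key x h) hx
    · rw [eventually_nhdsWithin_iff] at h
      filter_upwards [((chartAt ℂ x).continuousAt (mem_chart_source ℂ x)).eventually h,
        chart_source_mem_nhds ℂ x] with q h1 h2 h3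
      by_cases e : q = x
      · exact hx (e ▸ h3)
      · exact h1 (fun h4 => e ((chartAt ℂ x).injOn h2 (mem_chart_source ℂ x) h4))
          ((ω.rs_zero h2).2 (Eventually.self_of_nhds (x := q) h3))
  intro h
  obtain ⟨y, hy⟩ := hω
  have : y ∈ {x | ∀ᶠ q in 𝓝 x, ω.coeff q (chartAt ℂ q q) = 0} :=
    hc.eq_univ ⟨x, key x h⟩ ▸ mem_univ y
  exact hy (Eventually.self_of_nhds (x := y) this)

/-- the cone charts `S` are adapted to the form `ω` -/
structure RsAdapt (S : TransSurf X) : Prop where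
  sub : ∀ x, (S.chart x).source ⊆ (chartAt ℂ x).source
  reg : ∀ x, S.ord x = 1 ↔ ω.coeff x (chartAt ℂ x x) ≠ 0
  der : ∀ x y, ∀ q ∈ (S.chart x).source, q ∈ (chartAt ℂ y).source →
    HasDerivAt (fun z => S.chart x ((chartAt ℂ y).symm z) ^ S.ord x)
      (ω.coeff y (chartAt ℂ y q)) (chartAt ℂ y q)

lemma rs_exists [ConnectedSpace X] [IsManifold (modelWithCornersSelf ℂ ℂ) 1 X]
    (hω : ∃ x, ω.coeff x (chartAt ℂ x x) ≠ 0) : ∃ S : TransSurf X, ω.RsAdapt S := by
  have ex : ∀ x : X, ∃ (n : ℕ) (e : OpenPartialHomeomorph X ℂ), 1 ≤ n ∧ x ∈ e.source ∧ e x = 0 ∧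
      e.source ⊆ (chartAt ℂ x).source ∧ (n = 1 ↔ ω.coeff x (chartAt ℂ x x) ≠ 0) ∧
      ∀ y, ∀ q ∈ e.source, q ∈ (chartAt ℂ y).source →
        HasDerivAt (fun z => e ((chartAt ℂ y).symm z) ^ n)
          (ω.coeff y (chartAt ℂ y q)) (chartAt ℂ y q) := fun x => by
    obtain ⟨n, g, n1, g0, ⟨c, c0, gd⟩, gh, hn⟩ := rs_normal (ω.rs_analytic x) (ω.rs_ne hω x)
    obtain ⟨W, hW, Wo, Wx⟩ := _root_.eventually_nhds_iff.1 gh
    refine ⟨n, (chartAt ℂ x).trans
      (((gd.hasStrictFDerivAt_equiv c0).toOpenPartialHomeomorph g).restrOpen W Wo), n1,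
      ⟨mem_chart_source ℂ x, (gd.hasStrictFDerivAt_equiv c0).mem_toOpenPartialHomeomorph_source,
        Wx⟩, g0, inter_subset_left, hn, fun y q hq hy => ?_⟩
    have h1 := hW _ hq.2.2
    have h2 := (rs_trans hy hq.1).hasDerivAt
    rw [ω.compat y x q ⟨hy, hq.1⟩]
    have h3 := HasDerivAt.comp_of_eq _ h1 h2 (by simp [hy])
    exact h3
  choose n e h1 h2 h3 h4 h5 h6 using ex
  refine ⟨⟨e, n, h1, h2, h3, fun x y q hq => ?_⟩, h4, h5, h6⟩
  have hq' := mem_chart_source ℂ q
  have t1 := (chartAt ℂ q).tendsto_symm hq'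
  have := rs_const (𝕜 := ℂ) (a := chartAt ℂ q q) (D := fun z =>
      e x ((chartAt ℂ q).symm z) ^ n x - e y ((chartAt ℂ q).symm z) ^ n y) (by
    filter_upwards [t1.eventually ((e x).open_source.eventually_mem hq.1),
      t1.eventually ((e y).open_source.eventually_mem hq.2),
      (chartAt ℂ q).open_target.eventually_mem (mem_chart_target ℂ q)] with z a1 a2 a3
    have b := (h6 x q _ a1 ((chartAt ℂ q).map_target a3)).fun_sub
      (h6 y q _ a2 ((chartAt ℂ q).map_target a3))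
    rwa [sub_self, (chartAt ℂ q).right_inv a3] at b)
  filter_upwards [((chartAt ℂ q).continuousAt hq').eventually this, chart_source_mem_nhds ℂ q]
    with q' a1 a2
  rwa [(chartAt ℂ q).left_inv a2, (chartAt ℂ q).left_inv hq'] at a1

variable {ω} {S : TransSurf X}

lemma RsAdapt.ray_of (h : ω.RsAdapt S) {p : X} {e : ℂ} (he : e ≠ 0) {γ : ℝ → X}
    (hγ : ω.IsRay p e γ) : S.IsRay p e γ := by
  obtain ⟨h0, hc, hd⟩ := hγ
  refine ⟨h0, hc, fun t ht => ?_⟩
  have o1 : S.ord (γ t) = 1 := by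
    obtain ⟨w, -, hw⟩ := hd t ht
    exact (h.reg _).2 fun h1 => he (by rw [← hw, h1, zero_mul])
  have ct : ∀ s, 0 < s → ContinuousAt γ s := fun s hs => hc.continuousAt (Ici_mem_nhds hs)
  have := rs_const (𝕜 := ℝ) (a := t) (D := fun s => S.chart (γ t) (γ s) - (s : ℂ) * e) (by
    filter_upwards [Ioi_mem_nhds ht, (ct t ht).eventually
      ((S.chart (γ t)).open_source.eventually_mem (S.mem_source _))] with s hs h1
    obtain ⟨w, w1, w2⟩ := hd s hs
    have h2 := (h.der (γ t) (γ s) (γ s) h1 (mem_chart_source ℂ _)).comp s w1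
    rw [w2, o1] at h2
    have h3 : HasDerivAt (fun s => S.chart (γ t) (γ s)) e s := by
      refine h2.congr_of_eventuallyEq ?_
      filter_upwards [(ct s hs).eventually (chart_source_mem_nhds ℂ (γ s))] with u hu
      simp [(chartAt ℂ (γ s)).left_inv hu]
    simpa using h3.fun_sub ((hasDerivAt_id s).ofReal_comp.mul_const e))
  refine ⟨o1, ?_⟩
  filter_upwards [this] with s hs
  rw [S.center] at hs
  push_cast
  linear_combination hs

lemma RsAdapt.ray_to (h : ω.RsAdapt S) {p : X} {e : ℂ} {γ : ℝ → X}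
    (hγ : S.IsRay p e γ) : ω.IsRay p e γ := by
  obtain ⟨h0, hc, hd⟩ := hγ
  refine ⟨h0, hc, fun t ht => ?_⟩
  obtain ⟨o1, hs⟩ := hd t ht
  have c0 := (h.reg _).1 o1
  have m1 := mem_chart_source ℂ (γ t)
  have d1 := h.der (γ t) (γ t) (γ t) (S.mem_source _) m1
  simp only [o1, pow_one] at d1
  have d2 := ((chartAt ℂ (γ t)).symm.trans (S.chart (γ t))).hasDerivAt_symm (a := 0)
    (by simp [S.area_zero_mem, S.area_symm_zero]) c0
    (by simpa [S.area_symm_zero, Function.comp_def] using d1)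
  have d3 : HasDerivAt (fun s : ℝ => ((s - t : ℝ) : ℂ) * e) e t := by
    simpa using ((hasDerivAt_id t).sub_const t).ofReal_comp.mul_const e
  refine ⟨_, (HasDerivAt.comp_of_eq _ d2 d3 (by simp)).congr_of_eventuallyEq ?_, by field_simp⟩
  filter_upwards [hs, (hc.continuousAt (Ici_mem_nhds ht)).eventually
    ((S.chart (γ t)).open_source.eventually_mem (S.mem_source _))] with s a1 a2
  simp only [Function.comp_apply, ← a1]
  simp [(S.chart (γ t)).left_inv a2]

variable [MeasurableSpace X] [BorelSpace X] [SecondCountableTopology X] [T2Space X]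
  [CompactSpace X]

omit [ChartedSpace ℂ X] [SecondCountableTopology X] [T2Space X] [CompactSpace X] in
lemma rs_meas (e : OpenPartialHomeomorph X ℂ) {A : Set X} (hA : MeasurableSet A)
    (h : A ⊆ e.source) : MeasurableSet (e '' A) := by
  have := e.open_target.measurableSet.subtype_image (e.continuousOn_symm.domRestrict.measurable hA)
  rw [e.image_eq_target_inter_inv_preimage h]
  convert this using 1
  ext z
  simp [and_comm]

omit [SecondCountableTopology X] [T2Space X] [CompactSpace X] in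
lemma RsAdapt.vol_eq (h : ω.RsAdapt S) {x y : X} (hx : S.ord x = 1) {A : Set X}
    (hA : MeasurableSet A) (h1 : A ⊆ (S.chart x).source) (h2 : A ⊆ (chartAt ℂ y).source) :
    volume (S.chart x '' A) = ∫⁻ z in chartAt ℂ y '' A, ‖ω.coeff y z‖ₑ ^ 2 := by
  have := lintegral_abs_det_fderiv_eq_addHaar_image volume (rs_meas _ hA h2)
    (f := fun z => S.chart x ((chartAt ℂ y).symm z))
    (f' := fun z => ω.coeff y z • (1 : ℂ →L[ℝ] ℂ)) (by
      rintro _ ⟨q, hq, rfl⟩
      have := h.der x y q (h1 hq) (h2 hq)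
      simp only [hx, pow_one] at this
      exact this.complexToReal_fderiv.hasFDerivWithinAt) (by
      rintro _ ⟨q, hq, rfl⟩ _ ⟨q', hq', rfl⟩ e
      simp only [(chartAt ℂ y).left_inv (h2 hq), (chartAt ℂ y).left_inv (h2 hq')] at e
      rw [(S.chart x).injOn (h1 hq) (h1 hq') e])
  simp only [rs_det] at this
  rw [this, image_image]
  congr 1
  exact image_congr fun q hq => by rw [(chartAt ℂ y).left_inv (h2 hq)]

omit [SecondCountableTopology X] in
lemma RsAdapt.area_of (h : ω.RsAdapt S) {lam : Measure X} (hl : ω.IsArea lam) : S.IsArea lam := by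
  refine ⟨?_, fun x hx A hA h1 => ?_⟩
  · rw [← biUnion_of_singleton {x | 2 ≤ S.ord x}, measure_biUnion_null_iff S.finite_sing.countable]
    intro x _
    rw [hl x {x} (measurableSet_singleton x) (singleton_subset_iff.2 (mem_chart_source ℂ x)),
      image_singleton, setLIntegral_measure_zero _ _ (measure_singleton _)]
  · rw [hl x A hA (h1.trans (h.sub x)), h.vol_eq hx hA h1 (h1.trans (h.sub x))]

lemma RsAdapt.area_to (h : ω.RsAdapt S) {lam : Measure X} (hl : S.IsArea lam) : ω.IsArea lam := by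
  intro y A hA hy
  have tm := (chartAt ℂ y).open_target.measurableSet
  obtain ⟨ν, hν⟩ : ∃ ν : Measure X, ∀ B, MeasurableSet B → B ⊆ (chartAt ℂ y).source →
      ν B = ∫⁻ z in chartAt ℂ y '' B, ‖ω.coeff y z‖ₑ ^ 2 := by
    refine ⟨Measure.map (chartAt ℂ y).symm ((volume.withDensity
      fun z => ‖ω.coeff y z‖ₑ ^ 2).restrict (chartAt ℂ y).target), fun B hB h1 => ?_⟩
    rw [Measure.map_apply_of_aemeasurable ((chartAt ℂ y).continuousOn_symm.aemeasurable tm) hB,
      Measure.restrict_apply' tm, inter_comm, ← (chartAt ℂ y).image_eq_target_inter_inv_preimage h1,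
      withDensity_apply _ (rs_meas _ hB h1)]
  have sm : MeasurableSet {x | 2 ≤ S.ord x} := S.finite_sing.measurableSet
  obtain ⟨T, hTR, hTc, hT⟩ := TopologicalSpace.isOpen_biUnion_countable {x | S.ord x = 1}
    (fun x => (S.chart x).source ∩ (chartAt ℂ y).source)
    fun x _ => (S.chart x).open_source.inter (chartAt ℂ y).open_source
  have key : lam.restrict (⋃ x ∈ T, (S.chart x).source ∩ (chartAt ℂ y).source) =
      ν.restrict (⋃ x ∈ T, (S.chart x).source ∩ (chartAt ℂ y).source) := by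
    refine (Measure.restrict_biUnion_congr hTc).2 fun x hx => ?_
    refine (Measure.restrict_congr_meas ((S.chart x).open_source.inter
      (chartAt ℂ y).open_source).measurableSet).2 fun t ht htm => ?_
    have t1 := ht.trans inter_subset_left
    have t2 := ht.trans inter_subset_right
    rw [hl.2 x (hTR hx) t htm t1, hν t htm t2, h.vol_eq (hTR hx) htm t1 t2]
  have sub : A \ {x | 2 ≤ S.ord x} ⊆ ⋃ x ∈ T, (S.chart x).source ∩ (chartAt ℂ y).source := by
    rw [hT]
    intro q hq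
    have h1 := S.ord_pos q
    have h2 : ¬ 2 ≤ S.ord q := hq.2
    exact mem_biUnion (show q ∈ {x | S.ord x = 1} from by simp only [mem_ofPred_eq]; omega)
      ⟨S.mem_source q, hy hq.1⟩
  have e := congrArg (fun m : Measure X => m (A \ {x | 2 ≤ S.ord x})) key
  simp only [Measure.restrict_apply (hA.diff sm), inter_eq_left.2 sub] at e
  have z : ν (A ∩ {x | 2 ≤ S.ord x}) = 0 := by
    rw [hν _ (hA.inter sm) (inter_subset_left.trans hy), setLIntegral_measure_zero]
    exact ((S.finite_sing.inter_of_right A).image _).measure_zero _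
  rw [← hν A hA hy, ← measure_inter_add_sdiff A sm, ← measure_inter_add_sdiff (μ := ν) A sm, z, e,
    measure_mono_null inter_subset_right hl.1]

end HolForm

theorem main_form (X : Type) [TopologicalSpace X] [CompactSpace X] [T2Space X] [ConnectedSpace X]
    [ChartedSpace ℂ X] [IsManifold (modelWithCornersSelf ℂ ℂ) 1 X] [MeasurableSpace X]
    [BorelSpace X] (ω : HolForm X) (hω : ∃ x, ω.coeff x (chartAt ℂ x x) ≠ 0) (p : X) :
    (∃ lam : Measure X, ω.IsArea lam) ∧ (∃ γ : ℝ → ℝ → X, ω.IsRayFamily p γ) ∧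
    ∀ lam : Measure X, ω.IsArea lam → (0 < lam univ ∧ lam univ < ⊤) ∧
      ∀ γ : ℝ → ℝ → X, ω.IsRayFamily p γ → ∃ G : Set ℝ, MeasurableSet G ∧
        Tendsto (fun N : ℝ => (volume (G ∩ Icc (-N) N)).toReal / (2 * N)) atTop (𝓝 1) ∧
        ∀ h : C(X, ℝ), Tendsto (fun t : ℝ => ∫ θ in (0 : ℝ)..1, h (γ θ t)) (atTop ⊓ 𝓟 G)
          (𝓝 ((∫ q, h q ∂lam) / (lam univ).toReal)) := by
  have := ChartedSpace.secondCountable_of_sigmaCompact ℂ X
  obtain ⟨S, hS⟩ := ω.rs_exists hω
  obtain ⟨⟨lam, h1⟩, ⟨γ, h2, h3⟩, h4⟩ := main X S p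
  exact ⟨⟨lam, hS.area_to h1⟩, ⟨γ, h2, h3.mono fun θ hθ => hS.ray_to hθ⟩, fun lam hl =>
    ⟨(h4 lam (hS.area_of hl)).1, fun γ hγ => (h4 lam (hS.area_of hl)).2 γ
      ⟨hγ.1, hγ.2.mono fun θ hθ => hS.ray_of (Complex.exp_ne_zero _) hθ⟩⟩⟩

end Pool.Agent.MP_d0b2d2_an.Gen
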