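import Pool.Agent.MP_d0b2d2_an.Gen.PotII
import Pool.Agent.MP_d0b2d2_an.Gen.Grow

open Set Filter Topology

namespace Pool.Agent.MP_d0b2d2_an.Gen.ResData

variable {ρ : ℕ} {V : Type} [NormedAddCommGroup V] [InnerProductSpace ℝ V] (D : ResData ρ V)

lemma resII_eight (t : ℕ) : Real.exp (2 * t) ≤ (8 : ℝ) ^ t := by
  rw [mul_comm, Real.exp_nat_mul]
  refine pow_le_pow_left₀ (Real.exp_pos _).le ?_ t
  have h := Real.exp_one_lt_d9
  have e : Real.exp 2 = Real.exp 1 ^ 2 := by rw [← Real.exp_nat_mul]; norm_num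
  rw [e]
  nlinarith [Real.exp_pos 1]

lemma resII_two (t : ℕ) : (2 : ℝ) ^ t ≤ Real.exp t := by
  rw [← Real.exp_one_pow]
  exact pow_le_pow_left₀ (by norm_num) (by linarith [Real.add_one_le_exp 1]) t

/-- a fixed sublattice of intermediate depth drops over a block -/
lemma resII_fix {κ : ℝ} (hκ : 0 < κ) (hκ' : κ ≤ 1 / 2) : ∃ C ≥ (1 : ℝ), ∃ s₀ ≥ (3 : ℝ),
    ∀ s ≥ s₀, ∀ r, r = s ^ 4 → ∀ ξ, 0 ≤ ξ → 8 * ξ ≤ s → ∀ (σ₀ : ℝ) (k B : ℕ), |σ₀| ≤ 1 →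
    r ≤ k → r / 16 ≤ B → B ≤ r → D.th σ₀ k (Real.exp (-√r)) → ∀ W : Lat ρ,
    D.Deep σ₀ k 1 ξ W 1 → ¬ D.Deep σ₀ k 1 ξ W (Real.exp (-r)) →
    dens B (fun τ => D.GapAt κ (σ₀ + τ / 4 ^ k) k B ∧
      0 < D.uu (potII ρ κ ξ r) (σ₀ + τ / 4 ^ k) (k + B) W) ≤ C / s := by
  obtain ⟨C₁, hC₁, h₁⟩ := D.cv_lower
  obtain ⟨C₂, hC₂, h₂⟩ := D.om_drop
  have c2 : 0 ≤ C₂ * Real.exp C₂ := by positivity
  have c1 : 0 ≤ 32 * (9 + C₁) / κ := by positivity
  refine ⟨9 + C₂ * Real.exp C₂, by linarith, 3 + 32 * (9 + C₁) / κ, by linarith,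
    fun s hs r hr ξ hξ hξs σ₀ k B h0 hk hB1 hB2 hth W hD hN => ?_⟩
  have s3 : 3 ≤ s := by linarith
  have s0 : 0 < s := by linarith
  have s4 : 32 * (9 + C₁) ≤ s * κ := (div_le_iff₀ hκ).1 (by linarith)
  have t2 : s ≤ s ^ 2 := by nlinarith
  have t3 : s ^ 2 ≤ s ^ 3 := by nlinarith
  have t4 : 16 * s ≤ r := by
    have : 3 ^ 3 ≤ s ^ 3 := pow_le_pow_left₀ (by norm_num) s3 3
    nlinarith
  have r1 : 1 ≤ r := by linarith
  have hq : √r = s ^ 2 := by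
    rw [hr, show s ^ 4 = (s ^ 2) ^ 2 by ring, Real.sqrt_sq (sq_nonneg s)]
  obtain ⟨m, hm, w, cw, κ₀, hκ₀, d1, -, d3, -⟩ := D.dec2 (Deep.surj D hD) 1
  obtain ⟨x₁, hx₁, x₂, hx₂, hw, hxx⟩ := Deep.pair' D hD zero_le_one 1
  obtain ⟨cc, hc, hc'⟩ := D.dec_phi (Deep.surj D hD) (Real.exp_pos _) hN
  have om0 : ∀ σ k, 0 ≤ D.om w cw κ₀ σ k := fun σ k => mul_nonneg hκ₀.le (Real.sqrt_nonneg _)
  have c0 : Real.exp (-(C₁ * s ^ 2)) ≤ 2 * D.om w cw κ₀ σ₀ k := by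
    have a2 := h₁ r r1 σ₀ k hth 1 le_rfl σ₀ ξ W
    rw [hq] at a2
    have a3 := d3 σ₀ k 1 σ₀ ξ x₁ hx₁ x₂ hx₂ hw
    have a4 := mul_le_mul_of_nonneg_left hxx (om0 σ₀ k)
    linarith
  have hf : 8 * 1 * ξ ≤ Real.exp (-r) * (1 / s) * 8 ^ k := by
    have a1 : Real.exp (2 * r) ≤ 8 ^ k :=
      (Real.exp_le_exp.2 (by linarith)).trans (resII_eight k)
    have a2 : s * s ≤ Real.exp r := by nlinarith [Real.add_one_le_exp r]
    calc 8 * 1 * ξ ≤ s * s * (1 / s) := by field_simp; linarith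
      _ ≤ Real.exp r * (1 / s) := by gcongr
      _ = Real.exp (-r) * (1 / s) * Real.exp (2 * r) := by
        rw [mul_right_comm, ← Real.exp_add]; congr 2; ring
      _ ≤ _ := by gcongr
  have g := D.grow2 h0 k B zero_le_one hξ (Real.exp_pos _) (η := 1 / s) (by positivity) hκ' hf W
    hc hc'
  have o := h₂ m hm w cw κ₀ σ₀ k B (1 / s ^ 2) (s ^ 3) hκ₀ (by positivity)
    ((div_le_one (by positivity)).2 (by linarith))
  refine le_trans (dens_mono fun j _ hj => ?_) ((dens_or B _ _).trans ((add_le_add g o).trans ?_))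
  · by_contra hn
    rw [not_or, not_and, not_lt] at hn
    obtain ⟨n1, n2⟩ := hn
    have n1 := n1 hj.1
    push Not at n1
    set σ₁ : ℝ := σ₀ + (j : ℝ) / 4 ^ B / 4 ^ k
    have a1 := d1 σ₁ (k + B) (Real.exp (-r)) σ₁ ξ _ _ (Real.exp_pos _).le (by positivity) n1
    rw [norm_zm_slope] at a1
    set cv₁ := cov (D.LL σ₁ (k + B) (Real.exp (-r)) 1 σ₁ ξ) W with hcv
    have a4 : Real.exp (-r) * Real.exp (κ * B) * Real.exp (-r) * (1 / s / 4) *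
        D.om w cw κ₀ σ₁ (k + B) ≤ cv₁ := by
      have := mul_le_mul_of_nonneg_left a1 (show (0 : ℝ) ≤ 2 ^ (k + B) by positivity)
      refine le_of_eq_of_le ?_ (this.trans_eq ?_) <;> field_simp
    have a5 : Real.exp (-(8 * s)) ≤ 1 / s / 8 := by
      rw [Real.exp_neg, div_div, one_div]
      exact inv_anti₀ (by positivity) (by linarith [Real.add_one_le_exp (8 * s)])
    have a7 : Real.exp (-r + κ * B + -r + -(8 * s) + (-s ^ 3 + -(C₁ * s ^ 2))) ≤ cv₁ := calc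
      _ = Real.exp (-r) * Real.exp (κ * B) * Real.exp (-r) * Real.exp (-(8 * s)) *
        (Real.exp (-s ^ 3) * Real.exp (-(C₁ * s ^ 2))) := by simp only [Real.exp_add]
      _ ≤ Real.exp (-r) * Real.exp (κ * B) * Real.exp (-r) * (1 / s / 8) *
        (Real.exp (-s ^ 3) * (2 * D.om w cw κ₀ σ₀ k)) := by gcongr
      _ = Real.exp (-r) * Real.exp (κ * B) * Real.exp (-r) * (1 / s / 4) *
        (Real.exp (-s ^ 3) * D.om w cw κ₀ σ₀ k) := by ring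
      _ ≤ _ := by
        refine le_trans ?_ a4
        gcongr
    rw [← Real.le_log_iff_exp_le ((Real.exp_pos _).trans_le a7)] at a7
    have a9 : κ / 32 / 3 ^ rk W * r ≤ κ / 32 * r :=
      mul_le_mul_of_nonneg_right (potII_le hκ) (by linarith)
    have a10 := mul_le_mul_of_nonneg_left hB1 hκ.le
    have a11 : 32 * (9 + C₁) * s ^ 3 ≤ κ * r := by
      rw [hr]
      nlinarith [mul_le_mul_of_nonneg_right s4 (pow_pos s0 3).le]
    have a12 := mul_le_mul_of_nonneg_left t3 (show 0 ≤ C₁ by linarith)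
    have := hj.2
    change 0 < κ / 32 / 3 ^ rk W * r - 2 * r - Real.log cv₁ at this
    linarith
  · have b1 : 1 / (4 : ℝ) ^ B ≤ 1 / s := by
      have : (B : ℝ) ≤ 4 ^ B := by exact_mod_cast (Nat.lt_pow_self (by norm_num)).le
      exact one_div_le_one_div_of_le s0 (by linarith)
    have b2 : Real.exp (C₂ * (1 / s ^ 2) ^ 2 * B - 2 * (1 / s ^ 2) * s ^ 3) ≤
        Real.exp C₂ * (1 / s) := by
      have e1 : 2 * (1 / s ^ 2) * s ^ 3 = 2 * s := by field_simp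
      have e2 : C₂ * (1 / s ^ 2) ^ 2 * B ≤ C₂ := by
        have : C₂ * (1 / s ^ 2) ^ 2 * r = C₂ := by rw [hr]; field_simp
        refine le_of_le_of_eq ?_ this
        gcongr
      rw [e1, sub_eq_add_neg, Real.exp_add]
      refine mul_le_mul (Real.exp_le_exp.2 e2) ?_ (Real.exp_pos _).le (Real.exp_pos _).le
      rw [Real.exp_neg, one_div]
      exact inv_anti₀ s0 (by linarith [Real.add_one_le_exp (2 * s)])
    have b3 := mul_le_mul_of_nonneg_left b2 (show 0 ≤ C₂ by linarith)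
    have b4 : (9 + C₂ * Real.exp C₂) / s = 9 * (1 / s) + C₂ * (Real.exp C₂ * (1 / s)) := by ring
    linarith

/-- locks of depth about `r` are rare -/
theorem res_two {κ bm : ℝ} (hκ : 0 < κ) (hκ' : κ ≤ 1 / 2) :
    ∃ C ≥ (1 : ℝ), ∃ r₀ ≥ (1 : ℝ), ∀ r ≥ r₀, ∀ K K' N : ℕ, r ≤ K → K ≤ K' → K' + K ≤ N →
    ∀ ξ, 0 ≤ ξ → ξ ≤ bm →
    ∑ k ∈ Finset.Ico K K', dens N (fun σ => D.Good κ N σ k ∧
      ∃ W, D.Lock ξ (gam ρ κ / 20 * r) ((1 - gam ρ κ / 20) * r) (tr k σ) k W ∧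
        ¬ D.Deep (tr k σ) k 1 ξ W (Real.exp (-r))) ≤ C * (N / r ^ (1 / 4 : ℝ) + r) := by
  have g0 := potII_gam_pos ρ hκ
  have g1 : gam ρ κ ≤ κ / 32 := (potII_gam_le hκ le_rfl).trans (potII_le hκ)
  obtain ⟨-, -, r₁, -, h₁⟩ := D.potII_spec hκ hκ'
  obtain ⟨C₂, hC₂, h₂⟩ := D.nondiv_exp
  obtain ⟨C₃, hC₃, r₃, -, h₃⟩ := D.pot_main (γ := gam ρ κ / 4) (θ := 1 / 16) (by positivity)
    (by linarith) (by norm_num)
  obtain ⟨C₄, hC₄, s₀, hs₀, h₄⟩ := D.resII_fix hκ hκ'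
  have c4 : 0 ≤ ((ρ : ℝ) + 2) * C₄ := by positivity
  refine ⟨C₃ * (C₂ + (ρ + 2) * C₄ + 1), one_le_mul_of_one_le_of_one_le hC₃ (by linarith),
    max (max 1 r₁) (max r₃ ((s₀ + 8 * |bm|) ^ 4)), (le_max_left _ _).trans (le_max_left _ _),
    fun r hr K K' N hK hK' hN ξ hξ hξ' => ?_⟩
  simp only [ge_iff_le, max_le_iff] at hr
  obtain ⟨⟨r1, e1⟩, e3, e4⟩ := hr
  set s := r ^ (1 / 4 : ℝ) with hs
  have s0 : 0 < s := Real.rpow_pos_of_pos (by linarith) _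
  have hr : r = s ^ 4 := by
    rw [hs, ← Real.rpow_natCast, ← Real.rpow_mul (by linarith)]; norm_num
  have s1 : s₀ + 8 * |bm| ≤ s := le_of_pow_le_pow_left₀ (n := 4) (by norm_num) s0.le (hr ▸ e4)
  have s2 : 8 * ξ ≤ s := by linarith [le_abs_self bm]
  have s3 : s₀ ≤ s := by linarith [abs_nonneg bm]
  have s4 : s ≤ r := by
    rw [hr]; exact le_self_pow₀ (by linarith) (by norm_num)
  have hq : √r = s ^ 2 := by
    rw [hr, show s ^ 4 = (s ^ 2) ^ 2 by ring, Real.sqrt_sq (sq_nonneg s)]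
  obtain ⟨p1, p2, p3, p4⟩ := h₁ r e1 ξ
  obtain ⟨B, b1, b2, b3⟩ := h₃ r e3
  have b4 : (B : ℝ) ≤ r / 8 := by nlinarith
  have b5 : B ≤ K := by exact_mod_cast (show (B : ℝ) ≤ K by linarith)
  set P := potII ρ κ ξ r with hP
  have pΓ : P.Γ = gam ρ κ / 4 * r := rfl
  have hΓ : 0 ≤ P.Γ := by rw [pΓ]; positivity
  have hf : 4 * P.ξ * P.b * 2 ^ B ≤ P.a * 8 ^ K := by
    change 4 * ξ * 1 * 2 ^ B ≤ Real.exp (-r) * 8 ^ K
    have a1 : 4 * ξ * 1 ≤ Real.exp (r / 2) := by linarith [Real.add_one_le_exp (r / 2)]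
    have a2 : (2 : ℝ) ^ B ≤ Real.exp (r / 2) :=
      (resII_two _).trans (Real.exp_le_exp.2 (by linarith))
    have a3 : Real.exp (2 * r) ≤ 8 ^ K :=
      (Real.exp_le_exp.2 (by linarith)).trans (resII_eight K)
    calc 4 * ξ * 1 * 2 ^ B ≤ Real.exp (r / 2) * Real.exp (r / 2) := by gcongr
      _ = Real.exp (-r) * Real.exp (2 * r) := by
        rw [← Real.exp_add, ← Real.exp_add]; congr 1; ring
      _ ≤ _ := by gcongr
  refine (b3 P pΓ (Real.exp_pos _) one_pos hξ p1 K K' N (κ / 16 * r)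
    ((C₂ + (ρ + 2) * C₄) / s) _ hK' (by omega) hf (by rw [pΓ]; nlinarith) (by positivity) p2
    ?_ ?_).trans ?_
  · rintro σ k ⟨-, W, hW, -⟩
    linarith [(p3 _ k W hW).1]
  · intro k k1 k2
    have k3 : r ≤ k := hK.trans (by exact_mod_cast k1)
    have hkB : k + B ≤ N := by omega
    refine le_trans (dens_mono ?_) ((dens_cond' hkB (fun σ => D.th σ k (Real.exp (-√r)))
      (fun σ₀ σ₁ => D.GapAt κ σ₁ k B ∧ ∃ W ∈ D.Ch P σ₀ k,
        (D.th σ₀ k (Real.exp (-√r)) → ¬ D.Deep σ₀ k 1 ξ W (Real.exp (-r))) ∧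
        0 < D.uu P σ₁ (k + B) W) (p := (ρ + 2) * C₄ / s) (by positivity)
      fun j hj hth => ?_).trans ?_)
    · rintro j - ⟨⟨a1, W, a2, a3⟩, W', a4, a5⟩
      refine ⟨a1 B hkB, W', a4, fun hth h => a3 (Deep.mono D h le_rfl le_rfl
        ((p3 _ k W a2).2 hth W' a4)), ?_⟩
      linarith [D.le_UU (P := P) (tr k (j / 4 ^ N)) k]
    · set σ₀ : ℝ := (j : ℝ) / 4 ^ k
      have h0 : |σ₀| ≤ 1 := by
        rw [abs_of_nonneg (by positivity), div_le_one (by positivity)]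
        exact_mod_cast hj.le
      have key : ∀ i : ℕ, dens B (fun τ => D.GapAt κ (σ₀ + τ / 4 ^ k) k B ∧ ∃ W ∈ D.Ch P σ₀ k,
          rk W = i ∧ ¬ D.Deep σ₀ k 1 ξ W (Real.exp (-r)) ∧
          0 < D.uu P (σ₀ + τ / 4 ^ k) (k + B) W) ≤ C₄ / s := by
        intro i
        by_cases h : ∃ W ∈ D.Ch P σ₀ k, rk W = i ∧ ¬ D.Deep σ₀ k 1 ξ W (Real.exp (-r))
        · obtain ⟨W, hW, hi, hd⟩ := h
          refine le_trans (dens_mono ?_) (h₄ s s3 r hr ξ hξ s2 σ₀ k B h0 k3 (by linarith)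
            (by linarith) hth W (p4 σ₀ k hth W hW).1 hd)
          rintro j' - ⟨a1, W', hW', a2, -, a3⟩
          exact ⟨a1, p1 σ₀ k hth W' hW' W hW (a2.trans hi.symm) ▸ a3⟩
        · rw [dens_false]
          · positivity
          · rintro j' - ⟨-, W', hW', a2, a3, -⟩
            exact h ⟨W', hW', a2, a3⟩
      refine le_trans (dens_mono ?_) ((dens_exists B (Finset.range (ρ + 2)) _).trans
        ((Finset.sum_le_sum fun i _ => key i).trans (le_of_eq ?_)))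
      · rintro j' - ⟨a1, W, hW, a2, a3⟩
        exact ⟨rk W, Finset.mem_range.2 (Nat.lt_succ_of_le (rk_le W)), a1, W, hW, rfl, a2 hth, a3⟩
      · rw [Finset.sum_const, Finset.card_range, nsmul_eq_mul]
        push_cast
        ring
    · have a1 := h₂ r r1 k
      have a2 : C₂ / √r ≤ C₂ / s := by
        rw [hq]
        exact div_le_div_of_nonneg_left (by linarith) s0 (by nlinarith)
      rw [add_div]
      linarith
  · have a1 : (K' : ℝ) - K + B ≤ N := by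
      have : (K' : ℝ) + B ≤ N := by exact_mod_cast (show K' + B ≤ N by omega)
      linarith
    have a2 : ((K' : ℝ) - K + B) * ((C₂ + (ρ + 2) * C₄) / s + 1 / s) ≤
        N * ((C₂ + (ρ + 2) * C₄) / s + 1 / s) := by gcongr
    have a3 : κ / 16 * r ≤ (C₂ + (ρ + 2) * C₄ + 1) * r := by gcongr; linarith
    rw [mul_assoc C₃]
    refine mul_le_mul_of_nonneg_left ?_ (by linarith)
    calc _ ≤ N * ((C₂ + (ρ + 2) * C₄) / s + 1 / s) + (C₂ + (ρ + 2) * C₄ + 1) * r :=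
          add_le_add a2 a3
      _ = _ := by ring

end Pool.Agent.MP_d0b2d2_an.Gen.ResData
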