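import Pool.Agent.MP_d0b2d2_an.Gen.PotII
import Pool.Agent.MP_d0b2d2_an.Gen.Grow

open Set Filter Topology

namespace Pool.Agent.MP_d0b2d2_an.Gen.ResData

variable {ρ : ℕ} {V : Type} [NormedAddCommGroup V] [InnerProductSpace ℝ V] (D : ResData ρ V)

lemma resTop_exp_small {C a η : ℝ} (ha : 0 < a) (hη : 0 < η) :
    ∀ᶠ S : ℝ in atTop, C * Real.exp (-(a * S)) ≤ η := by
  have h : Tendsto (fun S : ℝ => C * Real.exp (-(a * S))) atTop (𝓝 (C * 0)) :=
    (Real.tendsto_exp_neg_atTop_nhds_zero.comp (tendsto_id.const_mul_atTop ha)).const_mul C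
  rw [mul_zero] at h
  exact h.eventually_le_const hη

lemma resTop_rpow_small {C a η : ℝ} (ha : 0 < a) (hη : 0 < η) :
    ∀ᶠ S : ℝ in atTop, C / S ^ a ≤ η :=
  ((tendsto_rpow_atTop ha).const_div_atTop C).eventually_le_const hη

lemma resTop_sqrt_small {C η : ℝ} (hη : 0 < η) : ∀ᶠ S : ℝ in atTop, C / √S ≤ η := by
  simpa only [Real.sqrt_eq_rpow] using resTop_rpow_small (C := C) (a := 1 / 2) (by norm_num) hη

lemma resTop_eight (t : ℕ) : (8 : ℝ) ^ t ≤ Real.exp (3 * t) := by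
  rw [mul_comm, Real.exp_nat_mul]
  refine pow_le_pow_left₀ (by norm_num) ?_ t
  have h := Real.add_one_le_exp 1
  have e : Real.exp 3 = Real.exp 1 ^ 3 := by rw [← Real.exp_nat_mul]; norm_num
  rw [e]
  calc (8 : ℝ) = 2 ^ 3 := by norm_num
    _ ≤ Real.exp 1 ^ 3 := pow_le_pow_left₀ (by norm_num) (by linarith) 3

lemma resTop_eight' (t : ℕ) : Real.exp (2 * t) ≤ (8 : ℝ) ^ t := by
  rw [mul_comm, Real.exp_nat_mul]
  refine pow_le_pow_left₀ (Real.exp_pos _).le ?_ t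
  have h := Real.exp_one_lt_d9
  have e : Real.exp 2 = Real.exp 1 ^ 2 := by rw [← Real.exp_nat_mul]; norm_num
  rw [e]
  nlinarith [Real.exp_pos 1]

lemma resTop_two (t : ℕ) : (2 : ℝ) ^ t ≤ Real.exp t := by
  rw [← Real.exp_one_pow]
  exact pow_le_pow_left₀ (by norm_num) (by linarith [Real.add_one_le_exp 1]) t

/-- a fixed deep sublattice drops over a long epoch -/
lemma resTop_fix {κ am c η : ℝ} (hκ : 0 < κ) (hκ' : κ ≤ 1 / 2) (ha : 0 < am) (hc : 0 < c)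
    (hη : 0 < η) : ∀ᶠ S : ℝ in atTop, ∀ ξ, am ≤ ξ → ∀ (σ₀ : ℝ) (t B : ℕ), 0 ≤ σ₀ →
    σ₀ + 1 / 4 ^ t ≤ 1 → D.th σ₀ t (Real.exp (-√S)) → 3 * t ≤ κ * B → S ≤ B → B ≤ c * S →
    ∀ W ∈ (potII ρ κ ξ S).Adm, D.Deep σ₀ t 1 ξ W 1 →
    dens B (fun τ => D.GapAt κ (σ₀ + τ / 4 ^ t) t B ∧
      0 < D.uu (potII ρ κ ξ S) (σ₀ + τ / 4 ^ t) (t + B) W) ≤ η := by
  obtain ⟨C₁, hC₁, h₁⟩ := D.cv_lower
  obtain ⟨C₂, hC₂, h₂⟩ := D.om_drop
  set κ₁ : ℝ := min 1 (1 / (4 * C₂ * c)) with hκ₁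
  have k0 : 0 < κ₁ := lt_min one_pos (by positivity)
  have k1 : κ₁ ≤ 1 := min_le_left _ _
  have k2 : κ₁ * (4 * C₂ * c) ≤ 1 := (le_div_iff₀ (by positivity)).1 (min_le_right _ _)
  have hη' : 0 < η / 21 := by positivity
  filter_upwards [eventually_ge_atTop 1, eventually_ge_atTop (6 / η),
    resTop_exp_small (C := C₂) (a := κ₁ / 4) (by positivity) (show 0 < η / 3 by positivity),
    resTop_exp_small (C := 1) (a := 1 / 4) (by positivity)
      (show 0 < am * (η / 21) ^ 2 / 4 by positivity),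
    eventually_ge_atTop ((4 * C₁) ^ 2)] with S e1 e2 e3 e4 e5
  intro ξ hξ σ₀ t B h0 h1 hth hB1 hB2 hB3 W hW hD
  have hξ0 : 0 < ξ := ha.trans_le hξ
  obtain ⟨m, hm, w, cw, κ₀, hκ₀, d1, -, -, d4⟩ := D.dec2 (Deep.surj D hD) 1
  obtain ⟨ν, hν, cc, d5, d6⟩ := d4 hW.1 hW.2 σ₀ t
  obtain ⟨x₁, hx₁, x₂, hx₂, hw, hxx⟩ := Deep.pair' D hD zero_le_one 1
  set u := Real.exp (-(1 / 4 * S)) with hu
  have u0 : 0 < u := Real.exp_pos _
  have om0 : ∀ σ k, 0 ≤ D.om w cw κ₀ σ k := fun σ k => mul_nonneg hκ₀.le (Real.sqrt_nonneg _)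
  have c0 : u ≤ 2 * (ν * D.om w cw κ₀ σ₀ t) := by
    have a1 : u ≤ Real.exp (-(C₁ * √S)) := by
      refine Real.exp_le_exp.2 (neg_le_neg ?_)
      have : 4 * C₁ ≤ √S := Real.le_sqrt_of_sq_le e5
      nlinarith [Real.mul_self_sqrt (show 0 ≤ S by linarith), Real.sqrt_nonneg S]
    have a2 := h₁ S e1 σ₀ t hth 1 le_rfl σ₀ ξ (sat (W ⊔ Submodule.span ℤ {eps ρ}))
    have a3 := d6 1 σ₀ ξ x₁ hx₁ x₂ hx₂ hw
    rw [abs_one, one_mul] at a3
    have a4 := mul_le_mul_of_nonneg_left hxx (mul_nonneg hν (om0 σ₀ t))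
    linarith
  have hν0 : 0 < ν := by
    rcases hν.eq_or_lt with h | h
    · rw [← h] at c0; linarith
    · exact h
  have g := D.grow3 t B h0 h1 (b := 1) (ξ := ξ) (ν := ν * ξ) (mul_pos hν0 hξ0) hη' hκ' W
    (cc := cc) fun τ x hx => by simpa only [one_mul, mul_assoc] using d5 τ ξ x hx
  have o := h₂ m hm w cw κ₀ σ₀ t B κ₁ (1 / 4 * S) hκ₀ k0 k1
  refine le_trans (dens_mono fun j _ hj => ?_) ((dens_or B _ _).trans ((add_le_add g o).trans ?_))
  · by_contra hn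
    rw [not_or, not_and, not_lt] at hn
    obtain ⟨n1, n2⟩ := hn
    have n1 := n1 hj.1
    push Not at n1
    set σ₁ : ℝ := σ₀ + (j : ℝ) / 4 ^ B / 4 ^ t
    have a1 := d1 σ₁ (t + B) (Real.exp (-S)) σ₁ ξ _ _ (Real.exp_pos _).le (by positivity) n1
    rw [norm_zm_slope] at a1
    have a2 : Real.exp (-S) = u ^ 4 := by
      rw [hu, ← Real.exp_nat_mul]; congr 1; push_cast; ring
    have a3 : (8 : ℝ) ^ t ≤ Real.exp (κ * B) := (resTop_eight t).trans (Real.exp_le_exp.2 hB1)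
    set cv₁ := cov (D.LL σ₁ (t + B) (Real.exp (-S)) 1 σ₁ ξ) W with hcv
    have a4 : u ^ 4 * (Real.exp (κ * B) / 8 ^ t) * (ν * ξ * (η / 21) ^ 2 / 2) *
        D.om w cw κ₀ σ₁ (t + B) ≤ cv₁ := by
      rw [a2] at a1
      have := mul_le_mul_of_nonneg_left a1 (show (0 : ℝ) ≤ 2 ^ (t + B) by positivity)
      refine le_of_eq_of_le ?_ (this.trans_eq ?_) <;> field_simp
    have a5 : 1 ≤ Real.exp (κ * B) / 8 ^ t := (one_le_div (by positivity)).2 a3
    have a6 : u ≤ ξ * (η / 21) ^ 2 / 4 := by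
      rw [one_mul] at e4
      exact e4.trans (by gcongr)
    have a7 : u ^ 7 ≤ cv₁ := calc
      u ^ 7 = u ^ 5 * u * u := by ring
      _ ≤ u ^ 5 * (ξ * (η / 21) ^ 2 / 4) * (2 * (ν * D.om w cw κ₀ σ₀ t)) := by gcongr
      _ = u ^ 4 * 1 * (ν * ξ * (η / 21) ^ 2 / 2) * (u * D.om w cw κ₀ σ₀ t) := by ring
      _ ≤ _ := by
        refine le_trans ?_ a4
        gcongr
        exact mul_nonneg u0.le (om0 _ _)
    have a8 : -(7 / 4 * S) ≤ Real.log cv₁ := by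
      rw [Real.le_log_iff_exp_le (lt_of_lt_of_le (by positivity) a7)]
      refine le_of_eq_of_le ?_ a7
      rw [hu, ← Real.exp_nat_mul]; congr 1; push_cast; ring
    have a9 : κ / 32 / 3 ^ rk W * S ≤ 1 / 64 * S := by
      refine mul_le_mul_of_nonneg_right ?_ (by linarith)
      exact (div_le_self (by positivity) (one_le_pow₀ (by norm_num))).trans (by linarith)
    have := hj.2
    change 0 < κ / 32 / 3 ^ rk W * S - 2 * S - Real.log cv₁ at this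
    linarith
  · have b1 : 2 / (4 : ℝ) ^ B ≤ η / 3 := by
      have : (B : ℝ) ≤ 4 ^ B := by exact_mod_cast (Nat.lt_pow_self (by norm_num)).le
      rw [div_le_iff₀ (by positivity)]
      rw [div_le_iff₀ hη] at e2
      nlinarith
    have b2 : C₂ * Real.exp (C₂ * κ₁ ^ 2 * B - 2 * κ₁ * (1 / 4 * S)) ≤ η / 3 := by
      refine le_trans (mul_le_mul_of_nonneg_left (Real.exp_le_exp.2 ?_) (by linarith)) e3
      have : C₂ * κ₁ ^ 2 * B ≤ C₂ * κ₁ ^ 2 * (c * S) := by gcongr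
      have h3 := mul_le_mul_of_nonneg_right k2 (show 0 ≤ κ₁ * S by positivity)
      nlinarith
    linarith

/-- every nearly maximal sublattice drops over a long epoch -/
lemma resTop_epoch {κ am c η : ℝ} (hκ : 0 < κ) (hκ' : κ ≤ 1 / 2) (ha : 0 < am) (hc : 0 < c)
    (hη : 0 < η) : ∀ᶠ S : ℝ in atTop, ∀ ξ, am ≤ ξ → ∀ t B N : ℕ, t + B ≤ N →
    3 * t ≤ κ * B → S ≤ B → B ≤ c * S →
    dens N (fun σ => D.GapAt κ (tr (t + B) σ) t B ∧ D.NG (potII ρ κ ξ S) B σ t) ≤ η := by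
  obtain ⟨C₁, -, r₀, -, h₁⟩ := D.potII_spec hκ hκ'
  obtain ⟨C₂, -, h₂⟩ := D.nondiv_exp
  filter_upwards [eventually_ge_atTop 1, eventually_ge_atTop r₀,
    resTop_sqrt_small (C := C₂) (show 0 < η / 2 by positivity),
    D.resTop_fix hκ hκ' ha hc (show 0 < η / 2 / (ρ + 2) by positivity)] with S e1 e2 e3 e4
  intro ξ hξ t B N hN hB1 hB2 hB3
  obtain ⟨s1, -, -, s4⟩ := h₁ S e2 ξ
  set P := potII ρ κ ξ S
  have hΓ : 0 ≤ P.Γ := mul_nonneg (by unfold gam; positivity) (by linarith)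
  refine le_trans (dens_cond' hN (fun σ => D.th σ t (Real.exp (-√S)))
    (fun σ₀ σ₁ => D.GapAt κ σ₁ t B ∧ ∃ W ∈ D.Ch P σ₀ t,
      D.UU P σ₀ t - P.Γ / 2 < D.uu P σ₁ (t + B) W) (p := η / 2) (by positivity)
    fun j hj hth => ?_) (by linarith [h₂ S e1 t])
  set σ₀ : ℝ := (j : ℝ) / 4 ^ t
  have h0 : 0 ≤ σ₀ := by positivity
  have h1 : σ₀ + 1 / 4 ^ t ≤ 1 := by
    rw [← add_div, div_le_one (by positivity)]
    exact_mod_cast hj
  have key : ∀ i : ℕ, dens B (fun τ => D.GapAt κ (σ₀ + τ / 4 ^ t) t B ∧ ∃ W ∈ D.Ch P σ₀ t,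
      rk W = i ∧ 0 < D.uu P (σ₀ + τ / 4 ^ t) (t + B) W) ≤ η / 2 / (ρ + 2) := by
    intro i
    by_cases h : ∃ W ∈ D.Ch P σ₀ t, rk W = i
    · obtain ⟨W, hW, hi⟩ := h
      refine le_trans (dens_mono ?_)
        (e4 ξ hξ σ₀ t B h0 h1 hth hB1 hB2 hB3 W hW.1 (s4 σ₀ t hth W hW).1)
      rintro j' - ⟨a1, W', hW', a2, a3⟩
      exact ⟨a1, s1 σ₀ t hth W' hW' W hW (a2.trans hi.symm) ▸ a3⟩
    · rw [dens_false]
      · positivity
      · rintro j' - ⟨-, W', hW', a2, -⟩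
        exact h ⟨W', hW', a2⟩
  refine le_trans (dens_mono ?_) ((dens_exists B (Finset.range (ρ + 2)) _).trans
    ((Finset.sum_le_sum fun i _ => key i).trans (le_of_eq ?_)))
  · rintro j' - ⟨a1, W, hW, a2⟩
    refine ⟨rk W, Finset.mem_range.2 (Nat.lt_succ_of_le (rk_le W)), a1, W, hW, rfl, ?_⟩
    linarith [D.le_UU (P := P) σ₀ t]
  · rw [Finset.sum_const, Finset.card_range, nsmul_eq_mul]
    push_cast
    field_simp

/-- the number of sub-blocks before epoch `j` -/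
def resTopM (q K B₀ : ℕ) : ℕ → ℕ
  | 0 => 0
  | j + 1 => resTopM q K B₀ j + (q * (K + resTopM q K B₀ j * B₀) / B₀ + 1)

lemma resTopM_le {q K B₀ : ℕ} (hK : B₀ ≤ K) (j : ℕ) :
    K + resTopM q K B₀ j * B₀ ≤ (q + 2) ^ j * K := by
  induction j with
  | zero => simp [resTopM]
  | succ j ih =>
    have h1 := Nat.div_mul_le_self (q * (K + resTopM q K B₀ j * B₀)) B₀
    rw [resTopM, pow_succ, mul_comm ((q + 2) ^ j), mul_assoc]
    refine le_trans ?_ (Nat.mul_le_mul_left _ ih)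
    nlinarith

/-- the pathwise estimate -/
lemma resTop_path {P : Pot ρ} (ha : 0 < P.a) (hb : 0 < P.b) (hξ : 0 ≤ P.ξ) {E R : ℝ}
    (hE : 0 ≤ E) {q K B₀ N₀ I k : ℕ} (hB0 : 1 ≤ B₀) (hB : ((ρ : ℝ) + 1) * (B₀ + 2) ≤ P.Γ / 2)
    (hf : 4 * P.ξ * P.b * 2 ^ B₀ ≤ P.a * 8 ^ K) {σ : ℝ} (h0 : 0 ≤ σ) (h1 : σ < 1)
    (hR : R ≤ N₀ * (P.Γ / 2)) (hU : D.UU P (tr K σ) K ≤ R)
    (hSB : ∀ i < I, ¬ D.SB P E B₀ σ (K + i * B₀))
    (hNG : ∀ j < N₀, ¬ D.NG P ((q * (K + resTopM q K B₀ j * B₀) / B₀ + 1) * B₀) σ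
      (K + resTopM q K B₀ j * B₀))
    (hk : K + resTopM q K B₀ N₀ * B₀ ≤ k) (hI : (k - K) / B₀ ≤ I) :
    D.UU P (tr k σ) k ≤ P.Γ + I * E + P.Γ / 2 := by
  have hΓ : 0 ≤ P.Γ := by
    have : (0 : ℝ) ≤ ((ρ : ℝ) + 1) * (B₀ + 2) := by positivity
    linarith
  have hf' : ∀ k', K ≤ k' → 4 * P.ξ * P.b * 2 ^ B₀ ≤ P.a * 8 ^ k' := fun k' h =>
    hf.trans (by gcongr; norm_num)
  have hmono : Monotone (resTopM q K B₀) := monotone_nat_of_le_succ fun j => Nat.le_add_right _ _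
  set i := (k - K) / B₀ with hi
  have hm : resTopM q K B₀ N₀ ≤ i := (Nat.le_div_iff_mul_le hB0).2 (by omega)
  have key : ∀ j ≤ N₀, D.UU P (tr (K + resTopM q K B₀ j * B₀) σ) (K + resTopM q K B₀ j * B₀) ≤
      max P.Γ (R - j * (P.Γ / 2)) + resTopM q K B₀ j * E := by
    intro j
    induction j with
    | zero => intro _; simpa [resTopM] using Or.inr hU
    | succ j ih =>
      intro hj
      have ih := ih (by omega)
      have hm' : resTopM q K B₀ (j + 1) ≤ I := (hmono hj).trans (hm.trans hI)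
      set n := q * (K + resTopM q K B₀ j * B₀) / B₀ + 1 with hn
      have e : resTopM q K B₀ (j + 1) = resTopM q K B₀ j + n := rfl
      have := ((D.pot_block ha hb hξ hE hB (hf' (K + resTopM q K B₀ j * B₀) (Nat.le_add_right _ _))
        h0 h1 n).2 fun i' hi' => by
          rw [add_assoc, ← add_mul]
          exact hSB _ (by omega)).2 (Nat.le_add_left _ _) (hNG j (by omega))
      rw [add_assoc, ← add_mul, ← e] at this
      refine this.trans ?_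
      rw [e]
      push_cast
      have p1 : (0 : ℝ) ≤ resTopM q K B₀ j * E := by positivity
      have p2 : (0 : ℝ) ≤ n * E := by positivity
      have p3 := le_max_left P.Γ (R - (j + 1) * (P.Γ / 2))
      have p4 := le_max_right P.Γ (R - (j + 1) * (P.Γ / 2))
      refine max_le (by linarith) ?_
      rcases le_total P.Γ (R - j * (P.Γ / 2)) with h | h
      · rw [max_eq_right h] at ih; linarith
      · rw [max_eq_left h] at ih; linarith
  have k1 := key N₀ le_rfl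
  rw [max_eq_left (by linarith)] at k1
  obtain ⟨n, hn⟩ := Nat.exists_eq_add_of_le hm
  have k2 := ((D.pot_block ha hb hξ hE hB (hf' (K + resTopM q K B₀ N₀ * B₀) (Nat.le_add_right _ _))
    h0 h1 n).2 fun i' hi' => by
      rw [add_assoc, ← add_mul]
      exact hSB _ (by omega)).1
  rw [add_assoc, ← add_mul, ← hn] at k2
  have r1 : (k - K) % B₀ < B₀ := Nat.mod_lt _ hB0
  have r2 : K + i * B₀ + 1 * ((k - K) % B₀) = k := by
    have := Nat.div_add_mod' (k - K) B₀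
    rw [← hi] at this
    omega
  have r3 : (((k - K) % B₀ : ℕ) : ℝ) ≤ B₀ := by exact_mod_cast r1.le
  have k3 := (D.pot_block (B₀ := (k - K) % B₀) ha hb hξ hE (le_trans (by gcongr) hB)
    (le_trans (by gcongr; norm_num) (hf' (K + i * B₀) (Nat.le_add_right _ _))) h0 h1 1).1
  rw [r2] at k3
  have r4 : ((resTopM q K B₀ N₀ : ℝ) + n) * E ≤ I * E := by
    gcongr
    exact_mod_cast hn ▸ hI
  push_cast at k3
  linarith

/-- very deep locks disappear after a bounded number of epochs -/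
theorem res_top {κ am bm p : ℝ} (hκ : 0 < κ) (hκ' : κ ≤ 1 / 2) (ha : 0 < am)
    (hp : ∀ k B N, k + B ≤ N → dens N (fun σ => ¬ D.GapAt κ (tr (k + B) σ) k B) ≤ p) :
    ∃ L : ℕ, ∀ (M : ℕ) (η : ℝ), 0 < η → ∃ K₀ : ℕ, ∀ K ≥ K₀, ∀ S : ℝ, (K : ℝ) / 2 ≤ S → S ≤ K →
    ∀ ξ, am ≤ ξ → ξ ≤ bm →
    dens (2 * M * K) (fun σ => ∃ k, L * K ≤ k ∧ k < M * K ∧
      ∃ W, D.Lock ξ (gam ρ κ / 20 * S) S (tr k σ) k W) ≤ η + 20 * 3 ^ (ρ + 1) * p := by
  have hp0 : 0 ≤ p := (dens_nonneg _ _).trans (hp 0 0 0 le_rfl)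
  set q := ⌈3 / κ⌉₊ with hq
  set N₀ := 16 * 3 ^ (ρ + 1) with hN₀
  have hq1 : 3 ≤ κ * q := by
    have := Nat.le_ceil (3 / κ)
    rw [div_le_iff₀ hκ] at this
    linarith
  have g0 : 0 < gam ρ κ := by unfold gam; positivity
  have g1 : gam ρ κ ≤ 1 / 64 :=
    (div_le_self (by positivity) (one_le_pow₀ (by norm_num))).trans (by linarith)
  have g2 : gam ρ κ * 3 ^ (ρ + 1) = κ / 32 := by unfold gam; field_simp
  refine ⟨(q + 2) ^ N₀, fun M η hη => ?_⟩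
  obtain ⟨C₁, -, r₁, -, h₁⟩ := D.potII_spec hκ hκ'
  obtain ⟨C₂, -, h₂⟩ := D.nondiv_exp
  obtain ⟨C₃, hC₃, r₃, -, h₃⟩ := D.pot_scale (γ := gam ρ κ / 4) (by positivity) (by linarith)
  have hN0 : (0 : ℝ) < N₀ := by positivity
  obtain ⟨S₀, hS₀⟩ := eventually_atTop.1 ((eventually_ge_atTop (1 : ℝ)).and
    ((eventually_ge_atTop r₁).and ((eventually_ge_atTop r₃).and
    ((resTop_sqrt_small (C := C₂) (show 0 < η / 3 by positivity)).and
    ((resTop_rpow_small (C := 2 * M * C₃ * C₃) (a := 1 / 4) (by norm_num)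
      (show 0 < η / 3 by positivity)).and
    ((resTop_rpow_small (C := 2 * M * C₃) (a := 1 / 4) (by norm_num)
      (show 0 < gam ρ κ / 4 by positivity)).and
    ((resTop_exp_small (C := 4 * bm) (a := 1 / 2) (by norm_num) one_pos).and
    (D.resTop_epoch hκ hκ' ha (c := 2 * M + 1) (by positivity)
      (show 0 < η / 3 / N₀ by positivity)))))))))
  refine ⟨⌈2 * S₀⌉₊, fun K hK S hS1 hS2 ξ hξ1 hξ2 => ?_⟩
  have hK' : 2 * S₀ ≤ K := (Nat.le_ceil _).trans (by exact_mod_cast hK)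
  obtain ⟨e1, e2, e3, e4, e5, e6, e7, e8⟩ := hS₀ S (by linarith)
  by_cases hLM : M * K ≤ (q + 2) ^ N₀ * K
  · rw [dens_false]
    · positivity
    · rintro j - ⟨k, a1, a2, -⟩
      omega
  have hM : 1 ≤ M := by
    rcases M with _ | M
    · simp at hLM
    · omega
  have hξ0 : 0 < ξ := ha.trans_le hξ1
  obtain ⟨s1, s2, s3, -⟩ := h₁ S e2 ξ
  obtain ⟨B₀, b1, b2, b3, b4⟩ := h₃ S e3
  set P := potII ρ κ ξ S with hP
  have pa : 0 < P.a := Real.exp_pos _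
  have pb : 0 < P.b := one_pos
  have pξ : 0 ≤ P.ξ := hξ0.le
  have pΓ : P.Γ = gam ρ κ / 4 * S := rfl
  have hΓ : 0 < P.Γ := by rw [pΓ]; positivity
  have hB0' : (0 : ℝ) < B₀ := lt_of_lt_of_le (by positivity) b1
  have hB0 : 1 ≤ B₀ := by exact_mod_cast hB0'
  have hBS : (B₀ : ℝ) ≤ 1 / 2 * S := b2.trans (mul_le_mul_of_nonneg_right (by linarith) (by linarith))
  have hBK : B₀ ≤ K := by exact_mod_cast (show (B₀ : ℝ) ≤ K by linarith)
  have hf : 4 * P.ξ * P.b * 2 ^ B₀ ≤ P.a * 8 ^ K := by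
    change 4 * ξ * 1 * 2 ^ B₀ ≤ Real.exp (-S) * 8 ^ K
    have a1 : 4 * ξ * Real.exp (-(1 / 2 * S)) ≤ 1 := le_trans (by gcongr) e7
    have a2 : (2 : ℝ) ^ B₀ ≤ Real.exp (1 / 2 * S) := (resTop_two _).trans (Real.exp_le_exp.2 hBS)
    have a3 : Real.exp (2 * S) ≤ 8 ^ K :=
      (Real.exp_le_exp.2 (by linarith)).trans (resTop_eight' K)
    calc 4 * ξ * 1 * 2 ^ B₀ ≤ 4 * ξ * 1 * Real.exp (1 / 2 * S) := by gcongr
      _ = 4 * ξ * Real.exp (-(1 / 2 * S)) * Real.exp S := by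
        rw [mul_one, mul_assoc (4 * ξ), ← Real.exp_add]; congr 2; ring
      _ ≤ 1 * Real.exp S := by gcongr
      _ = Real.exp (-S) * Real.exp (2 * S) := by rw [one_mul, ← Real.exp_add]; congr 1; ring
      _ ≤ _ := by gcongr
  set I := M * K / B₀ with hI
  have hI1 : I * B₀ ≤ M * K := Nat.div_mul_le_self _ _
  have hI2 : (I : ℝ) ≤ 2 * M * C₃ := by
    have a1 : (I : ℝ) * B₀ ≤ M * K := by exact_mod_cast hI1
    rw [div_le_iff₀ (by linarith)] at b1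
    have a2 : (M : ℝ) * K ≤ M * (2 * (B₀ * C₃)) := by gcongr; linarith
    exact le_of_mul_le_mul_right (by linarith) hB0'
  have hMK : K ≤ M * K := Nat.le_mul_of_pos_left _ hM
  have hT : ∀ j ≤ N₀, K + resTopM q K B₀ j * B₀ ≤ (q + 2) ^ N₀ * K := fun j hj =>
    (resTopM_le hBK j).trans (Nat.mul_le_mul_right _ (Nat.pow_le_pow_right (by omega) hj))
  set T : ℕ → ℕ := fun j => K + resTopM q K B₀ j * B₀ with hTd
  set n : ℕ → ℕ := fun j => (q * T j / B₀ + 1) * B₀ with hnd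
  have hTn : ∀ j, T j + n j = T (j + 1) := fun j => by
    simp only [hTd, hnd, resTopM]; ring
  have hTN : ∀ j < N₀, T j + n j ≤ M * K := fun j hj => by
    have := hT (j + 1) hj
    rw [hTn]
    change T (j + 1) ≤ _ at this
    omega
  have d1 : dens (2 * M * K) (fun σ => ∃ i ∈ Finset.range I,
      D.SB P (S ^ (3 / 4 : ℝ)) B₀ σ (K + i * B₀)) ≤ η / 3 := by
    refine (dens_exists _ _ _).trans ((Finset.sum_le_sum fun i hi =>
      b4 P pa pb pξ s1 (K + i * B₀) (2 * M * K) ?_ (hf.trans (by gcongr; norm_num; omega))).trans ?_)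
    · have := Nat.mul_le_mul_right B₀ (Nat.succ_le_of_lt (Finset.mem_range.1 hi))
      rw [Nat.succ_mul] at this
      rw [mul_assoc]
      omega
    · rw [Finset.sum_const, Finset.card_range, nsmul_eq_mul, ← mul_div_assoc]
      exact le_trans (by gcongr) e5
  have d2 : dens (2 * M * K) (fun σ => ¬ D.th (tr K σ) K (Real.exp (-√S))) ≤ η / 3 := by
    rw [dens_tr (by rw [mul_assoc]; omega) fun σ => ¬ D.th σ K (Real.exp (-√S))]
    exact (h₂ S e1 K).trans e4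
  have d3 : dens (2 * M * K) (fun σ => ∃ j ∈ Finset.range N₀, D.NG P (n j) σ (T j)) ≤
      η / 3 + 20 * 3 ^ (ρ + 1) * p := by
    have key : ∀ j ∈ Finset.range N₀, dens (2 * M * K) (fun σ => D.NG P (n j) σ (T j)) ≤
        p + η / 3 / N₀ := fun j hj => by
      have a0 := hTN j (Finset.mem_range.1 hj)
      have a1 : T j + n j ≤ 2 * M * K := by rw [mul_assoc]; omega
      have a2 : q * T j ≤ n j := (Nat.lt_div_mul_add hB0).le.trans (by simp [hnd, add_mul])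
      have a3 : (q : ℝ) * T j ≤ n j := by exact_mod_cast a2
      have a4 : (K : ℝ) ≤ T j := by exact_mod_cast Nat.le_add_right _ _
      have a5 : 3 * (T j : ℝ) ≤ κ * n j := by
        nlinarith [mul_le_mul_of_nonneg_left a3 hκ.le, (Nat.cast_nonneg (T j) : (0 : ℝ) ≤ T j)]
      have a6 : (n j : ℝ) ≤ M * K := by exact_mod_cast (Nat.le_add_left _ _).trans a0
      refine le_trans (dens_mono fun j' _ h => ?_) ((dens_or _ _ _).trans (add_le_add
        (hp _ _ _ a1) (e8 ξ hξ1 (T j) (n j) _ a1 a5 ?_ ?_)))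
      · exact (em _).elim (fun h' => Or.inr ⟨h', h⟩) Or.inl
      · nlinarith [(Nat.cast_nonneg (n j) : (0 : ℝ) ≤ n j)]
      · nlinarith [(Nat.cast_nonneg M : (0 : ℝ) ≤ M)]
    refine (dens_exists _ _ _).trans ((Finset.sum_le_sum key).trans ?_)
    rw [Finset.sum_const, Finset.card_range, nsmul_eq_mul, mul_add, mul_div_cancel₀ _ hN0.ne']
    have : (N₀ : ℝ) * p ≤ 20 * 3 ^ (ρ + 1) * p := by
      rw [hN₀]; push_cast; gcongr; norm_num
    linarith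
  refine le_trans (dens_mono ?_) ((dens_or _ _ _).trans ((add_le_add d1
    ((dens_or _ _ _).trans (add_le_add d2 d3))).trans (le_of_eq (by ring))))
  rintro j hj ⟨k, k1, k2, W, hW⟩
  by_contra hn
  simp only [not_or, not_not, not_exists, not_and, Finset.mem_range] at hn
  obtain ⟨n1, n2, n3⟩ := hn
  have σ0 : (0 : ℝ) ≤ j / 4 ^ (2 * M * K) := by positivity
  have σ1 : (j : ℝ) / 4 ^ (2 * M * K) < 1 := by
    rw [div_lt_one (by positivity)]; exact_mod_cast hj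
  have hR : κ / 16 * S = N₀ * (P.Γ / 2) := by
    rw [pΓ, hN₀]; push_cast
    linear_combination (-2 * S) * g2
  have hΓR : P.Γ ≤ κ / 16 * S := by
    have : (2 : ℝ) ≤ N₀ := by
      have : 1 ≤ 3 ^ (ρ + 1) := Nat.one_le_pow _ _ (by norm_num)
      exact_mod_cast (show 2 ≤ N₀ by omega)
    nlinarith
  have f1 := D.resTop_path pa pb pξ (E := S ^ (3 / 4 : ℝ)) (by positivity) (q := q) (N₀ := N₀)
    (I := I) (k := k) hB0 (by rw [pΓ]; exact b3) hf σ0 σ1 hR.le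
    (D.UU_le hΓ.le _ _ hΓR (s2 _ _ n2)) n1 n3 ((hT N₀ le_rfl).trans k1)
    (Nat.div_le_div_right (by omega))
  have f2 := (s3 _ k W ⟨hW.1, hW.2.1, hW.2.2.1, Deep.mono D hW.2.2.2 le_rfl
    (Real.exp_le_exp.2 (by nlinarith)) le_rfl⟩).1
  have f3 : I * S ^ (3 / 4 : ℝ) ≤ P.Γ := by
    have a1 : S ^ (1 / 4 : ℝ) * S ^ (3 / 4 : ℝ) = S := by
      rw [← Real.rpow_add (by linarith)]; norm_num
    rw [div_le_iff₀ (by positivity)] at e6
    calc I * S ^ (3 / 4 : ℝ) ≤ gam ρ κ / 4 * S ^ (1 / 4 : ℝ) * S ^ (3 / 4 : ℝ) := by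
          gcongr; exact hI2.trans e6
      _ = P.Γ := by rw [mul_assoc, a1, pΓ]
  linarith

end Pool.Agent.MP_d0b2d2_an.Gen.ResData
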