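import Pool.Agent.MP_d0b2d2_an.Gen.ResI
import Pool.Agent.MP_d0b2d2_an.Gen.ResII
import Pool.Agent.MP_d0b2d2_an.Gen.ResTop
import Pool.Agent.MP_d0b2d2_an.Gen.Count

open Set Filter Topology

namespace Pool.Agent.MP_d0b2d2_an.Gen.ResData

variable {ρ : ℕ} {V : Type} [NormedAddCommGroup V] [InnerProductSpace ℝ V] (D : ResData ρ V)

lemma res_levels {P : ℕ → Prop} (h0 : P 0) (I : ℕ) : P I ∨ ∃ i < I, P i ∧ ¬ P (i + 1) := by
  induction I with
  | zero => exact Or.inl h0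
  | succ n ih =>
    by_cases h : P (n + 1)
    · exact Or.inl h
    rcases ih with ih | ⟨i, hi, h1⟩
    · exact Or.inr ⟨n, n.lt_succ_self, ih, h⟩
    · exact Or.inr ⟨i, hi.trans n.lt_succ_self, h1⟩

lemma res_geom {w : ℝ} (h0 : 0 < w) (h1 : w < 1) (I : ℕ) :
    ∑ i ∈ Finset.range I, w ^ (i + 1) ≤ 1 / (1 - w) := by
  have h : ∑ i ∈ Finset.range I, w ^ (i + 1) ≤ ∑ i ∈ Finset.range I, w ^ i :=
    Finset.sum_le_sum fun i _ => pow_le_pow_of_le_one h0.le h1.le i.le_succ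
  refine h.trans ?_
  rw [le_div_iff₀ (by linarith), geom_sum_mul_neg]
  linarith [pow_pos h0 I]

/-- the geometric sequence of levels -/
lemma res_seq {g : ℝ} (g0 : 0 < g) (g1 : g ≤ 1) : ∃ c > (0 : ℝ), ∀ s > (0 : ℝ), ∀ K : ℝ,
    10 / g * s ≤ K → ∃ (I : ℕ) (l : ℕ → ℝ), l 0 = 10 / g * s ∧
    (∀ i, (1 - g / 20) * l (i + 1) = l i) ∧ (∀ i, s ≤ l i) ∧ (∀ i, s / 2 ≤ g / 20 * l i) ∧
    (∀ i < I, l (i + 1) ≤ K) ∧ l I ≤ K ∧ K / 2 ≤ l I ∧
    ∑ i ∈ Finset.range I, l (i + 1) ≤ 20 / g * K ∧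
    ∑ i ∈ Finset.range I, 1 / l (i + 1) ^ (1 / 4 : ℝ) ≤ c / s ^ (1 / 4 : ℝ) := by
  obtain ⟨q, hq⟩ : ∃ q, q = 1 - g / 20 := ⟨_, rfl⟩
  have q0 : 1 / 2 < q := by linarith
  have q0' : 0 < q := by linarith
  have q1 : q < 1 := by linarith
  obtain ⟨w, hw⟩ : ∃ w, w = q ^ (1 / 4 : ℝ) := ⟨_, rfl⟩
  have w0 : 0 < w := hw ▸ Real.rpow_pos_of_pos q0' _
  have w1 : w < 1 := hw ▸ Real.rpow_lt_one q0'.le q1 (by norm_num)
  have w1' : 0 < 1 - w := by linarith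
  refine ⟨1 / (1 - w), by positivity, fun s s0 K hK => ?_⟩
  have hθ : 1 ≤ 10 / g := by rw [le_div_iff₀ g0]; linarith
  have hθs : s ≤ 10 / g * s := le_mul_of_one_le_left s0.le hθ
  have K0 : 0 < K := by linarith
  obtain ⟨l, hl⟩ : ∃ l : ℕ → ℝ, ∀ i, l i = 10 / g * s / q ^ i := ⟨_, fun _ => rfl⟩
  have l1 : ∀ i, q * l (i + 1) = l i := fun i => by rw [hl, hl, pow_succ]; field_simp
  have l2 : ∀ i, 10 / g * s ≤ l i := fun i =>
    hl i ▸ le_div_self (by positivity) (pow_pos q0' i) (pow_le_one₀ q0'.le q1.le)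
  have l3 : ∀ i, s / 2 ≤ g / 20 * l i := fun i => by
    have := mul_le_mul_of_nonneg_left (l2 i) (show 0 ≤ g / 20 by positivity)
    refine le_trans (le_of_eq ?_) this
    field_simp; norm_num
  have l4 : ∀ i, 1 / l i ^ (1 / 4 : ℝ) ≤ 1 / s ^ (1 / 4 : ℝ) * w ^ i := fun i => by
    have e1 : w ^ i = (q ^ i) ^ (1 / 4 : ℝ) := by
      rw [hw, ← Real.rpow_natCast, ← Real.rpow_mul q0'.le, mul_comm, Real.rpow_mul q0'.le,
        Real.rpow_natCast]
    rw [one_div_mul_eq_div, e1, ← Real.div_rpow (pow_pos q0' i).le s0.le, one_div,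
      ← Real.inv_rpow (by linarith [l2 i])]
    refine Real.rpow_le_rpow (inv_nonneg.2 (by linarith [l2 i])) ?_ (by norm_num)
    rw [hl, inv_div]
    exact div_le_div_of_nonneg_left (pow_pos q0' i).le s0 hθs
  have hex : ∃ i, K < l (i + 1) := by
    obtain ⟨n, hn⟩ := exists_pow_lt_of_lt_one (show 0 < s / K by positivity) q1
    refine ⟨n, ?_⟩
    have := pow_le_pow_of_le_one q0'.le q1.le n.le_succ
    rw [lt_div_iff₀ K0] at hn
    rw [hl, lt_div_iff₀ (pow_pos q0' _)]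
    have := mul_le_mul_of_nonneg_left this K0.le
    rw [Nat.succ_eq_add_one] at this
    linarith
  have l0 : l 0 = 10 / g * s := by rw [hl, pow_zero, div_one]
  have I1 : ∀ i < Nat.find hex, l (i + 1) ≤ K := fun i hi => not_lt.1 (Nat.find_min hex hi)
  have I2 : l (Nat.find hex) ≤ K := by
    rcases Nat.eq_zero_or_pos (Nat.find hex) with h | h
    · rwa [h, l0]
    · have := I1 (Nat.find hex - 1) (by omega)
      rwa [Nat.sub_add_cancel h] at this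
  have I4 : ∀ n, ∑ i ∈ Finset.range n, l (i + 1) ≤ 20 / g * l n := fun n => by
    induction n with
    | zero => simp only [Finset.range_zero, Finset.sum_empty]; rw [l0]; positivity
    | succ n ih =>
      rw [Finset.sum_range_succ]
      refine (add_le_add_left ih _).trans (le_of_eq ?_)
      rw [← l1 n, hq]; field_simp; ring
  refine ⟨Nat.find hex, l, l0, hq ▸ l1, fun i => hθs.trans (l2 i), l3, I1, I2, ?_,
    (I4 _).trans (mul_le_mul_of_nonneg_left I2 (by positivity)), ?_⟩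
  · have := Nat.find_spec hex
    rw [← l1]
    nlinarith
  · refine (Finset.sum_le_sum fun i _ => l4 (i + 1)).trans ?_
    rw [← Finset.mul_sum, one_div_mul_eq_div]
    exact div_le_div_of_nonneg_right (res_geom w0 w1 _) (Real.rpow_pos_of_pos s0 _).le

lemma res_s (x s₀ : ℝ) (hx : 0 ≤ x) (hs : 0 < s₀) : ∃ s ≥ s₀, x ≤ s ^ (1 / 4 : ℝ) := by
  have x4 : 0 ≤ x ^ 4 := by positivity
  refine ⟨x ^ 4 + s₀, by linarith, ?_⟩
  have : (x ^ 4) ^ (1 / 4 : ℝ) = x := by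
    rw [one_div]; exact_mod_cast Real.pow_rpow_inv_natCast hx (n := 4) (by norm_num)
  exact this.symm.trans_le (Real.rpow_le_rpow x4 (by linarith) (by norm_num))

lemma res_split {C₀ δ ε ξ κ s p q : ℝ} {l c : ℕ → ℝ} {I k N : ℕ} (hk : k ≤ N)
    (l1 : ∀ i, q * l (i + 1) = l i) (l3 : ∀ i, s ≤ c i)
    (t1 : dens N (fun σ => ∃ W, D.Lock ξ (c I) (l I) (tr k σ) k W) ≤ p) :
    dens k (fun σ => D.Res C₀ δ ε ξ σ k) ≤
      dens N (fun σ => ¬ D.Good κ N σ k) + (dens N (fun σ => D.Good κ N σ k ∧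
      D.Res C₀ δ ε ξ (tr k σ) k ∧ ¬ ∃ W, D.Lock ξ s (l 0) (tr k σ) k W) + (∑ i ∈ Finset.range I,
      dens N (fun σ => D.Good κ N σ k ∧ ∃ W, D.Lock ξ (c (i + 1)) (q * l (i + 1)) (tr k σ) k W ∧
        ¬ D.Deep (tr k σ) k 1 ξ W (Real.exp (-l (i + 1)))) + p)) := by
  rw [← dens_tr hk]
  refine le_trans (dens_mono ?_) ((dens_or _ _ _).trans (add_le_add le_rfl ((dens_or _ _ _).trans
    (add_le_add le_rfl ((dens_or _ _ _).trans (add_le_add (dens_exists _ _ _) t1))))))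
  intro j _ hj
  by_cases a1 : D.Good κ N (j / 4 ^ N) k
  swap
  · exact Or.inl a1
  by_cases a2 : ∃ W, D.Lock ξ s (l 0) (tr k (j / 4 ^ N)) k W
  swap
  · exact Or.inr (Or.inl ⟨a1, hj, a2⟩)
  obtain ⟨W, b1, b2, b3, b4⟩ := a2
  have b5 := fun i => b3.trans (Real.exp_le_exp.2 (l3 i))
  rcases res_levels (P := fun i => D.Deep (tr k (j / 4 ^ N)) k 1 ξ W (Real.exp (-l i))) b4 I with
    h | ⟨i, hi, h, h'⟩
  · exact Or.inr (Or.inr (Or.inr ⟨W, b1, b2, b5 I, h⟩))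
  · refine Or.inr (Or.inr (Or.inl ⟨i, Finset.mem_range.2 hi, a1, W, ⟨b1, b2, b5 _, ?_⟩, h'⟩))
    rwa [l1]

lemma res_count (K K' L : ℕ) {p : ℝ} (hp : 0 ≤ p) :
    ∑ k ∈ Finset.Ico K K', (p + if k < L then (1 : ℝ) else 0) ≤ p * K' + L := by
  rw [Finset.sum_add_distrib, Finset.sum_boole, Finset.sum_const, Nat.card_Ico, nsmul_eq_mul,
    mul_comm]
  have : ((Finset.Ico K K').filter fun k => k < L).card ≤ L := by
    refine (Finset.card_le_card (t := Finset.range L) fun k hk => ?_).trans (by simp)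
    exact Finset.mem_range.2 (Finset.mem_filter.1 hk).2
  refine add_le_add (mul_le_mul_of_nonneg_left ?_ hp) (by exact_mod_cast this)
  exact_mod_cast Nat.sub_le K' K

/-- the abstract resonance theorem -/
theorem resonance {am bm C₀ δ η : ℝ} (ha : 0 < am) (hδ : 0 < δ) (hη : 0 < η) :
    ∃ ε > 0, ∃ M K₀ : ℕ, 2 ≤ M ∧ ∀ K ≥ K₀, ∀ ξ, am ≤ ξ → ξ ≤ bm →
    ∑ k ∈ Finset.Ico K (M * K), dens k (fun σ => D.Res C₀ δ ε ξ σ k) ≤ η * (M * K) := by
  have h3 : (1 : ℝ) ≤ 3 ^ (ρ + 1) := one_le_pow₀ (by norm_num)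
  obtain ⟨κ, hκ, hκ', hG, hp⟩ := D.good_dens (η := η / (100 * 3 ^ (ρ + 1))) (by positivity)
  obtain ⟨L, hL⟩ := D.res_top (bm := bm) hκ hκ' ha hp
  obtain ⟨C₂, hC₂, r₀, hr₀, h2⟩ := D.res_two (bm := bm) hκ hκ'
  have g0 : 0 < gam ρ κ := by rw [gam]; positivity
  have g1 : gam ρ κ ≤ 1 := by rw [gam, div_le_one (by positivity)]; linarith
  generalize gam ρ κ = g at hL h2 g0 g1
  obtain ⟨C₁, hC₁, s₀, hs₀, h1⟩ := D.res_one (C₀ := C₀) (bm := bm) (θ := 10 / g) hκ hκ' hδ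
    (by positivity)
  obtain ⟨c, hc, hseq⟩ := res_seq g0 g1
  have xa : 0 ≤ 20 * C₁ / η := by positivity
  have xb : 0 ≤ 20 * (C₂ * c) / η := by positivity
  obtain ⟨s, hs, hxs⟩ := res_s (20 * C₁ / η + 20 * (C₂ * c) / η) (s₀ + r₀) (by positivity)
    (by linarith)
  have s0 : 0 < s := by linarith
  have s4 : 0 < s ^ (1 / 4 : ℝ) := Real.rpow_pos_of_pos s0 _
  have v1 : C₁ / s ^ (1 / 4 : ℝ) ≤ η / 20 := by
    have : 20 * C₁ / η ≤ s ^ (1 / 4 : ℝ) := by linarith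
    rw [div_le_iff₀ hη] at this
    rw [div_le_iff₀ s4]; linarith
  have v2 : C₂ * (c / s ^ (1 / 4 : ℝ)) ≤ η / 20 := by
    have : 20 * (C₂ * c) / η ≤ s ^ (1 / 4 : ℝ) := by linarith
    rw [div_le_iff₀ hη] at this
    rw [← mul_div_assoc, div_le_iff₀ s4]; linarith
  obtain ⟨K₁, hK₁⟩ := h1 s (by linarith)
  obtain ⟨M, hM⟩ := exists_nat_ge ((C₂ * (20 / g) + L + 1) * 10 / η + 2)
  have M0 : 0 ≤ (C₂ * (20 / g) + L + 1) * 10 / η := by positivity
  have M2 : 2 ≤ M := by exact_mod_cast (show (2 : ℝ) ≤ M by linarith)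
  have u6 : C₂ * (20 / g) + L + 1 ≤ η / 10 * M := by
    have : (C₂ * (20 / g) + L + 1) * 10 / η ≤ M := by linarith
    rw [div_le_iff₀ hη] at this
    linarith
  obtain ⟨K₂, hK₂⟩ := hL M (η / 10) (by positivity)
  obtain ⟨K₃, hK₃⟩ := exists_nat_ge (C₁ * s + 10 / g * s)
  refine ⟨Real.exp (-s), Real.exp_pos _, M, K₁ + K₂ + K₃, M2, fun K hK ξ hξ hξ' => ?_⟩
  have hKK : (K₃ : ℝ) ≤ K := by exact_mod_cast (show K₃ ≤ K by omega)
  have c1s : 0 ≤ C₁ * s := by positivity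
  have c2s : 0 ≤ 10 / g * s := by positivity
  have ξ0 : 0 ≤ ξ := ha.le.trans hξ
  obtain ⟨I, l, l0, l1, l2, l3, I1, I2, I3, I4, I5⟩ := hseq s s0 K (by linarith)
  have top := hK₂ K (by omega) (l I) I3 I2 ξ hξ hξ'
  have N2 : K ≤ M * K := Nat.le_mul_of_pos_left K (by omega)
  have eN : ((2 * M * K : ℕ) : ℝ) = 2 * (M * K) := by push_cast; ring
  have N1 : M * K + K ≤ 2 * M * K := by rw [mul_assoc]; omega
  generalize 2 * M * K = N at top eN N1
  have one := hK₁ K (by omega) (M * K) N N2 N1 ξ ξ0 hξ'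
  have two := fun i (hi : i ∈ Finset.range I) => h2 (l (i + 1)) (by linarith [l2 (i + 1)]) K
    (M * K) N (I1 i (Finset.mem_range.1 hi)) N2 N1 ξ ξ0 hξ'
  have pe : η / 10 + 20 * 3 ^ (ρ + 1) * (η / (100 * 3 ^ (ρ + 1))) = 3 / 10 * η := by
    field_simp; norm_num
  rw [pe] at top
  rw [← l0] at one
  refine (Finset.sum_le_sum fun k hk => D.res_split (κ := κ) (N := N) (I := I) (s := s / 2)
    (c := fun i => g / 20 * l i) (p := 3 / 10 * η + if k < L * K then 1 else 0)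
    (by have := (Finset.mem_Ico.1 hk).2; omega) l1 l3 ?_).trans ?_
  · split_ifs with h
    · linarith [dens_le_one N (fun σ => ∃ W, D.Lock ξ (g / 20 * l I) (l I) (tr k σ) k W)]
    · rw [add_zero]
      exact le_trans (dens_mono fun j _ hj => ⟨k, not_lt.1 h, (Finset.mem_Ico.1 hk).2, hj⟩) top
  rw [Finset.sum_add_distrib, Finset.sum_add_distrib, Finset.sum_add_distrib, Finset.sum_comm]
  have hMK : (0 : ℝ) ≤ M * K := by positivity
  have K0 : (0 : ℝ) ≤ K := Nat.cast_nonneg K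
  have u1 : ∑ k ∈ Finset.Ico K (M * K), dens N (fun σ => ¬ D.Good κ N σ k) ≤ η / 100 * N := by
    refine le_trans (Finset.sum_le_sum_of_subset_of_nonneg (Finset.Ico_subset_Ico le_rfl
      (by omega)) fun _ _ _ => dens_nonneg _ _) ((hG K N).trans ?_)
    exact mul_le_mul_of_nonneg_right (div_le_div_of_nonneg_left hη.le (by norm_num) (by linarith))
      (Nat.cast_nonneg N)
  have u2 : C₁ * (N / s ^ (1 / 4 : ℝ) + s) ≤ η / 20 * N + K := by
    have := mul_le_mul_of_nonneg_right v1 (Nat.cast_nonneg N)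
    calc _ = C₁ / s ^ (1 / 4 : ℝ) * N + C₁ * s := by ring
      _ ≤ _ := by linarith
  have u3 : ∑ i ∈ Finset.range I, C₂ * (N / l (i + 1) ^ (1 / 4 : ℝ) + l (i + 1)) ≤
      η / 20 * N + C₂ * (20 / g * K) := by
    have b1 := mul_le_mul_of_nonneg_right ((mul_le_mul_of_nonneg_left I5
      (show 0 ≤ C₂ by positivity)).trans v2) (Nat.cast_nonneg N)
    have b2 := mul_le_mul_of_nonneg_left I4 (show 0 ≤ C₂ by positivity)
    refine le_of_eq_of_le ?_ (add_le_add b1 b2)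
    rw [Finset.mul_sum, Finset.mul_sum, Finset.sum_mul, ← Finset.sum_add_distrib]
    exact Finset.sum_congr rfl fun i _ => by ring
  have u4 := res_count K (M * K) (L * K) (p := 3 / 10 * η) (by positivity)
  have u7 := (Finset.sum_le_sum two).trans u3
  have u8 := one.trans u2
  have u9 := mul_le_mul_of_nonneg_right u6 K0
  have := mul_nonneg hη.le hMK
  push_cast at u4
  rw [eN] at u1 u7 u8
  linarith

end Pool.Agent.MP_d0b2d2_an.Gen.ResData
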