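import Pool.Agent.MP_d0b2d2_an.Gen.Pot
import Pool.Agent.MP_d0b2d2_an.Gen.Grow

open Set Filter Topology

namespace Pool.Agent.MP_d0b2d2_an.Gen

/-- the convexity gap of the first potential -/
noncomputable def resI_g (ρ : ℕ) : ℝ := 1 / 8 / 3 ^ (ρ + 1)

lemma resI_g_pos (ρ : ℕ) : 0 < resI_g ρ := by unfold resI_g; positivity

lemma resI_g_le (ρ : ℕ) : resI_g ρ ≤ 1 / 8 :=
  div_le_self (by norm_num) (one_le_pow₀ (by norm_num))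

/-- the first potential at level `s` -/
noncomputable def resI_pot (ρ : ℕ) (ξ s : ℝ) : Pot ρ where
  ξ := ξ
  a := 1
  b := Real.exp s
  Γ := resI_g ρ * s
  β := fun i => 4 * (resI_g ρ * s) * 3 ^ i
  Adm := {W | Sat W}

lemma resI_β_le {ρ : ℕ} (ξ : ℝ) {s : ℝ} (hs : 0 ≤ s) {i : ℕ} (hi : i ≤ ρ + 1) :
    (resI_pot ρ ξ s).β i ≤ s / 2 := by
  have h1 : (3 : ℝ) ^ i ≤ 3 ^ (ρ + 1) := pow_le_pow_right₀ (by norm_num) hi
  have h2 : resI_g ρ * 3 ^ (ρ + 1) = 1 / 8 := by unfold resI_g; field_simp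
  have h3 := resI_g_pos ρ
  change 4 * (resI_g ρ * s) * 3 ^ i ≤ s / 2
  calc 4 * (resI_g ρ * s) * 3 ^ i ≤ 4 * (resI_g ρ * s) * 3 ^ (ρ + 1) := by gcongr
    _ = 4 * s * (resI_g ρ * 3 ^ (ρ + 1)) := by ring
    _ = s / 2 := by rw [h2]; ring

lemma resI_β_ge {ρ : ℕ} (ξ : ℝ) {s : ℝ} (hs : 0 ≤ s) {i q : ℕ} (h : i < q) :
    2 * (resI_pot ρ ξ s).β i + 4 * (resI_g ρ * s) ≤ (resI_pot ρ ξ s).β q ∧
      (resI_pot ρ ξ s).β i + 8 * (resI_g ρ * s) ≤ (resI_pot ρ ξ s).β q := by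
  have h1 : (3 : ℝ) ^ (i + 1) ≤ 3 ^ q := pow_le_pow_right₀ (by norm_num) h
  have h2 : (1 : ℝ) ≤ 3 ^ i := one_le_pow₀ (by norm_num)
  have h3 : 0 ≤ resI_g ρ * s := mul_nonneg (resI_g_pos ρ).le hs
  rw [pow_succ] at h1
  change 2 * (4 * (resI_g ρ * s) * 3 ^ i) + 4 * (resI_g ρ * s) ≤ 4 * (resI_g ρ * s) * 3 ^ q ∧
    4 * (resI_g ρ * s) * 3 ^ i + 8 * (resI_g ρ * s) ≤ 4 * (resI_g ρ * s) * 3 ^ q
  constructor <;> nlinarith [mul_le_mul_of_nonneg_left h1 h3, mul_le_mul_of_nonneg_left h2 h3]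

namespace ResData

variable {ρ : ℕ} {V : Type} [NormedAddCommGroup V] [InnerProductSpace ℝ V] (D : ResData ρ V)

lemma resI_cv_pos (σ : ℝ) (k : ℕ) {b : ℝ} (hb : 0 < b) (ξ : ℝ) (W : Lat ρ) :
    0 < D.cv σ k 1 b ξ W := by
  obtain ⟨c, hc, h⟩ := D.cov_pos σ k one_pos hb σ ξ
  exact hc.trans_le (h W)

lemma resI_uu (ξ s σ : ℝ) (k : ℕ) (W : Lat ρ) : D.uu (resI_pot ρ ξ s) σ k W =
    (resI_pot ρ ξ s).β (rk W) - Real.log (D.cv σ k 1 (Real.exp s) ξ W) := rfl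

lemma resI_le_UU (ξ s σ : ℝ) (k : ℕ) {W : Lat ρ} (hW : Sat W) :
    D.uu (resI_pot ρ ξ s) σ k W ≤ D.UU (resI_pot ρ ξ s) σ k :=
  D.uu_le_UU (P := resI_pot ρ ξ s) one_pos (Real.exp_pos s) σ k hW

lemma resI_UU (ξ s σ : ℝ) (k : ℕ) : 4 * (resI_g ρ * s) ≤ D.UU (resI_pot ρ ξ s) σ k := by
  have h := D.resI_le_UU ξ s σ k (W := ⊥) sat_bot
  rw [resI_uu, rk_bot, cv, cov_bot, Real.log_one] at h
  simpa [resI_pot] using h

lemma resI_ch {ξ s σ : ℝ} {k : ℕ} {W : Lat ρ} (h : W ∈ D.Ch (resI_pot ρ ξ s) σ k) :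
    Sat W ∧ D.UU (resI_pot ρ ξ s) σ k - resI_g ρ * s ≤ D.uu (resI_pot ρ ξ s) σ k W := h

/-- uniqueness of the nearly maximal sublattice of a given rank -/
lemma resI_uniq {ξ s σ c : ℝ} {k : ℕ} (hs : 0 ≤ s) (hc : c < 6 * (resI_g ρ * s))
    (hl : ∀ W : Lat ρ, Real.exp (-c) ≤ D.cv σ k 1 (Real.exp s) ξ W) {W W' : Lat ρ}
    (h : W ∈ D.Ch (resI_pot ρ ξ s) σ k) (h' : W' ∈ D.Ch (resI_pot ρ ξ s) σ k)
    (hr : rk W = rk W') : W = W' := by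
  by_contra hne
  obtain ⟨h1, h2⟩ := D.resI_ch h
  obtain ⟨h1', h2'⟩ := D.resI_ch h'
  have hS : W ≠ sat (W ⊔ W') := fun e => by
    have hle : W' ≤ W := by rw [e]; exact le_sup_right.trans (le_sat _)
    have := rk_lt h1' hle (Ne.symm hne)
    omega
  have hq := rk_lt h1 (le_sup_left.trans (le_sat (W ⊔ W'))) hS
  have hsub := cov_submod (D.LL σ k 1 (Real.exp s) σ ξ) h1 h1'
  have p := fun W => D.resI_cv_pos σ k (Real.exp_pos s) ξ W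
  have hlog := Real.log_le_log (mul_pos (p _) (p _)) hsub
  change Real.log (D.cv σ k 1 (Real.exp s) ξ (W ⊓ W') * D.cv σ k 1 (Real.exp s) ξ (sat (W ⊔ W')))
    ≤ Real.log (D.cv σ k 1 (Real.exp s) ξ W * D.cv σ k 1 (Real.exp s) ξ W') at hlog
  rw [Real.log_mul (p _).ne' (p _).ne', Real.log_mul (p _).ne' (p _).ne'] at hlog
  have hI := (Real.le_log_iff_exp_le (p _)).2 (hl (W ⊓ W'))
  have hU := D.resI_le_UU ξ s σ k (sat_sat (W ⊔ W'))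
  have hb := (resI_β_ge (ρ := ρ) ξ hs hq).1
  have h4 := D.resI_UU ξ s σ k
  rw [resI_uu] at h2 h2' hU
  rw [← hr] at h2'
  linarith

lemma resI_uu_le {ξ s σ c : ℝ} {k : ℕ} (hs : 0 ≤ s) (hc : c ≤ s / 2)
    (hl : ∀ W : Lat ρ, Real.exp (-c) ≤ D.cv σ k 1 (Real.exp s) ξ W) (W : Lat ρ) :
    D.uu (resI_pot ρ ξ s) σ k W ≤ s := by
  have hI := (Real.le_log_iff_exp_le (D.resI_cv_pos σ k (Real.exp_pos s) ξ W)).2 (hl W)
  have := resI_β_le (ρ := ρ) ξ hs (rk_le W)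
  rw [resI_uu]
  linarith

/-- the resonant vector in the extended lattice -/
lemma resI_vec {C₀ δ ξ s σ : ℝ} {k : ℕ} (h : D.Res C₀ δ (Real.exp (-s)) ξ σ k) :
    ∃ v : Fin (ρ + 1) → ℤ, δ ≤ ‖zm σ k (D.ho (cst v))‖ ∧
      ‖D.LL σ k 1 (Real.exp s) σ ξ (cst v)‖ ≤ 2 * |C₀| + 1 := by
  obtain ⟨u, n, h1, h2, h3, h4⟩ := h
  have e1 : tl ρ (cst (Fin.cons n u : Fin (ρ + 1) → ℤ)) = cst u := by
    ext i; simp [tl, cst, LinearMap.funLeft_apply]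
  have e2 : D.ho (cst (Fin.cons n u : Fin (ρ + 1) → ℤ)) = D.hol (cst u) := by rw [ho, e1]
  have e3 : D.ell σ ξ (cst (Fin.cons n u : Fin (ρ + 1) → ℤ)) =
      ξ * dot (D.hol (cst u)) (ed σ) - n := by
    rw [ell, e2]; simp [cst]
  refine ⟨Fin.cons n u, by rwa [e2], ?_⟩
  refine abs_le_of_sq_le_sq' ?_ (by positivity) |>.2
  rw [norm_LL_sq, e1, e2, e3]
  have h5 : |Real.exp s * (ξ * dot (D.hol (cst u)) (ed σ) - n)| ≤ 1 := by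
    rw [abs_mul, abs_of_pos (Real.exp_pos s)]
    have := mul_le_mul_of_nonneg_left h4.le (Real.exp_pos s).le
    rwa [← Real.exp_add, add_neg_cancel, Real.exp_zero] at this
  have h6 := sq_le_one_iff_abs_le_one _ |>.2 h5
  have a1 := h1.trans (le_abs_self C₀)
  have a3 := h3.trans (le_abs_self C₀)
  have b1 := pow_le_pow_left₀ (norm_nonneg _) a1 2
  have b3 := pow_le_pow_left₀ (norm_nonneg _) a3 2
  rw [one_mul]
  nlinarith [abs_nonneg C₀]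

/-- the structure of nearly maximal sublattices at a resonant node without a lock -/
lemma resI_chain {ξ s σ c C₁ θ : ℝ} {k : ℕ} (hs : 0 ≤ s) (hc : c < s / 2)
    (hC : Real.log C₁ < 7 * (resI_g ρ * s)) (hC' : 0 < C₁)
    (hl : ∀ W : Lat ρ, Real.exp (-c) ≤ D.cv σ k 1 1 ξ W) {v : Fin (ρ + 1) → ℤ}
    (hv : ‖D.LL σ k 1 (Real.exp s) σ ξ (cst v)‖ ≤ C₁)
    (hL : ¬ ∃ W, D.Lock ξ (s / 2) (θ * s) σ k W) {W : Lat ρ}
    (h : W ∈ D.Ch (resI_pot ρ ξ s) σ k) :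
    v ∈ W ∧ ¬ D.Deep σ k (Real.exp s) ξ W (Real.exp (-(θ * s))) := by
  obtain ⟨h1, h2⟩ := D.resI_ch h
  have p := fun W => D.resI_cv_pos σ k (Real.exp_pos s) ξ W
  have h4 := D.resI_UU ξ s σ k
  have h0 : 0 ≤ resI_g ρ * s := mul_nonneg (resI_g_pos ρ).le hs
  have hβ := resI_β_le (ρ := ρ) ξ hs (rk_le W)
  have hb : 1 ≤ Real.exp s := Real.one_le_exp hs
  rw [resI_uu] at h2
  refine ⟨?_, fun hd => hL ⟨W, h1, fun he => ?_, ?_, hd.mono D ?_ le_rfl le_rfl⟩⟩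
  · by_contra hv'
    obtain ⟨a1, a2⟩ := cov_add_le (D.LL σ k 1 (Real.exp s) σ ξ) h1 hv'
    have a3 : D.cv σ k 1 (Real.exp s) ξ (sat (W ⊔ Submodule.span ℤ {v})) ≤
        D.cv σ k 1 (Real.exp s) ξ W * C₁ := a1.trans (mul_le_mul_of_nonneg_left hv (p W).le)
    have a4 := Real.log_le_log (p _) a3
    rw [Real.log_mul (p _).ne' hC'.ne'] at a4
    have hU := D.resI_le_UU ξ s σ k (sat_sat (W ⊔ Submodule.span ℤ {v}))
    have a5 := (resI_β_ge (ρ := ρ) ξ hs (Nat.lt_succ_self (rk W))).2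
    rw [resI_uu, a2] at hU
    linarith
  · have a1 := D.dec_eps σ k 1 ξ he (Real.exp_pos s).le
    have a2 := D.resI_cv_pos σ k one_pos ξ W
    have a3 := (Real.le_log_iff_exp_le a2).2 (hl W)
    rw [← a1, Real.log_mul (Real.exp_pos s).ne' a2.ne', Real.log_exp] at h2
    linarith
  · refine (D.dec_b σ k 1 ξ W hb).trans ((Real.log_le_iff_le_exp (p W)).1 ?_)
    linarith
  · rwa [abs_one, abs_of_pos (Real.exp_pos s)]

lemma resI_om_nonneg {m : ℕ} (w : Fin m → Fin ρ → ℝ) (c : Fin m → ℝ) {κ : ℝ} (hκ : 0 < κ) (σ : ℝ)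
    (k : ℕ) : 0 ≤ D.om w c κ σ k := mul_nonneg hκ.le (Real.sqrt_nonneg _)

lemma resI_dyadic {σ b ξ m₀ : ℝ} {k : ℕ} {W : Lat ρ} (hW : D.Surj W) (hm : 0 < m₀)
    (h : ¬ D.Deep σ k b ξ W m₀) :
    ∃ m, m₀ ≤ m ∧ ¬ D.Deep σ k b ξ W m ∧ D.Deep σ k b ξ W (2 * m) := by
  classical
  obtain ⟨t, -, ht⟩ := hW.deep D σ k b ξ
  have hex : ∃ n : ℕ, D.Deep σ k b ξ W (2 * (2 ^ n * m₀)) := by
    obtain ⟨n, hn⟩ := pow_unbounded_of_one_lt (t / m₀) (one_lt_two (α := ℝ))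
    rw [div_lt_iff₀ hm] at hn
    refine ⟨n, ht.mono D le_rfl ?_ le_rfl⟩
    have : 0 < 2 ^ n * m₀ := by positivity
    linarith
  refine ⟨2 ^ Nat.find hex * m₀, le_mul_of_one_le_left hm.le (one_le_pow₀ one_le_two), ?_,
    Nat.find_spec hex⟩
  rcases hn : Nat.find hex with _ | n
  · simpa using h
  · have := Nat.find_min hex (m := n) (by omega)
    rwa [pow_succ, mul_comm _ (2 : ℝ), mul_assoc]

/-- the covolume of a sublattice of bounded depth with a short vector grows -/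
lemma resI_step {Co : ℝ} (hom : ∀ m ≤ ρ + 1, ∀ (w : Fin m → Fin ρ → ℝ) (c : Fin m → ℝ)
    (κ₀ σ₀ : ℝ) (k B : ℕ) (κ E : ℝ), 0 < κ₀ → 0 < κ → κ ≤ 1 →
    dens B (fun τ => D.om w c κ₀ (σ₀ + τ / 4 ^ k) (k + B) < Real.exp (-E) * D.om w c κ₀ σ₀ k) ≤
      Co * Real.exp (Co * κ ^ 2 * B - 2 * κ * E))
    {σ₀ b ξ m₀ η κ κ₁ E δ C₁ G : ℝ} {k B : ℕ} (h0 : |σ₀| ≤ 1) (hb : 0 < b) (hξ : 0 ≤ ξ)
    (hm : 0 < m₀) (hm' : m₀ ≤ 1) (hη : 0 < η) (hκ : κ ≤ 1 / 2) (hκ₁ : 0 < κ₁) (hκ₁' : κ₁ ≤ 1)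
    (hδ : 0 < δ) (hG : 0 ≤ G) (hf : 8 * b * ξ ≤ m₀ * η * 8 ^ k)
    (hr : 12 * C₁ * G ≤ Real.exp (κ * B) * m₀ * η * Real.exp (-E) * δ) {W : Lat ρ}
    {v : Fin (ρ + 1) → ℝ} (hv : v ∈ spanR W) (hv1 : δ ≤ ‖zm σ₀ k (D.ho v)‖)
    (hv2 : ‖D.LL σ₀ k 1 b σ₀ ξ v‖ ≤ C₁) (hd : ¬ D.Deep σ₀ k b ξ W m₀) :
    dens B (fun τ => D.GapAt κ (σ₀ + τ / 4 ^ k) k B ∧
      D.cv (σ₀ + τ / 4 ^ k) (k + B) 1 b ξ W < G * D.cv σ₀ k 1 b ξ W) ≤
      8 * η + 1 / 4 ^ B + Co * Real.exp (Co * κ₁ ^ 2 * B - 2 * κ₁ * E) := by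
  have hC : 0 ≤ C₁ := (norm_nonneg _).trans hv2
  have hv0 : D.ho v ≠ 0 := fun e => by
    rw [e, map_zero, norm_zero] at hv1
    linarith
  have eE := Real.exp_pos (-E)
  have eB := Real.exp_pos (κ * B)
  by_cases hW : D.Surj W
  · obtain ⟨m, hm1, hm2, hm3⟩ := D.resI_dyadic hW hm hd
    have hm0 : 0 < m := hm.trans_le hm1
    obtain ⟨cc, hc1, hc2⟩ := D.dec_phi hW hm0 hm2
    obtain ⟨m', hm'', w, c, κ₀, hκ₀, lo, -, up, -⟩ := D.dec2 hW b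
    have g := D.grow2 h0 k B hb.le hξ hm0 hη hκ (hf.trans (by gcongr)) W hc1 hc2
    refine le_trans (dens_mono fun j _ hj => ?_) ((dens_or _ _ _).trans
      (add_le_add g (hom m' hm'' w c κ₀ σ₀ k B κ₁ E hκ₀ hκ₁ hκ₁')))
    by_contra hn
    rw [not_or, not_lt, not_and] at hn
    obtain ⟨hn1, hn2⟩ := hn
    have hn3 := hn1 hj.1
    push Not at hn3
    set σ₁ := σ₀ + (j : ℝ) / 4 ^ B / 4 ^ k
    have l1 := lo σ₁ (k + B) 1 σ₁ ξ _ _ zero_le_one (by positivity) hn3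
    rw [norm_zm_slope] at l1
    obtain ⟨x₂, hx1, hx2, hx3⟩ := hm3.pair D (by positivity) hv0 1
    have u1 := up σ₀ k 1 σ₀ ξ v hv x₂ hx1 hx2
    have o0 := D.resI_om_nonneg w c hκ₀ σ₀ k
    set O0 := D.om w c κ₀ σ₀ k
    set O1 := D.om w c κ₀ σ₁ (k + B)
    have hlt := hj.2
    simp only [cv] at hlt
    set c0 := cov (D.LL σ₀ k 1 b σ₀ ξ) W
    set c1 := cov (D.LL σ₁ (k + B) 1 b σ₁ ξ) W
    have l2 : Real.exp (κ * B) * (m * η / 4) * O1 ≤ c1 := by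
      have e2 : (0 : ℝ) < 2 ^ (k + B) := by positivity
      refine le_of_mul_le_mul_left ?_ (one_div_pos.2 e2)
      refine le_trans (le_of_eq ?_) l1
      ring
    rw [abs_one] at hx3
    have u2 : ‖D.LL σ₀ k 1 b σ₀ ξ x₂‖ * δ ≤ 1 + 2 * m :=
      (mul_le_mul_of_nonneg_left hv1 (norm_nonneg _)).trans hx3
    have u3 : c0 * δ ≤ O0 * (C₁ * (1 + 2 * m)) := by
      calc c0 * δ ≤ O0 * (C₁ * ‖D.LL σ₀ k 1 b σ₀ ξ x₂‖) * δ := by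
            refine mul_le_mul_of_nonneg_right (u1.trans ?_) hδ.le
            gcongr
        _ = O0 * (C₁ * (‖D.LL σ₀ k 1 b σ₀ ξ x₂‖ * δ)) := by ring
        _ ≤ _ := by gcongr
    have u4 : (1 + 2 * m) * m₀ ≤ 3 * m := by nlinarith
    have : G * c0 * (δ * m₀) ≤ c1 * (δ * m₀) := by
      calc G * c0 * (δ * m₀) = G * m₀ * (c0 * δ) := by ring
        _ ≤ G * m₀ * (O0 * (C₁ * (1 + 2 * m))) := by gcongr
        _ = G * O0 * C₁ * ((1 + 2 * m) * m₀) := by ring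
        _ ≤ G * O0 * C₁ * (3 * m) := by gcongr
        _ = 12 * C₁ * G * (O0 * m / 4) := by ring
        _ ≤ Real.exp (κ * B) * m₀ * η * Real.exp (-E) * δ * (O0 * m / 4) := by gcongr
        _ = Real.exp (κ * B) * (m * η / 4) * (Real.exp (-E) * O0) * (δ * m₀) := by ring
        _ ≤ Real.exp (κ * B) * (m * η / 4) * O1 * (δ * m₀) := by gcongr
        _ ≤ _ := by gcongr
    exact absurd (le_of_mul_le_mul_right this (by positivity)) (not_le.2 hlt)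
  · obtain ⟨m', hm'', w, c, κ₀, hκ₀, lo, up⟩ := D.dec1 hW b hv hv0
    have g := grow1 σ₀ k B hδ hη hv1
    refine le_trans (dens_mono fun j _ hj => ?_) ((dens_or _ _ _).trans
      (add_le_add g (hom m' hm'' w c κ₀ σ₀ k B κ₁ E hκ₀ hκ₁ hκ₁')))
    by_contra hn
    rw [not_or, not_lt, not_lt] at hn
    obtain ⟨hn1, hn2⟩ := hn
    set σ₁ := σ₀ + (j : ℝ) / 4 ^ B / 4 ^ k
    have l1 := lo σ₁ (k + B) 1 σ₁ ξ zero_le_one
    have u1 := up σ₀ k 1 σ₀ ξ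
    have o0 := D.resI_om_nonneg w c hκ₀ σ₀ k
    set O0 := D.om w c κ₀ σ₀ k
    set O1 := D.om w c κ₀ σ₁ (k + B)
    have hlt := hj.2
    simp only [cv] at hlt
    set c0 := cov (D.LL σ₀ k 1 b σ₀ ξ) W
    set c1 := cov (D.LL σ₁ (k + B) 1 b σ₁ ξ) W
    have e2 : Real.exp (κ * B) ≤ 2 ^ B := by
      rw [mul_comm, Real.exp_nat_mul]
      refine pow_le_pow_left₀ (Real.exp_pos _).le ?_ B
      refine (Real.le_log_iff_exp_le two_pos).1 (hκ.trans ?_)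
      linarith [Real.log_two_gt_d9]
    have o1 : 0 ≤ O1 := D.resI_om_nonneg w c hκ₀ σ₁ (k + B)
    have : G * c0 ≤ c1 := by
      calc G * c0 ≤ G * (O0 * C₁) := by
            refine mul_le_mul_of_nonneg_left (u1.trans ?_) hG
            gcongr
        _ ≤ 12 * C₁ * G * O0 := by nlinarith [mul_nonneg (mul_nonneg hG o0) hC]
        _ ≤ Real.exp (κ * B) * m₀ * η * Real.exp (-E) * δ * O0 := by gcongr
        _ ≤ 2 ^ B * 1 * η * Real.exp (-E) * δ * O0 := by gcongr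
        _ = 2 ^ B * (δ * η) * (Real.exp (-E) * O0) := by ring
        _ ≤ ‖zm σ₁ (k + B) (D.ho v)‖ * O1 := by gcongr
        _ ≤ c1 := by rwa [one_mul] at l1
    exact absurd this (not_le.2 hlt)

/-- union over the chain of nearly maximal sublattices -/
lemma resI_union {T : Set (Lat ρ)} (hT : ∀ W ∈ T, ∀ W' ∈ T, rk W = rk W' → W = W') {B : ℕ}
    {Q : Lat ρ → ℝ → Prop} {p : ℝ} (hp : 0 ≤ p) (h : ∀ W ∈ T, dens B (Q W) ≤ p) :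
    dens B (fun τ => ∃ W ∈ T, Q W τ) ≤ (ρ + 2) * p := by
  refine le_trans (dens_mono (Q := fun τ => ∃ i ∈ Finset.range (ρ + 2),
    ∃ W ∈ T, rk W = i ∧ Q W τ) ?_) ((dens_exists _ _ _).trans ?_)
  · rintro j - ⟨W, h1, h2⟩
    exact ⟨rk W, Finset.mem_range.2 (Nat.lt_succ_of_le (rk_le W)), W, h1, rfl, h2⟩
  · refine (Finset.sum_le_card_nsmul _ _ p fun i _ => ?_).trans (by simp)
    by_cases hi : ∃ W ∈ T, rk W = i
    · obtain ⟨W, h1, h2⟩ := hi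
      refine le_trans (dens_mono ?_) (h W h1)
      rintro j - ⟨W', a1, a2, a3⟩
      rwa [hT W h1 W' a1 (h2.trans a2.symm)]
    · rw [dens_false]
      · exact hp
      · rintro j - ⟨W', a1, a2, -⟩
        exact hi ⟨W', a1, a2⟩

omit D in
lemma resI_c3 {κ δ θ g C₁ x s : ℝ} {B : ℕ} (hδ : 0 < δ) (hg : 0 < g) (hC : 0 ≤ C₁)
    (hx0 : 0 < x) (hs : 0 ≤ s) (h1 : 24 * C₁ ≤ x * δ) (hx3 : 2 * x ^ 3 ≤ s) (hx5 : x ^ 2 ≤ x ^ 3)
    (h3 : (θ + g + 1) * s ≤ κ * B) :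
    12 * C₁ * Real.exp (g * s / 2) ≤
      Real.exp (κ * B) * Real.exp (-(θ * s)) * (1 / x) * Real.exp (-x ^ 3) * δ := by
  have h2 : x ^ 2 ≤ Real.exp (x ^ 3) := by linarith [Real.add_one_le_exp (x ^ 3)]
  have gs : 0 ≤ g * s := mul_nonneg hg.le hs
  have h4 : Real.exp (x ^ 3) * Real.exp (g * s / 2) ≤
      Real.exp (κ * B) * Real.exp (-(θ * s)) * Real.exp (-x ^ 3) := by
    rw [← Real.exp_add, ← Real.exp_add, ← Real.exp_add]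
    exact Real.exp_le_exp.2 (by linarith)
  have h5 : 0 ≤ 1 / x * δ := by positivity
  calc 12 * C₁ * Real.exp (g * s / 2) ≤ x * δ * Real.exp (g * s / 2) :=
        mul_le_mul_of_nonneg_right (by linarith) (Real.exp_pos _).le
    _ = x ^ 2 * Real.exp (g * s / 2) * (1 / x * δ) := by field_simp
    _ ≤ Real.exp (x ^ 3) * Real.exp (g * s / 2) * (1 / x * δ) :=
        mul_le_mul_of_nonneg_right (mul_le_mul_of_nonneg_right h2 (Real.exp_pos _).le) h5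
    _ ≤ Real.exp (κ * B) * Real.exp (-(θ * s)) * Real.exp (-x ^ 3) * (1 / x * δ) :=
        mul_le_mul_of_nonneg_right h4 h5
    _ = _ := by ring

omit D in
lemma resI_c5 {Co a x : ℝ} {B : ℕ} (hCo : 0 ≤ Co) (hx0 : 0 < x) (hB : (B : ℝ) ≤ a * x ^ 4) :
    Co * Real.exp (Co * (1 / x ^ 2) ^ 2 * B - 2 * (1 / x ^ 2) * x ^ 3) ≤
      Co * Real.exp (Co * a) * (1 / x) := by
  have h1 : (1 / x ^ 2) ^ 2 * B ≤ a := by
    rw [show (1 / x ^ 2) ^ 2 * B = B / x ^ 4 by field_simp, div_le_iff₀ (by positivity)]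
    exact hB
  have h2 : 2 * (1 / x ^ 2) * x ^ 3 = 2 * x := by field_simp
  have h3 : Real.exp (-(2 * x)) ≤ 1 / x := by
    rw [Real.exp_neg, one_div]
    exact inv_anti₀ hx0 (by linarith [Real.add_one_le_exp (2 * x)])
  rw [h2, sub_eq_add_neg, Real.exp_add, mul_assoc Co, mul_assoc Co]
  refine mul_le_mul_of_nonneg_left (mul_le_mul ?_ h3 (Real.exp_pos _).le (Real.exp_pos _).le) hCo
  exact Real.exp_le_exp.2 (mul_le_mul_of_nonneg_left h1 hCo)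

omit D in
lemma resI_num {g C₁ Cl x : ℝ} (hg : 0 < g) (hC : 0 < C₁) (hx2 : 2 ≤ x) (a1 : Cl ≤ g * x)
    (a2 : C₁ ≤ g * x) : x ≤ x ^ 2 ∧ x ^ 2 ≤ x ^ 3 ∧ 2 * x ^ 3 ≤ x ^ 4 ∧ Cl * x ^ 2 ≤ g * x ^ 4 ∧
      Real.log C₁ < 7 * (g * x ^ 4) := by
  have hx0 : 0 < x := by linarith
  have hxs : x ≤ x ^ 2 := by nlinarith
  have hx3 : 2 * x ^ 3 ≤ x ^ 4 := by nlinarith [pow_pos hx0 3]
  have hx5 : x ^ 2 ≤ x ^ 3 := by nlinarith [pow_pos hx0 2]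
  have p3 := pow_pos hx0 3
  refine ⟨hxs, hx5, hx3, ?_, ?_⟩
  · calc Cl * x ^ 2 ≤ g * x * x ^ 2 := mul_le_mul_of_nonneg_right a1 (by positivity)
      _ = g * x ^ 3 := by ring
      _ ≤ _ := mul_le_mul_of_nonneg_left (by linarith) hg.le
  · have h2 := Real.log_le_sub_one_of_pos hC
    have h3 : g * x ≤ g * x ^ 4 := mul_le_mul_of_nonneg_left (by linarith) hg.le
    have h4 : 0 < g * x ^ 4 := by positivity
    linarith

/-- the event bounded by conditioning -/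
def resI_Q (κ C₀ δ θ ξ s : ℝ) (k B : ℕ) (σ₀ σ₁ : ℝ) : Prop :=
  D.Res C₀ δ (Real.exp (-s)) ξ σ₀ k ∧ (¬ ∃ W, D.Lock ξ (s / 2) (θ * s) σ₀ k W) ∧
    ∃ W ∈ D.Ch (resI_pot ρ ξ s) σ₀ k, D.GapAt κ σ₁ k B ∧
      D.cv σ₁ (k + B) 1 (Real.exp s) ξ W <
        Real.exp (resI_g ρ * s / 2) * D.cv σ₀ k 1 (Real.exp s) ξ W

lemma resI_toQ {κ C₀ δ θ ξ s σ : ℝ} {k B N : ℕ} (hkB : k + B ≤ N)
    (h : (D.Good κ N σ k ∧ D.Res C₀ δ (Real.exp (-s)) ξ (tr k σ) k ∧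
      ¬ ∃ W, D.Lock ξ (s / 2) (θ * s) (tr k σ) k W) ∧ D.NG (resI_pot ρ ξ s) B σ k) :
    D.resI_Q κ C₀ δ θ ξ s k B (tr k σ) (tr (k + B) σ) := by
  obtain ⟨⟨a1, a2, a3⟩, W, a4, a5⟩ := h
  refine ⟨a2, a3, W, a4, a1 B hkB, ?_⟩
  have a6 := D.resI_le_UU ξ s (tr k σ) k (D.resI_ch a4).1
  rw [resI_uu] at a5 a6
  have pp := fun σ k => D.resI_cv_pos σ k (Real.exp_pos s) ξ W
  rw [← Real.log_lt_log_iff (pp _ _) (mul_pos (Real.exp_pos _) (pp _ _)),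
    Real.log_mul (Real.exp_pos _).ne' (pp _ _).ne', Real.log_exp]
  have e : (resI_pot ρ ξ s).Γ = resI_g ρ * s := rfl
  rw [e] at a5
  linarith

lemma resI_win {Co : ℝ} (hom : ∀ m ≤ ρ + 1, ∀ (w : Fin m → Fin ρ → ℝ) (c : Fin m → ℝ)
    (κ₀ σ₀ : ℝ) (k B : ℕ) (κ E : ℝ), 0 < κ₀ → 0 < κ → κ ≤ 1 →
    dens B (fun τ => D.om w c κ₀ (σ₀ + τ / 4 ^ k) (k + B) < Real.exp (-E) * D.om w c κ₀ σ₀ k) ≤
      Co * Real.exp (Co * κ ^ 2 * B - 2 * κ * E))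
    {κ C₀ δ θ ξ s σ₀ c η κ₁ E p : ℝ} {k B : ℕ} (h0 : |σ₀| ≤ 1) (hs : 0 ≤ s) (hθ : 0 ≤ θ)
    (hξ : 0 ≤ ξ) (hη : 0 < η) (hκ : κ ≤ 1 / 2) (hκ₁ : 0 < κ₁) (hκ₁' : κ₁ ≤ 1) (hδ : 0 < δ)
    (hp : 0 ≤ p) (hc : c < s / 2) (hC : Real.log (2 * |C₀| + 1) < 7 * (resI_g ρ * s))
    (hl : ∀ W : Lat ρ, Real.exp (-c) ≤ D.cv σ₀ k 1 1 ξ W)
    (hU : ∀ W ∈ D.Ch (resI_pot ρ ξ s) σ₀ k, ∀ W' ∈ D.Ch (resI_pot ρ ξ s) σ₀ k,
      rk W = rk W' → W = W')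
    (hf : 8 * Real.exp s * ξ ≤ Real.exp (-(θ * s)) * η * 8 ^ k)
    (hr : 12 * (2 * |C₀| + 1) * Real.exp (resI_g ρ * s / 2) ≤
      Real.exp (κ * B) * Real.exp (-(θ * s)) * η * Real.exp (-E) * δ)
    (hq : 8 * η + 1 / 4 ^ B + Co * Real.exp (Co * κ₁ ^ 2 * B - 2 * κ₁ * E) ≤ p) :
    dens B (fun τ => D.resI_Q κ C₀ δ θ ξ s k B σ₀ (σ₀ + τ / 4 ^ k)) ≤ (ρ + 2) * p := by
  by_cases hR : D.Res C₀ δ (Real.exp (-s)) ξ σ₀ k ∧ ¬ ∃ W, D.Lock ξ (s / 2) (θ * s) σ₀ k W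
  · obtain ⟨v, hv1, hv2⟩ := D.resI_vec hR.1
    refine le_trans (dens_mono fun i _ hi => hi.2.2) (resI_union (Q := fun W τ =>
      D.GapAt κ (σ₀ + τ / 4 ^ k) k B ∧ D.cv (σ₀ + τ / 4 ^ k) (k + B) 1 (Real.exp s) ξ W <
        Real.exp (resI_g ρ * s / 2) * D.cv σ₀ k 1 (Real.exp s) ξ W) hU hp ?_)
    intro W hW
    obtain ⟨b1, b2⟩ := D.resI_chain hs hc hC (by positivity) hl hv2 hR.2 hW
    exact (D.resI_step hom h0 (Real.exp_pos s) hξ (Real.exp_pos _)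
      (Real.exp_le_one_iff.2 (neg_nonpos.2 (mul_nonneg hθ hs))) hη hκ hκ₁ hκ₁' hδ
      (Real.exp_pos _).le hf hr (cst_mem_spanR b1) hv1 hv2 b2).trans hq
  · rw [dens_false fun i _ hi => hR ⟨hi.1, hi.2.1⟩]
    positivity

/-- resonances without a deep lock are rare -/
theorem res_one {κ C₀ δ θ bm : ℝ} (hκ : 0 < κ) (hκ' : κ ≤ 1 / 2) (hδ : 0 < δ) (hθ : 0 < θ) :
    ∃ C ≥ (1 : ℝ), ∃ s₀ ≥ (1 : ℝ), ∀ s ≥ s₀, ∃ K₀ : ℕ, ∀ K ≥ K₀, ∀ K' N : ℕ, K ≤ K' → K' + K ≤ N →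
    ∀ ξ, 0 ≤ ξ → ξ ≤ bm →
    ∑ k ∈ Finset.Ico K K', dens N (fun σ => D.Good κ N σ k ∧
      D.Res C₀ δ (Real.exp (-s)) ξ (tr k σ) k ∧
      ¬ ∃ W, D.Lock ξ (s / 2) (θ * s) (tr k σ) k W) ≤ C * (N / s ^ (1 / 4 : ℝ) + s) := by
  have hg := resI_g_pos ρ
  have hg' := resI_g_le ρ
  obtain ⟨θ', hθ0, hθ1, hθ2⟩ : ∃ θ' : ℝ, 0 < θ' ∧ κ * θ' = θ + resI_g ρ + 1 ∧ 1 ≤ θ' := by
    refine ⟨(θ + resI_g ρ + 1) / κ, by positivity, by field_simp, ?_⟩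
    rw [le_div_iff₀ hκ]; linarith
  obtain ⟨Cp, hCp, r₀, hr₀, hmain⟩ := D.pot_main hg (by linarith) hθ0
  obtain ⟨Cl, hCl, hlow⟩ := D.cv_lower
  obtain ⟨Cn, hCn, hnd⟩ := D.nondiv_exp
  obtain ⟨Co, hCo, hom⟩ := D.om_drop
  have hC₁ : 0 < 2 * |C₀| + 1 := by positivity
  obtain ⟨x₀, hx₀, q1, q2, q3⟩ : ∃ x₀ : ℝ, 2 ≤ x₀ ∧ 24 * (2 * |C₀| + 1) / δ ≤ x₀ ∧
      (2 * |C₀| + 1) / resI_g ρ ≤ x₀ ∧ Cl / resI_g ρ ≤ x₀ :=
    ⟨max (max 2 (24 * (2 * |C₀| + 1) / δ)) (max ((2 * |C₀| + 1) / resI_g ρ) (Cl / resI_g ρ)),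
      le_max_of_le_left (le_max_left _ _), le_max_of_le_left (le_max_right _ _),
      le_max_of_le_right (le_max_left _ _), le_max_of_le_right (le_max_right _ _)⟩
  obtain ⟨A₀, hA₀, hA₀'⟩ : ∃ A₀ : ℝ, 0 ≤ A₀ ∧ A₀ = Co * Real.exp (Co * (θ' + resI_g ρ)) :=
    ⟨_, by positivity, rfl⟩
  obtain ⟨A, hA0, hA⟩ : ∃ A : ℝ, 0 ≤ A ∧ A = Cn + (ρ + 2) * (9 + A₀) := ⟨_, by positivity, rfl⟩
  refine ⟨Cp * (A + 1), one_le_mul_of_one_le_of_one_le hCp (by linarith), max r₀ (x₀ ^ 4),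
    le_max_of_le_left hr₀, fun s hs => ?_⟩
  have hs1 : 1 ≤ s := hr₀.trans ((le_max_left _ _).trans hs)
  have hs0 : 0 ≤ s := by linarith
  obtain ⟨B, hB1, hB2, hB⟩ := hmain s ((le_max_left _ _).trans hs)
  clear hmain
  have hx4 : (s ^ (1 / 4 : ℝ)) ^ 4 = s := by
    rw [← Real.rpow_natCast, ← Real.rpow_mul hs0]; norm_num
  have hx0 : 0 < s ^ (1 / 4 : ℝ) := Real.rpow_pos_of_pos (by linarith) _
  generalize s ^ (1 / 4 : ℝ) = x at hx4 hx0 hB ⊢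
  have hxx : x₀ ≤ x := by
    refine le_of_pow_le_pow_left₀ (n := 4) (by norm_num) hx0.le ?_
    rw [hx4]; exact (le_max_right _ _).trans hs
  have hx2 : 2 ≤ x := hx₀.trans hxx
  have hsq : √s = x ^ 2 := by
    rw [← hx4, show x ^ 4 = (x ^ 2) ^ 2 by ring, Real.sqrt_sq (by positivity)]
  obtain ⟨hxs, hx5, hx3, c1, c2⟩ := resI_num (Cl := Cl) hg hC₁ hx2
    (by rw [mul_comm]; exact (div_le_iff₀ hg).1 (q3.trans hxx))
    (by rw [mul_comm (resI_g ρ)]; exact (div_le_iff₀ hg).1 (q2.trans hxx))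
  rw [hx4] at hx3 c1 c2
  rw [← hsq] at c1
  have gs : 0 < resI_g ρ * s := by positivity
  have gs' : resI_g ρ * s ≤ 1 / 8 * s := mul_le_mul_of_nonneg_right hg' hs0
  have c3 := resI_c3 (κ := κ) (θ := θ) (B := B) hδ hg hC₁.le hx0 hs0
    ((div_le_iff₀ hδ).1 (q1.trans hxx)) hx3 hx5
    (by rw [← hθ1, mul_assoc]; exact mul_le_mul_of_nonneg_left hB1 hκ.le)
  have c4 : (1 : ℝ) / 4 ^ B ≤ 1 / x := by
    refine one_div_le_one_div_of_le hx0 ?_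
    have h1 : (B : ℝ) ≤ 4 ^ B := by exact_mod_cast (Nat.lt_pow_self (by norm_num : 1 < 4)).le
    have h2 : s ≤ θ' * s := le_mul_of_one_le_left hs0 hθ2
    have h3 : 0 < x ^ 3 := by positivity
    linarith
  have c5 := resI_c5 (Co := Co) (a := θ' + resI_g ρ) (B := B) (by linarith) hx0 (by rwa [hx4])
  rw [← hA₀'] at c5
  obtain ⟨K₁, hK₁⟩ := pow_unbounded_of_one_lt (max (4 * |bm| * Real.exp s * 2 ^ B)
    (8 * Real.exp s * |bm| / (Real.exp (-(θ * s)) * (1 / x)))) (show (1 : ℝ) < 8 by norm_num)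
  refine ⟨max K₁ B, fun K hK K' N hKK hN ξ hξ hξ' => ?_⟩
  have hBK : B ≤ K := (le_max_right _ _).trans hK
  have hξb : ξ ≤ |bm| := hξ'.trans (le_abs_self _)
  have h8 : ∀ k, K ≤ k → (8 : ℝ) ^ K₁ ≤ 8 ^ k := fun k hk =>
    pow_le_pow_right₀ (by norm_num) (((le_max_left _ _).trans hK).trans hk)
  have hU : D.Uniq (resI_pot ρ ξ s) (Real.exp (-√s)) := fun σ k ht W hW W' hW' hr =>
    D.resI_uniq hs0 (c := Cl * √s) (by linarith)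
      (fun W => hlow s hs1 σ k ht _ (Real.one_le_exp hs0) σ ξ W) hW hW' hr
  have hAx : 0 ≤ A / x := div_nonneg hA0 hx0.le
  have key := hB (resI_pot ρ ξ s) rfl one_pos (Real.exp_pos s) hξ hU K K' N s (A / x)
    (fun σ k => D.Good κ N σ k ∧ D.Res C₀ δ (Real.exp (-s)) ξ (tr k σ) k ∧
      ¬ ∃ W, D.Lock ξ (s / 2) (θ * s) (tr k σ) k W) hKK (by omega) ?_ ?_ hAx ?_ ?_ ?_
  · refine key.trans ?_
    have h1 : (K' : ℝ) - K + B ≤ N := by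
      have : K' + B ≤ N + K := by omega
      have : (K' : ℝ) + B ≤ N + K := by exact_mod_cast this
      linarith
    rw [mul_assoc]
    refine mul_le_mul_of_nonneg_left ?_ (by linarith)
    calc ((K' : ℝ) - K + B) * (A / x + 1 / x) + s ≤ N * (A / x + 1 / x) + (A + 1) * s :=
          add_le_add (mul_le_mul_of_nonneg_right h1 (by positivity))
            (le_mul_of_one_le_left hs0 (by linarith))
      _ = _ := by ring
  · change 4 * ξ * Real.exp s * 2 ^ B ≤ 1 * 8 ^ K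
    rw [one_mul]
    refine le_trans ?_ (((le_max_left _ _).trans hK₁.le).trans (h8 K le_rfl))
    gcongr
  · change resI_g ρ * s ≤ s
    linarith
  · intro σ k ht W _
    exact D.resI_uu_le hs0 (c := Cl * √s) (by linarith)
      (fun W => hlow s hs1 σ k ht _ (Real.one_le_exp hs0) σ ξ W) W
  · intro σ k _
    have := D.resI_UU ξ s (tr k σ) k
    change 2 * (resI_g ρ * s) ≤ _
    linarith
  · intro k hk hk'
    clear hB
    have hkB : k + B ≤ N := by omega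
    have hp0 : 0 ≤ (9 + A₀) / x := by positivity
    refine le_trans (dens_mono fun j _ hj => D.resI_toQ hkB hj)
      ((dens_cond' hkB (fun σ => D.th σ k (Real.exp (-√s))) (D.resI_Q κ C₀ δ θ ξ s k B)
        (p := (ρ + 2) * ((9 + A₀) / x)) (by positivity) ?_).trans ?_)
    · intro j hj ht
      have j1 : |(j : ℝ) / 4 ^ k| ≤ 1 := by
        rw [abs_of_nonneg (by positivity), div_le_one (by positivity)]
        exact_mod_cast hj.le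
      refine D.resI_win hom (c := Cl * √s) (κ₁ := 1 / x ^ 2) j1 hs0 hθ.le hξ (one_div_pos.2 hx0)
        hκ' (by positivity) ((div_le_one (by positivity)).2 (by linarith)) hδ hp0 (by linarith) c2
        (fun W => hlow s hs1 _ k ht 1 le_rfl _ ξ W) (hU _ k ht) ?_ c3 ?_
      · have := (((le_max_right _ _).trans hK₁.le).trans (h8 k hk))
        rw [div_le_iff₀ (by positivity), mul_comm ((8 : ℝ) ^ k)] at this
        refine le_trans ?_ this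
        gcongr
      · rw [add_div, div_eq_mul_one_div A₀, div_eq_mul_one_div 9]
        linarith
    · have h1 := hnd s hs1 k
      have h2 : Cn / √s ≤ Cn / x := by
        rw [hsq]; exact div_le_div_of_nonneg_left (by linarith) hx0 hxs
      rw [hA, add_div Cn, mul_div_assoc]
      linarith

end ResData

end Pool.Agent.MP_d0b2d2_an.Gen
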