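import Mathlib

open MeasureTheory Set Filter Topology Metric BoundedContinuousFunction

namespace Pool.Agent.MP_d0b2d2_an.Gen

lemma integrable_bdd {A : Type} [MeasurableSpace A] {μ : Measure A} [IsFiniteMeasure μ]
    {f : A → ℝ} (hf : Measurable f) {M : ℝ} (hM : ∀ x, |f x| ≤ M) : Integrable f μ :=
  Integrable.of_bound hf.aestronglyMeasurable M (ae_of_all _ hM)

lemma ii_bdd {f : ℝ → ℝ} (hf : Measurable f) {M : ℝ} (hM : ∀ x, |f x| ≤ M) (a b : ℝ) :
    IntervalIntegrable f volume a b := by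
  rw [intervalIntegrable_iff]
  exact Measure.integrableOn_of_bounded (M := M) (by simp [uIoc]) hf.aestronglyMeasurable
    (ae_of_all _ hM)

lemma measurable_ii {A : Type} [MeasurableSpace A] {f : A × ℝ → ℝ} (hf : Measurable f) (a b : ℝ) :
    Measurable fun x => ∫ s in a..b, f (x, s) := by
  unfold intervalIntegral
  exact (hf.stronglyMeasurable.integral_prod_right').measurable.sub
    (hf.stronglyMeasurable.integral_prod_right').measurable

/-- the average over `[0, n]` -/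
noncomputable def avN (f : ℝ → ℝ) (n : ℕ) : ℝ := (∫ t in (0 : ℝ)..n, f t) / n

lemma abs_avN_le {f : ℝ → ℝ} {M : ℝ} (hM : ∀ t, |f t| ≤ M) (n : ℕ) : |avN f n| ≤ M := by
  have hM0 : 0 ≤ M := (abs_nonneg _).trans (hM 0)
  rcases Nat.eq_zero_or_pos n with rfl | hn
  · simpa [avN] using hM0
  have hn' : (0 : ℝ) < n := by exact_mod_cast hn
  unfold avN
  rw [abs_div, abs_of_pos hn', div_le_iff₀ hn']
  have := intervalIntegral.norm_integral_le_of_norm_le_const (a := 0) (b := n)
    (f := f) (C := M) fun s _ => hM _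
  simpa using this

lemma avN_mono {f g : ℝ → ℝ} (n : ℕ) (hf : IntervalIntegrable f volume 0 n)
    (hg : IntervalIntegrable g volume 0 n) (h : ∀ t, 0 ≤ t → f t ≤ g t) : avN f n ≤ avN g n :=
  div_le_div_of_nonneg_right (intervalIntegral.integral_mono_on (Nat.cast_nonneg n) hf hg
    fun t ht => h t ht.1) (Nat.cast_nonneg n)

lemma avN_le_of_linear {f : ℝ → ℝ} {ε K : ℝ} (hε : 0 < ε)
    (h : ∀ T, 0 ≤ T → ∫ t in (0 : ℝ)..T, f t ≤ ε * T + K) : ∀ᶠ n in atTop, avN f n ≤ 2 * ε := by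
  filter_upwards [(tendsto_const_div_atTop_nhds_zero_nat K).eventually_le_const hε,
    eventually_gt_atTop 0] with n h1 hn
  have hn' : (0 : ℝ) < n := by exact_mod_cast hn
  rw [div_le_iff₀ hn'] at h1
  unfold avN
  rw [div_le_iff₀ hn']
  linarith [h n hn'.le]

lemma measurable_avN {Θ : Type} [MeasurableSpace Θ] {φ : Θ → ℝ → ℝ}
    (hφ : Measurable (Function.uncurry φ)) (n : ℕ) : Measurable fun θ => avN (φ θ) n :=
  (measurable_ii hφ 0 n).div_const _

lemma integral_ii_swap {Θ : Type} [MeasurableSpace Θ] (μ : Measure Θ) [IsFiniteMeasure μ]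
    {φ : Θ → ℝ → ℝ} (hφ : Measurable (Function.uncurry φ)) {M : ℝ} (hM : ∀ θ t, |φ θ t| ≤ M)
    {T : ℝ} (hT : 0 ≤ T) :
    ∫ t in (0 : ℝ)..T, ∫ θ, φ θ t ∂μ = ∫ θ, (∫ t in (0 : ℝ)..T, φ θ t) ∂μ := by
  simp_rw [intervalIntegral.integral_of_le hT]
  exact (integral_integral_swap (integrable_bdd hφ fun a => hM _ _)).symm

lemma rev_fatou {Θ : Type} [MeasurableSpace Θ] (μ : Measure Θ) [IsFiniteMeasure μ]
    {φ : Θ → ℝ → ℝ} (hφ : Measurable (Function.uncurry φ)) {M : ℝ} (hM : ∀ θ t, |φ θ t| ≤ M)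
    {c : Θ → ℝ} (hc : Integrable c μ) (h : ∀ᵐ θ ∂μ, ∀ᶠ n in atTop, avN (φ θ) n ≤ c θ)
    {η : ℝ} (hη : 0 < η) :
    ∀ᶠ n in atTop, avN (fun t => ∫ θ, φ θ t ∂μ) n ≤ ∫ θ, c θ ∂μ + η := by
  have hi : ∀ n, Integrable (fun θ => avN (φ θ) n) μ := fun n =>
    integrable_bdd (measurable_avN hφ n) fun θ => abs_avN_le (hM θ) n
  have hi2 : ∀ n, Integrable (fun θ => max (avN (φ θ) n - c θ) 0) μ := fun n =>
    ((hi n).sub hc).pos_part
  have ht := tendsto_integral_of_dominated_convergence (μ := μ)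
    (F := fun n θ => max (avN (φ θ) n - c θ) 0) (f := fun _ => 0) (fun θ => M + |c θ|)
    (fun n => (hi2 n).aestronglyMeasurable) ((integrable_const _).add hc.abs)
    (fun n => ae_of_all _ fun θ => by
      have := abs_le.1 (abs_avN_le (hM θ) n)
      rw [Real.norm_eq_abs, abs_of_nonneg (le_max_right _ _)]
      exact max_le (by linarith [neg_le_abs (c θ), this.2])
        (by linarith [abs_nonneg (c θ), this.1, this.2]))
    (by
      filter_upwards [h] with θ hθ
      refine tendsto_const_nhds.congr' ?_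
      filter_upwards [hθ] with n hn
      exact (max_eq_right (by linarith)).symm)
  rw [integral_zero] at ht
  filter_upwards [ht.eventually_le_const hη] with n hn
  have e : avN (fun t => ∫ θ, φ θ t ∂μ) n = ∫ θ, avN (φ θ) n ∂μ := by
    unfold avN
    rw [integral_ii_swap μ hφ hM (Nat.cast_nonneg n), integral_div]
  have := integral_mono ((hi n).sub hc) (hi2 n) fun θ => le_max_left _ _
  rw [integral_sub' (hi n) hc] at this
  linarith

/-- translation of a bounded continuous function -/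
def sh (s : ℝ) (f : ℝ →ᵇ ℝ) : ℝ →ᵇ ℝ := f.compContinuous ⟨fun t => t + s, by fun_prop⟩

@[simp] lemma sh_apply (s : ℝ) (f : ℝ →ᵇ ℝ) (t : ℝ) : sh s f t = f (t + s) := rfl

structure IsMean (U : Ultrafilter ℕ) (m : (ℝ →ᵇ ℝ) →L[ℝ] ℝ) : Prop where
  le : (U : Filter ℕ) ≤ atTop
  lim : ∀ f : ℝ →ᵇ ℝ, Tendsto (avN f) U (𝓝 (m f))

lemma exists_mean {U : Ultrafilter ℕ} (hU : (U : Filter ℕ) ≤ atTop) : ∃ m, IsMean U m := by
  have h : ∀ f : ℝ →ᵇ ℝ, ∃ x ∈ Icc (-‖f‖) ‖f‖, Tendsto (avN f) U (𝓝 x) := fun f => by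
    have := (isCompact_Icc (a := -‖f‖) (b := ‖f‖)).ultrafilter_le_nhds (U.map (avN f)) (by
      rw [Ultrafilter.coe_map, le_principal_iff, mem_map]
      exact univ_mem' fun n => abs_le.1 (abs_avN_le (fun t => f.norm_coe_le_norm t) n))
    exact this
  choose m hm1 hm2 using h
  let L : (ℝ →ᵇ ℝ) →ₗ[ℝ] ℝ :=
    { toFun := m
      map_add' := fun f g => by
        refine tendsto_nhds_unique (hm2 (f + g)) (((hm2 f).add (hm2 g)).congr fun n => ?_)
        simp only [avN, coe_add, Pi.add_apply]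
        rw [intervalIntegral.integral_add (f.continuous.intervalIntegrable _ _)
          (g.continuous.intervalIntegrable _ _), add_div]
      map_smul' := fun r f => by
        refine tendsto_nhds_unique (hm2 (r • f)) (((hm2 f).const_mul r).congr fun n => ?_)
        simp only [avN, coe_smul, smul_eq_mul]
        rw [intervalIntegral.integral_const_mul, mul_div_assoc] }
  exact ⟨L.mkContinuous 1 fun f => by rw [one_mul]; exact abs_le.2 (hm1 f), hU, hm2⟩

variable {U : Ultrafilter ℕ} {m : (ℝ →ᵇ ℝ) →L[ℝ] ℝ}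

lemma IsMean.le_of (hm : IsMean U m) {f : ℝ →ᵇ ℝ} {c : ℝ}
    (h : ∀ η > 0, ∀ᶠ n in atTop, avN f n ≤ c + η) : m f ≤ c :=
  le_of_forall_pos_le_add fun η hη => le_of_tendsto (hm.lim f) (hm.le (h η hη))

lemma IsMean.mono (hm : IsMean U m) {f g : ℝ →ᵇ ℝ} (h : ∀ t, f t ≤ g t) : m f ≤ m g :=
  le_of_tendsto_of_tendsto' (hm.lim f) (hm.lim g) fun n => avN_mono n
    (f.continuous.intervalIntegrable _ _) (g.continuous.intervalIntegrable _ _) fun t _ => h t

lemma IsMean.abs_le (hm : IsMean U m) {f : ℝ →ᵇ ℝ} {M : ℝ} (h : ∀ t, |f t| ≤ M) : |m f| ≤ M :=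
  le_of_tendsto' (hm.lim f).abs fun n => abs_avN_le h n

lemma IsMean.shift (hm : IsMean U m) (s : ℝ) (f : ℝ →ᵇ ℝ) : m (sh s f) = m f := by
  have h0 : Tendsto (fun n => avN (sh s f) n - avN f n) atTop (𝓝 0) := by
    refine squeeze_zero_norm (fun n => ?_) (tendsto_const_div_atTop_nhds_zero_nat (2 * ‖f‖ * |s|))
    simp only [avN, sh_apply]
    rw [← sub_div, norm_div, Real.norm_natCast]
    refine div_le_div_of_nonneg_right ?_ (Nat.cast_nonneg n)
    rw [intervalIntegral.integral_comp_add_right (fun t => f t),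
      intervalIntegral.integral_interval_sub_interval_comm' (f.continuous.intervalIntegrable _ _)
      (f.continuous.intervalIntegrable _ _) (f.continuous.intervalIntegrable _ _)]
    have h1 := intervalIntegral.norm_integral_le_of_norm_le_const (a := n) (b := n + s)
      (f := f) (C := ‖f‖) fun s _ => f.norm_coe_le_norm s
    have h2 := intervalIntegral.norm_integral_le_of_norm_le_const (a := 0) (b := 0 + s)
      (f := f) (C := ‖f‖) fun s _ => f.norm_coe_le_norm s
    simp only [add_sub_cancel_left] at h1 h2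
    linarith [norm_sub_le (∫ t in (n : ℝ)..n + s, f t) (∫ t in (0 : ℝ)..0 + s, f t)]
  have := tendsto_nhds_unique ((hm.lim (sh s f)).sub (hm.lim f)) (h0.mono_left hm.le)
  linarith

lemma IsMean.le_int (hm : IsMean U m) {Θ : Type} [MeasurableSpace Θ] (μ : Measure Θ)
    [IsFiniteMeasure μ] {φ : Θ → ℝ → ℝ} (hφ : Measurable (Function.uncurry φ)) {M : ℝ}
    (hM : ∀ θ t, |φ θ t| ≤ M) {c : Θ → ℝ} (hc : Integrable c μ)
    (h : ∀ᵐ θ ∂μ, ∀ᶠ n in atTop, avN (φ θ) n ≤ c θ) {f : ℝ →ᵇ ℝ}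
    (hf : ∀ t, 0 ≤ t → f t ≤ ∫ θ, φ θ t ∂μ) : m f ≤ ∫ θ, c θ ∂μ := by
  refine hm.le_of fun η hη => ?_
  filter_upwards [rev_fatou μ hφ hM hc h hη] with n hn
  refine le_trans (avN_mono n (f.continuous.intervalIntegrable _ _) (ii_bdd
    (hφ.stronglyMeasurable.integral_prod_left').measurable (M := M * μ.real univ) (fun t => ?_) _ _)
    hf) hn
  exact norm_integral_le_of_norm_le_const (f := fun θ => φ θ t) (ae_of_all _ fun θ => hM θ t)


lemma exists_env {u : ℕ → ℝ} (hu : Tendsto u atTop (𝓝 0)) : ∃ e : ℕ → ℝ, Antitone e ∧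
    (∀ n, 0 < e n) ∧ (∀ n, u n ≤ e n ^ 2) ∧ Tendsto e atTop (𝓝 0) := by
  let v : ℕ → ℝ := fun n => |u n| + 1 / ((n : ℝ) + 1)
  have hv : Tendsto v atTop (𝓝 0) := by
    simpa [v] using hu.abs.add tendsto_one_div_add_atTop_nhds_zero_nat
  have hb : ∀ n, BddAbove (range fun m => v (n + m)) := fun n =>
    hv.bddAbove_range.mono (by rintro _ ⟨m, rfl⟩; exact ⟨_, rfl⟩)
  let e : ℕ → ℝ := fun n => ⨆ m, v (n + m)
  have h1 : ∀ n, v n ≤ e n := fun n => le_ciSup (hb n) 0
  have h2 : ∀ n, 0 < v n := fun n => by positivity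
  refine ⟨fun n => √(e n), fun n n' h => Real.sqrt_le_sqrt (ciSup_le fun m => ?_),
    fun n => Real.sqrt_pos.2 ((h2 n).trans_le (h1 n)), fun n => ?_, ?_⟩
  · have := le_ciSup (hb n) (n' - n + m)
    rwa [show n + (n' - n + m) = n' + m by omega] at this
  · rw [Real.sq_sqrt ((h2 n).le.trans (h1 n))]
    refine le_trans ?_ (h1 n)
    exact (le_abs_self _).trans (le_add_of_nonneg_right (by positivity))
  · rw [← Real.sqrt_zero]
    refine Tendsto.sqrt (tendsto_order.2 ⟨fun a ha => Eventually.of_forall fun n =>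
      ha.trans ((h2 n).trans_le (h1 n)), fun a ha => ?_⟩)
    obtain ⟨N, hN⟩ := eventually_atTop.1 (hv.eventually_le_const (half_pos ha))
    filter_upwards [eventually_ge_atTop N] with n hn
    exact lt_of_le_of_lt (ciSup_le fun m => hN _ (by omega)) (half_lt_self ha)

lemma kvn {D : ℝ → ℝ} (hD : Measurable D) (h0 : ∀ t, 0 ≤ D t) (h1 : ∀ t, D t ≤ 1)
    (h : Tendsto (avN D) atTop (𝓝 0)) : ∃ G : Set ℝ, MeasurableSet G ∧
      Tendsto (fun N : ℝ => (volume (G ∩ Icc (-N) N)).toReal / (2 * N)) atTop (𝓝 1) ∧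
      Tendsto D (atTop ⊓ 𝓟 G) (𝓝 0) := by
  obtain ⟨e, he1, he2, he3, he4⟩ := exists_env h
  let B : Set ℝ := {t | 0 < t ∧ e ⌈t⌉₊ < D t}
  have hB : MeasurableSet B := measurableSet_Ioi.inter
    (measurableSet_lt ((measurable_from_nat (f := e)).comp Nat.measurable_ceil) hD)
  have hb : ∀ t, |D t| ≤ 1 := fun t => by rw [abs_of_nonneg (h0 t)]; exact h1 t
  have hc : Tendsto (fun t : ℝ => e ⌈t⌉₊) atTop (𝓝 0) := he4.comp tendsto_nat_ceil_atTop
  refine ⟨Bᶜ, hB.compl, ?_, ?_⟩
  · have key : ∀ N : ℝ, 1 ≤ N → volume.real (Icc (-N) N ∩ B) ≤ 2 * N * e ⌈N⌉₊ := by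
      intro N hN
      set n := ⌈N⌉₊ with hn
      have n1 : N ≤ n := Nat.le_ceil N
      have n2 : (n : ℝ) ≤ 2 * N := by linarith [Nat.ceil_lt_add_one (show 0 ≤ N by linarith)]
      have n0 : (0 : ℝ) < n := by linarith
      have hi : IntegrableOn D (Ioc 0 n) := (ii_bdd hD hb 0 n).1
      have a1 : e n * volume.real (Icc (-N) N ∩ B) ≤ ∫ t in Icc (-N) N ∩ B, D t := by
        refine setIntegral_ge_of_const_le_real (measurableSet_Icc.inter hB)
          (ne_top_of_le_ne_top measure_Icc_lt_top.ne (measure_mono inter_subset_left))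
          (fun t ht => (he1 (Nat.ceil_mono ht.1.2)).trans ht.2.2.le)
          (hi.mono_set fun t ht => ⟨ht.2.1, ht.1.2.trans n1⟩)
      have a2 : ∫ t in Icc (-N) N ∩ B, D t ≤ ∫ t in Ioc (0 : ℝ) n, D t :=
        setIntegral_mono_set hi (ae_of_all _ h0)
          (HasSubset.Subset.eventuallyLE fun t ht => ⟨ht.2.1, ht.1.2.trans n1⟩)
      have a3 := he3 n
      rw [avN, div_le_iff₀ n0, intervalIntegral.integral_of_le n0.le] at a3
      refine le_of_mul_le_mul_left ?_ (he2 n)
      nlinarith [mul_le_mul_of_nonneg_left n2 (sq_nonneg (e n))]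
    refine tendsto_of_tendsto_of_tendsto_of_le_of_le' (g := fun N : ℝ => 1 - e ⌈N⌉₊)
      (h := fun _ => 1) (by simpa using tendsto_const_nhds.sub hc) tendsto_const_nhds ?_ ?_
    · filter_upwards [eventually_ge_atTop 1] with N hN
      have e2 := measureReal_inter_add_diff (μ := (volume : Measure ℝ)) (s := Icc (-N) N) hB
        measure_Icc_lt_top.ne
      rw [diff_eq_compl_inter, Real.volume_real_Icc_of_le (by linarith)] at e2
      rw [le_div_iff₀ (by linarith), ← Measure.real]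
      linarith [key N hN]
    · filter_upwards [eventually_ge_atTop 1] with N hN
      rw [div_le_one (by linarith), ← Measure.real]
      refine (measureReal_mono inter_subset_right measure_Icc_lt_top.ne).trans (le_of_eq ?_)
      rw [Real.volume_real_Icc_of_le (by linarith)]; ring
  · refine squeeze_zero' (Eventually.of_forall h0) ?_ (hc.mono_left inf_le_left)
    rw [eventually_inf_principal]
    filter_upwards [eventually_gt_atTop 0] with t ht ht'
    exact not_lt.1 fun h => ht' ⟨ht, h⟩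

lemma kvn_seq {D : ℕ → ℝ → ℝ} (hD : ∀ i, Measurable (D i)) (h0 : ∀ i t, 0 ≤ D i t)
    (h1 : ∀ i t, D i t ≤ 1) (h : ∀ i, Tendsto (avN (D i)) atTop (𝓝 0)) :
    ∃ G : Set ℝ, MeasurableSet G ∧
      Tendsto (fun N : ℝ => (volume (G ∩ Icc (-N) N)).toReal / (2 * N)) atTop (𝓝 1) ∧
      ∀ i, Tendsto (D i) (atTop ⊓ 𝓟 G) (𝓝 0) := by
  let E : ℝ → ℝ := fun t => ⨆ i, D i t / ((i : ℝ) + 1)
  have a1 : ∀ i t, D i t / ((i : ℝ) + 1) ≤ D i t := fun i t =>
    div_le_self (h0 i t) (by linarith [(Nat.cast_nonneg i : (0 : ℝ) ≤ i)])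
  have hb : ∀ t, BddAbove (range fun i => D i t / ((i : ℝ) + 1)) := fun t =>
    ⟨1, by rintro _ ⟨i, rfl⟩; exact (a1 i t).trans (h1 i t)⟩
  have hE : Measurable E := Measurable.iSup fun i => (hD i).div_const _
  have a2 : ∀ i t, D i t / ((i : ℝ) + 1) ≤ E t := fun i t => le_ciSup (hb t) i
  have E0 : ∀ t, 0 ≤ E t := fun t => le_trans (div_nonneg (h0 0 t) (by positivity)) (a2 0 t)
  have E1 : ∀ t, E t ≤ 1 := fun t => ciSup_le fun i => (a1 i t).trans (h1 i t)
  have ii : ∀ i (n : ℕ), IntervalIntegrable (D i) volume 0 n := fun i n =>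
    ii_bdd (hD i) (M := 1) (fun t => by rw [abs_of_nonneg (h0 i t)]; exact h1 i t) _ _
  obtain ⟨G, g1, g2, g3⟩ := kvn hE E0 E1 (by
    refine tendsto_order.2 ⟨fun a ha => Eventually.of_forall fun n => ha.trans_le
      (div_nonneg (intervalIntegral.integral_nonneg (Nat.cast_nonneg n) fun t _ => E0 t)
        (Nat.cast_nonneg n)), fun a ha => ?_⟩
    obtain ⟨k, hk⟩ := exists_nat_one_div_lt (half_pos ha)
    have ht := tendsto_finset_sum (Finset.range k) fun i _ => h i
    rw [Finset.sum_const_zero] at ht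
    filter_upwards [ht.eventually_lt_const (half_pos ha), eventually_gt_atTop 0] with n hn hn0
    have hn' : (0 : ℝ) < n := by exact_mod_cast hn0
    have i1 : IntervalIntegrable (fun t => ∑ i ∈ Finset.range k, D i t) volume 0 n := by
      have := IntervalIntegrable.sum (Finset.range k) fun i _ => ii i n
      rwa [Finset.sum_fn] at this
    have := avN_mono (f := E) (g := fun t => ∑ i ∈ Finset.range k, D i t + a / 2) n
      (ii_bdd hE (M := 1) (fun t => by rw [abs_of_nonneg (E0 t)]; exact E1 t) _ _)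
      (i1.add intervalIntegrable_const) fun t _ => ciSup_le fun i => by
        have b0 : 0 ≤ ∑ i ∈ Finset.range k, D i t := Finset.sum_nonneg fun i _ => h0 i t
        rcases lt_or_ge i k with hi | hi
        · linarith [a1 i t, Finset.single_le_sum (f := fun i => D i t) (fun i _ => h0 i t)
            (Finset.mem_range.2 hi)]
        · have : D i t / ((i : ℝ) + 1) ≤ 1 / ((k : ℝ) + 1) := by
            gcongr
            exact h1 i t
          linarith
    refine this.trans_lt ?_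
    unfold avN at hn ⊢
    rw [intervalIntegral.integral_add i1 intervalIntegrable_const,
      intervalIntegral.integral_finset_sum fun i _ => ii i n, add_div, Finset.sum_div]
    simp only [intervalIntegral.integral_const, sub_zero, smul_eq_mul]
    rw [mul_div_cancel_left₀ _ hn'.ne']
    linarith)
  refine ⟨G, g1, g2, fun i => squeeze_zero (h0 i) (g := fun t => E t * ((i : ℝ) + 1))
    (fun t => (div_le_iff₀ (by positivity)).1 (a2 i t)) (by simpa using g3.mul_const _)⟩

lemma long_avg {φ : ℝ → ℝ} (hφ : Measurable φ) {M : ℝ} (hM : ∀ t, |φ t| ≤ M) {S c : ℝ}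
    (hS : 0 < S) (h : ∀ t, 0 ≤ t → ∫ s in t..t + S, φ s ≤ c * S) {T : ℝ} (hT : 0 ≤ T) :
    ∫ s in (0 : ℝ)..T, φ s ≤ c * T + (M + |c|) * S := by
  set n := ⌊T / S⌋₊
  have h1 : n * S ≤ T := by
    have := Nat.floor_le (div_nonneg hT hS.le)
    rwa [le_div_iff₀ hS] at this
  have h2 : T < n * S + S := by
    have := Nat.lt_floor_add_one (T / S)
    rw [div_lt_iff₀ hS] at this; linarith
  have h3 := intervalIntegral.sum_integral_adjacent_intervals (f := φ)
    (μ := volume) (a := fun k : ℕ => k * S) (n := n) fun k _ => ii_bdd hφ hM _ _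
  have h4 : ∑ k ∈ Finset.range n, ∫ s in ((k : ℕ) : ℝ) * S..((k + 1 : ℕ) : ℝ) * S, φ s ≤
      ∑ k ∈ Finset.range n, c * S := Finset.sum_le_sum fun k _ => by
    have := h (k * S) (by positivity)
    rwa [show ((k + 1 : ℕ) : ℝ) * S = k * S + S by push_cast; ring]
  rw [h3] at h4
  simp only [Nat.cast_zero, zero_mul, Finset.sum_const, Finset.card_range, nsmul_eq_mul] at h4
  rw [← intervalIntegral.integral_add_adjacent_intervals (ii_bdd hφ hM 0 (n * S))
    (ii_bdd hφ hM _ T)]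
  have h5 := intervalIntegral.norm_integral_le_of_norm_le_const (a := n * S) (b := T)
    (f := φ) (C := M) fun s _ => hM _
  have hM0 : 0 ≤ M := (abs_nonneg _).trans (hM 0)
  rw [Real.norm_eq_abs, abs_of_nonneg (by linarith : 0 ≤ T - n * S)] at h5
  have h6 : c * (n * S - T) ≤ |c| * S := by
    have : |n * S - T| ≤ S := abs_le.2 ⟨by linarith, by linarith⟩
    calc _ ≤ |c * (n * S - T)| := le_abs_self _
      _ ≤ _ := by rw [abs_mul]; exact mul_le_mul_of_nonneg_left this (abs_nonneg _)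
  nlinarith [le_abs_self (∫ s in (n : ℝ) * S..T, φ s)]

end Pool.Agent.MP_d0b2d2_an.Gen
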