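import Pool.Agent.MP_d0b2d2_an.Gen.Cyl
import Pool.Agent.MP_d0b2d2_an.Gen.Dens
import Pool.Agent.MP_d0b2d2_an.Gen.Util

open MeasureTheory Set Filter Topology Metric

namespace Pool.Agent.MP_d0b2d2_an.Gen.TS

variable {X : Type} [TopologicalSpace X] [T2Space X] [CompactSpace X] [MeasurableSpace X]
  [BorelSpace X] [SecondCountableTopology X] {μ : Measure X} [IsProbabilityMeasure μ] {S : TS X μ}
  {e : ℂ} {γ : ℝ → X}

omit [T2Space X] [CompactSpace X] [BorelSpace X] [SecondCountableTopology X]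
  [IsProbabilityMeasure μ] in
theorem IsRay.shift (h : S.IsRay e γ) {t s : ℝ} (ht : 0 < t) (hs : 0 < t + s) :
    S.Ok (γ t) (s • e) ∧ S.mv (γ t) (s • e) = γ (t + s) := by
  rcases le_or_gt 0 s with h0 | h0
  · exact h t ht s h0
  · obtain ⟨h1, h2⟩ := h (t + s) hs (-s) (by linarith)
    have h3 := ok_symm h1
    rw [h2, show t + s + -s = t by ring, neg_smul, neg_neg] at h3
    exact h3

omit [T2Space X] [CompactSpace X] [BorelSpace X] [SecondCountableTopology X]
  [IsProbabilityMeasure μ] in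
theorem rig_ray_mean (hU : S.UE e) (h : S.IsRay e γ) (f : C(X, ℝ)) {η : ℝ} (hη : 0 < η) :
    ∃ L₀ : ℝ, ∀ L ≥ L₀, ∀ t : ℝ, 0 < t →
      |(∫ s in t..t + L, f (γ s)) - L * ∫ q, f q ∂μ| ≤ η * L := by
  obtain ⟨L₀, hL⟩ := hU f η hη
  refine ⟨max L₀ 0, fun L hL' t ht => ?_⟩
  have h0 : 0 ≤ L := (le_max_right _ _).trans hL'
  have h1 := hL L ((le_max_left _ _).trans hL') (γ t) (h t ht L h0).1
  have h2 : ∫ s in (0 : ℝ)..L, f (S.mv (γ t) (s • e)) = ∫ s in (0 : ℝ)..L, f (γ (t + s)) := by
    refine intervalIntegral.integral_congr fun s hs => ?_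
    rw [uIcc_of_le h0] at hs
    simp only [(h t ht s hs.1).2]
  rw [h2, intervalIntegral.integral_comp_add_left (fun s => f (γ s)), add_zero] at h1
  exact h1

/-- averages of two bounded functions that agree at large times -/
theorem rig_avN_congr {φ ψ : ℝ → ℝ} (hφ : Measurable φ) (hψ : Measurable ψ) {M : ℝ}
    (h1 : ∀ t, |φ t| ≤ M) (h2 : ∀ t, |ψ t| ≤ M) {T : ℝ} (hT : 0 ≤ T)
    (h : ∀ t, T < t → φ t = ψ t) {I : ℝ} (hI : Tendsto (avN φ) atTop (𝓝 I)) :
    Tendsto (avN ψ) atTop (𝓝 I) := by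
  have h0 : Tendsto (fun n => avN ψ n - avN φ n) atTop (𝓝 0) := by
    refine squeeze_zero_norm' ?_ (tendsto_const_div_atTop_nhds_zero_nat (2 * M * T))
    filter_upwards [tendsto_natCast_atTop_atTop.eventually_ge_atTop T] with n hn
    simp only [avN]
    rw [← sub_div, norm_div, Real.norm_natCast]
    refine div_le_div_of_nonneg_right ?_ (Nat.cast_nonneg n)
    rw [← intervalIntegral.integral_add_adjacent_intervals (ii_bdd hψ h2 0 T) (ii_bdd hψ h2 T n),
      ← intervalIntegral.integral_add_adjacent_intervals (ii_bdd hφ h1 0 T) (ii_bdd hφ h1 T n)]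
    have e1 : ∫ t in T..n, ψ t = ∫ t in T..n, φ t := by
      refine intervalIntegral.integral_congr_ae (ae_of_all _ fun t ht => ?_)
      rw [uIoc_of_le hn] at ht
      exact (h t ht.1).symm
    have a1 := intervalIntegral.norm_integral_le_of_norm_le_const (a := 0) (b := T)
      (f := φ) (C := M) fun s _ => h1 s
    have a2 := intervalIntegral.norm_integral_le_of_norm_le_const (a := 0) (b := T)
      (f := ψ) (C := M) fun s _ => h2 s
    rw [sub_zero, abs_of_nonneg hT] at a1 a2
    rw [e1, add_sub_add_right_eq_sub]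
    linarith [norm_sub_le (∫ t in (0 : ℝ)..T, ψ t) (∫ t in (0 : ℝ)..T, φ t)]
  simpa using h0.add hI

omit [T2Space X] [SecondCountableTopology X] in
theorem rig_port_cont (hU : S.UE e) (h : S.IsRay e γ) (hγ : Measurable γ) (f : C(X, ℝ)) :
    Tendsto (avN fun t => f (γ t)) atTop (𝓝 (∫ q, f q ∂μ)) := by
  have hm : Measurable fun t => f (γ t) := f.continuous.measurable.comp hγ
  have hb : ∀ t, |f (γ t)| ≤ ‖f‖ := fun t => f.norm_coe_le_norm _
  have hI : |∫ q, f q ∂μ| ≤ ‖f‖ := by
    have := norm_integral_le_of_norm_le_const (μ := μ) (f := f) (C := ‖f‖)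
      (ae_of_all _ fun q => f.norm_coe_le_norm q)
    simpa using this
  refine Metric.tendsto_nhds.2 fun ε hε => ?_
  obtain ⟨L₀, hL⟩ := rig_ray_mean hU h f (η := ε / 3) (by linarith)
  filter_upwards [tendsto_natCast_atTop_atTop.eventually_ge_atTop (L₀ + 1),
    (tendsto_const_div_atTop_nhds_zero_nat (2 * ‖f‖)).eventually_le_const
      (show 0 < ε / 3 by linarith), eventually_gt_atTop 0] with n hn h3 hn0
  have hn' : (0 : ℝ) < n := by exact_mod_cast hn0
  have h1 := hL (n - 1) (by linarith) 1 one_pos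
  rw [show (1 : ℝ) + (n - 1) = n by ring] at h1
  have a1 := intervalIntegral.norm_integral_le_of_norm_le_const (a := 0) (b := 1)
    (f := fun t => f (γ t)) (C := ‖f‖) fun s _ => hb s
  rw [sub_zero, abs_one, mul_one, Real.norm_eq_abs] at a1
  rw [div_le_iff₀ hn'] at h3
  rw [Real.dist_eq, avN,
    ← intervalIntegral.integral_add_adjacent_intervals (ii_bdd hm hb 0 1) (ii_bdd hm hb 1 n),
    div_sub' hn'.ne', abs_div, abs_of_pos hn', div_lt_iff₀ hn', abs_lt]
  have := abs_le.1 h1
  have := abs_le.1 a1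
  have := abs_le.1 hI
  have := mul_pos hε hn'
  constructor <;> nlinarith

/-- a cut-off function near a closed null set -/
theorem rig_exists_cut {O : Set X} (hO : IsOpen O) (hO' : ∀ᵐ q ∂μ, q ∈ O) {η : ℝ} (hη : 0 < η) :
    ∃ χ : C(X, ℝ), (∀ q, 0 ≤ χ q ∧ χ q ≤ 1) ∧ (∀ q ∉ O, χ q = 1) ∧ ∫ q, χ q ∂μ ≤ η := by
  have h0 : μ Oᶜ < ENNReal.ofReal η := by
    rw [show μ Oᶜ = 0 from hO']
    exact ENNReal.ofReal_pos.2 hη
  obtain ⟨U, hU1, hU2, hU3⟩ := Set.exists_isOpen_lt_of_lt Oᶜ _ h0
  obtain ⟨χ, h1, h2, h3⟩ := exists_continuous_zero_one_of_isClosed hU2.isClosed_compl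
    hO.isClosed_compl (disjoint_compl_left_iff_subset.2 hU1)
  refine ⟨χ, fun q => h3 q, fun q hq => h2 hq, ?_⟩
  have h4 : ∫ q, χ q ∂μ ≤ ∫ q, U.indicator (fun _ => (1 : ℝ)) q ∂μ := by
    refine integral_mono (integrable_bdd χ.continuous.measurable (M := 1) fun q => ?_)
      ((integrable_const _).indicator hU2.measurableSet) fun q => ?_
    · rw [abs_of_nonneg (h3 q).1]; exact (h3 q).2
    · by_cases hq : q ∈ U
      · rw [indicator_of_mem hq]; exact (h3 q).2
      · rw [indicator_of_notMem hq]; exact (h1 hq).le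
  rw [integral_indicator hU2.measurableSet, setIntegral_const, smul_eq_mul, mul_one] at h4
  exact h4.trans (ENNReal.toReal_le_of_le_ofReal hη.le hU3.le)

omit [T2Space X] [CompactSpace X] [MeasurableSpace X] [BorelSpace X]
  [SecondCountableTopology X] in
theorem rig_cont_cut {O : Set X} (hO : IsOpen O) (χ : C(X, ℝ)) (hχ : ∀ q ∉ O, χ q = 1)
    {F : X → ℝ} {M : ℝ} (hM : ∀ q, |F q| ≤ M) (hc : ContinuousOn F O) :
    Continuous fun q => (1 - χ q) * F q := by
  refine continuous_iff_continuousAt.2 fun q => ?_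
  by_cases hq : q ∈ O
  · exact (continuous_const.sub χ.continuous).continuousAt.mul
      (hc.continuousAt (hO.mem_nhds hq))
  · change Tendsto _ _ (𝓝 ((1 - χ q) * F q))
    rw [hχ q hq, sub_self, zero_mul]
    have h1 : Tendsto (fun p => |1 - χ p| * M) (𝓝 q) (𝓝 0) := by
      have : Continuous fun p => |1 - χ p| * M := by fun_prop
      simpa [hχ q hq] using this.tendsto q
    refine squeeze_zero_norm (fun p => ?_) h1
    rw [norm_mul]
    exact mul_le_mul_of_nonneg_left (hM p) (abs_nonneg _)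

/-- equidistribution of rays for almost everywhere continuous functions -/
theorem port (hU : S.UE e) (h : S.IsRay e γ) (hγ : Measurable γ) {F : X → ℝ} (hF : Measurable F)
    {M : ℝ} (hM : ∀ q, |F q| ≤ M) {O : Set X} (hO : IsOpen O) (hO' : ∀ᵐ q ∂μ, q ∈ O)
    (hc : ContinuousOn F O) : Tendsto (avN fun t => F (γ t)) atTop (𝓝 (∫ q, F q ∂μ)) := by
  have hM0 : 0 ≤ M := (abs_nonneg _).trans (hM (γ 0))
  refine Metric.tendsto_nhds.2 fun ε hε => ?_
  obtain ⟨χ, h1, h2, h3⟩ := rig_exists_cut hO hO' (η := ε / (4 * (M + 1))) (by positivity)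
  let G : C(X, ℝ) := ⟨_, rig_cont_cut hO χ h2 hM hc⟩
  have hG : ∀ q, G q = (1 - χ q) * F q := fun q => rfl
  have key : ∀ q, G q - M * χ q ≤ F q ∧ F q ≤ G q + M * χ q := fun q => by
    have a1 := abs_le.1 (hM q)
    rw [hG]
    constructor <;> nlinarith [h1 q]
  have t1 := rig_port_cont hU h hγ (G - M • χ)
  have t2 := rig_port_cont hU h hγ (G + M • χ)
  have iG : Integrable G μ := integrable_bdd G.continuous.measurable G.norm_coe_le_norm
  have iχ : Integrable χ μ := integrable_bdd χ.continuous.measurable χ.norm_coe_le_norm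
  have iF : Integrable F μ := integrable_bdd hF hM
  have e1 : ∫ q, (G - M • χ) q ∂μ = ∫ q, G q ∂μ - M * ∫ q, χ q ∂μ := by
    simp only [ContinuousMap.sub_apply, ContinuousMap.smul_apply, smul_eq_mul]
    rw [integral_sub iG (iχ.const_mul M), integral_const_mul]
  have e2 : ∫ q, (G + M • χ) q ∂μ = ∫ q, G q ∂μ + M * ∫ q, χ q ∂μ := by
    simp only [ContinuousMap.add_apply, ContinuousMap.smul_apply, smul_eq_mul]
    rw [integral_add iG (iχ.const_mul M), integral_const_mul]
  have b1 : ∫ q, (G - M • χ) q ∂μ ≤ ∫ q, F q ∂μ := integral_mono (integrable_bdd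
    (G - M • χ).continuous.measurable (G - M • χ).norm_coe_le_norm) iF fun q => (key q).1
  have b2 : ∫ q, F q ∂μ ≤ ∫ q, (G + M • χ) q ∂μ := integral_mono iF (integrable_bdd
    (G + M • χ).continuous.measurable (G + M • χ).norm_coe_le_norm) fun q => (key q).2
  have b3 : M * ∫ q, χ q ∂μ ≤ ε / 4 := by
    refine (mul_le_mul_of_nonneg_left h3 hM0).trans ?_
    rw [← mul_div_assoc, div_le_div_iff₀ (by positivity) (by positivity)]
    nlinarith
  have ii : ∀ (f : C(X, ℝ)) (n : ℕ), IntervalIntegrable (fun t => f (γ t)) volume 0 n :=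
    fun f n => ii_bdd (f.continuous.measurable.comp hγ) (fun t => f.norm_coe_le_norm _) _ _
  filter_upwards [Metric.tendsto_nhds.1 t1 (ε / 4) (by linarith),
    Metric.tendsto_nhds.1 t2 (ε / 4) (by linarith)] with n c1 c2
  have d1 := avN_mono n (ii (G - M • χ) n) (ii_bdd (hF.comp hγ) (fun t => hM _) 0 n)
    fun t _ => (key (γ t)).1
  have d2 := avN_mono n (ii_bdd (hF.comp hγ) (fun t => hM _) 0 n) (ii (G + M • χ) n)
    fun t _ => (key (γ t)).2
  rw [Real.dist_eq, abs_lt] at c1 c2 ⊢
  simp only [Function.comp_def] at d1 d2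
  constructor <;> linarith [c1.1, c2.2]

/-- time averages of functions of finitely many shifts -/
theorem port_shift (hU : S.UE e) (h : S.IsRay e γ) (hγ : Measurable γ) {n : ℕ} (s : Fin n → ℝ)
    (F : C(Fin n → X, ℝ)) : Tendsto (avN fun t => F fun i => γ (t + s i)) atTop
      (𝓝 (∫ q, F (fun i => S.mv q (s i • e)) ∂μ)) := by
  have m1 : Measurable fun q => F (fun i => S.mv q (s i • e)) :=
    F.continuous.measurable.comp (measurable_pi_lambda _ fun i =>
      S.measurable_mv.comp (measurable_id.prodMk measurable_const))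
  have hO : IsOpen (⋂ i, {q | S.Ok q (s i • e)}) := isOpen_iInter_of_finite fun i =>
    S.isOpen_ok.preimage (continuous_id.prodMk continuous_const)
  have t1 := port hU h hγ m1 (fun q => F.norm_coe_le_norm _) hO
    (by
      filter_upwards [S.ae_ok_line e] with q hq
      exact mem_iInter.2 fun i => hq _)
    (F.continuous.comp_continuousOn (continuousOn_pi.2 fun i =>
      S.continuousOn_mv.comp (f := fun q => (q, s i • e))
        (continuous_id.prodMk continuous_const).continuousOn fun q hq => mem_iInter.1 hq i))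
  refine rig_avN_congr (m1.comp hγ) (F.continuous.measurable.comp (measurable_pi_lambda _ fun i =>
    hγ.comp (measurable_id.add_const _))) (fun t => F.norm_coe_le_norm _)
    (fun t => F.norm_coe_le_norm _) (T := ∑ i, |s i|)
    (Finset.sum_nonneg fun i _ => abs_nonneg _) (fun t ht => ?_) t1
  have h0 : 0 ≤ ∑ i, |s i| := Finset.sum_nonneg fun i _ => abs_nonneg _
  simp only [Function.comp_def]
  congr 1
  funext i
  have := Finset.single_le_sum (f := fun i => |s i|) (fun i _ => abs_nonneg _) (Finset.mem_univ i)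
  exact (h.shift (by linarith) (by linarith [neg_abs_le (s i)])).2

theorem shift_approx (S : TS X μ) (f : C(X, ℝ)) (v : ℂ) {η : ℝ} (hη : 0 < η) :
    ∃ f' : C(X, ℝ), ∃ r > 0, ∀ v' : ℂ, ‖v' - v‖ < r →
      ∫ q, (f (S.mv q v') - f' q) ^ 2 ∂μ < η := by
  have hO : IsOpen {q | S.Ok q v} := S.isOpen_ok.preimage (continuous_id.prodMk continuous_const)
  obtain ⟨χ, h1, h2, h3⟩ := rig_exists_cut hO (S.ae_ok v) (η := η / (2 * (‖f‖ ^ 2 + 1)))
    (by positivity)
  have hb : ∀ q, |f q| ≤ ‖f‖ := f.norm_coe_le_norm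
  let G : C(X, ℝ) := ⟨_, rig_cont_cut hO χ h2 (F := fun q => f (S.mv q v)) (fun q => hb _)
    (f.continuous.comp_continuousOn (S.continuousOn_mv.comp (f := fun q => (q, v))
      (continuous_id.prodMk continuous_const).continuousOn fun q hq => hq))⟩
  have hG : ∀ q, G q = (1 - χ q) * f (S.mv q v) := fun q => rfl
  have mm : ∀ w, Measurable fun q => (f (S.mv q w) - G q) ^ 2 := fun w =>
    ((f.continuous.measurable.comp (S.measurable_mv.comp
      (measurable_id.prodMk measurable_const))).sub G.continuous.measurable).pow_const 2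
  have bd : ∀ w q, |(f (S.mv q w) - G q) ^ 2| ≤ (‖f‖ + ‖G‖) ^ 2 := fun w q => by
    rw [abs_pow]
    refine pow_le_pow_left₀ (abs_nonneg _) ((abs_sub _ _).trans ?_) 2
    exact add_le_add (hb _) (G.norm_coe_le_norm q)
  have ct : ContinuousAt (fun w => ∫ q, (f (S.mv q w) - G q) ^ 2 ∂μ) v := by
    refine continuousAt_of_dominated (bound := fun _ => (‖f‖ + ‖G‖) ^ 2)
      (Eventually.of_forall fun w => (mm w).aestronglyMeasurable)
      (Eventually.of_forall fun w => ae_of_all _ (bd w)) (integrable_const _) ?_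
    filter_upwards [S.ae_ok v] with q hq
    exact ((f.continuous.continuousAt.comp (continuousAt_mv_right hq)).sub
      continuousAt_const).pow 2
  have lt : ∫ q, (f (S.mv q v) - G q) ^ 2 ∂μ < η := by
    have a1 : ∫ q, (f (S.mv q v) - G q) ^ 2 ∂μ ≤ ∫ q, ‖f‖ ^ 2 * χ q ∂μ := by
      refine integral_mono (integrable_bdd (mm v) (bd v)) ((integrable_bdd
        χ.continuous.measurable χ.norm_coe_le_norm).const_mul _) fun q => ?_
      have a2 : f (S.mv q v) ^ 2 ≤ ‖f‖ ^ 2 := by
        rw [← sq_abs]; exact pow_le_pow_left₀ (abs_nonneg _) (hb _) 2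
      have a3 : χ q ^ 2 ≤ χ q := by nlinarith [h1 q]
      simp only [hG]
      calc (f (S.mv q v) - (1 - χ q) * f (S.mv q v)) ^ 2 = f (S.mv q v) ^ 2 * χ q ^ 2 := by ring
        _ ≤ _ := mul_le_mul a2 a3 (sq_nonneg _) (sq_nonneg _)
    rw [integral_const_mul] at a1
    refine a1.trans_lt ((mul_le_mul_of_nonneg_left h3 (sq_nonneg _)).trans_lt ?_)
    rw [← mul_div_assoc, div_lt_iff₀ (by positivity)]
    nlinarith [sq_nonneg ‖f‖]
  obtain ⟨r, hr, hr'⟩ := Metric.eventually_nhds_iff.1 (ct.eventually_lt_const lt)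
  exact ⟨G, r, hr, fun v' hv' => hr' (by rwa [dist_eq_norm])⟩

/-- the mean of a function over a cylinder almost parallel to an equidistributed direction -/
theorem rig_cyl_mean (hU : S.UE e) (g : C(X, ℝ)) {η : ℝ} (hη : 0 < η) :
    ∃ L₀ : ℝ, ∃ r > 0, ∀ x v c T, S.IsCyl x v c → L₀ ≤ T → ‖T • e - v‖ ≤ r →
      |wedge (T • e) v| ≤ c →
        2 * c * ∫ q, g q ∂μ - 2 * η ≤ ∫ q in S.cyl x v c, g q ∂μ := by
  obtain ⟨L₀, hL⟩ := hU g η hη
  obtain ⟨r, hr, hr'⟩ := S.equicont g hη
  refine ⟨max L₀ 1, r / 2, half_pos hr, fun x v c T H hT h1 h2 => ?_⟩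
  have hT1 : 1 ≤ T := (le_max_right _ _).trans hT
  have hT0 : 0 < T := by linarith
  have hc : 0 < c := H.2.1
  set C := S.cyl x v c with hC
  have mC : MeasurableSet C := H.isOpen.measurableSet
  have μC : μ.real C = 2 * c := H.measure
  have μ1 : μ.real C ≤ 1 := measureReal_le_one
  have hb : ∀ q, |g q| ≤ ‖g‖ := g.norm_coe_le_norm
  have mw : ∀ w, Measurable fun q => g (S.mv q w) := fun w =>
    g.continuous.measurable.comp (S.measurable_mv.comp (measurable_id.prodMk measurable_const))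
  -- invariance under the periodic flow
  have inv : ∀ s : ℝ, ∫ q in C, g q ∂μ = ∫ q in C, g (S.mv q (s • v)) ∂μ := fun s => by
    rw [← integral_indicator mC, ← integral_indicator mC]
    have hp := S.measurePreserving_mv (s • v)
    have e1 := integral_map (μ := μ) (φ := fun q => S.mv q (s • v)) hp.measurable.aemeasurable
      (f := C.indicator g) (g.continuous.measurable.indicator mC).aestronglyMeasurable
    rw [hp.map_eq] at e1
    rw [e1]
    refine integral_congr_ae ?_
    filter_upwards [S.ae_ok (s • v)] with q hq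
    by_cases hq' : q ∈ C
    · rw [indicator_of_mem hq', indicator_of_mem ((H.invariant s hq).2 hq')]
    · rw [indicator_of_notMem hq', indicator_of_notMem fun h => hq' ((H.invariant s hq).1 h)]
  have hD : Convex ℝ {y : ℂ | |wedge y v| < 2 * c} := by
    intro y hy y' hy' a b ha hb' hab
    simp only [mem_ofPred_eq, wedge_add_left, wedge_smul_left, abs_lt] at hy hy' ⊢
    rcases eq_or_lt_of_le ha with rfl | ha'
    · have : b = 1 := by linarith
      subst this
      constructor <;> linarith [hy'.1, hy'.2]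
    · constructor <;> nlinarith [mul_pos ha' (sub_pos.2 hy.1), mul_pos ha' (sub_pos.2 hy.2),
        mul_nonneg hb' (sub_pos.2 hy'.1).le, mul_nonneg hb' (sub_pos.2 hy'.2).le]
  have cmp : ∀ t, 0 ≤ t → t ≤ T → ∫ q in C, g (S.mv q (t • e)) ∂μ ≤ ∫ q in C, g q ∂μ + η := by
    intro t t0 t1
    have s0 : 0 ≤ t / T := div_nonneg t0 hT0.le
    have s1 : t / T ≤ 1 := (div_le_one hT0).2 t1
    have e0 : t • e = (t / T) • T • e := by rw [smul_smul, div_mul_cancel₀ _ hT0.ne']
    have a1 : ∫ q in C, g (S.mv q (t • e)) ∂μ ≤ ∫ q in C, (g (S.mv q ((t / T) • v)) + η) ∂μ := by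
      refine setIntegral_mono_on (integrable_bdd (mw _) fun q => hb _).integrableOn
        ((integrable_bdd (mw _) fun q => hb _).add (integrable_const _)).integrableOn mC
        fun q hq => ?_
      have b1 := (convex_ok hD (by simpa [wedge_zero_left] using hc)
        (fun y hy => (H.move hq hy).1) ((t / T) • v)
        (by rw [mem_ofPred_eq, wedge_smul_left, wedge_self, mul_zero, abs_zero]; linarith)
        (t • e) (by
          rw [mem_ofPred_eq, e0, wedge_smul_left, abs_mul, abs_of_nonneg s0]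
          nlinarith [abs_nonneg (wedge (T • e) v)])).2
      have b2 := hr' (S.mv q ((t / T) • v)) (t • e - (t / T) • v) (by
        rw [e0, ← smul_sub, norm_smul, Real.norm_of_nonneg s0]
        nlinarith [norm_nonneg (T • e - v)])
      rw [b1, Real.dist_eq] at b2
      linarith [(abs_le.1 b2).2]
    rw [integral_add (integrable_bdd (mw _) fun q => hb _).integrableOn
      (integrable_const _).integrableOn, ← inv, setIntegral_const, smul_eq_mul] at a1
    nlinarith
  have mφ : Measurable (Function.uncurry fun (q : X) (t : ℝ) => g (S.mv q (t • e))) :=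
    g.continuous.measurable.comp (S.measurable_mv.comp
      (measurable_fst.prodMk (measurable_snd.smul_const e)))
  have sw := integral_ii_swap (μ.restrict C) mφ (fun q t => hb _) hT0.le
  have up : ∫ t in (0 : ℝ)..T, ∫ q in C, g (S.mv q (t • e)) ∂μ ≤
      ∫ _ in (0 : ℝ)..T, (∫ q in C, g q ∂μ + η) := by
    refine intervalIntegral.integral_mono_on hT0.le (ii_bdd
      (mφ.stronglyMeasurable.integral_prod_left').measurable
      (M := ‖g‖ * (μ.restrict C).real univ) (fun t => ?_) _ _) intervalIntegrable_const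
      fun t ht => cmp t ht.1 ht.2
    exact norm_integral_le_of_norm_le_const (f := fun q => g (S.mv q (t • e)))
      (ae_of_all _ fun q => hb _)
  have lo : ∫ _ in C, (T * ∫ q, g q ∂μ - η * T) ∂μ ≤
      ∫ q in C, (∫ t in (0 : ℝ)..T, g (S.mv q (t • e))) ∂μ := by
    refine setIntegral_mono_on (integrable_const _).integrableOn
      (integrable_bdd (measurable_ii mφ 0 T) (M := ‖g‖ * |T - 0|) fun q => ?_).integrableOn mC
      fun q hq => ?_
    · exact intervalIntegral.norm_integral_le_of_norm_le_const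
        (f := fun t : ℝ => g (S.mv q (t • e))) fun s _ => hb _
    · have := hL T ((le_max_left _ _).trans hT) q (H.move hq (by linarith)).1
      linarith [(abs_le.1 this).1]
  rw [setIntegral_const, smul_eq_mul, μC] at lo
  rw [sw, intervalIntegral.integral_const, sub_zero, smul_eq_mul] at up
  refine le_of_mul_le_mul_left ?_ hT0
  rw [μC] at μ1
  nlinarith [mul_le_mul_of_nonneg_right μ1 (mul_pos hη hT0).le]

/-- rigidity on part of the surface along a cylinder -/
theorem rigid (hU : S.UE e) (f : C(X, ℝ)) {η : ℝ} (hη : 0 < η) {J : ℕ} (hJ : 1 ≤ J) :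
    ∃ L₀ : ℝ, ∃ r > 0, ∀ x v c T, S.IsCyl x v c → L₀ ≤ T → J * ‖T • e - v‖ ≤ r →
    J * |wedge (T • e) v| ≤ c → 2 * c * ∫ q, f q ^ 2 ∂μ - η ≤
      ∫ q, ((∑ i ∈ Finset.range J, f (S.mv q ((i * T) • e))) / J) ^ 2 ∂μ := by
  obtain ⟨L₀, r, hr, hL⟩ := rig_cyl_mean hU (f ^ 2) (η := η / 4) (by linarith)
  obtain ⟨r', hr', hf⟩ := S.equicont f (η := η / (4 * (‖f‖ + 1))) (by positivity)
  have hJ' : (1 : ℝ) ≤ J := by exact_mod_cast hJ
  have hJ0 : (0 : ℝ) < J := by linarith
  refine ⟨L₀, min r (r' / 2), lt_min hr (half_pos hr'), fun x v c T H hT h1 h2 => ?_⟩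
  have hc : 0 < c := H.2.1
  have n0 := norm_nonneg (T • e - v)
  have w0 := abs_nonneg (wedge (T • e) v)
  have a1 := hL x v c T H hT (by nlinarith [min_le_left r (r' / 2)]) (by nlinarith)
  simp only [ContinuousMap.pow_apply] at a1
  set C := S.cyl x v c with hC
  have mC : MeasurableSet C := H.isOpen.measurableSet
  have μ1 : μ.real C ≤ 1 := measureReal_le_one
  have hb : ∀ q, |f q| ≤ ‖f‖ := f.norm_coe_le_norm
  set A : X → ℝ := fun q => (∑ i ∈ Finset.range J, f (S.mv q ((i * T) • e))) / J with hA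
  have mA : Measurable A := (Finset.measurable_sum _ fun i _ => f.continuous.measurable.comp
    (S.measurable_mv.comp (measurable_id.prodMk measurable_const))).div_const _
  have av : ∀ (q : X) (a b : ℝ), (∀ i < J, |f (S.mv q (((i : ℕ) * T) • e)) - a| ≤ b) →
      |A q - a| ≤ b := fun q a b hi => by
    have e1 : A q - a = (∑ i ∈ Finset.range J, (f (S.mv q ((i * T) • e)) - a)) / J := by
      rw [Finset.sum_sub_distrib, Finset.sum_const, Finset.card_range, nsmul_eq_mul, sub_div,
        mul_div_cancel_left₀ _ hJ0.ne']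
    rw [e1, abs_div, abs_of_pos hJ0, div_le_iff₀ hJ0]
    refine (Finset.abs_sum_le_sum_abs _ _).trans ((Finset.sum_le_sum fun i hi' =>
      hi i (Finset.mem_range.1 hi')).trans (le_of_eq ?_))
    rw [Finset.sum_const, Finset.card_range, nsmul_eq_mul, mul_comm]
  have bA : ∀ q, |A q| ≤ ‖f‖ := fun q => by
    simpa using av q 0 ‖f‖ fun i _ => by simpa using hb _
  have iA : Integrable (fun q => A q ^ 2) μ := integrable_bdd (mA.pow_const 2) (M := ‖f‖ ^ 2)
    fun q => by rw [abs_pow]; exact pow_le_pow_left₀ (abs_nonneg _) (bA q) 2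
  have iF : Integrable (fun q => f q ^ 2) μ := integrable_bdd
    (f.continuous.measurable.pow_const 2) (M := ‖f‖ ^ 2)
    fun q => by rw [abs_pow]; exact pow_le_pow_left₀ (abs_nonneg _) (hb q) 2
  have a2 : ∫ q in C, (f q ^ 2 - η / 2) ∂μ ≤ ∫ q in C, A q ^ 2 ∂μ := by
    refine setIntegral_mono_on (iF.sub (integrable_const _)).integrableOn iA.integrableOn mC
      fun q hq => ?_
    have b1 := av q (f q) (η / (4 * (‖f‖ + 1))) fun i hi => by
      have i1 : (i : ℝ) ≤ J := by exact_mod_cast hi.le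
      have i0 : (0 : ℝ) ≤ i := Nat.cast_nonneg i
      have c1 := (H.move hq (y := (i : ℝ) • (T • e - v)) (by
        rw [wedge_smul_left, wedge_sub_left, wedge_self, sub_zero, abs_mul, abs_of_nonneg i0]
        nlinarith)).2 i
      have c2 : (i : ℝ) • (T • e - v) + (((i : ℤ) : ℝ)) • v = ((i : ℝ) * T) • e := by
        rw [Int.cast_natCast, smul_sub, sub_add_cancel, smul_smul]
      rw [c2] at c1
      rw [c1, ← Real.dist_eq]
      refine hf _ _ ?_
      rw [norm_smul, Real.norm_of_nonneg i0]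
      nlinarith [min_le_right r (r' / 2)]
    have b2 : |A q + f q| ≤ 2 * (‖f‖ + 1) := by linarith [abs_add_le (A q) (f q), bA q, hb q]
    have b3 : |(A q - f q) * (A q + f q)| ≤ η / 2 := by
      rw [abs_mul]
      refine (mul_le_mul b1 b2 (abs_nonneg _) (by positivity)).trans (le_of_eq ?_)
      field_simp
      ring
    nlinarith [(abs_le.1 b3).1]
  rw [integral_sub iF.integrableOn (integrable_const _).integrableOn, setIntegral_const,
    smul_eq_mul] at a2
  have a3 : ∫ q in C, A q ^ 2 ∂μ ≤ ∫ q, A q ^ 2 ∂μ :=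
    setIntegral_le_integral iA (ae_of_all _ fun q => sq_nonneg _)
  nlinarith

/-- local means along rays -/
theorem ray_mean (hU : S.UE e) (h : S.IsRay e γ) (f : C(X, ℝ)) {η : ℝ} (hη : 0 < η) :
    ∃ L₀ : ℝ, ∀ L ≥ L₀, ∀ t : ℝ, 0 < t →
      |(∫ s in t..t + L, f (γ s)) - L * ∫ q, f q ∂μ| ≤ η * L := rig_ray_mean hU h f hη

end Pool.Agent.MP_d0b2d2_an.Gen.TS
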