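import Pool.Agent.MP_d0b2d2_an.Gen.Util

open MeasureTheory Set Filter Topology Metric

namespace Pool.Agent.MP_d0b2d2_an.Gen

open Real in
/-- the character `e(x)` -/
noncomputable def specE (x : ℝ) : ℂ := Complex.exp (Complex.I * ((2 * π * x : ℝ) : ℂ))

lemma specE_add (x y : ℝ) : specE (x + y) = specE x * specE y := by
  simp only [specE, ← Complex.exp_add]
  congr 1
  push_cast
  ring

lemma specE_zero : specE 0 = 1 := by simp [specE]

lemma specE_norm (x : ℝ) : ‖specE x‖ = 1 := Complex.norm_exp_I_mul_ofReal _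

lemma specE_int (n : ℤ) : specE n = 1 := by
  have := Complex.exp_int_mul_two_pi_mul_I n
  rw [← this, specE]
  congr 1
  push_cast
  ring

lemma specE_re (x : ℝ) : (specE x).re = Real.cos (2 * Real.pi * x) := by
  rw [specE, mul_comm, Complex.exp_ofReal_mul_I_re]

lemma specE_nat_mul (j : ℕ) (x : ℝ) : specE (j * x) = specE x ^ j := by
  induction j with
  | zero => simp [specE_zero]
  | succ j ih => rw [Nat.cast_succ, add_mul, one_mul, specE_add, ih, pow_succ]

lemma specE_cont : Continuous specE := by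
  unfold specE
  fun_prop

lemma specE_sub_one {x ε : ℝ} (h : ∀ n : ℤ, ε ≤ |x - n|) : 4 * ε ≤ ‖specE x - 1‖ := by
  have h1 := h (round x)
  have h2 := abs_sub_round x
  set y := x - round x with hy
  have e : specE x = specE y := by
    have : x = y + (round x : ℤ) := by rw [hy]; ring
    conv_lhs => rw [this, specE_add, specE_int, mul_one]
  rw [e, specE, Complex.norm_exp_I_mul_ofReal_sub_one, Real.norm_eq_abs, abs_mul]
  have hpi := Real.pi_pos
  have e2 : 2 * Real.pi * y / 2 = Real.pi * y := by ring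
  have h3 : |Real.pi * y| ≤ Real.pi / 2 := by
    rw [abs_mul, abs_of_pos hpi]
    nlinarith
  have h4 := Real.mul_abs_le_abs_sin h3
  rw [abs_mul, abs_of_pos hpi] at h4
  have e3 : 2 / Real.pi * (Real.pi * |y|) = 2 * |y| := by field_simp
  rw [e3] at h4
  rw [e2, abs_two]
  linarith

/-- the Dirichlet kernel bound -/
lemma spec_dirichlet {x ε : ℝ} (hε : 0 < ε) (h : ∀ n : ℤ, ε ≤ |x - n|) (J : ℕ) :
    ‖∑ j ∈ Finset.range J, specE (j * x)‖ ≤ 1 / (2 * ε) := by
  simp_rw [specE_nat_mul]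
  have h1 := geom_sum_mul (specE x) J
  have h2 : ‖specE x ^ J - 1‖ ≤ 2 := by
    refine (norm_sub_le _ _).trans ?_
    rw [norm_pow, specE_norm]
    norm_num
  rw [← h1, norm_mul] at h2
  have h3 := specE_sub_one h
  rw [le_div_iff₀ (by positivity)]
  nlinarith [norm_nonneg (∑ i ∈ Finset.range J, specE x ^ i)]

/-- the Fourier coefficients on `[0, N]` -/
noncomputable def specC (N : ℝ) (g : ℝ → ℝ) (m : ℤ) : ℂ :=
  (1 / N : ℝ) • ∫ x in (0 : ℝ)..N, specE (-(m * x / N)) * g x

lemma spec_parseval {N : ℝ} (hN : 0 < N) {g : ℝ → ℝ} (hg : Measurable g) {M : ℝ}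
    (hM : ∀ t, |g t| ≤ M) :
    HasSum (fun m => ‖specC N g m‖ ^ 2) ((∫ x in (0 : ℝ)..N, g x ^ 2) / N) := by
  have hL : MemLp (fun x => (g x : ℂ)) 2 (volume.restrict (Ioc 0 N)) :=
    MemLp.of_bound (Complex.measurable_ofReal.comp hg).aestronglyMeasurable M
      (ae_of_all _ fun x => by simpa using hM x)
  have h := hasSum_sq_fourierCoeffOn hN hL
  convert h using 1
  · funext m
    rw [fourierCoeffOn_eq_integral, specC, sub_zero]
    congr 4
    funext x
    rw [fourier_coe_apply, specE, smul_eq_mul]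
    congr 2
    push_cast
    ring
  · simp [div_eq_inv_mul]

lemma specC_ii {g : ℝ → ℝ} (hg : Measurable g) {M : ℝ} (hM : ∀ t, |g t| ≤ M) (c N a b : ℝ) :
    IntervalIntegrable (fun x => specE (-(c * x / N)) * g x) volume a b := by
  have h := ii_bdd hg hM a b
  have h2 : IntervalIntegrable (fun x => (g x : ℂ)) volume a b := ⟨h.1.ofReal, h.2.ofReal⟩
  exact h2.continuousOn_mul (specE_cont.comp (by fun_prop)).continuousOn

lemma specC_shift {N : ℝ} (hN : 0 < N) {g : ℝ → ℝ} (hp : Function.Periodic g N) (s : ℝ) (m : ℤ) :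
    ∫ x in (0 : ℝ)..N, specE (-(m * x / N)) * g (x + s) =
      specE (m / N * s) * ∫ x in (0 : ℝ)..N, specE (-(m * x / N)) * g x := by
  have hp2 : Function.Periodic (fun x => specE (-(m * x / N)) * (g x : ℂ)) N := fun x => by
    have : -(m * (x + N) / N) = -(m * x / N) + ((-m : ℤ) : ℝ) := by
      push_cast
      field_simp
      ring
    simp only [this, specE_add, specE_int, mul_one, hp x]
  have h1 := hp2.intervalIntegral_add_eq s 0
  rw [zero_add] at h1
  rw [← h1, ← intervalIntegral.integral_const_mul]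
  have h2 := intervalIntegral.integral_comp_add_right (a := 0) (b := N)
    (fun x => specE (m / N * s) * (specE (-(m * x / N)) * (g x : ℂ))) s
  rw [zero_add, add_comm N s] at h2
  rw [← h2]
  congr 1
  funext x
  rw [← mul_assoc, ← specE_add]
  congr 2
  field_simp
  ring

/-- the multiplier of a combination of shifts -/
noncomputable def specF {κ : Type} (s : Finset κ) (a u : κ → ℝ) (ξ : ℝ) : ℝ :=
  ‖∑ j ∈ s, (a j : ℂ) * specE (ξ * u j)‖ ^ 2

lemma specF_nonneg {κ : Type} (s : Finset κ) (a u : κ → ℝ) (ξ : ℝ) : 0 ≤ specF s a u ξ :=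
  sq_nonneg _

lemma spec_comb_bd {κ : Type} (s : Finset κ) (a u : κ → ℝ) {g : ℝ → ℝ} (hM : ∀ t, |g t| ≤ 1)
    (t : ℝ) : |∑ j ∈ s, a j * g (t + u j)| ≤ ∑ j ∈ s, |a j| := by
  refine (Finset.abs_sum_le_sum_abs _ _).trans (Finset.sum_le_sum fun j _ => ?_)
  rw [abs_mul]
  exact mul_le_of_le_one_right (abs_nonneg _) (hM _)

lemma spec_comb_meas {κ : Type} (s : Finset κ) (a u : κ → ℝ) {g : ℝ → ℝ} (hg : Measurable g) :
    Measurable fun t => ∑ j ∈ s, a j * g (t + u j) :=
  Finset.measurable_sum _ fun _ _ => (hg.comp (measurable_add_const _)).const_mul _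

lemma spec_sq_bd {x A : ℝ} (h : |x| ≤ A) : |x ^ 2| ≤ A ^ 2 := by
  rw [abs_pow]
  exact pow_le_pow_left₀ (abs_nonneg _) h 2

lemma spec_comb {N : ℝ} (hN : 0 < N) {g : ℝ → ℝ} (hg : Measurable g) (hM : ∀ t, |g t| ≤ 1)
    (hp : Function.Periodic g N) {κ : Type} (s : Finset κ) (a u : κ → ℝ) :
    HasSum (fun m : ℤ => ‖specC N g m‖ ^ 2 * specF s a u (m / N))
      ((∫ x in (0 : ℝ)..N, (∑ j ∈ s, a j * g (x + u j)) ^ 2) / N) := by
  convert spec_parseval hN (spec_comb_meas s a u hg) (spec_comb_bd s a u hM) using 2 with m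
  rw [specF, ← mul_pow, ← norm_mul]
  congr 2
  simp only [specC]
  have e : ∀ x : ℝ, specE (-(m * x / N)) * ((∑ j ∈ s, a j * g (x + u j) : ℝ) : ℂ) =
      ∑ j ∈ s, (a j : ℂ) * (specE (-(m * x / N)) * g (x + u j)) := fun x => by
    push_cast
    rw [Finset.mul_sum]
    exact Finset.sum_congr rfl fun j _ => by ring
  simp_rw [e]
  rw [intervalIntegral.integral_finsetSum]
  · simp_rw [intervalIntegral.integral_const_mul, specC_shift hN hp]
    rw [smul_mul_assoc, Finset.mul_sum]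
    congr 1
    exact Finset.sum_congr rfl fun j _ => by ring
  · intro j _
    exact (specC_ii (g := fun x => g (x + u j)) (hg.comp (measurable_add_const (u j)))
      (fun t => hM _) m N 0 N).const_mul (a j : ℂ)

lemma spec_tail {N S M : ℝ} (hN : 0 < N) (hS : 0 ≤ S) {h : ℝ → ℝ} (hm : Measurable h)
    (hM : ∀ t, |h t| ≤ M) (h0 : ∀ t, 0 < t → t < N - S → h t = 0) :
    |∫ t in (0 : ℝ)..N, h t| ≤ M * S := by
  have hM0 : 0 ≤ M := (abs_nonneg _).trans (hM 0)
  rcases le_total S N with hSN | hSN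
  · rw [← intervalIntegral.integral_add_adjacent_intervals (b := N - S) (ii_bdd hm hM _ _)
      (ii_bdd hm hM _ _)]
    have e : ∫ t in (0 : ℝ)..N - S, h t = 0 := by
      rw [intervalIntegral.integral_of_le (by linarith), integral_Ioc_eq_integral_Ioo]
      exact setIntegral_eq_zero_of_forall_eq_zero fun t ht => h0 t ht.1 ht.2
    have := intervalIntegral.norm_integral_le_of_norm_le_const (a := N - S) (b := N)
      (f := h) (C := M) fun s _ => hM _
    rw [e, zero_add]
    simpa [abs_of_nonneg hS] using this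
  · have := intervalIntegral.norm_integral_le_of_norm_le_const (a := 0) (b := N)
      (f := h) (C := M) fun s _ => hM _
    rw [sub_zero, abs_of_pos hN] at this
    exact this.trans (mul_le_mul_of_nonneg_left hSN hM0)

/-- the spectral measure at scale `n` -/
lemma spec_measure {B : ℝ → ℝ} (hB : Measurable B) (hb : ∀ t, |B t| ≤ 1) {n : ℕ} (hn : 0 < n) :
    ∃ w : ℤ → ℝ, (∀ m, 0 ≤ w m) ∧ ∀ (κ : Type) (s : Finset κ) (a u : κ → ℝ) (S A : ℝ), 0 ≤ S →
      (∀ j ∈ s, 0 ≤ u j ∧ u j ≤ S) → ∑ j ∈ s, |a j| ≤ A →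
      ∃ v, HasSum (fun m : ℤ => w m * specF s a u (m / n)) v ∧
        |v - avN (fun t => (∑ j ∈ s, a j * B (t + u j)) ^ 2) n| ≤ A ^ 2 * S / n := by
  have hN : (0 : ℝ) < n := by exact_mod_cast hn
  set g : ℝ → ℝ := fun t => B (n * Int.fract (t / n)) with hg
  have hgm : Measurable g := hB.comp ((measurable_fract.comp (measurable_id.div_const _)).const_mul _)
  have hgb : ∀ t, |g t| ≤ 1 := fun t => hb _
  have hgp : Function.Periodic g n := fun t => by
    simp only [hg]
    rw [add_div, div_self hN.ne', Int.fract_add_one]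
  have hge : ∀ t : ℝ, 0 ≤ t → t < n → g t = B t := fun t h0 h1 => by
    simp only [hg]
    rw [Int.fract_eq_self.2 ⟨by positivity, (div_lt_one hN).2 h1⟩, mul_div_cancel₀ _ hN.ne']
  refine ⟨fun m => ‖specC n g m‖ ^ 2, fun m => sq_nonneg _, fun κ s a u S A hS hu hA =>
    ⟨_, spec_comb hN hgm hgb hgp s a u, ?_⟩⟩
  have b1 : ∀ t, |(∑ j ∈ s, a j * g (t + u j)) ^ 2| ≤ A ^ 2 := fun t =>
    spec_sq_bd ((spec_comb_bd s a u hgb t).trans hA)
  have b2 : ∀ t, |(∑ j ∈ s, a j * B (t + u j)) ^ 2| ≤ A ^ 2 := fun t =>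
    spec_sq_bd ((spec_comb_bd s a u hb t).trans hA)
  have m1 := (spec_comb_meas s a u hgm).pow_const 2
  have m2 := (spec_comb_meas s a u hB).pow_const 2
  rw [avN, ← sub_div, abs_div, abs_of_pos hN, ← intervalIntegral.integral_sub (ii_bdd m1 b1 _ _)
    (ii_bdd m2 b2 _ _)]
  refine div_le_div_of_nonneg_right (spec_tail hN hS (m1.sub m2) (fun t => ?_) fun t h0 h1 => ?_)
    hN.le
  · have h1 := abs_le.1 (b1 t)
    have h2 := abs_le.1 (b2 t)
    rw [abs_le]
    constructor <;>
      nlinarith [sq_nonneg (∑ j ∈ s, a j * g (t + u j)), sq_nonneg (∑ j ∈ s, a j * B (t + u j))]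
  · rw [sub_eq_zero]
    congr 1
    exact Finset.sum_congr rfl fun j hj => by
      rw [hge _ (by linarith [(hu j hj).1]) (by linarith [(hu j hj).2])]

lemma spec_avN_le {f : ℝ → ℝ} (hf : Measurable f) {M c : ℝ} (hM : ∀ t, |f t| ≤ M)
    (h : ∀ t, 0 < t → f t ≤ c) {n : ℕ} (hn : 0 < n) : avN f n ≤ c := by
  have hN : (0 : ℝ) < n := by exact_mod_cast hn
  have := intervalIntegral.integral_mono_on_of_le_Ioo (g := fun _ => c) hN.le (ii_bdd hf hM 0 n)
    intervalIntegrable_const fun t ht => h t ht.1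
  rw [avN, div_le_iff₀ hN]
  simpa [mul_comm] using this

lemma specF_avg (J : ℕ) (u : ℕ → ℝ) (ξ : ℝ) :
    specF (Finset.range J) (fun _ => 1 / J) u ξ =
      (‖∑ j ∈ Finset.range J, specE (ξ * u j)‖ / J) ^ 2 := by
  rw [specF, ← Finset.mul_sum, norm_mul]
  congr 1
  simp [div_eq_inv_mul]

lemma spec_abs_avg {J : ℕ} (hJ : 0 < J) : ∑ _j ∈ Finset.range J, |(1 / J : ℝ)| ≤ 1 := by
  have : (0 : ℝ) < J := by exact_mod_cast hJ
  rw [Finset.sum_const, Finset.card_range, abs_of_pos (by positivity), nsmul_eq_mul,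
    mul_one_div_cancel this.ne']

lemma specF_le_one {J : ℕ} (hJ : 0 < J) (u : ℕ → ℝ) (ξ : ℝ) :
    specF (Finset.range J) (fun _ => 1 / J) u ξ ≤ 1 := by
  have : (0 : ℝ) < J := by exact_mod_cast hJ
  rw [specF_avg]
  refine pow_le_one₀ (by positivity) ((div_le_one this).2 ((norm_sum_le _ _).trans ?_))
  simp [specE_norm]

lemma specF_low {Q : ℕ} (hQ : 0 < Q) {u : ℕ → ℝ} {ξ : ℝ}
    (h : ∀ j ∈ Finset.range Q, |ξ * u j| ≤ 1 / 8) :
    1 ≤ 4 * specF (Finset.range Q) (fun _ => 1 / Q) u ξ := by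
  have hQ' : (0 : ℝ) < Q := by exact_mod_cast hQ
  rw [specF_avg]
  have h1 : (Q : ℝ) / 2 ≤ ‖∑ j ∈ Finset.range Q, specE (ξ * u j)‖ := by
    refine le_trans ?_ (Complex.re_le_norm _)
    rw [Complex.re_sum]
    have : ∑ _j ∈ Finset.range Q, (1 / 2 : ℝ) ≤ ∑ j ∈ Finset.range Q, (specE (ξ * u j)).re := by
      refine Finset.sum_le_sum fun j hj => ?_
      rw [specE_re]
      refine le_trans ?_ Real.one_sub_sq_div_two_le_cos
      have h2 : |2 * Real.pi * (ξ * u j)| ≤ 1 := by
        rw [abs_mul, abs_of_pos Real.two_pi_pos]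
        nlinarith [h j hj, Real.pi_le_four, abs_nonneg (ξ * u j), Real.pi_pos]
      have := spec_sq_bd h2
      linarith [le_abs_self ((2 * Real.pi * (ξ * u j)) ^ 2)]
    simpa [div_eq_mul_inv] using this
  have h2 : 1 / 2 ≤ ‖∑ j ∈ Finset.range Q, specE (ξ * u j)‖ / Q := by
    rw [le_div_iff₀ hQ']
    linarith
  nlinarith

/-- the coefficients of a difference -/
def specD (b : Bool) : ℝ := if b then 1 else -1

/-- the shifts of a difference -/
def specS (s : ℝ) (b : Bool) : ℝ := if b then s else 0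

lemma specF_diff (s ξ : ℝ) : specF Finset.univ specD (specS s) ξ = 2 - 2 * (specE (ξ * s)).re := by
  have h := specE_norm (ξ * s)
  have h2 : ‖specE (ξ * s)‖ ^ 2 = 1 := by rw [h, one_pow]
  rw [Complex.sq_norm, Complex.normSq_apply] at h2
  simp only [specF, specD, specS, Fintype.univ_bool, Finset.mem_singleton, Bool.true_eq_false,
    not_false_eq_true, Finset.sum_insert, Finset.sum_singleton, if_true, Bool.false_eq_true,
    if_false, mul_zero, specE_zero, Complex.sq_norm, Complex.normSq_apply]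
  simp
  nlinarith

lemma specF_high {Q : ℕ} (hQ : 2 ≤ Q) {s ξ : ℝ} (hs : 0 < s) (h1 : 1 / s ≤ |ξ|)
    (h2 : |ξ| * s ≤ Q / 2) :
    1 ≤ (∑ j ∈ Finset.range Q, specF Finset.univ specD (specS (j * s / Q)) ξ) / Q := by
  have hQ' : (2 : ℝ) ≤ Q := by exact_mod_cast hQ
  have hQ0 : (0 : ℝ) < Q := by linarith
  have hx : |ξ * s / Q| = |ξ| * s / Q := by rw [abs_div, abs_mul, abs_of_pos hs, abs_of_pos hQ0]
  have hd := spec_dirichlet (x := ξ * s / Q) (ε := 1 / Q) (by positivity) (fun n => by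
    rcases eq_or_ne n 0 with rfl | hn
    · rw [Int.cast_zero, sub_zero, hx]
      exact div_le_div_of_nonneg_right ((div_le_iff₀ hs).1 h1) hQ0.le
    · have h3 : (1 : ℝ) ≤ |(n : ℝ)| := by exact_mod_cast Int.one_le_abs hn
      have h4 : |ξ| * s / Q ≤ 1 / 2 := by rw [div_le_iff₀ hQ0]; linarith
      have h5 : (1 : ℝ) / Q ≤ 1 / 2 := one_div_le_one_div_of_le two_pos hQ'
      have h6 := abs_sub_abs_le_abs_sub (n : ℝ) (ξ * s / Q)
      rw [abs_sub_comm, hx] at h6
      linarith) Q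
  have e : (1 : ℝ) / (2 * (1 / Q)) = Q / 2 := by field_simp
  rw [e] at hd
  have h3 := (Complex.re_le_norm _).trans hd
  rw [Complex.re_sum] at h3
  rw [le_div_iff₀ hQ0]
  simp_rw [specF_diff]
  rw [Finset.sum_sub_distrib, ← Finset.mul_sum]
  have e2 : ∀ j : ℕ, ξ * (j * s / Q) = j * (ξ * s / Q) := fun j => by ring
  simp_rw [e2]
  simp only [Finset.sum_const, Finset.card_range, nsmul_eq_mul]
  linarith

lemma spec_riemann {B : ℝ → ℝ} (hB : Measurable B) (hb : ∀ t, |B t| ≤ 1) {η s L t : ℝ} {Q : ℕ}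
    (hQ : 0 < Q) (hL : 0 < L) (ht : 0 < t) (hs : L / Q < s)
    (huc : ∀ t t', 0 < t → 0 < t' → |t - t'| < s → |B t - B t'| ≤ η)
    (hlm : |∫ x in t..t + L, B x| ≤ η * L) :
    |∑ j ∈ Finset.range Q, (1 / Q : ℝ) * B (t + j * L / Q)| ≤ 2 * η := by
  have hQ' : (0 : ℝ) < Q := by exact_mod_cast hQ
  have h1 := intervalIntegral.sum_integral_adjacent_intervals (μ := volume) (f := B)
    (a := fun j : ℕ => t + j * L / Q) (n := Q) fun k _ => ii_bdd hB hb _ _
  simp only [Nat.cast_zero, zero_mul, zero_div, add_zero, mul_div_cancel_left₀ _ hQ'.ne'] at h1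
  have h2 : ∀ j ∈ Finset.range Q, |L / Q * B (t + j * L / Q) -
      ∫ x in t + j * L / Q..t + (j + 1 : ℕ) * L / Q, B x| ≤ η * (L / Q) := fun j _ => by
    have e : t + (j + 1 : ℕ) * L / Q - (t + j * L / Q) = L / Q := by push_cast; ring
    have hp : 0 < L / Q := by positivity
    have hj : (0 : ℝ) ≤ j * L / Q := by positivity
    have := intervalIntegral.norm_integral_le_of_norm_le_const (a := t + j * L / Q)
      (b := t + (j + 1 : ℕ) * L / Q) (f := fun x => B (t + j * L / Q) - B x) (C := η)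
      fun x hx => by
        rw [uIoc_of_le (by linarith)] at hx
        refine huc _ _ (by linarith) (by linarith [hx.1]) ?_
        rw [abs_lt]
        constructor <;> linarith [hx.1, hx.2]
    rw [intervalIntegral.integral_sub intervalIntegrable_const (ii_bdd hB hb _ _),
      intervalIntegral.integral_const, e, abs_of_pos hp] at this
    exact this
  have h3 := (Finset.abs_sum_le_sum_abs _ _).trans (Finset.sum_le_sum h2)
  rw [Finset.sum_sub_distrib, h1] at h3
  simp only [Finset.sum_const, Finset.card_range, nsmul_eq_mul] at h3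
  have e : (Q : ℝ) * (η * (L / Q)) = η * L := by field_simp
  have e2 : ∑ j ∈ Finset.range Q, L / Q * B (t + j * L / Q) =
      L * ∑ j ∈ Finset.range Q, (1 / Q : ℝ) * B (t + j * L / Q) := by
    rw [Finset.mul_sum]
    exact Finset.sum_congr rfl fun j _ => by ring
  rw [e, e2] at h3
  have h4 := abs_sub_abs_le_abs_sub (L * ∑ j ∈ Finset.range Q, (1 / Q : ℝ) * B (t + j * L / Q))
    (∫ x in t..t + L, B x)
  rw [abs_mul, abs_of_pos hL] at h4
  refine le_of_mul_le_mul_left ?_ hL
  linarith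

open Classical in
lemma spec_point {ι : Type} {s : Finset ι} {T p : ι → ℝ} (hp : ∀ i ∈ s, 0 ≤ p i) {P η ε : ℝ}
    (hP : ∑ i ∈ s, p i ≤ P) (hη : 0 ≤ η) (hε : 0 < ε) {J : ℕ} (hJ : 0 < J)
    (hJε : (1 / (2 * ε) / J) ^ 2 ≤ η) {ξ : ℝ}
    (h : ∑ i ∈ s.filter (fun i => ∃ n : ℤ, |(|ξ|) * T i - n| < ε), p i ≤ η * P) :
    ∑ i ∈ s, p i * specF (Finset.range J) (fun _ => 1 / J) (fun j => j * T i) ξ ≤ 2 * η * P := by
  have hJ' : (0 : ℝ) < J := by exact_mod_cast hJ
  have h1 : ∀ i ∈ s, p i * specF (Finset.range J) (fun _ => 1 / J) (fun j => j * T i) ξ ≤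
      (if ∃ n : ℤ, |(|ξ|) * T i - n| < ε then p i else 0) + η * p i := fun i hi => by
    have := hp i hi
    split_ifs with hc
    · nlinarith [specF_le_one hJ (fun j => j * T i) ξ]
    · push Not at hc
      have hc' : ∀ n : ℤ, ε ≤ |ξ * T i - n| := fun n => by
        rcases abs_choice ξ with e | e
        · simpa [e] using hc n
        · have := hc (-n)
          rw [e, ← abs_neg] at this
          have e3 : -(-ξ * T i - ((-n : ℤ) : ℝ)) = ξ * T i - n := by
            push_cast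
            ring
          rwa [e3] at this
      have h2 := spec_dirichlet hε hc' J
      have e2 : ∀ j : ℕ, ξ * (j * T i) = j * (ξ * T i) := fun j => by ring
      rw [specF_avg, zero_add, mul_comm]
      simp_rw [e2]
      refine mul_le_mul_of_nonneg_right (le_trans ?_ hJε) this
      gcongr
  refine (Finset.sum_le_sum h1).trans ?_
  rw [Finset.sum_add_distrib, ← Finset.sum_filter, ← Finset.mul_sum]
  nlinarith

open Classical in
/-- the spectral lemma: averages along non-resonant progressions are small in mean square -/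
theorem spectral {B : ℝ → ℝ} (hB : Measurable B) (hb : ∀ t, |B t| ≤ 1)
    (huc : ∀ η > 0, ∃ s > 0, ∀ t t', 0 < t → 0 < t' → |t - t'| < s → |B t - B t'| ≤ η)
    (hlm : ∀ η > 0, ∃ L > 0, ∀ t, 0 < t → |∫ s in t..t + L, B s| ≤ η * L) {η : ℝ} (hη : 0 < η) :
    ∃ a b : ℝ, 0 < a ∧ ∀ ε > 0, ∃ J : ℕ, 1 ≤ J ∧ ∀ (ι : Type) (s : Finset ι) (T p : ι → ℝ),
    (∀ i ∈ s, 0 ≤ T i) → (∀ i ∈ s, 0 ≤ p i) → ∀ P : ℝ, ∑ i ∈ s, p i ≤ P →
    (∀ ξ, a ≤ ξ → ξ ≤ b →
      ∑ i ∈ s.filter (fun i => ∃ n : ℤ, |ξ * T i - n| < ε), p i ≤ η * P) →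
    ∀ᶠ n in atTop, ∑ i ∈ s, p i *
      avN (fun t => ((∑ j ∈ Finset.range J, B (t + j * T i)) / J) ^ 2) n ≤ 5 * η * P := by
  have hθ : 0 < √η / 4 := by positivity
  have hθ2 : (√η / 4) ^ 2 = η / 16 := by rw [div_pow, Real.sq_sqrt hη.le]; norm_num
  obtain ⟨s0, hs0, huc⟩ := huc _ hθ
  obtain ⟨L, hL, hlm⟩ := hlm _ hθ
  refine ⟨1 / (8 * L), 1 / s0, by positivity, fun ε hε => ?_⟩
  obtain ⟨J, hJ⟩ := exists_nat_gt (1 / (2 * ε) / √η)
  have hJ' : (0 : ℝ) < J := lt_trans (by positivity) hJ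
  have hJ0 : 0 < J := by exact_mod_cast hJ'
  have hJε : (1 / (2 * ε) / J) ^ 2 ≤ η := by
    rw [← Real.sq_sqrt hη.le]
    refine pow_le_pow_left₀ (by positivity) ?_ 2
    rw [div_lt_iff₀ (by positivity)] at hJ
    rw [div_le_iff₀ hJ']
    linarith
  refine ⟨J, hJ0, fun ι s T p hT hp P hP hres => ?_⟩
  have hP0 : 0 ≤ P := (Finset.sum_nonneg hp).trans hP
  obtain ⟨Q, hQ⟩ := exists_nat_gt (L / s0)
  have hQ' : (0 : ℝ) < Q := lt_trans (by positivity) hQ
  have hQ0 : 0 < Q := by exact_mod_cast hQ'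
  have hLQ : L / Q < s0 := by
    rw [div_lt_iff₀ hs0] at hQ
    rw [div_lt_iff₀ hQ']
    linarith
  set Tm := ∑ i ∈ s, T i with hTm
  have hTm0 : 0 ≤ Tm := Finset.sum_nonneg hT
  filter_upwards [(tendsto_const_div_atTop_nhds_zero_nat
    (J * Tm + 4 * L + 4 * s0)).eventually_le_const hη, eventually_gt_atTop 0] with n hK hn
  have hN : (0 : ℝ) < n := by exact_mod_cast hn
  obtain ⟨w, hw, hW⟩ := spec_measure hB hb hn
  -- total mass
  obtain ⟨v0, hv0, hv0'⟩ := hW Unit Finset.univ (fun _ => 1) (fun _ => 0) 0 1 le_rfl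
    (fun _ _ => ⟨le_rfl, le_rfl⟩) (by simp)
  have e0 : ∀ ξ, specF (Finset.univ : Finset Unit) (fun _ => 1) (fun _ => 0) ξ = 1 := fun ξ => by
    simp [specF, specE_zero]
  simp only [e0, mul_one] at hv0
  have b0 : v0 ≤ 1 := by
    have := spec_avN_le ((spec_comb_meas (Finset.univ : Finset Unit) (fun _ => 1) (fun _ => 0)
      hB).pow_const 2) (c := 1) (M := 1 ^ 2)
      (fun t => spec_sq_bd ((spec_comb_bd _ _ _ hb t).trans (by simp)))
      (fun t _ => by simpa using spec_sq_bd (hb t)) hn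
    simp only [mul_zero, zero_div] at hv0'
    linarith [(abs_le.1 hv0').2]
  -- low frequencies
  obtain ⟨v1, hv1, hv1'⟩ := hW ℕ (Finset.range Q) (fun _ => 1 / Q) (fun j => j * L / Q) L 1 hL.le
    (fun j hj => ⟨by positivity, by
      have : (j : ℝ) ≤ Q := by exact_mod_cast (Finset.mem_range.1 hj).le
      rw [div_le_iff₀ hQ']
      nlinarith⟩) (spec_abs_avg hQ0)
  have b1 : v1 ≤ η / 4 + L / n := by
    have := spec_avN_le ((spec_comb_meas (Finset.range Q) (fun _ => 1 / Q) (fun j => j * L / Q)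
      hB).pow_const 2) (c := η / 4) (M := 1 ^ 2)
      (fun t => spec_sq_bd ((spec_comb_bd _ _ _ hb t).trans (spec_abs_avg hQ0)))
      (fun t ht => by
        have := spec_sq_bd (spec_riemann hB hb hQ0 hL ht hLQ huc (hlm t ht))
        rw [mul_pow, hθ2] at this
        linarith [le_abs_self ((∑ j ∈ Finset.range Q, (1 / Q : ℝ) * B (t + j * L / Q)) ^ 2)]) hn
    rw [one_pow, one_mul] at hv1'
    linarith [(abs_le.1 hv1').2]
  -- high frequencies
  have b2 : ∀ u, 0 ≤ u → u < s0 → ∀ F : Finset ℤ,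
      ∑ m ∈ F, w m * specF Finset.univ specD (specS u) (m / n) ≤ η / 16 + 4 * s0 / n := by
    intro u hu0 hu1 F
    have hA : ∑ j, |specD j| ≤ 2 := by simp [specD]; norm_num
    obtain ⟨v, hv, hv'⟩ := hW Bool Finset.univ specD (specS u) s0 2 hs0.le
      (fun j _ => by cases j <;> simp [specS, hs0.le, hu0, hu1.le]) hA
    have := spec_avN_le ((spec_comb_meas Finset.univ specD (specS u) hB).pow_const 2)
      (c := η / 16) (M := 2 ^ 2) (fun t => spec_sq_bd ((spec_comb_bd _ _ _ hb t).trans hA))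
      (fun t ht => by
        have h1 := spec_sq_bd (huc (t + u) t (by linarith) ht (by
          rw [add_sub_cancel_left, abs_of_nonneg hu0]; exact hu1))
        rw [hθ2] at h1
        have e : ∑ j, specD j * B (t + specS u j) = B (t + u) - B t := by
          simp [specD, specS, sub_eq_add_neg]
        rw [e]
        exact (le_abs_self _).trans h1) hn
    have h3 := sum_le_hasSum F (fun m _ => mul_nonneg (hw m) (specF_nonneg _ _ _ _)) hv
    have e : (2 : ℝ) ^ 2 * s0 / n = 4 * s0 / n := by norm_num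
    rw [e] at hv'
    linarith [(abs_le.1 hv').2]
  -- the progressions
  have b3 : ∀ i ∈ s, ∃ v, HasSum (fun m : ℤ => w m *
      specF (Finset.range J) (fun _ => 1 / J) (fun j => j * T i) (m / n)) v ∧
      avN (fun t => ((∑ j ∈ Finset.range J, B (t + j * T i)) / J) ^ 2) n ≤ v + J * Tm / n := by
    intro i hi
    have h1 : T i ≤ Tm := Finset.single_le_sum hT hi
    obtain ⟨v, hv, hv'⟩ := hW ℕ (Finset.range J) (fun _ => 1 / J) (fun j => j * T i) (J * Tm) 1
      (by positivity) (fun j hj => ⟨mul_nonneg (Nat.cast_nonneg _) (hT i hi), by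
        have : (j : ℝ) ≤ J := by exact_mod_cast (Finset.mem_range.1 hj).le
        exact mul_le_mul this h1 (hT i hi) hJ'.le⟩) (spec_abs_avg hJ0)
    refine ⟨v, hv, ?_⟩
    have e : ∀ t, ∑ j ∈ Finset.range J, (1 / J : ℝ) * B (t + j * T i) =
        (∑ j ∈ Finset.range J, B (t + j * T i)) / J := fun t => by
      rw [← Finset.mul_sum]
      ring
    simp only [e, one_pow, one_mul] at hv'
    linarith [(abs_le.1 hv').1]
  choose! v hv hv' using b3
  have hsum : HasSum (fun m : ℤ => ∑ i ∈ s, p i * (w m *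
      specF (Finset.range J) (fun _ => 1 / J) (fun j => j * T i) (m / n)))
      (∑ i ∈ s, p i * v i) := hasSum_sum fun i hi => (hv i hi).mul_left _
  have key : ∑ i ∈ s, p i * v i ≤
      2 * η * P + 4 * P * (η / 4 + L / n) + P * (η / 16 + 4 * s0 / n) := by
    refine hasSum_le_of_sum_le hsum fun F => ?_
    obtain ⟨R, hR⟩ := exists_nat_gt (2 + 2 * s0 * ∑ m ∈ F, |(m : ℝ) / n|)
    have hF0 : 0 ≤ ∑ m ∈ F, |(m : ℝ) / n| := Finset.sum_nonneg fun _ _ => abs_nonneg _
    have hR2 : (2 : ℝ) < R := lt_of_le_of_lt (le_add_of_nonneg_right (by positivity)) hR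
    have hR0 : (0 : ℝ) < R := by linarith
    have h1 : ∀ m ∈ F, ∑ i ∈ s, p i * (w m *
        specF (Finset.range J) (fun _ => 1 / J) (fun j => j * T i) (m / n)) ≤
        2 * η * P * w m +
        4 * P * (w m * specF (Finset.range Q) (fun _ => 1 / Q) (fun j => j * L / Q) (m / n)) +
        P / R * ∑ j ∈ Finset.range R, w m * specF Finset.univ specD (specS (j * s0 / R)) (m / n) := by
      intro m hm
      set ξ : ℝ := m / n with hξ
      have e1 : ∑ i ∈ s, p i * (w m *
          specF (Finset.range J) (fun _ => 1 / J) (fun j => j * T i) ξ) = w m * ∑ i ∈ s, p i *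
          specF (Finset.range J) (fun _ => 1 / J) (fun j => j * T i) ξ := by
        rw [Finset.mul_sum]
        exact Finset.sum_congr rfl fun _ _ => by ring
      rw [e1, ← Finset.mul_sum]
      set X := ∑ i ∈ s, p i * specF (Finset.range J) (fun _ => 1 / J) (fun j => j * T i) ξ
      set Y := specF (Finset.range Q) (fun _ => 1 / Q) (fun j => j * L / Q) ξ with hY
      set Z := ∑ j ∈ Finset.range R, specF Finset.univ specD (specS (j * s0 / R)) ξ with hZ
      have hY0 : 0 ≤ Y := specF_nonneg _ _ _ _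
      have hZ0 : 0 ≤ Z / R := div_nonneg (Finset.sum_nonneg fun _ _ => specF_nonneg _ _ _ _) hR0.le
      have hX : X ≤ P := le_trans (Finset.sum_le_sum fun i hi =>
        mul_le_of_le_one_right (hp i hi) (specF_le_one hJ0 _ _)) hP
      have main : X ≤ 2 * η * P + P * (4 * Y) + P * (Z / R) := by
        have hηP : 0 ≤ η * P := by positivity
        rcases le_total |ξ| (1 / (8 * L)) with c1 | c1
        · have : 1 ≤ 4 * Y := specF_low hQ0 fun j hj => by
            have h2 : (j : ℝ) ≤ Q := by exact_mod_cast (Finset.mem_range.1 hj).le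
            have h3 : j * L / Q ≤ L := by rw [div_le_iff₀ hQ']; nlinarith
            have h4 : (0 : ℝ) ≤ j * L / Q := by positivity
            rw [abs_mul, abs_of_nonneg h4]
            rw [le_div_iff₀ (by positivity)] at c1
            nlinarith [abs_nonneg ξ]
          nlinarith [mul_nonneg hP0 hZ0]
        rcases le_total (1 / s0) |ξ| with c2 | c2
        · have : 1 ≤ Z / R := specF_high (by exact_mod_cast hR2.le) hs0 c2 (by
            have : |ξ| ≤ ∑ m ∈ F, |(m : ℝ) / n| :=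
              Finset.single_le_sum (f := fun m : ℤ => |(m : ℝ) / n|) (fun _ _ => abs_nonneg _) hm
            nlinarith)
          nlinarith [mul_nonneg hP0 hY0]
        · have : X ≤ 2 * η * P := spec_point hp hP hη.le hε hJ0 hJε (hres _ c1 c2)
          nlinarith [mul_nonneg hP0 hY0, mul_nonneg hP0 hZ0]
      exact (mul_le_mul_of_nonneg_left main (hw m)).trans_eq (by ring)
    refine (Finset.sum_le_sum h1).trans ?_
    rw [Finset.sum_add_distrib, Finset.sum_add_distrib, ← Finset.mul_sum, ← Finset.mul_sum,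
      ← Finset.mul_sum, Finset.sum_comm]
    have k0 := (sum_le_hasSum F (fun m _ => hw m) hv0).trans b0
    have k1 := (sum_le_hasSum F (fun m _ => mul_nonneg (hw m) (specF_nonneg _ _ _ _)) hv1).trans b1
    have k2 : ∑ j ∈ Finset.range R, ∑ m ∈ F,
        w m * specF Finset.univ specD (specS (j * s0 / R)) (m / n) ≤
        R * (η / 16 + 4 * s0 / n) := by
      have := Finset.sum_le_sum fun j (hj : j ∈ Finset.range R) => b2 (j * s0 / R) (by positivity)
        (by
          have : (j : ℝ) < R := by exact_mod_cast Finset.mem_range.1 hj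
          rw [div_lt_iff₀ hR0]
          nlinarith) F
      rwa [Finset.sum_const, Finset.card_range, nsmul_eq_mul] at this
    have k3 := mul_le_mul_of_nonneg_left k2 (div_nonneg hP0 hR0.le)
    have e3 : P / R * (R * (η / 16 + 4 * s0 / n)) = P * (η / 16 + 4 * s0 / n) := by field_simp
    rw [e3] at k3
    have k4 := mul_le_mul_of_nonneg_left k0 (by positivity : 0 ≤ 2 * η * P)
    have k5 := mul_le_mul_of_nonneg_left k1 (by positivity : 0 ≤ 4 * P)
    linarith
  have f1 : ∑ i ∈ s, p i * avN (fun t => ((∑ j ∈ Finset.range J, B (t + j * T i)) / J) ^ 2) n ≤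
      ∑ i ∈ s, p i * v i + P * (J * Tm / n) := by
    refine (Finset.sum_le_sum fun i hi => mul_le_mul_of_nonneg_left (hv' i hi) (hp i hi)).trans ?_
    simp_rw [mul_add]
    rw [Finset.sum_add_distrib, ← Finset.sum_mul]
    have : 0 ≤ J * Tm / n := by positivity
    nlinarith
  have f2 := mul_le_mul_of_nonneg_left hK hP0
  have e4 : P * ((J * Tm + 4 * L + 4 * s0) / n) =
      P * (J * Tm / n) + 4 * P * (L / n) + P * (4 * s0 / n) := by ring
  have hηP : 0 ≤ η * P := by positivity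
  nlinarith

end Pool.Agent.MP_d0b2d2_an.Gen
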