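import Pool.Agent.MP_d0b2d2_an.Gen.UEAux2

open MeasureTheory Set Filter Topology Metric

namespace Pool.Agent.MP_d0b2d2_an.Gen

lemma UE_symm_vert (σ : ℝ) (k : ℕ) (u : ℝ) :
    (zm σ k).symm ((u * (1 / 2 ^ k / √(1 + σ ^ 2))) • Complex.I) = u • ed σ := by
  rw [ContinuousLinearEquiv.symm_apply_eq, map_smul, zm_ed, mul_smul, Complex.real_smul
    (x := 1 / 2 ^ k / √(1 + σ ^ 2))]

lemma UE_symm_hor (σ : ℝ) (k : ℕ) (t : ℝ) : ‖(zm σ k).symm (t : ℂ)‖ = |t| * (1 / 2 ^ k) := by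
  have : (zm σ k).symm (t : ℂ) = ((t / 2 ^ k : ℝ) : ℂ) := by
    apply Complex.ext
    · rw [zm_symm_re, Complex.ofReal_re, Complex.ofReal_re, Complex.ofReal_im]; ring
    · rw [zm_symm_im, Complex.ofReal_im, Complex.ofReal_im]; ring
  rw [this, Complex.norm_real, Real.norm_eq_abs, abs_div, abs_of_pos (by positivity : (0 : ℝ) < 2 ^ k)]
  ring

lemma UE_lam (σ : ℝ) (k : ℕ) : 0 < 1 / 2 ^ k / √(1 + σ ^ 2) ∧
    1 / 2 ^ k / √(1 + σ ^ 2) ≤ (1 / 2 ^ k : ℝ) := by
  have h : 1 ≤ √(1 + σ ^ 2) := Real.one_le_sqrt.2 (by nlinarith [sq_nonneg σ])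
  exact ⟨by positivity, div_le_self (by positivity) h⟩

lemma UE_tend : Tendsto (fun k : ℕ => (1 / 2 ^ k : ℝ)) atTop (𝓝 0) := by
  simpa using tendsto_pow_atTop_nhds_zero_of_lt_one (r := (1 / 2 : ℝ)) (by norm_num) (by norm_num)

/-- shifting the integration interval -/
lemma UE_ii_shift {F : ℝ → ℝ} (hF : Measurable F) {B : ℝ} (hB : ∀ t, |F t| ≤ B) (l u : ℝ) :
    |(∫ t in (0 : ℝ)..l, F (t + u)) - ∫ t in (0 : ℝ)..l, F t| ≤ 2 * B * |u| := by
  rw [intervalIntegral.integral_comp_add_right F,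
    intervalIntegral.integral_interval_sub_interval_comm' (ii_bdd hF hB _ _) (ii_bdd hF hB _ _)
      (ii_bdd hF hB _ _)]
  have h1 := intervalIntegral.norm_integral_le_of_norm_le_const (a := l) (b := l + u)
    (f := F) (C := B) fun s _ => hB s
  have h2 := intervalIntegral.norm_integral_le_of_norm_le_const (a := 0) (b := 0 + u)
    (f := F) (C := B) fun s _ => hB s
  simp only [add_sub_cancel_left, Real.norm_eq_abs] at h1 h2
  linarith [abs_sub (∫ t in l..l + u, F t) (∫ t in (0 : ℝ)..0 + u, F t)]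

/-- smoothing along the segment -/
lemma UE_smooth {F : ℝ → ℝ} (hF : Measurable F) {B : ℝ} (hB : ∀ t, |F t| ≤ B) {φ : ℂ → ℝ} {r : ℝ}
    (hφ : Continuous φ) (h2 : ∀ y, 0 ≤ φ y) (h3 : ∀ y, r ≤ ‖y‖ → φ y = 0) (h4 : ∫ y, φ y = 1)
    {l : ℝ} (hl : 0 ≤ l) :
    |(∫ t in (0 : ℝ)..l, ∫ y, φ y * F (t + y.im)) - ∫ t in (0 : ℝ)..l, F t| ≤ 2 * B * r := by
  have B0 : 0 ≤ B := (abs_nonneg _).trans (hB 0)
  have iφ := UE_int hφ h3
  have hm : Measurable fun p : ℂ × ℝ => F (p.2 + p.1.im) := hF.comp (by fun_prop)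
  have e : ∫ t in (0 : ℝ)..l, ∫ y, φ y * F (t + y.im) =
      ∫ y, φ y * ∫ t in (0 : ℝ)..l, F (t + y.im) := by
    simp_rw [intervalIntegral.integral_of_le hl, ← integral_const_mul]
    refine (integral_integral_swap (f := fun y t => φ y * F (t + y.im)) ?_).symm
    exact (iφ.comp_fst (volume.restrict (Ioc 0 l))).mul_bdd hm.aestronglyMeasurable
      (ae_of_all _ fun p => hB _)
  have hb : ∀ u, |∫ t in (0 : ℝ)..l, F (t + u)| ≤ B * |l - 0| := fun u =>
    intervalIntegral.norm_integral_le_of_norm_le_const (f := fun t => F (t + u)) fun s _ => hB _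
  have := UE_close (ε := 2 * B * r) (B := B * |l - 0|) iφ h2 h3 h4 (measurable_ii hm 0 l)
    (fun y => hb y.im)
    (h' := fun _ => ∫ t in (0 : ℝ)..l, F t) measurable_const (fun y => by simpa using hb 0)
    fun y hy => (UE_ii_shift hF hB l y.im).trans
      (mul_le_mul_of_nonneg_left ((Complex.abs_im_le_norm y).trans hy.le) (by positivity))
  rwa [integral_mul_const, h4, one_mul, ← e] at this

namespace TS

variable {X : Type} [TopologicalSpace X] [T2Space X] [CompactSpace X] [MeasurableSpace X]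
  [BorelSpace X] [SecondCountableTopology X] {μ : Measure X} [IsProbabilityMeasure μ]

/-- mean ergodic theorem: the local averages are almost invariant under vertical moves -/
theorem vert_inv (S : TS X μ) (e : ℂ) (f : C(X, ℝ)) {η : ℝ} (hη : 0 < η) : ∃ L : ℕ, 1 ≤ L ∧
    ∀ n : ℕ, ∫ q, ((∑ i ∈ Finset.range L, f (S.mv q (((n + i : ℕ) : ℝ) • e))) / L -
      (∑ i ∈ Finset.range L, f (S.mv q ((i : ℝ) • e))) / L) ^ 2 ∂μ ≤ η :=
  UE_vert_inv S e f hη

/-- horizontal equicontinuity at late times -/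
lemma UE_hor (S : TS X μ) (σ : ℝ) (f : C(X, ℝ)) {ε : ℝ} (hε : 0 < ε) : ∀ᶠ k : ℕ in atTop,
    ∀ q (t : ℝ), |t| ≤ 1 → |f ((S.map (zm σ k) (sl_zm σ k)).mv q t) - f q| ≤ ε := by
  obtain ⟨r, hr, h⟩ := S.equicont f hε
  filter_upwards [UE_tend.eventually_lt_const hr] with k hk q t ht
  refine h q ((zm σ k).symm t) ?_
  rw [UE_symm_hor]
  exact (mul_le_of_le_one_left (by positivity) ht).trans_lt hk

/-- at a late thick time the local averages are almost constant -/
theorem local_const (S : TS X μ) (σ : ℝ) (f : C(X, ℝ)) {δ s η : ℝ} (hs : 0 < s) (hs1 : s ≤ 1)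
    (hδ : 8 * s ≤ δ) (hη : 0 < η) : ∃ φ : ℂ → ℝ, Continuous φ ∧ (∀ y, 0 ≤ φ y) ∧
    (∀ y, s / 4 ≤ ‖y‖ → φ y = 0) ∧ ∫ y, φ y = 1 ∧ ∃ k₀ : ℕ, ∀ k ≥ k₀,
    (S.map (zm σ k) (sl_zm σ k)).Thick δ → ∃ κ : ℝ, |κ| ≤ ‖f‖ ∧
    ∀ x ∈ (S.map (zm σ k) (sl_zm σ k)).XR s,
      |(∫ y, φ y * f ((S.map (zm σ k) (sl_zm σ k)).mv x y)) - κ| ≤ η := by
  have hr : 0 < s / 4 := by positivity
  obtain ⟨φ, h1, h2, h3, h4, C, C0, h5, hC⟩ := UE_tent hr
  have iφ := UE_int h1 h3
  set ε := η * (s / 4) ^ 2 / 30 with hε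
  have ε0 : 0 < ε := by positivity
  set θ := ε / (2 * (C + 1)) with hθ
  have θ0 : 0 < θ := by positivity
  have θ1 : C * (2 * θ) ≤ ε := by
    have : (C + 1) * (2 * θ) = ε := by rw [hθ]; field_simp
    nlinarith
  obtain ⟨L, hL, hV⟩ := vert_inv S (ed σ) f (pow_pos θ0 2)
  have t1 : Tendsto (fun k : ℕ => (L : ℝ) * (1 / 2 ^ k)) atTop (𝓝 0) := by
    simpa using UE_tend.const_mul (L : ℝ)
  have t2 : Tendsto (fun k : ℕ => 3 * (‖f‖ * (C * ((L : ℝ) * (1 / 2 ^ k))))) atTop (𝓝 0) := by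
    simpa using ((t1.const_mul C).const_mul ‖f‖).const_mul 3
  obtain ⟨k₀, hk⟩ := eventually_atTop.1 ((t1.eventually_le_const hr).and
    ((t2.eventually_le_const ε0).and (UE_hor S σ f ε0)))
  refine ⟨φ, h1, h2, h3, h4, k₀, fun k hk' hT => ?_⟩
  obtain ⟨k1, k2, k3⟩ := hk k hk'
  obtain ⟨l0, l1⟩ := UE_lam σ k
  set S' := S.map (zm σ k) (sl_zm σ k) with hS'
  rcases (S'.XR s).eq_empty_or_nonempty with h0 | ⟨x₀, hx₀⟩
  · exact ⟨0, by simp, by simp [h0]⟩
  refine ⟨∫ y, φ y * f (S'.mv x₀ y), UE_abs_le iφ h2 h4 fun y => f.norm_coe_le_norm _,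
    fun x hx => ?_⟩
  have hV' : ∀ n : ℕ, ∫ q, ((∑ i ∈ Finset.range L,
      f (S'.mv q ((((n + i : ℕ) : ℝ) * (1 / 2 ^ k / √(1 + σ ^ 2))) • Complex.I))) / L -
      (∑ i ∈ Finset.range L,
        f (S'.mv q (((i : ℝ) * (1 / 2 ^ k / √(1 + σ ^ 2))) • Complex.I))) / L) ^ 2 ∂μ ≤ θ ^ 2 := by
    intro n
    have e : ∀ q (u : ℝ), S'.mv q ((u * (1 / 2 ^ k / √(1 + σ ^ 2))) • Complex.I) =
        S.mv q (u • ed σ) := fun q u => congrArg (S.mv q) (UE_symm_vert σ k u)
    simp only [e]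
    exact hV n
  have m1 : (L : ℝ) * (1 / 2 ^ k / √(1 + σ ^ 2)) ≤ L * (1 / 2 ^ k) := by gcongr
  have m2 : 3 * (‖f‖ * (C * ((L : ℝ) * (1 / 2 ^ k / √(1 + σ ^ 2))))) ≤ ε :=
    le_trans (by gcongr) k2
  have := hT.osc (T := S'.XR s) hr (by linarith) (by linarith)
    (fun q hq w hw => hq w (by linarith)) (hT.stepX hs (by linarith) hr)
    (G := fun q => ∫ y, φ y * f (S'.mv q y)) (ε := 3 * ε) (by positivity)
    (fun q hq d hd _ => (UE_step hT hq (by linarith) f iφ h2 h3 h4 C0 h5 hC hL l0 (m1.trans k1) θ0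
      hV' (fun q t ht => k3 q t (by linarith)) hd).trans (by linarith)) x hx x₀ hx₀
  refine this.trans (le_of_eq ?_)
  rw [hε]
  field_simp
  ring

/-- the average along a long vertical segment -/
lemma UE_seg {S : TS X μ} {δ s η κ : ℝ} (hT : S.Thick δ) (hs : 0 < s) (hδ : 8 * s ≤ δ)
    (f : C(X, ℝ)) {φ : ℂ → ℝ} (h1 : Continuous φ) (h2 : ∀ y, 0 ≤ φ y)
    (h3 : ∀ y, s / 4 ≤ ‖y‖ → φ y = 0) (h4 : ∫ y, φ y = 1) (hκ : |κ| ≤ ‖f‖)
    (hG : ∀ x ∈ S.XR s, |(∫ y, φ y * f (S.mv x y)) - κ| ≤ η)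
    (hH : ∀ q (t : ℝ), |t| < s / 4 → |f (S.mv q t) - f q| ≤ η) {x : X} {l : ℝ} (hl : 0 ≤ l)
    (hx : S.Ok x (l • Complex.I)) :
    |(∫ t in (0 : ℝ)..l, f (S.mv x (t • Complex.I))) - l * κ| ≤
      (2 * η + 32 * ‖f‖ * s / δ) * l + 6 * ‖f‖ * s := by
  have δ0 : 0 < δ := by linarith
  have η0 : 0 ≤ η := (abs_nonneg _).trans (hH x 0 (by simpa using hs))
  have iφ := UE_int h1 h3
  have hp : Measurable fun t : ℝ => S.mv x (t • Complex.I) :=
    S.measurable_mv.comp (f := fun t : ℝ => (x, t • Complex.I)) (by fun_prop)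
  set F : ℝ → ℝ := fun t => f (S.mv x (t • Complex.I)) with hFdef
  have hF : Measurable F := f.continuous.measurable.comp hp
  have hB : ∀ q, |f q| ≤ ‖f‖ := fun y => f.norm_coe_le_norm _
  have e1 := UE_smooth hF (fun t => hB _) h1 h2 h3 h4 hl
  set G : ℝ → ℝ := fun t => ∫ y, φ y * F (t + y.im) with hGdef
  have hGm : Measurable G := by
    have : Measurable fun p : ℝ × ℂ => φ p.2 * F (p.1 + p.2.im) :=
      (h1.measurable.comp measurable_snd).mul (hF.comp (by fun_prop))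
    exact (this.stronglyMeasurable.integral_prod_right').measurable
  have hGB : ∀ t, |G t| ≤ ‖f‖ := fun t => UE_abs_le iφ h2 h4 fun y => hB _
  let A : Set ℝ := {t : ℝ | 0 ≤ t ∧ t ≤ l ∧ S.mv x (t • Complex.I) ∉ S.XR s}
  let Bad : Set ℝ := A ∪ Icc 0 (s / 4) ∪ Icc (l - s / 4) l
  have hA : MeasurableSet A := measurableSet_Ici.inter (measurableSet_Iic.inter
    (hp (S.isCompact_XR hs).measurableSet.compl))
  have hBad : MeasurableSet Bad := (hA.union measurableSet_Icc).union measurableSet_Icc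
  have vA := hT.time_bad Complex.norm_I hl hs hδ hx
  have vA' : volume A ≠ ⊤ := ne_top_of_le_ne_top ENNReal.ofReal_ne_top vA
  have vB' : volume Bad ≠ ⊤ := measure_union_ne_top (measure_union_ne_top vA'
    measure_Icc_lt_top.ne) measure_Icc_lt_top.ne
  have vB : volume.real Bad ≤ (8 * l / δ + 1) * (2 * s) + s / 4 + s / 4 := by
    have a1 : volume.real A ≤ (8 * l / δ + 1) * (2 * s) :=
      ENNReal.toReal_le_of_le_ofReal (by positivity) vA
    have a2 := measureReal_union_le (μ := (volume : Measure ℝ)) (A ∪ Icc 0 (s / 4))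
      (Icc (l - s / 4) l)
    have a3 := measureReal_union_le (μ := (volume : Measure ℝ)) A (Icc 0 (s / 4))
    rw [Real.volume_real_Icc_of_le (by linarith)] at a2 a3
    linarith
  have key : ∀ t, 0 ≤ t → t ≤ l → |G t - κ| ≤ 2 * η + Bad.indicator (fun _ => 2 * ‖f‖) t := by
    intro t t0 t1
    by_cases ht : t ∈ Bad
    · rw [indicator_of_mem ht]
      linarith [abs_sub (G t) κ, hGB t]
    rw [indicator_of_notMem ht, add_zero]
    simp only [Bad, A, mem_union, mem_setOf_eq, mem_Icc, not_or, not_and, not_le, not_not] at ht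
    obtain ⟨⟨a1, a2⟩, a3⟩ := ht
    have a1 := a1 t0 t1
    have a2 := a2 t0
    have a3 : t < l - s / 4 := by
      by_contra h
      exact absurd t1 (not_le.2 (a3 (not_lt.1 h)))
    have ok : ∀ u, 0 ≤ u → u ≤ l → S.Ok x (u • Complex.I) := fun u u0 u1 =>
      ((S.split x Complex.I u (l - u) u0 (by linarith)).1 (by rwa [add_sub_cancel])).1
    have b1 := UE_close (ε := η) iφ h2 h3 h4 (UE_meas S f (S.mv x (t • Complex.I))) (fun y => hB _)
      (hF.comp (f := fun y : ℂ => t + y.im) (by fun_prop)) (fun y => hB _) fun y hy => by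
        have d1 : |y.re| < s / 4 := (Complex.abs_re_le_norm y).trans_lt hy
        have d2 := abs_lt.1 ((Complex.abs_im_le_norm y).trans_lt hy)
        have d3 : ‖y.im • Complex.I‖ = |y.im| := by
          rw [norm_smul, Complex.norm_I, mul_one, Real.norm_eq_abs]
        have d4 : y.im • Complex.I + y.re = y := by apply Complex.ext <;> simp
        have := hH (S.mv (S.mv x (t • Complex.I)) (y.im • Complex.I)) y.re d1
        rw [UE_mv_mv a1 (by rw [d3, abs_lt]; constructor <;> linarith) (by rw [d4]; linarith),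
          d4] at this
        have d5 := (line_ok (ok t t0 t1) (ok (t + y.im) (by linarith) (by linarith))).2
        rw [add_sub_cancel_left] at d5
        rwa [d5] at this
    have b2 := hG _ a1
    simp only [Function.comp_def] at b1
    rw [abs_le] at *
    constructor <;> linarith [b1.1, b1.2, b2.1, b2.2]
  have i1 : IntegrableOn (Bad.indicator fun _ => 2 * ‖f‖) univ :=
    integrableOn_univ.2 ((integrable_indicator_iff hBad).2 (integrableOn_const vB'))
  have i2 : IntervalIntegrable (Bad.indicator fun _ => 2 * ‖f‖) volume 0 l :=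
    (integrableOn_univ.1 i1).intervalIntegrable
  have e2 := intervalIntegral.norm_integral_le_of_norm_le (f := fun t => G t - κ) hl
    (g := fun t => 2 * η + Bad.indicator (fun _ => 2 * ‖f‖) t)
    (ae_of_all _ fun t ht => key t ht.1.le ht.2) (intervalIntegrable_const.add i2)
  have e3 : ∫ t in (0 : ℝ)..l, Bad.indicator (fun _ => 2 * ‖f‖) t ≤ volume.real Bad * (2 * ‖f‖) := by
    rw [intervalIntegral.integral_of_le hl]
    refine (setIntegral_le_integral (integrableOn_univ.1 i1)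
      (ae_of_all _ fun t => indicator_nonneg (fun _ _ => by positivity) _)).trans (le_of_eq ?_)
    rw [integral_indicator hBad, setIntegral_const, smul_eq_mul]
  rw [intervalIntegral.integral_sub (ii_bdd hGm hGB _ _) intervalIntegrable_const,
    intervalIntegral.integral_add intervalIntegrable_const i2, Real.norm_eq_abs] at e2
  simp only [intervalIntegral.integral_const, sub_zero, smul_eq_mul] at e2
  have e4 := mul_le_mul_of_nonneg_right vB (by positivity : 0 ≤ 2 * ‖f‖)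
  have e5 : ((8 * l / δ + 1) * (2 * s) + s / 4 + s / 4) * (2 * ‖f‖) =
      32 * ‖f‖ * s / δ * l + 5 * ‖f‖ * s := by ring
  have e6 : 0 ≤ ‖f‖ * s := by positivity
  rw [abs_le] at *
  constructor <;> linarith [e1.1, e1.2, e2.1, e2.2]

/-- Masur's criterion, uniform version -/
theorem ue_of_thick (S : TS X μ) (σ : ℝ) {δ : ℝ} (hδ : 0 < δ)
    (h : ∀ K, ∃ k ≥ K, (S.map (zm σ k) (sl_zm σ k)).Thick δ) : S.UE (ed σ) := by
  intro f η hη
  have hB : ∀ q, |f q| ≤ ‖f‖ := fun y => f.norm_coe_le_norm _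
  obtain ⟨s, hs, hs1, hs2, hs3⟩ : ∃ s : ℝ, 0 < s ∧ s ≤ 1 ∧ 8 * s ≤ δ ∧
      32 * ‖f‖ * s / δ ≤ η / 8 := by
    refine ⟨min 1 (min (δ / 8) (η * δ / (256 * (‖f‖ + 1)))), by positivity, min_le_left _ _, ?_, ?_⟩
    · linarith [(min_le_right 1 _).trans (min_le_left (δ / 8) (η * δ / (256 * (‖f‖ + 1))))]
    · have := (min_le_right 1 _).trans (min_le_right (δ / 8) (η * δ / (256 * (‖f‖ + 1))))
      have h0 : 0 < min 1 (min (δ / 8) (η * δ / (256 * (‖f‖ + 1)))) := by positivity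
      rw [le_div_iff₀ (by positivity)] at this
      rw [div_le_iff₀ hδ]
      nlinarith
  obtain ⟨φ, h1, h2, h3, h4, k₀, hk⟩ := local_const S σ f hs hs1 hs2 (by positivity : 0 < η / 8)
  obtain ⟨k₁, hk₁⟩ := eventually_atTop.1 (UE_hor S σ f (by positivity : 0 < η / 8))
  obtain ⟨k, k1, hT⟩ := h (max k₀ k₁)
  obtain ⟨κ, hκ, hG⟩ := hk k (le_of_max_le_left k1) hT
  obtain ⟨l0, -⟩ := UE_lam σ k
  have e := UE_symm_vert σ k
  set l := 1 / 2 ^ k / √(1 + σ ^ 2) with hl
  set L₀ := (48 * ‖f‖ * s / η + 1) / l with hL₀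
  have L0 : 0 < L₀ := by positivity
  have main : ∀ L, L₀ ≤ L → ∀ x, S.Ok x (L • ed σ) →
      |(∫ t in (0 : ℝ)..L, f (S.mv x (t • ed σ))) - L * κ| ≤ η / 2 * L := by
    intro L hL x hx
    have L1 : 0 < L := L0.trans_le hL
    have := UE_seg hT hs hs2 f h1 h2 h3 h4 hκ hG
      (fun q t ht => hk₁ k (le_of_max_le_right k1) q t (by linarith)) (x := x) (l := L * l)
      (by positivity) (by change S.Ok x ((zm σ k).symm _); rwa [e])
    have e2 := intervalIntegral.smul_integral_comp_mul_right (a := 0) (b := L)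
      (fun t : ℝ => f ((S.map (zm σ k) (sl_zm σ k)).mv x (t • Complex.I))) l
    have e3 : ∀ u : ℝ, (S.map (zm σ k) (sl_zm σ k)).mv x ((u * l) • Complex.I) =
        S.mv x (u • ed σ) := fun u => congrArg (S.mv x) (e u)
    simp only [e3, zero_mul, smul_eq_mul] at e2
    rw [← e2] at this
    rw [hL₀, div_le_iff₀ l0] at hL
    have a1 : 6 * ‖f‖ * s ≤ η / 8 * (L * l) := by
      have : 48 * ‖f‖ * s / η ≤ L * l := by linarith
      rw [div_le_iff₀ hη] at this
      linarith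
    have a2 := mul_le_mul_of_nonneg_right hs3 (by positivity : 0 ≤ L * l)
    refine le_of_mul_le_mul_left ?_ l0
    rw [← abs_of_pos l0, ← abs_mul, abs_of_pos l0, mul_sub, show l * (L * κ) = L * l * κ by ring]
    linarith
  have hm : Measurable (Function.uncurry fun (q : X) (t : ℝ) => f (S.mv q (t • ed σ))) :=
    f.continuous.measurable.comp
      (S.measurable_mv.comp (f := fun p : X × ℝ => (p.1, p.2 • ed σ)) (by fun_prop))
  have sw := integral_ii_swap μ hm (fun q t => hB _) L0.le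
  have e4 : ∀ t : ℝ, ∫ q, f (S.mv q (t • ed σ)) ∂μ = ∫ q, f q ∂μ := fun t => by
    have hp := S.measurePreserving_mv (t • ed σ)
    rw [← integral_map (f := f) hp.measurable.aemeasurable f.continuous.aestronglyMeasurable,
      hp.map_eq]
  simp only [e4, intervalIntegral.integral_const, sub_zero, smul_eq_mul] at sw
  have i1 : Integrable (fun q => ∫ t in (0 : ℝ)..L₀, f (S.mv q (t • ed σ))) μ :=
    integrable_bdd (measurable_ii hm 0 L₀) (M := ‖f‖ * |L₀ - 0|) fun q =>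
      intervalIntegral.norm_integral_le_of_norm_le_const (f := fun t => f (S.mv q (t • ed σ)))
        fun s _ => hB _
  have e5 := norm_integral_le_of_norm_le_const (μ := μ) (C := η / 2 * L₀)
    (f := fun q => (∫ t in (0 : ℝ)..L₀, f (S.mv q (t • ed σ))) - L₀ * κ)
    (by filter_upwards [S.ae_ok (L₀ • ed σ)] with q hq using main L₀ le_rfl q hq)
  rw [integral_sub i1 (integrable_const _), ← sw] at e5
  simp only [integral_const, probReal_univ, smul_eq_mul, one_mul, mul_one, Real.norm_eq_abs] at e5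
  rw [← mul_sub, abs_mul, abs_of_pos L0, mul_comm] at e5
  have e6 := le_of_mul_le_mul_right e5 L0
  refine ⟨L₀, fun L hL x hx => ?_⟩
  have e7 := main L hL x hx
  have e8 := mul_le_mul_of_nonneg_left e6 (L0.trans_le hL).le
  rw [← abs_of_pos (L0.trans_le hL), ← abs_mul, abs_of_pos (L0.trans_le hL), mul_sub] at e8
  rw [abs_le] at *
  constructor <;> linarith [e7.1, e7.2, e8.1, e8.2]

end TS

end Pool.Agent.MP_d0b2d2_an.Gen
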