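import Pool.Agent.MP_d0b2d2_an.Gen.RData
import Pool.Agent.MP_d0b2d2_an.Gen.Res
import Pool.Agent.MP_d0b2d2_an.Gen.CylFam
import Pool.Agent.MP_d0b2d2_an.Gen.UE
import Pool.Agent.MP_d0b2d2_an.Gen.Rig
import Pool.Agent.MP_d0b2d2_an.Gen.Spec
import Pool.Agent.MP_d0b2d2_an.Gen.Orth

open MeasureTheory Set Filter Topology Metric

namespace Pool.Agent.MP_d0b2d2_an.Gen.TS

variable {X : Type} [TopologicalSpace X] [T2Space X] [CompactSpace X] [MeasurableSpace X]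
  [BorelSpace X] [SecondCountableTopology X] {μ : Measure X} [IsProbabilityMeasure μ]

lemma sector_tendsto (C : ℝ) {a : ℝ} (ha : 0 < a) :
    Tendsto (fun n : ℕ => C * (1 / ((n : ℝ) + 1)) ^ a) atTop (𝓝 0) := by
  have := (tendsto_one_div_add_atTop_nhds_zero_nat (𝕜 := ℝ)).rpow_const (Or.inr ha.le)
  rw [Real.zero_rpow ha.ne'] at this
  simpa using this.const_mul C

theorem ae_ue (S : TS X μ) : ∀ᵐ σ ∂(volume.restrict (Ioo (0 : ℝ) 1)), S.UE (ed σ) := by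
  obtain ⟨C, a, ha, h⟩ := S.nondiv
  filter_upwards [ae_frequently (P := fun n k σ =>
    (S.map (zm σ k) (sl_zm σ k)).Thick (1 / ((n : ℝ) + 1))) (sector_tendsto C ha)
    fun n k => h k _ (by positivity)] with σ ⟨n, hn⟩
  refine S.ue_of_thick σ (δ := 1 / ((n : ℝ) + 1) / 2) (by positivity) fun K => ?_
  obtain ⟨k, hk, h1⟩ := hn K
  refine ⟨k, hk, (map_thick _ _ _).2 fun x y hy => ?_⟩
  have h2 := (map_thick _ _ _).1 h1 x y hy
  have h3 := norm_zm_shear (σ := σ) (σ' := tr k σ) (k := k)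
    (abs_le.2 ⟨by linarith [lt_tr_add k σ], by
      linarith [tr_le k σ, show (0 : ℝ) < 1 / 4 ^ k by positivity]⟩) y
  linarith

lemma sector_swap {Θ : Type} [MeasurableSpace Θ] (ν : Measure Θ) [IsFiniteMeasure ν]
    {φ : Θ → ℝ → ℝ} (hφ : Measurable (Function.uncurry φ)) {M : ℝ} (hM : ∀ θ t, |φ θ t| ≤ M)
    {a b : ℝ} (hab : a ≤ b) :
    ∫ t in a..b, ∫ θ, φ θ t ∂ν = ∫ θ, (∫ t in a..b, φ θ t) ∂ν := by
  simp_rw [intervalIntegral.integral_of_le hab]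
  exact (integral_integral_swap (integrable_bdd hφ fun a => hM _ _)).symm

variable {γ : ℝ → ℝ → X}

omit [SecondCountableTopology X] [IsProbabilityMeasure μ] in
lemma sector_huc (S : TS X μ) (hγ : Measurable (Function.uncurry γ))
    (hr : ∀ᵐ σ ∂(volume.restrict (Ioo (0 : ℝ) 1)), S.IsRay (ed σ) (γ σ)) (f : C(X, ℝ))
    {ρ : ℝ → ℝ} (hρ : Measurable ρ) {R : ℝ} (hR : ∀ σ, |ρ σ| ≤ R) {η : ℝ} (hη : 0 < η) :
    ∃ s > 0, ∀ t t', 0 < t → 0 < t' → |t - t'| < s →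
      |(∫ σ in Ioo (0 : ℝ) 1, ρ σ * f (γ σ t)) - ∫ σ in Ioo (0 : ℝ) 1, ρ σ * f (γ σ t')| ≤ η := by
  have R0 : 0 ≤ R := (abs_nonneg _).trans (hR 0)
  obtain ⟨r, hr0, h⟩ := S.equicont f (η := η / (R + 1)) (by positivity)
  refine ⟨r, hr0, fun t t' a1 a2 a3 => ?_⟩
  have hi : ∀ t, Integrable (fun σ => ρ σ * f (γ σ t)) (volume.restrict (Ioo (0 : ℝ) 1)) :=
    fun t => integrable_bdd (hρ.mul (f.continuous.measurable.comp hγ.of_uncurry_right))
      (M := R * ‖f‖) fun σ => by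
        rw [abs_mul]
        exact mul_le_mul (hR σ) (f.norm_coe_le_norm _) (abs_nonneg _) R0
  rw [← integral_sub (hi t) (hi t')]
  suffices h : ∀ᵐ σ ∂(volume.restrict (Ioo (0 : ℝ) 1)),
      ‖ρ σ * f (γ σ t) - ρ σ * f (γ σ t')‖ ≤ η by
    simpa using norm_integral_le_of_norm_le_const h
  filter_upwards [hr] with σ hσ
  have h1 := h (γ σ t') ((t - t') • ed σ) (by rwa [norm_smul, norm_ed, mul_one])
  rw [(hσ.shift a2 (by linarith)).2, add_sub_cancel, Real.dist_eq, le_div_iff₀ (by positivity)]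
    at h1
  rw [← mul_sub, norm_mul, Real.norm_eq_abs, Real.norm_eq_abs]
  nlinarith [hR σ, abs_nonneg (f (γ σ t) - f (γ σ t'))]

lemma sector_hlm (S : TS X μ) (hγ : Measurable (Function.uncurry γ))
    (hr : ∀ᵐ σ ∂(volume.restrict (Ioo (0 : ℝ) 1)), S.IsRay (ed σ) (γ σ)) (f : C(X, ℝ))
    (hf : ∫ q, f q ∂μ = 0)
    {ρ : ℝ → ℝ} (hρ : Measurable ρ) {R : ℝ} (hR : ∀ σ, |ρ σ| ≤ R) {η : ℝ} (hη : 0 < η) :
    ∃ L > 0, ∀ t, 0 < t → |∫ s in t..t + L, ∫ σ in Ioo (0 : ℝ) 1, ρ σ * f (γ σ s)| ≤ η * L := by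
  by_contra hc
  push Not at hc
  choose t ht ht' using fun n : ℕ => hc ((n : ℝ) + 1) (by positivity)
  have hm : Measurable (Function.uncurry fun σ s => ρ σ * f (γ σ s)) :=
    (hρ.comp measurable_fst).mul (f.continuous.measurable.comp hγ)
  have hb : ∀ σ s, |ρ σ * f (γ σ s)| ≤ R * ‖f‖ := fun σ s => by
    rw [abs_mul]
    exact mul_le_mul (hR σ) (f.norm_coe_le_norm _) (abs_nonneg _) ((abs_nonneg _).trans (hR σ))
  have lim := tendsto_integral_of_dominated_convergence (μ := volume.restrict (Ioo (0 : ℝ) 1))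
    (F := fun (n : ℕ) σ => (∫ s in t n..t n + (n + 1), ρ σ * f (γ σ s)) / (n + 1))
    (f := fun _ => 0) (fun _ => R * ‖f‖)
    (fun n => ((measurable_ii hm _ _).div_const _).aestronglyMeasurable) (integrable_const _)
    (fun n => ae_of_all _ fun σ => by
      have := intervalIntegral.norm_integral_le_of_norm_le_const (a := t n) (b := t n + (n + 1))
        (f := fun s => ρ σ * f (γ σ s)) (C := R * ‖f‖) fun s _ => hb σ s
      have n0 : (0 : ℝ) < n + 1 := by positivity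
      rw [add_sub_cancel_left, abs_of_pos n0] at this
      rwa [norm_div, Real.norm_of_nonneg n0.le, div_le_iff₀ n0])
    (by
      filter_upwards [hr, S.ae_ue] with σ h1 h2
      simp_rw [intervalIntegral.integral_const_mul, mul_div_assoc]
      rw [← mul_zero (ρ σ)]
      refine Tendsto.const_mul _ (Metric.tendsto_nhds.2 fun ε hε => ?_)
      obtain ⟨L₀, hL⟩ := ray_mean h2 h1 f (half_pos hε)
      filter_upwards [tendsto_natCast_atTop_atTop.eventually_ge_atTop L₀] with n hn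
      have n0 : (0 : ℝ) < n + 1 := by positivity
      have := hL (n + 1) (by linarith) (t n) (ht n)
      rw [hf, mul_zero, sub_zero] at this
      rw [Real.dist_eq, sub_zero, abs_div, abs_of_pos n0, div_lt_iff₀ n0]
      nlinarith)
  rw [integral_zero] at lim
  obtain ⟨n, hn⟩ := (Metric.tendsto_nhds.1 lim η hη).exists
  have n0 : (0 : ℝ) < n + 1 := by positivity
  have := ht' n
  rw [sector_swap _ hm hb (by linarith)] at this
  rw [Real.dist_eq, sub_zero, integral_div, abs_div, abs_of_pos n0, div_lt_iff₀ n0] at hn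
  exact lt_asymm hn this

lemma sector_h1 (S : TS X μ) (hγ : Measurable (Function.uncurry γ))
    (hr : ∀ᵐ σ ∂(volume.restrict (Ioo (0 : ℝ) 1)), S.IsRay (ed σ) (γ σ)) (f : C(X, ℝ))
    (s σ₀ η : ℝ) (hη : 0 < η) : ∃ f' : C(X, ℝ), ∃ r > 0,
      ∀ᵐ σ ∂(volume.restrict (Ioo (0 : ℝ) 1)), |σ - σ₀| < r →
        ∀ᶠ n in atTop, avN (fun t => (f (γ σ (t + s)) - f' (γ σ t)) ^ 2) n ≤ η := by
  obtain ⟨f', r, hr0, h⟩ := S.shift_approx f (s • ed σ₀) hη
  refine ⟨f', r / (|s| + 1), by positivity, ?_⟩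
  filter_upwards [hr, S.ae_ue] with σ h1 h2 h3
  have h4 := port_shift h2 h1 hγ.of_uncurry_left ![s, 0]
    ⟨fun x => (f (x 0) - f' (x 1)) ^ 2, by fun_prop⟩
  simp only [ContinuousMap.coe_mk, Matrix.cons_val_zero, Matrix.cons_val_one, add_zero, zero_smul,
    S.mv_zero] at h4
  refine h4.eventually_le_const (h _ ?_)
  rw [← smul_sub, norm_smul, Real.norm_eq_abs]
  rw [lt_div_iff₀ (by positivity)] at h3
  nlinarith [norm_ed_sub σ σ₀, abs_nonneg s, abs_nonneg (σ - σ₀), norm_nonneg (ed σ - ed σ₀)]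

lemma sector_rig {S : TS X μ} {e : ℂ} {γ : ℝ → X} (hU : S.UE e) (h : S.IsRay e γ)
    (hγ : Measurable γ) (f : C(X, ℝ)) {η C : ℝ} (hη : 0 < η) (hC : 0 < C) {J : ℕ} (hJ : 1 ≤ J) :
    ∀ᶠ k : ℕ in atTop, ∀ x v c T, S.IsCyl x v c → 2 ^ k / C ≤ T → ‖T • e - v‖ ≤ C / 2 ^ k →
      J * |wedge (T • e) v| ≤ c → ∀ᶠ n in atTop, 2 * c * ∫ q, f q ^ 2 ∂μ - η ≤
        avN (fun t => ((∑ i ∈ Finset.range J, f (γ (t + i * T))) / J) ^ 2) n := by
  obtain ⟨L₀, r, hr, h1⟩ := rigid hU f (half_pos hη) hJ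
  have t2 : Tendsto (fun k : ℕ => (2 : ℝ) ^ k) atTop atTop :=
    tendsto_pow_atTop_atTop_of_one_lt one_lt_two
  filter_upwards [t2.eventually_ge_atTop (L₀ * C), t2.eventually_ge_atTop (J * C / r)]
    with k k1 k2 x v c T hc hT hv hw
  have h2 := h1 x v c T hc (le_trans ((le_div_iff₀ hC).2 k1) hT) (by
    refine (mul_le_mul_of_nonneg_left hv (Nat.cast_nonneg J)).trans ?_
    rw [div_le_iff₀ hr] at k2
    rw [← mul_div_assoc, div_le_iff₀ (by positivity)]; linarith) hw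
  have h4 := port_shift hU h hγ (fun i : Fin J => ((i : ℕ) : ℝ) * T)
    ⟨fun x => ((∑ i, f (x i)) / J) ^ 2, by fun_prop⟩
  simp only [ContinuousMap.coe_mk] at h4
  simp_rw [Finset.sum_range]
  refine h4.eventually_const_le (lt_of_lt_of_le (by linarith) (h2.trans_eq ?_))
  simp_rw [Finset.sum_range]

open Classical in
lemma sector_h2 (S : TS X μ) (hγ : Measurable (Function.uncurry γ))
    (hr : ∀ᵐ σ ∂(volume.restrict (Ioo (0 : ℝ) 1)), S.IsRay (ed σ) (γ σ))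
    {B : ℝ → ℝ} (hB : Measurable B) (hb : ∀ t, |B t| ≤ 1)
    (huc : ∀ η > 0, ∃ s > 0, ∀ t t', 0 < t → 0 < t' → |t - t'| < s → |B t - B t'| ≤ η)
    (hlm : ∀ η > 0, ∃ L > 0, ∀ t, 0 < t → |∫ s in t..t + L, B s| ≤ η * L) :
    ∀ η₁ > (0 : ℝ), ∃ c > (0 : ℝ), ∀ η > (0 : ℝ), ∃ (p : ℝ) (J : ℕ) (T l : ℕ → ℕ → ℝ)
      (th : ℕ → ℝ → Prop), 0 < p ∧ 1 ≤ J ∧ (∀ k, dens k (fun σ => ¬ th k σ) ≤ η₁) ∧
      (∀ k j : ℕ, th k (j / 4 ^ k) → (j : ℝ) / 4 ^ k ≤ l k j ∧ l k j + p / 4 ^ k ≤ (j + 1) / 4 ^ k) ∧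
      (∀ᵐ σ ∂(volume.restrict (Ioo (0 : ℝ) 1)), ∀ (f : C(X, ℝ)) (η' : ℝ), 0 < η' →
        ∀ᶠ k in atTop, ∀ j : ℕ, th k (j / 4 ^ k) → l k j ≤ σ → σ ≤ l k j + p / 4 ^ k →
        ∀ᶠ n in atTop, c * ∫ q, f q ^ 2 ∂μ - η' ≤
          avN (fun t => ((∑ i ∈ Finset.range J, f (γ σ (t + i * T k j))) / J) ^ 2) n) ∧
      ∀ K₁ : ℕ, ∃ s : Finset ℕ, s.Nonempty ∧ (∀ k ∈ s, K₁ ≤ k) ∧ ∀ᶠ n in atTop,
        ∑ k ∈ s, ∑ j ∈ (Finset.range (4 ^ k)).filter (fun j : ℕ => th k (j / 4 ^ k)), 1 / 4 ^ k *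
          avN (fun t => ((∑ i ∈ Finset.range J, B (t + i * T k j)) / J) ^ 2) n ≤ η * s.card := by
  intro η₁ hη₁
  obtain ⟨C₁, a, ha, hnd⟩ := S.nondiv
  obtain ⟨m, hm⟩ := ((sector_tendsto C₁ ha).eventually_le_const hη₁).exists
  have δ0 : 0 < 1 / ((m : ℝ) + 1) := by positivity
  generalize 1 / ((m : ℝ) + 1) = δ at hm δ0
  obtain ⟨c, hc, C, hC, hw⟩ := S.cyl_window δ0
  obtain ⟨r, D, -, hD⟩ := S.exists_resData
  obtain ⟨th, hth⟩ : ∃ th : ℕ → ℝ → Prop, ∀ k σ,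
    th k σ ↔ σ ≤ 1 ∧ (S.map (zm σ k) (sl_zm σ k)).Thick δ := ⟨_, fun _ _ => Iff.rfl⟩
  obtain ⟨x₀, -⟩ := S.ne
  have ex : ∀ k j : ℕ, ∃ (x : X) (v : ℂ) (l : ℝ), th k (j / 4 ^ k) → S.IsCyl x v c ∧
      δ ≤ ‖zm (j / 4 ^ k) k v‖ ∧ ‖zm (j / 4 ^ k) k v‖ ≤ C ∧ (j : ℝ) / 4 ^ k ≤ l ∧
      l + 1 / 4 / 4 ^ k ≤ j / 4 ^ k + 1 / 4 ^ k ∧ 2 ^ k / C ≤ dot v (ed (j / 4 ^ k)) ∧
      ∀ σ p : ℝ, p ≤ 1 / 4 → l ≤ σ → σ ≤ l + p / 4 ^ k →
        ‖dot v (ed (j / 4 ^ k)) • ed σ - v‖ ≤ C / 2 ^ k ∧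
        |wedge (dot v (ed (j / 4 ^ k)) • ed σ) v| ≤ C * p := fun k j => by
    by_cases h : th k (j / 4 ^ k)
    · obtain ⟨x, v, l, h1⟩ := hw _ k (by positivity) ((hth _ _).1 h).1 ((hth _ _).1 h).2
      exact ⟨x, v, l, fun _ => h1⟩
    · exact ⟨x₀, 0, 0, fun h' => absurd h' h⟩
  choose x v l hx using ex
  refine ⟨2 * c, by positivity, fun η hη => ?_⟩
  obtain ⟨am, bm, ham, hsp⟩ := spectral hB hb huc hlm (η := η / 5) (by positivity)
  obtain ⟨ε, hε, M, K₀, hM, hres⟩ := D.resonance (bm := bm) (C₀ := max C (C / √(2 * c))) ham δ0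
    (η := η / 10) (by positivity)
  obtain ⟨J, hJ, hsp⟩ := hsp ε hε
  have J0 : (0 : ℝ) < J := by exact_mod_cast hJ
  refine ⟨min (1 / 4) (c / (J * C)), J, fun k j => dot (v k j) (ed (j / 4 ^ k)), l, th,
    by positivity, hJ, fun k => le_trans (dens_mono fun j hj h h' => h ((hth _ _).2 ⟨?_, h'⟩))
      ((hnd k δ δ0).trans hm), fun k j h => ⟨(hx k j h).2.2.2.1, ?_⟩, ?_, fun K₁ => ?_⟩
  · rw [div_le_one (by positivity)]; exact_mod_cast hj.le
  · rw [add_div]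
    refine le_trans ?_ (hx k j h).2.2.2.2.1
    gcongr
    exact min_le_left _ _
  · filter_upwards [hr, S.ae_ue] with σ h1 h2 f η' hη'
    filter_upwards [sector_rig h2 h1 hγ.of_uncurry_left f hη' hC hJ] with k hk j h a1 a2
    obtain ⟨b1, -, -, -, -, b2, b3⟩ := hx k j h
    obtain ⟨b4, b5⟩ := b3 σ _ (min_le_left _ _) a1 a2
    refine hk _ _ _ _ b1 b2 b4 ((mul_le_mul_of_nonneg_left (b5.trans
      (mul_le_mul_of_nonneg_left (min_le_right _ _) hC.le)) J0.le).trans_eq ?_)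
    field_simp
  obtain ⟨K, hK⟩ : ∃ K, K = K₁ + K₀ + 1 := ⟨_, rfl⟩
  have K2 : 2 * K ≤ M * K := Nat.mul_le_mul_right K hM
  refine ⟨Finset.Ico K (M * K), Finset.nonempty_Ico.2 (by omega),
    fun k hk => by have := (Finset.mem_Ico.1 hk).1; omega, ?_⟩
  have := hsp (Σ _ : ℕ, ℕ) ((Finset.Ico K (M * K)).sigma fun k =>
    (Finset.range (4 ^ k)).filter (fun j : ℕ => th k (j / 4 ^ k)))
    (fun i => dot (v i.1 i.2) (ed (i.2 / 4 ^ i.1))) (fun i => 1 / 4 ^ i.1)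
    (fun i hi => le_trans (by positivity)
      (hx _ _ (Finset.mem_filter.1 (Finset.mem_sigma.1 hi).2).2).2.2.2.2.2.1)
    (fun i _ => by positivity) (Finset.Ico K (M * K)).card ?_ ?_
  · filter_upwards [this] with n hn
    rw [Finset.sum_sigma, show 5 * (η / 5) = η by ring] at hn
    exact hn
  · rw [Finset.sum_sigma, Finset.card_eq_sum_ones, Nat.cast_sum]
    refine Finset.sum_le_sum fun k _ => ?_
    simp only [Finset.sum_const, nsmul_eq_mul, Nat.cast_one]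
    rw [mul_one_div, div_le_one (by positivity)]
    exact_mod_cast (Finset.card_filter_le _ _).trans_eq (Finset.card_range _)
  · intro ξ h1 h2
    rw [Finset.sum_filter, Finset.sum_sigma]
    refine le_trans (Finset.sum_le_sum fun k _ => ?_) ((hres K (by omega) ξ h1 h2).trans ?_)
    · rw [dens_eq_sum, Finset.sum_div, Finset.sum_filter]
      refine Finset.sum_le_sum fun j _ => ?_
      split_ifs with a1 a2 a3
      · exact le_rfl
      · refine absurd ?_ a3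
        obtain ⟨b1, b2, b3, -⟩ := hx k j a1
        obtain ⟨u, u1, u2⟩ := hD _ _ _ b1
        obtain ⟨n, hn⟩ := a2
        refine ⟨u, n, (u2 _ _).trans (le_trans ?_ (le_max_right _ _)), u1 ▸ b2,
          u1 ▸ b3.trans (le_max_left _ _), u1 ▸ hn⟩
        gcongr
      all_goals positivity
    · rw [Nat.card_Ico, Nat.cast_sub (by omega)]
      have : (2 : ℝ) * K ≤ M * K := by exact_mod_cast K2
      push_cast
      nlinarith

lemma sector_bdd (S : TS X μ) (hγ : Measurable (Function.uncurry γ))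
    (hr : ∀ᵐ σ ∂(volume.restrict (Ioo (0 : ℝ) 1)), S.IsRay (ed σ) (γ σ)) (f : C(X, ℝ))
    (hf : ∫ q, f q ∂μ = 0) {ρ : ℝ → ℝ} (hρ : Continuous ρ) {R : ℝ} (hR : ∀ σ, |ρ σ| ≤ R) :
    Tendsto (avN fun t => (∫ σ in (0 : ℝ)..1, ρ σ * f (γ σ t)) ^ 2) atTop (𝓝 0) := by
  have e : ∀ t, ∫ σ in (0 : ℝ)..1, ρ σ * f (γ σ t) = ∫ σ in Ioo (0 : ℝ) 1, ρ σ * f (γ σ t) :=
    fun t => by rw [intervalIntegral.integral_of_le zero_le_one, integral_Ioc_eq_integral_Ioo]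
  have R0 : 0 ≤ R := (abs_nonneg _).trans (hR 0)
  obtain ⟨M, hM⟩ : ∃ M, M = R * ‖f‖ + 1 := ⟨_, rfl⟩
  have M0 : 0 < M := by rw [hM]; positivity
  have hm : Measurable fun p : ℝ × ℝ => ρ p.2 * f (γ p.2 p.1) :=
    (hρ.measurable.comp measurable_snd).mul (f.continuous.measurable.comp
      (show Measurable fun p : ℝ × ℝ => γ p.2 p.1 from hγ.comp measurable_swap))
  have hB : Measurable fun t => (∫ σ in (0 : ℝ)..1, ρ σ * f (γ σ t)) / M := by
    have := (measurable_ii hm 0 1).div_const M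
    exact this
  have hb : ∀ t, |(∫ σ in (0 : ℝ)..1, ρ σ * f (γ σ t)) / M| ≤ 1 := fun t => by
    have := intervalIntegral.norm_integral_le_of_norm_le_const (a := 0) (b := 1)
      (f := fun σ => ρ σ * f (γ σ t)) (C := R * ‖f‖) fun σ _ => by
        rw [norm_mul]
        exact mul_le_mul (hR σ) (f.norm_coe_le_norm _) (norm_nonneg _) R0
    rw [abs_div, abs_of_pos M0, div_le_one M0]
    simp only [sub_zero, abs_one, mul_one, Real.norm_eq_abs] at this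
    linarith
  have huc : ∀ η > 0, ∃ s > 0, ∀ t t', 0 < t → 0 < t' → |t - t'| < s →
      |(∫ σ in (0 : ℝ)..1, ρ σ * f (γ σ t)) / M - (∫ σ in (0 : ℝ)..1, ρ σ * f (γ σ t')) / M| ≤ η :=
    fun η hη => by
      obtain ⟨s, hs, h⟩ := S.sector_huc hγ hr f hρ.measurable hR (mul_pos hη M0)
      refine ⟨s, hs, fun t t' a1 a2 a3 => ?_⟩
      rw [← sub_div, abs_div, abs_of_pos M0, div_le_iff₀ M0, e, e]
      exact h t t' a1 a2 a3
  have hlm : ∀ η > 0, ∃ L > 0, ∀ t, 0 < t →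
      |∫ s in t..t + L, (∫ σ in (0 : ℝ)..1, ρ σ * f (γ σ s)) / M| ≤ η * L := fun η hη => by
    obtain ⟨L, hL, h⟩ := S.sector_hlm hγ hr f hf hρ.measurable hR (mul_pos hη M0)
    refine ⟨L, hL, fun t ht => ?_⟩
    rw [intervalIntegral.integral_div, abs_div, abs_of_pos M0, div_le_iff₀ M0]
    simp_rw [e]
    exact (h t ht).trans_eq (by ring)
  have h0 : ∀ᵐ σ ∂(volume.restrict (Ioo (0 : ℝ) 1)), ∀ f : C(X, ℝ),
      Tendsto (avN fun t => f (γ σ t)) atTop (𝓝 (∫ q, f q ∂μ)) := by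
    filter_upwards [hr, S.ae_ue] with σ h1 h2 f
    exact port h2 h1 hγ.of_uncurry_left f.continuous.measurable f.norm_coe_le_norm isOpen_univ
      (ae_of_all _ mem_univ) f.continuous.continuousOn
  have a2 := S.sector_h2 hγ hr hB hb huc hlm
  have a3 := orth μ hγ hB hb h0 (S.sector_h1 hγ hr)
  have := a3 a2 hρ f
  have h2 := this.const_mul M
  rw [mul_zero] at h2
  refine h2.congr fun n => ?_
  simp only [avN]
  rw [← mul_div_assoc, ← intervalIntegral.integral_const_mul]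
  congr 2
  ext t
  field_simp

/-- weighted averages over the standard sector tend to the mean in mean square -/
theorem sector (S : TS X μ) {γ : ℝ → ℝ → X} (hγ : Measurable (Function.uncurry γ))
    (hr : ∀ᵐ σ ∂(volume.restrict (Ioo (0 : ℝ) 1)), S.IsRay (ed σ) (γ σ)) (h : C(X, ℝ))
    {ρ : ℝ → ℝ} (hρ : Continuous ρ) : Tendsto (avN fun t =>
      (∫ σ in (0 : ℝ)..1, ρ σ * (h (γ σ t) - ∫ q, h q ∂μ)) ^ 2) atTop (𝓝 0) := by
  obtain ⟨R, hR⟩ := isCompact_Icc.exists_bound_of_continuousOn (hρ.continuousOn (s := Icc 0 1))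
  have := S.sector_bdd hγ hr (h - ContinuousMap.const X (∫ q, h q ∂μ)) (by
      simp only [ContinuousMap.sub_apply, ContinuousMap.const_apply]
      rw [integral_sub (integrable_bdd h.continuous.measurable h.norm_coe_le_norm)
        (integrable_const _)]
      simp) (ρ := fun σ => ρ (projIcc 0 1 zero_le_one σ)) (by fun_prop)
    (fun σ => hR _ (projIcc 0 1 zero_le_one σ).2)
  refine this.congr fun n => ?_
  congr 1
  ext t
  congr 1
  refine intervalIntegral.integral_congr fun σ hσ => ?_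
  rw [uIcc_of_le zero_le_one] at hσ
  simp [projIcc_of_mem _ hσ]

end Pool.Agent.MP_d0b2d2_an.Gen.TS
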