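import Pool.Agent.MP_d0b2d2_an.Gen.Thick
import Pool.Agent.MP_d0b2d2_an.Gen.Dens
import Pool.Agent.MP_d0b2d2_an.Gen.Util

open MeasureTheory Set Filter Topology Metric

namespace Pool.Agent.MP_d0b2d2_an.Gen

/-- mean ergodic theorem, shifted averages -/
lemma UE_hilbert {E : Type} [NormedAddCommGroup E] [InnerProductSpace ℝ E] [CompleteSpace E]
    (U : E →ₗᵢ[ℝ] E) (x : E) {ε : ℝ} (hε : 0 < ε) : ∃ L : ℕ, 1 ≤ L ∧ ∀ n : ℕ,
    ‖(L : ℝ)⁻¹ • ∑ i ∈ Finset.range L, U^[n + i] x -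
      (L : ℝ)⁻¹ • ∑ i ∈ Finset.range L, U^[i] x‖ ≤ ε := by
  have h := ContinuousLinearMap.tendsto_birkhoffAverage_orthogonalProjection
    U.toContinuousLinearMap U.norm_toContinuousLinearMap_le x
  set P := (U.toContinuousLinearMap.eqLocus (1 : E →L[ℝ] E)).orthogonalProjectionOnto x with hP
  have hfix : U (P : E) = P := P.2
  obtain ⟨L, hL1, hL2⟩ := ((eventually_ge_atTop 1).and
    ((Metric.tendsto_nhds.1 h) (ε / 2) (half_pos hε))).exists
  refine ⟨L, hL1, fun n => ?_⟩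
  set B := (L : ℝ)⁻¹ • ∑ i ∈ Finset.range L, U^[i] x with hB
  have h1 : ‖B - P‖ < ε / 2 := by
    rw [← dist_eq_norm]
    exact hL2
  have h2 : ∀ m : ℕ, ‖(L : ℝ)⁻¹ • ∑ i ∈ Finset.range L, U^[m + i] x - P‖ = ‖B - P‖ := by
    intro m
    induction m with
    | zero => simp [hB]
    | succ m ih =>
      rw [← ih, ← U.norm_map ((L : ℝ)⁻¹ • ∑ i ∈ Finset.range L, U^[m + i] x - P), map_sub, hfix,
        map_smul, map_sum]
      congr 3
      refine Finset.sum_congr rfl fun i _ => ?_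
      rw [show m + 1 + i = (m + i) + 1 by ring, Function.iterate_succ_apply']
  have h3 := norm_sub_le_norm_sub_add_norm_sub
    ((L : ℝ)⁻¹ • ∑ i ∈ Finset.range L, U^[n + i] x) (P : E) B
  rw [h2, norm_sub_rev (P : E)] at h3
  linarith

/-- the tent function -/
lemma UE_tent {r : ℝ} (hr : 0 < r) : ∃ φ : ℂ → ℝ, Continuous φ ∧ (∀ y, 0 ≤ φ y) ∧
    (∀ y, r ≤ ‖y‖ → φ y = 0) ∧ ∫ y, φ y = 1 ∧ ∃ C : ℝ, 0 ≤ C ∧ (∀ y, φ y ≤ C) ∧
    ∀ a : ℂ, ‖a‖ ≤ r → ∫ y, |φ (y - a) - φ y| ≤ C * ‖a‖ := by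
  let ψ : ℂ → ℝ := fun y => max 0 (r - ‖y‖)
  have c1 : Continuous ψ := by fun_prop
  have z1 : ∀ y, r ≤ ‖y‖ → ψ y = 0 := fun y hy => max_eq_left (by linarith)
  have c2 : HasCompactSupport ψ := HasCompactSupport.intro (isCompact_closedBall (0 : ℂ) r)
    fun y hy => z1 y (by simp at hy; exact hy.le)
  have hI : 0 < ∫ y, ψ y := c1.integral_pos_of_hasCompactSupport_nonneg_nonzero (x := 0) c2
    (fun y => le_max_left _ _) (by simp [ψ, hr.le, hr.ne'])
  set I := ∫ y, ψ y with hIdef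
  set V := (volume : Measure ℂ).real (closedBall 0 (2 * r)) with hV
  have V0 : 0 ≤ V := measureReal_nonneg
  refine ⟨fun y => ψ y / I, by fun_prop, fun y => div_nonneg (le_max_left _ _) hI.le,
    fun y hy => by simp [z1 y hy], by rw [integral_div, div_self hI.ne'], (r + V) / I,
    by positivity, fun y => div_le_div_of_nonneg_right ?_ hI.le, fun a ha => ?_⟩
  · exact max_le (by positivity) (by linarith [norm_nonneg y])
  · have hb : ∀ y, |ψ (y - a) / I - ψ y / I| ≤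
        (closedBall (0 : ℂ) (2 * r)).indicator (fun _ => ‖a‖ / I) y := by
      intro y
      by_cases hy : y ∈ closedBall (0 : ℂ) (2 * r)
      · rw [indicator_of_mem hy, ← sub_div, abs_div, abs_of_pos hI]
        refine div_le_div_of_nonneg_right ?_ hI.le
        have h1 := abs_max_sub_max_le_max (0 : ℝ) (r - ‖y - a‖) 0 (r - ‖y‖)
        have h2 : |‖y‖ - ‖y - a‖| ≤ ‖a‖ := by
          simpa using abs_norm_sub_norm_le y (y - a)
        refine h1.trans (max_le (by simp) ?_)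
        rwa [show r - ‖y - a‖ - (r - ‖y‖) = ‖y‖ - ‖y - a‖ by ring]
      · rw [indicator_of_notMem hy]
        simp only [mem_closedBall, dist_zero_right, not_le] at hy
        have h1 : ‖y‖ ≤ ‖y - a‖ + ‖a‖ := by simpa using norm_add_le (y - a) a
        rw [z1 y (by linarith), z1 (y - a) (by linarith)]
        simp
    calc ∫ y, |ψ (y - a) / I - ψ y / I|
        ≤ ∫ y, (closedBall (0 : ℂ) (2 * r)).indicator (fun _ => ‖a‖ / I) y :=
          integral_mono_of_nonneg (ae_of_all _ fun y => abs_nonneg _)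
            ((integrable_indicator_iff measurableSet_closedBall).2
              (integrableOn_const measure_closedBall_lt_top.ne)) (ae_of_all _ hb)
      _ = V * (‖a‖ / I) := by
          rw [integral_indicator measurableSet_closedBall, setIntegral_const, smul_eq_mul]
      _ ≤ (r + V) / I * ‖a‖ := by
          rw [div_mul_eq_mul_div, ← mul_div_assoc]
          exact div_le_div_of_nonneg_right (by nlinarith [norm_nonneg a]) hI.le

lemma UE_int {φ : ℂ → ℝ} {r : ℝ} (h1 : Continuous φ) (h3 : ∀ y, r ≤ ‖y‖ → φ y = 0) :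
    Integrable φ := h1.integrable_of_hasCompactSupport
  (HasCompactSupport.intro (isCompact_closedBall (0 : ℂ) r)
    fun y hy => h3 y (by simp at hy; exact hy.le))

lemma UE_int_mul {φ h : ℂ → ℝ} (hφ : Integrable φ) (hh : Measurable h) {B : ℝ}
    (hB : ∀ y, |h y| ≤ B) : Integrable fun y => φ y * h y :=
  hφ.mul_bdd hh.aestronglyMeasurable (ae_of_all _ hB)

/-- weighted averages of two functions that are close on the support of the weight -/
lemma UE_close {φ h h' : ℂ → ℝ} {r B ε : ℝ} (hφ : Integrable φ) (h2 : ∀ y, 0 ≤ φ y)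
    (h3 : ∀ y, r ≤ ‖y‖ → φ y = 0) (h4 : ∫ y, φ y = 1) (hh : Measurable h) (hB : ∀ y, |h y| ≤ B)
    (hh' : Measurable h') (hB' : ∀ y, |h' y| ≤ B) (hc : ∀ y, ‖y‖ < r → |h y - h' y| ≤ ε) :
    |(∫ y, φ y * h y) - ∫ y, φ y * h' y| ≤ ε := by
  rw [← integral_sub (UE_int_mul hφ hh hB) (UE_int_mul hφ hh' hB')]
  have := norm_integral_le_of_norm_le (f := fun y => φ y * h y - φ y * h' y) (hφ.mul_const ε)
    (ae_of_all _ fun y => by
      rw [← mul_sub, Real.norm_eq_abs, abs_mul, abs_of_nonneg (h2 y)]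
      rcases lt_or_ge ‖y‖ r with hy | hy
      · exact mul_le_mul_of_nonneg_left (hc y hy) (h2 y)
      · simp [h3 y hy])
  rwa [integral_mul_const, h4, one_mul] at this

lemma UE_abs_le {φ h : ℂ → ℝ} {B : ℝ} (hφ : Integrable φ) (h2 : ∀ y, 0 ≤ φ y)
    (h4 : ∫ y, φ y = 1) (hB : ∀ y, |h y| ≤ B) : |∫ y, φ y * h y| ≤ B := by
  have := norm_integral_le_of_norm_le (f := fun y => φ y * h y) (hφ.mul_const B)
    (ae_of_all _ fun y => by
      rw [Real.norm_eq_abs, abs_mul, abs_of_nonneg (h2 y)]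
      exact mul_le_mul_of_nonneg_left (hB y) (h2 y))
  rwa [integral_mul_const, h4, one_mul] at this

/-- the shift bound -/
lemma UE_shift {φ h : ℂ → ℝ} {r B C : ℝ} (hφ : Integrable φ)
    (hC : ∀ a : ℂ, ‖a‖ ≤ r → ∫ y, |φ (y - a) - φ y| ≤ C * ‖a‖) (hh : Measurable h)
    (hB : ∀ y, |h y| ≤ B) (a b : ℂ) (hb : ‖b‖ ≤ r) :
    |(∫ y, φ y * h (a + b + y)) - ∫ y, φ y * h (a + y)| ≤ B * (C * ‖b‖) := by
  have B0 : 0 ≤ B := (abs_nonneg _).trans (hB 0)
  have hm : Measurable fun y => h (a + y) := hh.comp (by fun_prop)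
  have e : ∫ y, φ y * h (a + b + y) = ∫ y, φ (y - b) * h (a + y) := by
    rw [← integral_add_left_eq_self (fun y => φ (y - b) * h (a + y)) b]
    simp [add_assoc]
  have i1 : Integrable fun y => φ (y - b) := hφ.comp_sub_right b
  rw [e, ← integral_sub (UE_int_mul i1 hm fun y => hB _) (UE_int_mul hφ hm fun y => hB _)]
  have := norm_integral_le_of_norm_le (f := fun y => φ (y - b) * h (a + y) - φ y * h (a + y))
    ((i1.sub hφ).abs.const_mul B) (ae_of_all _ fun y => by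
      rw [← sub_mul, Real.norm_eq_abs, abs_mul, mul_comm]
      exact mul_le_mul_of_nonneg_right (hB _) (abs_nonneg _))
  rw [integral_const_mul] at this
  exact this.trans (mul_le_mul_of_nonneg_left (hC b hb) B0)

/-- comparison with the vertical Birkhoff sums -/
lemma UE_birk {φ h : ℂ → ℝ} {r B C l : ℝ} (hφ : Integrable φ) (C0 : 0 ≤ C)
    (hC : ∀ a : ℂ, ‖a‖ ≤ r → ∫ y, |φ (y - a) - φ y| ≤ C * ‖a‖) (hh : Measurable h)
    (hB : ∀ y, |h y| ≤ B) {L : ℕ} (hL : 1 ≤ L) (hl : 0 ≤ l) (hlr : L * l ≤ r) (a : ℂ) :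
    |(∫ y, φ y * ((∑ i ∈ Finset.range L, h (a + (i * l : ℝ) • Complex.I + y)) / L)) -
      ∫ y, φ y * h (a + y)| ≤ B * (C * (L * l)) := by
  have B0 : 0 ≤ B := (abs_nonneg _).trans (hB 0)
  have L0 : (0 : ℝ) < L := by exact_mod_cast hL
  have e : ∫ y, φ y * ((∑ i ∈ Finset.range L, h (a + (i * l : ℝ) • Complex.I + y)) / L) =
      (∑ i ∈ Finset.range L, ∫ y, φ y * h (a + (i * l : ℝ) • Complex.I + y)) / L := by
    have hi : ∀ i ∈ Finset.range L,
        Integrable fun y => φ y * h (a + (i * l : ℝ) • Complex.I + y) := fun i _ =>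
      UE_int_mul hφ (h := fun y => h (a + (i * l : ℝ) • Complex.I + y))
        (hh.comp (by fun_prop)) fun y => hB _
    rw [← integral_finset_sum _ hi, ← integral_div]
    congr 1
    ext y
    rw [← mul_div_assoc, Finset.mul_sum]
  rw [e, div_sub' L0.ne', abs_div, abs_of_pos L0, div_le_iff₀ L0]
  have e2 : (L : ℝ) * ∫ y, φ y * h (a + y) = ∑ i ∈ Finset.range L, ∫ y, φ y * h (a + y) := by
    simp
  rw [e2, ← Finset.sum_sub_distrib]
  refine (Finset.abs_sum_le_sum_abs _ _).trans ?_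
  have : ∀ i ∈ Finset.range L, |(∫ y, φ y * h (a + (i * l : ℝ) • Complex.I + y)) -
      ∫ y, φ y * h (a + y)| ≤ B * (C * (L * l)) := fun i hi => by
    have hi' : (i : ℝ) ≤ L := by exact_mod_cast (Finset.mem_range.1 hi).le
    have n1 : ‖(i * l : ℝ) • Complex.I‖ ≤ L * l := by
      rw [norm_smul, Complex.norm_I, mul_one, Real.norm_eq_abs, abs_of_nonneg (by positivity)]
      gcongr
    refine (UE_shift hφ hC hh hB a _ (n1.trans hlr)).trans ?_
    gcongr
  refine (Finset.sum_le_sum this).trans (le_of_eq ?_)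
  simp [mul_comm]

namespace TS

variable {X : Type} [TopologicalSpace X] [T2Space X] [CompactSpace X] [MeasurableSpace X]
  [BorelSpace X] [SecondCountableTopology X] {μ : Measure X} [IsProbabilityMeasure μ]

theorem UE_vert_inv (S : TS X μ) (e : ℂ) (f : C(X, ℝ)) {η : ℝ} (hη : 0 < η) : ∃ L : ℕ, 1 ≤ L ∧
    ∀ n : ℕ, ∫ q, ((∑ i ∈ Finset.range L, f (S.mv q (((n + i : ℕ) : ℝ) • e))) / L -
      (∑ i ∈ Finset.range L, f (S.mv q ((i : ℝ) • e))) / L) ^ 2 ∂μ ≤ η := by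
  have hT := S.measurePreserving_mv e
  let U : Lp ℝ 2 μ →ₗᵢ[ℝ] Lp ℝ 2 μ := Lp.compMeasurePreservingₗᵢ ℝ _ hT
  let F : Lp ℝ 2 μ := ContinuousMap.toLp 2 μ ℝ f
  have hU : ∀ n : ℕ, U^[n] F =ᵐ[μ] fun q => f (S.mv q ((n : ℝ) • e)) := by
    intro n
    induction n with
    | zero =>
      filter_upwards [ContinuousMap.coeFn_toLp (p := 2) μ (𝕜 := ℝ) f] with q hq
      rw [Nat.cast_zero, zero_smul, S.mv_zero]
      exact hq
    | succ n ih =>
      rw [Function.iterate_succ_apply']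
      have h1 : U (U^[n] F) =ᵐ[μ] (U^[n] F) ∘ fun q => S.mv q e :=
        Lp.coeFn_compMeasurePreserving _ hT
      filter_upwards [h1, hT.quasiMeasurePreserving.ae_eq_comp ih, S.ae_ok_line e] with q a1 a2 a3
      rw [a1, a2]
      have := S.add q e 1 n zero_le_one (Nat.cast_nonneg n) (a3 _)
      simp only [Function.comp_apply, Nat.cast_add, Nat.cast_one]
      rw [add_comm (n : ℝ) 1, this, one_smul]
  obtain ⟨L, hL, h⟩ := UE_hilbert U F (Real.sqrt_pos.2 hη)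
  refine ⟨L, hL, fun n => ?_⟩
  have h1 := h n
  set G := (L : ℝ)⁻¹ • ∑ i ∈ Finset.range L, U^[n + i] F -
      (L : ℝ)⁻¹ • ∑ i ∈ Finset.range L, U^[i] F with hG
  have h2 : ‖G‖ ^ 2 ≤ η := by
    have := pow_le_pow_left₀ (norm_nonneg _) h1 2
    rwa [Real.sq_sqrt hη.le] at this
  rw [← real_inner_self_eq_norm_sq, L2.inner_def] at h2
  refine le_of_eq_of_le (integral_congr_ae ?_) h2
  filter_upwards [Lp.coeFn_sub ((L : ℝ)⁻¹ • ∑ i ∈ Finset.range L, U^[n + i] F)
      ((L : ℝ)⁻¹ • ∑ i ∈ Finset.range L, U^[i] F),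
    Lp.coeFn_smul (L : ℝ)⁻¹ (∑ i ∈ Finset.range L, U^[n + i] F),
    Lp.coeFn_smul (L : ℝ)⁻¹ (∑ i ∈ Finset.range L, U^[i] F),
    Lp.coeFn_fun_finsetSum (Finset.range L) fun i => U^[n + i] F,
    Lp.coeFn_fun_finsetSum (Finset.range L) fun i => U^[i] F, ae_all_iff.2 hU]
    with q a1 a2 a3 a4 a5 a6
  rw [real_inner_self_eq_norm_sq, Real.norm_eq_abs, sq_abs, hG, a1, Pi.sub_apply, a2, a3,
    Pi.smul_apply, Pi.smul_apply, a4, a5]
  simp only [a6, smul_eq_mul, div_eq_inv_mul]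

end TS

end Pool.Agent.MP_d0b2d2_an.Gen
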