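import Pool.Agent.MP_d0b2d2_an.Gen.UEAux1

open MeasureTheory Set Filter Topology Metric

namespace Pool.Agent.MP_d0b2d2_an.Gen

lemma UE_avg {u : ℕ → ℝ} {B : ℝ} (hB : ∀ i, |u i| ≤ B) {L : ℕ} (hL : 1 ≤ L) :
    |(∑ i ∈ Finset.range L, u i) / L| ≤ B := by
  have L0 : (0 : ℝ) < L := by exact_mod_cast hL
  rw [abs_div, abs_of_pos L0, div_le_iff₀ L0]
  refine (Finset.abs_sum_le_sum_abs _ _).trans ((Finset.sum_le_sum fun i _ => hB i).trans ?_)
  simp [mul_comm]

namespace TS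

variable {X : Type} [TopologicalSpace X] [T2Space X] [CompactSpace X] [MeasurableSpace X]
  [BorelSpace X] [SecondCountableTopology X] {μ : Measure X} [IsProbabilityMeasure μ]
  {S : TS X μ} {x : X} {s : ℝ}

omit [T2Space X] [CompactSpace X] [BorelSpace X] [SecondCountableTopology X]
  [IsProbabilityMeasure μ] in
lemma UE_mv_mv (hx : x ∈ S.XR s) {y d : ℂ} (hy : ‖y‖ < s) (hd : ‖y + d‖ < s) :
    S.mv (S.mv x y) d = S.mv x (y + d) := by
  have hs : 0 < s := (norm_nonneg _).trans_lt hy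
  have := (convex_ok (convex_ball (0 : ℂ) s) (mem_ball_self hs)
    (fun w hw => hx w (by simpa using hw)) y (by simpa using hy) (y + d) (by simpa using hd)).2
  rwa [add_sub_cancel_left] at this

omit [T2Space X] [CompactSpace X] [IsProbabilityMeasure μ] in
lemma UE_meas (S : TS X μ) (f : C(X, ℝ)) (x : X) : Measurable fun y => f (S.mv x y) :=
  f.continuous.measurable.comp (S.measurable_mv.comp (measurable_const.prodMk measurable_id))

omit [T2Space X] [CompactSpace X] [IsProbabilityMeasure μ] in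
lemma UE_meas' (S : TS X μ) (f : C(X, ℝ)) (y : ℂ) : Measurable fun x => f (S.mv x y) :=
  f.continuous.measurable.comp (S.measurable_mv.comp (measurable_id.prodMk measurable_const))

/-- pulling an `L²` bound back to an embedded disc -/
lemma UE_pull {δ : ℝ} (hδ : S.Thick δ) (hx : x ∈ S.XR s) (hs : 2 * s ≤ δ) {Ψ : X → ℝ}
    (hΨ : Measurable Ψ) {B θ : ℝ} (hB : ∀ q, |Ψ q| ≤ B) (hθ : 0 < θ)
    (h : ∫ q, Ψ q ^ 2 ∂μ ≤ θ ^ 2) : ∫ y in ball (0 : ℂ) s, |Ψ (S.mv x y)| ≤ 2 * θ := by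
  have hp := measurePreserving_image (S := S) (x := x) (D := ball 0 s) measurableSet_ball
    (fun w hw => hx w (by simpa using hw)) (hδ.injOn hx hs)
  have i1 : Integrable (fun q => |Ψ q|) μ := (integrable_bdd hΨ hB).abs
  have i2 : Integrable (fun q => Ψ q ^ 2) μ := integrable_bdd (hΨ.pow_const 2) (M := B ^ 2)
    fun q => by rw [abs_pow]; exact pow_le_pow_left₀ (abs_nonneg _) (hB q) 2
  rw [← integral_map (f := fun q => |Ψ q|) hp.measurable.aemeasurable
    hΨ.abs.aestronglyMeasurable, hp.map_eq]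
  refine (setIntegral_le_integral i1 (ae_of_all _ fun q => abs_nonneg _)).trans ?_
  have h1 : ∫ q, |Ψ q| ∂μ ≤ ∫ q, (θ + Ψ q ^ 2 / θ) ∂μ :=
    integral_mono i1 ((integrable_const θ).add (i2.div_const θ)) fun q => by
      have : |Ψ q| - θ ≤ Ψ q ^ 2 / θ := by
        rw [le_div_iff₀ hθ, ← sq_abs]
        nlinarith [sq_nonneg (|Ψ q| - θ), abs_nonneg (Ψ q)]
      simp only
      linarith
  rw [integral_add (integrable_const θ) (i2.div_const θ), integral_div] at h1
  have h2 : (∫ q, Ψ q ^ 2 ∂μ) / θ ≤ θ := by rw [div_le_iff₀ hθ]; linarith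
  simp only [integral_const, probReal_univ, smul_eq_mul, one_mul] at h1
  linarith

/-- vertical moves -/
lemma UE_vert {δ : ℝ} (hδ : S.Thick δ) (hx : x ∈ S.XR s) (hs : 2 * s ≤ δ) (f : C(X, ℝ))
    {φ : ℂ → ℝ} {C l θ : ℝ} (hφ : Integrable φ) (h2 : ∀ y, 0 ≤ φ y)
    (h3 : ∀ y, s / 4 ≤ ‖y‖ → φ y = 0) (C0 : 0 ≤ C) (h5 : ∀ y, φ y ≤ C)
    (hC : ∀ a : ℂ, ‖a‖ ≤ s / 4 → ∫ y, |φ (y - a) - φ y| ≤ C * ‖a‖) {L : ℕ} (hL : 1 ≤ L)
    (hl : 0 < l) (hlr : L * l ≤ s / 4) (hθ : 0 < θ)
    (hV : ∀ n : ℕ, ∫ q, ((∑ i ∈ Finset.range L,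
      f (S.mv q ((((n + i : ℕ) : ℝ) * l) • Complex.I))) / L -
      (∑ i ∈ Finset.range L, f (S.mv q (((i : ℝ) * l) • Complex.I))) / L) ^ 2 ∂μ ≤ θ ^ 2)
    {a : ℂ} (ha : ‖a‖ ≤ s / 4) {t : ℝ} (ht0 : 0 ≤ t) (ht : t ≤ s / 4) :
    |(∫ y, φ y * f (S.mv x (a + t • Complex.I + y))) - ∫ y, φ y * f (S.mv x (a + y))| ≤
      3 * (‖f‖ * (C * (L * l))) + C * (2 * θ) := by
  have L1 : (1 : ℝ) ≤ L := by exact_mod_cast hL
  have hh := UE_meas S f x
  have hB : ∀ y, |f (S.mv x y)| ≤ ‖f‖ := fun y => f.norm_coe_le_norm _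
  set n := ⌊t / l⌋₊ with hn
  have n1 : n * l ≤ t := by
    have := Nat.floor_le (div_nonneg ht0 hl.le)
    rwa [le_div_iff₀ hl] at this
  have n2 : t < n * l + l := by
    have := Nat.lt_floor_add_one (t / l)
    rw [div_lt_iff₀ hl] at this; linarith
  have l1 : l ≤ L * l := le_mul_of_one_le_left hl.le L1
  have b0 : ‖(t - n * l) • Complex.I‖ ≤ L * l := by
    rw [norm_smul, Complex.norm_I, mul_one, Real.norm_eq_abs, abs_of_nonneg (by linarith)]
    linarith
  have e1 := UE_shift hφ hC hh hB (a + ((n : ℝ) * l) • Complex.I) _ (b0.trans hlr)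
  have e1' : a + ((n : ℝ) * l) • Complex.I + (t - n * l) • Complex.I = a + t • Complex.I := by
    rw [add_assoc, ← add_smul]; congr 2; ring
  rw [e1'] at e1
  have e1'' : ‖f‖ * (C * ‖(t - n * l) • Complex.I‖) ≤ ‖f‖ * (C * (L * l)) := by gcongr
  have e2 := UE_birk hφ C0 hC hh hB hL hl.le hlr (a + ((n : ℝ) * l) • Complex.I)
  have e3 := UE_birk hφ C0 hC hh hB hL hl.le hlr a
  let Ψ : X → ℝ := fun q => (∑ i ∈ Finset.range L,
      f (S.mv q ((((n + i : ℕ) : ℝ) * l) • Complex.I))) / L -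
      (∑ i ∈ Finset.range L, f (S.mv q (((i : ℝ) * l) • Complex.I))) / L
  have hΨ : Measurable Ψ :=
    ((Finset.measurable_fun_sum _ fun i _ => UE_meas' S f _).div_const _).sub
      ((Finset.measurable_fun_sum _ fun i _ => UE_meas' S f _).div_const _)
  have hΨB : ∀ q, |Ψ q| ≤ ‖f‖ + ‖f‖ := fun q => (abs_sub _ _).trans
    (add_le_add (UE_avg (fun i => f.norm_coe_le_norm _) hL)
      (UE_avg (fun i => f.norm_coe_le_norm _) hL))
  have e4 := UE_pull hδ hx hs hΨ hΨB hθ (hV n)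
  have im : ∀ b : ℂ, Integrable fun y => φ y * ((∑ i ∈ Finset.range L,
      f (S.mv x (b + (i * l : ℝ) • Complex.I + y))) / L) := fun b =>
    UE_int_mul hφ ((Finset.measurable_fun_sum _ fun (i : ℕ) _ =>
      hh.comp (f := fun y => b + ((i : ℝ) * l) • Complex.I + y) (by fun_prop)).div_const _)
      fun y => UE_avg (fun i => hB _) hL
  have i3 : Integrable ((ball (0 : ℂ) s).indicator fun y => |Ψ (S.mv x y)|) :=
    (integrable_indicator_iff measurableSet_ball).2 (Measure.integrableOn_of_bounded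
      (M := ‖f‖ + ‖f‖) measure_ball_lt_top.ne
      (hΨ.comp (S.measurable_mv.comp (measurable_const.prodMk measurable_id))).abs.aestronglyMeasurable
      (ae_of_all _ fun y => by simpa using hΨB _))
  have e5 := norm_integral_le_of_norm_le (f := fun y => φ y * ((∑ i ∈ Finset.range L,
      f (S.mv x (a + ((n : ℝ) * l) • Complex.I + (i * l : ℝ) • Complex.I + y))) / L) -
      φ y * ((∑ i ∈ Finset.range L, f (S.mv x (a + (i * l : ℝ) • Complex.I + y))) / L))
    ((i3.comp_add_left a).const_mul C) (ae_of_all _ fun y => by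
      rcases lt_or_ge ‖y‖ (s / 4) with hy | hy
      · have a1 : ‖a + y‖ < s / 2 := by linarith [norm_add_le a y]
        have a2 : ∀ u : ℝ, 0 ≤ u → u ≤ s / 2 → S.mv (S.mv x (a + y)) (u • Complex.I) =
            S.mv x (a + u • Complex.I + y) := fun u u0 u1 => by
          have : ‖u • Complex.I‖ = u := by
            rw [norm_smul, Complex.norm_I, mul_one, Real.norm_eq_abs, abs_of_nonneg u0]
          rw [UE_mv_mv hx (by linarith [norm_nonneg y])
            (by linarith [norm_add_le (a + y) (u • Complex.I)]), add_right_comm]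
        rw [indicator_of_mem (by simp; linarith [norm_nonneg y]), ← mul_sub, Real.norm_eq_abs,
          abs_mul, abs_of_nonneg (h2 y)]
        refine mul_le_mul (h5 y) (le_of_eq ?_) (abs_nonneg _) C0
        simp only [Ψ]
        congr 3
        · refine Finset.sum_congr rfl fun i hi => ?_
          have hi' : (i : ℝ) ≤ L := by exact_mod_cast (Finset.mem_range.1 hi).le
          rw [a2 _ (by positivity) (by push_cast; nlinarith), add_assoc a, ← add_smul]
          push_cast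
          rw [add_mul]
        · refine Finset.sum_congr rfl fun i hi => ?_
          have hi' : (i : ℝ) ≤ L := by exact_mod_cast (Finset.mem_range.1 hi).le
          rw [a2 _ (by positivity) (by nlinarith [norm_nonneg y])]
      · rw [h3 y hy, zero_mul, zero_mul, sub_zero, norm_zero]
        exact mul_nonneg C0 (indicator_nonneg (fun _ _ => abs_nonneg _) _))
  rw [integral_const_mul, integral_add_left_eq_self
    ((ball (0 : ℂ) s).indicator fun y => |Ψ (S.mv x y)|) a, integral_indicator measurableSet_ball,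
    integral_sub (im _) (im _), Real.norm_eq_abs] at e5
  have e6 := mul_le_mul_of_nonneg_left e4 C0
  rw [abs_le] at *
  constructor <;> linarith [e1.1, e1.2, e2.1, e2.2, e3.1, e3.2, e5.1, e5.2]

/-- one step -/
lemma UE_step {δ : ℝ} (hδ : S.Thick δ) (hx : x ∈ S.XR s) (hs : 2 * s ≤ δ) (f : C(X, ℝ))
    {φ : ℂ → ℝ} {C l θ ε : ℝ} (hφ : Integrable φ) (h2 : ∀ y, 0 ≤ φ y)
    (h3 : ∀ y, s / 4 ≤ ‖y‖ → φ y = 0) (h4 : ∫ y, φ y = 1) (C0 : 0 ≤ C) (h5 : ∀ y, φ y ≤ C)
    (hC : ∀ a : ℂ, ‖a‖ ≤ s / 4 → ∫ y, |φ (y - a) - φ y| ≤ C * ‖a‖) {L : ℕ} (hL : 1 ≤ L)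
    (hl : 0 < l) (hlr : L * l ≤ s / 4) (hθ : 0 < θ)
    (hV : ∀ n : ℕ, ∫ q, ((∑ i ∈ Finset.range L,
      f (S.mv q ((((n + i : ℕ) : ℝ) * l) • Complex.I))) / L -
      (∑ i ∈ Finset.range L, f (S.mv q (((i : ℝ) * l) • Complex.I))) / L) ^ 2 ∂μ ≤ θ ^ 2)
    (hH : ∀ q (t : ℝ), |t| < s / 4 → |f (S.mv q t) - f q| ≤ ε) {d : ℂ} (hd : ‖d‖ < s / 4) :
    |(∫ y, φ y * f (S.mv (S.mv x d) y)) - ∫ y, φ y * f (S.mv x y)| ≤
      3 * (‖f‖ * (C * (L * l))) + C * (2 * θ) + ε := by
  have hh := UE_meas S f x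
  have hB : ∀ q, |f q| ≤ ‖f‖ := fun y => f.norm_coe_le_norm _
  have d1 : |d.re| < s / 4 := (Complex.abs_re_le_norm d).trans_lt hd
  have d2 : |d.im| < s / 4 := (Complex.abs_im_le_norm d).trans_lt hd
  have d3 : ‖d.im • Complex.I‖ = |d.im| := by
    rw [norm_smul, Complex.norm_I, mul_one, Real.norm_eq_abs]
  have e1 := UE_close (ε := ε) hφ h2 h3 h4 (UE_meas S f (S.mv x d)) (fun y => hB _)
    (hh.comp (f := fun y => d.im • Complex.I + y) (by fun_prop)) (fun y => hB _) fun y hy => by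
      have a1 : ‖d.im • Complex.I + y‖ < s / 2 := by linarith [norm_add_le (d.im • Complex.I) y]
      have a2 : d.im • Complex.I + y + d.re = d + y := by
        apply Complex.ext <;> simp [add_comm]
      have a3 : ‖d + y‖ < s := by linarith [norm_add_le d y, norm_nonneg y]
      have := hH (S.mv x (d.im • Complex.I + y)) d.re d1
      rw [UE_mv_mv hx (by linarith [norm_nonneg y]) (by rwa [a2]), a2] at this
      rwa [UE_mv_mv hx (by linarith [norm_nonneg y]) a3]
  have e2 : |(∫ y, φ y * f (S.mv x (d.im • Complex.I + y))) - ∫ y, φ y * f (S.mv x y)| ≤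
      3 * (‖f‖ * (C * (L * l))) + C * (2 * θ) := by
    rcases le_total 0 d.im with h | h
    · have := UE_vert hδ hx hs f hφ h2 h3 C0 h5 hC hL hl hlr hθ hV (a := 0)
        (by simp; linarith [norm_nonneg d]) h (by linarith [le_abs_self d.im])
      simpa only [zero_add] using this
    · have := UE_vert hδ hx hs f hφ h2 h3 C0 h5 hC hL hl hlr hθ hV (a := d.im • Complex.I)
        (by linarith) (t := -d.im) (by linarith) (by linarith [neg_le_abs d.im])
      rw [neg_smul, add_neg_cancel, abs_sub_comm] at this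
      simpa only [zero_add] using this
  simp only [Function.comp_def] at e1
  rw [abs_le] at *
  constructor <;> linarith [e1.1, e1.2, e2.1, e2.2]

end TS

end Pool.Agent.MP_d0b2d2_an.Gen
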