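import Pool.Agent.MP_d0b2d2_an.Gen.RDefs

open Set Filter Topology

namespace Pool.Agent.MP_d0b2d2_an.Gen

variable {V : Type} [NormedAddCommGroup V] [InnerProductSpace ℝ V]

theorem vol_nonneg {ι : Type} [Fintype ι] [DecidableEq ι] (v : ι → V) : 0 ≤ vol v :=
  Real.sqrt_nonneg _

theorem vol_sq {ι : Type} [Fintype ι] [DecidableEq ι] (v : ι → V) :
    vol v ^ 2 = (Matrix.gram ℝ v).det :=
  Real.sq_sqrt (Matrix.posSemidef_gram ℝ v).det_nonneg

theorem vol_pos_iff {ι : Type} [Fintype ι] [DecidableEq ι] (v : ι → V) :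
    0 < vol v ↔ LinearIndependent ℝ v := by
  rw [vol, Real.sqrt_pos, ← Matrix.det_gram_ne_zero_iff_linearIndependent]
  exact ⟨ne_of_gt, fun h => lt_of_le_of_ne (Matrix.posSemidef_gram ℝ v).det_nonneg h.symm⟩

theorem vol_equiv {ι ι' : Type} [Fintype ι] [DecidableEq ι] [Fintype ι'] [DecidableEq ι']
    (e : ι' ≃ ι) (v : ι → V) : vol (v ∘ e) = vol v := by
  rw [vol, vol, ← Matrix.det_submatrix_equiv_self e (Matrix.gram ℝ v)]
  rfl

theorem vol_empty {ι : Type} [Fintype ι] [DecidableEq ι] [IsEmpty ι] (v : ι → V) : vol v = 1 := by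
  simp [vol]

theorem vol_unique {ι : Type} [Fintype ι] [DecidableEq ι] [Unique ι] (v : ι → V) :
    vol v = ‖v default‖ := by
  rw [vol, Matrix.det_unique, Matrix.gram_apply, real_inner_self_eq_norm_sq,
    Real.sqrt_sq (norm_nonneg _)]

/-- change of family by a matrix -/
theorem vol_matrix {ι : Type} [Fintype ι] [DecidableEq ι] (M : Matrix ι ι ℝ) (v : ι → V) :
    vol (fun i => ∑ j, M i j • v j) = |M.det| * vol v := by
  have : Matrix.gram ℝ (fun i => ∑ j, M i j • v j) = M * (Matrix.gram ℝ v * M.transpose) := by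
    ext i j
    simp only [Matrix.gram_apply, Matrix.mul_apply, sum_inner, inner_sum, real_inner_smul_left,
      real_inner_smul_right, Matrix.transpose_apply, Finset.mul_sum]
    rw [Finset.sum_comm]
    exact Finset.sum_congr rfl fun a _ => Finset.sum_congr rfl fun b _ => by ring
  rw [vol, vol, this, Matrix.det_mul, Matrix.det_mul, Matrix.det_transpose, mul_left_comm,
    mul_comm, Real.sqrt_mul (mul_self_nonneg _), Real.sqrt_mul_self_eq_abs]

/-- filtration formula: `P` is any linear map acting as the orthogonal projection away from the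
span of `v` on the vectors `c` -/
theorem vol_sum {ι ι' : Type} [Fintype ι] [DecidableEq ι] [Fintype ι'] [DecidableEq ι']
    (v : ι → V) (c c' : ι' → V) (h1 : ∀ j, c j - c' j ∈ Submodule.span ℝ (range v))
    (h2 : ∀ i j, inner ℝ (v i) (c' j) = 0) : vol (Sum.elim v c) = vol v * vol c' := by
  choose a ha using fun j => (Submodule.mem_span_range_iff_exists_fun ℝ).1 (h1 j)
  have h3 : Sum.elim v c = fun i => ∑ j, Matrix.fromBlocks (1 : Matrix ι ι ℝ) 0 (Matrix.of a)
      (1 : Matrix ι' ι' ℝ) i j • Sum.elim v c' j := by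
    ext i
    rcases i with i | i <;> simp [Fintype.sum_sum_type, Matrix.one_apply, ha]
  have h4 : Matrix.gram ℝ (Sum.elim v c') =
      Matrix.fromBlocks (Matrix.gram ℝ v) 0 0 (Matrix.gram ℝ c') := by
    ext i j
    rcases i with i | i <;> rcases j with j | j
    · rfl
    · exact h2 i j
    · exact (real_inner_comm _ _).trans (h2 j i)
    · rfl
  rw [h3, vol_matrix, Matrix.det_fromBlocks_zero₁₂, vol, h4, Matrix.det_fromBlocks_zero₁₂,
    Real.sqrt_mul (Matrix.posSemidef_gram ℝ v).det_nonneg]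
  simp [vol]

/-- existence of the orthogonal parts; their norms are the distances to the span -/
theorem exists_orth (K : Submodule ℝ V) [FiniteDimensional ℝ K] : ∃ Q : V →ₗ[ℝ] V,
    (∀ x, x - Q x ∈ K) ∧ (∀ x, ∀ y ∈ K, inner ℝ y (Q x) = 0) ∧
      (∀ x, ∀ y ∈ K, ‖Q x‖ ≤ ‖x - y‖) ∧ ∀ y ∈ K, Q y = 0 := by
  have h : ∀ y ∈ K, K.orthogonal.starProjection y = 0 := fun y hy =>
    K.starProjection_orthogonal_apply_eq_zero hy
  refine ⟨(K.orthogonal.starProjection : V →L[ℝ] V), fun x => ?_, fun x y hy => ?_,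
    fun x y hy => ?_, h⟩
  · simp [Submodule.starProjection_orthogonal_val]
  · exact Submodule.inner_right_of_mem_orthogonal hy (K.orthogonal.starProjection_apply_mem x)
  · have := K.orthogonal.norm_starProjection_apply_le (x - y)
    rwa [map_sub, h y hy, sub_zero] at this

theorem Vol_orth {ι : Type} [Finite ι] (v : ι → V) : ∃ Q : V →ₗ[ℝ] V,
    (∀ x, x - Q x ∈ Submodule.span ℝ (range v)) ∧
      (∀ x, ∀ y ∈ Submodule.span ℝ (range v), inner ℝ y (Q x) = 0) ∧
      (∀ x, ∀ y ∈ Submodule.span ℝ (range v), ‖Q x‖ ≤ ‖x - y‖) ∧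
      ∀ y ∈ Submodule.span ℝ (range v), Q y = 0 :=
  have := FiniteDimensional.span_of_finite ℝ (finite_range v)
  exists_orth _

theorem Vol_ind {P : ∀ (ι : Type) [Fintype ι] [DecidableEq ι], Prop}
    (he : ∀ (ι ι' : Type) [Fintype ι] [DecidableEq ι] [Fintype ι'] [DecidableEq ι'],
      ι ≃ ι' → P ι → P ι') (h0 : P (Fin 0)) (hs : ∀ n, P (Fin n) → P (Fin n ⊕ Fin 1))
    (ι : Type) [Fintype ι] [DecidableEq ι] : P ι := by
  have : ∀ n, P (Fin n) := fun n => by
    induction n with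
    | zero => exact h0
    | succ n ih => exact he _ _ finSumFinEquiv (hs n ih)
  exact he _ _ (Fintype.equivFin ι).symm (this _)

/-- comparison of volumes in two spaces -/
theorem vol_le_of_norm_le {V' : Type} [NormedAddCommGroup V'] [InnerProductSpace ℝ V']
    {ι : Type} [Fintype ι] [DecidableEq ι] (v : ι → V) (v' : ι → V') {l : ℝ} (hl : 0 ≤ l)
    (h : ∀ x : ι → ℝ, ‖∑ i, x i • v i‖ ≤ l * ‖∑ i, x i • v' i‖) :
    vol v ≤ l ^ Fintype.card ι * vol v' := by
  revert v v'
  refine Vol_ind (P := fun ι _ _ => ∀ (v : ι → V) (v' : ι → V'),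
    (∀ x : ι → ℝ, ‖∑ i, x i • v i‖ ≤ l * ‖∑ i, x i • v' i‖) →
      vol v ≤ l ^ Fintype.card ι * vol v') ?_ ?_ ?_ ι
  · intro ι ι' _ _ _ _ e ih v v' h
    rw [← vol_equiv e, ← vol_equiv e v', ← Fintype.card_congr e]
    refine ih _ _ fun x => ?_
    have := h (x ∘ e.symm)
    rw [← e.sum_comp, ← e.sum_comp] at this
    simpa using this
  · intro v v' _
    simp [vol_empty]
  · intro n ih v v' h
    obtain ⟨Q, h1, h2, h3, -⟩ := Vol_orth (v ∘ Sum.inl)
    obtain ⟨Q', h1', h2', -, -⟩ := Vol_orth (v' ∘ Sum.inl)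
    have e1 := vol_sum _ (v ∘ Sum.inr) (fun j => Q (v (Sum.inr j))) (fun j => h1 _)
      (fun i j => h2 _ _ (Submodule.subset_span (mem_range_self i)))
    have e2 := vol_sum _ (v' ∘ Sum.inr) (fun j => Q' (v' (Sum.inr j))) (fun j => h1' _)
      (fun i j => h2' _ _ (Submodule.subset_span (mem_range_self i)))
    rw [Sum.elim_comp_inl_inr] at e1 e2
    rw [e1, e2, vol_unique fun j => Q (v (Sum.inr j)), vol_unique fun j => Q' (v' (Sum.inr j))]
    have h4 := ih (v ∘ Sum.inl) (v' ∘ Sum.inl) fun x => by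
      simpa [Fintype.sum_sum_type] using h (Sum.elim x 0)
    obtain ⟨x, hx⟩ := (Submodule.mem_span_range_iff_exists_fun ℝ).1 (h1' (v' (Sum.inr default)))
    have h5 : ‖Q (v (Sum.inr default))‖ ≤ l * ‖Q' (v' (Sum.inr default))‖ := by
      refine (h3 _ (∑ i, x i • (v ∘ Sum.inl) i) (Submodule.sum_mem _ fun i _ =>
        Submodule.smul_mem _ _ (Submodule.subset_span (mem_range_self i)))).trans ?_
      have := h (Sum.elim (-x) 1)
      simp only [Fintype.sum_sum_type, Sum.elim_inl, Sum.elim_inr, Pi.neg_apply, neg_smul,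
        Finset.sum_neg_distrib, Pi.one_apply, one_smul, Fintype.sum_unique] at this
      simp only [Function.comp] at hx ⊢
      rwa [hx, neg_add_eq_sub, neg_add_eq_sub, sub_sub_cancel] at this
    calc _ ≤ (l ^ Fintype.card (Fin n) * vol (v' ∘ Sum.inl)) * (l * ‖Q' (v' (Sum.inr default))‖) :=
          mul_le_mul h4 h5 (norm_nonneg _) (mul_nonneg (pow_nonneg hl _) (vol_nonneg _))
      _ = _ := by
          rw [Fintype.card_sum, Fintype.card_fin 1, pow_succ]
          ring

/-- Fischer inequality -/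
theorem vol_sum_le {ι ι' : Type} [Fintype ι] [DecidableEq ι] [Fintype ι'] [DecidableEq ι']
    (v : ι → V) (c : ι' → V) : vol (Sum.elim v c) ≤ vol v * vol c := by
  obtain ⟨Q, h1, h2, h3, -⟩ := Vol_orth v
  rw [vol_sum v c (fun j => Q (c j)) (fun j => h1 _)
    fun i j => h2 _ _ (Submodule.subset_span (mem_range_self i))]
  refine mul_le_mul_of_nonneg_left ?_ (vol_nonneg _)
  have := vol_le_of_norm_le (fun j => Q (c j)) c zero_le_one fun x => by
    simpa using h3 (∑ i, x i • c i) 0 (zero_mem _)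
  simpa using this

/-- Hadamard inequality -/
theorem vol_le_prod {ι : Type} [Fintype ι] [DecidableEq ι] (v : ι → V) :
    vol v ≤ ∏ i, ‖v i‖ := by
  revert v
  refine Vol_ind (P := fun ι _ _ => ∀ v : ι → V, vol v ≤ ∏ i, ‖v i‖) ?_ ?_ ?_ ι
  · intro ι ι' _ _ _ _ e ih v
    rw [← vol_equiv e, ← e.prod_comp]
    exact ih _
  · intro v
    simp [vol_empty]
  · intro n ih v
    have := vol_sum_le (v ∘ Sum.inl) (v ∘ Sum.inr)
    rw [Sum.elim_comp_inl_inr, vol_unique (v ∘ Sum.inr)] at this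
    rw [Fintype.prod_sum_type, Fintype.prod_unique (fun j : Fin 1 => ‖v (Sum.inr j)‖)]
    exact this.trans (mul_le_mul_of_nonneg_right (ih _) (norm_nonneg _))

/-- Koteljanskii inequality -/
theorem vol_submod {ι ι₁ ι₂ : Type} [Fintype ι] [DecidableEq ι] [Fintype ι₁] [DecidableEq ι₁]
    [Fintype ι₂] [DecidableEq ι₂] (v : ι → V) (c₁ : ι₁ → V) (c₂ : ι₂ → V) :
    vol v * vol (Sum.elim v (Sum.elim c₁ c₂)) ≤ vol (Sum.elim v c₁) * vol (Sum.elim v c₂) := by
  obtain ⟨Q, h1, h2, -, -⟩ := Vol_orth v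
  have h3 : ∀ i x, inner ℝ (v i) (Q x) = 0 := fun i x =>
    h2 _ _ (Submodule.subset_span (mem_range_self i))
  rw [vol_sum v c₁ (fun j => Q (c₁ j)) (fun j => h1 _) fun i j => h3 _ _,
    vol_sum v c₂ (fun j => Q (c₂ j)) (fun j => h1 _) fun i j => h3 _ _,
    vol_sum v _ (Sum.elim (fun j => Q (c₁ j)) fun j => Q (c₂ j))
      (by rintro (j | j) <;> exact h1 _) (by rintro i (j | j) <;> exact h3 _ _)]
  have := mul_le_mul_of_nonneg_left (vol_sum_le (fun j => Q (c₁ j)) fun j => Q (c₂ j))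
    (mul_self_nonneg (vol v))
  linarith

/-- the volume of two vectors with a planar component -/
theorem vol_two (v : Fin 2 → V) :
    vol v ^ 2 = ‖v 0‖ ^ 2 * ‖v 1‖ ^ 2 - inner ℝ (v 0) (v 1) ^ 2 := by
  rw [vol_sq, Matrix.det_fin_two]
  simp only [Matrix.gram_apply, real_inner_self_eq_norm_sq, real_inner_comm (v 0) (v 1)]
  ring

end Pool.Agent.MP_d0b2d2_an.Gen
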